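import Pool.Agent.H14.RG.Defs

/-!
# Auxiliary definitions (not used in the final statement)
-/

open scoped Manifold ContDiff Topology
open Set

namespace RG

variable {E : Type} [NormedAddCommGroup E] [NormedSpace ℂ E]
variable {X : Type} [TopologicalSpace X] [ChartedSpace E X]

/-- The form is semi-positive: its local potentials are plurisubharmonic. -/
def ClosedForm.Semipositive (w : ClosedForm E X) : Prop :=
  ∀ i, PshOn E (w.ρ i) (w.U i)

/-- The form is positive definite at `x`: for some chart `e` at `x` and some `c > 0` the function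
`ρ i - c * ‖e‖ ^ 2` is plurisubharmonic near `x` (Euclidean norm `‖e‖ ^ 2 = ∑ k, ‖e k‖ ^ 2`). -/
def ClosedForm.PosAt {n : ℕ} {X : Type} [TopologicalSpace X] [ChartedSpace (Fin n → ℂ) X]
    (w : ClosedForm (Fin n → ℂ) X) (x : X) : Prop :=
  ∃ i, ∃ e ∈ atlas (Fin n → ℂ) X, ∃ c : ℝ, 0 < c ∧ ∃ V : Set X, IsOpen V ∧ x ∈ V ∧
    V ⊆ w.U i ∧ V ⊆ e.source ∧
    PshOn (Fin n → ℂ) (fun y => w.ρ i y - c * ∑ k, ‖e y k‖ ^ 2) V

/-- A Kaehler form: positive definite at every point. -/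
def ClosedForm.Kaehler {n : ℕ} {X : Type} [TopologicalSpace X] [ChartedSpace (Fin n → ℂ) X]
    (w : ClosedForm (Fin n → ℂ) X) : Prop :=
  ∀ x, w.PosAt x

/-- For a semi-positive form, bigness (`∫ w ^ n > 0`) means: positive definite somewhere. -/
def ClosedForm.Big {n : ℕ} {X : Type} [TopologicalSpace X] [ChartedSpace (Fin n → ℂ) X]
    (w : ClosedForm (Fin n → ℂ) X) : Prop :=
  ∃ x, w.PosAt x

/-- Smooth `w`-plurisubharmonic functions. -/
def ClosedForm.SmoothPsh (w : ClosedForm E X) (u : X → ℝ) : Prop :=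
  ContMDiff 𝓘(ℝ, E) 𝓘(ℝ, ℝ) ∞ u ∧ w.Psh u

/-- The statement to be proved: a negative answer to the question. -/
def Goal : Prop :=
  ∃ (X : Type) (_ : TopologicalSpace X) (_ : ChartedSpace (Fin 3 → ℂ) X),
    T2Space X ∧ CompactSpace X ∧ ConnectedSpace X ∧ IsManifold 𝓘(ℂ, Fin 3 → ℂ) ω X ∧
    (∃ κ : ClosedForm (Fin 3 → ℂ) X, κ.Kaehler) ∧
    ∃ w : ClosedForm (Fin 3 → ℂ) X, w.Semipositive ∧ w.Big ∧
      ∃ φ : X → ℝ, Continuous φ ∧ w.Psh φ ∧
        ¬ ∃ u : ℕ → X → ℝ, (∀ j, w.SmoothPsh (u j)) ∧ (∀ j x, u (j + 1) x ≤ u j x) ∧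
          ∀ x, Filter.Tendsto (fun j => u j x) Filter.atTop (𝓝 (φ x))

end RG
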