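import Pool.Agent.H14.RG.PshDefs
import Pool.Agent.H14.RG.DefsOld

/-!
# Manifolds given by a family of parametrizations
-/

open scoped Topology Manifold ContDiff
open Set Metric

namespace RG

/-- a holomorphic atlas of `X` given by parametrizations `ψ i : U i → X` -/
structure Par (E X : Type) [NormedAddCommGroup E] [NormedSpace ℂ E] [TopologicalSpace X] where
  /-- index type -/
  ι : Type
  /-- domains -/
  U : ι → Set E
  /-- parametrizations -/
  ψ : ι → E → X
  isOpen_U : ∀ i, IsOpen (U i)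
  cont : ∀ i, ContinuousOn (ψ i) (U i)
  inj : ∀ i, InjOn (ψ i) (U i)
  open_map : ∀ i V, V ⊆ U i → IsOpen V → IsOpen (ψ i '' V)
  cover : ∀ x, ∃ i, ∃ y ∈ U i, ψ i y = x
  trans : ∀ i j y y', y ∈ U i → y' ∈ U j → ψ i y = ψ j y' →
    ∃ h : E → E, AnalyticAt ℂ h y ∧ h y = y' ∧ ∀ᶠ x in 𝓝 y, ψ j (h x) = ψ i x

variable {E X : Type} [NormedAddCommGroup E] [NormedSpace ℂ E] [TopologicalSpace X]

namespace Par

/-- the inverse of the parametrization -/
noncomputable def inv (P : Par E X) (i : P.ι) : X → E := Function.invFunOn (P.ψ i) (P.U i)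

/-- local potentials for a closed form, in terms of the parametrizations -/
structure Form (P : Par E X) where
  /-- the potentials -/
  R : P.ι → E → ℝ
  smooth : ∀ i, ContDiffOn ℝ ∞ (R i) (P.U i)
  compat : ∀ i j y y', y ∈ P.U i → y' ∈ P.U j → P.ψ i y = P.ψ j y' →
    ∀ h : E → E, AnalyticAt ℂ h y → h y = y' → (∀ᶠ x in 𝓝 y, P.ψ j (h x) = P.ψ i x) →
      PhAt (fun x => R i x - R j (h x)) y

end Par

end RG
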