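import Pool.Agent.H14.RG.FnDefs2
import Pool.Agent.H14.RG.ParDefs

/-!
# Blow-up of a 3-dimensional manifold at finitely many points of one chart

`X` is a space with parametrizations `P`, all points lie in the chart `k`; the points are
`P.ψ k (c i)`, and the closed balls of radius `r` about the `c i` are disjoint and contained in
`P.U k`. The blow-up is the set of pairs `(x, A)`, with `A` a matrix: `A = 0` outside the balls
and `A = (1 - ‖y‖ / r) • (projection onto the line of v)` over `x = P.ψ k (c i + y)`, where
`v ≠ 0` and `y` is a multiple of `v`.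
-/

open scoped Topology ContDiff ComplexConjugate
open Set Metric

namespace RG

/-- projection matrix onto the line spanned by `v` -/
noncomputable def PM (v : E3) : Fin 3 → Fin 3 → ℂ :=
  fun a b => v a * conj (v b) / ((∑ i, ‖v i‖ ^ 2 : ℝ) : ℂ)

variable {X : Type} [TopologicalSpace X]

/-- the data for a blow-up -/
structure BData (X : Type) [TopologicalSpace X] where
  /-- the manifold -/
  P : Par E3 X
  /-- the chart -/
  k : P.ι
  /-- index set of the points -/
  I : Type
  fin : Finite I
  /-- the points in the chart -/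
  c : I → E3
  /-- the radius -/
  r : ℝ
  r_pos : 0 < r
  ball_sub : ∀ i, closedBall (c i) r ⊆ P.U k
  disj : ∀ i j, i ≠ j → Disjoint (closedBall (c i) r) (closedBall (c j) r)

namespace BData

/-- the set of blown-up points -/
def Z (B : BData X) : Set X := range fun i => B.P.ψ B.k (B.c i)

/-- the union of the open balls -/
def W (B : BData X) : Set X := ⋃ i, B.P.ψ B.k '' ball (B.c i) B.r

/-- validity of the triple `i, y, v` -/
def Valid (B : BData X) (y v : E3) : Prop := ‖y‖ < B.r ∧ v ≠ 0 ∧ ∃ s : ℂ, y = s • v

/-- the matrix -/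
noncomputable def mat (B : BData X) (y v : E3) : Fin 3 → Fin 3 → ℂ :=
  ((1 - ‖y‖ / B.r : ℝ) : ℂ) • PM v

/-- the blow-up as a subset of `X × Mat` -/
def S (B : BData X) : Set (X × (Fin 3 → Fin 3 → ℂ)) :=
  {p | (p.1 ∉ B.W ∧ p.2 = 0) ∨
    ∃ i y v, B.Valid y v ∧ p.1 = B.P.ψ B.k (B.c i + y) ∧ p.2 = B.mat y v}

/-- the blow-up -/
def Bl (B : BData X) : Type := B.S

noncomputable instance (B : BData X) : TopologicalSpace B.Bl :=
  inferInstanceAs (TopologicalSpace B.S)

/-- the projection -/
def pr (B : BData X) (p : B.Bl) : X := p.1.1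

/-- the point given by a valid triple -/
noncomputable def pt (B : BData X) (i : B.I) (y v : E3) (h : B.Valid y v) : B.Bl :=
  ⟨(B.P.ψ B.k (B.c i + y), B.mat y v), Or.inr ⟨i, y, v, h, rfl, rfl⟩⟩

/-- domain of the chart `(i, l)` -/
def UE (B : BData X) (l : Fin 3) : Set E3 := {u | ‖bl l u‖ < B.r}

theorem valid_bl (B : BData X) {l : Fin 3} {u : E3} (hu : u ∈ B.UE l) :
    B.Valid (bl l u) (dir l u) := by
  refine ⟨hu, fun h => ?_, u l, rfl⟩
  have := congrFun h l
  simp [dir] at this

end BData

end RG
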