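import Pool.Agent.H14.RG.BlowMA

/-!
# Module K1b: the blow-up is compact and connected
-/

open scoped Topology ContDiff ComplexConjugate
open Set Metric

namespace RG

variable {X : Type} [TopologicalSpace X]

namespace BData

/-- the parametrization of the blow-up by a multiple and a direction -/
noncomputable def gl (B : BData X) (i : B.I) (q : ℂ × E3) : X × (Fin 3 → Fin 3 → ℂ) :=
  (B.P.ψ B.k (B.c i + q.1 • q.2), B.mat (q.1 • q.2) q.2)

theorem isOpen_W (B : BData X) : IsOpen B.W :=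
  isOpen_iUnion fun i => B.P.open_map B.k _ (ball_subset_closedBall.trans (B.ball_sub i))
    isOpen_ball

theorem add_mem_cball (B : BData X) (i : B.I) {y : E3} (hy : ‖y‖ ≤ B.r) :
    B.c i + y ∈ closedBall (B.c i) B.r := by
  rw [mem_closedBall, dist_eq_norm, add_sub_cancel_left]
  exact hy

/-- the closed balls are embedded disjointly -/
theorem psi_inj (B : BData X) {i j : B.I} {y y' : E3} (hy : ‖y‖ ≤ B.r) (hy' : ‖y'‖ ≤ B.r)
    (h : B.P.ψ B.k (B.c i + y) = B.P.ψ B.k (B.c j + y')) : i = j ∧ y = y' := by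
  have h1 := B.add_mem_cball i hy
  have h2 := B.add_mem_cball j hy'
  have h3 : B.c i + y = B.c j + y' := B.P.inj B.k (B.ball_sub i h1) (B.ball_sub j h2) h
  have h4 : i = j := by
    by_contra hne
    exact (disjoint_left.1 (B.disj i j hne) h1) (h3 ▸ h2)
  subst h4
  exact ⟨rfl, add_left_cancel h3⟩

theorem notMem_W (B : BData X) {i : B.I} {y : E3} (hy : ‖y‖ = B.r) :
    B.P.ψ B.k (B.c i + y) ∉ B.W := by
  intro h
  obtain ⟨j, z, hz, hzy⟩ := mem_iUnion.1 h
  have h1 : ‖z - B.c j‖ < B.r := by rwa [← dist_eq_norm]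
  have h2 : B.P.ψ B.k (B.c j + (z - B.c j)) = B.P.ψ B.k (B.c i + y) := by
    rw [add_sub_cancel]
    exact hzy
  obtain ⟨_, h3⟩ := B.psi_inj h1.le hy.le h2
  rw [h3, hy] at h1
  exact lt_irrefl _ h1

theorem notMem_Z' (B : BData X) {i : B.I} {y : E3} (hy : ‖y‖ ≤ B.r) (h0 : y ≠ 0) :
    B.P.ψ B.k (B.c i + y) ∉ B.Z := by
  rintro ⟨j, hj⟩
  have h2 : B.P.ψ B.k (B.c j + 0) = B.P.ψ B.k (B.c i + y) := by
    rw [add_zero]
    exact hj
  obtain ⟨_, h3⟩ := B.psi_inj (by rw [norm_zero]; exact B.r_pos.le) hy h2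
  exact h0 h3.symm

theorem gl_contAt (B : BData X) (i : B.I) {q : ℂ × E3} (h0 : q.2 ≠ 0) (hq : ‖q.1 • q.2‖ ≤ B.r) :
    ContinuousAt (B.gl i) q := by
  have h1 : Continuous (fun q : ℂ × E3 => q.1 • q.2) := continuous_fst.smul continuous_snd
  have hm : B.c i + q.1 • q.2 ∈ B.P.U B.k := B.ball_sub i (B.add_mem_cball i hq)
  have h2 : ContinuousAt (B.P.ψ B.k) (B.c i + q.1 • q.2) :=
    (B.P.cont B.k).continuousAt ((B.P.isOpen_U B.k).mem_nhds hm)
  have h3 : ContinuousAt (fun q : ℂ × E3 => B.P.ψ B.k (B.c i + q.1 • q.2)) q :=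
    ContinuousAt.comp (g := B.P.ψ B.k) (f := fun q : ℂ × E3 => B.c i + q.1 • q.2) h2
      (continuous_const.add h1).continuousAt
  have h4 : ContinuousAt (fun q : ℂ × E3 => PM q.2) q := by
    have h5 : ContinuousAt PM q.2 :=
      PM_cont.continuousAt (isOpen_ne.mem_nhds h0)
    exact ContinuousAt.comp (g := PM) (f := fun q : ℂ × E3 => q.2) h5 continuousAt_snd
  have h5 : ContinuousAt (fun q : ℂ × E3 => ((1 - ‖q.1 • q.2‖ / B.r : ℝ) : ℂ)) q := by
    have : Continuous (fun q : ℂ × E3 => ((1 - ‖q.1 • q.2‖ / B.r : ℝ) : ℂ)) :=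
      Complex.continuous_ofReal.comp (continuous_const.sub (h1.norm.div_const _))
    exact this.continuousAt
  exact h3.prodMk (h5.smul h4)

theorem gl_mem (B : BData X) (i : B.I) {q : ℂ × E3} (h0 : q.2 ≠ 0) (hq : ‖q.1 • q.2‖ ≤ B.r) :
    B.gl i q ∈ B.S := by
  rcases lt_or_eq_of_le hq with h | h
  · exact Or.inr ⟨i, _, _, ⟨h, h0, q.1, rfl⟩, rfl, rfl⟩
  · refine Or.inl ⟨B.notMem_W h, ?_⟩
    change ((1 - ‖q.1 • q.2‖ / B.r : ℝ) : ℂ) • PM q.2 = 0
    rw [h, div_self B.r_pos.ne', sub_self, Complex.ofReal_zero, zero_smul]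

theorem S_eq (B : BData X) : B.S = (B.Wᶜ ×ˢ {0}) ∪
    ⋃ i, B.gl i '' (closedBall (0 : ℂ) B.r ×ˢ sphere (0 : E3) 1) := by
  apply Subset.antisymm
  · rintro p (⟨h1, h2⟩ | ⟨i, y, v, ⟨hy, hv, s, hs⟩, h1, h2⟩)
    · exact Or.inl ⟨h1, h2⟩
    · refine Or.inr (mem_iUnion.2 ⟨i, (s * (‖v‖ : ℂ), (‖v‖ : ℂ)⁻¹ • v), ⟨?_, ?_⟩, ?_⟩)
      · have h3 : ‖v‖ ≠ 0 := norm_ne_zero_iff.2 hv
        rw [mem_closedBall, dist_zero_right, norm_mul, Complex.norm_real, norm_norm, ← norm_smul,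
          ← hs]
        exact hy.le
      · have h3 : ‖v‖ ≠ 0 := norm_ne_zero_iff.2 hv
        rw [mem_sphere, dist_zero_right, norm_smul, norm_inv, Complex.norm_real, norm_norm,
          inv_mul_cancel₀ h3]
      · have h3 : (‖v‖ : ℂ) ≠ 0 := by exact_mod_cast norm_ne_zero_iff.2 hv
        have h4 : (s * (‖v‖ : ℂ)) • ((‖v‖ : ℂ)⁻¹ • v) = y := by
          rw [smul_smul, mul_assoc, mul_inv_cancel₀ h3, mul_one, hs]
        have h5 : B.gl i (s * (‖v‖ : ℂ), (‖v‖ : ℂ)⁻¹ • v) =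
            (B.P.ψ B.k (B.c i + y), ((1 - ‖y‖ / B.r : ℝ) : ℂ) • PM v) := by
          change (B.P.ψ B.k (B.c i + (s * (‖v‖ : ℂ)) • ((‖v‖ : ℂ)⁻¹ • v)),
            ((1 - ‖(s * (‖v‖ : ℂ)) • ((‖v‖ : ℂ)⁻¹ • v)‖ / B.r : ℝ) : ℂ) •
              PM ((‖v‖ : ℂ)⁻¹ • v)) = _
          rw [h4, PM_smul (inv_ne_zero h3)]
        rw [h5]
        exact Prod.ext h1.symm h2.symm
  · rintro p (⟨h1, h2⟩ | h)
    · exact Or.inl ⟨h1, h2⟩
    · obtain ⟨i, q, ⟨hq1, hq2⟩, rfl⟩ := mem_iUnion.1 h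
      rw [mem_closedBall, dist_zero_right] at hq1
      rw [mem_sphere, dist_zero_right] at hq2
      refine B.gl_mem i ?_ ?_
      · intro h0
        rw [h0, norm_zero] at hq2
        exact zero_ne_one hq2
      · rw [norm_smul, hq2, mul_one]
        exact hq1

theorem compact [T2Space X] [CompactSpace X] (B : BData X) : CompactSpace B.Bl := by
  have hfin := B.fin
  have h1 : IsCompact B.S := by
    rw [S_eq]
    refine IsCompact.union ((B.isOpen_W.isClosed_compl.isCompact).prod isCompact_singleton) ?_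
    refine isCompact_iUnion fun i => ?_
    refine ((isCompact_closedBall (0 : ℂ) B.r).prod (isCompact_sphere (0 : E3) 1)).image_of_continuousOn
      fun q hq => ?_
    obtain ⟨hq1, hq2⟩ := hq
    rw [mem_closedBall, dist_zero_right] at hq1
    rw [mem_sphere, dist_zero_right] at hq2
    refine (B.gl_contAt i ?_ ?_).continuousWithinAt
    · intro h0
      rw [h0, norm_zero] at hq2
      exact zero_ne_one hq2
    · rw [norm_smul, hq2, mul_one]
      exact hq1
  exact isCompact_iff_compactSpace.1 h1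

theorem connected [T2Space X] (B : BData X) (h : IsConnected (B.Zᶜ : Set X)) :
    ConnectedSpace B.Bl := by
  have h1 : IsConnected (B.sm '' (B.Zᶜ)) := h.image _ B.sm_cont
  have h2 : closure (B.sm '' (B.Zᶜ)) = univ := by
    rw [eq_univ_iff_forall]
    intro p
    by_cases hp : B.pr p ∈ B.Z
    · have hZW : B.Z ⊆ B.W := by
        rintro _ ⟨i, rfl⟩
        exact mem_iUnion.2 ⟨i, B.c i, mem_ball_self B.r_pos, rfl⟩
      obtain ⟨i, y, v, ⟨hy, hv, s, hs⟩, rfl⟩ := B.exists_triple (hZW hp)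
      subst hs
      refine closure_subtype.2 ?_
      have hne : ∀ᶠ s' in 𝓝[≠] s, s' ≠ 0 := by
        by_cases h0 : s = 0
        · subst h0
          exact eventually_mem_nhdsWithin
        · exact eventually_nhdsWithin_of_eventually_nhds (isOpen_ne.mem_nhds h0)
      have hr : ∀ᶠ s' in 𝓝[≠] s, ‖s' • v‖ < B.r := by
        apply eventually_nhdsWithin_of_eventually_nhds
        have hc : Continuous fun s' : ℂ => ‖s' • v‖ := by fun_prop
        exact hc.continuousAt.eventually_lt continuousAt_const hy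
      have hT : Filter.Tendsto (fun s' : ℂ => B.gl i (s', v)) (𝓝[≠] s) (𝓝 (B.gl i (s, v))) := by
        have h5 : ContinuousAt (fun s' : ℂ => B.gl i (s', v)) s :=
          ContinuousAt.comp (g := B.gl i) (f := fun s' : ℂ => (s', v))
            (B.gl_contAt i hv hy.le) (by fun_prop)
        exact h5.tendsto.mono_left nhdsWithin_le_nhds
      refine mem_closure_of_tendsto (f := fun s' : ℂ => B.gl i (s', v)) (b := 𝓝[≠] s) hT ?_
      filter_upwards [hne, hr] with s' hs' hr'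
      have h6 : B.P.ψ B.k (B.c i + s' • v) ∉ B.Z :=
        B.notMem_Z' hr'.le (smul_ne_zero hs' hv)
      refine ⟨B.pt i (s' • v) v ⟨hr', hv, s', rfl⟩, ⟨B.P.ψ B.k (B.c i + s' • v), h6, ?_⟩, rfl⟩
      refine B.eq_of_pr (B.pr_sm _) ?_
      rw [B.pr_sm]
      exact h6
    · refine subset_closure ⟨B.pr p, hp, ?_⟩
      refine B.eq_of_pr (B.pr_sm _) ?_
      rw [B.pr_sm]
      exact hp
  have h3 : IsConnected (univ : Set B.Bl) := by
    rw [← h2]
    exact h1.closure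
  exact connectedSpace_iff_univ.2 h3

end BData

end RG
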