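import Pool.Agent.H14.RG.BlowMA
import Pool.Agent.H14.RG.BlowMB

/-!
# Module K1: the blow-up as a topological space

The statements are proved in `BlowMA` (points, section, continuity, Hausdorff) and in `BlowMB`
(compactness, connectedness).
-/
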