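import Pool.Agent.H14.RG.Psh

/-!
# Module B2: toolkit for `LPsh` (functions `F ≥ 0` with `log F` psh)
-/

open scoped Topology
open Set Metric

namespace RG

variable {V W : Type} [NormedAddCommGroup V] [NormedSpace ℂ V]
  [NormedAddCommGroup W] [NormedSpace ℂ W]

/-- limit of a one parameter family `Φ d`, `d → 0`, jointly continuous on `[0, 1] × U` -/
theorem PshE.param_limit {Φ : ℝ → V → ℝ} {U : Set V}
    (hc : ContinuousOn (fun p : ℝ × V => Φ p.1 p.2) (Icc (0 : ℝ) 1 ×ˢ U))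
    (hp : ∀ d, 0 < d → d ≤ 1 → PshE (Φ d) U) : PshE (Φ 0) U := by
  have h0 : (0 : ℝ) ∈ Icc (0 : ℝ) 1 := ⟨le_refl _, zero_le_one⟩
  have hd : ∀ n : ℕ, (0 : ℝ) < 1 / ((n : ℝ) + 1) ∧ 1 / ((n : ℝ) + 1) ≤ 1 := fun n =>
    ⟨Nat.one_div_pos_of_nat, by
      rw [div_le_one (by positivity)]
      have : (0 : ℝ) ≤ n := Nat.cast_nonneg n
      linarith⟩
  have ht : Filter.Tendsto (fun n : ℕ => 1 / ((n : ℝ) + 1)) Filter.atTop
      (𝓝[Icc (0 : ℝ) 1] 0) := by
    rw [tendsto_nhdsWithin_iff]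
    exact ⟨tendsto_one_div_add_atTop_nhds_zero_nat,
      Filter.Eventually.of_forall fun n => ⟨(hd n).1.le, (hd n).2⟩⟩
  refine PshE.limit (f := fun n => Φ (1 / ((n : ℝ) + 1))) (fun n => hp _ (hd n).1 (hd n).2) ?_ ?_
  · intro K hK hKc
    have hu : UniformContinuousOn (fun p : ℝ × V => Φ p.1 p.2) (Icc (0 : ℝ) 1 ×ˢ K) :=
      (isCompact_Icc.prod hKc).uniformContinuousOn_of_continuous
        (hc.mono (prod_mono le_rfl hK))
    have hT : TendstoUniformlyOn Φ (Φ 0) (𝓝[Icc (0 : ℝ) 1] 0) K :=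
      UniformContinuousOn.tendstoUniformlyOn hu h0
    intro u hu'
    exact ht.eventually (hT u hu')
  · have hj : ContinuousOn (fun x : V => ((0 : ℝ), x)) U := by fun_prop
    exact hc.comp hj fun x hx => ⟨h0, hx⟩

theorem LPsh.mono {F : V → ℝ} {U U' : Set V} (hF : LPsh F U) (h : U' ⊆ U) : LPsh F U' :=
  ⟨hF.1.mono h, fun x hx => hF.2.1 x (h hx), fun ε hε => (hF.2.2 ε hε).mono h⟩

theorem LPsh.congr {F G : V → ℝ} {U : Set V} (hF : LPsh F U) (h : EqOn G F U) : LPsh G U :=
  ⟨hF.1.congr h, fun x hx => by rw [h hx]; exact hF.2.1 x hx,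
    fun ε hε => (hF.2.2 ε hε).congr fun x hx => by
      change Real.log (G x + ε) = Real.log (F x + ε)
      rw [h hx]⟩

theorem LPsh.const {a : ℝ} (ha : 0 ≤ a) (U : Set V) : LPsh (fun _ => a) U :=
  ⟨continuousOn_const, fun _ _ => ha, fun ε _ => PshE.const (Real.log (a + ε)) U⟩

/-- the square of the norm of an analytic function -/
theorem LPsh.norm_sq {h : V → ℂ} {U : Set V} (hU : IsOpen U) (hh : AnalyticOnNhd ℂ h U) :
    LPsh (fun x => ‖h x‖ ^ 2) U := by
  have hcont : ContinuousOn (fun x => ‖h x‖ ^ 2) U := hh.continuousOn.norm.pow 2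
  refine ⟨hcont, fun x _ => by positivity, fun ε hε => ?_⟩
  refine PshE.of_lsub hU ?_ ?_
  · refine (hcont.add continuousOn_const).log fun x _ => ?_
    have h1 : 0 < ‖h x‖ ^ 2 + ε := by positivity
    exact h1.ne'
  · intro γ c hγ hc
    have hg : AnalyticAt ℂ (fun ζ => h (γ ζ)) c := (hh (γ c) hc).comp hγ
    set g : ℂ → ℂ := fun ζ => h (γ ζ) with hgdef
    set A : ℝ := ‖g c‖ ^ 2 + ε with hA
    have hA0 : 0 < A := by positivity
    -- the comparison function
    set G : ℂ → ℂ := fun ζ => (starRingEnd ℂ (g c) * g ζ + (ε : ℂ)) with hG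
    have hGa : AnalyticAt ℂ G c := by
      exact (analyticAt_const.mul hg).add analyticAt_const
    have hGc : G c = (A : ℂ) := by
      simp only [hG, hA]
      rw [← Complex.normSq_eq_conj_mul_self, Complex.normSq_eq_norm_sq]
      push_cast
      ring
    have hGc0 : G c ≠ 0 := by
      rw [hGc]
      exact_mod_cast hA0.ne'
    -- Cauchy-Schwarz
    have hCS : ∀ ζ, ‖G ζ‖ ^ 2 ≤ A * (‖g ζ‖ ^ 2 + ε) := by
      intro ζ
      have h1 : ‖G ζ‖ ≤ ‖g c‖ * ‖g ζ‖ + ε := by
        calc ‖G ζ‖ ≤ ‖starRingEnd ℂ (g c) * g ζ‖ + ‖(ε : ℂ)‖ := norm_add_le _ _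
          _ = ‖g c‖ * ‖g ζ‖ + ε := by
              rw [norm_mul, RCLike.norm_conj, Complex.norm_real, Real.norm_of_nonneg hε.le]
      have h2 : ‖G ζ‖ ^ 2 ≤ (‖g c‖ * ‖g ζ‖ + ε) ^ 2 :=
        pow_le_pow_left₀ (norm_nonneg _) h1 2
      refine h2.trans ?_
      have h3 := mul_nonneg hε.le (sq_nonneg (‖g c‖ - ‖g ζ‖))
      simp only [hA]
      nlinarith
    have hev : ∀ᶠ ζ in 𝓝 c, AnalyticAt ℂ G ζ ∧ AnalyticAt ℂ g ζ ∧ G ζ ≠ 0 :=
      hGa.eventually_analyticAt.and (hg.eventually_analyticAt.and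
        (hGa.continuousAt.eventually_ne hGc0))
    obtain ⟨ρ, hρ, hball⟩ := Metric.eventually_nhds_iff_ball.1 hev
    refine ⟨ρ, hρ, fun r hr hrρ => ?_⟩
    have hsub : closedBall c r ⊆ ball c ρ := closedBall_subset_ball hrρ
    have hGl : PshE (fun ζ => 2 * Real.log ‖G ζ‖) (ball c ρ) :=
      PshE.log_norm (fun ζ hζ => (hball ζ hζ).1) (fun ζ hζ => (hball ζ hζ).2.2) 2
    have h1 := hGl.2 (fun ζ => ζ) c r hr (fun _ _ => analyticAt_id) (fun ζ hζ => hsub hζ)
    have hsph : sphere c |r| ⊆ ball c ρ := by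
      rw [abs_of_pos hr]
      exact sphere_subset_closedBall.trans hsub
    have hci1 : CircleIntegrable (fun ζ => 2 * Real.log ‖G ζ‖ - Real.log A) c r := by
      apply ContinuousOn.circleIntegrable'
      exact ((hGl.1.mono hsph).sub continuousOn_const)
    have hci2 : CircleIntegrable (fun ζ => Real.log (‖g ζ‖ ^ 2 + ε)) c r := by
      apply ContinuousOn.circleIntegrable'
      have hgc : ContinuousOn g (sphere c |r|) := fun ζ hζ =>
        (hball ζ (hsph hζ)).2.1.continuousAt.continuousWithinAt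
      refine ((hgc.norm.pow 2).add continuousOn_const).log fun x _ => ?_
      have h1 : 0 < ‖g x‖ ^ 2 + ε := by positivity
      exact h1.ne'
    have hle : ∀ ζ ∈ sphere c |r|, 2 * Real.log ‖G ζ‖ - Real.log A
        ≤ Real.log (‖g ζ‖ ^ 2 + ε) := by
      intro ζ hζ
      have hne : G ζ ≠ 0 := (hball ζ (hsph hζ)).2.2
      have hpos : 0 < ‖G ζ‖ := norm_pos_iff.2 hne
      have h4 : 2 * Real.log ‖G ζ‖ = Real.log (‖G ζ‖ ^ 2) := by
        rw [Real.log_pow]; norm_num
      have h5 : Real.log (‖G ζ‖ ^ 2) ≤ Real.log (A * (‖g ζ‖ ^ 2 + ε)) :=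
        Real.log_le_log (by positivity) (hCS ζ)
      rw [Real.log_mul hA0.ne' (by positivity)] at h5
      linarith
    have h6 : Real.circleAverage (fun ζ => 2 * Real.log ‖G ζ‖ - Real.log A) c r
        = Real.circleAverage (fun ζ => 2 * Real.log ‖G ζ‖) c r - Real.log A := by
      rw [Real.circleAverage_fun_sub ?_ ?_, Real.circleAverage_const]
      · apply ContinuousOn.circleIntegrable'
        exact hGl.1.mono hsph
      · exact circleIntegrable_const _ _ _
    have h7 := Real.circleAverage_mono hci1 hci2 hle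
    rw [h6] at h7
    have h8 : Real.log ‖G c‖ = Real.log A := by
      rw [hGc, Complex.norm_real, Real.norm_of_nonneg hA0.le]
    simp only at h1
    rw [h8] at h1
    change Real.log (‖g c‖ ^ 2 + ε) ≤ Real.circleAverage (fun ζ => Real.log (‖g ζ‖ ^ 2 + ε)) c r
    rw [← hA]
    linarith

theorem LPsh.exp {f : V → ℝ} {U : Set V} (hf : PshE f U) : LPsh (fun x => Real.exp (f x)) U := by
  refine ⟨hf.1.rexp, fun x _ => (Real.exp_pos _).le, fun ε hε => ?_⟩
  refine (PshE.lse hf (PshE.const (Real.log ε) U)).congr fun x _ => ?_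
  change Real.log (Real.exp (f x) + ε) = Real.log (Real.exp (f x) + Real.exp (Real.log ε))
  rw [Real.exp_log hε]

theorem LPsh.add {F G : V → ℝ} {U : Set V} (hF : LPsh F U) (hG : LPsh G U) :
    LPsh (fun x => F x + G x) U := by
  refine ⟨hF.1.add hG.1, fun x hx => add_nonneg (hF.2.1 x hx) (hG.2.1 x hx), fun ε hε => ?_⟩
  have h2 : 0 < ε / 2 := by positivity
  refine (PshE.lse (hF.2.2 _ h2) (hG.2.2 _ h2)).congr fun x hx => ?_
  have h3 := hF.2.1 x hx
  have h4 := hG.2.1 x hx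
  change Real.log (F x + G x + ε) = Real.log (Real.exp (Real.log (F x + ε / 2))
    + Real.exp (Real.log (G x + ε / 2)))
  rw [Real.exp_log (by positivity), Real.exp_log (by positivity)]
  congr 1
  ring

theorem LPsh.mul {F G : V → ℝ} {U : Set V} (hF : LPsh F U) (hG : LPsh G U) :
    LPsh (fun x => F x * G x) U := by
  refine ⟨hF.1.mul hG.1, fun x hx => mul_nonneg (hF.2.1 x hx) (hG.2.1 x hx), fun ε hε => ?_⟩
  have key : PshE ((fun (d : ℝ) (x : V) => Real.log ((F x + d) * (G x + d) + ε)) 0) U := by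
    refine PshE.param_limit (Φ := fun (d : ℝ) (x : V) => Real.log ((F x + d) * (G x + d) + ε))
      ?_ ?_
    · have hF' : ContinuousOn (fun p : ℝ × V => F p.2) (Icc (0 : ℝ) 1 ×ˢ U) :=
        hF.1.comp continuousOn_snd fun p hp => hp.2
      have hG' : ContinuousOn (fun p : ℝ × V => G p.2) (Icc (0 : ℝ) 1 ×ˢ U) :=
        hG.1.comp continuousOn_snd fun p hp => hp.2
      have hd : ContinuousOn (fun p : ℝ × V => p.1) (Icc (0 : ℝ) 1 ×ˢ U) := continuousOn_fst
      refine (((hF'.add hd).mul (hG'.add hd)).add continuousOn_const).log fun p hp => ?_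
      have h3 := hF.2.1 p.2 hp.2
      have h4 := hG.2.1 p.2 hp.2
      have h5 : 0 ≤ p.1 := hp.1.1
      have h6 : 0 < (F p.2 + p.1) * (G p.2 + p.1) + ε := by positivity
      exact h6.ne'
    · intro d hd _
      refine (PshE.lse ((hF.2.2 d hd).add (hG.2.2 d hd)) (PshE.const (Real.log ε) U)).congr
        fun x hx => ?_
      have h3 := hF.2.1 x hx
      have h4 := hG.2.1 x hx
      change Real.log ((F x + d) * (G x + d) + ε)
        = Real.log (Real.exp (Real.log (F x + d) + Real.log (G x + d)) + Real.exp (Real.log ε))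
      rw [Real.exp_add, Real.exp_log (by positivity), Real.exp_log (by positivity),
        Real.exp_log hε]
  refine key.congr fun x _ => ?_
  simp

theorem LPsh.pow {F : V → ℝ} {U : Set V} (hF : LPsh F U) (n : ℕ) :
    LPsh (fun x => F x ^ n) U := by
  induction n with
  | zero => simpa using LPsh.const (zero_le_one : (0 : ℝ) ≤ 1) U
  | succ n ih => simpa only [pow_succ] using ih.mul hF

theorem LPsh.comp_analytic {F : V → ℝ} {U : Set V} (hF : LPsh F U) {g : W → V} {U' : Set W}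
    (hg : AnalyticOnNhd ℂ g U') (hm : MapsTo g U' U) : LPsh (fun x => F (g x)) U' :=
  ⟨hF.1.comp hg.continuousOn hm, fun _ hx => hF.2.1 _ (hm hx),
    fun ε hε => (hF.2.2 ε hε).comp_analytic hg hm⟩

/-- where `F > 0`, `log F` is psh -/
theorem LPsh.log {F : V → ℝ} {U : Set V} (hF : LPsh F U) (h0 : ∀ x ∈ U, 0 < F x) :
    PshE (fun x => Real.log (F x)) U := by
  have key : PshE ((fun (d : ℝ) (x : V) => Real.log (F x + d)) 0) U := by
    refine PshE.param_limit (Φ := fun (d : ℝ) (x : V) => Real.log (F x + d)) ?_ ?_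
    · have hF' : ContinuousOn (fun p : ℝ × V => F p.2) (Icc (0 : ℝ) 1 ×ˢ U) :=
        hF.1.comp continuousOn_snd fun p hp => hp.2
      have hd : ContinuousOn (fun p : ℝ × V => p.1) (Icc (0 : ℝ) 1 ×ˢ U) := continuousOn_fst
      refine (hF'.add hd).log fun p hp => ?_
      have h3 := h0 p.2 hp.2
      have h5 : 0 ≤ p.1 := hp.1.1
      have h6 : 0 < F p.2 + p.1 := by positivity
      exact h6.ne'
    · intro d hd _
      exact hF.2.2 d hd
  refine key.congr fun x _ => ?_
  simp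

/-- positive powers are psh, also at the zeros of `F` -/
theorem LPsh.rpow {F : V → ℝ} {U : Set V} (hF : LPsh F U) {s : ℝ} (hs : 0 < s) :
    PshE (fun x => F x ^ s) U := by
  have key : PshE ((fun (d : ℝ) (x : V) => (F x + d) ^ s) 0) U := by
    refine PshE.param_limit (Φ := fun (d : ℝ) (x : V) => (F x + d) ^ s) ?_ ?_
    · have hF' : ContinuousOn (fun p : ℝ × V => F p.2) (Icc (0 : ℝ) 1 ×ˢ U) :=
        hF.1.comp continuousOn_snd fun p hp => hp.2
      have hd : ContinuousOn (fun p : ℝ × V => p.1) (Icc (0 : ℝ) 1 ×ˢ U) := continuousOn_fst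
      exact (hF'.add hd).rpow_const fun p _ => Or.inr hs.le
    · intro d hd _
      have hconv : ConvexOn ℝ univ (fun t : ℝ => Real.exp (s * t)) := by
        have := convexOn_exp.comp_linearMap (s • LinearMap.id : ℝ →ₗ[ℝ] ℝ)
        simpa [Function.comp_def] using this
      have hmono : Monotone (fun t : ℝ => Real.exp (s * t)) := fun a b hab =>
        Real.exp_le_exp.2 (mul_le_mul_of_nonneg_left hab hs.le)
      refine (PshE.convex_comp (hF.2.2 d hd) hconv hmono).congr fun x hx => ?_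
      have h3 := hF.2.1 x hx
      change (F x + d) ^ s = Real.exp (s * Real.log (F x + d))
      rw [Real.rpow_def_of_pos (by positivity), mul_comm]
  refine key.congr fun x _ => ?_
  simp

/-- the inverse of the square of the norm of a nonvanishing analytic function -/
theorem LPsh.inv_norm_sq {h : V → ℂ} {U : Set V} (hh : AnalyticOnNhd ℂ h U)
    (h0 : ∀ x ∈ U, h x ≠ 0) : LPsh (fun x => (‖h x‖ ^ 2)⁻¹) U := by
  refine (LPsh.exp (PshE.log_norm hh h0 (-2))).congr fun x hx => ?_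
  have hpos : 0 < ‖h x‖ := norm_pos_iff.2 (h0 x hx)
  change (‖h x‖ ^ 2)⁻¹ = Real.exp (-2 * Real.log ‖h x‖)
  rw [neg_mul, Real.exp_neg, two_mul, Real.exp_add, Real.exp_log hpos, sq]

end RG
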