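import Pool.Agent.H14.RG.Inv
import Pool.Agent.H14.RG.LPshM

/-!
# Module E2: regularity of the functions on the cone
-/

open scoped Topology ContDiff
open Set Metric

namespace RG

theorem coord_analytic (i : Fin 3) (p : V4) : AnalyticAt ℂ (fun p : V4 => p.2 i) p :=
  ((ContinuousLinearMap.proj (R := ℂ) (φ := fun _ : Fin 3 => ℂ) i).comp
    (ContinuousLinearMap.snd ℂ ℂ (Fin 3 → ℂ))).analyticAt p

theorem thb_fst_analytic {b : ℂ} (hb : ‖b‖ = 1) {p : V4} (hp : p.1 ≠ 0) :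
    AnalyticAt ℂ (fun p : V4 => thb b p.1) p :=
  AnalyticAt.comp (g := thb b) (f := fun p : V4 => p.1) (x := p) (thb_analytic hb hp)
    analyticAt_fst

theorem norm_aa_zpow (n : ℤ) : ‖aa ^ n‖ = 1 := by
  rw [norm_zpow, norm_aa, one_zpow]

theorem norm_aa_pow (n : ℕ) : ‖aa ^ n‖ = 1 := by
  rw [norm_pow, norm_aa, one_pow]

theorem fP_analytic {p : V4} (hp : p.1 ≠ 0) : AnalyticAt ℂ fP p := by
  have h1 : AnalyticAt ℂ (fun p : V4 => Th p.1) p := (thb_fst_analytic norm_aa hp).pow 4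
  exact (((coord_analytic 0 p).pow 3).mul (coord_analytic 1 p)).add
    (h1.mul ((coord_analytic 2 p).pow 4))

theorem fQ_analytic {p : V4} (hp : p.1 ≠ 0) : AnalyticAt ℂ fQ p := by
  have c0 := coord_analytic 0 p
  have c1 := coord_analytic 1 p
  have c2 := coord_analytic 2 p
  have t1 := thb_fst_analytic norm_aa hp
  have t2 := thb_fst_analytic (norm_aa_zpow (-6)) hp
  have t3 := thb_fst_analytic (norm_aa_zpow (-2)) hp
  have t4 := thb_fst_analytic (norm_aa_pow 2) hp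
  exact (((((t1.pow 2).mul c0).mul c2).sub (t2.mul (c1.pow 2))).add
    (((analyticAt_const.mul t3).mul c0).mul c1)).sub (t4.mul (c0.pow 2))

theorem th1_analytic {p : V4} (hp : p.1 ≠ 0) : AnalyticAt ℂ (fun p : V4 => th p.1) p :=
  AnalyticAt.comp (g := th) (f := fun p : V4 => p.1) (x := p) (th_analytic hp) analyticAt_fst

/-- analytic functions are smooth over the reals -/
theorem contDiffAt_of_analyticAt {V F : Type} [NormedAddCommGroup V] [NormedSpace ℂ V]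
    [NormedAddCommGroup F] [NormedSpace ℂ F] [NormedSpace ℝ V] [IsScalarTower ℝ ℂ V]
    [NormedSpace ℝ F] [IsScalarTower ℝ ℂ F] [CompleteSpace F]
    {f : V → F} {x : V} (hf : AnalyticAt ℂ f x) : ContDiffAt ℝ ∞ f x :=
  ContDiffAt.restrict_scalars ℝ (hf.contDiffAt (n := ∞))

theorem norm_sq_smooth {V : Type} [NormedAddCommGroup V] [NormedSpace ℂ V] [NormedSpace ℝ V]
    [IsScalarTower ℝ ℂ V] {f : V → ℂ} {x : V} (hf : AnalyticAt ℂ f x) :
    ContDiffAt ℝ ∞ (fun y => ‖f y‖ ^ 2) x :=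
  (contDiffAt_of_analyticAt hf).norm_sq ℝ

theorem qq_smooth {z : ℂ} (hz : z ≠ 0) : ContDiffAt ℝ ∞ qq z := by
  have h1 : ContDiffAt ℝ ∞ (fun z : ℂ => Real.log ‖z‖) z :=
    (contDiffAt_norm ℝ hz).log (norm_ne_zero_iff.2 hz)
  exact ((h1.pow 2).div_const _).add (h1.div_const _)

theorem qq_fst_smooth {p : V4} (hp : p.1 ≠ 0) : ContDiffAt ℝ ∞ (fun p : V4 => qq p.1) p :=
  ContDiffAt.comp p (qq_smooth hp) contDiffAt_fst

theorem a2_smooth {p : V4} (hp : p.1 ≠ 0) : ContDiffAt ℝ ∞ a2 p :=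
  (norm_sq_smooth (coord_analytic 2 p)).mul (contDiffAt_const.mul (qq_fst_smooth hp)).exp

theorem nE_smooth (p : V4) : ContDiffAt ℝ ∞ nE p :=
  (norm_sq_smooth (coord_analytic 0 p)).add (norm_sq_smooth (coord_analytic 1 p))

theorem nN_smooth {p : V4} (hp : p.1 ≠ 0) : ContDiffAt ℝ ∞ nN p :=
  (nE_smooth p).add (a2_smooth hp)

theorem nJp_smooth {p : V4} (hp : p.1 ≠ 0) : ContDiffAt ℝ ∞ nJp p :=
  ((norm_sq_smooth (th1_analytic hp)).mul ((nN_smooth hp).pow 2)).add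
    (norm_sq_smooth (fQ_analytic hp))

theorem nJ_smooth {p : V4} (hp : p.1 ≠ 0) : ContDiffAt ℝ ∞ nJ p :=
  (norm_sq_smooth (coord_analytic 2 p)).mul (nJp_smooth hp)

theorem nP_smooth {p : V4} (hp : p.1 ≠ 0) : ContDiffAt ℝ ∞ nP p :=
  norm_sq_smooth (fP_analytic hp)

theorem nB_smooth {p : V4} (hp : p.1 ≠ 0) : ContDiffAt ℝ ∞ nB p :=
  ((norm_sq_smooth (coord_analytic 2 p)).mul
    (contDiffAt_const.mul (qq_fst_smooth hp)).exp).mul (nN_smooth hp)

theorem nP_ne {p : V4} (h : fP p ≠ 0) : nP p ≠ 0 :=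
  pow_ne_zero 2 (norm_ne_zero_iff.2 h)

theorem k1_cont {p : V4} (hp : p.1 ≠ 0) (h : fP p ≠ 0) : ContinuousAt k1 p := by
  have h1 : ContinuousAt (fun p => nN p * nJ p * (nP p)⁻¹) p :=
    ((nN_smooth hp).continuousAt.mul (nJ_smooth hp).continuousAt).mul
      ((nP_smooth hp).continuousAt.inv₀ (nP_ne h))
  exact h1.rpow_const (Or.inr (by norm_num))

theorem k2_cont {p : V4} (hp : p.1 ≠ 0) (h : fP p ≠ 0) : ContinuousAt k2 p := by
  have h1 : ContinuousAt (fun p => a2 p * nJ p * (nP p)⁻¹) p :=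
    ((a2_smooth hp).continuousAt.mul (nJ_smooth hp).continuousAt).mul
      ((nP_smooth hp).continuousAt.inv₀ (nP_ne h))
  exact h1.rpow_const (Or.inr (by norm_num))

theorem sg_cont {p : V4} (h0 : p.2 0 ≠ 0) (h1 : p.2 1 ≠ 0) : ContinuousAt sg p := by
  have c0 : ContinuousAt (fun p : V4 => ‖p.2 0‖ ^ 2) p :=
    (coord_analytic 0 p).continuousAt.norm.pow 2
  have c1 : ContinuousAt (fun p : V4 => ‖p.2 1‖ ^ 2) p :=
    (coord_analytic 1 p).continuousAt.norm.pow 2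
  exact (c1.log (pow_ne_zero 2 (norm_ne_zero_iff.2 h1))).sub
    (c0.log (pow_ne_zero 2 (norm_ne_zero_iff.2 h0)))

theorem qq_psh : PshE qq {z : ℂ | z ≠ 0} := by
  have hid : AnalyticOnNhd ℂ (fun z : ℂ => z) {z : ℂ | z ≠ 0} := fun z _ => analyticAt_id
  have h1 : PshE (fun z : ℂ => Real.log ‖z‖ ^ 2) {z : ℂ | z ≠ 0} :=
    PshE.log_norm_sq hid fun z hz => hz
  have h2 : PshE (fun z : ℂ => (1 / 2) * Real.log ‖z‖) {z : ℂ | z ≠ 0} :=
    PshE.log_norm hid (fun z hz => hz) (1 / 2)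
  have h4 : 0 ≤ (2 * Real.log 4)⁻¹ := by
    have : 0 < Real.log 4 := Real.log_pos (by norm_num)
    positivity
  refine ((h1.mul_const h4).add h2).congr fun z _ => ?_
  change Real.log ‖z‖ ^ 2 / (2 * Real.log 4) + Real.log ‖z‖ / 2
    = (2 * Real.log 4)⁻¹ * Real.log ‖z‖ ^ 2 + 1 / 2 * Real.log ‖z‖
  ring

theorem qq_fst_psh : PshE (fun p : V4 => qq p.1) O4 :=
  qq_psh.comp_analytic (g := fun p : V4 => p.1) (fun _ _ => analyticAt_fst) fun _ hp => hp

theorem coord_lpsh (i : Fin 3) : LPsh (fun p : V4 => ‖p.2 i‖ ^ 2) O4 :=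
  LPsh.norm_sq isOpen_O4 fun p _ => coord_analytic i p

theorem a2_lpsh : LPsh a2 O4 :=
  (coord_lpsh 2).mul (LPsh.exp (qq_fst_psh.mul_const (a := 2) (by norm_num)))

theorem nE_lpsh : LPsh nE O4 := (coord_lpsh 0).add (coord_lpsh 1)

theorem nN_lpsh : LPsh nN O4 := nE_lpsh.add a2_lpsh

theorem nP_lpsh : LPsh nP O4 := LPsh.norm_sq isOpen_O4 fun _ hp => fP_analytic hp

theorem nJp_lpsh : LPsh nJp O4 :=
  ((LPsh.norm_sq isOpen_O4 fun _ hp => th1_analytic hp).mul (nN_lpsh.pow 2)).add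
    (LPsh.norm_sq isOpen_O4 fun _ hp => fQ_analytic hp)

theorem nJ_lpsh : LPsh nJ O4 := (coord_lpsh 2).mul nJp_lpsh

theorem nP_inv_lpsh : LPsh (fun p => (nP p)⁻¹) (O4 ∩ {p | fP p ≠ 0}) :=
  LPsh.inv_norm_sq (fun _ hp => fP_analytic hp.1) fun _ hp => hp.2

/-- `log nN - log nP` type functions: `k1`, `k2` are psh where `fP ≠ 0` -/
theorem k1_psh : PshE k1 (O4 ∩ {p | fP p ≠ 0}) :=
  LPsh.rpow (((nN_lpsh.mul nJ_lpsh).mono inter_subset_left).mul nP_inv_lpsh) (by norm_num)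

theorem k2_psh : PshE k2 (O4 ∩ {p | fP p ≠ 0}) :=
  LPsh.rpow (((a2_lpsh.mul nJ_lpsh).mono inter_subset_left).mul nP_inv_lpsh) (by norm_num)

/-- `log nP / 4` is pluriharmonic where `fP ≠ 0`; we need it minus `sg / 12` -/
theorem logP_psh : PshE (fun p => Real.log (nP p) / 4) (O4 ∩ {p | fP p ≠ 0}) := by
  refine (PshE.log_norm (h := fP) (fun _ hp => fP_analytic hp.1) (fun _ hp => hp.2)
    (1 / 2)).congr fun p _ => ?_
  change Real.log (‖fP p‖ ^ 2) / 4 = 1 / 2 * Real.log ‖fP p‖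
  rw [Real.log_pow]
  push_cast
  ring

theorem logP_sg_psh : PshE (fun p => Real.log (nP p) / 4 - sg p / 12)
    (O4 ∩ {p | fP p ≠ 0 ∧ p.2 0 ≠ 0 ∧ p.2 1 ≠ 0}) := by
  have h1 : PshE (fun p => Real.log (nP p) / 4) (O4 ∩ {p | fP p ≠ 0 ∧ p.2 0 ≠ 0 ∧ p.2 1 ≠ 0}) :=
    logP_psh.mono fun p hp => ⟨hp.1, hp.2.1⟩
  have h2 : PshE (fun p : V4 => (-(1 / 6)) * Real.log ‖p.2 1‖)
      (O4 ∩ {p | fP p ≠ 0 ∧ p.2 0 ≠ 0 ∧ p.2 1 ≠ 0}) :=
    PshE.log_norm (fun p _ => coord_analytic 1 p) (fun _ hp => hp.2.2.2) _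
  have h3 : PshE (fun p : V4 => (1 / 6) * Real.log ‖p.2 0‖)
      (O4 ∩ {p | fP p ≠ 0 ∧ p.2 0 ≠ 0 ∧ p.2 1 ≠ 0}) :=
    PshE.log_norm (fun p _ => coord_analytic 0 p) (fun _ hp => hp.2.2.1) _
  refine ((h1.add h2).add h3).congr fun p _ => ?_
  change Real.log (nP p) / 4 - (Real.log (‖p.2 1‖ ^ 2) - Real.log (‖p.2 0‖ ^ 2)) / 12
    = Real.log (nP p) / 4 + -(1 / 6) * Real.log ‖p.2 1‖ + 1 / 6 * Real.log ‖p.2 0‖
  rw [Real.log_pow, Real.log_pow]
  push_cast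
  ring

theorem coord3_analytic (i : Fin 3) (y : E3) : AnalyticAt ℂ (fun y : E3 => y i) y :=
  (ContinuousLinearMap.proj (R := ℂ) (φ := fun _ : Fin 3 => ℂ) i).analyticAt y

theorem sec_analytic (j : Fin 3) (y : E3) : AnalyticAt ℂ (sec j) y := by
  refine (coord3_analytic 0 y).prod ?_
  rw [analyticAt_pi_iff]
  intro i
  fin_cases j <;> fin_cases i <;>
    first
    | exact analyticAt_const
    | exact coord3_analytic 1 y
    | exact coord3_analytic 2 y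

theorem aff_analytic (t : ℂ) (y : E3) : AnalyticAt ℂ (aff t) y :=
  AnalyticAt.comp (g := sec 0) (f := fun y : E3 => cen t + y) (x := y)
    (sec_analytic 0 _) (analyticAt_const.add analyticAt_id)

theorem dir_analytic (l : Fin 3) (u : E3) : AnalyticAt ℂ (dir l) u := by
  rw [analyticAt_pi_iff]
  intro i
  by_cases h : i = l
  · subst h
    have : (fun u : E3 => dir i u i) = fun _ => 1 := by
      funext u
      simp [dir]
    rw [this]
    exact analyticAt_const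
  · have : (fun u : E3 => dir l u i) = fun u => u i := by
      funext u
      simp [dir, h]
    rw [this]
    exact coord3_analytic i u

theorem bl_analytic (l : Fin 3) (u : E3) : AnalyticAt ℂ (bl l) u :=
  (coord3_analytic l u).smul (dir_analytic l u)

end RG
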