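import Pool.Agent.H14.RG.BlowDefs
import Pool.Agent.H14.RG.Rgl

/-!
# Module K1, first part: points of the blow-up, the section, continuity
-/

open scoped Topology ContDiff ComplexConjugate
open Set Metric

namespace RG

variable {X : Type} [TopologicalSpace X]

theorem sumsq_pos {v : E3} (hv : v ≠ 0) : 0 < ∑ i, ‖v i‖ ^ 2 := by
  obtain ⟨i, hi⟩ : ∃ i, v i ≠ 0 := by
    by_contra h
    push Not at h
    exact hv (funext h)
  exact Finset.sum_pos' (fun _ _ => by positivity) ⟨i, Finset.mem_univ i, by positivity⟩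

theorem sumsq_ne {v : E3} (hv : v ≠ 0) : ((∑ i, ‖v i‖ ^ 2 : ℝ) : ℂ) ≠ 0 :=
  Complex.ofReal_ne_zero.2 (sumsq_pos hv).ne'

theorem PM_smul {v : E3} {s : ℂ} (hs : s ≠ 0) : PM (s • v) = PM v := by
  funext a b
  have h1 : ((∑ i, ‖(s • v) i‖ ^ 2 : ℝ) : ℂ) = (s * conj s) * ((∑ i, ‖v i‖ ^ 2 : ℝ) : ℂ) := by
    rw [Complex.mul_conj, Complex.normSq_eq_norm_sq, ← Complex.ofReal_mul, Finset.mul_sum]
    congr 1
    refine Finset.sum_congr rfl fun i _ => ?_
    rw [Pi.smul_apply, smul_eq_mul, norm_mul, mul_pow]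
  have h2 : s * conj s ≠ 0 := mul_ne_zero hs ((map_ne_zero _).2 hs)
  unfold PM
  rw [h1, Pi.smul_apply, Pi.smul_apply, smul_eq_mul, smul_eq_mul, map_mul,
    show s * v a * (conj s * conj (v b)) = (s * conj s) * (v a * conj (v b)) by ring,
    mul_div_mul_left _ _ h2]

theorem PM_inj {v v' : E3} (hv : v ≠ 0) (hv' : v' ≠ 0) (h : PM v = PM v') :
    ∃ s : ℂ, s ≠ 0 ∧ v' = s • v := by
  obtain ⟨b, hb⟩ : ∃ i, v' i ≠ 0 := by
    by_contra h
    push Not at h
    exact hv' (funext h)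
  have hN := sumsq_ne hv
  have hN' := sumsq_ne hv'
  have hcb : conj (v' b) ≠ 0 := (map_ne_zero _).2 hb
  have key : v' = (((∑ i, ‖v' i‖ ^ 2 : ℝ) : ℂ) * conj (v b) /
      (((∑ i, ‖v i‖ ^ 2 : ℝ) : ℂ) * conj (v' b))) • v := by
    funext a
    have h1 := congrFun (congrFun h a) b
    unfold PM at h1
    rw [div_eq_div_iff hN hN'] at h1
    rw [Pi.smul_apply, smul_eq_mul, div_mul_eq_mul_div, eq_div_iff (mul_ne_zero hN hcb)]
    linear_combination -h1
  refine ⟨_, fun h0 => hv' ?_, key⟩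
  rw [h0, zero_smul] at key
  exact key

theorem PM_cont : ContinuousOn PM {v : E3 | v ≠ 0} := by
  refine continuousOn_pi.2 fun a => continuousOn_pi.2 fun b => ?_
  refine ContinuousOn.div ?_ ?_ fun v hv => sumsq_ne hv
  · exact (Continuous.mul (continuous_apply a)
      (Complex.continuous_conj.comp (continuous_apply b))).continuousOn
  · exact (Complex.continuous_ofReal.comp (continuous_finsetSum _ fun i _ =>
      ((continuous_apply i).norm.pow 2))).continuousOn

namespace BData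

theorem add_mem_ball (B : BData X) (i : B.I) {y : E3} (hy : ‖y‖ < B.r) :
    B.c i + y ∈ ball (B.c i) B.r := by
  rw [mem_ball, dist_eq_norm, add_sub_cancel_left]
  exact hy

theorem ball_subU (B : BData X) (i : B.I) : ball (B.c i) B.r ⊆ B.P.U B.k :=
  ball_subset_closedBall.trans (B.ball_sub i)

/-- two points of the closed balls with the same image -/
theorem inj_closed (B : BData X) {i j : B.I} {z w : E3} (hz : z ∈ closedBall (B.c i) B.r)
    (hw : w ∈ closedBall (B.c j) B.r) (h : B.P.ψ B.k z = B.P.ψ B.k w) : i = j ∧ z = w := by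
  have hzw : z = w := B.P.inj B.k (B.ball_sub i hz) (B.ball_sub j hw) h
  refine ⟨?_, hzw⟩
  by_contra hij
  exact Set.disjoint_left.1 (B.disj i j hij) hz (hzw ▸ hw)

theorem inj_ball (B : BData X) {i j : B.I} {y y' : E3} (hy : ‖y‖ < B.r) (hy' : ‖y'‖ < B.r)
    (h : B.P.ψ B.k (B.c i + y) = B.P.ψ B.k (B.c j + y')) : i = j ∧ y = y' := by
  obtain ⟨hij, h2⟩ := B.inj_closed (ball_subset_closedBall (B.add_mem_ball i hy))
    (ball_subset_closedBall (B.add_mem_ball j hy')) h
  subst hij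
  exact ⟨rfl, add_left_cancel h2⟩

theorem mem_W (B : BData X) (i : B.I) {y : E3} (hy : ‖y‖ < B.r) :
    B.P.ψ B.k (B.c i + y) ∈ B.W :=
  mem_iUnion.2 ⟨i, _, B.add_mem_ball i hy, rfl⟩

theorem exists_of_mem_W (B : BData X) {x : X} (hx : x ∈ B.W) :
    ∃ i y, ‖y‖ < B.r ∧ x = B.P.ψ B.k (B.c i + y) := by
  obtain ⟨i, z, hz, rfl⟩ := mem_iUnion.1 hx
  refine ⟨i, z - B.c i, by simpa [dist_eq_norm] using hz, by simp⟩

theorem mat_fac_ne (B : BData X) {y : E3} (hy : ‖y‖ < B.r) :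
    ((1 - ‖y‖ / B.r : ℝ) : ℂ) ≠ 0 := by
  rw [Complex.ofReal_ne_zero]
  have : ‖y‖ / B.r < 1 := (div_lt_one B.r_pos).2 hy
  linarith

theorem mat_smul (B : BData X) {y v : E3} {s : ℂ} (hs : s ≠ 0) :
    B.mat y (s • v) = B.mat y v := by
  unfold mat
  rw [PM_smul hs]

/-- over every point outside `Z` there is exactly one point of the blow-up -/
theorem exists_sec (B : BData X) (x : X) : ∃ p : B.Bl, B.pr p = x := by
  by_cases hx : x ∈ B.W
  · obtain ⟨i, y, hy, rfl⟩ := B.exists_of_mem_W hx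
    by_cases h0 : y = 0
    · have hv : B.Valid y (fun _ => 1) := by
        refine ⟨hy, fun h => ?_, 0, by rw [zero_smul, h0]⟩
        exact one_ne_zero (congrFun h 0)
      exact ⟨B.pt i y _ hv, rfl⟩
    · exact ⟨B.pt i y y ⟨hy, h0, 1, (one_smul _ _).symm⟩, rfl⟩
  · exact ⟨⟨(x, 0), Or.inl ⟨hx, rfl⟩⟩, rfl⟩

/-- the section -/
noncomputable def sm (B : BData X) (x : X) : B.Bl := (B.exists_sec x).choose

theorem pr_sm (B : BData X) (x : X) : B.pr (B.sm x) = x := (B.exists_sec x).choose_spec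

theorem eq_of_pr (B : BData X) {p p' : B.Bl} (h : B.pr p = B.pr p') (hZ : B.pr p ∉ B.Z) :
    p = p' := by
  obtain ⟨⟨x, A⟩, hp⟩ := p
  obtain ⟨⟨x', A'⟩, hp'⟩ := p'
  have hxx : x = x' := h
  have hZ' : x ∉ B.Z := hZ
  subst hxx
  suffices hA : A = A' by subst hA; rfl
  rcases hp with ⟨h1, h2⟩ | ⟨i, y, v, hv, h1, h2⟩ <;>
    rcases hp' with ⟨h3, h4⟩ | ⟨j, y', v', hv', h3, h4⟩
  · exact h2.trans h4.symm
  · refine absurd ?_ h1
    rw [h3]
    exact B.mem_W j hv'.1
  · refine absurd ?_ h3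
    rw [h1]
    exact B.mem_W i hv.1
  · simp only at h1 h2 h3 h4
    obtain ⟨hij, hy⟩ := B.inj_ball hv.1 hv'.1 (h1.symm.trans h3)
    subst hij
    subst hy
    have hy0 : y ≠ 0 := by
      intro h0
      refine hZ' ⟨i, ?_⟩
      rw [h1, h0, add_zero]
    obtain ⟨_, _, s, hs⟩ := hv
    obtain ⟨_, _, s', hs'⟩ := hv'
    have hs0 : s ≠ 0 := by
      rintro rfl
      exact hy0 (by rw [hs, zero_smul])
    have hs0' : s' ≠ 0 := by
      rintro rfl
      exact hy0 (by rw [hs', zero_smul])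
    rw [h2, h4, ← B.mat_smul hs0, ← B.mat_smul (v := v') hs0', ← hs, ← hs']

/-- outside the open ball of points, all points of the blow-up over a ball are triples -/
theorem exists_triple (B : BData X) {p : B.Bl} (hp : B.pr p ∈ B.W) :
    ∃ i y v, ∃ h : B.Valid y v, p = B.pt i y v h := by
  obtain ⟨⟨x, A⟩, hp'⟩ := p
  have hx : x ∈ B.W := hp
  rcases hp' with ⟨h1, h2⟩ | ⟨i, y, v, hv, h1, h2⟩
  · exact absurd hx h1
  · refine ⟨i, y, v, hv, Subtype.ext (Prod.ext h1 h2)⟩

/-- equality of triples -/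
theorem pt_eq_iff (B : BData X) {i i' : B.I} {y v y' v' : E3} (h : B.Valid y v)
    (h' : B.Valid y' v') : B.pt i y v h = B.pt i' y' v' h' ↔
      i = i' ∧ y = y' ∧ ∃ s : ℂ, s ≠ 0 ∧ v' = s • v := by
  constructor
  · intro hp
    have h1 : B.P.ψ B.k (B.c i + y) = B.P.ψ B.k (B.c i' + y') :=
      congrArg (fun p : B.Bl => p.1.1) hp
    have h2 : B.mat y v = B.mat y' v' := congrArg (fun p : B.Bl => p.1.2) hp
    obtain ⟨hij, hy⟩ := B.inj_ball h.1 h'.1 h1
    refine ⟨hij, hy, ?_⟩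
    subst hy
    exact PM_inj h.2.1 h'.2.1 (smul_right_injective _ (B.mat_fac_ne h.1) h2)
  · rintro ⟨rfl, rfl, s, hs, rfl⟩
    refine Subtype.ext (Prod.ext rfl ?_)
    exact (B.mat_smul hs).symm

/-- the parametrization maps neighbourhoods to neighbourhoods -/
theorem map_nhds (B : BData X) {z : E3} (hz : z ∈ B.P.U B.k) :
    Filter.map (B.P.ψ B.k) (𝓝 z) = 𝓝 (B.P.ψ B.k z) := by
  have hU := B.P.isOpen_U B.k
  refine le_antisymm ((B.P.cont B.k).continuousAt (hU.mem_nhds hz)) ?_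
  intro s hs
  obtain ⟨V, hVs, hV, hzV⟩ := _root_.mem_nhds_iff.1 (Filter.mem_map.1 hs)
  refine _root_.mem_nhds_iff.2 ⟨B.P.ψ B.k '' (V ∩ B.P.U B.k), ?_,
    B.P.open_map B.k _ inter_subset_right (hV.inter hU), ⟨z, ⟨hzV, hz⟩, rfl⟩⟩
  rintro _ ⟨w, hw, rfl⟩
  exact hVs hw.1

/-- the union of the closed balls -/
def K (B : BData X) : Set X := ⋃ i, B.P.ψ B.k '' closedBall (B.c i) B.r

theorem K_compact (B : BData X) : IsCompact B.K := by
  have := B.fin
  refine isCompact_iUnion fun i => ?_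
  exact (isCompact_closedBall _ _).image_of_continuousOn ((B.P.cont B.k).mono (B.ball_sub i))

theorem W_sub_K (B : BData X) : B.W ⊆ B.K :=
  iUnion_mono fun _ => image_mono ball_subset_closedBall

theorem W_open (B : BData X) : IsOpen B.W :=
  isOpen_iUnion fun i => B.P.open_map B.k _ (B.ball_subU i) isOpen_ball

/-- the matrix of the section, in the chart -/
theorem sm_formula (B : BData X) {z : E3} (hz : z ∈ B.P.U B.k) (hZ : B.P.ψ B.k z ∉ B.Z) :
    (B.sm (B.P.ψ B.k z)).1.2 =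
      ∑ᶠ i, ((max 0 (1 - ‖z - B.c i‖ / B.r) : ℝ) : ℂ) • PM (z - B.c i) := by
  by_cases hx : ∃ i, z ∈ ball (B.c i) B.r
  · obtain ⟨i, hi⟩ := hx
    have hn : ‖z - B.c i‖ < B.r := by simpa [dist_eq_norm] using hi
    have h0 : z - B.c i ≠ 0 := by
      intro h0
      refine hZ ⟨i, ?_⟩
      rw [sub_eq_zero.1 h0]
    have hv : B.Valid (z - B.c i) (z - B.c i) := ⟨hn, h0, 1, (one_smul _ _).symm⟩
    have he : B.sm (B.P.ψ B.k z) = B.pt i _ _ hv := by
      refine B.eq_of_pr ?_ (by rw [pr_sm]; exact hZ)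
      rw [pr_sm]
      change _ = B.P.ψ B.k (B.c i + (z - B.c i))
      rw [add_sub_cancel]
    rw [he, finsum_eq_single _ i]
    · change B.mat _ _ = _
      unfold mat
      rw [max_eq_right]
      have : ‖z - B.c i‖ / B.r < 1 := (div_lt_one B.r_pos).2 hn
      linarith
    · intro j hj
      have hjn : B.r ≤ ‖z - B.c j‖ := by
        by_contra hlt
        push Not at hlt
        have hzj : z ∈ closedBall (B.c j) B.r := by
          rw [mem_closedBall, dist_eq_norm]
          exact hlt.le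
        exact Set.disjoint_left.1 (B.disj j i hj) hzj (ball_subset_closedBall hi)
      rw [max_eq_left, Complex.ofReal_zero, zero_smul]
      have : 1 ≤ ‖z - B.c j‖ / B.r := (one_le_div B.r_pos).2 hjn
      linarith
  · push Not at hx
    have hW : B.P.ψ B.k z ∉ B.W := by
      intro hW
      obtain ⟨i, w, hw, hwz⟩ := mem_iUnion.1 hW
      exact hx i (B.P.inj B.k (B.ball_subU i hw) hz hwz ▸ hw)
    have he : B.sm (B.P.ψ B.k z) = ⟨(B.P.ψ B.k z, 0), Or.inl ⟨hW, rfl⟩⟩ :=
      B.eq_of_pr (B.pr_sm _) (by rw [pr_sm]; exact hZ)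
    rw [he]
    symm
    refine finsum_eq_zero_of_forall_eq_zero fun i => ?_
    have hi : B.r ≤ ‖z - B.c i‖ := by
      have := hx i
      rw [mem_ball, dist_eq_norm, not_lt] at this
      exact this
    rw [max_eq_left, Complex.ofReal_zero, zero_smul]
    have : 1 ≤ ‖z - B.c i‖ / B.r := (one_le_div B.r_pos).2 hi
    linarith

theorem formula_cont (B : BData X) {z : E3} (hz : ∀ i, z ≠ B.c i) :
    ContinuousAt (fun z : E3 =>
      ∑ᶠ i, ((max 0 (1 - ‖z - B.c i‖ / B.r) : ℝ) : ℂ) • PM (z - B.c i)) z := by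
  have := B.fin
  have := Fintype.ofFinite B.I
  simp only [finsum_eq_sum_of_fintype]
  refine tendsto_finsetSum _ fun i _ => ?_
  refine Filter.Tendsto.smul ?_ ?_
  · refine (Complex.continuous_ofReal.tendsto _).comp ?_
    have : Continuous fun z : E3 => max 0 (1 - ‖z - B.c i‖ / B.r) :=
      continuous_const.max (continuous_const.sub
        ((continuous_id.sub continuous_const).norm.div_const _))
    exact this.tendsto z
  · have h1 : ContinuousAt PM (z - B.c i) :=
      PM_cont.continuousAt (isOpen_ne.mem_nhds (sub_ne_zero.2 (hz i)))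
    exact Filter.Tendsto.comp (f := fun w : E3 => w - B.c i) h1
      ((continuous_id.sub continuous_const).tendsto z)

theorem sm_cont [T2Space X] (B : BData X) : ContinuousOn B.sm B.Zᶜ := by
  have := B.fin
  have hZ : IsClosed B.Z := (Set.finite_range _).isClosed
  intro x hx
  refine ContinuousAt.continuousWithinAt ?_
  have hind : Topology.IsInducing (Subtype.val : B.S → X × (Fin 3 → Fin 3 → ℂ)) :=
    Topology.IsInducing.subtypeVal
  have hZn : B.Zᶜ ∈ 𝓝 x := hZ.isOpen_compl.mem_nhds hx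
  suffices h : Filter.Tendsto (fun x' => (B.sm x').1) (𝓝 x) (𝓝 (B.sm x).1) from
    hind.tendsto_nhds_iff.2 h
  rw [nhds_prod_eq]
  refine Filter.tendsto_prod_iff'.2 ⟨?_, ?_⟩
  · have h1 : (fun x' => (B.sm x').1.1) = fun x' => x' := funext fun x' => B.pr_sm x'
    rw [h1, show (B.sm x).1.1 = x from B.pr_sm x]
    exact Filter.tendsto_id
  · by_cases hK : x ∈ B.K
    · obtain ⟨i, z, hz, rfl⟩ := mem_iUnion.1 hK
      have hzU := B.ball_sub i hz
      have hne : ∀ j, z ≠ B.c j := by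
        rintro j rfl
        exact hx ⟨j, rfl⟩
      rw [B.sm_formula hzU hx]
      rw [← B.map_nhds hzU, Filter.tendsto_map'_iff]
      refine Filter.Tendsto.congr' ?_ (B.formula_cont hne)
      have h1 : ∀ᶠ w in 𝓝 z, w ∈ B.P.U B.k := (B.P.isOpen_U B.k).mem_nhds hzU
      have h2 : ∀ᶠ w in 𝓝 z, B.P.ψ B.k w ∉ B.Z := by
        have : B.Zᶜ ∈ Filter.map (B.P.ψ B.k) (𝓝 z) := by
          rw [B.map_nhds hzU]
          exact hZn
        exact this
      filter_upwards [h1, h2] with w hw1 hw2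
      exact (B.sm_formula hw1 hw2).symm
    · have hKo : B.Kᶜ ∈ 𝓝 x := B.K_compact.isClosed.isOpen_compl.mem_nhds hK
      have h0 : ∀ x', x' ∈ B.Kᶜ → x' ∈ B.Zᶜ → (B.sm x').1.2 = 0 := by
        intro x' h1 h2
        have hW : x' ∉ B.W := fun h => h1 (B.W_sub_K h)
        have he : B.sm x' = ⟨(x', 0), Or.inl ⟨hW, rfl⟩⟩ :=
          B.eq_of_pr (B.pr_sm _) (by rw [pr_sm]; exact h2)
        rw [he]
      rw [h0 x hK hx]
      refine Filter.Tendsto.congr' ?_ tendsto_const_nhds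
      filter_upwards [hKo, hZn] with x' h1 h2
      exact (h0 x' h1 h2).symm

theorem pr_cont (B : BData X) : Continuous B.pr :=
  continuous_fst.comp continuous_subtype_val

instance [T2Space X] (B : BData X) : T2Space B.Bl :=
  inferInstanceAs (T2Space B.S)

end BData

end RG
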