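import Pool.Agent.H14.RG.BlowM

/-!
# Module K2: the atlas of the blow-up
-/

open scoped Topology ContDiff ComplexConjugate
open Set Metric

namespace RG

/-! ### Formulas for `dir` and `bl` -/

theorem bp_dir_self (l : Fin 3) (u : E3) : dir l u l = 1 := by
  simp [dir]

theorem bp_dir_ne (l : Fin 3) (u : E3) : dir l u ≠ 0 := by
  intro h
  have := congrFun h l
  rw [bp_dir_self] at this
  exact one_ne_zero this

theorem bp_bl_self (l : Fin 3) (u : E3) : bl l u l = u l := by
  simp [bl, bp_dir_self]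

theorem bp_bl_apply (l : Fin 3) (u : E3) (j : Fin 3) : bl l u j = u l * dir l u j := by
  simp [bl]

theorem bp_eq_of {l : Fin 3} {u u' : E3} (hd : dir l u = dir l u')
    (hb : bl l u = bl l u') : u = u' := by
  have hl : u l = u' l := by
    have := congrFun hb l
    rwa [bp_bl_self, bp_bl_self] at this
  funext j
  by_cases hj : j = l
  · rw [hj, hl]
  · have := congrFun hd j
    simpa [dir, Function.update_of_ne hj] using this

theorem bp_dir_an (l : Fin 3) (u : E3) : AnalyticAt ℂ (dir l) u := by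
  rw [analyticAt_pi_iff]
  intro j
  by_cases hj : j = l
  · have : (fun x : E3 => dir l x j) = fun _ => 1 := by
      funext x
      rw [hj, bp_dir_self]
    rw [this]
    exact analyticAt_const
  · have : (fun x : E3 => dir l x j) = fun x => x j := by
      funext x
      simp [dir, Function.update_of_ne hj]
    rw [this]
    exact (ContinuousLinearMap.proj (R := ℂ) (φ := fun _ : Fin 3 => ℂ) j).analyticAt u

theorem bp_coord_an (j : Fin 3) (u : E3) : AnalyticAt ℂ (fun x : E3 => x j) u :=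
  (ContinuousLinearMap.proj (R := ℂ) (φ := fun _ : Fin 3 => ℂ) j).analyticAt u

theorem bp_bl_an (l : Fin 3) (u : E3) : AnalyticAt ℂ (bl l) u :=
  (bp_coord_an l u).smul (bp_dir_an l u)

theorem bp_dir_cont (l : Fin 3) : Continuous (dir l) :=
  continuous_iff_continuousAt.2 fun u => (bp_dir_an l u).continuousAt

theorem bp_bl_cont (l : Fin 3) : Continuous (bl l) :=
  continuous_iff_continuousAt.2 fun u => (bp_bl_an l u).continuousAt

/-- the inverse of `(bl, dir)`: from the point `y` and the direction `v` -/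
noncomputable def bpI (l : Fin 3) (y v : E3) : E3 := Function.update ((v l)⁻¹ • v) l (y l)

theorem bp_dir_bi {l : Fin 3} {y v : E3} (h : v l ≠ 0) : dir l (bpI l y v) = (v l)⁻¹ • v := by
  funext j
  by_cases hj : j = l
  · rw [hj, bp_dir_self]
    simp [h]
  · simp [dir, bpI, Function.update_of_ne hj]

theorem bp_bi_self (l : Fin 3) (y v : E3) : bpI l y v l = y l := by
  simp [bpI]

theorem bp_bl_bi {l : Fin 3} {y v : E3} (h : v l ≠ 0) (hy : ∃ s : ℂ, y = s • v) :
    bl l (bpI l y v) = y := by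
  obtain ⟨s, rfl⟩ := hy
  funext j
  rw [bp_bl_apply, bp_bi_self, bp_dir_bi h]
  simp only [Pi.smul_apply, smul_eq_mul]
  field_simp

theorem bp_bi_an {l : Fin 3} {f g : E3 → E3} {u : E3} (hf : AnalyticAt ℂ f u)
    (hg : AnalyticAt ℂ g u) (h : g u l ≠ 0) : AnalyticAt ℂ (fun x => bpI l (f x) (g x)) u := by
  have hc : ∀ (j : Fin 3) (F : E3 → E3), AnalyticAt ℂ F u → AnalyticAt ℂ (fun x => F x j) u :=
    fun j F hF => (bp_coord_an j (F u)).comp hF
  rw [analyticAt_pi_iff]
  intro j
  by_cases hj : j = l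
  · have : (fun x : E3 => bpI l (f x) (g x) j) = fun x => f x l := by
      funext x
      rw [hj, bp_bi_self]
    rw [this]
    exact hc l f hf
  · have : (fun x : E3 => bpI l (f x) (g x) j) = fun x => (g x l)⁻¹ * g x j := by
      funext x
      simp [bpI, Function.update_of_ne hj]
    rw [this]
    exact ((hc l g hg).inv h).mul (hc j g hg)

theorem bp_PM_col {v : E3} (l j : Fin 3) (h : v l ≠ 0) : PM v j l * (PM v l l)⁻¹ = v j / v l := by
  have h1 : conj (v l) ≠ 0 := by simpa using h
  have h2 : ((∑ i, ‖v i‖ ^ 2 : ℝ) : ℂ) ≠ 0 := by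
    have : (0 : ℝ) < ∑ i, ‖v i‖ ^ 2 :=
      Finset.sum_pos' (fun i _ => by positivity) ⟨l, Finset.mem_univ _, by
        have := norm_pos_iff.2 h
        positivity⟩
    exact_mod_cast this.ne'
  simp only [PM]
  field_simp

theorem bp_PM_diag {v : E3} (l : Fin 3) (h : PM v l l ≠ 0) : v l ≠ 0 := by
  intro h0
  apply h
  simp [PM, h0]

theorem bp_PM_diag_ne {v : E3} (l : Fin 3) (h : v l ≠ 0) : PM v l l ≠ 0 := by
  have h1 : conj (v l) ≠ 0 := by simpa using h
  have h2 : ((∑ i, ‖v i‖ ^ 2 : ℝ) : ℂ) ≠ 0 := by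
    have : (0 : ℝ) < ∑ i, ‖v i‖ ^ 2 :=
      Finset.sum_pos' (fun i _ => by positivity) ⟨l, Finset.mem_univ _, by
        have := norm_pos_iff.2 h
        positivity⟩
    exact_mod_cast this.ne'
  exact div_ne_zero (mul_ne_zero h h1) h2

variable {X : Type} [TopologicalSpace X]

namespace BData

/-- the parametrization in the chart `(i, l)` -/
noncomputable def psE (B : BData X) (i : B.I) (l : Fin 3) (u : E3) : B.Bl := by
  classical
  exact if h : u ∈ B.UE l then B.pt i (bl l u) (dir l u) (B.valid_bl h) else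
    B.sm (B.P.ψ B.k (B.c i))

theorem isOpen_UE (B : BData X) (l : Fin 3) : IsOpen (B.UE l) :=
  isOpen_lt (bp_bl_cont l).norm continuous_const

theorem bp_psE_mem (B : BData X) {i : B.I} {l : Fin 3} {u : E3} (hu : u ∈ B.UE l) :
    B.psE i l u = B.pt i (bl l u) (dir l u) (B.valid_bl hu) := by
  unfold psE
  rw [dif_pos hu]

theorem bp_pr_pt (B : BData X) (i : B.I) (y v : E3) (h : B.Valid y v) :
    B.pr (B.pt i y v h) = B.P.ψ B.k (B.c i + y) := rfl

theorem bp_pr_psE (B : BData X) {i : B.I} {l : Fin 3} {u : E3} (hu : u ∈ B.UE l) :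
    B.pr (B.psE i l u) = B.P.ψ B.k (B.c i + bl l u) := by
  rw [bp_psE_mem B hu, bp_pr_pt]

theorem bp_mem_U (B : BData X) (i : B.I) {y : E3} (hy : ‖y‖ < B.r) :
    B.c i + y ∈ B.P.U B.k := by
  apply B.ball_sub i
  rw [mem_closedBall, dist_eq_norm, add_sub_cancel_left]
  exact hy.le

theorem bp_not_Z (B : BData X) (i : B.I) {y : E3} (hy : ‖y‖ < B.r) (h0 : y ≠ 0) :
    B.P.ψ B.k (B.c i + y) ∉ B.Z := by
  rintro ⟨i', h⟩
  have h2 : B.c i' ∈ closedBall (B.c i') B.r := mem_closedBall_self B.r_pos.le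
  have h1 : B.c i' = B.c i + y :=
    B.P.inj B.k (B.ball_sub i' h2) (B.bp_mem_U i hy) h
  by_cases hi : i = i'
  · subst hi
    exact h0 (by simpa using h1)
  · refine (Set.disjoint_left.1 (B.disj i i' hi)) ?_ h2
    rw [h1, mem_closedBall, dist_eq_norm, add_sub_cancel_left]
    exact hy.le

theorem bp_bl_ne {l : Fin 3} {u : E3} (h : u l ≠ 0) : bl l u ≠ 0 := by
  intro h0
  apply h
  rw [← bp_bl_self l u, h0]
  rfl

theorem psE_sm (B : BData X) {i : B.I} {l : Fin 3} {u : E3} (hu : u ∈ B.UE l) (h : u l ≠ 0) :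
    B.psE i l u = B.sm (B.P.ψ B.k (B.c i + bl l u)) := by
  apply B.eq_of_pr
  · rw [B.bp_pr_psE hu, B.pr_sm]
  · rw [B.bp_pr_psE hu]
    exact B.bp_not_Z i hu (bp_bl_ne h)

/-- meeting of a chart `(i, l)` and a chart of `X` -/
theorem psE_eq_sm (B : BData X) {i : B.I} {l : Fin 3} {u : E3} (hu : u ∈ B.UE l) {x : X}
    (hx : x ∉ B.Z) (h : B.psE i l u = B.sm x) :
    u l ≠ 0 ∧ x = B.P.ψ B.k (B.c i + bl l u) := by
  have h1 : x = B.P.ψ B.k (B.c i + bl l u) := by
    have := congrArg B.pr h
    rw [B.bp_pr_psE hu, B.pr_sm] at this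
    exact this.symm
  refine ⟨fun h0 => hx ?_, h1⟩
  rw [h1]
  refine ⟨i, ?_⟩
  simp [bl, h0]

/-- meeting of two charts over the points -/
theorem psE_eq_psE (B : BData X) {i i' : B.I} {l l' : Fin 3} {u u' : E3} (hu : u ∈ B.UE l)
    (hu' : u' ∈ B.UE l') (h : B.psE i l u = B.psE i' l' u') :
    i = i' ∧ bl l u = bl l' u' ∧ dir l u l' ≠ 0 ∧ dir l' u' = (dir l u l')⁻¹ • dir l u := by
  rw [B.bp_psE_mem hu, B.bp_psE_mem hu', B.pt_eq_iff] at h
  obtain ⟨hi, hb, s, hs, hd⟩ := h
  have h1 : 1 = s * dir l u l' := by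
    have := congrFun hd l'
    rwa [bp_dir_self, Pi.smul_apply, smul_eq_mul] at this
  have h2 : dir l u l' ≠ 0 := by
    intro h0
    rw [h0, mul_zero] at h1
    exact one_ne_zero h1
  refine ⟨hi, hb, h2, ?_⟩
  rw [hd, eq_inv_of_mul_eq_one_left h1.symm]

/-! ### Topology -/

/-- the values of a point of the blow-up -/
def bpV (B : BData X) (p : B.Bl) : X × (Fin 3 → Fin 3 → ℂ) := p.1

theorem bpV_cont (B : BData X) : Continuous B.bpV :=
  (continuous_subtype_val : Continuous (Subtype.val : B.S → X × (Fin 3 → Fin 3 → ℂ)))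

theorem bp_cont_iff (B : BData X) {f : E3 → B.Bl} {s : Set E3} :
    ContinuousOn f s ↔ ContinuousOn (fun y => B.bpV (f y)) s :=
  (Topology.IsInducing.subtypeVal : Topology.IsInducing
    (Subtype.val : B.S → X × (Fin 3 → Fin 3 → ℂ))).continuousOn_iff

theorem bp_psE_cont (B : BData X) (i : B.I) (l : Fin 3) : ContinuousOn (B.psE i l) (B.UE l) := by
  rw [B.bp_cont_iff]
  have h1 : ContinuousOn (fun u => (B.P.ψ B.k (B.c i + bl l u), B.mat (bl l u) (dir l u)))
      (B.UE l) := by
    refine ContinuousOn.prodMk ?_ ?_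
    · refine (B.P.cont B.k).comp ?_ ?_
      · exact (continuous_const.add (bp_bl_cont l)).continuousOn
      · intro u hu
        exact B.bp_mem_U i hu
    · have h2 : ContinuousOn (fun u => PM (dir l u)) (B.UE l) :=
        PM_cont.comp (bp_dir_cont l).continuousOn fun u _ => bp_dir_ne l u
      have h3 : Continuous fun u : E3 => ((1 - ‖bl l u‖ / B.r : ℝ) : ℂ) := by
        have := bp_bl_cont l
        fun_prop
      exact h3.continuousOn.smul h2
  refine h1.congr ?_
  intro u hu
  change B.bpV (B.psE i l u) = _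
  rw [B.bp_psE_mem hu]
  rfl

/-- inverse of a parametrization is continuous -/
theorem bp_inv_cont (P : Par E3 X) (j : P.ι) : ContinuousOn (P.inv j) (P.ψ j '' P.U j) := by
  rw [continuousOn_open_iff (P.open_map j _ subset_rfl (P.isOpen_U j))]
  intro V hV
  have : P.ψ j '' P.U j ∩ P.inv j ⁻¹' V = P.ψ j '' (P.U j ∩ V) := by
    ext x
    constructor
    · rintro ⟨⟨y, hy, rfl⟩, hx⟩
      refine ⟨P.inv j (P.ψ j y), ⟨Function.invFunOn_mem ⟨y, hy, rfl⟩, hx⟩,
        Function.invFunOn_eq ⟨y, hy, rfl⟩⟩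
    · rintro ⟨y, ⟨hy, hyV⟩, rfl⟩
      refine ⟨⟨y, hy, rfl⟩, ?_⟩
      have : P.inv j (P.ψ j y) = y :=
        P.inj j (Function.invFunOn_mem ⟨y, hy, rfl⟩) hy (Function.invFunOn_eq ⟨y, hy, rfl⟩)
      rw [mem_preimage, this]
      exact hyV
  rw [this]
  exact P.open_map j _ inter_subset_left ((P.isOpen_U j).inter hV)

theorem bp_inv_ps (P : Par E3 X) (j : P.ι) {y : E3} (hy : y ∈ P.U j) : P.inv j (P.ψ j y) = y :=
  P.inj j (Function.invFunOn_mem ⟨y, hy, rfl⟩) hy (Function.invFunOn_eq ⟨y, hy, rfl⟩)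

theorem bp_psE_open (B : BData X) (i : B.I) (l : Fin 3) {V : Set E3} (hV : V ⊆ B.UE l)
    (hVo : IsOpen V) : IsOpen (B.psE i l '' V) := by
  set D : Set X := B.P.ψ B.k '' ball (B.c i) B.r with hD
  have hsub : ball (B.c i) B.r ⊆ B.P.U B.k := ball_subset_closedBall.trans (B.ball_sub i)
  have hDo : IsOpen D := B.P.open_map B.k _ hsub isOpen_ball
  -- the open set of the chart
  set O : Set (X × (Fin 3 → Fin 3 → ℂ)) := {q | q.1 ∈ D ∧ q.2 l l ≠ 0} with hO
  have hOo : IsOpen O := by
    refine (hDo.preimage continuous_fst).inter ?_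
    exact isOpen_ne_fun (by fun_prop) continuous_const
  -- the inverse map
  set F : X × (Fin 3 → Fin 3 → ℂ) → E3 := fun q =>
    Function.update (fun j => q.2 j l * (q.2 l l)⁻¹) l ((B.P.inv B.k q.1 - B.c i) l) with hF
  have hFc : ContinuousOn F O := by
    rw [continuousOn_pi]
    intro j
    by_cases hj : j = l
    · have : (fun q => F q j) = fun q : X × (Fin 3 → Fin 3 → ℂ) =>
          (B.P.inv B.k q.1 - B.c i) l := by
        funext q
        rw [hj, hF]
        simp
      rw [this]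
      have h1 : ContinuousOn (fun q : X × (Fin 3 → Fin 3 → ℂ) => B.P.inv B.k q.1) O := by
        refine (bp_inv_cont B.P B.k).comp continuous_fst.continuousOn ?_
        intro q hq
        exact image_mono hsub hq.1
      have h2 : ContinuousOn (fun q : X × (Fin 3 → Fin 3 → ℂ) => B.P.inv B.k q.1 l) O :=
        (continuous_apply l).comp_continuousOn h1
      exact h2.sub continuousOn_const
    · have : (fun q => F q j) = fun q : X × (Fin 3 → Fin 3 → ℂ) =>
          q.2 j l * (q.2 l l)⁻¹ := by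
        funext q
        rw [hF]
        simp [Function.update_of_ne hj]
      rw [this]
      refine ContinuousOn.mul (Continuous.continuousOn (by fun_prop)) ?_
      refine ContinuousOn.inv₀ (Continuous.continuousOn (by fun_prop)) ?_
      intro q hq
      exact hq.2
  have hG : IsOpen (O ∩ F ⁻¹' V) := hFc.isOpen_inter_preimage hOo hVo
  have : B.psE i l '' V = B.bpV ⁻¹' (O ∩ F ⁻¹' V) := by
    -- values
    have key : ∀ (i' : B.I) (y v : E3) (h : B.Valid y v), v l ≠ 0 →
        (B.bpV (B.pt i' y v h)).2 l l ≠ 0 ∧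
        ∀ j, (B.bpV (B.pt i' y v h)).2 j l * ((B.bpV (B.pt i' y v h)).2 l l)⁻¹ = v j / v l := by
      intro i' y v h hv
      have hs : ((1 - ‖y‖ / B.r : ℝ) : ℂ) ≠ 0 := by
        have : 0 < 1 - ‖y‖ / B.r := by
          have := (div_lt_one B.r_pos).2 h.1
          linarith
        exact_mod_cast this.ne'
      have e : ∀ a b, (B.bpV (B.pt i' y v h)).2 a b = ((1 - ‖y‖ / B.r : ℝ) : ℂ) * PM v a b :=
        fun a b => rfl
      refine ⟨?_, fun j => ?_⟩
      · rw [e]
        exact mul_ne_zero hs (bp_PM_diag_ne l hv)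
      · rw [e, e, ← bp_PM_col l j hv, mul_inv]
        have := bp_PM_diag_ne l hv
        field_simp
    have keyF : ∀ (y v : E3) (h : B.Valid y v), v l ≠ 0 →
        F (B.bpV (B.pt i y v h)) = bpI l y v := by
      intro y v h hv
      have h1 : (B.bpV (B.pt i y v h)).1 = B.P.ψ B.k (B.c i + y) := rfl
      funext j
      by_cases hj : j = l
      · rw [hj, bp_bi_self, hF]
        simp only [Function.update_self]
        rw [h1, bp_inv_ps B.P B.k (B.bp_mem_U i h.1)]
        simp
      · rw [hF]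
        simp only [Function.update_of_ne hj]
        rw [(key i y v h hv).2 j]
        simp only [bpI, Function.update_of_ne hj, Pi.smul_apply, smul_eq_mul]
        rw [div_eq_mul_inv, mul_comm]
    ext p
    constructor
    · rintro ⟨u, hu, rfl⟩
      have huE : u ∈ B.UE l := hV hu
      have hd : dir l u l ≠ 0 := by
        rw [bp_dir_self]
        exact one_ne_zero
      rw [B.bp_psE_mem huE]
      refine ⟨⟨⟨B.c i + bl l u, ?_, rfl⟩, (key i _ _ _ hd).1⟩, ?_⟩
      · rw [mem_ball, dist_eq_norm, add_sub_cancel_left]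
        exact huE
      · change F (B.bpV (B.pt i (bl l u) (dir l u) _)) ∈ V
        rw [keyF _ _ _ hd]
        have : bpI l (bl l u) (dir l u) = u := by
          apply bp_eq_of (l := l)
          · rw [bp_dir_bi hd, bp_dir_self, inv_one, one_smul]
          · exact bp_bl_bi hd ⟨u l, rfl⟩
        rwa [this]
    · rintro ⟨⟨hp1, hp2⟩, hp3⟩
      have hW : B.pr p ∈ B.W := mem_iUnion.2 ⟨i, hp1⟩
      obtain ⟨i', y, v, h, rfl⟩ := B.exists_triple hW
      -- same point
      have hii : i' = i := by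
        obtain ⟨z, hz, hz2⟩ := hp1
        have hz3 : B.c i' + y = z :=
          B.P.inj B.k (B.bp_mem_U i' h.1) (hsub hz) hz2.symm
        by_contra hne
        refine (Set.disjoint_left.1 (B.disj i' i hne)) (a := z) ?_ (ball_subset_closedBall hz)
        rw [← hz3, mem_closedBall, dist_eq_norm, add_sub_cancel_left]
        exact h.1.le
      subst hii
      have hv : v l ≠ 0 := by
        apply bp_PM_diag
        intro h0
        apply hp2
        have e : (B.bpV (B.pt i' y v h)).2 l l = ((1 - ‖y‖ / B.r : ℝ) : ℂ) * PM v l l := rfl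
        rw [e, h0, mul_zero]
      have hF1 := keyF y v h hv
      refine ⟨bpI l y v, ?_, ?_⟩
      · rw [← hF1]
        exact hp3
      · have hbl : bl l (bpI l y v) = y := bp_bl_bi hv h.2.2
        have hmem : bpI l y v ∈ B.UE l := by
          change ‖bl l (bpI l y v)‖ < B.r
          rw [hbl]
          exact h.1
        rw [B.bp_psE_mem hmem, B.pt_eq_iff]
        refine ⟨rfl, hbl, v l, hv, ?_⟩
        rw [bp_dir_bi hv, smul_smul, mul_inv_cancel₀ hv, one_smul]
  rw [this]
  exact hG.preimage B.bpV_cont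

theorem bp_Z_closed [T2Space X] (B : BData X) : IsClosed B.Z := by
  have := B.fin
  exact (Set.finite_range _).isClosed

/-- the atlas of the blow-up -/
noncomputable def par [T2Space X] (B : BData X) : Par E3 B.Bl where
  ι := B.P.ι ⊕ (B.I × Fin 3)
  U := fun i => match i with
    | Sum.inl j => B.P.U j ∩ {y | B.P.ψ j y ∉ B.Z}
    | Sum.inr (_, l) => B.UE l
  ψ := fun i y => match i with
    | Sum.inl j => B.sm (B.P.ψ j y)
    | Sum.inr (i, l) => B.psE i l y
  isOpen_U := by
    rintro (j | ⟨i, l⟩)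
    · exact (B.P.cont j).isOpen_inter_preimage (B.P.isOpen_U j) B.bp_Z_closed.isOpen_compl
    · exact B.isOpen_UE l
  cont := by
    rintro (j | ⟨i, l⟩)
    · exact B.sm_cont.comp ((B.P.cont j).mono inter_subset_left) fun y hy => hy.2
    · exact B.bp_psE_cont i l
  inj := by
    rintro (j | ⟨i, l⟩)
    · intro y hy y' hy' h
      have := congrArg B.pr h
      simp only [B.pr_sm] at this
      exact B.P.inj j hy.1 hy'.1 this
    · intro u hu u' hu' h
      obtain ⟨-, hb, -, hd⟩ := B.psE_eq_psE hu hu' h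
      apply bp_eq_of (l := l) _ hb
      rw [hd, bp_dir_self, inv_one, one_smul]
  open_map := by
    rintro (j | ⟨i, l⟩) V hV hVo
    · have h1 : (fun y => B.sm (B.P.ψ j y)) '' V = B.pr ⁻¹' (B.P.ψ j '' V) := by
        ext p
        constructor
        · rintro ⟨y, hy, rfl⟩
          exact ⟨y, hy, (B.pr_sm _).symm⟩
        · rintro ⟨y, hy, hp⟩
          refine ⟨y, hy, ?_⟩
          apply B.eq_of_pr
          · rw [B.pr_sm, hp]
          · rw [B.pr_sm]
            exact (hV hy).2
      change IsOpen ((fun y => B.sm (B.P.ψ j y)) '' V)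
      rw [h1]
      exact (B.P.open_map j V (fun y hy => (hV hy).1) hVo).preimage B.pr_cont
    · exact B.bp_psE_open i l hV hVo
  cover := by
    intro p
    by_cases hp : B.pr p ∈ B.Z
    · have hW : B.pr p ∈ B.W := by
        obtain ⟨i, hi⟩ := hp
        exact mem_iUnion.2 ⟨i, B.c i, mem_ball_self B.r_pos, hi⟩
      obtain ⟨i, y, v, h, rfl⟩ := B.exists_triple hW
      obtain ⟨l, hl⟩ : ∃ l, v l ≠ 0 := by
        by_contra hcon
        push Not at hcon
        exact h.2.1 (funext hcon)
      have hbl : bl l (bpI l y v) = y := bp_bl_bi hl h.2.2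
      have hmem : bpI l y v ∈ B.UE l := by
        change ‖bl l (bpI l y v)‖ < B.r
        rw [hbl]
        exact h.1
      refine ⟨Sum.inr (i, l), bpI l y v, hmem, ?_⟩
      change B.psE i l (bpI l y v) = _
      rw [B.bp_psE_mem hmem, B.pt_eq_iff]
      refine ⟨rfl, hbl, v l, hl, ?_⟩
      rw [bp_dir_bi hl, smul_smul, mul_inv_cancel₀ hl, one_smul]
    · obtain ⟨j, y, hy, hyp⟩ := B.P.cover (B.pr p)
      refine ⟨Sum.inl j, y, ⟨hy, ?_⟩, ?_⟩
      · change B.P.ψ j y ∉ B.Z
        rw [hyp]
        exact hp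
      · change B.sm (B.P.ψ j y) = p
        apply B.eq_of_pr
        · rw [B.pr_sm, hyp]
        · rw [B.pr_sm, hyp]
          exact hp
  trans := by
    rintro (j | ⟨i, l⟩) (j' | ⟨i', l'⟩) y y' hy hy' h
    · -- two charts of `X`
      have h1 : B.P.ψ j y = B.P.ψ j' y' := by
        have := congrArg B.pr h
        simpa only [B.pr_sm] using this
      obtain ⟨g, hg, hgy, hge⟩ := B.P.trans j j' y y' hy.1 hy'.1 h1
      refine ⟨g, hg, hgy, ?_⟩
      filter_upwards [hge] with x hx
      rw [hx]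
    · -- from a chart of `X` to a chart over a point
      have h1 := B.psE_eq_sm hy' hy.2 h.symm
      obtain ⟨g, hg, hgy, hge⟩ := B.P.trans j B.k y (B.c i' + bl l' y') hy.1
        (B.bp_mem_U i' hy') h1.2
      have hval : g y - B.c i' = bl l' y' := by
        rw [hgy, add_sub_cancel_left]
      have hne : (g y - B.c i') l' ≠ 0 := by
        rw [hval, bp_bl_self]
        exact h1.1
      have hga : AnalyticAt ℂ (fun x => g x - B.c i') y := hg.sub analyticAt_const
      have hH : AnalyticAt ℂ (fun x => bpI l' (g x - B.c i') (g x - B.c i')) y :=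
        bp_bi_an hga hga hne
      have hHy : bpI l' (g y - B.c i') (g y - B.c i') = y' := by
        apply bp_eq_of (l := l')
        · rw [bp_dir_bi hne, hval, bp_bl_self]
          simp only [bl]
          rw [smul_smul, inv_mul_cancel₀ h1.1, one_smul]
        · rw [bp_bl_bi hne ⟨1, (one_smul _ _).symm⟩, hval]
      refine ⟨_, hH, hHy, ?_⟩
      have e1 : ∀ᶠ x in 𝓝 y, (g x - B.c i') l' ≠ 0 := by
        have : ContinuousAt (fun x => (g x - B.c i') l') y :=
          (continuous_apply l').continuousAt.comp hga.continuousAt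
        exact this.eventually_ne hne
      have e2 : ∀ᶠ x in 𝓝 y, bpI l' (g x - B.c i') (g x - B.c i') ∈ B.UE l' := by
        refine hH.continuousAt.eventually ((B.isOpen_UE l').mem_nhds ?_)
        simp only [hHy]
        exact hy'
      filter_upwards [hge, e1, e2] with x hx hx1 hx2
      rw [B.psE_sm hx2 (by rw [bp_bi_self]; exact hx1),
        bp_bl_bi hx1 ⟨1, (one_smul _ _).symm⟩, add_sub_cancel, hx]
    · -- from a chart over a point to a chart of `X`
      have h1 := B.psE_eq_sm hy hy'.2 h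
      obtain ⟨g, hg, hgy, hge⟩ := B.P.trans B.k j' (B.c i + bl l y) y'
        (B.bp_mem_U i hy) hy'.1 h1.2.symm
      have hba : AnalyticAt ℂ (fun x => B.c i + bl l x) y :=
        analyticAt_const.add (bp_bl_an l y)
      have hH : AnalyticAt ℂ (fun x => g (B.c i + bl l x)) y :=
        AnalyticAt.comp (g := g) (f := fun x => B.c i + bl l x) hg hba
      refine ⟨_, hH, hgy, ?_⟩
      have e1 : ∀ᶠ x in 𝓝 y, x l ≠ 0 :=
        (bp_coord_an l y).continuousAt.eventually_ne h1.1
      have e2 : ∀ᶠ x in 𝓝 y, x ∈ B.UE l := (B.isOpen_UE l).mem_nhds hy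
      have e3 : ∀ᶠ x in 𝓝 y, B.P.ψ j' (g (B.c i + bl l x)) = B.P.ψ B.k (B.c i + bl l x) :=
        hba.continuousAt.eventually hge
      filter_upwards [e1, e2, e3] with x hx1 hx2 hx3
      rw [B.psE_sm hx2 hx1, hx3]
    · -- two charts over points
      obtain ⟨hi, hb, hd, hdd⟩ := B.psE_eq_psE hy hy' h
      subst hi
      have hH : AnalyticAt ℂ (fun x => bpI l' (bl l x) (dir l x)) y :=
        bp_bi_an (bp_bl_an l y) (bp_dir_an l y) hd
      have hHy : bpI l' (bl l y) (dir l y) = y' := by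
        apply bp_eq_of (l := l')
        · rw [bp_dir_bi hd, hdd]
        · rw [bp_bl_bi hd (y := bl l y) ⟨y l, rfl⟩, hb]
      refine ⟨_, hH, hHy, ?_⟩
      have e1 : ∀ᶠ x in 𝓝 y, dir l x l' ≠ 0 := by
        have : ContinuousAt (fun x => dir l x l') y :=
          (continuous_apply l').continuousAt.comp (bp_dir_cont l).continuousAt
        exact this.eventually_ne hd
      have e2 : ∀ᶠ x in 𝓝 y, x ∈ B.UE l := (B.isOpen_UE l).mem_nhds hy
      have e3 : ∀ᶠ x in 𝓝 y, bpI l' (bl l x) (dir l x) ∈ B.UE l' := by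
        refine hH.continuousAt.eventually ((B.isOpen_UE l').mem_nhds ?_)
        simp only [hHy]
        exact hy'
      filter_upwards [e1, e2, e3] with x hx1 hx2 hx3
      rw [B.bp_psE_mem hx2, B.bp_psE_mem hx3, B.pt_eq_iff]
      refine ⟨rfl, bp_bl_bi hx1 ⟨x l, rfl⟩, dir l x l', hx1, ?_⟩
      rw [bp_dir_bi hx1, smul_smul, mul_inv_cancel₀ hx1, one_smul]

end BData

end RG
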