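import Mathlib

/-!
# Definitions used in the final statement

Everything is stated for a manifold `X` modelled on the complex normed space `E`
(in the end `E = Fin 3 → ℂ`).
-/

open scoped Manifold ContDiff Topology
open Set

namespace RG

variable (E : Type) [NormedAddCommGroup E] [NormedSpace ℂ E]
variable {X : Type} [TopologicalSpace X] [ChartedSpace E X]

/-- `f` is a continuous plurisubharmonic function on the open set `U` of the complex manifold `X`:
it is continuous on `U` and satisfies the submean inequality on every closed analytic disc, that is,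
for every holomorphic `γ` from a disc of radius `r > 1` to `U`, the value at the centre is at most
the average over the unit circle. -/
def PshOn (f : X → ℝ) (U : Set X) : Prop :=
  ContinuousOn f U ∧
    ∀ (γ : ℂ → X) (r : ℝ), 1 < r →
      MDifferentiableOn 𝓘(ℂ, ℂ) 𝓘(ℂ, E) γ (Metric.ball 0 r) →
      MapsTo γ (Metric.ball 0 r) U →
      f (γ 0) ≤ Real.circleAverage (fun ζ => f (γ ζ)) 0 1

/-- A smooth closed real `(1,1)`-form on `X`, given by its local potentials: an open cover `U i`,
smooth real functions `ρ i` on `U i` (the form is `dd^c (ρ i)` on `U i`), with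
`ρ i - ρ j` pluriharmonic on `U i ∩ U j`, that is, `ρ i - ρ j` and `ρ j - ρ i` are both
plurisubharmonic. -/
structure ClosedForm (X : Type) [TopologicalSpace X] [ChartedSpace E X] where
  /-- index type of the cover -/
  ι : Type
  /-- the open sets -/
  U : ι → Set X
  /-- the potentials -/
  ρ : ι → X → ℝ
  isOpen : ∀ i, IsOpen (U i)
  cover : ∀ x, ∃ i, x ∈ U i
  smooth : ∀ i, ContMDiffOn 𝓘(ℝ, E) 𝓘(ℝ, ℝ) ∞ (ρ i) (U i)
  compat : ∀ i j, PshOn E (fun x => ρ i x - ρ j x) (U i ∩ U j)

variable {E}

/-- A continuous function `φ` is `w`-plurisubharmonic: `φ + ρ i` is plurisubharmonic on `U i`. -/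
def ClosedForm.Psh (w : ClosedForm E X) (φ : X → ℝ) : Prop :=
  ∀ i, PshOn E (fun x => φ x + w.ρ i x) (w.U i)

end RG
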