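import Pool.Agent.H14.RG.Defs

/-!
# The Levi form

`levi f x v` is the value at `v` of the Levi form of a smooth real function `f` on an open subset
of `ℂ ^ n`, that is `4 * ∑ j k, (∂² f / ∂ z_j ∂ zbar_k) v_j vbar_k`, written with the real second
derivative as `D² f (v, v) + D² f (i v, i v)`.
-/

open scoped Manifold ContDiff Topology
open Set

namespace RG

/-- the Levi form of `f` at `x` in the direction `v` (four times the complex Hessian) -/
noncomputable def levi {n : ℕ} (f : (Fin n → ℂ) → ℝ) (x v : Fin n → ℂ) : ℝ :=
  iteratedFDeriv ℝ 2 f x ![v, v] +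
    iteratedFDeriv ℝ 2 f x ![Complex.I • v, Complex.I • v]

variable {n : ℕ} {X : Type} [TopologicalSpace X] [ChartedSpace (Fin n → ℂ) X]

/-- The form is semi-positive at every point: in every chart `e` the Levi form of every local
potential is nonnegative at every point of its domain. -/
def ClosedForm.SemiposL (w : ClosedForm (Fin n → ℂ) X) : Prop :=
  ∀ i, ∀ x ∈ w.U i, ∀ e ∈ atlas (Fin n → ℂ) X, x ∈ e.source →
    ∀ v, 0 ≤ levi (fun y => w.ρ i (e.symm y)) (e x) v

/-- The form is positive definite at `x`: in some chart at `x` the Levi form of some local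
potential near `x` is positive definite (this does not depend on the chart and the potential). -/
def ClosedForm.PosAtL (w : ClosedForm (Fin n → ℂ) X) (x : X) : Prop :=
  ∃ i, x ∈ w.U i ∧ ∃ e ∈ atlas (Fin n → ℂ) X, x ∈ e.source ∧
    ∀ v, v ≠ 0 → 0 < levi (fun y => w.ρ i (e.symm y)) (e x) v

end RG
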