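import Pool.Agent.H14.RG.NearP

/-!
# Module G1: bounds on the cone and points of the tube near `p`

The statement `near_p` is in the file `NearP`.
-/

open scoped Topology ContDiff
open Set Metric

namespace RG

theorem ea_transfer {C s c Xp Xq Yp Yq : ℝ} (hs : 0 < s) (hc : 0 < c) (h : Xq ≤ C * Yq)
    (hX : s * Xp = c * Xq) (hY : s * Yp = c * Yq) : Xp ≤ C * Yp := by
  have h1 : s * Xp ≤ s * (C * Yp) := by
    rw [hX]
    calc c * Xq ≤ c * (C * Yq) := mul_le_mul_of_nonneg_left h hc.le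
      _ = C * (c * Yq) := by ring
      _ = s * (C * Yp) := by rw [← hY]; ring
  exact le_of_mul_le_mul_left h1 hs

theorem ea_ratio {X Y : V4 → ℝ} (hX : ∀ p ∈ npK, ContinuousAt X p)
    (hY : ∀ p ∈ npK, ContinuousAt Y p) (h0 : ∀ p ∈ npK, 0 < Y p) :
    ∃ C : ℝ, 1 ≤ C ∧ ∀ p ∈ npK, X p ≤ C * Y p := by
  have hc : ContinuousOn (fun p => X p / Y p) npK := fun p hp =>
    ((hX p hp).div (hY p hp) (h0 p hp).ne').continuousWithinAt
  obtain ⟨C, hC⟩ := (npK_compact.image_of_continuousOn hc).bddAbove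
  refine ⟨max C 1, le_max_right _ _, fun p hp => ?_⟩
  have h1 : X p / Y p ≤ C := hC ⟨p, hp, rfl⟩
  rw [div_le_iff₀ (h0 p hp)] at h1
  exact h1.trans (mul_le_mul_of_nonneg_right (le_max_left _ _) (h0 p hp).le)

theorem ea_exp_cont (a : ℝ) {p : V4} (hp : p.1 ≠ 0) :
    ContinuousAt (fun p : V4 => Real.exp (a * qq p.1)) p :=
  (continuousAt_const.mul (qq_fst_smooth hp).continuousAt).rexp

theorem ea_exp2 (x : ℝ) : Real.exp (2 * x) = Real.exp x ^ 2 := by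
  rw [← Real.exp_nat_mul]
  norm_num

theorem ea_exp4 (x : ℝ) : Real.exp (4 * x) = Real.exp x ^ 4 := by
  rw [← Real.exp_nat_mul]
  norm_num

/-- the action on `Th` -/
theorem ea_Th (n : ℤ) {p : V4} (hp : p.1 ≠ 0) :
    ‖Th (gG n p).1‖ * ‖cc n p.1‖ ^ 4 = ‖Th p.1‖ := by
  have h := norm_fP_gG n (p := (p.1, ![0, 0, 1])) hp
  have h1 : fP (p.1, ![0, 0, 1]) = Th p.1 := by
    unfold fP
    simp
  have h2 : fP (gG n (p.1, ![0, 0, 1])) = Th (gG n p).1 * cc n p.1 ^ 4 := by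
    unfold fP gG
    simp
  rw [h1, h2, norm_mul, norm_pow] at h
  exact h

/-- bounds by compactness of `1/4 ≤ ‖z‖ ≤ 1` and invariance -/
theorem exists_bound : ∃ C : ℝ, 1 ≤ C ∧ ∀ p ∈ Mh,
    ‖th p.1‖ ^ 2 ≤ C * Real.exp (2 * qq p.1) ∧
    ‖Th p.1‖ ≤ C * Real.exp (4 * qq p.1) ∧
    ‖fQ p‖ ^ 2 ≤ C * Real.exp (2 * qq p.1) * nN p ^ 2 := by
  obtain ⟨C1, h1, b1⟩ := ea_ratio (X := fun p => ‖th p.1‖ ^ 2)
    (Y := fun p => Real.exp (2 * qq p.1))
    (fun p hp => (th1_analytic (npK_sub hp).1).continuousAt.norm.pow 2)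
    (fun p hp => ea_exp_cont 2 (npK_sub hp).1) (fun p _ => Real.exp_pos _)
  obtain ⟨C2, h2, b2⟩ := ea_ratio (X := fun p => ‖Th p.1‖)
    (Y := fun p => Real.exp (4 * qq p.1))
    (fun p hp => ((thb_fst_analytic norm_aa (npK_sub hp).1).pow 4).continuousAt.norm)
    (fun p hp => ea_exp_cont 4 (npK_sub hp).1) (fun p _ => Real.exp_pos _)
  obtain ⟨C3, h3, b3⟩ := ea_ratio (X := fun p => ‖fQ p‖ ^ 2)
    (Y := fun p => Real.exp (2 * qq p.1) * nN p ^ 2)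
    (fun p hp => (fQ_analytic (npK_sub hp).1).continuousAt.norm.pow 2)
    (fun p hp => (ea_exp_cont 2 (npK_sub hp).1).mul
      ((nN_smooth (npK_sub hp).1).continuousAt.pow 2))
    (fun p hp => by
      have := nN_pos (npK_sub hp)
      positivity)
  refine ⟨C1 + C2 + C3, by linarith, fun p hp => ?_⟩
  obtain ⟨n, t, ht, q1, q2, q3⟩ := exists_normal hp
  have hp1 : p.1 ≠ 0 := hp.1
  have ht0 : 0 < ‖t‖ := norm_pos_iff.2 ht
  have hc0 : 0 < ‖cc n p.1‖ := norm_pos_iff.2 (cc_ne hp1)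
  set g : V4 := gG n p with hg
  have hqK : sc t g ∈ npK := ⟨q1, q2, q3⟩
  have hcc : ‖cc n p.1‖ * Real.exp (qq g.1) = Real.exp (qq p.1) := norm_cc_exp n hp1
  have hth : ‖th g.1‖ * ‖cc n p.1‖ = ‖th p.1‖ := norm_th_gG n hp1
  have hTh : ‖Th g.1‖ * ‖cc n p.1‖ ^ 4 = ‖Th p.1‖ := ea_Th n hp1
  have hQ : ‖fQ g‖ * ‖cc n p.1‖ = ‖fQ p‖ := norm_fQ_gG n hp1
  have hN : nN (sc t g) = ‖t‖ ^ 2 * nN p := by rw [nN_sc, hg, nN_gG n hp1]
  have hNp := nN_pos hp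
  have f1 : (sc t g).1 = g.1 := rfl
  refine ⟨?_, ?_, ?_⟩
  · have := ea_transfer (s := 1) (c := ‖cc n p.1‖ ^ 2) (Xp := ‖th p.1‖ ^ 2)
      (Yp := Real.exp (2 * qq p.1)) one_pos (by positivity) (b1 _ hqK)
      (by
        show 1 * ‖th p.1‖ ^ 2 = ‖cc n p.1‖ ^ 2 * ‖th g.1‖ ^ 2
        rw [← hth]
        ring)
      (by
        show 1 * Real.exp (2 * qq p.1) = ‖cc n p.1‖ ^ 2 * Real.exp (2 * qq g.1)
        rw [ea_exp2, ea_exp2, ← hcc]
        ring)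
    refine this.trans (mul_le_mul_of_nonneg_right (by linarith) (Real.exp_pos _).le)
  · have := ea_transfer (s := 1) (c := ‖cc n p.1‖ ^ 4) (Xp := ‖Th p.1‖)
      (Yp := Real.exp (4 * qq p.1)) one_pos (by positivity) (b2 _ hqK)
      (by
        show 1 * ‖Th p.1‖ = ‖cc n p.1‖ ^ 4 * ‖Th g.1‖
        rw [← hTh]
        ring)
      (by
        show 1 * Real.exp (4 * qq p.1) = ‖cc n p.1‖ ^ 4 * Real.exp (4 * qq g.1)
        rw [ea_exp4, ea_exp4, ← hcc]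
        ring)
    refine this.trans (mul_le_mul_of_nonneg_right (by linarith) (Real.exp_pos _).le)
  · have := ea_transfer (s := ‖t‖ ^ 4) (c := ‖cc n p.1‖ ^ 2) (Xp := ‖fQ p‖ ^ 2)
      (Yp := Real.exp (2 * qq p.1) * nN p ^ 2) (by positivity) (by positivity) (b3 _ hqK)
      (by
        show ‖t‖ ^ 4 * ‖fQ p‖ ^ 2 = ‖cc n p.1‖ ^ 2 * ‖fQ (sc t g)‖ ^ 2
        rw [← hQ, fQ_sc, norm_mul, norm_pow]
        ring)
      (by
        show ‖t‖ ^ 4 * (Real.exp (2 * qq p.1) * nN p ^ 2) =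
          ‖cc n p.1‖ ^ 2 * (Real.exp (2 * qq g.1) * nN (sc t g) ^ 2)
        rw [hN, ea_exp2, ea_exp2, ← hcc]
        ring)
    rw [mul_assoc]
    refine this.trans (mul_le_mul_of_nonneg_right (by linarith) (by positivity))

/-- consequences -/
theorem exists_bound' : ∃ C : ℝ, 1 ≤ C ∧ ∀ p ∈ Mh,
    nJ p ≤ C * a2 p * nN p ^ 2 ∧ ‖fP p - p.2 0 ^ 3 * p.2 1‖ ≤ C * a2 p ^ 2 ∧
    nP p ≤ C * nN p ^ 4 := by
  obtain ⟨C, hC, h⟩ := exists_bound
  refine ⟨(1 + C) ^ 2, by nlinarith, fun p hp => ?_⟩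
  obtain ⟨h1, h2, h3⟩ := h p hp
  have hN := nN_pos hp
  have ha := a2_nonneg p
  have hE := nE_nonneg p
  have hNe := nN_eq p
  have hC2 : 2 * C ≤ (1 + C) ^ 2 := by nlinarith
  have hC3 : C ≤ (1 + C) ^ 2 := by nlinarith
  have k2 : ‖fP p - p.2 0 ^ 3 * p.2 1‖ ≤ C * a2 p ^ 2 := by
    have e1 : fP p - p.2 0 ^ 3 * p.2 1 = Th p.1 * p.2 2 ^ 4 := by
      unfold fP
      ring
    rw [e1, norm_mul, norm_pow]
    have e2 : C * a2 p ^ 2 = C * Real.exp (4 * qq p.1) * ‖p.2 2‖ ^ 4 := by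
      unfold a2
      rw [ea_exp2, ea_exp4]
      ring
    rw [e2]
    exact mul_le_mul_of_nonneg_right h2 (by positivity)
  refine ⟨?_, k2.trans (mul_le_mul_of_nonneg_right hC3 (by positivity)), ?_⟩
  · have e1 : nJ p ≤ 2 * C * a2 p * nN p ^ 2 := by
      unfold nJ nJp
      have e2 : 2 * C * a2 p * nN p ^ 2 = ‖p.2 2‖ ^ 2 * (C * Real.exp (2 * qq p.1) * nN p ^ 2 +
          C * Real.exp (2 * qq p.1) * nN p ^ 2) := by
        unfold a2
        ring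
      rw [e2]
      exact mul_le_mul_of_nonneg_left (add_le_add
        (mul_le_mul_of_nonneg_right h1 (by positivity)) h3) (by positivity)
    refine e1.trans ?_
    have e3 : 0 ≤ a2 p * nN p ^ 2 := by positivity
    have e4 := mul_le_mul_of_nonneg_right hC2 e3
    linarith
  · have e1 : ‖p.2 0 ^ 3 * p.2 1‖ ≤ nN p ^ 2 := by
      rw [norm_mul, norm_pow]
      have f1 : ‖p.2 0‖ ^ 2 + ‖p.2 1‖ ^ 2 ≤ nN p := by
        have : nE p = ‖p.2 0‖ ^ 2 + ‖p.2 1‖ ^ 2 := rfl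
        linarith
      have f0 : ‖p.2 0‖ ^ 2 ≤ nN p := by nlinarith [sq_nonneg ‖p.2 1‖]
      have f2 : ‖p.2 0‖ * ‖p.2 1‖ ≤ nN p := by nlinarith [sq_nonneg (‖p.2 0‖ - ‖p.2 1‖)]
      calc ‖p.2 0‖ ^ 3 * ‖p.2 1‖ = ‖p.2 0‖ ^ 2 * (‖p.2 0‖ * ‖p.2 1‖) := by ring
        _ ≤ nN p * nN p := mul_le_mul f0 f2 (by positivity) hN.le
        _ = nN p ^ 2 := by ring
    have e2 : a2 p ^ 2 ≤ nN p ^ 2 := pow_le_pow_left₀ ha (by linarith) 2
    have e3 : ‖fP p‖ ≤ (1 + C) * nN p ^ 2 := by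
      have e4 : fP p = p.2 0 ^ 3 * p.2 1 + (fP p - p.2 0 ^ 3 * p.2 1) := by ring
      rw [e4]
      refine (norm_add_le _ _).trans ?_
      have e5 : C * a2 p ^ 2 ≤ C * nN p ^ 2 := mul_le_mul_of_nonneg_left e2 (by linarith)
      nlinarith
    unfold nP
    calc ‖fP p‖ ^ 2 ≤ ((1 + C) * nN p ^ 2) ^ 2 := pow_le_pow_left₀ (norm_nonneg _) e3 2
      _ = (1 + C) ^ 2 * nN p ^ 4 := by ring

/-- logarithm of a number near one -/
theorem ea_log {w : ℂ} (hw : ‖w - 1‖ ≤ 1 / 100) :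
    |Real.log (‖w‖ ^ 2)| ≤ 4 / 100 ∧ 1 / 2 ≤ ‖w‖ := by
  have h1 : |‖w‖ - 1| ≤ 1 / 100 := by
    have := abs_norm_sub_norm_le w 1
    rw [norm_one] at this
    exact this.trans hw
  rw [abs_le] at h1
  have h2 : 0 < ‖w‖ := by linarith
  refine ⟨?_, by linarith⟩
  rw [Real.log_pow, abs_mul]
  have h3 : |Real.log ‖w‖| ≤ 2 / 100 := by
    rw [abs_le]
    constructor
    · have h4 := Real.log_le_sub_one_of_pos (inv_pos.2 h2)
      rw [Real.log_inv] at h4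
      have h5 : ‖w‖⁻¹ ≤ 1 + 2 / 100 := by
        rw [inv_le_comm₀ h2 (by norm_num)]
        norm_num
        linarith
      linarith
    · have h4 := Real.log_le_sub_one_of_pos h2
      linarith
  norm_num
  linarith

/-- the tube over the band -/
theorem tube_band : ∃ d0 > 0, ∀ d, 0 < d → d ≤ d0 → ∀ p ∈ Mh,
    a2 p ≤ d * nE p → band p →
    p.2 0 ≠ 0 ∧ p.2 1 ≠ 0 ∧ fP p ≠ 0 ∧
    |Real.log (nP p) / 4 - (3 * Real.log (‖p.2 0‖ ^ 2) + Real.log (‖p.2 1‖ ^ 2)) / 4| ≤ 1 / 100 ∧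
    k1 p ≤ 1 / 100 := by
  obtain ⟨C, hC, h⟩ := exists_bound'
  set e : ℝ := Real.exp 6 with he
  have he0 : 1 ≤ e := Real.one_le_exp (by norm_num)
  set L : ℝ := e * (1 + e) ^ 4 with hL
  have hL1 : 1 ≤ L := by
    have : 1 ≤ (1 + e) ^ 4 := one_le_pow₀ (by linarith)
    nlinarith
  set r : ℝ := (1 / 100 : ℝ) ^ (32 / 3 : ℝ) with hr
  have hr0 : 0 < r := by positivity
  refine ⟨min 1 (min (1 / (100 * C * L)) (r / (32 * C * L))), by positivity, ?_⟩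
  intro d hd hd0 p hp ha hb
  obtain ⟨h1, h2, h3⟩ := h p hp
  have d1 : d ≤ 1 := hd0.trans (min_le_left _ _)
  have d2 : d ≤ 1 / (100 * C * L) := (hd0.trans (min_le_right _ _)).trans (min_le_left _ _)
  have d3 : d ≤ r / (32 * C * L) := (hd0.trans (min_le_right _ _)).trans (min_le_right _ _)
  have hE := nE_pos hp ha
  have hEe : nE p = ‖p.2 0‖ ^ 2 + ‖p.2 1‖ ^ 2 := rfl
  obtain ⟨b1, b2⟩ := hb
  rw [← he] at b1 b2
  set x : ℝ := ‖p.2 0‖ with hx
  set y : ℝ := ‖p.2 1‖ with hy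
  have hx0 : 0 ≤ x := norm_nonneg _
  have hy0 : 0 ≤ y := norm_nonneg _
  have hxE : nE p ≤ (1 + e) * x ^ 2 := by rw [hEe]; linarith
  have hx1 : 0 < x ^ 2 := by
    by_contra hcon
    have : x ^ 2 = 0 := le_antisymm (not_lt.1 hcon) (by positivity)
    rw [this] at hxE
    linarith
  have hxp : 0 < x := by
    rcases hx0.eq_or_lt with h0 | h0
    · rw [← h0] at hx1
      norm_num at hx1
    · exact h0
  have hy1 : 0 < y ^ 2 := by
    by_contra hcon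
    have : y ^ 2 = 0 := le_antisymm (not_lt.1 hcon) (by positivity)
    rw [this] at b2
    linarith
  have hyp : 0 < y := by
    rcases hy0.eq_or_lt with h0 | h0
    · rw [← h0] at hy1
      norm_num at hy1
    · exact h0
  have n0 : p.2 0 ≠ 0 := norm_pos_iff.1 hxp
  have n1 : p.2 1 ≠ 0 := norm_pos_iff.1 hyp
  -- `nE ^ 4 ≤ L * (x ^ 3 * y) ^ 2`
  have hM : nE p ^ 4 ≤ L * (x ^ 3 * y) ^ 2 := by
    calc nE p ^ 4 ≤ ((1 + e) * x ^ 2) ^ 4 := pow_le_pow_left₀ hE.le hxE 4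
      _ = (1 + e) ^ 4 * x ^ 6 * x ^ 2 := by ring
      _ ≤ (1 + e) ^ 4 * x ^ 6 * (e * y ^ 2) := mul_le_mul_of_nonneg_left b2 (by positivity)
      _ = L * (x ^ 3 * y) ^ 2 := by rw [hL]; ring
  set m : ℂ := p.2 0 ^ 3 * p.2 1 with hm
  have hmn : ‖m‖ = x ^ 3 * y := by rw [hm, norm_mul, norm_pow]
  have hm0 : m ≠ 0 := mul_ne_zero (pow_ne_zero 3 n0) n1
  have hmp : 0 < ‖m‖ := norm_pos_iff.2 hm0
  rw [← hmn] at hM
  -- the quotient
  set w : ℂ := fP p / m with hw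
  have hfw : fP p = m * w := by rw [hw]; field_simp
  have hw1 : w - 1 = (fP p - m) / m := by rw [hw]; field_simp
  have ha2 : a2 p ^ 2 ≤ d ^ 2 * nE p ^ 2 := by
    rw [← mul_pow]
    exact pow_le_pow_left₀ (a2_nonneg p) ha 2
  have hE2 : nE p ^ 2 ≤ L * ‖m‖ := by
    have e1 : (nE p ^ 2) ^ 2 ≤ (L * ‖m‖) ^ 2 := by
      calc (nE p ^ 2) ^ 2 = nE p ^ 4 := by ring
        _ ≤ L * ‖m‖ ^ 2 := hM
        _ ≤ L ^ 2 * ‖m‖ ^ 2 := mul_le_mul_of_nonneg_right (by nlinarith) (by positivity)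
        _ = (L * ‖m‖) ^ 2 := by ring
    exact le_of_sq_le_sq e1 (by positivity)
  have hdd : d ^ 2 * (C * L) ≤ 1 / 100 := by
    have e1 : d ^ 2 ≤ d := by nlinarith
    have e2 : d * (C * L) ≤ 1 / 100 := by
      have : d * (100 * C * L) ≤ 1 := by
        rw [le_div_iff₀ (by positivity)] at d2
        exact d2
      linarith
    have e3 : 0 < C * L := by positivity
    nlinarith
  have hw2 : ‖w - 1‖ ≤ 1 / 100 := by
    rw [hw1, norm_div, div_le_iff₀ hmp]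
    calc ‖fP p - m‖ ≤ C * a2 p ^ 2 := h2
      _ ≤ C * (d ^ 2 * (L * ‖m‖)) := by
          refine mul_le_mul_of_nonneg_left (ha2.trans ?_) (by linarith)
          exact mul_le_mul_of_nonneg_left hE2 (by positivity)
      _ = d ^ 2 * (C * L) * ‖m‖ := by ring
      _ ≤ 1 / 100 * ‖m‖ := mul_le_mul_of_nonneg_right hdd hmp.le
  obtain ⟨w1, w2⟩ := ea_log hw2
  have hw0 : w ≠ 0 := by
    rintro h0
    rw [h0, norm_zero] at w2
    norm_num at w2
  have hwp : 0 < ‖w‖ := norm_pos_iff.2 hw0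
  have hf0 : fP p ≠ 0 := by rw [hfw]; exact mul_ne_zero hm0 hw0
  refine ⟨n0, n1, hf0, ?_, ?_⟩
  · have e1 : Real.log (nP p) = 3 * Real.log (x ^ 2) + Real.log (y ^ 2) + Real.log (‖w‖ ^ 2) := by
      unfold nP
      rw [hfw, norm_mul, hmn, mul_pow, Real.log_mul (by positivity) (by positivity), mul_pow,
        Real.log_mul (by positivity) (by positivity)]
      have e2 : (x ^ 3) ^ 2 = (x ^ 2) ^ 3 := by ring
      rw [e2, Real.log_pow (n := 3)]
      norm_num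
    have e2 : Real.log (nP p) / 4 - (3 * Real.log (x ^ 2) + Real.log (y ^ 2)) / 4 =
        Real.log (‖w‖ ^ 2) / 4 := by rw [e1]; ring
    rw [e2, abs_div]
    have : |(4 : ℝ)| = 4 := by norm_num
    rw [this]
    linarith
  · have hnP : nP p = ‖m‖ ^ 2 * ‖w‖ ^ 2 := by
      unfold nP
      rw [hfw, norm_mul, mul_pow]
    have hnPp : 0 < nP p := by rw [hnP]; positivity
    have hNE : nN p ≤ 2 * nE p := by
      rw [nN_eq]
      nlinarith
    have hNp := nN_pos hp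
    have hnJ0 : 0 ≤ nJ p := by
      unfold nJ
      have := nJp_nonneg p
      positivity
    have hratio : nN p * nJ p * (nP p)⁻¹ ≤ r := by
      rw [← div_eq_mul_inv, div_le_iff₀ hnPp]
      have k1' : nN p * nJ p ≤ nN p * (C * (d * nE p) * nN p ^ 2) := by
        refine mul_le_mul_of_nonneg_left (h1.trans ?_) hNp.le
        exact mul_le_mul_of_nonneg_right (mul_le_mul_of_nonneg_left ha (by linarith))
          (by positivity)
      have k2' : nN p * (C * (d * nE p) * nN p ^ 2) ≤ 8 * C * d * nE p ^ 4 := by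
        have k3 : nN p ^ 3 ≤ (2 * nE p) ^ 3 := pow_le_pow_left₀ hNp.le hNE 3
        calc nN p * (C * (d * nE p) * nN p ^ 2) = C * d * nE p * nN p ^ 3 := by ring
          _ ≤ C * d * nE p * (2 * nE p) ^ 3 := mul_le_mul_of_nonneg_left k3 (by positivity)
          _ = 8 * C * d * nE p ^ 4 := by ring
      have k3' : 8 * C * d * nE p ^ 4 ≤ 8 * C * d * (L * ‖m‖ ^ 2) :=
        mul_le_mul_of_nonneg_left hM (by positivity)
      have k4 : ‖m‖ ^ 2 ≤ 4 * nP p := by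
        rw [hnP]
        have : 1 / 4 ≤ ‖w‖ ^ 2 := by nlinarith
        nlinarith [sq_nonneg ‖m‖, mul_le_mul_of_nonneg_left this (sq_nonneg ‖m‖)]
      have k5 : 8 * C * d * (L * ‖m‖ ^ 2) ≤ d * (32 * C * L) * nP p := by
        have : 0 ≤ 8 * C * d * L := by positivity
        nlinarith [mul_le_mul_of_nonneg_left k4 this]
      have k6 : d * (32 * C * L) ≤ r := by
        rw [le_div_iff₀ (by positivity)] at d3
        exact d3
      have k7 : d * (32 * C * L) * nP p ≤ r * nP p := mul_le_mul_of_nonneg_right k6 hnPp.le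
      linarith
    unfold k1
    have hnn : 0 ≤ nN p * nJ p * (nP p)⁻¹ := by positivity
    refine (Real.rpow_le_rpow hnn hratio (by norm_num)).trans (le_of_eq ?_)
    rw [hr, ← Real.rpow_mul (by norm_num)]
    norm_num

end RG
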