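import Pool.Agent.H14.RG.EstA

/-!
# Module G2: the local inequalities near the point `(1, (1, 1, 0))`
-/

open scoped Topology ContDiff
open Set Metric

namespace RG

/-- affine points near `(1, (1, 1, 0))` -/
noncomputable def eb_emb (x : ℂ × ℂ × ℂ) : V4 := (x.1, ![1, x.2.1, x.2.2])

theorem eb_emb_cont : Continuous eb_emb := by
  unfold eb_emb
  refine continuous_fst.prodMk (continuous_pi fun i => ?_)
  fin_cases i
  · exact continuous_const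
  · exact continuous_fst.comp continuous_snd
  · exact continuous_snd.comp continuous_snd

theorem eb_loc_ev {Q : ℂ → ℂ → ℂ → Prop}
    (h : ∀ᶠ x : ℂ × ℂ × ℂ in 𝓝 (1, 1, 0), Q x.1 x.2.1 x.2.2) :
    ∃ ε > 0, ∀ z w v : ℂ, ‖z - 1‖ < ε → ‖w - 1‖ < ε → ‖v‖ < ε → Q z w v := by
  obtain ⟨ε, hε, h⟩ := Metric.eventually_nhds_iff.1 h
  refine ⟨ε, hε, fun z w v hz hw hv => ?_⟩
  refine h (y := (z, w, v)) ?_
  rw [Prod.dist_eq, Prod.dist_eq]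
  refine max_lt ?_ (max_lt ?_ ?_)
  · simpa [dist_eq_norm] using hz
  · simpa [dist_eq_norm] using hw
  · simpa [dist_eq_norm] using hv

theorem eb_emb_ev {f g : V4 → ℝ} (hf : ContinuousAt f (eb_emb (1, 1, 0)))
    (hg : ContinuousAt g (eb_emb (1, 1, 0))) (h : f (eb_emb (1, 1, 0)) < g (eb_emb (1, 1, 0))) :
    ∀ᶠ x : ℂ × ℂ × ℂ in 𝓝 (1, 1, 0), f (eb_emb x) < g (eb_emb x) := by
  have h1 : ContinuousAt (fun x => f (eb_emb x)) (1, 1, 0) :=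
    ContinuousAt.comp (g := f) (f := eb_emb) hf eb_emb_cont.continuousAt
  have h2 : ContinuousAt (fun x => g (eb_emb x)) (1, 1, 0) :=
    ContinuousAt.comp (g := g) (f := eb_emb) hg eb_emb_cont.continuousAt
  exact h1.eventually_lt h2 h

theorem eb_emb0_fst : (eb_emb (1, 1, 0)).1 ≠ 0 := one_ne_zero
theorem eb_emb0_c0 : (eb_emb (1, 1, 0)).2 0 = 1 := rfl
theorem eb_emb0_c1 : (eb_emb (1, 1, 0)).2 1 = 1 := rfl
theorem eb_emb0_c2 : (eb_emb (1, 1, 0)).2 2 = 0 := rfl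

theorem eb_emb0_fP : fP (eb_emb (1, 1, 0)) = 1 := by
  unfold fP
  rw [eb_emb0_c0, eb_emb0_c1, eb_emb0_c2]
  simp

theorem eb_emb0_nP : nP (eb_emb (1, 1, 0)) = 1 := by
  unfold nP
  rw [eb_emb0_fP]
  simp

theorem eb_emb0_nE : nE (eb_emb (1, 1, 0)) = 2 := by
  unfold nE
  rw [eb_emb0_c0, eb_emb0_c1]
  norm_num

theorem eb_emb0_nN : nN (eb_emb (1, 1, 0)) = 2 := by
  unfold nN a2
  rw [eb_emb0_c0, eb_emb0_c1, eb_emb0_c2]
  norm_num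

theorem eb_emb0_sg : sg (eb_emb (1, 1, 0)) = 0 := by
  unfold sg
  rw [eb_emb0_c0, eb_emb0_c1]
  simp

theorem eb_nP_contAt {p : V4} (hp : p.1 ≠ 0) : ContinuousAt nP p := (nP_smooth hp).continuousAt
theorem eb_nN_contAt {p : V4} (hp : p.1 ≠ 0) : ContinuousAt nN p := (nN_smooth hp).continuousAt
theorem eb_nE_contAt (p : V4) : ContinuousAt nE p := (nE_smooth p).continuousAt

/-- near the point: values -/
theorem loc_values : ∃ ε > 0, ε < 1 / 4 ∧ ∀ z w v : ℂ, ‖z - 1‖ < ε → ‖w - 1‖ < ε → ‖v‖ < ε →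
    w ≠ 0 ∧ fP (z, ![1, w, v]) ≠ 0 ∧ |sg (z, ![1, w, v])| ≤ 1 / 100 ∧
    nN (z, ![1, w, v]) ^ 4 ≤ 17 * nP (z, ![1, w, v]) ∧
    15 * nP (z, ![1, w, v]) ≤ nN (z, ![1, w, v]) ^ 4 ∧
    Real.log (nE (z, ![1, w, v])) - 4 / 5 ≤ Real.log (nP (z, ![1, w, v])) / 4 := by
  have cP := eb_nP_contAt eb_emb0_fst
  have cN := eb_nN_contAt eb_emb0_fst
  have cE := eb_nE_contAt (eb_emb (1, 1, 0))
  have cfP : ContinuousAt fP (eb_emb (1, 1, 0)) := (fP_analytic eb_emb0_fst).continuousAt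
  have csg : ContinuousAt sg (eb_emb (1, 1, 0)) :=
    sg_cont (by rw [eb_emb0_c0]; exact one_ne_zero) (by rw [eb_emb0_c1]; exact one_ne_zero)
  have e1 : ∀ᶠ x : ℂ × ℂ × ℂ in 𝓝 (1, 1, 0), x.2.1 ≠ 0 := by
    have : ContinuousAt (fun x : ℂ × ℂ × ℂ => x.2.1) (1, 1, 0) :=
      (continuous_fst.comp continuous_snd).continuousAt
    exact this.eventually_ne one_ne_zero
  have e2 : ∀ᶠ x : ℂ × ℂ × ℂ in 𝓝 (1, 1, 0), fP (eb_emb x) ≠ 0 := by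
    have : ContinuousAt (fun x => fP (eb_emb x)) (1, 1, 0) :=
      ContinuousAt.comp (g := fP) (f := eb_emb) cfP eb_emb_cont.continuousAt
    exact this.eventually_ne (by rw [eb_emb0_fP]; exact one_ne_zero)
  have e3 := eb_emb_ev (f := fun p => |sg p|) (g := fun _ => (1 / 100 : ℝ)) csg.abs
    continuousAt_const (by rw [eb_emb0_sg]; norm_num)
  have e4 := eb_emb_ev (f := fun p => nN p ^ 4) (g := fun p => 17 * nP p) (cN.pow 4)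
    (continuousAt_const.mul cP) (by rw [eb_emb0_nN, eb_emb0_nP]; norm_num)
  have e5 := eb_emb_ev (f := fun p => 15 * nP p) (g := fun p => nN p ^ 4)
    (continuousAt_const.mul cP) (cN.pow 4) (by rw [eb_emb0_nN, eb_emb0_nP]; norm_num)
  have e6 := eb_emb_ev (f := fun p => Real.log (nE p) - 4 / 5) (g := fun p => Real.log (nP p) / 4)
    ((cE.log (by rw [eb_emb0_nE]; norm_num)).sub continuousAt_const)
    ((cP.log (by rw [eb_emb0_nP]; norm_num)).div_const 4) (by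
      rw [eb_emb0_nE, eb_emb0_nP, Real.log_one]
      have := Real.log_two_lt_d9
      norm_num at this ⊢
      linarith)
  obtain ⟨ε, hε, h⟩ := eb_loc_ev (Q := fun z w v => w ≠ 0 ∧ fP (z, ![1, w, v]) ≠ 0 ∧
    |sg (z, ![1, w, v])| ≤ 1 / 100 ∧
    nN (z, ![1, w, v]) ^ 4 ≤ 17 * nP (z, ![1, w, v]) ∧
    15 * nP (z, ![1, w, v]) ≤ nN (z, ![1, w, v]) ^ 4 ∧
    Real.log (nE (z, ![1, w, v])) - 4 / 5 ≤ Real.log (nP (z, ![1, w, v])) / 4) (by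
    filter_upwards [e1, e2, e3, e4, e5, e6] with x h1 h2 h3 h4 h5 h6
    exact ⟨h1, h2, h3.le, h4.le, h5.le, h6.le⟩)
  refine ⟨min ε (1 / 8), by positivity, (min_le_right _ _).trans_lt (by norm_num), ?_⟩
  intro z w v hz hw hv
  exact h z w v (hz.trans_le (min_le_left _ _)) (hw.trans_le (min_le_left _ _))
    (hv.trans_le (min_le_left _ _))

theorem eb_th_one : th 1 = 0 := (th_eq_zero_iff one_ne_zero).2 ⟨0, by simp⟩

theorem eb_th_lower : ∃ c > 0, ∀ᶠ z : ℂ in 𝓝 1, c * ‖z - 1‖ ≤ ‖th z‖ := by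
  have hd : HasDerivAt th (deriv th 1) 1 := (th_analytic one_ne_zero).differentiableAt.hasDerivAt
  have hD : 0 < ‖deriv th 1‖ := norm_pos_iff.2 th_deriv
  refine ⟨‖deriv th 1‖ / 2, by positivity, ?_⟩
  have h := (hasDerivAt_iff_isLittleO.1 hd).def (half_pos hD)
  filter_upwards [h] with z hz
  rw [eb_th_one, sub_zero, smul_eq_mul] at hz
  have h1 : ‖(z - 1) * deriv th 1‖ ≤ ‖th z‖ + ‖th z - (z - 1) * deriv th 1‖ := by
    have : (z - 1) * deriv th 1 = th z - (th z - (z - 1) * deriv th 1) := by ring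
    calc ‖(z - 1) * deriv th 1‖ = ‖th z - (th z - (z - 1) * deriv th 1)‖ := by rw [← this]
      _ ≤ _ := norm_sub_le _ _
  rw [norm_mul] at h1
  nlinarith

theorem eb_one_upper {f : ℂ → ℂ} (hf : AnalyticAt ℂ f 1) (h1 : f 1 = 1) :
    ∃ L > 0, ∀ᶠ z : ℂ in 𝓝 1, ‖f z - 1‖ ≤ L * ‖z - 1‖ := by
  have hd : HasDerivAt f (deriv f 1) 1 := hf.differentiableAt.hasDerivAt
  refine ⟨‖deriv f 1‖ + 1, by positivity, ?_⟩
  have h := (hasDerivAt_iff_isLittleO.1 hd).def one_pos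
  filter_upwards [h] with z hz
  rw [h1, smul_eq_mul] at hz
  have h2 : f z - 1 = (f z - 1 - (z - 1) * deriv f 1) + (z - 1) * deriv f 1 := by ring
  rw [h2]
  refine (norm_add_le _ _).trans ?_
  rw [norm_mul]
  nlinarith

theorem eb_log_norm_bound {w : ℂ} (hw : ‖w - 1‖ < 1 / 2) : |Real.log (‖w‖ ^ 2)| ≤ 4 * ‖w - 1‖ := by
  have h1 : |‖w‖ - 1| ≤ ‖w - 1‖ := by
    have := abs_norm_sub_norm_le w 1
    simpa using this
  have h2 := abs_le.1 h1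
  have hpos : 1 / 2 < ‖w‖ := by linarith [h2.1]
  have h3 : Real.log ‖w‖ ≤ ‖w‖ - 1 := Real.log_le_sub_one_of_pos (by linarith)
  have h4 : Real.log (‖w‖⁻¹) ≤ ‖w‖⁻¹ - 1 := Real.log_le_sub_one_of_pos (by positivity)
  rw [Real.log_inv] at h4
  have h5 : ‖w‖⁻¹ - 1 ≤ 2 * ‖w - 1‖ := by
    have : ‖w‖⁻¹ - 1 = (1 - ‖w‖) * ‖w‖⁻¹ := by
      field_simp
    rw [this]
    have h6 : ‖w‖⁻¹ ≤ 2 := by
      rw [inv_le_comm₀ (by linarith) (by norm_num)]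
      linarith
    have h7 : (0 : ℝ) < ‖w‖⁻¹ := by positivity
    rcases le_or_gt (1 - ‖w‖) 0 with h8 | h8
    · nlinarith [norm_nonneg (w - 1)]
    · nlinarith
  rw [Real.log_pow, abs_le]
  push_cast
  constructor
  · linarith
  · linarith [norm_nonneg (w - 1), h2.2]

/-- near the point, `J' ≤ nB` forces `|σ| ≤ C ‖v‖ ^ (1/2)` -/
theorem loc_sigma : ∃ ε > 0, ∃ C > 0, ∀ z w v : ℂ, ‖z - 1‖ < ε → ‖w - 1‖ < ε → ‖v‖ < ε →
    nJp (z, ![1, w, v]) ≤ nB (z, ![1, w, v]) →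
    |sg (z, ![1, w, v])| ≤ C * ‖v‖ ^ (1 / 2 : ℝ) := by
  obtain ⟨c, hc, hth⟩ := eb_th_lower
  obtain ⟨L1, hL1, h1⟩ := eb_one_upper ((thb_analytic norm_aa one_ne_zero).pow 2) (by
    show thb aa 1 ^ 2 = 1
    rw [thb_one norm_aa (by simpa using aa_zpow_ne (n := 1) one_ne_zero), one_pow])
  obtain ⟨L2, hL2, h2⟩ := eb_one_upper (thb_analytic (norm_aa_zpow (-6)) one_ne_zero)
    (thb_one (norm_aa_zpow (-6)) (aa_zpow_ne (by norm_num)))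
  obtain ⟨L3, hL3, h3⟩ := eb_one_upper (thb_analytic (norm_aa_zpow (-2)) one_ne_zero)
    (thb_one (norm_aa_zpow (-2)) (aa_zpow_ne (by norm_num)))
  obtain ⟨L4, hL4, h4⟩ := eb_one_upper (thb_analytic (norm_aa_pow 2) one_ne_zero)
    (thb_one (norm_aa_pow 2) (by
      have := aa_zpow_ne (n := 2) (by norm_num)
      simpa using this))
  set L : ℝ := L1 + 4 * L2 + 4 * L3 + L4 with hL
  have hLpos : 0 < L := by positivity
  -- bound of the exponential factor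
  have e1 := eb_emb_ev (f := fun p => Real.exp (4 * qq p.1) * nN p) (g := fun _ => (4 : ℝ))
    (((continuousAt_const.mul ((qq_fst_smooth eb_emb0_fst).continuousAt)).rexp).mul
      (eb_nN_contAt eb_emb0_fst)) continuousAt_const (by
      rw [eb_emb0_nN]
      have : qq (eb_emb (1, 1, 0)).1 = 0 := by
        show qq 1 = 0
        simp [qq]
      rw [this]
      norm_num)
  have e2 : ∀ᶠ x : ℂ × ℂ × ℂ in 𝓝 (1, 1, 0), c * ‖x.1 - 1‖ ≤ ‖th x.1‖ ∧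
      ‖thb aa x.1 ^ 2 - 1‖ ≤ L1 * ‖x.1 - 1‖ ∧
      ‖thb (aa ^ (-6 : ℤ)) x.1 - 1‖ ≤ L2 * ‖x.1 - 1‖ ∧
      ‖thb (aa ^ (-2 : ℤ)) x.1 - 1‖ ≤ L3 * ‖x.1 - 1‖ ∧
      ‖thb (aa ^ 2) x.1 - 1‖ ≤ L4 * ‖x.1 - 1‖ := by
    have hfst : Filter.Tendsto (fun x : ℂ × ℂ × ℂ => x.1) (𝓝 (1, 1, 0)) (𝓝 1) :=
      continuous_fst.tendsto _
    filter_upwards [hfst.eventually hth, hfst.eventually h1, hfst.eventually h2,
      hfst.eventually h3, hfst.eventually h4] with x a b d e f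
    exact ⟨a, b, d, e, f⟩
  obtain ⟨ε, hε, h⟩ := eb_loc_ev (Q := fun z w v =>
    Real.exp (4 * qq z) * nN (z, ![1, w, v]) < 4 ∧ c * ‖z - 1‖ ≤ ‖th z‖ ∧
      ‖thb aa z ^ 2 - 1‖ ≤ L1 * ‖z - 1‖ ∧
      ‖thb (aa ^ (-6 : ℤ)) z - 1‖ ≤ L2 * ‖z - 1‖ ∧
      ‖thb (aa ^ (-2 : ℤ)) z - 1‖ ≤ L3 * ‖z - 1‖ ∧
      ‖thb (aa ^ 2) z - 1‖ ≤ L4 * ‖z - 1‖) (by
    filter_upwards [e1, e2] with x a b
    exact ⟨a, b⟩)
  set C1 : ℝ := 3 + L * (2 / c) with hC1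
  have hC1pos : 0 < C1 := by positivity
  refine ⟨min ε (1 / 4), by positivity, 4 * C1 ^ (1 / 2 : ℝ), by positivity, ?_⟩
  intro z w v hz hw hv hJ
  obtain ⟨b1, b2, b3, b4, b5, b6⟩ := h z w v (hz.trans_le (min_le_left _ _))
    (hw.trans_le (min_le_left _ _)) (hv.trans_le (min_le_left _ _))
  have hw' : ‖w - 1‖ < 1 / 4 := hw.trans_le (min_le_right _ _)
  have hv' : ‖v‖ < 1 / 4 := hv.trans_le (min_le_right _ _)
  have hwn : ‖w‖ ≤ 2 := by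
    have : ‖w‖ ≤ ‖w - 1‖ + ‖(1 : ℂ)‖ := by
      have := norm_add_le (w - 1) 1
      simpa using this
    rw [norm_one] at this
    linarith
  have hB : nB (z, ![1, w, v]) ≤ (2 * ‖v‖) ^ 2 := by
    have : nB (z, ![1, w, v]) = ‖v‖ ^ 2 * (Real.exp (4 * qq z) * nN (z, ![1, w, v])) := by
      unfold nB
      show ‖v‖ ^ 2 * _ * _ = _
      ring
    rw [this]
    nlinarith [sq_nonneg ‖v‖]
  have hN1 : 1 ≤ nN (z, ![1, w, v]) := by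
    have : nN (z, ![1, w, v]) = ‖(1 : ℂ)‖ ^ 2 + ‖w‖ ^ 2 + a2 (z, ![1, w, v]) := rfl
    rw [this, norm_one]
    have : 0 ≤ a2 (z, ![1, w, v]) := by unfold a2; positivity
    nlinarith [sq_nonneg ‖w‖]
  have hJp : nJp (z, ![1, w, v]) = ‖th z‖ ^ 2 * nN (z, ![1, w, v]) ^ 2 +
      ‖fQ (z, ![1, w, v])‖ ^ 2 := rfl
  have hN2 : 1 ≤ nN (z, ![1, w, v]) ^ 2 := one_le_pow₀ hN1
  have ht2 : ‖th z‖ ^ 2 ≤ (2 * ‖v‖) ^ 2 := by
    nlinarith [sq_nonneg ‖th z‖, sq_nonneg ‖fQ (z, ![1, w, v])‖]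
  have hQ2 : ‖fQ (z, ![1, w, v])‖ ^ 2 ≤ (2 * ‖v‖) ^ 2 := by
    have : 0 ≤ ‖th z‖ ^ 2 * nN (z, ![1, w, v]) ^ 2 := by positivity
    linarith
  have ht : ‖th z‖ ≤ 2 * ‖v‖ := abs_le_of_sq_le_sq' ht2 (by positivity) |>.2
  have hQ : ‖fQ (z, ![1, w, v])‖ ≤ 2 * ‖v‖ := abs_le_of_sq_le_sq' hQ2 (by positivity) |>.2
  have hz1 : ‖z - 1‖ ≤ 2 / c * ‖v‖ := by
    rw [div_mul_eq_mul_div, le_div_iff₀ hc]
    linarith
  have hQe : fQ (z, ![1, w, v]) = thb aa z ^ 2 * v - thb (aa ^ (-6 : ℤ)) z * w ^ 2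
      + 2 * thb (aa ^ (-2 : ℤ)) z * w - thb (aa ^ 2) z := by
    unfold fQ
    show thb aa z ^ 2 * 1 * v - thb (aa ^ (-6 : ℤ)) z * w ^ 2
      + 2 * thb (aa ^ (-2 : ℤ)) z * 1 * w - thb (aa ^ 2) z * 1 ^ 2 = _
    ring
  have hid : (w - 1) ^ 2 = v - fQ (z, ![1, w, v]) + ((thb aa z ^ 2 - 1) * v
      - (thb (aa ^ (-6 : ℤ)) z - 1) * w ^ 2 + 2 * (thb (aa ^ (-2 : ℤ)) z - 1) * w
      - (thb (aa ^ 2) z - 1)) := by
    rw [hQe]; ring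
  have hnorm : ‖w - 1‖ ^ 2 ≤ C1 * ‖v‖ := by
    rw [← norm_pow, hid]
    have s1 : ‖(thb aa z ^ 2 - 1) * v‖ ≤ L1 * ‖z - 1‖ := by
      rw [norm_mul]
      have : ‖thb aa z ^ 2 - 1‖ * ‖v‖ ≤ L1 * ‖z - 1‖ * 1 :=
        mul_le_mul b3 (by linarith) (norm_nonneg _) (by positivity)
      linarith
    have s2 : ‖(thb (aa ^ (-6 : ℤ)) z - 1) * w ^ 2‖ ≤ 4 * L2 * ‖z - 1‖ := by
      rw [norm_mul, norm_pow]
      have : ‖thb (aa ^ (-6 : ℤ)) z - 1‖ * ‖w‖ ^ 2 ≤ L2 * ‖z - 1‖ * 4 :=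
        mul_le_mul b4 (by nlinarith [norm_nonneg w]) (by positivity) (by positivity)
      linarith
    have s3 : ‖2 * (thb (aa ^ (-2 : ℤ)) z - 1) * w‖ ≤ 4 * L3 * ‖z - 1‖ := by
      rw [norm_mul, norm_mul]
      have : ‖thb (aa ^ (-2 : ℤ)) z - 1‖ * ‖w‖ ≤ L3 * ‖z - 1‖ * 2 :=
        mul_le_mul b5 hwn (norm_nonneg _) (by positivity)
      have h2 : ‖(2 : ℂ)‖ = 2 := by norm_num
      rw [h2]
      linarith
    have s4 : ‖thb (aa ^ 2) z - 1‖ ≤ L4 * ‖z - 1‖ := b6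
    have s5 : ‖v - fQ (z, ![1, w, v])‖ ≤ 3 * ‖v‖ := by
      refine (norm_sub_le _ _).trans ?_
      linarith
    have s6 : ‖(thb aa z ^ 2 - 1) * v - (thb (aa ^ (-6 : ℤ)) z - 1) * w ^ 2
        + 2 * (thb (aa ^ (-2 : ℤ)) z - 1) * w - (thb (aa ^ 2) z - 1)‖ ≤ L * ‖z - 1‖ := by
      refine (norm_sub_le _ _).trans ?_
      have := norm_add_le ((thb aa z ^ 2 - 1) * v - (thb (aa ^ (-6 : ℤ)) z - 1) * w ^ 2)
        (2 * (thb (aa ^ (-2 : ℤ)) z - 1) * w)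
      have h7 := norm_sub_le ((thb aa z ^ 2 - 1) * v) ((thb (aa ^ (-6 : ℤ)) z - 1) * w ^ 2)
      rw [hL]
      nlinarith
    refine (norm_add_le _ _).trans ?_
    have s7 : L * ‖z - 1‖ ≤ L * (2 / c * ‖v‖) := mul_le_mul_of_nonneg_left hz1 hLpos.le
    rw [hC1]
    nlinarith
  have hsg : sg (z, ![1, w, v]) = Real.log (‖w‖ ^ 2) := by
    unfold sg
    show Real.log (‖w‖ ^ 2) - Real.log (‖(1 : ℂ)‖ ^ 2) = _
    simp
  rw [hsg]
  refine (eb_log_norm_bound (hw'.trans (by norm_num))).trans ?_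
  have hroot : ‖w - 1‖ ≤ (C1 * ‖v‖) ^ (1 / 2 : ℝ) := by
    rw [← Real.sqrt_eq_rpow]
    exact Real.le_sqrt_of_sq_le hnorm
  rw [Real.mul_rpow hC1pos.le (norm_nonneg _)] at hroot
  linarith

/-- the algebra behind the comparison of `κ₁` and `κ₂` -/
theorem eb_kk_algebra {A N P s : ℝ} (hA : 0 < A) (hN : 0 < N) (hP : 0 < P) (hs : 0 < s) :
    (A * (s * A ^ 2 * N) * P⁻¹) ^ (1 / 16 : ℝ) =
      (N * (s * A ^ 2 * N) * P⁻¹) ^ (3 / 32 : ℝ) * (P / (s * N ^ 4)) ^ (1 / 32 : ℝ) := by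
  have hY : 0 < A * (s * A ^ 2 * N) * P⁻¹ := by positivity
  have hX : 0 < N * (s * A ^ 2 * N) * P⁻¹ := by positivity
  have g1 : ∀ Y : ℝ, 0 < Y → Y ^ (1 / 16 : ℝ) = (Y ^ 2) ^ (1 / 32 : ℝ) := by
    intro Y h
    rw [← Real.rpow_natCast Y, ← Real.rpow_mul h.le]
    norm_num
  have g2 : ∀ Y : ℝ, 0 < Y → Y ^ (3 / 32 : ℝ) = (Y ^ 3) ^ (1 / 32 : ℝ) := by
    intro Y h
    rw [← Real.rpow_natCast Y, ← Real.rpow_mul h.le]
    norm_num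
  rw [g1 _ hY, g2 _ hX, ← Real.mul_rpow (by positivity) (by positivity)]
  congr 1
  field_simp

/-- lower bound for `κ₁` -/
theorem eb_k1_lower : ∃ ε > 0, ∃ c > 0, ∀ s, 1 / 32 ≤ s → ∀ z w v : ℂ, ‖z - 1‖ < ε →
    ‖w - 1‖ < ε → ‖v‖ < ε → v ≠ 0 →
    c * ‖v‖ ^ (3 / 8 : ℝ) ≤ (nN (z, ![1, w, v]) * (s * a2 (z, ![1, w, v]) ^ 2 *
      nN (z, ![1, w, v])) * (nP (z, ![1, w, v]))⁻¹) ^ (3 / 32 : ℝ) := by
  obtain ⟨ε1, hε1, -, h1⟩ := loc_values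
  have e1 := eb_emb_ev (f := fun _ => (1 / 2 : ℝ)) (g := fun p => Real.exp (4 * qq p.1))
    continuousAt_const ((continuousAt_const.mul ((qq_fst_smooth eb_emb0_fst).continuousAt)).rexp) (by
      have : qq (eb_emb (1, 1, 0)).1 = 0 := by
        show qq 1 = 0
        simp [qq]
      rw [this]
      norm_num)
  have e2 := eb_emb_ev (f := nN) (g := fun _ => (3 : ℝ)) (eb_nN_contAt eb_emb0_fst)
    continuousAt_const (by rw [eb_emb0_nN]; norm_num)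
  obtain ⟨ε2, hε2, h2⟩ := eb_loc_ev (Q := fun z w v => 1 / 2 < Real.exp (4 * qq z) ∧
    nN (z, ![1, w, v]) < 3) (by
    filter_upwards [e1, e2] with x a b
    exact ⟨a, b⟩)
  refine ⟨min ε1 ε2, by positivity, (1 / 64) ^ (3 / 32 : ℝ) * (1 / 32) ^ (3 / 32 : ℝ),
    by positivity, ?_⟩
  intro s hs z w v hz hw hv hv0
  obtain ⟨_, c2, _, c4, c5, _⟩ := h1 z w v (hz.trans_le (min_le_left _ _))
    (hw.trans_le (min_le_left _ _)) (hv.trans_le (min_le_left _ _))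
  obtain ⟨d1, d2⟩ := h2 z w v (hz.trans_le (min_le_right _ _))
    (hw.trans_le (min_le_right _ _)) (hv.trans_le (min_le_right _ _))
  have hP : 0 < nP (z, ![1, w, v]) := by
    unfold nP
    exact pow_pos (norm_pos_iff.2 c2) 2
  have hN1 : 1 ≤ nN (z, ![1, w, v]) := by
    have : nN (z, ![1, w, v]) = ‖(1 : ℂ)‖ ^ 2 + ‖w‖ ^ 2 + a2 (z, ![1, w, v]) := rfl
    rw [this, norm_one]
    have : 0 ≤ a2 (z, ![1, w, v]) := by unfold a2; positivity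
    nlinarith [sq_nonneg ‖w‖]
  set N := nN (z, ![1, w, v]) with hN
  set P := nP (z, ![1, w, v]) with hPd
  have hv1 : 0 < ‖v‖ := norm_pos_iff.2 hv0
  have hA2 : ‖v‖ ^ 4 * (1 / 2) ≤ a2 (z, ![1, w, v]) ^ 2 := by
    have : a2 (z, ![1, w, v]) ^ 2 = ‖v‖ ^ 4 * Real.exp (4 * qq z) := by
      unfold a2
      show (‖v‖ ^ 2 * Real.exp (2 * qq z)) ^ 2 = _
      rw [mul_pow, ← Real.exp_nat_mul, ← pow_mul]
      congr 2
      push_cast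
      ring
    rw [this]
    exact mul_le_mul_of_nonneg_left d1.le (by positivity)
  have hNP : 1 / 32 ≤ N ^ 2 * P⁻¹ * (1 / 1) := by
    rw [div_one, mul_one, ← div_eq_mul_inv, le_div_iff₀ hP]
    have : P ≤ N ^ 4 / 15 := by linarith
    have h9 : N ^ 2 < 9 := by nlinarith
    have h10 : N ^ 4 = N ^ 2 * N ^ 2 := by ring
    have h11 : 0 < N ^ 2 := by positivity
    nlinarith
  have key : (1 / 64) * (1 / 32) * ‖v‖ ^ 4 ≤
      N * (s * a2 (z, ![1, w, v]) ^ 2 * N) * P⁻¹ := by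
    have e3 : N * (s * a2 (z, ![1, w, v]) ^ 2 * N) * P⁻¹ =
        (s * a2 (z, ![1, w, v]) ^ 2) * (N ^ 2 * P⁻¹) := by ring
    rw [e3]
    have hs' : 0 < s := by linarith
    have h12 : 1 / 32 * (‖v‖ ^ 4 * (1 / 2)) ≤ s * a2 (z, ![1, w, v]) ^ 2 :=
      mul_le_mul hs hA2 (by positivity) hs'.le
    have h13 : 1 / 32 ≤ N ^ 2 * P⁻¹ := by linarith
    have h14 : 0 < ‖v‖ ^ 4 := by positivity
    have h15 : (1 / 32 * (‖v‖ ^ 4 * (1 / 2))) * (1 / 32) ≤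
        (s * a2 (z, ![1, w, v]) ^ 2) * (N ^ 2 * P⁻¹) :=
      mul_le_mul h12 h13 (by norm_num) (by positivity)
    linarith
  have h16 := Real.rpow_le_rpow (by positivity) key (show (0 : ℝ) ≤ 3 / 32 by norm_num)
  refine le_trans (le_of_eq ?_) h16
  rw [Real.mul_rpow (by positivity) (by positivity), Real.mul_rpow (by positivity) (by positivity)]
  congr 1
  rw [← Real.rpow_natCast, ← Real.rpow_mul (norm_nonneg _)]
  norm_num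

theorem eb_nJ_eq {z w v : ℂ} {s : ℝ} (h : nJp (z, ![1, w, v]) = s * nB (z, ![1, w, v])) :
    nJ (z, ![1, w, v]) = s * a2 (z, ![1, w, v]) ^ 2 * nN (z, ![1, w, v]) := by
  unfold nJ
  rw [h]
  unfold nB a2
  show ‖v‖ ^ 2 * (s * (‖v‖ ^ 2 * Real.exp (4 * qq z) * nN (z, ![1, w, v]))) =
    s * (‖v‖ ^ 2 * Real.exp (2 * qq z)) ^ 2 * nN (z, ![1, w, v])
  have : Real.exp (4 * qq z) = Real.exp (2 * qq z) ^ 2 := by
    rw [← Real.exp_nat_mul]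
    congr 1
    push_cast
    ring
  rw [this]
  ring

/-- common part of the two comparisons -/
theorem eb_loc_cmp : ∀ κ > 0, ∃ ε > 0, ∀ s, 1 / 32 ≤ s → s ≤ 1 → ∀ z w v : ℂ, ‖z - 1‖ < ε →
    ‖w - 1‖ < ε → ‖v‖ < ε → v ≠ 0 → nJp (z, ![1, w, v]) = s * nB (z, ![1, w, v]) →
    0 < nP (z, ![1, w, v]) ∧ 0 < nN (z, ![1, w, v]) ∧
    nN (z, ![1, w, v]) ^ 4 ≤ 17 * nP (z, ![1, w, v]) ∧
    15 * nP (z, ![1, w, v]) ≤ nN (z, ![1, w, v]) ^ 4 ∧ 0 < k1 (z, ![1, w, v]) ∧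
    k2 (z, ![1, w, v]) = k1 (z, ![1, w, v]) *
      (nP (z, ![1, w, v]) / (s * nN (z, ![1, w, v]) ^ 4)) ^ (1 / 32 : ℝ) ∧
    |sg (z, ![1, w, v])| / 12 < κ * k1 (z, ![1, w, v]) := by
  intro κ hκ
  obtain ⟨ε1, hε1, -, h1⟩ := loc_values
  obtain ⟨ε2, hε2, C, hC, h2⟩ := loc_sigma
  obtain ⟨ε3, hε3, c, hc, h3⟩ := eb_k1_lower
  set r : ℝ := κ * c / C with hr
  have hrpos : 0 < r := by positivity
  refine ⟨min (min ε1 ε2) (min ε3 (r ^ 8)), by positivity, ?_⟩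
  intro s hs hs1 z w v hz hw hv hv0 hJ
  have a1 : min (min ε1 ε2) (min ε3 (r ^ 8)) ≤ ε1 := (min_le_left _ _).trans (min_le_left _ _)
  have a2' : min (min ε1 ε2) (min ε3 (r ^ 8)) ≤ ε2 := (min_le_left _ _).trans (min_le_right _ _)
  have a3 : min (min ε1 ε2) (min ε3 (r ^ 8)) ≤ ε3 := (min_le_right _ _).trans (min_le_left _ _)
  have a4 : min (min ε1 ε2) (min ε3 (r ^ 8)) ≤ r ^ 8 := (min_le_right _ _).trans (min_le_right _ _)
  obtain ⟨_, c2, _, c4, c5, _⟩ := h1 z w v (hz.trans_le a1) (hw.trans_le a1) (hv.trans_le a1)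
  have hs' : 0 < s := by linarith
  have hP : 0 < nP (z, ![1, w, v]) := by
    unfold nP
    exact pow_pos (norm_pos_iff.2 c2) 2
  have hN1 : 1 ≤ nN (z, ![1, w, v]) := by
    have : nN (z, ![1, w, v]) = ‖(1 : ℂ)‖ ^ 2 + ‖w‖ ^ 2 + a2 (z, ![1, w, v]) := rfl
    rw [this, norm_one]
    have : 0 ≤ a2 (z, ![1, w, v]) := by unfold a2; positivity
    nlinarith [sq_nonneg ‖w‖]
  have hN : 0 < nN (z, ![1, w, v]) := by linarith
  have hv1 : 0 < ‖v‖ := norm_pos_iff.2 hv0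
  have hA : 0 < a2 (z, ![1, w, v]) := by
    unfold a2
    show 0 < ‖v‖ ^ 2 * Real.exp (2 * qq z)
    positivity
  have hJ' := eb_nJ_eq hJ
  have hB0 : 0 ≤ nB (z, ![1, w, v]) := by
    unfold nB
    positivity
  have hsg := h2 z w v (hz.trans_le a2') (hw.trans_le a2') (hv.trans_le a2') (by
    rw [hJ]
    nlinarith)
  have hk1 : k1 (z, ![1, w, v]) = (nN (z, ![1, w, v]) * (s * a2 (z, ![1, w, v]) ^ 2 *
      nN (z, ![1, w, v])) * (nP (z, ![1, w, v]))⁻¹) ^ (3 / 32 : ℝ) := by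
    unfold k1
    rw [hJ']
  have hk2 : k2 (z, ![1, w, v]) = (a2 (z, ![1, w, v]) * (s * a2 (z, ![1, w, v]) ^ 2 *
      nN (z, ![1, w, v])) * (nP (z, ![1, w, v]))⁻¹) ^ (1 / 16 : ℝ) := by
    unfold k2
    rw [hJ']
  have hlow := h3 s hs z w v (hz.trans_le a3) (hw.trans_le a3) (hv.trans_le a3) hv0
  rw [← hk1] at hlow
  refine ⟨hP, hN, c4, c5, ?_, ?_, ?_⟩
  · rw [hk1]
    positivity
  · rw [hk2, hk1]
    exact eb_kk_algebra hA hN hP hs'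
  · -- `‖v‖ ^ (1/2) = ‖v‖ ^ (3/8) * ‖v‖ ^ (1/8)`
    have e1 : ‖v‖ ^ (1 / 2 : ℝ) = ‖v‖ ^ (3 / 8 : ℝ) * ‖v‖ ^ (1 / 8 : ℝ) := by
      rw [← Real.rpow_add hv1]
      norm_num
    have e2 : ‖v‖ ^ (1 / 8 : ℝ) < r := by
      have : ‖v‖ < r ^ 8 := hv.trans_le a4
      have h5 := Real.rpow_lt_rpow hv1.le this (show (0 : ℝ) < 1 / 8 by norm_num)
      have h6 : (r ^ 8) ^ (1 / 8 : ℝ) = r := by
        rw [← Real.rpow_natCast, ← Real.rpow_mul hrpos.le]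
        norm_num
      rw [h6] at h5
      exact h5
    have h7 : 0 < ‖v‖ ^ (3 / 8 : ℝ) := by positivity
    have h8 : |sg (z, ![1, w, v])| < C * (‖v‖ ^ (3 / 8 : ℝ) * r) := by
      refine hsg.trans_lt ?_
      rw [e1]
      exact mul_lt_mul_of_pos_left (mul_lt_mul_of_pos_left e2 h7) hC
    have h9 : C * (‖v‖ ^ (3 / 8 : ℝ) * r) = κ * (c * ‖v‖ ^ (3 / 8 : ℝ)) := by
      rw [hr]
      field_simp
    rw [h9] at h8
    have h10 : κ * (c * ‖v‖ ^ (3 / 8 : ℝ)) ≤ κ * k1 (z, ![1, w, v]) :=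
      mul_le_mul_of_nonneg_left hlow hκ.le
    have h11 := abs_nonneg (sg (z, ![1, w, v]))
    linarith

theorem loc_t3 : ∃ ε > 0, ∀ z w v : ℂ, ‖z - 1‖ < ε → ‖w - 1‖ < ε → ‖v‖ < ε → v ≠ 0 →
    nJp (z, ![1, w, v]) = nB (z, ![1, w, v]) / 32 →
    k1 (z, ![1, w, v]) + |sg (z, ![1, w, v])| / 12 < k2 (z, ![1, w, v]) := by
  have hρ : 1 < (32 / 17 : ℝ) ^ (1 / 32 : ℝ) :=
    Real.one_lt_rpow (by norm_num) (by norm_num)
  obtain ⟨ε, hε, h⟩ := eb_loc_cmp ((32 / 17 : ℝ) ^ (1 / 32 : ℝ) - 1) (by linarith)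
  refine ⟨ε, hε, fun z w v hz hw hv hv0 hJ => ?_⟩
  obtain ⟨hP, hN, h17, h15, hk, hk2, hs⟩ := h (1 / 32) le_rfl (by norm_num) z w v hz hw hv hv0
    (by rw [hJ]; ring)
  have h1 : (32 / 17 : ℝ) ≤ nP (z, ![1, w, v]) / (1 / 32 * nN (z, ![1, w, v]) ^ 4) := by
    rw [le_div_iff₀ (by positivity)]
    linarith
  have h2 := Real.rpow_le_rpow (by norm_num) h1 (show (0 : ℝ) ≤ 1 / 32 by norm_num)
  rw [hk2]
  have h3 := mul_le_mul_of_nonneg_left h2 hk.le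
  nlinarith

theorem loc_t4 : ∃ ε > 0, ∀ z w v : ℂ, ‖z - 1‖ < ε → ‖w - 1‖ < ε → ‖v‖ < ε → v ≠ 0 →
    nJp (z, ![1, w, v]) = nB (z, ![1, w, v]) →
    k2 (z, ![1, w, v]) + |sg (z, ![1, w, v])| / 12 < k1 (z, ![1, w, v]) := by
  have hρ : (1 / 15 : ℝ) ^ (1 / 32 : ℝ) < 1 :=
    Real.rpow_lt_one (by norm_num) (by norm_num) (by norm_num)
  obtain ⟨ε, hε, h⟩ := eb_loc_cmp (1 - (1 / 15 : ℝ) ^ (1 / 32 : ℝ)) (by linarith)
  refine ⟨ε, hε, fun z w v hz hw hv hv0 hJ => ?_⟩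
  obtain ⟨hP, hN, h17, h15, hk, hk2, hs⟩ := h 1 (by norm_num) le_rfl z w v hz hw hv hv0
    (by rw [hJ]; ring)
  have h1 : nP (z, ![1, w, v]) / (1 * nN (z, ![1, w, v]) ^ 4) ≤ 1 / 15 := by
    rw [div_le_iff₀ (by positivity)]
    linarith
  have h2 := Real.rpow_le_rpow (by positivity) h1 (show (0 : ℝ) ≤ 1 / 32 by norm_num)
  rw [hk2]
  have h3 := mul_le_mul_of_nonneg_left h2 hk.le
  nlinarith

end RG
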