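import Pool.Agent.H14.RG.EstB

/-!
# Module G3: existence of the constants
-/

open scoped Topology ContDiff
open Set Metric

namespace RG

/-! ### transfer from the local model -/

theorem ec_eta_ne : eta ≠ 0 := by
  intro h
  have := norm_eta
  rw [h, norm_zero] at this
  exact zero_ne_one this

/-- the relations between `p = sc t (gG n q)` and `q` -/
theorem ec_transfer {n : ℤ} {t : ℂ} (ht : t ≠ 0) {q : V4} (hq : q.1 ≠ 0)
    (h0 : q.2 0 ≠ 0) (h1 : q.2 1 ≠ 0) :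
    (sc t (gG n q)).2 0 ≠ 0 ∧ (sc t (gG n q)).2 1 ≠ 0 ∧
    (fP q ≠ 0 → fP (sc t (gG n q)) ≠ 0) ∧
    sg (sc t (gG n q)) = sg q ∧ k1 (sc t (gG n q)) = k1 q ∧ k2 (sc t (gG n q)) = k2 q ∧
    nN (sc t (gG n q)) = ‖t‖ ^ 2 * nN q ∧ nE (sc t (gG n q)) = ‖t‖ ^ 2 * nE q ∧
    nP (sc t (gG n q)) = ‖t‖ ^ 8 * nP q ∧
    (∃ c > 0, nJp (sc t (gG n q)) * c = nJp q ∧ nB (sc t (gG n q)) * c = nB q) ∧
    ((sc t (gG n q)).2 2 ≠ 0 → q.2 2 ≠ 0) := by
  have e0 : (gG n q).2 0 = q.2 0 := rfl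
  have e1 : (gG n q).2 1 = eta ^ n * q.2 1 := rfl
  have e2 : (gG n q).2 2 = cc n q.1 * q.2 2 := rfl
  have hc := cc_ne (n := n) hq
  have ht0 : 0 < ‖t‖ := norm_pos_iff.2 ht
  have hc0 : 0 < ‖cc n q.1‖ := norm_pos_iff.2 hc
  have he : eta ^ n * q.2 1 ≠ 0 := mul_ne_zero (zpow_ne_zero n ec_eta_ne) h1
  refine ⟨?_, ?_, ?_, ?_, ?_, ?_, ?_, ?_, ?_, ?_, ?_⟩
  · change t * (gG n q).2 0 ≠ 0
    rw [e0]
    exact mul_ne_zero ht h0
  · change t * (gG n q).2 1 ≠ 0
    rw [e1]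
    exact mul_ne_zero ht he
  · intro h
    rw [fP_sc, fP_gG n hq]
    exact mul_ne_zero (pow_ne_zero 4 ht) (mul_ne_zero (zpow_ne_zero n ec_eta_ne) h)
  · rw [sg_sc ht (by rw [e0]; exact h0) (by rw [e1]; exact he), sg_gG]
  · rw [k1_sc ht, k1_gG n hq]
  · rw [k2_sc ht, k2_gG n hq]
  · rw [nN_sc, nN_gG n hq]
  · rw [nE_sc, nE_gG]
  · rw [nP_sc, nP_gG n hq]
  · refine ⟨(‖t‖ ^ 4)⁻¹ * ‖cc n q.1‖ ^ 2, by positivity, ?_, ?_⟩
    · rw [nJp_sc, ← nJp_gG n hq]
      field_simp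
    · rw [nB_sc, ← nB_gG n hq]
      field_simp
  · intro h h2
    apply h
    change t * (gG n q).2 2 = 0
    rw [e2, h2, mul_zero, mul_zero]

theorem exists_tubeGood : ∃ d : ℝ, TubeGood d := by
  obtain ⟨ε1, hε1, hε14, hv⟩ := loc_values
  obtain ⟨ε3, hε3, h3⟩ := loc_t3
  obtain ⟨ε4, hε4, h4⟩ := loc_t4
  set ε : ℝ := min ε1 (min ε3 ε4) with hε
  have hε0 : 0 < ε := lt_min hε1 (lt_min hε3 hε4)
  have hle1 : ε ≤ ε1 := min_le_left _ _
  have hle3 : ε ≤ ε3 := (min_le_right _ _).trans (min_le_left _ _)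
  have hle4 : ε ≤ ε4 := (min_le_right _ _).trans (min_le_right _ _)
  obtain ⟨d1, hd1, hn⟩ := near_p hε0
  obtain ⟨d2, hd2, hb⟩ := tube_band
  set d : ℝ := min d1 (min d2 (1 / 2)) with hd
  have hd0 : 0 < d := lt_min hd1 (lt_min hd2 (by norm_num))
  have hdle1 : d ≤ d1 := min_le_left _ _
  have hdle2 : d ≤ d2 := (min_le_right _ _).trans (min_le_left _ _)
  have hdle3 : d ≤ 1 / 2 := (min_le_right _ _).trans (min_le_right _ _)
  have hz0 : ∀ z : ℂ, ‖z - 1‖ < ε → z ≠ 0 := by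
    rintro z hz rfl
    rw [zero_sub, norm_neg, norm_one] at hz
    linarith
  refine ⟨d, hd0, by linarith, ?_, ?_, ?_, ?_⟩
  · intro p hp h hband
    exact hb d hd0 hdle2 p hp h hband
  · intro p hp h hJ
    obtain ⟨n, t, ht, z, w, v, hz, hw, hv', rfl⟩ := hn d hd0 hdle1 p hp h hJ
    obtain ⟨w0, fP0, sg0, n17, n15, hlog⟩ :=
      hv z w v (hz.trans_le hle1) (hw.trans_le hle1) (hv'.trans_le hle1)
    obtain ⟨r0, r1, r2, r3, -, -, r6, r7, r8, -, -⟩ :=
      ec_transfer (n := n) ht (q := (z, ![1, w, v])) (hz0 z hz) one_ne_zero w0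
    have ht0 : 0 < ‖t‖ := norm_pos_iff.2 ht
    have hP0 : 0 < nP (z, ![1, w, v]) := by
      unfold nP
      have := norm_pos_iff.2 fP0
      positivity
    have hE0 : 0 < nE (z, ![1, w, v]) := by
      unfold nE
      have : ‖((z, ![1, w, v]) : V4).2 0‖ = 1 := by simp
      rw [this]
      positivity
    refine ⟨r0, r1, r2 fP0, by rw [r3]; exact sg0, ?_, ?_, ?_⟩
    · rw [r6, r8]
      have := mul_le_mul_of_nonneg_left n17 (by positivity : 0 ≤ ‖t‖ ^ 8)
      nlinarith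
    · rw [r6, r8]
      have := mul_le_mul_of_nonneg_left n15 (by positivity : 0 ≤ ‖t‖ ^ 8)
      nlinarith
    · rw [r7, r8, Real.log_mul (by positivity) hE0.ne', Real.log_mul (by positivity) hP0.ne',
        Real.log_pow, Real.log_pow]
      push_cast
      linarith
  · intro p hp h h2 hJ
    have hJ' : nJp p ≤ nB p := by
      rw [hJ]
      have := nB_nonneg p
      linarith
    obtain ⟨n, t, ht, z, w, v, hz, hw, hv', rfl⟩ := hn d hd0 hdle1 p hp h hJ'
    obtain ⟨w0, -⟩ := hv z w v (hz.trans_le hle1) (hw.trans_le hle1) (hv'.trans_le hle1)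
    obtain ⟨-, -, -, r3, r4, r5, -, -, -, ⟨c, hc, c1, c2⟩, r10⟩ :=
      ec_transfer (n := n) ht (q := (z, ![1, w, v])) (hz0 z hz) one_ne_zero w0
    have hv0 : v ≠ 0 := r10 h2
    rw [r3, r4, r5]
    refine h3 z w v (hz.trans_le hle3) (hw.trans_le hle3) (hv'.trans_le hle3) hv0 ?_
    rw [← c1, ← c2, hJ]
    ring
  · intro p hp h h2 hJ
    obtain ⟨n, t, ht, z, w, v, hz, hw, hv', rfl⟩ := hn d hd0 hdle1 p hp h hJ.le
    obtain ⟨w0, -⟩ := hv z w v (hz.trans_le hle1) (hw.trans_le hle1) (hv'.trans_le hle1)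
    obtain ⟨-, -, -, r3, r4, r5, -, -, -, ⟨c, hc, c1, c2⟩, r10⟩ :=
      ec_transfer (n := n) ht (q := (z, ![1, w, v])) (hz0 z hz) one_ne_zero w0
    have hv0 : v ≠ 0 := r10 h2
    rw [r3, r4, r5]
    refine h4 z w v (hz.trans_le hle4) (hw.trans_le hle4) (hv'.trans_le hle4) hv0 ?_
    rw [← c1, ← c2, hJ]

/-- the blown-up points are outside the closed tube -/
theorem Zh_tube {d : ℝ} (hd : TubeGood d) {p : V4} (hp : p ∈ Zh) : d * nE p < a2 p := by
  by_contra h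
  have h' : a2 p ≤ d * nE p := not_lt.1 h
  obtain ⟨hM, h1, h2, -⟩ := hp
  have h3 := hd.t2 p hM h' (by rw [h2]; exact nB_nonneg p)
  exact h3.2.2.1 h1

/-- outside the closed tube and off `Zh`, `‖P‖ ^ 2 + N J > 0`; in the tube it can vanish only
where `x2 = 0` -/
theorem sum_pos {p : V4} (hp : p ∈ Mh) (hZ : p ∉ Zh) (h2 : p.2 2 ≠ 0) :
    0 < nP p + nN p * nJ p := by
  have hN := nN_pos hp
  have hP : 0 ≤ nP p := by unfold nP; positivity
  have hx : 0 < ‖p.2 2‖ := norm_pos_iff.2 h2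
  have hJp := nJp_nonneg p
  rcases hJp.eq_or_lt with h | h
  · have h1 : fP p ≠ 0 := fun h1 => hZ ⟨hp, h1, h.symm, h2⟩
    have h3 : 0 < nP p := by
      unfold nP
      have := norm_pos_iff.2 h1
      positivity
    have h4 : 0 ≤ nN p * nJ p := by
      unfold nJ
      positivity
    linarith
  · have h4 : 0 < nN p * nJ p := by
      unfold nJ
      positivity
    linarith

/-! ### compactness -/

/-- normalised points -/
def ecK : Set V4 := {p | 1 / 4 ≤ ‖p.1‖ ∧ ‖p.1‖ ≤ 1 ∧ ∑ i, ‖p.2 i‖ ^ 2 = 1}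

theorem ecK_closed : IsClosed ecK := by
  have h1 : IsClosed {p : V4 | 1 / 4 ≤ ‖p.1‖} := isClosed_le continuous_const (by fun_prop)
  have h2 : IsClosed {p : V4 | ‖p.1‖ ≤ 1} := isClosed_le (by fun_prop) continuous_const
  have h3 : IsClosed {p : V4 | ∑ i, ‖p.2 i‖ ^ 2 = 1} :=
    isClosed_eq (by fun_prop) continuous_const
  exact h1.inter (h2.inter h3)

theorem ecK_compact : IsCompact ecK := by
  refine IsCompact.of_isClosed_subset (isCompact_closedBall (0 : V4) 1) ecK_closed ?_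
  rintro p ⟨-, h2, h3⟩
  rw [mem_closedBall, dist_zero_right, Prod.norm_def]
  refine max_le h2 ?_
  rw [pi_norm_le_iff_of_nonneg zero_le_one]
  intro i
  have h4 : ‖p.2 i‖ ^ 2 ≤ 1 := by
    rw [← h3]
    exact Finset.single_le_sum (f := fun i => ‖p.2 i‖ ^ 2) (fun j _ => by positivity)
      (Finset.mem_univ i)
  exact (sq_le_one_iff₀ (norm_nonneg _)).1 h4

theorem ecK_sub : ecK ⊆ Mh := by
  rintro p ⟨h1, -, h3⟩
  refine ⟨?_, ?_⟩
  · intro h
    rw [h, norm_zero] at h1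
    linarith
  · intro h
    rw [h] at h3
    simp at h3

theorem ec_min {S : Set V4} (hS : IsCompact S) {F : V4 → ℝ} (hF : ContinuousOn F S)
    (h0 : ∀ p ∈ S, 0 < F p) : ∃ c > 0, ∀ p ∈ S, c ≤ F p := by
  rcases S.eq_empty_or_nonempty with h | h
  · exact ⟨1, one_pos, fun p hp => by simp [h] at hp⟩
  · obtain ⟨x, hx, hmin⟩ := hS.exists_isMinOn h hF
    exact ⟨F x, h0 x hx, fun p hp => hmin hp⟩

theorem exists_AGood {d : ℝ} (hd : TubeGood d) : ∃ A : ℝ, AGood d A := by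
  have hca2 : ContinuousOn a2 ecK := fun p hp =>
    (a2_smooth (ecK_sub hp).1).continuousAt.continuousWithinAt
  have hcE : ContinuousOn nE ecK := fun p hp => (nE_smooth p).continuousAt.continuousWithinAt
  have hcS : ContinuousOn (fun p => nP p + nN p * nJ p) ecK := fun p hp =>
    ((nP_smooth (ecK_sub hp).1).continuousAt.add ((nN_smooth (ecK_sub hp).1).continuousAt.mul
      (nJ_smooth (ecK_sub hp).1).continuousAt)).continuousWithinAt
  have hd0 := hd.pos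
  -- the set where the bound is wanted
  set S1 : Set V4 := {p ∈ ecK | a2 p ≤ d * nE p} with hS1
  have hS1c : IsClosed S1 := ecK_closed.isClosed_le hca2 (continuousOn_const.mul hcE)
  set S2 : Set V4 := {p ∈ S1 | d / 2 * nE p ≤ a2 p} with hS2
  have hsub1 : S1 ⊆ ecK := fun p hp => hp.1
  have hS2c : IsClosed S2 :=
    hS1c.isClosed_le ((continuousOn_const.mul hcE).mono hsub1) (hca2.mono hsub1)
  set S3 : Set V4 := {p ∈ S1 | band1 p} with hS3
  have hbc : IsClosed {p : V4 | band1 p} := by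
    have h1 : IsClosed {p : V4 | ‖p.2 1‖ ^ 2 ≤ Real.exp 1 * ‖p.2 0‖ ^ 2} :=
      isClosed_le (by fun_prop) (by fun_prop)
    have h2 : IsClosed {p : V4 | ‖p.2 0‖ ^ 2 ≤ Real.exp 1 * ‖p.2 1‖ ^ 2} :=
      isClosed_le (by fun_prop) (by fun_prop)
    exact h1.inter h2
  have hS3c : IsClosed S3 := hS1c.inter hbc
  have hK2 : IsCompact S2 :=
    ecK_compact.of_isClosed_subset hS2c fun p hp => hsub1 hp.1
  have hK3 : IsCompact S3 :=
    ecK_compact.of_isClosed_subset hS3c fun p hp => hsub1 hp.1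
  obtain ⟨c2, hc2, hb2⟩ := ec_min hK2 (hcS.mono fun p hp => hsub1 hp.1) (by
    intro p hp
    have hM : p ∈ Mh := ecK_sub (hsub1 hp.1)
    have hE : 0 < nE p := nE_pos hM hp.1.2
    have ha : 0 < a2 p := lt_of_lt_of_le (by positivity) hp.2
    have hx : p.2 2 ≠ 0 := by
      intro h
      unfold a2 at ha
      rw [h] at ha
      simp at ha
    exact sum_pos hM (fun hZ => absurd (Zh_tube hd hZ) (not_lt.2 hp.1.2)) hx)
  obtain ⟨c3, hc3, hb3⟩ := ec_min hK3 (hcS.mono fun p hp => hsub1 hp.1) (by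
    intro p hp
    have hM : p ∈ Mh := ecK_sub (hsub1 hp.1)
    have h16 : Real.exp 1 ≤ Real.exp 6 := Real.exp_le_exp.2 (by norm_num)
    have hband : band p := by
      refine ⟨hp.2.1.trans ?_, hp.2.2.trans ?_⟩
      · exact mul_le_mul_of_nonneg_right h16 (by positivity)
      · exact mul_le_mul_of_nonneg_right h16 (by positivity)
    have h1 := (hd.t1 p hM hp.1.2 hband).2.2.1
    have h2 : 0 < nP p := by
      unfold nP
      have := norm_pos_iff.2 h1
      positivity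
    have h3 : 0 ≤ nN p * nJ p := by
      have := nN_pos hM
      have := nJp_nonneg p
      unfold nJ
      positivity
    linarith)
  set c : ℝ := min c2 c3 with hc
  have hc0 : 0 < c := lt_min hc2 hc3
  set A : ℝ := max 1 (2 - Real.log c / 4) with hA
  have hA1 : 1 ≤ A := le_max_left _ _
  have hA2 : 2 - Real.log c / 4 ≤ A := le_max_right _ _
  have hexp : Real.exp (8 - 4 * A) ≤ c := by
    calc Real.exp (8 - 4 * A) ≤ Real.exp (Real.log c) := Real.exp_le_exp.2 (by linarith)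
      _ = c := Real.exp_log hc0
  refine ⟨A, by linarith, ?_⟩
  intro p hp h h'
  obtain ⟨n, t, ht, q1, q2, q3⟩ := exists_normal hp
  have hp1 : p.1 ≠ 0 := hp.1
  have ht0 : 0 < ‖t‖ := norm_pos_iff.2 ht
  have hqK : sc t (gG n p) ∈ ecK := ⟨q1, q2, q3⟩
  have ea : a2 (sc t (gG n p)) = ‖t‖ ^ 2 * a2 p := by rw [a2_sc, a2_gG n hp1]
  have eE : nE (sc t (gG n p)) = ‖t‖ ^ 2 * nE p := by rw [nE_sc, nE_gG]
  have eS : nP (sc t (gG n p)) + nN (sc t (gG n p)) * nJ (sc t (gG n p)) =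
      ‖t‖ ^ 8 * (nP p + nN p * nJ p) := by
    rw [nP_sc, nN_sc, nJ_sc, nP_gG n hp1, nN_gG n hp1, nJ_gG n hp1]
    ring
  have hq1 : sc t (gG n p) ∈ S1 := by
    refine ⟨hqK, ?_⟩
    rw [ea, eE]
    have := mul_le_mul_of_nonneg_left h (by positivity : 0 ≤ ‖t‖ ^ 2)
    linarith
  have hcS' : c ≤ ‖t‖ ^ 8 * (nP p + nN p * nJ p) := by
    rw [← eS]
    rcases h' with h' | h'
    · refine (min_le_left _ _).trans (hb2 _ ⟨hq1, ?_⟩)
      rw [ea, eE]
      have := mul_le_mul_of_nonneg_left h' (by positivity : 0 ≤ ‖t‖ ^ 2)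
      linarith
    · refine (min_le_right _ _).trans (hb3 _ ⟨hq1, ?_⟩)
      have e0 : ‖(sc t (gG n p)).2 0‖ ^ 2 = ‖t‖ ^ 2 * ‖p.2 0‖ ^ 2 := by
        change ‖t * p.2 0‖ ^ 2 = _
        rw [norm_mul, mul_pow]
      have e1 : ‖(sc t (gG n p)).2 1‖ ^ 2 = ‖t‖ ^ 2 * ‖p.2 1‖ ^ 2 := by
        change ‖t * (eta ^ n * p.2 1)‖ ^ 2 = _
        rw [norm_mul, norm_mul, norm_zpow, norm_eta, one_zpow, one_mul, mul_pow]
      refine ⟨?_, ?_⟩
      · rw [e0, e1]
        have := mul_le_mul_of_nonneg_left h'.1 (by positivity : 0 ≤ ‖t‖ ^ 2)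
        linarith
      · rw [e0, e1]
        have := mul_le_mul_of_nonneg_left h'.2 (by positivity : 0 ≤ ‖t‖ ^ 2)
        linarith
  have hE1 : ‖t‖ ^ 2 * nE p ≤ 1 := by
    rw [← eE]
    unfold nE
    have := q3
    rw [Fin.sum_univ_three] at this
    have h2 : 0 ≤ ‖(sc t (gG n p)).2 2‖ ^ 2 := by positivity
    linarith
  have hE0 : 0 ≤ ‖t‖ ^ 2 * nE p := mul_nonneg (by positivity) (nE_nonneg p)
  have hE4 : (‖t‖ ^ 2 * nE p) ^ 4 ≤ 1 := pow_le_one₀ hE0 hE1
  have h5 : ‖t‖ ^ 8 * (nE p ^ 4 * Real.exp (8 - 4 * A)) ≤ ‖t‖ ^ 8 * (nP p + nN p * nJ p) := by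
    calc ‖t‖ ^ 8 * (nE p ^ 4 * Real.exp (8 - 4 * A))
        = (‖t‖ ^ 2 * nE p) ^ 4 * Real.exp (8 - 4 * A) := by ring
      _ ≤ 1 * Real.exp (8 - 4 * A) :=
          mul_le_mul_of_nonneg_right hE4 (Real.exp_pos _).le
      _ ≤ c := by rw [one_mul]; exact hexp
      _ ≤ _ := hcS'
  exact le_of_mul_le_mul_left h5 (by positivity)

/-! ### the constants `d0`, `K` -/

/-- lower bound of `N J` from `J' ≥ c nB` -/
theorem ec_NJ {p : V4} (hp : p ∈ Mh) {c : ℝ} (h : c * nB p ≤ nJp p) :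
    c * (a2 p ^ 2 * nN p ^ 2) ≤ nN p * nJ p := by
  have hN := nN_pos hp
  have h1 : ‖p.2 2‖ ^ 2 * (c * nB p) ≤ ‖p.2 2‖ ^ 2 * nJp p :=
    mul_le_mul_of_nonneg_left h (by positivity)
  have h2 : c * (a2 p ^ 2 * nN p) ≤ nJ p := by
    unfold nJ
    rw [← nJ_of_nB p]
    linarith
  have h3 := mul_le_mul_of_nonneg_left h2 hN.le
  calc c * (a2 p ^ 2 * nN p ^ 2) = nN p * (c * (a2 p ^ 2 * nN p)) := by ring
    _ ≤ _ := h3

theorem exists_KGood {d : ℝ} (hd : TubeGood d) : ∃ d0 K : ℝ, KGood d d0 K := by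
  obtain ⟨C, hC1, hC⟩ := exists_bound'
  have hd0 := hd.pos
  have hd1 := hd.lt
  have hC0 : 0 < C := by linarith
  -- d0 = d ^ 2 / (8 C)
  set e : ℝ := d ^ 2 / (8 * C) with he
  have he0 : 0 < e := by positivity
  have he1 : e ≤ 1 := by
    rw [he, div_le_one (by positivity)]
    nlinarith
  set L2 : ℝ := Real.log (d ^ 2 * (1 + d) ^ 2 / 32) / 4 with hL2
  set L3 : ℝ := Real.log C / 4 + Real.log (1 + d) with hL3
  set L4 : ℝ := Real.log e / 4 with hL4
  set K : ℝ := max (-L2) (max (L3 + 2 - L2) (2 - L4)) with hK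
  have hK2 : -L2 ≤ K := le_max_left _ _
  have hK3 : L3 + 2 - L2 ≤ K := (le_max_left _ _).trans (le_max_right _ _)
  have hK4 : 2 - L4 ≤ K := (le_max_right _ _).trans (le_max_right _ _)
  -- common bound on the face `a2 = d nE`
  have face : ∀ p ∈ Mh, a2 p = d * nE p → nB p / 32 ≤ nJp p →
      0 < nE p ∧ Real.log (nE p) + L2 ≤ Real.log (nN p * nJ p) / 4 := by
    intro p hp h hJ
    have hE : 0 < nE p := nE_pos hp h.le
    refine ⟨hE, ?_⟩
    have h1 := ec_NJ hp (c := 1 / 32) (by linarith)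
    have h2 : nN p = (1 + d) * nE p := by
      rw [nN_eq, h]
      ring
    have h3 : 1 / 32 * (a2 p ^ 2 * nN p ^ 2) = d ^ 2 * (1 + d) ^ 2 / 32 * nE p ^ 4 := by
      rw [h2, h]
      ring
    rw [h3] at h1
    have h4 := Real.log_le_log (by positivity) h1
    rw [Real.log_mul (by positivity) (by positivity), Real.log_pow] at h4
    push_cast at h4
    rw [hL2]
    linarith
  refine ⟨e, K, he0, he1, ?_, ?_, ?_, ?_⟩
  · intro p hp h hJ
    have hN := nN_pos hp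
    have h1 := ec_NJ hp (c := 1) (by linarith)
    have ha0 := a2_nonneg p
    have hE0 := nE_nonneg p
    -- a2 ≥ d N / 2
    have h2 : d * nN p ≤ 2 * a2 p := by
      rw [nN_eq]
      nlinarith
    have h3 : (d * nN p) ^ 2 ≤ (2 * a2 p) ^ 2 :=
      pow_le_pow_left₀ (by positivity) h2 2
    have h4 := (hC p hp).2.2
    have h5 : d ^ 2 / 4 * nN p ^ 4 ≤ nN p * nJ p := by
      have h6 := mul_le_mul_of_nonneg_right h3 (by positivity : 0 ≤ nN p ^ 2)
      nlinarith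
    have h7 : e * nP p ≤ d ^ 2 / 8 * nN p ^ 4 := by
      calc e * nP p ≤ e * (C * nN p ^ 4) := mul_le_mul_of_nonneg_left h4 he0.le
        _ = d ^ 2 / 8 * nN p ^ 4 := by
          rw [he]
          field_simp
    have h8 : 0 < d ^ 2 * nN p ^ 4 := by positivity
    linarith
  · intro p hp h hJ
    obtain ⟨hE, h1⟩ := face p hp h hJ
    linarith
  · intro p hp h hJ hb
    obtain ⟨hE, h1⟩ := face p hp h hJ
    have hf := (hd.t1 p hp h.le hb).2.2.1
    have hP : 0 < nP p := by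
      unfold nP
      have := norm_pos_iff.2 hf
      positivity
    have h2 : nN p = (1 + d) * nE p := by
      rw [nN_eq, h]
      ring
    have h4 := (hC p hp).2.2
    rw [h2] at h4
    have h5 := Real.log_le_log hP h4
    rw [Real.log_mul (by positivity) (by positivity), Real.log_pow,
      Real.log_mul (by positivity) (by positivity)] at h5
    push_cast at h5
    have h6 : Real.log (nP p) / 4 ≤ L3 + Real.log (nE p) := by
      rw [hL3]
      linarith
    linarith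
  · intro p hp hf h
    have hP : 0 < nP p := by
      unfold nP
      have := norm_pos_iff.2 hf
      positivity
    have h5 := Real.log_le_log (by positivity) h
    rw [Real.log_mul (by positivity) (by positivity)] at h5
    rw [hL4] at hK4
    linarith

end RG
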