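import Pool.Agent.H14.RG.DefsL

/-!
# The final statement
-/

open scoped Manifold ContDiff Topology

namespace RG

/-- The final statement: there are a compact connected complex manifold `X` of dimension 3 with a
Kaehler form, a smooth closed semi-positive form `w` which is positive definite somewhere
(equivalently, as `w ≥ 0`, the integral of `w ^ 3` over `X` is positive: `w` is big), and a
continuous `w`-psh function `φ`, such that no sequence of `w`-psh functions of class `C ^ 1`
converges to `φ` at every point. In particular `φ` is not the decreasing limit of a sequence of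
smooth `w`-psh functions. -/
def GoalL : Prop :=
  ∃ (X : Type) (_ : TopologicalSpace X) (_ : ChartedSpace (Fin 3 → ℂ) X),
    T2Space X ∧ CompactSpace X ∧ ConnectedSpace X ∧ IsManifold 𝓘(ℂ, Fin 3 → ℂ) ω X ∧
    (∃ κ : ClosedForm (Fin 3 → ℂ) X, ∀ x, κ.PosAtL x) ∧
    ∃ w : ClosedForm (Fin 3 → ℂ) X, w.SemiposL ∧ (∃ x, w.PosAtL x) ∧
      ∃ φ : X → ℝ, Continuous φ ∧ w.Psh φ ∧
        ∀ u : ℕ → X → ℝ,
          (∀ j, ContMDiff 𝓘(ℝ, Fin 3 → ℂ) 𝓘(ℝ, ℝ) 1 (u j) ∧ w.Psh (u j)) →
          ¬ ∀ x, Filter.Tendsto (fun j => u j x) Filter.atTop (𝓝 (φ x))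

end RG
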