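import Pool.Agent.H14.RG.LevM
import Pool.Agent.H14.RG.DefsOld

/-!
# Module S2: the Levi form of the potentials of a closed form
-/

open scoped Manifold ContDiff Topology
open Set

namespace RG

namespace LF

/-- the real structure of a complex manifold -/
theorem real_manifold {E : Type} [NormedAddCommGroup E] [NormedSpace ℂ E]
    {X : Type} [TopologicalSpace X] [ChartedSpace E X] [IsManifold 𝓘(ℂ, E) ω X] :
    IsManifold 𝓘(ℝ, E) ∞ X := by
  refine isManifold_of_contDiffOn 𝓘(ℝ, E) ∞ X ?_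
  intro e e' he he'
  have h := (contDiffGroupoid ω 𝓘(ℂ, E)).compatible he he'
  rw [contDiffGroupoid, mem_groupoid_of_pregroupoid] at h
  have h1 := h.1
  simp only [contDiffPregroupoid] at h1
  exact (h1.restrict_scalars ℝ).of_le le_top

end LF

/-- a psh function read in a chart -/
theorem PshOn.chart {E : Type} [NormedAddCommGroup E] [NormedSpace ℂ E] [CompleteSpace E]
    {X : Type} [TopologicalSpace X] [ChartedSpace E X] [IsManifold 𝓘(ℂ, E) ω X]
    {f : X → ℝ} {V : Set X} (hV : IsOpen V) (h : PshOn E f V)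
    {e : OpenPartialHomeomorph X E} (he : e ∈ atlas E X) :
    PshE (fun y => f (e.symm y)) (e.target ∩ e.symm ⁻¹' V) := by
  have hW : IsOpen (e.target ∩ e.symm ⁻¹' V) := e.symm.isOpen_inter_preimage hV
  have : IsManifold 𝓘(ℂ, E) 1 X := IsManifold.of_le (n := ω) le_top
  refine ⟨?_, ?_⟩
  · exact h.1.comp (e.continuousOn_symm.mono inter_subset_left) fun y hy => hy.2
  · intro γ c R hR hγ hm
    -- a slightly larger disc
    have hO : ∃ O : Set ℂ, IsOpen O ∧ Metric.closedBall c R ⊆ O ∧ ∀ ζ ∈ O,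
        AnalyticAt ℂ γ ζ ∧ γ ζ ∈ e.target ∩ e.symm ⁻¹' V := by
      refine ⟨interior {ζ | AnalyticAt ℂ γ ζ ∧ γ ζ ∈ e.target ∩ e.symm ⁻¹' V}, isOpen_interior,
        fun ζ hζ => ?_, fun ζ hζ => (interior_subset hζ :
          ζ ∈ {ζ | AnalyticAt ℂ γ ζ ∧ γ ζ ∈ e.target ∩ e.symm ⁻¹' V})⟩
      rw [mem_interior_iff_mem_nhds]
      exact (hγ ζ hζ).eventually_analyticAt.and
        ((hγ ζ hζ).continuousAt.eventually_mem (hW.mem_nhds (hm hζ)))
    obtain ⟨O, hOo, hKO, hO⟩ := hO
    obtain ⟨δ, hδ, hδO⟩ := (isCompact_closedBall c R).exists_thickening_subset_open hOo hKO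
    have hball : Metric.ball c (R + δ) ⊆ O := by
      refine subset_trans ?_ hδO
      rw [thickening_closedBall hδ hR.le]
      rw [add_comm]
    set r : ℝ := (R + δ) / R with hr
    have hr1 : 1 < r := by
      rw [hr, lt_div_iff₀ hR]
      linarith
    have hmap : ∀ ζ ∈ Metric.ball (0 : ℂ) r, c + R * ζ ∈ O := by
      intro ζ hζ
      apply hball
      rw [Metric.mem_ball, dist_eq_norm, sub_zero] at hζ
      rw [Metric.mem_ball, dist_eq_norm, add_sub_cancel_left, norm_mul, Complex.norm_real,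
        Real.norm_eq_abs, abs_of_pos hR]
      rw [hr, lt_div_iff₀ hR] at hζ
      linarith
    have key := h.2 (fun ζ => e.symm (γ (c + R * ζ))) r hr1 ?_ ?_
    · have e1 : Real.circleAverage (fun ζ => f (e.symm (γ ζ))) c R =
          Real.circleAverage (fun ζ => f (e.symm (γ (c + R * ζ)))) 0 1 := by
        unfold Real.circleAverage
        congr 1
        refine intervalIntegral.integral_congr fun θ _ => ?_
        simp [circleMap]
      rw [e1]
      simpa using key
    · have h1 : MDifferentiableOn 𝓘(ℂ, ℂ) 𝓘(ℂ, E) (fun ζ : ℂ => γ (c + R * ζ))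
          (Metric.ball 0 r) := by
        apply DifferentiableOn.mdifferentiableOn
        intro ζ hζ
        have h2 : DifferentiableAt ℂ γ (c + R * ζ) := (hO _ (hmap ζ hζ)).1.differentiableAt
        have h3 : DifferentiableAt ℂ (fun ζ : ℂ => c + R * ζ) ζ := by fun_prop
        exact (h2.comp ζ h3).differentiableWithinAt
      exact (mdifferentiableOn_atlas_symm he).comp h1 fun ζ hζ => (hO _ (hmap ζ hζ)).2.1
    · intro ζ hζ
      exact (hO _ (hmap ζ hζ)).2.2

variable {n : ℕ} {X : Type} [TopologicalSpace X] [ChartedSpace (Fin n → ℂ) X]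
  [IsManifold 𝓘(ℂ, Fin n → ℂ) ω X]

theorem LF.smooth_chart (w : ClosedForm (Fin n → ℂ) X) (i : w.ι) {x : X} (hx : x ∈ w.U i)
    {e : OpenPartialHomeomorph X (Fin n → ℂ)} (he : e ∈ atlas (Fin n → ℂ) X) (hxe : x ∈ e.source) :
    ContDiffAt ℝ 2 (fun y => w.ρ i (e.symm y)) (e x) := by
  have : IsManifold 𝓘(ℝ, Fin n → ℂ) ∞ X := LF.real_manifold
  have h1 : ContMDiffOn 𝓘(ℝ, Fin n → ℂ) 𝓘(ℝ, Fin n → ℂ) ∞ e.symm e.target :=
    contMDiffOn_symm_of_mem_maximalAtlas (IsManifold.subset_maximalAtlas he)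
  have h2 : ContMDiffOn 𝓘(ℝ, Fin n → ℂ) 𝓘(ℝ, ℝ) ∞ (fun y => w.ρ i (e.symm y))
      (e.target ∩ e.symm ⁻¹' (w.U i)) :=
    (w.smooth i).comp (h1.mono inter_subset_left) fun y hy => hy.2
  have h3 := (h2.contDiffOn).contDiffAt
    ((e.symm.isOpen_inter_preimage (w.isOpen i)).mem_nhds (x := e x)
      ⟨e.map_source hxe, by rw [mem_preimage, e.left_inv hxe]; exact hx⟩)
  exact h3.of_le (by norm_cast)

theorem ClosedForm.Semipositive.toL {w : ClosedForm (Fin n → ℂ) X} (h : w.Semipositive) :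
    w.SemiposL := by
  intro i x hx e he hxe v
  exact levi_nonneg (e.symm.isOpen_inter_preimage (w.isOpen i))
    ⟨e.map_source hxe, by rw [mem_preimage, e.left_inv hxe]; exact hx⟩
    (LF.smooth_chart w i hx he hxe) ((h i).chart (w.isOpen i) he) v

theorem ClosedForm.PosAt.toL {w : ClosedForm (Fin n → ℂ) X} {x : X} (h : w.PosAt x) :
    w.PosAtL x := by
  obtain ⟨i, e, he, c, hc, V, hV, hxV, hVU, hVe, hp⟩ := h
  refine ⟨i, hVU hxV, e, he, hVe hxV, fun v hv => ?_⟩
  refine levi_pos (LF.smooth_chart w i (hVU hxV) he (hVe hxV)) ?_ hv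
  refine ⟨c, hc, e.target ∩ e.symm ⁻¹' V, e.symm.isOpen_inter_preimage hV,
    ⟨e.map_source (hVe hxV), by rw [mem_preimage, e.left_inv (hVe hxV)]; exact hxV⟩, ?_⟩
  refine (hp.chart hV he).congr fun y hy => ?_
  simp only
  rw [e.right_inv hy.1]

end RG
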