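import Pool.Agent.H14.RG.RigA

/-!
# Module Q2: rigidity on the conic, and the conclusion
-/

open scoped Topology ContDiff
open Set Metric

namespace RG

variable {C : Cst} {u : C.X → ℝ}

namespace RigB

/-- a curve in a chart along which the potential is `a * log ‖h‖` -/
theorem key (hu : Tst C u) {i : C.P.ι} {g : ℂ → E3} {s0 : ℂ} (hg : AnalyticAt ℂ g s0)
    (hm : g s0 ∈ C.P.U i) {h : ℂ → ℂ} {a : ℝ} (hh : AnalyticAt ℂ h s0) (h0 : h s0 ≠ 0)
    (hR : ∀ᶠ s in 𝓝 s0, (potW C).R i (g s) = a * Real.log ‖h s‖)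
    {f : ℂ → ℝ} (hf : ∀ᶠ s in 𝓝 s0, f s = u (C.P.ψ i (g s))) :
    ContinuousAt f s0 ∧ LSub f s0 := by
  constructor
  · have h1 : ContinuousAt (C.P.ψ i) (g s0) :=
      (C.P.cont _).continuousAt ((C.P.isOpen_U _).mem_nhds hm)
    have h2 : ContinuousAt (fun s => C.P.ψ i (g s)) s0 :=
      ContinuousAt.comp (g := C.P.ψ i) h1 hg.continuousAt
    have h3 : ContinuousAt (fun s => u (C.P.ψ i (g s))) s0 :=
      ContinuousAt.comp (g := u) hu.cont.continuousAt h2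
    exact h3.congr (hf.mono fun s hs => hs.symm)
  · have e1 : ∀ᶠ s in 𝓝 s0, g s ∈ C.P.U i :=
      hg.continuousAt.eventually ((C.P.isOpen_U _).mem_nhds hm)
    have e2 : ∀ᶠ s in 𝓝 s0, h s ≠ 0 := hh.continuousAt.eventually_ne h0
    obtain ⟨W, hW, hWo, hs0⟩ := _root_.eventually_nhds_iff.1
      (((hg.eventually_analyticAt.and e1).and (hh.eventually_analyticAt.and e2)).and (hR.and hf))
    have h1 : PshE (fun s => u (C.P.ψ i (g s)) + (potW C).R i (g s)) W :=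
      (hu.psh i).comp_analytic (fun s hs => (hW s hs).1.1.1) fun s hs => (hW s hs).1.1.2
    have h2 : PshE (fun s => (-a) * Real.log ‖h s‖) W :=
      PshE.log_norm (fun s hs => (hW s hs).1.2.1) (fun s hs => (hW s hs).1.2.2) _
    have h3 : PshE f W := by
      refine (h1.add h2).congr fun s hs => ?_
      obtain ⟨-, h4, h5⟩ := hW s hs
      simp only [h4, h5]
      ring
    exact h3.lsub hWo (γ := fun s => s) analyticAt_id hs0

/-- the conic near a root, in the blow-up chart -/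
noncomputable def cj (t s : ℂ) : E3 := ![0, s - t, s + t]

theorem cen_analytic (s : ℂ) : AnalyticAt ℂ cen s := by
  rw [analyticAt_pi_iff]
  intro i
  fin_cases i
  · exact analyticAt_const
  · exact analyticAt_const.add analyticAt_id
  · exact analyticAt_id.pow 2

theorem cj_analytic (t s : ℂ) : AnalyticAt ℂ (cj t) s := by
  rw [analyticAt_pi_iff]
  intro i
  fin_cases i
  · exact analyticAt_const
  · exact analyticAt_id.sub analyticAt_const
  · exact analyticAt_id.add analyticAt_const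

theorem dir_cj (t s : ℂ) : dir 1 (cj t s) = ![0, 1, s + t] := by
  funext i
  fin_cases i <;> simp [dir, cj]

theorem bl_cj (t s : ℂ) : bl 1 (cj t s) = ![0, s - t, s ^ 2 - t ^ 2] := by
  have h1 : bl 1 (cj t s) = cj t s 1 • dir 1 (cj t s) := rfl
  rw [h1, dir_cj]
  funext i
  fin_cases i
  · simp [cj]
  · simp [cj]
  · simp [cj]
    ring

theorem aff_cj (t s : ℂ) : aff t (bl 1 (cj t s)) = pC s := by
  have h1 : cen t + bl 1 (cj t s) = cen s := by
    rw [bl_cj]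
    funext i
    fin_cases i
    · simp [cen]
    · simp [cen]
    · simp [cen]
  unfold aff
  rw [h1, xm_sec_cen]

theorem cen_mem (C : Cst) {s : ℂ} (hs : s ∉ Rt) :
    cen s ∈ C.P.U (Sum.inl (⟨1, one_ne_zero⟩, 0)) := by
  rw [C.mem_inl]
  refine ⟨?_, ?_⟩
  · change ‖(cen s) 0 - 1‖ < ‖(1 : ℂ)‖ / 4
    have : (cen s) 0 = 1 := rfl
    rw [this]
    simp
  · intro hZ
    change sec 0 (cen s) ∈ Zh at hZ
    rw [xm_sec_cen] at hZ
    apply hs
    have := hZ.2.1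
    rw [fP_pC] at this
    exact this

theorem cj_mem (C : Cst) {t : ℂ} (ht : t ∈ Rt) :
    ∀ᶠ s in 𝓝 t, cj t s ∈ C.P.U (Sum.inr (⟨t, ht⟩, 1)) := by
  have h1 : cj t t ∈ C.P.U (Sum.inr (⟨t, ht⟩, 1)) := by
    rw [C.mem_inr (t := ⟨t, ht⟩), bl_cj]
    have : (![0, t - t, t ^ 2 - t ^ 2] : E3) = 0 := by
      funext i
      fin_cases i <;> simp
    rw [this]
    exact mem_ball_self C.r_pos
  exact (cj_analytic t t).continuousAt.eventually ((C.P.isOpen_U _).mem_nhds h1)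

theorem root_ev {t : ℂ} (_ht : t ∈ Rt) : ∀ᶠ s in 𝓝 t, s ≠ t → s ∉ Rt := by
  have h1 : (Rt \ {t}).Finite := Rt_finite.subset sdiff_subset
  have h2 : (Rt \ {t})ᶜ ∈ 𝓝 t := h1.isClosed.isOpen_compl.mem_nhds (by simp)
  filter_upwards [h2] with s hs hne hR
  exact hs ⟨hR, hne⟩

theorem not_root_ev {s : ℂ} (hs : s ∉ Rt) : ∀ᶠ s' in 𝓝 s, s' ∉ Rt :=
  Rt_finite.isClosed.isOpen_compl.mem_nhds hs

/-- the conic in `X` -/
noncomputable def ch (C : Cst) (s : ℂ) : C.X := by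
  classical
  exact if h : s ∈ Rt then C.P.ψ (Sum.inr (⟨s, h⟩, 1)) (cj s s) else C.B.sm (Q0 (pC s))

theorem ch_of (C : Cst) {s : ℂ} (hs : s ∉ Rt) : ch C s = C.B.sm (Q0 (pC s)) := by
  unfold ch
  rw [dif_neg hs]

theorem ch_of' (C : Cst) {s : ℂ} (hs : s ∈ Rt) :
    ch C s = C.P.ψ (Sum.inr (⟨s, hs⟩, 1)) (cj s s) := by
  unfold ch
  rw [dif_pos hs]

theorem ch_base (C : Cst) {s : ℂ} (hs : s ∉ Rt) :
    ch C s = C.P.ψ (Sum.inl (⟨1, one_ne_zero⟩, 0)) (cen s) := by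
  rw [ch_of C hs, C.psi_inl]
  change _ = C.B.sm (Q0 (sec 0 (cen s)))
  rw [xm_sec_cen]

theorem ch_near (C : Cst) {t : ℂ} (ht : t ∈ Rt) :
    ∀ᶠ s in 𝓝 t, ch C s = C.P.ψ (Sum.inr (⟨t, ht⟩, 1)) (cj t s) := by
  filter_upwards [cj_mem C ht, root_ev ht] with s h1 h2
  by_cases hst : s = t
  · subst hst
    exact ch_of' C ht
  · rw [ch_of C (h2 hst), C.inr_eq (t := ⟨t, ht⟩) h1]
    · change _ = C.B.sm (Q0 (aff t (bl 1 (cj t s))))
      rw [aff_cj]
    · change s - t ≠ 0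
      exact sub_ne_zero.2 hst

/-- the potential along the conic in the base chart -/
theorem R_base (C : Cst) {s : ℂ} (hs : s ∉ Rt) :
    (potW C).R (Sum.inl (⟨1, one_ne_zero⟩, 0)) (cen s) =
      1 / 2 * Real.log ‖1 + s + s ^ 8‖ := by
  change Psi C.m C.d C.A (sec 0 (cen s)) = _
  rw [xm_sec_cen, psi_C C.hm C.hd C.hA hs]
  ring

theorem pp_analytic (s : ℂ) : AnalyticAt ℂ (fun s : ℂ => 1 + s + s ^ 8) s :=
  (analyticAt_const.add analyticAt_id).add (analyticAt_id.pow 8)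

/-- the linear functions along the conic near a root -/
noncomputable def sh (C : Cst) (t : ℂ) (i : Fin 3) (s : ℂ) : ℂ :=
  shf (C.M t) i (bl 1 (cj t s)) (dir 1 (cj t s))

theorem cj_ball (C : Cst) {t : ℂ} (ht : t ∈ Rt) :
    ∀ᶠ s in 𝓝 t, bl 1 (cj t s) ∈ ball (0 : E3) C.r0 := by
  filter_upwards [cj_mem C ht] with s hs
  exact (C.mem_inr (t := ⟨t, ht⟩)).1 hs

theorem sh_analytic (C : Cst) {t : ℂ} (ht : t ∈ Rt) (i : Fin 3) : AnalyticAt ℂ (sh C t i) t := by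
  have h1 : (bl 1 (cj t t), dir 1 (cj t t)) ∈ Sd C.r0 := by
    refine ⟨(cj_ball C ht).self_of_nhds, ?_⟩
    exact bp_dir_ne 1 (cj t t)
  have h2 := shf_analytic (C.sharp t ht) i _ h1
  have h3 : AnalyticAt ℂ (fun s => (bl 1 (cj t s), dir 1 (cj t s))) t :=
    (AnalyticAt.comp (g := bl 1) (f := cj t) (x := t) (bl_analytic 1 _) (cj_analytic t t)).prod
      (AnalyticAt.comp (g := dir 1) (f := cj t) (x := t) (dir_analytic 1 _) (cj_analytic t t))
  exact AnalyticAt.comp (g := fun q : E3 × E3 => shf (C.M t) i q.1 q.2)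
    (f := fun s => (bl 1 (cj t s), dir 1 (cj t s))) (x := t) h2 h3

theorem sh_mul (C : Cst) (t : ℂ) (i : Fin 3) (s : ℂ) : (s - t) * sh C t i s =
    ∑ k, C.M t i (bl 1 (cj t s)) k * bl 1 (cj t s) k := by
  have h1 : bl 1 (cj t s) = (s - t) • dir 1 (cj t s) := rfl
  unfold sh
  rw [← shf_smul, ← h1]
  rfl

theorem eq_zero_of {f : ℂ → ℂ} {t : ℂ} (hf : ContinuousAt f t)
    (h : ∀ᶠ s in 𝓝 t, (s - t) * f s = 0) : ∀ᶠ s in 𝓝 t, f s = 0 := by
  have h1 : ∀ᶠ s in 𝓝[≠] t, f s = 0 := by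
    filter_upwards [h.filter_mono nhdsWithin_le_nhds, self_mem_nhdsWithin] with s h2 h3
    rcases mul_eq_zero.1 h2 with h4 | h4
    · exact absurd (sub_eq_zero.1 h4) h3
    · exact h4
  have h2 : f t = 0 := by
    have h3 : Filter.Tendsto f (𝓝[≠] t) (𝓝 (f t)) := hf.tendsto.mono_left nhdsWithin_le_nhds
    have h4 : Filter.Tendsto f (𝓝[≠] t) (𝓝 0) :=
      tendsto_const_nhds.congr' (h1.mono fun s hs => hs.symm)
    exact tendsto_nhds_unique h3 h4
  rw [eventually_nhdsWithin_iff] at h1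
  filter_upwards [h1] with s hs
  by_cases hst : s = t
  · rw [hst, h2]
  · exact hs hst

theorem sh_one (C : Cst) {t : ℂ} (ht : t ∈ Rt) : ∀ᶠ s in 𝓝 t, sh C t 1 s = 0 := by
  refine eq_zero_of (sh_analytic C ht 1).continuousAt ?_
  filter_upwards [cj_ball C ht] with s hs
  rw [sh_mul, (C.sharp t ht).eqT _ hs, aff_cj]
  exact Iv.th_one

theorem sh_two (C : Cst) {t : ℂ} (ht : t ∈ Rt) : ∀ᶠ s in 𝓝 t, sh C t 2 s = 0 := by
  refine eq_zero_of (sh_analytic C ht 2).continuousAt ?_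
  filter_upwards [cj_ball C ht] with s hs
  rw [sh_mul, (C.sharp t ht).eqQ _ hs, aff_cj]
  exact fQ_pC s

theorem sh_zero (C : Cst) {t : ℂ} (ht : t ∈ Rt) : sh C t 0 t ≠ 0 := by
  intro h0
  obtain ⟨i, hi⟩ := (C.sharp t ht).inv _ (cj_ball C ht).self_of_nhds _ (bp_dir_ne 1 (cj t t))
  fin_cases i
  · exact hi h0
  · exact hi (sh_one C ht).self_of_nhds
  · exact hi (sh_two C ht).self_of_nhds

/-- the potential along the conic near a root -/
theorem R_root (C : Cst) {t : ℂ} (ht : t ∈ Rt) : ∀ᶠ s in 𝓝 t,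
    (potW C).R (Sum.inr (⟨t, ht⟩, 1)) (cj t s) = 1 / 2 * Real.log ‖sh C t 0 s‖ := by
  filter_upwards [sh_one C ht, sh_two C ht] with s h1 h2
  change Psis t (C.M t) (bl 1 (cj t s)) (dir 1 (cj t s)) = _
  unfold Psis shNJ shJ
  change Real.log (‖sh C t 0 s‖ ^ 2 + nN (aff t (bl 1 (cj t s))) *
    (‖(aff t (bl 1 (cj t s))).2 2‖ ^ 2 * (‖sh C t 1 s‖ ^ 2 *
      nN (aff t (bl 1 (cj t s))) ^ 2 + ‖sh C t 2 s‖ ^ 2))) / 4 = _
  rw [h1, h2, norm_zero]
  have h3 : ‖sh C t 0 s‖ ^ 2 + nN (aff t (bl 1 (cj t s))) *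
    (‖(aff t (bl 1 (cj t s))).2 2‖ ^ 2 * (0 ^ 2 *
      nN (aff t (bl 1 (cj t s))) ^ 2 + 0 ^ 2)) = ‖sh C t 0 s‖ ^ 2 := by ring
  rw [h3, Real.log_pow]
  push_cast
  ring

theorem main (hu : Tst C u) (s : ℂ) :
    ContinuousAt (fun s => u (ch C s)) s ∧ LSub (fun s => u (ch C s)) s := by
  by_cases hs : s ∈ Rt
  · refine key hu (i := Sum.inr (⟨s, hs⟩, 1)) (g := cj s) (cj_analytic s s)
      (cj_mem C hs).self_of_nhds (sh_analytic C hs 0) (sh_zero C hs) (R_root C hs) ?_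
    filter_upwards [ch_near C hs] with s' h
    rw [h]
  · refine key hu (i := Sum.inl (⟨1, one_ne_zero⟩, 0)) (g := cen) (cen_analytic s)
      (cen_mem C hs) (pp_analytic s) hs (a := 1 / 2) ?_ ?_
    · filter_upwards [not_root_ev hs] with s' h
      exact R_base C h
    · filter_upwards [not_root_ev hs] with s' h
      rw [ch_base C h]

end RigB

/-- `u` is constant on the conic: at parameters `s` which are not roots -/
theorem conic (hu : Tst C u) {s s' : ℂ} (hs : s ∉ Rt) (hs' : s' ∉ Rt) :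
    u (C.B.sm (Q0 (pC s))) = u (C.B.sm (Q0 (pC s'))) := by
  have hc : Continuous fun s => u (RigB.ch C s) :=
    continuous_iff_continuousAt.2 fun s => (RigB.main hu s).1
  have := C.compact
  obtain ⟨M, hM⟩ : ∃ M, ∀ x, u x ≤ M := by
    obtain ⟨M, hM⟩ := (isCompact_range hu.cont).bddAbove
    exact ⟨M, fun x => hM ⟨x, rfl⟩⟩
  have h1 := lsub_liouville hc (fun s => (RigB.main hu s).2) (fun z => hM _) s s'
  rwa [RigB.ch_of C hs, RigB.ch_of C hs'] at h1

theorem RigB.zero_not : (0 : ℂ) ∉ Rt := by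
  intro h
  have : (1 : ℂ) + 0 + 0 ^ 8 = 0 := h
  norm_num at this

/-- the derivative of `u` along `S` vanishes at the tangency point -/
theorem deriv_p (hu : Tst C u) :
    HasDerivAt (fun s : ℝ => u (ptS C 1 (Real.exp (s / 2) : ℝ))) 0 0 := by
  set i : C.P.ι := Sum.inl (⟨1, one_ne_zero⟩, 0) with hi
  set f : E3 → ℝ := fun y => u (C.P.ψ i y) with hf
  have hm : cen 0 ∈ C.P.U i := RigB.cen_mem C RigB.zero_not
  have hd : DifferentiableAt ℝ f (cen 0) :=
    ((hu.smooth i).contDiffAt ((C.P.isOpen_U i).mem_nhds hm)).differentiableAt one_ne_zero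
  obtain ⟨f', hf'⟩ := hd
  -- along the conic
  have h1 : HasDerivAt (fun s : ℝ => cen (s : ℂ)) (![0, 1, 0] : E3) 0 := by
    rw [hasDerivAt_pi]
    intro k
    fin_cases k
    · exact hasDerivAt_const _ _
    · exact (Complex.ofRealCLM.hasDerivAt (x := (0 : ℝ))).const_add 1
    · have h2 : HasDerivAt (fun s : ℝ => (s : ℂ) ^ 2) (2 * ((0 : ℝ) : ℂ) ^ (2 - 1) * 1) 0 :=
        (Complex.ofRealCLM.hasDerivAt (x := (0 : ℝ))).pow 2
      rw [Complex.ofReal_zero] at h2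
      have h3 : (2 * (0 : ℂ) ^ (2 - 1) * 1) = 0 := by norm_num
      rw [h3] at h2
      exact h2
  have h2 : HasDerivAt (fun s : ℝ => f (cen (s : ℂ))) (f' ![0, 1, 0]) 0 := by
    have h3 : HasFDerivAt f f' (cen ((0 : ℝ) : ℂ)) := by simpa using hf'
    exact h3.comp_hasDerivAt (0 : ℝ) h1
  have h3 : ∀ᶠ s : ℝ in 𝓝 0, f (cen (s : ℂ)) = f (cen 0) := by
    have h4 : Filter.Tendsto (fun s : ℝ => (s : ℂ)) (𝓝 0) (𝓝 0) :=
      Complex.continuous_ofReal.tendsto' 0 0 Complex.ofReal_zero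
    filter_upwards [h4.eventually (RigB.not_root_ev RigB.zero_not)] with s hs
    have h5 := conic hu hs RigB.zero_not
    rw [← RigB.ch_of C hs, ← RigB.ch_of C RigB.zero_not, RigB.ch_base C hs,
      RigB.ch_base C RigB.zero_not] at h5
    exact h5
  have h4 : f' ![0, 1, 0] = 0 :=
    h2.unique ((hasDerivAt_const (0 : ℝ) (f (cen 0))).congr_of_eventuallyEq h3)
  -- along the surface
  have h5 : HasDerivAt (fun s : ℝ => (![1, ((Real.exp (s / 2) : ℝ) : ℂ), 0] : E3))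
      ((1 / 2 : ℝ) • ![0, 1, 0] : E3) 0 := by
    rw [hasDerivAt_pi]
    intro k
    fin_cases k
    · simpa using hasDerivAt_const (0 : ℝ) (1 : ℂ)
    · have h6 : HasDerivAt (fun s : ℝ => Real.exp (s / 2)) (1 / 2) 0 := by
        have h7 := ((hasDerivAt_id (0 : ℝ)).div_const 2).exp
        simpa using h7
      have h7 := h6.ofReal_comp
      simpa using h7
    · simpa using hasDerivAt_const (0 : ℝ) (0 : ℂ)
  have h6 : HasDerivAt (fun s : ℝ => f (![1, ((Real.exp (s / 2) : ℝ) : ℂ), 0] : E3))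
      (f' ((1 / 2 : ℝ) • ![0, 1, 0] : E3)) 0 := by
    have h7 : (![1, ((Real.exp ((0 : ℝ) / 2) : ℝ) : ℂ), 0] : E3) = cen 0 := by
      simp [cen]
    have h8 : HasFDerivAt f f' (![1, ((Real.exp ((0 : ℝ) / 2) : ℝ) : ℂ), 0] : E3) := by
      rw [h7]
      exact hf'
    exact h8.comp_hasDerivAt (0 : ℝ) h5
  rw [map_smul, h4, smul_zero] at h6
  refine h6.congr_of_eventuallyEq (Filter.Eventually.of_forall fun s => ?_)
  have h7 := (ptS_eq C (z := 1) (w := ((Real.exp (s / 2) : ℝ) : ℂ)) one_ne_zero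
    (z0 := 1) one_ne_zero (by simp)).2
  simp only [hf, h7]
  rfl

/-- the inequality -/
theorem rigid (hu : Tst C u) {w : ℂ} (hw : w ≠ 0) :
    u (ptS C 1 1) + Psi C.m C.d C.A (1, ![1, 1, 0]) + Real.log (‖w‖ ^ 2) / 4 ≤
      u (ptS C 1 w) + Psi C.m C.d C.A (1, ![1, w, 0]) := by
  obtain ⟨H, hH, hval⟩ := convex_S hu
  obtain ⟨G, -, hG1, hG⟩ := psi_S C.hm C.hd C.hA
  have hn : ∀ s : ℝ, Real.log (‖((Real.exp (s / 2) : ℝ) : ℂ)‖ ^ 2) = s := by
    intro s
    rw [Complex.norm_real, Real.norm_of_nonneg (Real.exp_pos _).le, Real.log_pow, Real.log_exp]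
    push_cast
    ring
  have hne : ∀ s : ℝ, ((Real.exp (s / 2) : ℝ) : ℂ) ≠ 0 := by
    intro s
    rw [Complex.ofReal_ne_zero]
    exact (Real.exp_pos _).ne'
  have hd : HasDerivAt H (1 / 4) 0 := by
    have h1 : HasDerivAt (fun s : ℝ => u (ptS C 1 (Real.exp (s / 2) : ℝ)) + s / 4)
        (0 + 1 / 4) 0 := (deriv_p hu).add ((hasDerivAt_id (0 : ℝ)).div_const 4)
    rw [zero_add] at h1
    refine h1.congr_of_eventuallyEq ?_
    have h2 : ∀ᶠ s : ℝ in 𝓝 0, |s| ≤ 1 := by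
      have := Metric.ball_mem_nhds (0 : ℝ) one_pos
      filter_upwards [this] with s hs
      rw [mem_ball_zero_iff, Real.norm_eq_abs] at hs
      exact hs.le
    filter_upwards [h2] with s hs
    have h3 := hval _ (hne s)
    rw [hG 1 _ one_ne_zero (hne s), hn, hG1 s hs] at h3
    exact h3.symm
  have h1 := hval 1 one_ne_zero
  have h2 := hval w hw
  rw [h1, h2]
  have h3 : Real.log (‖(1 : ℂ)‖ ^ 2) = 0 := by simp
  rw [h3]
  set x := Real.log (‖w‖ ^ 2) with hx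
  have h4 : Set.univ ∈ 𝓝 (0 : ℝ) := Filter.univ_mem
  rcases lt_trichotomy x 0 with h | h | h
  · have h5 := hH.slope_le_of_hasDerivAt (mem_univ x) (mem_univ 0) h hd
    rw [slope_def_field, div_le_iff₀ (by linarith)] at h5
    linarith
  · rw [h]
    linarith
  · have h5 := hH.le_slope_of_hasDerivAt (mem_univ 0) (mem_univ x) h hd
    rw [slope_def_field, le_div_iff₀ (by linarith)] at h5
    linarith

end RG
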