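import Pool.Agent.H14.RG.KahM
import Pool.Agent.H14.RG.RigB
import Pool.Agent.H14.RG.LevF
import Pool.Agent.H14.RG.GoalL

/-!
# Module R: the final theorem
-/

open scoped Topology ContDiff Manifold
open Set Metric

namespace RG

/-- a psh function of class `C ^ 1` for the form satisfies the hypotheses of the rigidity
theorem -/
theorem tst_of (C : Cst) {u : C.X → ℝ}
    (h1 : letI := C.P.chartedSpace
      ContMDiff 𝓘(ℝ, E3) 𝓘(ℝ, ℝ) 1 u)
    (h2 : letI := C.P.chartedSpace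
      ((potW C).form (potW_smooth C)).toForm.Psh u) : Tst C u := by
  refine ⟨?_, fun i => C.P.of_contMDiff_one h1 i, fun i => ?_⟩
  · let _ := C.P.chartedSpace
    exact ContMDiff.continuous h1
  · exact ((potW C).form (potW_smooth C)).of_psh h2 i

/-- the value of a function with chart values `potD` on the surface `S` -/
theorem fin_ptS (C : Cst) {φ : C.X → ℝ}
    (h : ∀ i, ∀ y ∈ C.P.U i, φ (C.P.ψ i y) = (potD C).R i y) (w : ℂ) :
    φ (ptS C 1 w) + Psi C.m C.d C.A (1, ![1, w, 0]) = Phi C.d C.d0 C.K (1, ![1, w, 0]) := by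
  obtain ⟨h1, h2⟩ := ptS_eq C (z := 1) (w := w) one_ne_zero (z0 := 1) one_ne_zero (by simp)
  have h3 := h _ _ h1
  rw [h2, h3]
  have h4 : (sec 0 ![1, w, 0] : V4) = (1, ![1, w, 0]) := by
    simp [sec]
  change Phi C.d C.d0 C.K (sec 0 ![1, w, 0]) - Psi C.m C.d C.A (sec 0 ![1, w, 0])
    + Psi C.m C.d C.A (1, ![1, w, 0]) = _
  rw [h4]
  ring

/-- no pointwise limit -/
theorem fin_not (C : Cst) {φ : C.X → ℝ}
    (h : ∀ i, ∀ y ∈ C.P.U i, φ (C.P.ψ i y) = (potD C).R i y) {u : ℕ → C.X → ℝ}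
    (hu : ∀ j, Tst C (u j)) :
    ¬ ∀ x, Filter.Tendsto (fun j => u j x) Filter.atTop (𝓝 (φ x)) := by
  intro hlim
  set w : ℂ := ((Real.exp (1 / 20) : ℝ) : ℂ) with hw
  have hn : ‖w‖ = Real.exp (1 / 20) := by
    rw [hw, Complex.norm_real, Real.norm_eq_abs, abs_of_pos (Real.exp_pos _)]
  have hw0 : w ≠ 0 := by
    rw [← norm_pos_iff, hn]
    exact Real.exp_pos _
  have hl : Real.log (‖w‖ ^ 2) = 1 / 10 := by
    rw [hn, Real.log_pow, Real.log_exp]
    norm_num
  have h1 := phi_S C.hd C.hK (z := 1) (w := w) one_ne_zero hw0 (by rw [hl]; norm_num)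
  have h2 := phi_S C.hd C.hK (z := 1) (w := 1) one_ne_zero one_ne_zero (by simp)
  have h3 := fin_ptS C h w
  have h4 := fin_ptS C h 1
  have h5 : φ (ptS C 1 1) + Psi C.m C.d C.A (1, ![1, 1, 0]) + Real.log (‖w‖ ^ 2) / 4 ≤
      φ (ptS C 1 w) + Psi C.m C.d C.A (1, ![1, w, 0]) :=
    le_of_tendsto_of_tendsto' (((hlim (ptS C 1 1)).add_const _).add_const _)
      ((hlim (ptS C 1 w)).add_const _) fun j => rigid (hu j) hw0
  rw [h3, h4, h1, h2, hl] at h5
  norm_num at h5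

/-- the final theorem -/
theorem goalL : GoalL := by
  obtain ⟨C⟩ := exists_Cst
  let _ := C.P.chartedSpace
  have : IsManifold 𝓘(ℂ, E3) ω C.X := C.P.isManifold
  obtain ⟨φ, hφ, hR, hpsh⟩ := exists_phi C
  obtain ⟨x, hx⟩ := big C
  refine ⟨C.X, inferInstance, C.P.chartedSpace, inferInstance, C.compact, C.connected,
    C.P.isManifold, ⟨((potK C).form (potK_smooth C)).toForm, fun x => (kaehler C x).toL⟩,
    ((potW C).form (potW_smooth C)).toForm, (semipositive C).toL, ⟨x, hx.toL⟩, φ, hφ,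
    ((potW C).form (potW_smooth C)).psh hpsh, fun u hu => ?_⟩
  exact fin_not C hR fun j => tst_of C (hu j).1 (hu j).2

end RG
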