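import Mathlib

/-!
# The functions on the cone `V4 = ℂ × (Fin 3 → ℂ)` (points `(z, x)`)
-/

open scoped Topology
open Set Metric

namespace RG

/-- the ambient space of the cone -/
abbrev V4 := ℂ × (Fin 3 → ℂ)

/-- the modulus -/
noncomputable def tau : ℂ := 1 / 4

/-- the twist, a complex number of modulus one, not a root of unity -/
noncomputable def aa : ℂ := Complex.exp (2 * Real.pi * Complex.I * (Real.sqrt 2 : ℝ))

/-- `eta = aa ^ 4` -/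
noncomputable def eta : ℂ := aa ^ 4

/-- half of the theta product: `∏ (1 - tau ^ m * z)`, `m ≥ 0` -/
noncomputable def thE (z : ℂ) : ℂ := ∏' m : ℕ, (1 - tau ^ m * z)

/-- the theta function -/
noncomputable def th (z : ℂ) : ℂ := thE z * thE (tau / z)

/-- twisted theta function, normalised at `z = 1` -/
noncomputable def thb (b z : ℂ) : ℂ := th (z / b) / th (1 / b)

/-- coefficient of `x2 ^ 4` in `P` -/
noncomputable def Th (z : ℂ) : ℂ := thb aa z ^ 4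

/-- `P = x0 ^ 3 x1 + Th x2 ^ 4` -/
noncomputable def fP (p : V4) : ℂ := p.2 0 ^ 3 * p.2 1 + Th p.1 * p.2 2 ^ 4

/-- `Q`, at `z = 1` equal to `x0 x2 - (x1 - x0) ^ 2` -/
noncomputable def fQ (p : V4) : ℂ :=
  thb aa p.1 ^ 2 * p.2 0 * p.2 2 - thb (aa ^ (-6 : ℤ)) p.1 * p.2 1 ^ 2
    + 2 * thb (aa ^ (-2 : ℤ)) p.1 * p.2 0 * p.2 1 - thb (aa ^ 2) p.1 * p.2 0 ^ 2

/-- the quadratic weight, `qq (tau z) = qq z - log ‖z‖` -/
noncomputable def qq (z : ℂ) : ℝ := Real.log ‖z‖ ^ 2 / (2 * Real.log 4) + Real.log ‖z‖ / 2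

/-- `‖x2‖ ^ 2 e ^ (2 q)` -/
noncomputable def a2 (p : V4) : ℝ := ‖p.2 2‖ ^ 2 * Real.exp (2 * qq p.1)

/-- `‖x0‖ ^ 2 + ‖x1‖ ^ 2` -/
noncomputable def nE (p : V4) : ℝ := ‖p.2 0‖ ^ 2 + ‖p.2 1‖ ^ 2

/-- `‖x0‖ ^ 2 + ‖x1‖ ^ 2 + a2` -/
noncomputable def nN (p : V4) : ℝ := ‖p.2 0‖ ^ 2 + ‖p.2 1‖ ^ 2 + a2 p

/-- `J' = ‖th‖ ^ 2 N ^ 2 + ‖Q‖ ^ 2` -/
noncomputable def nJp (p : V4) : ℝ := ‖th p.1‖ ^ 2 * nN p ^ 2 + ‖fQ p‖ ^ 2

/-- `J = ‖x2‖ ^ 2 J'` -/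
noncomputable def nJ (p : V4) : ℝ := ‖p.2 2‖ ^ 2 * nJp p

/-- `‖P‖ ^ 2` -/
noncomputable def nP (p : V4) : ℝ := ‖fP p‖ ^ 2

/-- comparison function for `J'`: `‖x2‖ ^ 2 e ^ (4 q) N` -/
noncomputable def nB (p : V4) : ℝ := ‖p.2 2‖ ^ 2 * Real.exp (4 * qq p.1) * nN p

/-- `σ = log ‖x1‖ ^ 2 - log ‖x0‖ ^ 2` -/
noncomputable def sg (p : V4) : ℝ := Real.log (‖p.2 1‖ ^ 2) - Real.log (‖p.2 0‖ ^ 2)

/-- the cone -/
def Mh : Set V4 := {p | p.1 ≠ 0 ∧ p.2 ≠ 0}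

/-- the cocycle -/
noncomputable def cc (n : ℤ) (z : ℂ) : ℂ := (-z) ^ n * tau ^ (n * (n - 1) / 2)

/-- the action of the integer `n` -/
noncomputable def gG (n : ℤ) (p : V4) : V4 :=
  (tau ^ n * p.1, ![p.2 0, eta ^ n * p.2 1, cc n p.1 * p.2 2])

/-- scaling of the fibre coordinate -/
noncomputable def sc (t : ℂ) (p : V4) : V4 := (p.1, t • p.2)

/-- `κ₁` -/
noncomputable def k1 (p : V4) : ℝ := (nN p * nJ p * (nP p)⁻¹) ^ (3 / 32 : ℝ)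

/-- `κ₂` -/
noncomputable def k2 (p : V4) : ℝ := (a2 p * nJ p * (nP p)⁻¹) ^ (1 / 16 : ℝ)

/-- the conic point with parameter `t` (in the fibre `z = 1`) -/
noncomputable def pC (t : ℂ) : V4 := (1, ![1, 1 + t, t ^ 2])

/-- the roots: the points of the conic where `P` vanishes -/
def Rt : Set ℂ := {t | 1 + t + t ^ 8 = 0}

end RG
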