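import Pool.Agent.H14.RG.FnDefs

/-!
# Further definitions: regularised maximum, `Psi`, `Phi`, charts
-/

open scoped Topology ContDiff
open Set Metric

namespace RG

/-- `E3`, the model space -/
abbrev E3 := Fin 3 → ℂ

/-- points with nonzero `z` -/
def O4 : Set V4 := {p | p.1 ≠ 0}

/-- the points over the eight blown-up points -/
def Zh : Set V4 := {p | p ∈ Mh ∧ fP p = 0 ∧ nJp p = 0 ∧ p.2 2 ≠ 0}

/-- affine sections -/
noncomputable def sec (j : Fin 3) (y : E3) : V4 :=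
  (y 0, if j = 0 then ![1, y 1, y 2] else if j = 1 then ![y 1, 1, y 2] else ![y 1, y 2, 1])

/-- centre of the chart at the root `t` -/
noncomputable def cen (t : ℂ) : E3 := ![1, 1 + t, t ^ 2]

/-- affine point -/
noncomputable def aff (t : ℂ) (y : E3) : V4 := sec 0 (cen t + y)

/-- direction vector in the blow-up chart `l` -/
noncomputable def dir (l : Fin 3) (u : E3) : E3 := Function.update u l 1

/-- blow-down map in the chart `l` -/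
noncomputable def bl (l : Fin 3) (u : E3) : E3 := u l • dir l u

/-- the closed band `|σ| ≤ 6` -/
def band (p : V4) : Prop :=
  ‖p.2 1‖ ^ 2 ≤ Real.exp 6 * ‖p.2 0‖ ^ 2 ∧ ‖p.2 0‖ ^ 2 ≤ Real.exp 6 * ‖p.2 1‖ ^ 2

/-- the small closed band `|σ| ≤ 1` -/
def band1 (p : V4) : Prop :=
  ‖p.2 1‖ ^ 2 ≤ Real.exp 1 * ‖p.2 0‖ ^ 2 ∧ ‖p.2 0‖ ^ 2 ≤ Real.exp 1 * ‖p.2 1‖ ^ 2

/-- the constant `d` (size of the tube) is good -/
structure TubeGood (d : ℝ) : Prop where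
  pos : 0 < d
  lt : d < 1
  t1 : ∀ p ∈ Mh, a2 p ≤ d * nE p → band p →
    p.2 0 ≠ 0 ∧ p.2 1 ≠ 0 ∧ fP p ≠ 0 ∧
    |Real.log (nP p) / 4 - (3 * Real.log (‖p.2 0‖ ^ 2) + Real.log (‖p.2 1‖ ^ 2)) / 4| ≤ 1 / 100 ∧
    k1 p ≤ 1 / 100
  t2 : ∀ p ∈ Mh, a2 p ≤ d * nE p → nJp p ≤ nB p →
    p.2 0 ≠ 0 ∧ p.2 1 ≠ 0 ∧ fP p ≠ 0 ∧ |sg p| ≤ 1 / 100 ∧
    nN p ^ 4 ≤ 17 * nP p ∧ 15 * nP p ≤ nN p ^ 4 ∧
    Real.log (nE p) - 4 / 5 ≤ Real.log (nP p) / 4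
  t3 : ∀ p ∈ Mh, a2 p ≤ d * nE p → p.2 2 ≠ 0 → nJp p = nB p / 32 →
    k1 p + |sg p| / 12 < k2 p
  t4 : ∀ p ∈ Mh, a2 p ≤ d * nE p → p.2 2 ≠ 0 → nJp p = nB p →
    k2 p + |sg p| / 12 < k1 p

/-- the constant `A` is good -/
def AGood (d A : ℝ) : Prop :=
  0 < A ∧ ∀ p ∈ Mh, a2 p ≤ d * nE p → (d / 2 * nE p ≤ a2 p ∨ band1 p) →
    nE p ^ 4 * Real.exp (8 - 4 * A) ≤ nP p + nN p * nJ p

/-- the constants `d0`, `K` are good -/
structure KGood (d d0 K : ℝ) : Prop where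
  pos : 0 < d0
  lt : d0 ≤ 1
  g1 : ∀ p ∈ Mh, d * nE p ≤ a2 p → nB p ≤ nJp p → d0 * nP p < nN p * nJ p
  g2 : ∀ p ∈ Mh, a2 p = d * nE p → nB p / 32 ≤ nJp p →
    Real.log (nE p) - 9 / 10 < Real.log (nN p * nJ p) / 4 + K
  g3 : ∀ p ∈ Mh, a2 p = d * nE p → nB p / 32 ≤ nJp p → band p →
    Real.log (nP p) / 4 + 1 < Real.log (nN p * nJ p) / 4 + K
  g4 : ∀ p ∈ Mh, fP p ≠ 0 → d0 * nP p ≤ nN p * nJ p →
    Real.log (nP p) / 4 + 1 < Real.log (nN p * nJ p) / 4 + K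

/-- properties of the regularising function `m`: `b + m (a - b)` is a regularised maximum -/
structure MReg (m : ℝ → ℝ) : Prop where
  smooth : ContDiff ℝ ∞ m
  convex : ConvexOn ℝ univ m
  mono : Monotone m
  mono' : Monotone (fun s => s - m s)
  low : ∀ s, s ≤ -2 → m s = 0
  high : ∀ s, 2 ≤ s → m s = s

/-- `Psi`, the potential of the form on the cone -/
noncomputable def Psi (m : ℝ → ℝ) (d A : ℝ) (p : V4) : ℝ := by
  classical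
  exact if a2 p < d * nE p then
    Real.log (nE p) - A +
      (if nP p + nN p * nJ p ≤ 0 then 0 else
        m (Real.log (nP p + nN p * nJ p) / 4 - (Real.log (nE p) - A)))
  else Real.log (nP p + nN p * nJ p) / 4

/-- the open regions of the four pieces of `Phi` -/
def Reg (d d0 : ℝ) (i : Fin 4) : Set V4 :=
  ![{p | p ∈ Mh ∧ nJ p ≠ 0},
    {p | p ∈ Mh ∧ a2 p < d * nE p ∧ ‖p.2 1‖ ^ 2 < Real.exp 6 * ‖p.2 0‖ ^ 2 ∧
      ‖p.2 0‖ ^ 2 < Real.exp 6 * ‖p.2 1‖ ^ 2 ∧ nB p / 32 < nJp p},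
    {p | p ∈ Mh ∧ fP p ≠ 0 ∧ nN p * nJ p < d0 * nP p ∧ nJp p < nB p},
    {p | p ∈ Mh ∧ a2 p < d * nE p}] i

/-- the four pieces of `Phi` -/
noncomputable def pie (K : ℝ) (i : Fin 4) : V4 → ℝ :=
  ![fun p => Real.log (nN p * nJ p) / 4 + K,
    fun p => Real.log (nP p) / 4 - sg p / 12 + k1 p,
    fun p => Real.log (nP p) / 4 + k2 p,
    fun p => Real.log (nE p) - 9 / 10] i

/-- `Phi`, the potential of the counterexample on the cone -/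
noncomputable def Phi (d d0 K : ℝ) (p : V4) : ℝ := by
  classical
  exact if nJp p = 0 ∧ p.2 2 = 0 then Real.log (nP p) / 4
    else sSup {v | ∃ i, p ∈ Reg d d0 i ∧ v = pie K i p}

/-- local data at the blown-up point `t`: a matrix `M` with
`P, th, Q = M y · y`, invertible on the ball of radius `r0` -/
structure Sharp (d r0 : ℝ) (t : ℂ) (M : Fin 3 → E3 → E3) : Prop where
  an : ∀ i k, AnalyticOnNhd ℂ (fun y => M i y k) (ball 0 r0)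
  eqP : ∀ y ∈ ball (0 : E3) r0, ∑ k, M 0 y k * y k = fP (aff t y)
  eqT : ∀ y ∈ ball (0 : E3) r0, ∑ k, M 1 y k * y k = th (aff t y).1
  eqQ : ∀ y ∈ ball (0 : E3) r0, ∑ k, M 2 y k * y k = fQ (aff t y)
  inv : ∀ y ∈ ball (0 : E3) r0, ∀ r : E3, r ≠ 0 → ∃ i, ∑ k, M i y k * r k ≠ 0
  tube : ∀ y ∈ ball (0 : E3) r0, d * nE (aff t y) < a2 (aff t y)
  lt : ∀ y ∈ ball (0 : E3) r0, nJp (aff t y) < nB (aff t y)

/-- the linear functions `P♯, th♯, Q♯` -/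
noncomputable def shf (M : Fin 3 → E3 → E3) (i : Fin 3) (y r : E3) : ℂ := ∑ k, M i y k * r k

/-- `J'♯` -/
noncomputable def shJ (t : ℂ) (M : Fin 3 → E3 → E3) (y r : E3) : ℝ :=
  ‖shf M 1 y r‖ ^ 2 * nN (aff t y) ^ 2 + ‖shf M 2 y r‖ ^ 2

/-- `N ‖x2‖ ^ 2 J'♯` -/
noncomputable def shNJ (t : ℂ) (M : Fin 3 → E3 → E3) (y r : E3) : ℝ :=
  nN (aff t y) * (‖(aff t y).2 2‖ ^ 2 * shJ t M y r)

/-- `Psi♯` -/
noncomputable def Psis (t : ℂ) (M : Fin 3 → E3 → E3) (y r : E3) : ℝ :=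
  Real.log (‖shf M 0 y r‖ ^ 2 + shNJ t M y r) / 4

/-- `κ₂♯` -/
noncomputable def k2s (t : ℂ) (M : Fin 3 → E3 → E3) (y r : E3) : ℝ :=
  (a2 (aff t y) * (‖(aff t y).2 2‖ ^ 2 * shJ t M y r) * (‖shf M 0 y r‖ ^ 2)⁻¹) ^ (1 / 16 : ℝ)

/-- `Phi♯` -/
noncomputable def Phis (d0 K : ℝ) (t : ℂ) (M : Fin 3 → E3 → E3) (y r : E3) : ℝ := by
  classical
  exact if shf M 0 y r ≠ 0 ∧ shNJ t M y r < d0 * ‖shf M 0 y r‖ ^ 2 then
    (if shNJ t M y r = 0 then Real.log (‖shf M 0 y r‖ ^ 2) / 4 + k2s t M y r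
      else max (Real.log (shNJ t M y r) / 4 + K)
        (Real.log (‖shf M 0 y r‖ ^ 2) / 4 + k2s t M y r))
    else Real.log (shNJ t M y r) / 4 + K

end RG
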