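import Pool.Agent.H14.RG.InvA

/-!
# Module E1b: invariance of all the functions on the cone
-/

open scoped Topology ContDiff
open Set Metric

namespace RG

theorem Iv.gG_fst (n : ℤ) (p : V4) : (gG n p).1 = tau ^ n * p.1 := rfl

open Iv

theorem Iv.gG_0 (n : ℤ) (p : V4) : (gG n p).2 0 = p.2 0 := rfl

theorem Iv.gG_1 (n : ℤ) (p : V4) : (gG n p).2 1 = eta ^ n * p.2 1 := rfl

theorem Iv.gG_2 (n : ℤ) (p : V4) : (gG n p).2 2 = cc n p.1 * p.2 2 := rfl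

theorem Iv.gG_fst_ne (n : ℤ) {p : V4} (hp : p.1 ≠ 0) : (gG n p).1 ≠ 0 := by
  rw [gG_fst]
  exact mul_ne_zero (zpow_ne_zero _ tau_ne) hp

theorem Iv.aa_ne : aa ≠ 0 := by
  intro h
  have := norm_aa
  rw [h, norm_zero] at this
  exact zero_ne_one this

theorem Iv.eta_ne : eta ≠ 0 := by
  intro h
  have := norm_eta
  rw [h, norm_zero] at this
  exact zero_ne_one this

theorem Iv.norm_aa_zpow (n : ℤ) : ‖aa ^ n‖ = 1 := by
  rw [norm_zpow, norm_aa, one_zpow]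

theorem Iv.int_step {P : ℤ → Prop} (h0 : P 0) (h1 : ∀ n, P n ↔ P (n + 1)) (n : ℤ) : P n := by
  induction n with
  | zero => exact h0
  | succ n ih => exact (h1 _).1 ih
  | pred n ih =>
    have := (h1 (-(n : ℤ) - 1)).2
    rw [sub_add_cancel] at this
    exact this ih

theorem Iv.gG_succ (n : ℤ) {p : V4} (hp : p.1 ≠ 0) : gG (n + 1) p = gG 1 (gG n p) := by
  rw [add_comm, gG_add 1 n hp]

theorem Iv.Th_tau {z : ℂ} (hz : z ≠ 0) : Th (tau * z) * (-z) ^ 4 = eta * Th z := by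
  unfold Th eta
  rw [thb_tau norm_aa hz]
  field_simp

theorem Iv.fP_gG1 {p : V4} (hp : p.1 ≠ 0) : fP (gG 1 p) = eta * fP p := by
  unfold fP
  rw [gG_fst, gG_0, gG_1, gG_2, cc_one, zpow_one, zpow_one]
  have := Th_tau hp
  calc p.2 0 ^ 3 * (eta * p.2 1) + Th (tau * p.1) * (-p.1 * p.2 2) ^ 4
      = p.2 0 ^ 3 * (eta * p.2 1) + (Th (tau * p.1) * (-p.1) ^ 4) * p.2 2 ^ 4 := by ring
    _ = _ := by rw [this]; ring

theorem Iv.fQ_gG1 {p : V4} (hp : p.1 ≠ 0) : fQ (gG 1 p) = -(aa ^ 2 / p.1) * fQ p := by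
  unfold fQ
  have h6 : ‖aa ^ (-6 : ℤ)‖ = 1 := norm_aa_zpow _
  have h2 : ‖aa ^ (-2 : ℤ)‖ = 1 := norm_aa_zpow _
  have h2' : ‖aa ^ 2‖ = 1 := by rw [norm_pow, norm_aa, one_pow]
  rw [gG_fst, gG_0, gG_1, gG_2, cc_one, zpow_one, zpow_one, thb_tau norm_aa hp, thb_tau h6 hp,
    thb_tau h2 hp, thb_tau h2' hp]
  have ha := aa_ne
  have e6 : aa ^ (-6 : ℤ) = (aa ^ 6)⁻¹ := by
    rw [zpow_neg]
    norm_cast
  have e2 : aa ^ (-2 : ℤ) = (aa ^ 2)⁻¹ := by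
    rw [zpow_neg]
    norm_cast
  generalize thb aa p.1 = t1
  generalize thb (aa ^ (-6 : ℤ)) p.1 = t2
  generalize thb (aa ^ (-2 : ℤ)) p.1 = t3
  generalize thb (aa ^ 2) p.1 = t4
  rw [e6, e2]
  unfold eta
  field_simp
  ring

/-! invariance under the action, for `p.1 ≠ 0` -/

theorem fP_gG (n : ℤ) {p : V4} (hp : p.1 ≠ 0) : fP (gG n p) = eta ^ n * fP p := by
  refine int_step (P := fun n => fP (gG n p) = eta ^ n * fP p) ?_ (fun n => ?_) n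
  · rw [gG_zero, zpow_zero, one_mul]
  · rw [gG_succ n hp, fP_gG1 (gG_fst_ne n hp), zpow_add_one₀ eta_ne, mul_comm (eta ^ n) eta,
      mul_assoc]
    exact ⟨fun h => by rw [h], fun h => mul_left_cancel₀ eta_ne h⟩

theorem norm_fP_gG (n : ℤ) {p : V4} (hp : p.1 ≠ 0) : ‖fP (gG n p)‖ = ‖fP p‖ := by
  rw [fP_gG n hp, norm_mul, norm_zpow, norm_eta, one_zpow, one_mul]

theorem norm_th_gG (n : ℤ) {p : V4} (hp : p.1 ≠ 0) :
    ‖th (gG n p).1‖ * ‖cc n p.1‖ = ‖th p.1‖ := by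
  refine int_step (P := fun n => ‖th (gG n p).1‖ * ‖cc n p.1‖ = ‖th p.1‖) ?_ (fun n => ?_) n
  · rw [gG_zero, cc_zero, norm_one, mul_one]
  · have h1 : (gG (n + 1) p).1 = tau * (gG n p).1 := by
      rw [gG_succ n hp, gG_fst, zpow_one]
    have h2 : cc (n + 1) p.1 = -(gG n p).1 * cc n p.1 := by
      rw [add_comm, cc_add 1 n hp, cc_one, gG_fst]
    have h3 := gG_fst_ne n hp
    have h4 : ‖(gG n p).1‖ ≠ 0 := norm_ne_zero_iff.2 h3
    rw [h1, h2, th_tau h3, norm_mul, norm_mul, norm_neg, norm_neg, norm_inv]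
    have : ‖(gG n p).1‖⁻¹ * ‖th (gG n p).1‖ * (‖(gG n p).1‖ * ‖cc n p.1‖)
        = ‖th (gG n p).1‖ * ‖cc n p.1‖ := by
      field_simp
    rw [this]

theorem norm_fQ_gG (n : ℤ) {p : V4} (hp : p.1 ≠ 0) :
    ‖fQ (gG n p)‖ * ‖cc n p.1‖ = ‖fQ p‖ := by
  refine int_step (P := fun n => ‖fQ (gG n p)‖ * ‖cc n p.1‖ = ‖fQ p‖) ?_ (fun n => ?_) n
  · rw [gG_zero, cc_zero, norm_one, mul_one]
  · have h2 : cc (n + 1) p.1 = -(gG n p).1 * cc n p.1 := by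
      rw [add_comm, cc_add 1 n hp, cc_one, gG_fst]
    have h3 := gG_fst_ne n hp
    have h4 : ‖(gG n p).1‖ ≠ 0 := norm_ne_zero_iff.2 h3
    have h5 : ‖aa ^ 2‖ = 1 := by rw [norm_pow, norm_aa, one_pow]
    rw [gG_succ n hp, h2, fQ_gG1 h3, norm_mul, norm_mul, norm_neg, norm_neg, norm_div, h5]
    have : 1 / ‖(gG n p).1‖ * ‖fQ (gG n p)‖ * (‖(gG n p).1‖ * ‖cc n p.1‖)
        = ‖fQ (gG n p)‖ * ‖cc n p.1‖ := by
      field_simp
    rw [this]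

theorem a2_gG (n : ℤ) {p : V4} (hp : p.1 ≠ 0) : a2 (gG n p) = a2 p := by
  unfold a2
  rw [gG_2, gG_fst, norm_mul, two_mul, Real.exp_add, two_mul, Real.exp_add, ← norm_cc_exp n hp]
  ring

theorem nE_gG (n : ℤ) (p : V4) : nE (gG n p) = nE p := by
  unfold nE
  rw [gG_0, gG_1, norm_mul, norm_zpow, norm_eta, one_zpow, one_mul]

theorem nN_gG (n : ℤ) {p : V4} (hp : p.1 ≠ 0) : nN (gG n p) = nN p := by
  have h := nE_gG n p
  unfold nE at h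
  unfold nN
  rw [a2_gG n hp, h]

theorem nP_gG (n : ℤ) {p : V4} (hp : p.1 ≠ 0) : nP (gG n p) = nP p := by
  unfold nP
  rw [norm_fP_gG n hp]

theorem nJp_gG (n : ℤ) {p : V4} (hp : p.1 ≠ 0) : nJp (gG n p) * ‖cc n p.1‖ ^ 2 = nJp p := by
  unfold nJp
  rw [nN_gG n hp, ← norm_th_gG n hp, ← norm_fQ_gG n hp]
  ring

theorem nB_gG (n : ℤ) {p : V4} (hp : p.1 ≠ 0) : nB (gG n p) * ‖cc n p.1‖ ^ 2 = nB p := by
  unfold nB
  have e4 : ∀ x : ℝ, Real.exp (4 * x) = Real.exp x ^ 4 := fun x => by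
    rw [← Real.exp_nat_mul]
    norm_num
  rw [nN_gG n hp, gG_2, gG_fst, norm_mul, e4, e4, ← norm_cc_exp n hp]
  ring

theorem nJ_gG (n : ℤ) {p : V4} (hp : p.1 ≠ 0) : nJ (gG n p) = nJ p := by
  unfold nJ
  rw [gG_2, norm_mul, ← nJp_gG n hp]
  ring

theorem sg_gG (n : ℤ) (p : V4) : sg (gG n p) = sg p := by
  unfold sg
  rw [gG_0, gG_1, norm_mul, norm_zpow, norm_eta, one_zpow, one_mul]

theorem k1_gG (n : ℤ) {p : V4} (hp : p.1 ≠ 0) : k1 (gG n p) = k1 p := by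
  unfold k1
  rw [nN_gG n hp, nJ_gG n hp, nP_gG n hp]

theorem k2_gG (n : ℤ) {p : V4} (hp : p.1 ≠ 0) : k2 (gG n p) = k2 p := by
  unfold k2
  rw [a2_gG n hp, nJ_gG n hp, nP_gG n hp]

theorem Iv.nJp_gG_iff (n : ℤ) {p : V4} (hp : p.1 ≠ 0) : nJp (gG n p) = 0 ↔ nJp p = 0 := by
  have h : ‖cc n p.1‖ ^ 2 ≠ 0 := pow_ne_zero 2 (norm_ne_zero_iff.2 (cc_ne hp))
  rw [← nJp_gG n hp]
  constructor
  · intro h1
    rw [h1, zero_mul]
  · intro h1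
    exact (mul_eq_zero.1 h1).resolve_right h

theorem Iv.fP_gG_iff (n : ℤ) {p : V4} (hp : p.1 ≠ 0) : fP (gG n p) = 0 ↔ fP p = 0 := by
  rw [fP_gG n hp]
  constructor
  · intro h1
    exact (mul_eq_zero.1 h1).resolve_left (zpow_ne_zero _ eta_ne)
  · intro h1
    rw [h1, mul_zero]

theorem Zh_gG {n : ℤ} {p : V4} (hp : p ∈ Mh) : gG n p ∈ Zh ↔ p ∈ Zh := by
  have hp1 : p.1 ≠ 0 := hp.1
  have hm : gG n p ∈ Mh := gG_mem hp
  have h2 : (gG n p).2 2 ≠ 0 ↔ p.2 2 ≠ 0 := by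
    rw [gG_2]
    exact ⟨fun h => right_ne_zero_of_mul h, fun h => mul_ne_zero (cc_ne hp1) h⟩
  unfold Zh
  simp only [mem_ofPred_eq]
  rw [fP_gG_iff n hp1, nJp_gG_iff n hp1, h2]
  simp only [hm, hp, true_and]

theorem Zh_sc {t : ℂ} (ht : t ≠ 0) {p : V4} (hp : p ∈ Mh) : sc t p ∈ Zh ↔ p ∈ Zh := by
  have hm : sc t p ∈ Mh := sc_mem ht hp
  have h2 : (sc t p).2 2 ≠ 0 ↔ p.2 2 ≠ 0 := by
    change t * p.2 2 ≠ 0 ↔ p.2 2 ≠ 0
    exact ⟨fun h => right_ne_zero_of_mul h, fun h => mul_ne_zero ht h⟩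
  have h3 : fP (sc t p) = 0 ↔ fP p = 0 := by
    rw [fP_sc]
    exact ⟨fun h => (mul_eq_zero.1 h).resolve_left (pow_ne_zero _ ht), fun h => by rw [h, mul_zero]⟩
  have h4 : nJp (sc t p) = 0 ↔ nJp p = 0 := by
    rw [nJp_sc]
    exact ⟨fun h => (mul_eq_zero.1 h).resolve_left (pow_ne_zero _ (norm_ne_zero_iff.2 ht)),
      fun h => by rw [h, mul_zero]⟩
  unfold Zh
  simp only [mem_ofPred_eq]
  rw [h3, h4, h2]
  simp only [hm, hp, true_and]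

/-- every point of the cone can be moved to `1/4 ≤ ‖z‖ ≤ 1`, `∑ ‖x i‖ ^ 2 = 1` -/
theorem exists_normal {p : V4} (hp : p ∈ Mh) : ∃ n : ℤ, ∃ t : ℂ, t ≠ 0 ∧
    1 / 4 ≤ ‖(sc t (gG n p)).1‖ ∧ ‖(sc t (gG n p)).1‖ ≤ 1 ∧ ∑ i, ‖(sc t (gG n p)).2 i‖ ^ 2 = 1 := by
  have hz : 0 < ‖p.1‖ := norm_pos_iff.2 hp.1
  obtain ⟨n, hn1, hn2⟩ := exists_mem_Ico_zpow hz (show (1 : ℝ) < 4 by norm_num)
  have h4 : (0 : ℝ) < 4 ^ (n + 1) := by positivity
  have hq : ‖(gG (n + 1) p).1‖ = ‖p.1‖ / 4 ^ (n + 1) := by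
    rw [gG_fst, norm_mul, norm_zpow, norm_tau, one_div, inv_zpow, div_eq_inv_mul]
  have hm : gG (n + 1) p ∈ Mh := gG_mem hp
  set q : V4 := gG (n + 1) p with hqd
  have hS : 0 < ∑ i, ‖q.2 i‖ ^ 2 := by
    obtain ⟨i, hi⟩ := Function.ne_iff.1 hm.2
    refine Finset.sum_pos' (fun j _ => by positivity) ⟨i, Finset.mem_univ _, ?_⟩
    have : 0 < ‖q.2 i‖ := norm_pos_iff.2 hi
    positivity
  set S : ℝ := ∑ i, ‖q.2 i‖ ^ 2 with hSd
  have hsq : 0 < Real.sqrt S := Real.sqrt_pos.2 hS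
  refine ⟨n + 1, (((Real.sqrt S)⁻¹ : ℝ) : ℂ), ?_, ?_, ?_, ?_⟩
  · exact_mod_cast (inv_pos.2 hsq).ne'
  · change 1 / 4 ≤ ‖q.1‖
    rw [hq, le_div_iff₀ h4, zpow_add₀ (by norm_num : (4 : ℝ) ≠ 0), zpow_one]
    linarith
  · change ‖q.1‖ ≤ 1
    rw [hq, div_le_one h4]
    exact hn2.le
  · have : ∀ i, ‖(sc (((Real.sqrt S)⁻¹ : ℝ) : ℂ) q).2 i‖ ^ 2 = S⁻¹ * ‖q.2 i‖ ^ 2 := by
      intro i
      change ‖(((Real.sqrt S)⁻¹ : ℝ) : ℂ) * q.2 i‖ ^ 2 = S⁻¹ * ‖q.2 i‖ ^ 2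
      rw [norm_mul, Complex.norm_real, Real.norm_of_nonneg (inv_pos.2 hsq).le, mul_pow, inv_pow,
        Real.sq_sqrt hS.le]
    rw [Finset.sum_congr rfl (fun i _ => this i), ← Finset.mul_sum, ← hSd]
    exact inv_mul_cancel₀ hS.ne'

/-! positivity and simple relations -/

theorem a2_nonneg (p : V4) : 0 ≤ a2 p := by
  unfold a2
  positivity

theorem nE_nonneg (p : V4) : 0 ≤ nE p := by
  unfold nE
  positivity

theorem nN_eq (p : V4) : nN p = nE p + a2 p := rfl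

theorem nN_pos {p : V4} (hp : p ∈ Mh) : 0 < nN p := by
  rw [nN_eq]
  have hE := nE_nonneg p
  have hA := a2_nonneg p
  by_contra hcon
  have hE0 : nE p = 0 := by linarith
  have hA0 : a2 p = 0 := by linarith
  apply hp.2
  unfold nE at hE0
  unfold a2 at hA0
  have h0 : ‖p.2 0‖ ^ 2 = 0 := by nlinarith [sq_nonneg ‖p.2 0‖, sq_nonneg ‖p.2 1‖]
  have h1 : ‖p.2 1‖ ^ 2 = 0 := by nlinarith [sq_nonneg ‖p.2 0‖, sq_nonneg ‖p.2 1‖]
  have h2 : ‖p.2 2‖ ^ 2 = 0 := (mul_eq_zero.1 hA0).resolve_right (Real.exp_pos _).ne'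
  funext i
  fin_cases i
  · exact norm_eq_zero.1 (pow_eq_zero_iff two_ne_zero |>.1 h0)
  · exact norm_eq_zero.1 (pow_eq_zero_iff two_ne_zero |>.1 h1)
  · exact norm_eq_zero.1 (pow_eq_zero_iff two_ne_zero |>.1 h2)

theorem nJp_nonneg (p : V4) : 0 ≤ nJp p := by
  unfold nJp
  positivity

theorem Iv.nN_nonneg (p : V4) : 0 ≤ nN p := by
  rw [nN_eq]
  exact add_nonneg (nE_nonneg p) (a2_nonneg p)

theorem nB_nonneg (p : V4) : 0 ≤ nB p := by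
  unfold nB
  have := nN_nonneg p
  positivity

/-- in the tube `nE > 0` -/
theorem nE_pos {p : V4} (hp : p ∈ Mh) {d : ℝ} (h : a2 p ≤ d * nE p) : 0 < nE p := by
  rcases (nE_nonneg p).lt_or_eq with h1 | h1
  · exact h1
  · exfalso
    rw [← h1, mul_zero] at h
    have h2 := nN_pos hp
    rw [nN_eq] at h2
    linarith

/-- `J = a2 ^ 2 N` when `J' = nB` etc. -/
theorem nJ_of_nB (p : V4) : ‖p.2 2‖ ^ 2 * nB p = a2 p ^ 2 * nN p := by
  unfold nB a2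
  have e4 : Real.exp (4 * qq p.1) = Real.exp (2 * qq p.1) ^ 2 := by
    rw [← Real.exp_nat_mul]
    norm_num
    ring
  rw [e4]
  ring

theorem Iv.th_one : th 1 = 0 := (th_eq_zero_iff one_ne_zero).2 ⟨0, by rw [zpow_zero]⟩

theorem Iv.thb_aa_one : thb aa 1 = 1 := by
  refine thb_one norm_aa ?_
  have := aa_zpow_ne (n := 1) one_ne_zero
  rwa [zpow_one] at this

theorem Iv.Th_one : Th 1 = 1 := by
  unfold Th
  rw [thb_aa_one, one_pow]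

/-- `fQ` in the fibre `z = 1` -/
theorem Iv.fQ_one (x : Fin 3 → ℂ) : fQ (1, x) = x 0 * x 2 - (x 1 - x 0) ^ 2 := by
  unfold fQ
  have h6 : thb (aa ^ (-6 : ℤ)) 1 = 1 := thb_one (norm_aa_zpow _) (aa_zpow_ne (by norm_num))
  have h2 : thb (aa ^ (-2 : ℤ)) 1 = 1 := thb_one (norm_aa_zpow _) (aa_zpow_ne (by norm_num))
  have h2' : thb (aa ^ 2) 1 = 1 := by
    refine thb_one (by rw [norm_pow, norm_aa, one_pow]) ?_
    have := aa_zpow_ne (n := 2) two_ne_zero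
    exact_mod_cast this
  simp only []
  rw [thb_aa_one, h6, h2, h2']
  ring

theorem Iv.nJp_zero {p : V4} (hp : p ∈ Mh) (h : nJp p = 0) : th p.1 = 0 ∧ fQ p = 0 := by
  unfold nJp at h
  have hN := nN_pos hp
  have h1 : ‖th p.1‖ ^ 2 * nN p ^ 2 = 0 := by
    nlinarith [sq_nonneg ‖fQ p‖, mul_nonneg (sq_nonneg ‖th p.1‖) (sq_nonneg (nN p))]
  have h2 : ‖fQ p‖ ^ 2 = 0 := by
    nlinarith [sq_nonneg ‖fQ p‖, mul_nonneg (sq_nonneg ‖th p.1‖) (sq_nonneg (nN p))]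
  refine ⟨?_, norm_eq_zero.1 (pow_eq_zero_iff two_ne_zero |>.1 h2)⟩
  have h3 := (mul_eq_zero.1 h1).resolve_right (pow_ne_zero 2 hN.ne')
  exact norm_eq_zero.1 (pow_eq_zero_iff two_ne_zero |>.1 h3)

/-- points with `J' = 0` are moved to the fibre `z = 1` -/
theorem Iv.nJp_move {p : V4} (hp : p ∈ Mh) (h : nJp p = 0) : ∃ n : ℤ, ∃ x : Fin 3 → ℂ, x ≠ 0 ∧
    p = gG n (1, x) ∧ x 0 * x 2 = (x 1 - x 0) ^ 2 ∧ (p.2 2 = 0 → x 2 = 0) := by
  obtain ⟨h1, h2⟩ := nJp_zero hp h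
  obtain ⟨n, hn⟩ := (th_eq_zero_iff hp.1).1 h1
  have hm : gG (-n) p ∈ Mh := gG_mem hp
  have hf : (gG (-n) p).1 = 1 := by
    rw [gG_fst, hn, ← zpow_add₀ tau_ne, neg_add_cancel, zpow_zero]
  have hpe : gG (-n) p = (1, (gG (-n) p).2) := Prod.ext hf rfl
  have hq : fQ (gG (-n) p) = 0 := by
    have := norm_fQ_gG (-n) hp.1
    rw [h2, norm_zero] at this
    exact norm_eq_zero.1 ((mul_eq_zero.1 this).resolve_right (norm_ne_zero_iff.2 (cc_ne hp.1)))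
  refine ⟨n, (gG (-n) p).2, hm.2, ?_, ?_, ?_⟩
  · rw [← hpe, ← gG_add n (-n) hp.1, add_neg_cancel, gG_zero]
  · rw [hpe, fQ_one] at hq
    exact sub_eq_zero.1 hq
  · intro h3
    rw [gG_2, h3, mul_zero]

/-- on `S` (`x2 = 0`): `J' = 0` iff the point is equivalent to the tangency point -/
theorem nJp_S {p : V4} (hp : p ∈ Mh) (h2 : p.2 2 = 0) (h : nJp p = 0) :
    ∃ n : ℤ, ∃ t : ℂ, t ≠ 0 ∧ p = sc t (gG n (1, ![1, 1, 0])) := by
  obtain ⟨n, x, hx, hpx, hq, h3⟩ := nJp_move hp h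
  have hx2 := h3 h2
  rw [hx2, mul_zero] at hq
  have h01 : x 1 = x 0 := sub_eq_zero.1 (pow_eq_zero_iff two_ne_zero |>.1 hq.symm)
  have h0 : x 0 ≠ 0 := by
    intro h0
    apply hx
    funext i
    fin_cases i
    · exact h0
    · exact h01.trans h0
    · exact hx2
  refine ⟨n, x 0, h0, ?_⟩
  rw [hpx, ← gG_sc]
  congr 1
  refine Prod.ext rfl ?_
  funext i
  fin_cases i
  · change x 0 = x 0 * 1
    ring
  · change x 1 = x 0 * 1
    rw [h01]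
    ring
  · change x 2 = x 0 * 0
    rw [hx2]
    ring

/-- points with `J' = 0` are equivalent to a point of the conic -/
theorem nJp_C {p : V4} (hp : p ∈ Mh) (h : nJp p = 0) :
    ∃ n : ℤ, ∃ t : ℂ, t ≠ 0 ∧
      (p = sc t (gG n (1, ![0, 0, 1])) ∨ ∃ s : ℂ, p = sc t (gG n (pC s))) := by
  obtain ⟨n, x, hx, hpx, hq, -⟩ := nJp_move hp h
  by_cases h0 : x 0 = 0
  · rw [h0, zero_mul, sub_zero] at hq
    have h1 : x 1 = 0 := pow_eq_zero_iff two_ne_zero |>.1 hq.symm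
    have h2 : x 2 ≠ 0 := by
      intro h2
      apply hx
      funext i
      fin_cases i
      · exact h0
      · exact h1
      · exact h2
    refine ⟨n, x 2, h2, Or.inl ?_⟩
    rw [hpx, ← gG_sc]
    congr 1
    refine Prod.ext rfl ?_
    funext i
    fin_cases i
    · change x 0 = x 2 * 0
      rw [h0]
      ring
    · change x 1 = x 2 * 0
      rw [h1]
      ring
    · change x 2 = x 2 * 1
      ring
  · refine ⟨n, x 0, h0, Or.inr ⟨(x 1 - x 0) / x 0, ?_⟩⟩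
    rw [hpx, ← gG_sc]
    congr 1
    refine Prod.ext rfl ?_
    funext i
    fin_cases i
    · change x 0 = x 0 * 1
      ring
    · change x 1 = x 0 * (1 + (x 1 - x 0) / x 0)
      field_simp
      ring
    · change x 2 = x 0 * ((x 1 - x 0) / x 0) ^ 2
      rw [div_pow, ← hq]
      field_simp

/-- values at the conic -/
theorem fQ_pC (s : ℂ) : fQ (pC s) = 0 := by
  unfold pC
  rw [fQ_one]
  change 1 * s ^ 2 - (1 + s - 1) ^ 2 = 0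
  ring

theorem fP_pC (s : ℂ) : fP (pC s) = 1 + s + s ^ 8 := by
  unfold fP pC
  change (1 : ℂ) ^ 3 * (1 + s) + Th 1 * (s ^ 2) ^ 4 = 1 + s + s ^ 8
  rw [Th_one]
  ring

theorem nJp_pC (s : ℂ) : nJp (pC s) = 0 := by
  unfold nJp
  have : (pC s).1 = 1 := rfl
  rw [fQ_pC, this, th_one, norm_zero]
  ring

theorem Iv.pC_mem (s : ℂ) : pC s ∈ Mh := by
  refine ⟨one_ne_zero, fun h => ?_⟩
  have := congrFun h 0
  exact one_ne_zero this

/-- points of `Zh` are equivalent to `pC t` with `t` a root -/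
theorem Zh_iff {p : V4} (hp : p ∈ Mh) :
    p ∈ Zh ↔ ∃ n : ℤ, ∃ t : ℂ, t ≠ 0 ∧ ∃ s ∈ Rt, p = sc t (gG n (pC s)) := by
  constructor
  · rintro ⟨-, hP, hJ, -⟩
    obtain ⟨n, t, ht, h | ⟨s, h⟩⟩ := nJp_C hp hJ
    · exfalso
      have hne : ((1, ![0, 0, 1]) : V4).1 ≠ 0 := one_ne_zero
      rw [h, fP_sc, mul_eq_zero] at hP
      have h1 := hP.resolve_left (pow_ne_zero 4 ht)
      rw [fP_gG_iff n hne] at h1
      have h2 : fP ((1, ![0, 0, 1]) : V4) = 1 := by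
        unfold fP
        change (0 : ℂ) ^ 3 * 0 + Th 1 * 1 ^ 4 = 1
        rw [Th_one]
        ring
      rw [h2] at h1
      exact one_ne_zero h1
    · refine ⟨n, t, ht, s, ?_, h⟩
      rw [h, fP_sc, mul_eq_zero] at hP
      have h1 := hP.resolve_left (pow_ne_zero 4 ht)
      rw [fP_gG_iff n (pC_mem s).1, fP_pC] at h1
      exact h1
  · rintro ⟨n, t, ht, s, hs, h⟩
    have hm := pC_mem s
    rw [h, Zh_sc ht (gG_mem hm), Zh_gG hm]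
    refine ⟨hm, ?_, nJp_pC s, ?_⟩
    · rw [fP_pC]
      exact hs
    · change s ^ 2 ≠ 0
      refine pow_ne_zero 2 ?_
      rintro rfl
      have : (1 : ℂ) + 0 + 0 ^ 8 = 0 := hs
      norm_num at this

end RG
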