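import Pool.Agent.H14.RG.FnDefs

/-!
# Module D: the theta function and the number `aa`
-/

open scoped Topology
open Set Metric

namespace RG

theorem tau_ne : tau ≠ 0 := by
  unfold tau
  norm_num

theorem norm_tau : ‖tau‖ = 1 / 4 := by
  unfold tau
  rw [norm_div, norm_one, Complex.norm_ofNat]

theorem aa_eq : aa = Complex.exp (((2 * Real.pi * Real.sqrt 2 : ℝ) : ℂ) * Complex.I) := by
  unfold aa
  congr 1
  push_cast
  ring

theorem norm_aa : ‖aa‖ = 1 := by
  rw [aa_eq]
  exact Complex.norm_exp_ofReal_mul_I _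

theorem norm_eta : ‖eta‖ = 1 := by
  unfold eta
  rw [norm_pow, norm_aa, one_pow]

theorem aa_zpow (n : ℤ) :
    aa ^ n = Complex.exp (((n * (2 * Real.pi * Real.sqrt 2) : ℝ) : ℂ) * Complex.I) := by
  rw [aa_eq, ← Complex.exp_int_mul]
  congr 1
  push_cast
  ring

theorem aa_zpow_ne {n : ℤ} (hn : n ≠ 0) : aa ^ n ≠ 1 := by
  intro h
  rw [aa_zpow, Complex.exp_eq_one_iff] at h
  obtain ⟨m, hm⟩ := h
  have h1 : ((n * (2 * Real.pi * Real.sqrt 2) : ℝ) : ℂ) = ((m * (2 * Real.pi) : ℝ) : ℂ) := by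
    have h2 : (((n * (2 * Real.pi * Real.sqrt 2) : ℝ) : ℂ) - ((m * (2 * Real.pi) : ℝ) : ℂ)) *
        Complex.I = 0 := by
      rw [sub_mul, hm]
      push_cast
      ring
    rcases mul_eq_zero.1 h2 with h3 | h3
    · exact sub_eq_zero.1 h3
    · exact absurd h3 Complex.I_ne_zero
  have h2 : (n : ℝ) * (2 * Real.pi * Real.sqrt 2) = m * (2 * Real.pi) := by exact_mod_cast h1
  have hpi : (2 * Real.pi : ℝ) ≠ 0 := by positivity
  have h3 : (n : ℝ) * Real.sqrt 2 = m := by
    have : (2 * Real.pi) * ((n : ℝ) * Real.sqrt 2) = (2 * Real.pi) * m := by linarith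
    exact mul_left_cancel₀ hpi this
  have h4 := (irrational_sqrt_two.intCast_mul hn)
  exact h4.ne_int m h3

/-- the powers of `eta` with integral exponents are dense in the unit circle -/
theorem eta_dense_int (u : ℂ) (hu : ‖u‖ = 1) {ε : ℝ} (hε : 0 < ε) : ∃ n : ℤ, ‖eta ^ n - u‖ < ε := by
  have hirr : Irrational ((1 : ℝ) / (4 * Real.sqrt 2)) := by
    have h1 : Irrational (4 * Real.sqrt 2) := by
      have := irrational_sqrt_two.natCast_mul (m := 4) (by norm_num)
      simpa using this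
    simpa using h1.inv
  have hd := dense_addSubgroupClosure_pair_iff.2 hirr
  obtain ⟨t, ht⟩ : ∃ t : ℝ, u = Complex.exp (((2 * Real.pi * t : ℝ) : ℂ) * Complex.I) := by
    refine ⟨Complex.arg u / (2 * Real.pi), ?_⟩
    have h1 : (2 * Real.pi * (Complex.arg u / (2 * Real.pi)) : ℝ) = Complex.arg u := by
      field_simp
    rw [h1]
    have := Complex.norm_mul_exp_arg_mul_I u
    rw [hu] at this
    simpa using this.symm
  have hc : Continuous fun s : ℝ => Complex.exp (((2 * Real.pi * s : ℝ) : ℂ) * Complex.I) := by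
    fun_prop
  have hopen : IsOpen {s : ℝ | ‖Complex.exp (((2 * Real.pi * s : ℝ) : ℂ) * Complex.I) - u‖ < ε} :=
    isOpen_lt (continuous_norm.comp (hc.sub continuous_const)) continuous_const
  obtain ⟨s, hs1, hs2⟩ := hd.inter_open_nonempty _ hopen ⟨t, by
    show ‖Complex.exp (((2 * Real.pi * t : ℝ) : ℂ) * Complex.I) - u‖ < ε
    rw [← ht, sub_self, norm_zero]
    exact hε⟩
  obtain ⟨m, n, hmn⟩ := AddSubgroup.mem_closure_pair.1 hs2
  refine ⟨n, ?_⟩
  have hs : s = (m : ℝ) + n * (4 * Real.sqrt 2) := by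
    rw [← hmn]
    simp
  have hexp : eta ^ n = Complex.exp (((2 * Real.pi * s : ℝ) : ℂ) * Complex.I) := by
    have h1 : eta ^ n = aa ^ (4 * n) := by
      unfold eta
      rw [zpow_mul]
      norm_cast
    rw [h1, aa_zpow, hs]
    have h2 : (((2 * Real.pi * ((m : ℝ) + n * (4 * Real.sqrt 2)) : ℝ)) : ℂ) * Complex.I =
        ((((4 * n : ℤ) : ℝ) * (2 * Real.pi * Real.sqrt 2) : ℝ) : ℂ) * Complex.I +
          m * (2 * Real.pi * Complex.I) := by
      push_cast
      ring
    rw [h2, Complex.exp_add, Complex.exp_int_mul_two_pi_mul_I, mul_one]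
  rw [hexp]
  exact hs1

/-- the powers of `eta` are dense in the unit circle -/
theorem eta_dense (u : ℂ) (hu : ‖u‖ = 1) {ε : ℝ} (hε : 0 < ε) : ∃ n : ℕ, ‖eta ^ n - u‖ < ε := by
  obtain ⟨n, hn⟩ := eta_dense_int u hu (half_pos hε)
  have hne : eta ≠ 0 := by
    intro h
    have := norm_eta
    rw [h, norm_zero] at this
    exact zero_ne_one this
  -- a large return time
  obtain ⟨a, -, φ, hφ, hlim⟩ := (isCompact_sphere (0 : ℂ) 1).tendsto_subseq
    (x := fun k : ℕ => eta ^ k) (fun k => by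
      rw [mem_sphere, dist_zero_right, norm_pow, norm_eta, one_pow])
  obtain ⟨K, hK⟩ := Metric.tendsto_atTop.1 hlim (ε / 4) (by linarith)
  have hK1 := hK K le_rfl
  have hK2 := hK (K + n.natAbs) (by omega)
  have hgrow : φ K + n.natAbs ≤ φ (K + n.natAbs) := by
    have : ∀ j, φ K + j ≤ φ (K + j) := by
      intro j
      induction j with
      | zero => exact le_rfl
      | succ j ih =>
        have := hφ (Nat.lt_succ_self (K + j))
        have h2 : K + (j + 1) = (K + j).succ := rfl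
        rw [h2]
        omega
    exact this _
  set N : ℕ := φ (K + n.natAbs) - φ K with hN
  have hNn : n.natAbs ≤ N := by omega
  have hret : ‖eta ^ N - 1‖ < ε / 2 := by
    have h1 : ‖eta ^ φ (K + n.natAbs) - eta ^ φ K‖ < ε / 2 := by
      have h2 : eta ^ φ (K + n.natAbs) - eta ^ φ K =
          (eta ^ φ (K + n.natAbs) - a) - (eta ^ φ K - a) := by ring
      rw [h2]
      refine (norm_sub_le _ _).trans_lt ?_
      simp only [Function.comp_apply, dist_eq_norm] at hK1 hK2
      linarith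
    have h3 : eta ^ φ (K + n.natAbs) - eta ^ φ K = eta ^ φ K * (eta ^ N - 1) := by
      have : φ (K + n.natAbs) = φ K + N := by omega
      rw [this, pow_add]
      ring
    rw [h3, norm_mul, norm_pow, norm_eta, one_pow, one_mul] at h1
    exact h1
  have hnn : 0 ≤ n + N := by omega
  refine ⟨(n + N).toNat, ?_⟩
  have h4 : eta ^ (n + N).toNat = eta ^ n * eta ^ N := by
    rw [← zpow_natCast, Int.toNat_of_nonneg hnn, zpow_add₀ hne, zpow_natCast]
  rw [h4]
  have h5 : eta ^ n * eta ^ N - u = eta ^ n * (eta ^ N - 1) + (eta ^ n - u) := by ring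
  rw [h5]
  refine (norm_add_le _ _).trans_lt ?_
  rw [norm_mul, norm_zpow, norm_eta, one_zpow, one_mul]
  linarith

theorem summable_tau (R : ℝ) : Summable fun m : ℕ => (1 / 4 : ℝ) ^ m * R :=
  (summable_geometric_of_lt_one (by norm_num) (by norm_num)).mul_right R

theorem norm_tau_mul (m : ℕ) (z : ℂ) : ‖-(tau ^ m * z)‖ = (1 / 4 : ℝ) ^ m * ‖z‖ := by
  rw [norm_neg, norm_mul, norm_pow, norm_tau]

theorem thE_multipliable (z : ℂ) : Multipliable fun m : ℕ => (1 - tau ^ m * z) := by
  have := multipliable_one_add_of_summable (f := fun m : ℕ => -(tau ^ m * z)) (by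
    simp only [norm_tau_mul]
    exact summable_tau ‖z‖)
  simpa [sub_eq_add_neg] using this

theorem thE_diffOn (R : ℝ) : DifferentiableOn ℂ thE (ball 0 R) := by
  have h := Summable.hasProdLocallyUniformlyOn_nat_one_add (K := ball (0 : ℂ) R)
    (f := fun (m : ℕ) (z : ℂ) => -(tau ^ m * z)) isOpen_ball (summable_tau R)
    (Filter.Eventually.of_forall fun m z hz => by
      rw [norm_tau_mul]
      have : ‖z‖ < R := by simpa using hz
      exact mul_le_mul_of_nonneg_left this.le (by positivity))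
    (fun m => by fun_prop)
  have h2 := h.differentiableOn (Filter.Eventually.of_forall fun s => by
    have : ∀ i ∈ s, DifferentiableOn ℂ (fun z : ℂ => 1 + -(tau ^ i * z)) (ball 0 R) :=
      fun i _ => by fun_prop
    simpa [Finset.prod_fn] using DifferentiableOn.finsetProd this) isOpen_ball
  have h3 : thE = fun z => ∏' m : ℕ, (1 + -(tau ^ m * z)) := by
    funext z
    unfold thE
    simp [sub_eq_add_neg]
  rw [h3]
  exact h2

theorem thE_analytic (z : ℂ) : AnalyticAt ℂ thE z := by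
  refine (thE_diffOn (‖z‖ + 1)).analyticAt (isOpen_ball.mem_nhds ?_)
  rw [mem_ball, dist_zero_right]
  linarith

theorem th_analytic {z : ℂ} (hz : z ≠ 0) : AnalyticAt ℂ th z := by
  have h1 : AnalyticAt ℂ (fun z : ℂ => tau / z) z := analyticAt_const.div analyticAt_id hz
  exact (thE_analytic z).mul ((thE_analytic (tau / z)).comp h1)

theorem thE_rec (z : ℂ) : thE z = (1 - z) * thE (tau * z) := by
  unfold thE
  have h := tprod_eq_zero_mul' (f := fun m : ℕ => (1 - tau ^ m * z)) (by
    have := thE_multipliable (tau * z)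
    refine this.congr fun m => ?_
    ring)
  rw [h]
  simp only [pow_zero, one_mul]
  congr 2
  funext m
  ring

theorem thE_zero : thE 0 = 1 := by
  unfold thE
  simp

theorem thE_rec_n (n : ℕ) (z : ℂ) :
    thE z = (∏ m ∈ Finset.range n, (1 - tau ^ m * z)) * thE (tau ^ n * z) := by
  induction n with
  | zero => simp
  | succ n ih =>
    rw [Finset.prod_range_succ, mul_assoc, ih, thE_rec (tau ^ n * z)]
    congr 3
    ring

theorem thE_eq_zero_iff (z : ℂ) : thE z = 0 ↔ ∃ m : ℕ, tau ^ m * z = 1 := by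
  constructor
  · intro h
    -- `thE` does not vanish near zero
    have hcont : Filter.Tendsto (fun n : ℕ => thE (tau ^ n * z)) Filter.atTop (𝓝 1) := by
      have h1 : Filter.Tendsto (fun n : ℕ => tau ^ n * z) Filter.atTop (𝓝 0) := by
        have := (tendsto_pow_atTop_nhds_zero_of_norm_lt_one (x := tau) (by
          rw [norm_tau]; norm_num)).mul_const z
        simpa using this
      have h2 := ((thE_analytic 0).continuousAt.tendsto).comp h1
      rw [thE_zero] at h2
      exact h2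
    have h3 : ∀ᶠ n : ℕ in Filter.atTop, thE (tau ^ n * z) ≠ 0 :=
      hcont.eventually_ne one_ne_zero
    obtain ⟨n, hn⟩ := h3.exists
    rw [thE_rec_n n z] at h
    rcases mul_eq_zero.1 h with h4 | h4
    · obtain ⟨m, _, hm⟩ := Finset.prod_eq_zero_iff.1 h4
      exact ⟨m, (sub_eq_zero.1 hm).symm⟩
    · exact absurd h4 hn
  · rintro ⟨m, hm⟩
    rw [thE_rec_n (m + 1) z, Finset.prod_range_succ, hm]
    simp

theorem th_tau {z : ℂ} (hz : z ≠ 0) : th (tau * z) = - z⁻¹ * th z := by
  unfold th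
  have h1 : tau / (tau * z) = z⁻¹ := by
    have := tau_ne
    field_simp
  have h2 : thE (z⁻¹) = (1 - z⁻¹) * thE (tau / z) := by
    rw [thE_rec]
    rfl
  rw [h1, h2, thE_rec z]
  have h3 : (1 - z⁻¹) = - z⁻¹ * (1 - z) := by
    field_simp
    ring
  rw [h3]
  ring

theorem th_eq_zero_iff {z : ℂ} (hz : z ≠ 0) : th z = 0 ↔ ∃ n : ℤ, z = tau ^ n := by
  have ht := tau_ne
  unfold th
  rw [mul_eq_zero, thE_eq_zero_iff, thE_eq_zero_iff]
  constructor
  · rintro (⟨m, hm⟩ | ⟨m, hm⟩)
    · refine ⟨-(m : ℤ), ?_⟩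
      rw [zpow_neg, zpow_natCast]
      exact eq_inv_of_mul_eq_one_right hm
    · refine ⟨(m : ℤ) + 1, ?_⟩
      rw [zpow_add₀ ht, zpow_natCast, zpow_one]
      field_simp at hm
      exact hm.symm
  · rintro ⟨n, rfl⟩
    rcases le_or_gt n 0 with hn | hn
    · left
      obtain ⟨m, hm⟩ := Int.eq_ofNat_of_zero_le (neg_nonneg.2 hn)
      refine ⟨m, ?_⟩
      have : n = -(m : ℤ) := by omega
      rw [this, zpow_neg, zpow_natCast, mul_inv_cancel₀ (pow_ne_zero _ ht)]
    · right
      obtain ⟨m, hm⟩ := Int.eq_ofNat_of_zero_le (show 0 ≤ n - 1 by omega)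
      refine ⟨m, ?_⟩
      have : n = (m : ℤ) + 1 := by omega
      rw [this, zpow_add₀ ht, zpow_natCast, zpow_one]
      field_simp

theorem thE_tau_ne : thE tau ≠ 0 := by
  intro h
  rw [thE_eq_zero_iff] at h
  obtain ⟨m, hm⟩ := h
  have h1 : ‖tau ^ m * tau‖ = 1 := by rw [hm, norm_one]
  rw [← pow_succ, norm_pow, norm_tau] at h1
  have h2 : (1 / 4 : ℝ) ^ (m + 1) < 1 := pow_lt_one₀ (by norm_num) (by norm_num) (by omega)
  linarith

theorem th_deriv : deriv th 1 ≠ 0 := by
  have h1 : th = fun z => (1 - z) * (thE (tau * z) * thE (tau / z)) := by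
    funext z
    unfold th
    rw [thE_rec z]
    ring
  have hG : DifferentiableAt ℂ (fun z : ℂ => thE (tau * z) * thE (tau / z)) 1 := by
    have a1 : AnalyticAt ℂ (fun z : ℂ => tau * z) 1 := analyticAt_const.mul analyticAt_id
    have a2 : AnalyticAt ℂ (fun z : ℂ => tau / z) 1 := analyticAt_const.div analyticAt_id one_ne_zero
    exact (((thE_analytic (tau * 1)).comp a1).mul ((thE_analytic (tau / 1)).comp a2)).differentiableAt
  have hF : HasDerivAt (fun z : ℂ => 1 - z) (-1) 1 := by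
    have := (hasDerivAt_id (1 : ℂ)).const_sub 1
    exact this
  have h2 := hF.mul hG.hasDerivAt
  have h3 : HasDerivAt th (-1 * (thE (tau * 1) * thE (tau / 1)) + (1 - 1) *
      deriv (fun z : ℂ => thE (tau * z) * thE (tau / z)) 1) 1 := by
    rw [h1]
    exact h2
  rw [h3.deriv]
  simp only [mul_one, div_one, sub_self, zero_mul, add_zero]
  rw [neg_one_mul]
  exact neg_ne_zero.2 (mul_ne_zero thE_tau_ne thE_tau_ne)

/-- for `‖b‖ = 1`, `b ≠ 1`: `thb b` is a normalised theta function -/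
theorem thb_analytic {b z : ℂ} (hb : ‖b‖ = 1) (hz : z ≠ 0) : AnalyticAt ℂ (thb b) z := by
  have hb0 : b ≠ 0 := by
    rintro rfl
    rw [norm_zero] at hb
    exact zero_ne_one hb
  have h1 : AnalyticAt ℂ (fun z : ℂ => z / b) z := analyticAt_id.div analyticAt_const hb0
  have h2 : AnalyticAt ℂ (fun z : ℂ => th (z / b)) z :=
    AnalyticAt.comp (g := th) (f := fun w : ℂ => w / b) (x := z)
      (th_analytic (div_ne_zero hz hb0)) h1
  have h3 : thb b = fun z => (th (1 / b))⁻¹ * th (z / b) := by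
    funext w
    unfold thb
    rw [div_eq_inv_mul]
  rw [h3]
  exact analyticAt_const.mul h2

theorem th_inv_ne {b : ℂ} (hb : ‖b‖ = 1) (hb1 : b ≠ 1) : th (1 / b) ≠ 0 := by
  have hb0 : b ≠ 0 := by
    rintro rfl
    rw [norm_zero] at hb
    exact zero_ne_one hb
  intro h
  rw [th_eq_zero_iff (div_ne_zero one_ne_zero hb0)] at h
  obtain ⟨n, hn⟩ := h
  have h1 : ‖(1 : ℂ) / b‖ = 1 := by rw [norm_div, norm_one, hb, div_one]
  rw [hn, norm_zpow, norm_tau] at h1
  have h2 : n = 0 := by
    by_contra hne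
    rcases lt_or_gt_of_ne hne with h3 | h3
    · have := one_lt_zpow_of_neg₀ (a := (1 / 4 : ℝ)) (by norm_num) (by norm_num) h3
      linarith
    · have := zpow_lt_one₀ (a := (1 / 4 : ℝ)) (by norm_num) (by norm_num) h3
      linarith
  rw [h2, zpow_zero] at hn
  apply hb1
  field_simp at hn
  exact hn.symm

theorem thb_one {b : ℂ} (hb : ‖b‖ = 1) (hb1 : b ≠ 1) : thb b 1 = 1 := by
  unfold thb
  exact div_self (th_inv_ne hb hb1)

theorem thb_tau {b z : ℂ} (hb : ‖b‖ = 1) (hz : z ≠ 0) :
    thb b (tau * z) = - (b / z) * thb b z := by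
  have hb0 : b ≠ 0 := by
    rintro rfl
    rw [norm_zero] at hb
    exact zero_ne_one hb
  unfold thb
  have h1 : tau * z / b = tau * (z / b) := by ring
  rw [h1, th_tau (div_ne_zero hz hb0), inv_div]
  ring

end RG
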