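import Pool.Agent.H14.RG.FnDefs2
import Pool.Agent.H14.RG.Theta

/-!
# Module E1a: the action and the scaling of all the functions on the cone
-/

open scoped Topology ContDiff
open Set Metric

namespace RG

theorem isOpen_O4 : IsOpen O4 := isOpen_ne_fun continuous_fst continuous_const

theorem isOpen_Mh : IsOpen Mh :=
  (isOpen_ne_fun continuous_fst continuous_const).inter
    (isOpen_ne_fun continuous_snd continuous_const)

theorem Mh_sub_O4 : Mh ⊆ O4 := fun _ hp => hp.1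

theorem cc_zero (z : ℂ) : cc 0 z = 1 := by
  simp [cc]

theorem cc_one (z : ℂ) : cc 1 z = -z := by
  simp [cc]

theorem cc_ne {n : ℤ} {z : ℂ} (hz : z ≠ 0) : cc n z ≠ 0 :=
  mul_ne_zero (zpow_ne_zero _ (neg_ne_zero.2 hz)) (zpow_ne_zero _ tau_ne)

theorem two_dvd (n : ℤ) : (2 : ℤ) ∣ n * (n - 1) := by
  have := Int.even_mul_pred_self n
  exact this.two_dvd

theorem half_add (m n : ℤ) : (m + n) * (m + n - 1) / 2 =
    m * (m - 1) / 2 + n * (n - 1) / 2 + m * n := by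
  obtain ⟨a, ha⟩ := two_dvd m
  obtain ⟨b, hb⟩ := two_dvd n
  have h : (m + n) * (m + n - 1) = 2 * (a + b + m * n) := by
    have : (m + n) * (m + n - 1) = m * (m - 1) + n * (n - 1) + 2 * (m * n) := by ring
    rw [this, ha, hb]; ring
  rw [h, ha, hb]
  omega

theorem cc_add (m n : ℤ) {z : ℂ} (hz : z ≠ 0) : cc (m + n) z = cc m (tau ^ n * z) * cc n z := by
  have hz' : (-z) ≠ 0 := neg_ne_zero.2 hz
  unfold cc
  rw [half_add, zpow_add₀ hz', zpow_add₀ tau_ne, zpow_add₀ tau_ne]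
  have h1 : (-(tau ^ n * z)) ^ m = tau ^ (m * n) * (-z) ^ m := by
    rw [← mul_neg, mul_zpow, ← zpow_mul, mul_comm n m]
  rw [h1]
  ring

theorem gG_zero (p : V4) : gG 0 p = p := by
  unfold gG
  rw [cc_zero, zpow_zero, zpow_zero, one_mul, one_mul, one_mul]
  refine Prod.ext rfl ?_
  funext i
  fin_cases i <;> rfl

theorem gG_add (m n : ℤ) {p : V4} (hp : p.1 ≠ 0) : gG (m + n) p = gG m (gG n p) := by
  unfold gG
  refine Prod.ext ?_ ?_
  · change tau ^ (m + n) * p.1 = tau ^ m * (tau ^ n * p.1)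
    rw [zpow_add₀ tau_ne]; ring
  · have heta : eta ≠ 0 := by
      intro h
      have := norm_eta
      rw [h, norm_zero] at this
      exact zero_ne_one this
    funext i
    fin_cases i
    · rfl
    · change eta ^ (m + n) * p.2 1 = eta ^ m * (eta ^ n * p.2 1)
      rw [zpow_add₀ heta]; ring
    · change cc (m + n) p.1 * p.2 2 = cc m (tau ^ n * p.1) * (cc n p.1 * p.2 2)
      rw [cc_add m n hp]; ring

theorem eta_ne : eta ≠ 0 := by
  intro h
  have := norm_eta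
  rw [h, norm_zero] at this
  exact zero_ne_one this

theorem gG_mem {n : ℤ} {p : V4} (hp : p ∈ Mh) : gG n p ∈ Mh := by
  refine ⟨mul_ne_zero (zpow_ne_zero _ tau_ne) hp.1, ?_⟩
  intro h
  apply hp.2
  have h0 : p.2 0 = 0 := congrFun h 0
  have h1 : eta ^ n * p.2 1 = 0 := congrFun h 1
  have h2 : cc n p.1 * p.2 2 = 0 := congrFun h 2
  have h1' : p.2 1 = 0 := (mul_eq_zero.1 h1).resolve_left (zpow_ne_zero _ eta_ne)
  have h2' : p.2 2 = 0 := (mul_eq_zero.1 h2).resolve_left (cc_ne hp.1)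
  funext i
  fin_cases i
  · exact h0
  · exact h1'
  · exact h2'

theorem sc_mem {t : ℂ} (ht : t ≠ 0) {p : V4} (hp : p ∈ Mh) : sc t p ∈ Mh :=
  ⟨hp.1, smul_ne_zero ht hp.2⟩

theorem gG_sc (n : ℤ) (t : ℂ) (p : V4) : gG n (sc t p) = sc t (gG n p) := by
  unfold gG sc
  refine Prod.ext rfl ?_
  funext i
  fin_cases i
  · rfl
  · change eta ^ n * (t * p.2 1) = t * (eta ^ n * p.2 1)
    ring
  · change cc n p.1 * (t * p.2 2) = t * (cc n p.1 * p.2 2)
    ring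

theorem sc_sc (s t : ℂ) (p : V4) : sc s (sc t p) = sc (s * t) p := by
  unfold sc
  refine Prod.ext rfl ?_
  exact smul_smul s t p.2

theorem cc_analytic (n : ℤ) {z : ℂ} (hz : z ≠ 0) : AnalyticAt ℂ (cc n) z := by
  unfold cc
  apply AnalyticAt.mul _ analyticAt_const
  have h : AnalyticAt ℂ (fun w : ℂ => w ^ n) (-z) := by
    apply (analyticAt_id).zpow
    exact neg_ne_zero.2 hz
  exact h.comp (analyticAt_id.neg)

theorem gG_analytic (n : ℤ) {p : V4} (hp : p.1 ≠ 0) : AnalyticAt ℂ (gG n) p := by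
  have hp1 : AnalyticAt ℂ (fun q : V4 => q.1) p := analyticAt_fst
  have hc : ∀ i : Fin 3, AnalyticAt ℂ (fun q : V4 => q.2 i) p := by
    intro i
    exact ((ContinuousLinearMap.proj (R := ℂ) (φ := fun _ : Fin 3 => ℂ) i).comp
      (ContinuousLinearMap.snd ℂ ℂ (Fin 3 → ℂ))).analyticAt p
  have hcc : AnalyticAt ℂ (fun q : V4 => cc n q.1) p := (cc_analytic n hp).comp hp1
  unfold gG
  apply AnalyticAt.prod
  · exact analyticAt_const.mul hp1
  · rw [analyticAt_pi_iff]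
    intro i
    fin_cases i
    · exact hc 0
    · exact analyticAt_const.mul (hc 1)
    · exact hcc.mul (hc 2)

/-- `qq` along the action -/
theorem qq_tau {z : ℂ} (hz : z ≠ 0) : qq (tau * z) = qq z - Real.log ‖z‖ := by
  have hn : ‖z‖ ≠ 0 := norm_ne_zero_iff.2 hz
  have hl : Real.log 4 ≠ 0 := (Real.log_pos (by norm_num)).ne'
  unfold qq
  have h1 : Real.log ‖tau * z‖ = Real.log ‖z‖ - Real.log 4 := by
    rw [norm_mul, norm_tau, Real.log_mul (by norm_num) hn, one_div, Real.log_inv]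
    ring
  rw [h1]
  field_simp
  ring

theorem log_tau_zpow (n : ℤ) {z : ℂ} (hz : z ≠ 0) :
    Real.log ‖tau ^ n * z‖ = Real.log ‖z‖ - n * Real.log 4 := by
  have hn : ‖z‖ ≠ 0 := norm_ne_zero_iff.2 hz
  rw [norm_mul, norm_zpow, norm_tau, Real.log_mul (zpow_ne_zero _ (by norm_num)) hn,
    Real.log_zpow, one_div, Real.log_inv]
  ring

theorem norm_cc_exp (n : ℤ) {z : ℂ} (hz : z ≠ 0) :
    ‖cc n z‖ * Real.exp (qq (tau ^ n * z)) = Real.exp (qq z) := by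
  have hn : ‖z‖ ≠ 0 := norm_ne_zero_iff.2 hz
  have hl : Real.log 4 ≠ 0 := (Real.log_pos (by norm_num)).ne'
  have hcc : 0 < ‖cc n z‖ := norm_pos_iff.2 (cc_ne hz)
  have h1 : Real.log ‖cc n z‖ = n * Real.log ‖z‖ - ((n * (n - 1) / 2 : ℤ) : ℝ) * Real.log 4 := by
    unfold cc
    rw [norm_mul, norm_zpow, norm_zpow, norm_neg, norm_tau,
      Real.log_mul (zpow_ne_zero _ hn) (zpow_ne_zero _ (by norm_num)), Real.log_zpow,
      Real.log_zpow, one_div, Real.log_inv]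
    ring
  have h2 : 2 * ((n * (n - 1) / 2 : ℤ) : ℝ) = n * (n - 1) := by
    have h3 : 2 * (n * (n - 1) / 2) = n * (n - 1) := Int.mul_ediv_cancel' (two_dvd n)
    exact_mod_cast h3
  rw [← Real.exp_log hcc, ← Real.exp_add]
  congr 1
  rw [h1]
  unfold qq
  rw [log_tau_zpow n hz]
  have h4 : ((n * (n - 1) / 2 : ℤ) : ℝ) = n * (n - 1) / 2 := by linarith
  rw [h4]
  field_simp
  ring

/-! scaling -/

theorem sc_apply (t : ℂ) (p : V4) (i : Fin 3) : (sc t p).2 i = t * p.2 i := rfl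

theorem sc_fst (t : ℂ) (p : V4) : (sc t p).1 = p.1 := rfl

theorem fP_sc (t : ℂ) (p : V4) : fP (sc t p) = t ^ 4 * fP p := by
  unfold fP
  simp only [sc_apply, sc_fst]
  ring

theorem fQ_sc (t : ℂ) (p : V4) : fQ (sc t p) = t ^ 2 * fQ p := by
  unfold fQ
  simp only [sc_apply, sc_fst]
  ring

theorem a2_sc (t : ℂ) (p : V4) : a2 (sc t p) = ‖t‖ ^ 2 * a2 p := by
  unfold a2
  simp only [sc_apply, sc_fst, norm_mul]
  ring

theorem nE_sc (t : ℂ) (p : V4) : nE (sc t p) = ‖t‖ ^ 2 * nE p := by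
  unfold nE
  simp only [sc_apply, norm_mul]
  ring

theorem nN_sc (t : ℂ) (p : V4) : nN (sc t p) = ‖t‖ ^ 2 * nN p := by
  unfold nN
  simp only [sc_apply, norm_mul, a2_sc]
  ring

theorem nJp_sc (t : ℂ) (p : V4) : nJp (sc t p) = ‖t‖ ^ 4 * nJp p := by
  unfold nJp
  rw [fQ_sc, nN_sc, sc_fst, norm_mul, norm_pow]
  ring

theorem nJ_sc (t : ℂ) (p : V4) : nJ (sc t p) = ‖t‖ ^ 6 * nJ p := by
  unfold nJ
  rw [nJp_sc, sc_apply, norm_mul]
  ring

theorem nP_sc (t : ℂ) (p : V4) : nP (sc t p) = ‖t‖ ^ 8 * nP p := by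
  unfold nP
  rw [fP_sc, norm_mul, norm_pow]
  ring

theorem nB_sc (t : ℂ) (p : V4) : nB (sc t p) = ‖t‖ ^ 4 * nB p := by
  unfold nB
  rw [nN_sc, sc_apply, sc_fst, norm_mul]
  ring

theorem sg_sc {t : ℂ} (ht : t ≠ 0) {p : V4} (h0 : p.2 0 ≠ 0) (h1 : p.2 1 ≠ 0) :
    sg (sc t p) = sg p := by
  have ht' : ‖t‖ ^ 2 ≠ 0 := pow_ne_zero 2 (norm_ne_zero_iff.2 ht)
  have h0' : ‖p.2 0‖ ^ 2 ≠ 0 := pow_ne_zero 2 (norm_ne_zero_iff.2 h0)
  have h1' : ‖p.2 1‖ ^ 2 ≠ 0 := pow_ne_zero 2 (norm_ne_zero_iff.2 h1)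
  unfold sg
  rw [sc_apply, sc_apply, norm_mul, norm_mul, mul_pow, mul_pow, Real.log_mul ht' h1',
    Real.log_mul ht' h0']
  ring

theorem k1_sc {t : ℂ} (ht : t ≠ 0) (p : V4) : k1 (sc t p) = k1 p := by
  have ht' : ‖t‖ ≠ 0 := norm_ne_zero_iff.2 ht
  unfold k1
  rw [nN_sc, nJ_sc, nP_sc]
  congr 1
  rw [mul_inv]
  field_simp

theorem k2_sc {t : ℂ} (ht : t ≠ 0) (p : V4) : k2 (sc t p) = k2 p := by
  have ht' : ‖t‖ ≠ 0 := norm_ne_zero_iff.2 ht
  unfold k2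
  rw [a2_sc, nJ_sc, nP_sc]
  congr 1
  rw [mul_inv]
  field_simp

end RG
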