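import Pool.Agent.H14.RG.LPshM

/-!
# Module M0: strict plurisubharmonicity
-/

open scoped Topology ContDiff
open Set Metric

namespace RG

variable {n : ℕ}

/-- `f - c ‖y‖ ^ 2` is psh near `x` -/
def StrictE (f : (Fin n → ℂ) → ℝ) (x : Fin n → ℂ) : Prop :=
  ∃ c > 0, ∃ W : Set (Fin n → ℂ), IsOpen W ∧ x ∈ W ∧ PshE (fun y => f y - c * ∑ k, ‖y k‖ ^ 2) W

/-- strict plus psh is strict -/
theorem StrictE.add {f g : (Fin n → ℂ) → ℝ} {x : Fin n → ℂ} (hf : StrictE f x)
    {W : Set (Fin n → ℂ)} (hW : IsOpen W) (hx : x ∈ W) (hg : PshE g W) :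
    StrictE (fun y => f y + g y) x := by
  obtain ⟨c, hc, W', hW', hx', h⟩ := hf
  refine ⟨c, hc, W' ∩ W, hW'.inter hW, ⟨hx', hx⟩, ?_⟩
  refine ((h.mono inter_subset_left).add (hg.mono inter_subset_right)).congr fun y _ => ?_
  ring

theorem StrictE.congr {f g : (Fin n → ℂ) → ℝ} {x : Fin n → ℂ} (hf : StrictE f x)
    (h : g =ᶠ[𝓝 x] f) : StrictE g x := by
  obtain ⟨c, hc, W', hW', hx', hp⟩ := hf
  obtain ⟨O, hO, hOo, hxO⟩ := _root_.eventually_nhds_iff.1 h
  refine ⟨c, hc, W' ∩ O, hW'.inter hOo, ⟨hx', hxO⟩, ?_⟩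
  refine (hp.mono inter_subset_left).congr fun y hy => ?_
  show g y - _ = f y - _
  rw [hO y hy.2]

theorem StrictE.mul_const {f : (Fin n → ℂ) → ℝ} {x : Fin n → ℂ} (hf : StrictE f x) {a : ℝ}
    (ha : 0 < a) : StrictE (fun y => a * f y) x := by
  obtain ⟨c, hc, W', hW', hx', hp⟩ := hf
  refine ⟨a * c, by positivity, W', hW', hx', ?_⟩
  refine (hp.mul_const ha.le).congr fun y _ => ?_
  ring

theorem ci_add {f g : ℂ → ℝ} {c : ℂ} {R : ℝ} (hf : CircleIntegrable f c R)
    (hg : CircleIntegrable g c R) : CircleIntegrable (fun z => f z + g z) c R := hf.add hg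

/-- mean value property of the real part of an analytic function -/
theorem avg_re {H : ℂ → ℂ} {c : ℂ} {R : ℝ} (hR : 0 < R) (hH : AnalyticOnNhd ℂ H (closedBall c R)) :
    Real.circleAverage (fun ζ => (H ζ).re) c R = (H c).re := by
  have h1 : InnerProductSpace.HarmonicOnNhd (fun ζ => (H ζ).re) (closedBall c |R|) := by
    rw [abs_of_pos hR]
    exact fun z hz => (hH z hz).harmonicAt_re
  exact InnerProductSpace.HarmonicOnNhd.circleAverage_eq h1

theorem normSq_add (a b : ℂ) : ‖a + b‖ ^ 2 = ‖a‖ ^ 2 + ‖b‖ ^ 2 + 2 * (starRingEnd ℂ a * b).re := by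
  rw [← Complex.normSq_eq_norm_sq, ← Complex.normSq_eq_norm_sq, ← Complex.normSq_eq_norm_sq,
    Complex.normSq_add]
  have : (a * (starRingEnd ℂ) b).re = (starRingEnd ℂ a * b).re := by
    simp [Complex.mul_re]
  rw [this]

theorem analytic_coord {γ : ℂ → Fin n → ℂ} {z : ℂ} (h : AnalyticAt ℂ γ z) (k : Fin n) :
    AnalyticAt ℂ (fun ζ => γ ζ k) z :=
  ((ContinuousLinearMap.proj (R := ℂ) (φ := fun _ : Fin n => ℂ) k).analyticAt _).comp h

/-- average of the square of the norm -/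
theorem avg_sq {γ : ℂ → Fin n → ℂ} {c : ℂ} {R : ℝ} (hR : 0 < R)
    (hγ : AnalyticOnNhd ℂ γ (closedBall c R)) :
    Real.circleAverage (fun ζ => ∑ k, ‖γ ζ k‖ ^ 2) c R =
      ∑ k, ‖γ c k‖ ^ 2 + Real.circleAverage (fun ζ => ∑ k, ‖γ ζ k - γ c k‖ ^ 2) c R := by
  set H : ℂ → ℂ := fun ζ => ∑ k, 2 * (starRingEnd ℂ (γ c k) * (γ ζ k - γ c k)) with hH
  have hHa : AnalyticOnNhd ℂ H (closedBall c R) := by
    intro z hz
    apply Finset.analyticAt_fun_sum
    intro k _
    exact analyticAt_const.mul (analyticAt_const.mul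
      ((analytic_coord (hγ z hz) k).sub analyticAt_const))
  have hc : ∀ k, ContinuousOn (fun ζ => γ ζ k) (closedBall c R) := fun k ζ hζ =>
    (analytic_coord (hγ ζ hζ) k).continuousAt.continuousWithinAt
  have h1 : CircleIntegrable (fun ζ => ∑ k, ‖γ ζ k - γ c k‖ ^ 2) c R := by
    apply ContinuousOn.circleIntegrable hR.le
    apply continuousOn_finsetSum
    intro k _
    exact (((hc k).mono sphere_subset_closedBall).sub continuousOn_const).norm.pow 2
  have h2 : CircleIntegrable (fun ζ => (H ζ).re) c R := by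
    apply ContinuousOn.circleIntegrable hR.le
    exact Complex.continuous_re.comp_continuousOn
      (hHa.continuousOn.mono sphere_subset_closedBall)
  have e1 : (fun ζ => ∑ k, ‖γ ζ k‖ ^ 2) = fun ζ => (∑ k, ‖γ c k‖ ^ 2) +
      (∑ k, ‖γ ζ k - γ c k‖ ^ 2 + (H ζ).re) := by
    funext ζ
    rw [hH]
    simp only [Complex.re_sum]
    rw [← Finset.sum_add_distrib, ← Finset.sum_add_distrib]
    apply Finset.sum_congr rfl
    intro k _
    have := normSq_add (γ c k) (γ ζ k - γ c k)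
    rw [add_sub_cancel] at this
    rw [this]
    have e2 : (2 * (starRingEnd ℂ (γ c k) * (γ ζ k - γ c k))).re =
        2 * (starRingEnd ℂ (γ c k) * (γ ζ k - γ c k)).re := by
      simp
    rw [e2]
    ring
  have h3 : H c = 0 := by
    rw [hH]
    simp
  rw [e1, Real.circleAverage_fun_add (circleIntegrable_const _ _ _) (ci_add h1 h2),
    Real.circleAverage_const, Real.circleAverage_fun_add h1 h2, avg_re hR hHa, h3, Complex.zero_re,
    add_zero]

/-- criterion on small discs: `f (γ c) + a * average of ‖γ - γ c‖ ^ 2 ≤ average of f ∘ γ` -/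
theorem StrictE.of_disc {f : (Fin n → ℂ) → ℝ} {x : Fin n → ℂ} {W : Set (Fin n → ℂ)}
    (hW : IsOpen W) (hx : x ∈ W) (hc : ContinuousOn f W) {a : ℝ} (ha : 0 < a)
    (h : ∀ (γ : ℂ → Fin n → ℂ) (c : ℂ), AnalyticAt ℂ γ c → γ c ∈ W → ∃ ρ > 0, ∀ R, 0 < R → R < ρ →
      f (γ c) + a * Real.circleAverage (fun ζ => ∑ k, ‖γ ζ k - γ c k‖ ^ 2) c R ≤
        Real.circleAverage (fun ζ => f (γ ζ)) c R) : StrictE f x := by
  refine ⟨a, ha, W, hW, hx, ?_⟩
  have hcs : Continuous (fun y : Fin n → ℂ => ∑ k, ‖y k‖ ^ 2) := by fun_prop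
  have hcf : ContinuousOn (fun y => f y - a * ∑ k, ‖y k‖ ^ 2) W :=
    hc.sub (continuousOn_const.mul hcs.continuousOn)
  apply PshE.of_lsub hW hcf
  intro γ c hγ hγc
  obtain ⟨ρ, hρ, h1⟩ := h γ c hγ hγc
  obtain ⟨ρ', hρ', h2⟩ := exists_disc hW hγ.eventually_analyticAt hγc
  refine ⟨min ρ ρ', lt_min hρ hρ', fun R hR hRρ => ?_⟩
  obtain ⟨h3, h4⟩ := h2 R hR (hRρ.trans_le (min_le_right _ _))
  have h5 := h1 R hR (hRρ.trans_le (min_le_left _ _))
  have h6 := avg_sq hR h3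
  have h7 : CircleIntegrable (fun ζ => a * ∑ k, ‖γ ζ k‖ ^ 2) c R :=
    disc_ci (f := fun y : Fin n → ℂ => a * ∑ k, ‖y k‖ ^ 2)
      (continuousOn_const.mul hcs.continuousOn) hR h3 h4
  have h8 : Real.circleAverage (fun ζ => a * ∑ k, ‖γ ζ k‖ ^ 2) c R =
      a * Real.circleAverage (fun ζ => ∑ k, ‖γ ζ k‖ ^ 2) c R :=
    Real.circleAverage_fun_smul (a := a) (f := fun ζ => ∑ k, ‖γ ζ k‖ ^ 2)
  show f (γ c) - a * ∑ k, ‖γ c k‖ ^ 2 ≤
    Real.circleAverage (fun ζ => f (γ ζ) - a * ∑ k, ‖γ ζ k‖ ^ 2) c R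
  rw [Real.circleAverage_fun_sub (disc_ci hc hR h3 h4) h7, h8, h6]
  linarith

/-- Lagrange identity -/
theorem lagrange {m : ℕ} (u v : Fin m → ℂ) :
    ∑ i, ∑ j, ‖u i * v j - u j * v i‖ ^ 2 =
      2 * ((∑ i, ‖u i‖ ^ 2) * (∑ i, ‖v i‖ ^ 2) - ‖∑ i, u i * starRingEnd ℂ (v i)‖ ^ 2) := by
  have key : ((∑ i, ∑ j, ‖u i * v j - u j * v i‖ ^ 2 : ℝ) : ℂ) =
      ((2 * ((∑ i, ‖u i‖ ^ 2) * (∑ i, ‖v i‖ ^ 2) - ‖∑ i, u i * starRingEnd ℂ (v i)‖ ^ 2) : ℝ) :
        ℂ) := by
    push_cast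
    have e : ∀ a : ℂ, ((‖a‖ : ℂ)) ^ 2 = a * starRingEnd ℂ a := fun a => by
      rw [Complex.mul_conj, Complex.normSq_eq_norm_sq]; push_cast; ring
    simp only [e, map_sub, map_mul, map_sum, Complex.conj_conj]
    have e1 : ∀ i j : Fin m, (u i * v j - u j * v i) * (starRingEnd ℂ (u i) * starRingEnd ℂ (v j) -
        starRingEnd ℂ (u j) * starRingEnd ℂ (v i)) =
        (u i * starRingEnd ℂ (u i)) * (v j * starRingEnd ℂ (v j)) +
        (u j * starRingEnd ℂ (u j)) * (v i * starRingEnd ℂ (v i)) -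
        (u i * starRingEnd ℂ (v i)) * (starRingEnd ℂ (u j) * v j) -
        (u j * starRingEnd ℂ (v j)) * (starRingEnd ℂ (u i) * v i) := fun i j => by ring
    simp only [e1, Finset.sum_sub_distrib, Finset.sum_add_distrib]
    have e2 : ∀ a b : Fin m → ℂ, ∑ i, ∑ j, a i * b j = (∑ i, a i) * ∑ j, b j := fun a b => by
      rw [Finset.sum_mul_sum]
    have e3 : ∀ a b : Fin m → ℂ, ∑ i, ∑ j, a j * b i = (∑ i, a i) * ∑ j, b j := fun a b => by
      rw [Finset.sum_comm, Finset.sum_mul_sum]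
    rw [e2 (fun i => u i * starRingEnd ℂ (u i)) (fun j => v j * starRingEnd ℂ (v j)),
      e3 (fun i => u i * starRingEnd ℂ (u i)) (fun j => v j * starRingEnd ℂ (v j)),
      e2 (fun i => u i * starRingEnd ℂ (v i)) (fun j => starRingEnd ℂ (u j) * v j),
      e3 (fun i => u i * starRingEnd ℂ (v i)) (fun j => starRingEnd ℂ (u j) * v j)]
    ring
  exact_mod_cast key

/-- the basic inequality for a vector valued analytic germ `F`, `F c ≠ 0`: here
`‖F ζ ∧ F c‖ ^ 2 = ‖F ζ‖ ^ 2 ‖F c‖ ^ 2 - |⟨F c, F ζ⟩| ^ 2` is written as a sum over pairs -/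
theorem log_norm_wedge {m : ℕ} {F : ℂ → Fin m → ℂ} {c : ℂ} (hF : AnalyticAt ℂ F c)
    (h0 : F c ≠ 0) : ∃ ρ > 0, ∀ R, 0 < R → R < ρ →
      Real.log (∑ i, ‖F c i‖ ^ 2) + 1 / 2 * Real.circleAverage (fun ζ =>
        (∑ i, ∑ j, ‖F ζ i * F c j - F ζ j * F c i‖ ^ 2) /
          ((∑ i, ‖F ζ i‖ ^ 2) * ∑ i, ‖F c i‖ ^ 2)) c R ≤
      Real.circleAverage (fun ζ => Real.log (∑ i, ‖F ζ i‖ ^ 2)) c R := by
  set g : ℝ := ∑ i, ‖F c i‖ ^ 2 with hg
  have hg0 : 0 < g := by
    obtain ⟨i, hi⟩ := Function.ne_iff.1 h0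
    apply Finset.sum_pos' (fun i _ => by positivity)
    exact ⟨i, Finset.mem_univ _, by
      have : 0 < ‖F c i‖ := norm_pos_iff.2 hi
      positivity⟩
  set h : ℂ → ℂ := fun ζ => ∑ i, F ζ i * starRingEnd ℂ (F c i) with hh
  have hha : AnalyticAt ℂ h c := by
    apply Finset.analyticAt_fun_sum
    intro k _
    exact (analytic_coord hF k).mul analyticAt_const
  have hhc : h c = (g : ℂ) := by
    rw [hh, hg]
    push_cast
    apply Finset.sum_congr rfl
    intro i _
    rw [Complex.mul_conj, Complex.normSq_eq_norm_sq]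
    push_cast
    ring
  have hhc0 : h c ≠ 0 := by
    rw [hhc]; exact_mod_cast hg0.ne'
  have hev : ∀ᶠ ζ in 𝓝 c, (AnalyticAt ℂ F ζ ∧ AnalyticAt ℂ h ζ) ∧ h ζ ≠ 0 :=
    (hF.eventually_analyticAt.and hha.eventually_analyticAt).and
      (hha.continuousAt.eventually (isOpen_ne.mem_nhds hhc0))
  obtain ⟨ρ, hρ, hball⟩ := Metric.eventually_nhds_iff_ball.1 hev
  refine ⟨ρ, hρ, fun R hR hRρ => ?_⟩
  have hsub : closedBall c R ⊆ ball c ρ := closedBall_subset_ball hRρ
  have hsph : sphere c R ⊆ ball c ρ := sphere_subset_closedBall.trans hsub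
  -- positivity of the norm
  have hFpos : ∀ ζ ∈ ball c ρ, 0 < ∑ i, ‖F ζ i‖ ^ 2 := by
    intro ζ hζ
    have h1 : F ζ ≠ 0 := by
      intro h2
      apply (hball ζ hζ).2
      rw [hh]
      simp [h2]
    obtain ⟨i, hi⟩ := Function.ne_iff.1 h1
    apply Finset.sum_pos' (fun i _ => by positivity)
    exact ⟨i, Finset.mem_univ _, by
      have : 0 < ‖F ζ i‖ := norm_pos_iff.2 hi
      positivity⟩
  have hFc : ∀ k, ContinuousOn (fun ζ => F ζ k) (sphere c R) := fun k ζ hζ =>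
    (analytic_coord (hball ζ (hsph hζ)).1.1 k).continuousAt.continuousWithinAt
  have hNc : ContinuousOn (fun ζ => ∑ i, ‖F ζ i‖ ^ 2) (sphere c R) :=
    continuousOn_finsetSum _ fun k _ => (hFc k).norm.pow 2
  have i1 : CircleIntegrable (fun ζ => Real.log (∑ i, ‖F ζ i‖ ^ 2)) c R :=
    ContinuousOn.circleIntegrable hR.le (hNc.log fun ζ hζ => (hFpos ζ (hsph hζ)).ne')
  have hWc : ContinuousOn (fun ζ => (∑ i, ∑ j, ‖F ζ i * F c j - F ζ j * F c i‖ ^ 2) /
          ((∑ i, ‖F ζ i‖ ^ 2) * g)) (sphere c R) := by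
    apply ContinuousOn.div
    · apply continuousOn_finsetSum _ fun i _ => ?_
      apply continuousOn_finsetSum _ fun j _ => ?_
      exact (((hFc i).mul continuousOn_const).sub ((hFc j).mul continuousOn_const)).norm.pow 2
    · exact hNc.mul continuousOn_const
    · intro ζ hζ
      have := hFpos ζ (hsph hζ)
      positivity
  have i2 := ContinuousOn.circleIntegrable hR.le hWc
  have hhc' : ContinuousOn (fun ζ => 2 * Real.log ‖h ζ‖) (sphere c R) := by
    apply continuousOn_const.mul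
    apply ContinuousOn.log
    · exact fun ζ hζ => (hball ζ (hsph hζ)).1.2.continuousAt.continuousWithinAt.norm
    · exact fun ζ hζ => norm_ne_zero_iff.2 (hball ζ (hsph hζ)).2
  have i3 := ContinuousOn.circleIntegrable hR.le hhc'
  -- mean value of `log |h|`
  have hmv : Real.circleAverage (fun ζ => 2 * Real.log ‖h ζ‖) c R = 2 * Real.log ‖h c‖ := by
    have h1 : InnerProductSpace.HarmonicOnNhd (fun ζ => Real.log ‖h ζ‖) (closedBall c |R|) := by
      rw [abs_of_pos hR]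
      exact fun z hz => (hball z (hsub hz)).1.2.harmonicAt_log_norm (hball z (hsub hz)).2
    have h2 := InnerProductSpace.HarmonicOnNhd.circleAverage_eq h1
    have h3 : Real.circleAverage (fun ζ => (2 : ℝ) * Real.log ‖h ζ‖) c R =
        2 * Real.circleAverage (fun ζ => Real.log ‖h ζ‖) c R :=
      Real.circleAverage_fun_smul (a := (2 : ℝ)) (f := fun ζ => Real.log ‖h ζ‖)
    rw [h3, h2]
  have hgh : 2 * Real.log ‖h c‖ = 2 * Real.log g := by
    rw [hhc, Complex.norm_real, Real.norm_eq_abs, abs_of_pos hg0]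
  -- pointwise inequality
  have hpt : ∀ ζ ∈ sphere c R, 2 * Real.log ‖h ζ‖ + (1 / 2 *
      ((∑ i, ∑ j, ‖F ζ i * F c j - F ζ j * F c i‖ ^ 2) / ((∑ i, ‖F ζ i‖ ^ 2) * g)) +
        - Real.log g) ≤ Real.log (∑ i, ‖F ζ i‖ ^ 2) := by
    intro ζ hζ
    have hp := hFpos ζ (hsph hζ)
    have hhz : 0 < ‖h ζ‖ := norm_pos_iff.2 (hball ζ (hsph hζ)).2
    set N := ∑ i, ‖F ζ i‖ ^ 2 with hN
    have e1 : (∑ i, ∑ j, ‖F ζ i * F c j - F ζ j * F c i‖ ^ 2) = 2 * (N * g - ‖h ζ‖ ^ 2) :=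
      lagrange (F ζ) (F c)
    rw [e1]
    have e2 : 1 / 2 * (2 * (N * g - ‖h ζ‖ ^ 2) / (N * g)) = 1 - ‖h ζ‖ ^ 2 / (N * g) := by
      field_simp
    rw [e2]
    have e3 := Real.log_le_sub_one_of_pos (show 0 < ‖h ζ‖ ^ 2 / (N * g) by positivity)
    rw [Real.log_div (by positivity) (by positivity), Real.log_mul hp.ne' hg0.ne',
      Real.log_pow] at e3
    push_cast at e3
    linarith
  have i4 : CircleIntegrable (fun ζ => (1 / 2 : ℝ) *
      ((∑ i, ∑ j, ‖F ζ i * F c j - F ζ j * F c i‖ ^ 2) / ((∑ i, ‖F ζ i‖ ^ 2) * g))) c R :=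
    ContinuousOn.circleIntegrable hR.le (continuousOn_const.mul hWc)
  have i5 : CircleIntegrable (fun _ => - Real.log g) c R := circleIntegrable_const _ _ _
  have hfin := avg_mono hR (ci_add i3 (ci_add i4 i5)) i1 hpt
  have e5 : Real.circleAverage (fun ζ => (1 / 2 : ℝ) *
      ((∑ i, ∑ j, ‖F ζ i * F c j - F ζ j * F c i‖ ^ 2) / ((∑ i, ‖F ζ i‖ ^ 2) * g))) c R =
      1 / 2 * Real.circleAverage (fun ζ =>
      ((∑ i, ∑ j, ‖F ζ i * F c j - F ζ j * F c i‖ ^ 2) / ((∑ i, ‖F ζ i‖ ^ 2) * g))) c R :=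
    Real.circleAverage_fun_smul (a := (1 / 2 : ℝ)) (f := fun ζ =>
      ((∑ i, ∑ j, ‖F ζ i * F c j - F ζ j * F c i‖ ^ 2) / ((∑ i, ‖F ζ i‖ ^ 2) * g)))
  have e6 : Real.circleAverage (fun ζ => 2 * Real.log ‖h ζ‖ + ((1 / 2 : ℝ) *
      ((∑ i, ∑ j, ‖F ζ i * F c j - F ζ j * F c i‖ ^ 2) / ((∑ i, ‖F ζ i‖ ^ 2) * g)) +
        - Real.log g)) c R = 2 * Real.log g + (1 / 2 * Real.circleAverage (fun ζ =>
      ((∑ i, ∑ j, ‖F ζ i * F c j - F ζ j * F c i‖ ^ 2) / ((∑ i, ‖F ζ i‖ ^ 2) * g))) c R +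
        - Real.log g) := by
    rw [Real.circleAverage_fun_add i3 (ci_add i4 i5), Real.circleAverage_fun_add i4 i5,
      Real.circleAverage_const, hmv, hgh, e5]
  rw [e6] at hfin
  linarith

/-- the gain of log-sum-exp in the first variable -/
theorem lse_gain {u v t : ℝ} (ht : 0 ≤ t) :
    Real.log (Real.exp u + Real.exp v) + Real.exp u / (Real.exp u + Real.exp v) * t ≤
      Real.log (Real.exp (u + t) + Real.exp v) := by
  set S := Real.exp u + Real.exp v with hS
  have hS0 : 0 < S := by positivity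
  set p := Real.exp u / S with hp
  have hp0 : 0 ≤ p := by positivity
  have hp1 : p ≤ 1 := by
    rw [hp, div_le_one hS0, hS]
    linarith [Real.exp_pos v]
  have h1 : Real.exp (p * t) ≤ p * Real.exp t + (1 - p) := by
    have := convexOn_exp.2 (mem_univ t) (mem_univ 0) hp0 (sub_nonneg.2 hp1) (by ring)
    simpa using this
  have h2 : Real.exp (u + t) + Real.exp v = S * (p * Real.exp t + (1 - p)) := by
    rw [Real.exp_add, hp]
    field_simp
    rw [hS]
    ring
  have h3 : S * Real.exp (p * t) ≤ Real.exp (u + t) + Real.exp v := by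
    rw [h2]
    exact mul_le_mul_of_nonneg_left h1 hS0.le
  have h4 := Real.log_le_log (by positivity) h3
  rwa [Real.log_mul hS0.ne' (Real.exp_ne_zero _), Real.log_exp] at h4

/-- `log (e ^ f + e ^ g)` is strict at `x` if `f` is strict and `g` is log-psh -/
theorem StrictE.log_add {F G : (Fin n → ℂ) → ℝ} {x : Fin n → ℂ} {W : Set (Fin n → ℂ)}
    (hW : IsOpen W) (hx : x ∈ W) (hF0 : ∀ y ∈ W, 0 < F y)
    (hF : StrictE (fun y => Real.log (F y)) x) (hG : LPsh G W) :
    StrictE (fun y => Real.log (F y + G y)) x := by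
  obtain ⟨c, hc, W1, hW1, hx1, hp⟩ := hF
  have hcs : Continuous (fun y : Fin n → ℂ => ∑ k, ‖y k‖ ^ 2) := by fun_prop
  set O := W ∩ W1 with hO
  have hOo : IsOpen O := hW.inter hW1
  have hxO : x ∈ O := ⟨hx, hx1⟩
  -- continuity
  have hlc : ContinuousOn (fun y => Real.log (F y)) O := by
    have h1 : ContinuousOn (fun y => (Real.log (F y) - c * ∑ k, ‖y k‖ ^ 2) + c * ∑ k, ‖y k‖ ^ 2) O :=
      (hp.1.mono inter_subset_right).add (continuousOn_const.mul hcs.continuousOn)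
    refine h1.congr fun y _ => ?_
    simp
  have hFc : ContinuousOn F O := by
    refine (Real.continuous_exp.comp_continuousOn hlc).congr fun y hy => ?_
    show F y = Real.exp (Real.log (F y))
    rw [Real.exp_log (hF0 y hy.1)]
  have hGc : ContinuousOn G O := hG.1.mono inter_subset_left
  have hG0 : ∀ y ∈ O, 0 ≤ G y := fun y hy => hG.2.1 y hy.1
  have hF0' : ∀ y ∈ O, 0 < F y := fun y hy => hF0 y hy.1
  -- lower bound of the weight
  set q : (Fin n → ℂ) → ℝ := fun y => F y / (F y + G y + 1) with hq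
  have hqc : ContinuousOn q O := by
    apply hFc.div ((hFc.add hGc).add continuousOn_const)
    intro y hy
    have a1 := hF0' y hy
    have a2 := hG0 y hy
    exact ne_of_gt (show (0 : ℝ) < F y + G y + 1 by linarith)
  have hqx : 0 < q x := by
    have := hF0' x hxO
    have := hG0 x hxO
    rw [hq]
    positivity
  set δ := q x / 2 with hδ
  have hδ0 : 0 < δ := by positivity
  have hev : ∀ᶠ y in 𝓝 x, y ∈ O ∧ δ < q y :=
    Filter.Eventually.and (hOo.mem_nhds hxO) ((hqc.continuousAt (hOo.mem_nhds hxO)).eventually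
      (lt_mem_nhds (by rw [hδ]; linarith)))
  obtain ⟨O', hO', hOo', hxO'⟩ := _root_.eventually_nhds_iff.1 hev
  have hO'O : O' ⊆ O := fun y hy => (hO' y hy).1
  have hcf : ContinuousOn (fun y => Real.log (F y + G y)) O' := by
    apply ((hFc.mono hO'O).add (hGc.mono hO'O)).log
    intro y hy
    have a1 := hF0' y (hO'O hy)
    have a2 := hG0 y (hO'O hy)
    exact ne_of_gt (show (0 : ℝ) < F y + G y by linarith)
  refine StrictE.of_disc hOo' hxO' hcf (a := δ * c) (by positivity) ?_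
  intro γ ζ0 hγ hγc
  obtain ⟨ρ, hρ, h2⟩ := exists_disc hOo' hγ.eventually_analyticAt hγc
  refine ⟨ρ, hρ, fun R hR hRρ => ?_⟩
  obtain ⟨h3, h4⟩ := h2 R hR hRρ
  have h4O : MapsTo γ (closedBall ζ0 R) O := h4.mono_right hO'O
  set T := Real.circleAverage (fun ζ => ∑ k, ‖γ ζ k - γ ζ0 k‖ ^ 2) ζ0 R with hT
  have hT0 : 0 ≤ T := by
    apply Real.circleAverage_nonneg_of_nonneg
    intro z _
    positivity
  -- strictness of `log F`
  have hu : Real.log (F (γ ζ0)) + c * T ≤ Real.circleAverage (fun ζ => Real.log (F (γ ζ))) ζ0 R := by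
    have h5 := hp.2 γ ζ0 R hR h3 (h4O.mono_right inter_subset_right)
    have h6 := avg_sq hR h3
    have h7 : CircleIntegrable (fun ζ => c * ∑ k, ‖γ ζ k‖ ^ 2) ζ0 R :=
      disc_ci (f := fun y : Fin n → ℂ => c * ∑ k, ‖y k‖ ^ 2)
        (continuousOn_const.mul hcs.continuousOn) hR h3 h4
    have h8 : Real.circleAverage (fun ζ => c * ∑ k, ‖γ ζ k‖ ^ 2) ζ0 R =
        c * Real.circleAverage (fun ζ => ∑ k, ‖γ ζ k‖ ^ 2) ζ0 R :=
      Real.circleAverage_fun_smul (a := c) (f := fun ζ => ∑ k, ‖γ ζ k‖ ^ 2)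
    rw [Real.circleAverage_fun_sub (disc_ci hlc hR h3 h4O) h7, h8, h6] at h5
    linarith
  -- the inequality with `ε`
  have key : ∀ ε : ℝ, 0 < ε → ε ≤ 1 → Real.log (F (γ ζ0) + G (γ ζ0)) + δ * c * T ≤
      Real.circleAverage (fun ζ => Real.log (F (γ ζ) + (G (γ ζ) + ε))) ζ0 R := by
    intro ε hε hε1
    have hv := (hG.2.2 ε hε)
    have hv2 := hv.2 γ ζ0 R hR h3 (h4O.mono_right inter_subset_left)
    have hvi := disc_ci (hv.1.mono inter_subset_left) hR h3 h4O
    have hui := disc_ci hlc hR h3 h4O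
    have hj := avg_jensen lse_convex hR (F := fun ζ =>
      (Real.log (F (γ ζ)), Real.log (G (γ ζ) + ε)))
      (((disc_cont hlc h3 h4O).prodMk (disc_cont (hv.1.mono inter_subset_left) h3 h4O)).mono
        sphere_subset_closedBall)
    rw [avg_pair hui hvi] at hj
    have e1 : Real.circleAverage (fun ζ => Real.log (Real.exp (Real.log (F (γ ζ))) +
        Real.exp (Real.log (G (γ ζ) + ε)))) ζ0 R =
        Real.circleAverage (fun ζ => Real.log (F (γ ζ) + (G (γ ζ) + ε))) ζ0 R := by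
      apply avg_congr hR
      intro z hz
      have hz' := h4O (sphere_subset_closedBall hz)
      have := hF0' _ hz'
      have := hG0 _ hz'
      rw [Real.exp_log (by positivity), Real.exp_log (by positivity)]
    simp only at hj
    rw [e1] at hj
    have p1 := hF0' _ (hO'O hγc)
    have p2 := hG0 _ (hO'O hγc)
    have hmono : Real.log (Real.exp (Real.log (F (γ ζ0)) + c * T) +
        Real.exp (Real.log (G (γ ζ0) + ε))) ≤
        Real.log (Real.exp (Real.circleAverage (fun ζ => Real.log (F (γ ζ))) ζ0 R) +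
        Real.exp (Real.circleAverage (fun ζ => Real.log (G (γ ζ) + ε)) ζ0 R)) :=
      Real.log_le_log (by positivity) (add_le_add (Real.exp_le_exp.2 hu) (Real.exp_le_exp.2 hv2))
    have hgain := lse_gain (u := Real.log (F (γ ζ0))) (v := Real.log (G (γ ζ0) + ε)) (t := c * T)
      (by positivity)
    rw [Real.exp_log p1, Real.exp_log (show 0 < G (γ ζ0) + ε by positivity)] at hgain
    have hw : δ ≤ F (γ ζ0) / (F (γ ζ0) + (G (γ ζ0) + ε)) := by
      have h9 : δ < F (γ ζ0) / (F (γ ζ0) + G (γ ζ0) + 1) := (hO' _ hγc).2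
      refine h9.le.trans ?_
      apply div_le_div_of_nonneg_left p1.le (by positivity)
      linarith
    have hw2 : δ * (c * T) ≤ F (γ ζ0) / (F (γ ζ0) + (G (γ ζ0) + ε)) * (c * T) :=
      mul_le_mul_of_nonneg_right hw (by positivity)
    have hw3 : Real.log (F (γ ζ0) + G (γ ζ0)) ≤ Real.log (F (γ ζ0) + (G (γ ζ0) + ε)) :=
      Real.log_le_log (by positivity) (by linarith)
    rw [Real.exp_log (show 0 < G (γ ζ0) + ε by positivity)] at hmono
    have : δ * c * T = δ * (c * T) := by ring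
    linarith
  -- limit
  refine le_of_forall_pos_le_add fun η hη => ?_
  have hK : IsCompact (γ '' closedBall ζ0 R) :=
    (isCompact_closedBall ζ0 R).image_of_continuousOn h3.continuousOn
  obtain ⟨m, hm0, hm⟩ : ∃ m > 0, ∀ y ∈ γ '' closedBall ζ0 R, m ≤ F y := by
    obtain ⟨y0, hy0, hmin⟩ := hK.exists_isMinOn ⟨γ ζ0, mem_image_of_mem _
      (mem_closedBall_self hR.le)⟩ (hFc.mono (image_subset_iff.2 h4O))
    refine ⟨F y0, hF0' _ (image_subset_iff.2 h4O hy0), fun y hy => hmin hy⟩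
  set ε := min 1 (m * η) with hε
  have hε0 : 0 < ε := lt_min one_pos (by positivity)
  have h5 := key ε hε0 (min_le_left _ _)
  have h6 : Real.circleAverage (fun ζ => Real.log (F (γ ζ) + (G (γ ζ) + ε))) ζ0 R ≤
      Real.circleAverage (fun ζ => Real.log (F (γ ζ) + G (γ ζ)) + η) ζ0 R := by
    apply avg_mono hR
    · have hcc : ContinuousOn (fun y => Real.log (F y + (G y + ε))) O := by
        apply (hFc.add (hGc.add continuousOn_const)).log
        intro y hy
        have a1 := hF0' y hy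
        have a2 := hG0 y hy
        exact ne_of_gt (show (0 : ℝ) < F y + (G y + ε) by linarith)
      exact disc_ci hcc hR h3 h4O
    · exact ci_add (disc_ci hcf hR h3 h4) (circleIntegrable_const _ _ _)
    · intro z hz
      have hz' := h4O (sphere_subset_closedBall hz)
      have p1 := hF0' _ hz'
      have p2 := hG0 _ hz'
      have p3 := hm _ (mem_image_of_mem _ (sphere_subset_closedBall hz))
      have p4 : ε ≤ m * η := min_le_right _ _
      have e1 : F (γ z) + (G (γ z) + ε) ≤ (F (γ z) + G (γ z)) * (1 + η) := by nlinarith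
      calc Real.log (F (γ z) + (G (γ z) + ε)) ≤ Real.log ((F (γ z) + G (γ z)) * (1 + η)) :=
            Real.log_le_log (by positivity) e1
        _ = Real.log (F (γ z) + G (γ z)) + Real.log (1 + η) :=
            Real.log_mul (by positivity) (by positivity)
        _ ≤ _ := by
            have := Real.log_le_sub_one_of_pos (show 0 < 1 + η by positivity)
            linarith
  have h7 : Real.circleAverage (fun ζ => Real.log (F (γ ζ) + G (γ ζ)) + η) ζ0 R =
      Real.circleAverage (fun ζ => Real.log (F (γ ζ) + G (γ ζ))) ζ0 R + η := by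
    rw [Real.circleAverage_fun_add (disc_ci hcf hR h3 h4) (circleIntegrable_const _ _ _),
      Real.circleAverage_const]
  rw [h7] at h6
  linarith

end RG
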