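import Pool.Agent.H14.RG.Rgl
import Pool.Agent.H14.RG.StrM

/-!
# Module P1: strictness in the base charts
-/

open scoped Topology ContDiff
open Set Metric

namespace RG

/-- exponent of the centred weight -/
noncomputable def kk (l : ℝ) (h : ℂ) : ℂ :=
  (((l : ℂ) ^ 2 + 2 * (l : ℂ) * h + h ^ 2 / 2) * (((Real.log 4)⁻¹ : ℝ) : ℂ) + (l : ℂ) + h) / 2

lemma one_le_log4 : 1 ≤ Real.log 4 := by
  rw [Real.le_log_iff_exp_le (by norm_num)]
  have := Real.exp_one_lt_d9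
  linarith

lemma kk_re (l : ℝ) (h : ℂ) :
    2 * ((l + h.re) ^ 2 / (2 * Real.log 4) + (l + h.re) / 2) =
      2 * (kk l h).re + ‖h‖ ^ 2 / (2 * Real.log 4) := by
  have h1 : (kk l h).re =
      ((l ^ 2 + 2 * l * h.re + (h.re ^ 2 - h.im ^ 2) / 2) * (Real.log 4)⁻¹ + l + h.re) / 2 := by
    unfold kk
    have e1 : ((((l : ℂ) ^ 2 + 2 * (l : ℂ) * h + h ^ 2 / 2) * (((Real.log 4)⁻¹ : ℝ) : ℂ)
        + (l : ℂ) + h) / 2).re
        = ((((l : ℂ) ^ 2 + 2 * (l : ℂ) * h + h ^ 2 / 2) * (((Real.log 4)⁻¹ : ℝ) : ℂ)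
        + (l : ℂ) + h)).re / 2 := by
      have := Complex.div_ofReal_re ((((l : ℂ) ^ 2 + 2 * (l : ℂ) * h + h ^ 2 / 2) *
        (((Real.log 4)⁻¹ : ℝ) : ℂ) + (l : ℂ) + h)) 2
      simpa using this
    have e2 : (h ^ 2 / 2 : ℂ).re = (h.re ^ 2 - h.im ^ 2) / 2 := by
      have := Complex.div_ofReal_re (h ^ 2) 2
      rw [show ((2 : ℝ) : ℂ) = 2 by norm_num] at this
      rw [this, sq, Complex.mul_re]
      ring
    have e3 : (2 * (l : ℂ) * h).re = 2 * l * h.re := by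
      have : (2 * (l : ℂ) * h) = ((2 * l : ℝ) : ℂ) * h := by push_cast; ring
      rw [this, Complex.re_ofReal_mul]
    have e4 : ((l : ℂ) ^ 2).re = l ^ 2 := by
      rw [← Complex.ofReal_pow, Complex.ofReal_re]
    rw [e1, Complex.add_re, Complex.add_re, Complex.re_mul_ofReal, Complex.add_re, Complex.add_re,
      e2, e3, e4, Complex.ofReal_re]
  have h2 : ‖h‖ ^ 2 = h.re ^ 2 + h.im ^ 2 := by
    rw [Complex.sq_norm, Complex.normSq_apply]; ring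
  have h3 : Real.log 4 ≠ 0 := by linarith [one_le_log4]
  rw [h1, h2]
  field_simp
  ring

lemma kk_analytic (l : ℝ) (h : ℂ) : AnalyticAt ℂ (kk l) h := by
  unfold kk
  fun_prop

lemma kk_sub (l : ℝ) (h : ℂ) (hh : ‖h‖ ≤ 1) {L : ℝ} (hl : |l| ≤ L) :
    ‖kk l h - kk l 0‖ ≤ (L + 1) * ‖h‖ := by
  have e : kk l h - kk l 0 = h * (((2 * (l : ℂ) + h / 2) * (((Real.log 4)⁻¹ : ℝ) : ℂ) + 1) / 2) := by
    unfold kk; ring
  rw [e, norm_mul, mul_comm]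
  apply mul_le_mul_of_nonneg_right _ (norm_nonneg _)
  have hi : |(Real.log 4)⁻¹| ≤ 1 := by
    rw [abs_of_nonneg (inv_nonneg.2 (by linarith [one_le_log4]))]
    exact inv_le_one_of_one_le₀ one_le_log4
  have h1 : ‖(2 * (l : ℂ) + h / 2)‖ ≤ 2 * L + 1 / 2 := by
    refine (norm_add_le _ _).trans ?_
    rw [norm_mul, norm_div, Complex.norm_real, Real.norm_eq_abs]
    simp only [Complex.norm_ofNat]
    linarith
  have hL : 0 ≤ L := (abs_nonneg _).trans hl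
  rw [norm_div]
  simp only [Complex.norm_ofNat]
  have h2 : ‖(2 * (l : ℂ) + h / 2) * (((Real.log 4)⁻¹ : ℝ) : ℂ) + 1‖ ≤ (2 * L + 1 / 2) + 1 := by
    refine (norm_add_le _ _).trans ?_
    rw [norm_mul, Complex.norm_real, Real.norm_eq_abs, norm_one]
    have := mul_le_mul h1 hi (abs_nonneg _) (by linarith)
    linarith
  linarith

lemma sec_self (j : Fin 3) (u : E3) : (sec j u).2 j = 1 := by
  fin_cases j <;> simp [sec]

lemma sec_fst (j : Fin 3) (u : E3) : (sec j u).1 = u 0 := rfl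

lemma sec_norm_le (j i : Fin 3) (u : E3) : ‖(sec j u).2 i‖ ≤ ‖u‖ + 1 := by
  have h1 := norm_le_pi_norm u 1
  have h2 := norm_le_pi_norm u 2
  have h0 := norm_nonneg u
  fin_cases j <;> fin_cases i <;> simp [sec] <;> linarith

lemma sec_sum (j : Fin 3) (u v : E3) : ∑ k, ‖u k - v k‖ ^ 2 =
    ‖u 0 - v 0‖ ^ 2 + ∑ i, ‖(sec j u).2 i - (sec j v).2 i‖ ^ 2 := by
  fin_cases j <;> simp [sec, Fin.sum_univ_three] <;> ring

lemma nN_sec_pos (j : Fin 3) (u : E3) : 0 < nN (sec j u) := by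
  have h0 : 0 < ‖(sec j u).2 j‖ ^ 2 := by rw [sec_self]; simp
  have h1 : nN (sec j u) = ‖(sec j u).2 0‖ ^ 2 + ‖(sec j u).2 1‖ ^ 2 +
    ‖(sec j u).2 2‖ ^ 2 * Real.exp (2 * qq (sec j u).1) := rfl
  rw [h1]
  have h2 := Real.exp_pos (2 * qq (sec j u).1)
  fin_cases j
  · have h3 : 0 < ‖(sec 0 u).2 0‖ ^ 2 := h0
    have h4 : 0 ≤ ‖(sec 0 u).2 1‖ ^ 2 := by positivity
    have h5 : 0 ≤ ‖(sec 0 u).2 2‖ ^ 2 * Real.exp (2 * qq (sec 0 u).1) := by positivity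
    exact add_pos_of_pos_of_nonneg (add_pos_of_pos_of_nonneg h3 h4) h5
  · have h3 : 0 < ‖(sec 1 u).2 1‖ ^ 2 := h0
    have h4 : 0 ≤ ‖(sec 1 u).2 0‖ ^ 2 := by positivity
    have h5 : 0 ≤ ‖(sec 1 u).2 2‖ ^ 2 * Real.exp (2 * qq (sec 1 u).1) := by positivity
    exact add_pos_of_pos_of_nonneg (add_pos_of_nonneg_of_pos h4 h3) h5
  · have h3 : 0 < ‖(sec 2 u).2 2‖ ^ 2 := h0
    have h4 : 0 ≤ ‖(sec 2 u).2 0‖ ^ 2 + ‖(sec 2 u).2 1‖ ^ 2 := by positivity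
    exact add_pos_of_nonneg_of_pos h4 (mul_pos h3 (Real.exp_pos _))

/-- the centred weight vector -/
noncomputable def ew (w : ℂ) : Fin 3 → ℂ := ![1, 1, w]

lemma ew_le {w : ℂ} {e : ℝ} (h1 : e ≤ 1) (h : e ≤ ‖w‖) (i : Fin 3) : e ≤ ‖ew w i‖ := by
  fin_cases i <;> simp [ew, h1, h]

lemma ew_cross (w v : ℂ) (i j : Fin 3) :
    ‖ew w j * ew v i - ew w i * ew v j‖ ≤ ‖w - v‖ := by
  fin_cases i <;> fin_cases j <;> simp [ew, norm_sub_rev]

lemma tail_est {X Y Wd H B C e : ℝ} (he : 0 < e) (hW : 0 ≤ Wd) (hH : 0 ≤ H)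
    (hX : X ≤ 4 * B ^ 2 * H) (hY : e ^ 4 * Y ≤ 2 * Wd + 6 * C ^ 2 * H) :
    X + Y ≤ (4 * B ^ 2 + (2 + 6 * C ^ 2) / e ^ 4) * (Wd + H) := by
  have h5 : Y ≤ (2 * Wd + 6 * C ^ 2 * H) / e ^ 4 := by
    rw [le_div_iff₀ (by positivity), mul_comm]
    exact hY
  have h6 : (2 * Wd + 6 * C ^ 2 * H) / e ^ 4 ≤ (2 + 6 * C ^ 2) / e ^ 4 * (Wd + H) := by
    rw [div_mul_eq_mul_div]
    apply div_le_div_of_nonneg_right _ (by positivity)
    have h1 : 0 ≤ 6 * C ^ 2 * Wd := by positivity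
    have h2 : (2 + 6 * C ^ 2) * (Wd + H) = 2 * Wd + 2 * H + 6 * C ^ 2 * Wd + 6 * C ^ 2 * H := by
      ring
    rw [h2]
    linarith
  have h7 : 0 ≤ 4 * B ^ 2 * Wd := by positivity
  have h8 : (4 * B ^ 2 + (2 + 6 * C ^ 2) / e ^ 4) * (Wd + H) =
      4 * B ^ 2 * Wd + 4 * B ^ 2 * H + (2 + 6 * C ^ 2) / e ^ 4 * (Wd + H) := by ring
  rw [h8]
  linarith

/-- data of the centre trick -/
theorem kah_core (j : Fin 3) {y : E3} (hy : y 0 ≠ 0) :
    ∃ K > 0, ∃ M > 0, ∃ e > 0, ∃ W : Set E3, IsOpen W ∧ y ∈ W ∧ (∀ u ∈ W, u 0 ≠ 0) ∧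
      ∀ (γ : ℂ → E3) (c : ℂ), AnalyticAt ℂ γ c → γ c ∈ W →
        ∃ (h : ℂ → ℂ) (G : ℂ → Fin 3 → ℂ), AnalyticAt ℂ h c ∧ AnalyticAt ℂ G c ∧ h c = 0 ∧
          (∀ᶠ ζ in 𝓝 c,
            Real.log ‖γ ζ 0‖ = Real.log ‖γ c 0‖ + (h ζ).re ∧
            nN (sec j (γ ζ)) = ‖G ζ 0‖ ^ 2 + ‖G ζ 1‖ ^ 2 +
              ‖G ζ 2‖ ^ 2 * Real.exp (‖h ζ‖ ^ 2 / (2 * Real.log 4)) ∧
            G ζ 0 = (sec j (γ ζ)).2 0 ∧
            e * ‖(sec j (γ ζ)).2 2‖ ^ 2 ≤ ‖G ζ 2‖ ^ 2 ∧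
            0 < ∑ i, ‖G ζ i‖ ^ 2 ∧ ∑ i, ‖G ζ i‖ ^ 2 ≤ 2 * M ∧ ‖h ζ‖ ≤ 1 ∧
            ∑ k, ‖γ ζ k - γ c k‖ ^ 2 ≤
              K * (∑ i, ∑ j, ‖G ζ i * G c j - G ζ j * G c i‖ ^ 2 + ‖h ζ‖ ^ 2)) := by
  have hqc : ContinuousAt (fun u : E3 => qq (u 0)) y :=
    ContinuousAt.comp (g := qq) (f := fun u : E3 => u 0) (qq_smooth hy).continuousAt
      (continuous_apply 0).continuousAt
  have hlc : ContinuousAt (fun u : E3 => Real.log ‖u 0‖) y :=
    (continuous_apply (0 : Fin 3)).continuousAt.norm.log (norm_ne_zero_iff.2 hy)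
  have hNc : ContinuousAt (fun u : E3 => nN (sec j u)) y :=
    ContinuousAt.comp (g := nN) (f := fun u : E3 => sec j u)
      (nN_smooth (p := sec j y) hy).continuousAt (sec_analytic j y).continuousAt
  set e0 : ℝ := min 1 (Real.exp (qq (y 0))) / 2 with he0
  have he0p : 0 < e0 := by
    have : 0 < min 1 (Real.exp (qq (y 0))) := lt_min one_pos (Real.exp_pos _)
    positivity
  have he01 : e0 ≤ 1 := by
    have : min 1 (Real.exp (qq (y 0))) ≤ 1 := min_le_left _ _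
    linarith
  have he0q : e0 < Real.exp (qq (y 0)) := by
    have h1 : min 1 (Real.exp (qq (y 0))) ≤ Real.exp (qq (y 0)) := min_le_right _ _
    have h2 := Real.exp_pos (qq (y 0))
    linarith
  set e1 : ℝ := Real.exp (qq (y 0)) + 1 with he1
  set B : ℝ := ‖y‖ + 2 with hB
  set L : ℝ := |Real.log ‖y 0‖| + 1 with hL
  set M : ℝ := nN (sec j y) + 1 with hM
  have hM0 : 0 < M := by
    have : 0 ≤ nN (sec j y) := by unfold nN a2; positivity
    linarith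
  have hev : ∀ᶠ u in 𝓝 y, u 0 ≠ 0 ∧ ‖u‖ < ‖y‖ + 1 ∧ e0 < Real.exp (qq (u 0)) ∧
      Real.exp (qq (u 0)) < e1 ∧ |Real.log ‖u 0‖| < L ∧ nN (sec j u) < M := by
    have h1 : ∀ᶠ u : E3 in 𝓝 y, u 0 ≠ 0 :=
      (continuous_apply (0 : Fin 3)).continuousAt.eventually (isOpen_ne.mem_nhds hy)
    have h2 : ∀ᶠ u : E3 in 𝓝 y, ‖u‖ < ‖y‖ + 1 :=
      continuous_norm.continuousAt.eventually (Iio_mem_nhds (by linarith))
    have h3 : ∀ᶠ u : E3 in 𝓝 y, e0 < Real.exp (qq (u 0)) :=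
      hqc.rexp.eventually (Ioi_mem_nhds he0q)
    have h4 : ∀ᶠ u : E3 in 𝓝 y, Real.exp (qq (u 0)) < e1 :=
      hqc.rexp.eventually (Iio_mem_nhds (by rw [he1]; linarith))
    have h5 : ∀ᶠ u : E3 in 𝓝 y, |Real.log ‖u 0‖| < L :=
      hlc.abs.eventually (Iio_mem_nhds (by rw [hL]; linarith))
    have h6 : ∀ᶠ u : E3 in 𝓝 y, nN (sec j u) < M :=
      hNc.eventually (Iio_mem_nhds (by rw [hM]; linarith))
    filter_upwards [h1, h2, h3, h4, h5, h6] with u a1 a2 a3 a4 a5 a6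
    exact ⟨a1, a2, a3, a4, a5, a6⟩
  obtain ⟨W, hW, hWo, hyW⟩ := _root_.eventually_nhds_iff.1 hev
  have hB0 : 0 < B := by rw [hB]; positivity
  have hL0 : 0 < L := by rw [hL]; positivity
  have he10 : 0 < e1 := by rw [he1]; positivity
  set C : ℝ := B * (e1 * (2 * (L + 1))) with hC
  have hC0 : 0 < C := by rw [hC]; positivity
  refine ⟨4 * B ^ 2 + (2 + 6 * C ^ 2) / e0 ^ 4, by positivity, M, hM0, e0 ^ 2, by positivity, W,
    hWo, hyW, fun u hu => (hW u hu).1, ?_⟩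
  intro γ c hγ hc
  obtain ⟨hu0, huB, hue0, hue1, huL, huM⟩ := hW _ hc
  set l : ℝ := Real.log ‖γ c 0‖ with hl
  set h : ℂ → ℂ := fun ζ => Complex.log (γ ζ 0 / γ c 0) with hh
  set E2 : ℂ → ℂ := fun ζ => Complex.exp (kk l (h ζ)) with hE2
  set G : ℂ → Fin 3 → ℂ := fun ζ i => (sec j (γ ζ)).2 i * ew (E2 ζ) i with hG
  have hγ0 : AnalyticAt ℂ (fun ζ => γ ζ 0) c :=
    AnalyticAt.comp (g := fun u : E3 => u 0) (f := γ) (coord3_analytic 0 _) hγ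
  have hh0 : h c = 0 := by
    simp only [hh]
    rw [div_self hu0, Complex.log_one]
  have hha : AnalyticAt ℂ h c := by
    refine AnalyticAt.clog (hγ0.div analyticAt_const hu0) ?_
    rw [div_self hu0]
    exact Complex.one_mem_slitPlane
  have hE2a : AnalyticAt ℂ E2 c := by
    have h1 : AnalyticAt ℂ (fun ζ => kk l (h ζ)) c :=
      AnalyticAt.comp (g := kk l) (f := h) (kk_analytic l _) hha
    exact h1.cexp
  have hsa : AnalyticAt ℂ (fun ζ => sec j (γ ζ)) c :=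
    AnalyticAt.comp (g := sec j) (f := γ) (sec_analytic j _) hγ
  have hxa : ∀ i, AnalyticAt ℂ (fun ζ => (sec j (γ ζ)).2 i) c := fun i =>
    AnalyticAt.comp (g := fun p : V4 => p.2 i) (f := fun ζ => sec j (γ ζ)) (coord_analytic i _) hsa
  have hGa : AnalyticAt ℂ G c := by
    rw [analyticAt_pi_iff]
    intro i
    refine (hxa i).mul ?_
    fin_cases i
    · exact analyticAt_const
    · exact analyticAt_const
    · exact hE2a
  have hkk0 : (kk l 0).re = qq (γ c 0) := by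
    have := kk_re l 0
    simp only [Complex.zero_re, add_zero, norm_zero] at this
    unfold qq
    rw [← hl]
    have h3 : Real.log 4 ≠ 0 := by linarith [one_le_log4]
    field_simp at this ⊢
    linarith
  have hE2c : ‖E2 c‖ = Real.exp (qq (γ c 0)) := by
    simp only [hE2]
    rw [hh0, Complex.norm_exp, hkk0]
  have hew' : ∀ i, e0 ≤ ‖ew (E2 c) i‖ := ew_le he01 (by rw [hE2c]; exact hue0.le)
  have hN : ∀ ζ, γ ζ 0 ≠ 0 → Real.log ‖γ ζ 0‖ = l + (h ζ).re ∧ nN (sec j (γ ζ)) =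
      ‖G ζ 0‖ ^ 2 + ‖G ζ 1‖ ^ 2 + ‖G ζ 2‖ ^ 2 * Real.exp (‖h ζ‖ ^ 2 / (2 * Real.log 4)) := by
    intro ζ hζ
    have h1 : Real.log ‖γ ζ 0‖ = l + (h ζ).re := by
      simp only [hh]
      rw [Complex.log_re, norm_div, Real.log_div (norm_ne_zero_iff.2 hζ) (norm_ne_zero_iff.2 hu0)]
      ring
    refine ⟨h1, ?_⟩
    have h2 : 2 * qq ((sec j (γ ζ)).1) = 2 * (kk l (h ζ)).re + ‖h ζ‖ ^ 2 / (2 * Real.log 4) := by
      rw [sec_fst, ← kk_re]
      unfold qq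
      rw [h1]
    unfold nN a2
    rw [h2, Real.exp_add]
    have h3 : ‖G ζ 2‖ ^ 2 = ‖(sec j (γ ζ)).2 2‖ ^ 2 * Real.exp (2 * (kk l (h ζ)).re) := by
      have : G ζ 2 = (sec j (γ ζ)).2 2 * E2 ζ := by simp [hG, ew]
      rw [this, norm_mul, mul_pow]
      simp only [hE2]
      rw [Complex.norm_exp, ← Real.exp_nat_mul]
      norm_num
    have h4 : G ζ 0 = (sec j (γ ζ)).2 0 := by simp [hG, ew]
    have h5 : G ζ 1 = (sec j (γ ζ)).2 1 := by simp [hG, ew]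
    rw [h3, h4, h5]
    ring
  refine ⟨h, G, hha, hGa, hh0, ?_⟩
  have ev1 : ∀ᶠ ζ in 𝓝 c, γ ζ 0 ≠ 0 :=
    hγ0.continuousAt.eventually (isOpen_ne.mem_nhds hu0)
  have ev2 : ∀ᶠ ζ in 𝓝 c, ‖h ζ‖ < 1 :=
    hha.continuousAt.norm.eventually (Iio_mem_nhds (by show ‖h c‖ < 1; rw [hh0]; simp))
  have ev3 : ∀ᶠ ζ in 𝓝 c, ‖kk l (h ζ) - kk l 0‖ < 1 := by
    have h1 : AnalyticAt ℂ (fun ζ => kk l (h ζ) - kk l 0) c :=
      (AnalyticAt.comp (g := kk l) (f := h) (kk_analytic l _) hha).sub analyticAt_const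
    exact h1.continuousAt.norm.eventually
      (Iio_mem_nhds (by show ‖kk l (h c) - kk l 0‖ < 1; rw [hh0]; simp))
  have ev4 : ∀ᶠ ζ in 𝓝 c, e0 < ‖E2 ζ‖ :=
    hE2a.continuousAt.norm.eventually (Ioi_mem_nhds (by show e0 < ‖E2 c‖; rw [hE2c]; exact hue0))
  have hGc : ∑ i, ‖G c i‖ ^ 2 < M := by
    have h1 := (hN c hu0).2
    rw [hh0] at h1
    simp only [norm_zero, ne_eq, OfNat.ofNat_ne_zero, not_false_eq_true, zero_pow, zero_div,
      Real.exp_zero, mul_one] at h1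
    rw [Fin.sum_univ_three, ← h1]
    exact huM
  have ev5 : ∀ᶠ ζ in 𝓝 c, ∑ i, ‖G ζ i‖ ^ 2 < M := by
    have h1 : ContinuousAt (fun ζ => ∑ i, ‖G ζ i‖ ^ 2) c := by
      have h2 : ∀ i, ContinuousAt (fun ζ => G ζ i) c := fun i =>
        ((analyticAt_pi_iff).1 hGa i).continuousAt
      exact tendsto_finset_sum _ fun i _ => (h2 i).norm.pow 2
    exact h1.eventually (Iio_mem_nhds hGc)
  filter_upwards [ev1, ev2, ev3, ev4, ev5] with ζ a1 a2 a3 a4 a5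
  have hew : ∀ i, e0 ≤ ‖ew (E2 ζ) i‖ := ew_le he01 a4.le
  refine ⟨(hN ζ a1).1, (hN ζ a1).2, by simp [hG, ew], ?_, ?_, by linarith, a2.le, ?_⟩
  · simp only [hG]
    rw [norm_mul, mul_pow, mul_comm]
    exact mul_le_mul_of_nonneg_left (pow_le_pow_left₀ he0p.le (hew 2) 2) (by positivity)
  · have h1 : 0 < ‖G ζ j‖ ^ 2 := by
      simp only [hG]
      rw [sec_self, one_mul]
      exact pow_pos (he0p.trans_le (hew j)) 2
    exact h1.trans_le (Finset.single_le_sum (f := fun i => ‖G ζ i‖ ^ 2)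
      (fun i _ => by positivity) (Finset.mem_univ j))
  · -- the main estimate
    have hE : ‖E2 ζ - E2 c‖ ≤ e1 * (2 * (L + 1)) * ‖h ζ‖ := by
      have e : E2 ζ - E2 c = E2 c * (Complex.exp (kk l (h ζ) - kk l 0) - 1) := by
        simp only [hE2]
        rw [hh0, mul_sub, ← Complex.exp_add, mul_one]
        congr 2
        ring
      rw [e, norm_mul, mul_assoc]
      have h1 := Complex.norm_exp_sub_one_le a3.le
      have h2 := kk_sub l (h ζ) a2.le huL.le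
      have h3 : ‖E2 c‖ ≤ e1 := by rw [hE2c]; exact hue1.le
      refine mul_le_mul h3 ?_ (norm_nonneg _) he10.le
      calc _ ≤ _ := h1
        _ ≤ 2 * ((L + 1) * ‖h ζ‖) := by linarith
        _ = _ := by ring
    have hi : ∀ i, e0 ^ 4 * ‖(sec j (γ ζ)).2 i - (sec j (γ c)).2 i‖ ^ 2 ≤
        2 * ‖G ζ i * G c j - G ζ j * G c i‖ ^ 2 + 2 * C ^ 2 * ‖h ζ‖ ^ 2 := by
      intro i
      have key : ((sec j (γ ζ)).2 i - (sec j (γ c)).2 i) * (ew (E2 ζ) i * ew (E2 c) j) =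
          (G ζ i * G c j - G ζ j * G c i) +
            (sec j (γ c)).2 i * (ew (E2 ζ) j * ew (E2 c) i - ew (E2 ζ) i * ew (E2 c) j) := by
        simp only [hG]
        rw [sec_self, sec_self]
        ring
      have h1 : e0 ^ 2 * ‖(sec j (γ ζ)).2 i - (sec j (γ c)).2 i‖ ≤
          ‖G ζ i * G c j - G ζ j * G c i‖ + C * ‖h ζ‖ := by
        calc e0 ^ 2 * ‖(sec j (γ ζ)).2 i - (sec j (γ c)).2 i‖
            ≤ ‖ew (E2 ζ) i * ew (E2 c) j‖ * ‖(sec j (γ ζ)).2 i - (sec j (γ c)).2 i‖ := by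
              apply mul_le_mul_of_nonneg_right _ (norm_nonneg _)
              rw [norm_mul, sq]
              exact mul_le_mul (hew i) (hew' j) he0p.le (norm_nonneg _)
          _ = ‖(G ζ i * G c j - G ζ j * G c i) +
            (sec j (γ c)).2 i * (ew (E2 ζ) j * ew (E2 c) i - ew (E2 ζ) i * ew (E2 c) j)‖ := by
              rw [← key, norm_mul, norm_mul, norm_mul]; ring
          _ ≤ ‖G ζ i * G c j - G ζ j * G c i‖ + B * (e1 * (2 * (L + 1)) * ‖h ζ‖) := by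
              refine (norm_add_le _ _).trans (add_le_add le_rfl ?_)
              rw [norm_mul]
              refine mul_le_mul ?_ ((ew_cross _ _ i j).trans hE) (norm_nonneg _) hB0.le
              exact (sec_norm_le j i _).trans (by rw [hB]; linarith)
          _ = _ := by rw [hC]; ring
      have h2 : 0 ≤ e0 ^ 2 * ‖(sec j (γ ζ)).2 i - (sec j (γ c)).2 i‖ := by positivity
      have h3 := pow_le_pow_left₀ h2 h1 2
      have h4 : (‖G ζ i * G c j - G ζ j * G c i‖ + C * ‖h ζ‖) ^ 2 ≤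
          2 * ‖G ζ i * G c j - G ζ j * G c i‖ ^ 2 + 2 * C ^ 2 * ‖h ζ‖ ^ 2 := by
        nlinarith [sq_nonneg (‖G ζ i * G c j - G ζ j * G c i‖ - C * ‖h ζ‖)]
      calc _ = (e0 ^ 2 * ‖(sec j (γ ζ)).2 i - (sec j (γ c)).2 i‖) ^ 2 := by ring
        _ ≤ _ := h3
        _ ≤ _ := h4
    have h0 : ‖γ ζ 0 - γ c 0‖ ^ 2 ≤ 4 * B ^ 2 * ‖h ζ‖ ^ 2 := by
      have e : γ ζ 0 - γ c 0 = γ c 0 * (Complex.exp (h ζ) - 1) := by
        simp only [hh]
        rw [Complex.exp_log (div_ne_zero a1 hu0)]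
        field_simp
      rw [e, norm_mul]
      have h1 := Complex.norm_exp_sub_one_le a2.le
      have h2 : ‖γ c 0‖ ≤ B := (norm_le_pi_norm (γ c) 0).trans (by rw [hB]; linarith)
      have h3 : ‖γ c 0‖ * ‖Complex.exp (h ζ) - 1‖ ≤ B * (2 * ‖h ζ‖) :=
        mul_le_mul h2 h1 (norm_nonneg _) hB0.le
      calc _ ≤ (B * (2 * ‖h ζ‖)) ^ 2 := pow_le_pow_left₀ (by positivity) h3 2
        _ = _ := by ring
    have hsum : e0 ^ 4 * ∑ i, ‖(sec j (γ ζ)).2 i - (sec j (γ c)).2 i‖ ^ 2 ≤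
        2 * (∑ i, ∑ j, ‖G ζ i * G c j - G ζ j * G c i‖ ^ 2) + 6 * C ^ 2 * ‖h ζ‖ ^ 2 := by
      rw [Finset.mul_sum]
      calc _ ≤ ∑ i, (2 * ‖G ζ i * G c j - G ζ j * G c i‖ ^ 2 + 2 * C ^ 2 * ‖h ζ‖ ^ 2) :=
            Finset.sum_le_sum fun i _ => hi i
        _ = 2 * (∑ i, ‖G ζ i * G c j - G ζ j * G c i‖ ^ 2) + 6 * C ^ 2 * ‖h ζ‖ ^ 2 := by
            rw [Finset.sum_add_distrib, ← Finset.mul_sum, Finset.sum_const]
            simp only [Finset.card_univ, Fintype.card_fin, nsmul_eq_mul]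
            push_cast
            ring
        _ ≤ _ := by
            have : ∑ i, ‖G ζ i * G c j - G ζ j * G c i‖ ^ 2 ≤
                ∑ i, ∑ j, ‖G ζ i * G c j - G ζ j * G c i‖ ^ 2 :=
              Finset.sum_le_sum fun i _ =>
                Finset.single_le_sum (f := fun j => ‖G ζ i * G c j - G ζ j * G c i‖ ^ 2)
                  (fun j _ => by positivity) (Finset.mem_univ j)
            linarith
    rw [sec_sum j]
    exact tail_est he0p (by positivity) (by positivity) h0 hsum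

/-- the averaging step -/
theorem kah_disc {m : ℕ} {γ : ℂ → E3} {c : ℂ} {W : Set E3} (hW : IsOpen W) {f : E3 → ℝ}
    (hf : ContinuousOn f W) (hγ : AnalyticAt ℂ γ c) (hc : γ c ∈ W) {F : ℂ → Fin m → ℂ}
    (hF : AnalyticAt ℂ F c) (hF0 : F c ≠ 0) {g h : ℂ → ℂ} (hg : AnalyticAt ℂ g c)
    (hh : AnalyticAt ℂ h c) {a b : ℝ}
    (hev : ∀ᶠ ζ in 𝓝 c, Real.log (∑ i, ‖F ζ i‖ ^ 2) + (g ζ).re + b * ‖h ζ‖ ^ 2 ≤ f (γ ζ) ∧
      a * ∑ k, ‖γ ζ k - γ c k‖ ^ 2 ≤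
        1 / 2 * ((∑ i, ∑ j, ‖F ζ i * F c j - F ζ j * F c i‖ ^ 2) /
          ((∑ i, ‖F ζ i‖ ^ 2) * ∑ i, ‖F c i‖ ^ 2)) + b * ‖h ζ‖ ^ 2)
    (hfc : f (γ c) = Real.log (∑ i, ‖F c i‖ ^ 2) + (g c).re) :
    ∃ ρ > 0, ∀ R, 0 < R → R < ρ →
      f (γ c) + a * Real.circleAverage (fun ζ => ∑ k, ‖γ ζ k - γ c k‖ ^ 2) c R ≤
        Real.circleAverage (fun ζ => f (γ ζ)) c R := by
  have hsc : 0 < ∑ i, ‖F c i‖ ^ 2 := by
    obtain ⟨i, hi⟩ := Function.ne_iff.1 hF0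
    have h1 : 0 < ‖F c i‖ ^ 2 := pow_pos (norm_pos_iff.2 hi) 2
    exact h1.trans_le (Finset.single_le_sum (f := fun i => ‖F c i‖ ^ 2)
      (fun i _ => by positivity) (Finset.mem_univ i))
  have hFi : ∀ i, AnalyticAt ℂ (fun ζ => F ζ i) c := (analyticAt_pi_iff).1 hF
  have hpos : ∀ᶠ ζ in 𝓝 c, 0 < ∑ i, ‖F ζ i‖ ^ 2 := by
    have h1 : ContinuousAt (fun ζ => ∑ i, ‖F ζ i‖ ^ 2) c :=
      tendsto_finset_sum _ fun i _ => (hFi i).continuousAt.norm.pow 2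
    exact h1.eventually (Ioi_mem_nhds hsc)
  have hγW : ∀ᶠ ζ in 𝓝 c, γ ζ ∈ W := hγ.continuousAt.eventually (hW.mem_nhds hc)
  obtain ⟨ρ1, hρ1, h1⟩ := Metric.eventually_nhds_iff_ball.1
    (((((hγ.eventually_analyticAt.and hF.eventually_analyticAt).and hg.eventually_analyticAt).and
      hh.eventually_analyticAt).and (hpos.and hγW)).and hev)
  obtain ⟨ρ2, hρ2, h2⟩ := log_norm_wedge hF hF0
  refine ⟨min ρ1 ρ2, lt_min hρ1 hρ2, fun R hR hRρ => ?_⟩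
  have hsub : closedBall c R ⊆ ball c ρ1 :=
    closedBall_subset_ball (hRρ.trans_le (min_le_left _ _))
  have hw := h2 R hR (hRρ.trans_le (min_le_right _ _))
  have cγ : ContinuousOn γ (closedBall c R) := fun ζ hζ =>
    ((h1 ζ (hsub hζ)).1.1.1.1.1).continuousAt.continuousWithinAt
  have cF : ContinuousOn F (closedBall c R) := fun ζ hζ =>
    ((h1 ζ (hsub hζ)).1.1.1.1.2).continuousAt.continuousWithinAt
  have cg : ContinuousOn g (closedBall c R) := fun ζ hζ =>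
    ((h1 ζ (hsub hζ)).1.1.1.2).continuousAt.continuousWithinAt
  have ch : ContinuousOn h (closedBall c R) := fun ζ hζ =>
    ((h1 ζ (hsub hζ)).1.1.2).continuousAt.continuousWithinAt
  have hp : ∀ ζ ∈ closedBall c R, 0 < ∑ i, ‖F ζ i‖ ^ 2 := fun ζ hζ => (h1 ζ (hsub hζ)).1.2.1
  have cFi : ∀ i, ContinuousOn (fun ζ => F ζ i) (closedBall c R) := fun i =>
    (continuous_apply i).comp_continuousOn cF
  have cs : ContinuousOn (fun ζ => ∑ i, ‖F ζ i‖ ^ 2) (closedBall c R) :=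
    continuousOn_finset_sum _ fun i _ => (cFi i).norm.pow 2
  have ci : ∀ {u : ℂ → ℝ}, ContinuousOn u (closedBall c R) → CircleIntegrable u c R :=
    fun hu => circleIntegrable_of hR.le (hu.mono sphere_subset_closedBall)
  have i1 : CircleIntegrable (fun ζ => Real.log (∑ i, ‖F ζ i‖ ^ 2)) c R :=
    ci (cs.log fun ζ hζ => (hp ζ hζ).ne')
  have cw : ContinuousOn (fun ζ => (∑ i, ∑ j, ‖F ζ i * F c j - F ζ j * F c i‖ ^ 2) /
          ((∑ i, ‖F ζ i‖ ^ 2) * ∑ i, ‖F c i‖ ^ 2)) (closedBall c R) := by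
    refine ContinuousOn.div ?_ (cs.mul continuousOn_const) fun ζ hζ =>
      (mul_pos (hp ζ hζ) hsc).ne'
    exact continuousOn_finset_sum _ fun i _ => continuousOn_finset_sum _ fun j _ =>
      ((((cFi i).mul continuousOn_const).sub ((cFi j).mul continuousOn_const)).norm.pow 2)
  have i2 := ci cw
  have i3 : CircleIntegrable (fun ζ => ‖h ζ‖ ^ 2) c R := ci (ch.norm.pow 2)
  have i4 : CircleIntegrable (fun ζ => (g ζ).re) c R :=
    ci (Complex.continuous_re.comp_continuousOn cg)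
  have i5 : CircleIntegrable (fun ζ => f (γ ζ)) c R :=
    ci (hf.comp cγ fun ζ hζ => (h1 ζ (hsub hζ)).1.2.2)
  have cγk : ∀ k, ContinuousOn (fun ζ => γ ζ k) (closedBall c R) := fun k =>
    (continuous_apply k).comp_continuousOn cγ
  have i6 : CircleIntegrable (fun ζ => ∑ k, ‖γ ζ k - γ c k‖ ^ 2) c R :=
    ci (continuousOn_finset_sum _ fun k _ => ((cγk k).sub continuousOn_const).norm.pow 2)
  have i3b : CircleIntegrable (fun ζ => b * ‖h ζ‖ ^ 2) c R :=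
    ci (continuousOn_const.mul (ch.norm.pow 2))
  have i2b : CircleIntegrable (fun ζ => 1 / 2 * ((∑ i, ∑ j, ‖F ζ i * F c j - F ζ j * F c i‖ ^ 2) /
          ((∑ i, ‖F ζ i‖ ^ 2) * ∑ i, ‖F c i‖ ^ 2))) c R := ci (continuousOn_const.mul cw)
  have i6b : CircleIntegrable (fun ζ => a * ∑ k, ‖γ ζ k - γ c k‖ ^ 2) c R :=
    ci (continuousOn_const.mul
      (continuousOn_finset_sum _ fun k _ => ((cγk k).sub continuousOn_const).norm.pow 2))
  have sm : ∀ (t : ℝ) (u : ℂ → ℝ), Real.circleAverage (fun ζ => t * u ζ) c R =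
      t * Real.circleAverage u c R := fun t u =>
    Real.circleAverage_fun_smul (a := t) (f := u)
  have hre : (g c).re ≤ Real.circleAverage (fun ζ => (g ζ).re) c R := by
    have hga : AnalyticOnNhd ℂ g (ball c ρ1) := fun ζ hζ => (h1 ζ hζ).1.1.1.2
    exact (PshE.re hga).2 (fun ζ => ζ) c R hR (fun ζ _ => analyticAt_id) (fun ζ hζ => hsub hζ)
  have m1 : Real.circleAverage (fun ζ => Real.log (∑ i, ‖F ζ i‖ ^ 2)) c R +
      Real.circleAverage (fun ζ => (g ζ).re) c R +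
      b * Real.circleAverage (fun ζ => ‖h ζ‖ ^ 2) c R ≤
      Real.circleAverage (fun ζ => f (γ ζ)) c R := by
    have i14 : CircleIntegrable (fun ζ => Real.log (∑ i, ‖F ζ i‖ ^ 2) + (g ζ).re) c R :=
      CircleIntegrable.add i1 i4
    rw [← sm b, ← Real.circleAverage_fun_add i1 i4, ← Real.circleAverage_fun_add i14 i3b]
    refine avg_mono hR (i14.add i3b) i5 fun ζ hζ => ?_
    exact (h1 ζ (hsub (sphere_subset_closedBall hζ))).2.1
  have m2 : a * Real.circleAverage (fun ζ => ∑ k, ‖γ ζ k - γ c k‖ ^ 2) c R ≤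
      1 / 2 * Real.circleAverage (fun ζ => (∑ i, ∑ j, ‖F ζ i * F c j - F ζ j * F c i‖ ^ 2) /
          ((∑ i, ‖F ζ i‖ ^ 2) * ∑ i, ‖F c i‖ ^ 2)) c R +
        b * Real.circleAverage (fun ζ => ‖h ζ‖ ^ 2) c R := by
    rw [← sm b, ← sm (1 / 2), ← sm a, ← Real.circleAverage_fun_add i2b i3b]
    refine avg_mono hR i6b (i2b.add i3b) fun ζ hζ => ?_
    exact (h1 ζ (hsub (sphere_subset_closedBall hζ))).2.2
  rw [hfc]
  linarith

/-- `log N + (log ‖z‖) ^ 2` is strict in the base charts. Centre trick: for `z` near `z0`,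
`2 qq z = 2 Re k(z) + ‖log z - log z0‖ ^ 2 / (2 log 4)` with `k` analytic, hence
`N ≥ ‖x0‖ ^ 2 + ‖x1‖ ^ 2 + ‖x2 e ^ k‖ ^ 2` with equality at the centre -/
theorem strict_base (j : Fin 3) {y : E3} (hy : y 0 ≠ 0) :
    StrictE (fun y => Real.log (nN (sec j y)) + Real.log ‖y 0‖ ^ 2) y := by
  obtain ⟨K, hK, M, hM, e, he, W, hWo, hyW, hW0, hcore⟩ := kah_core j hy
  have hNpos : ∀ u, 0 < nN (sec j u) := fun u => nN_sec_pos j u
  have hcont : ContinuousOn (fun y : E3 => Real.log (nN (sec j y)) + Real.log ‖y 0‖ ^ 2) W := by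
    intro u hu
    have h1 : ContinuousAt (fun u : E3 => nN (sec j u)) u :=
      ContinuousAt.comp (g := nN) (f := fun u : E3 => sec j u)
        (nN_smooth (p := sec j u) (hW0 u hu)).continuousAt (sec_analytic j u).continuousAt
    have h2 : ContinuousAt (fun u : E3 => Real.log ‖u 0‖) u :=
      (continuous_apply (0 : Fin 3)).continuousAt.norm.log (norm_ne_zero_iff.2 (hW0 u hu))
    exact ((h1.log (hNpos u).ne').add (h2.pow 2)).continuousWithinAt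
  refine StrictE.of_disc hWo hyW hcont (a := (2 * K * (4 * M ^ 2 + 1))⁻¹) (by positivity) ?_
  intro γ c hγ hc
  obtain ⟨h, G, hha, hGa, hh0, hev⟩ := hcore γ c hγ hc
  set l : ℝ := Real.log ‖γ c 0‖ with hl
  obtain ⟨-, hcN, -, -, hcp, hcM, -, -⟩ := hev.self_of_nhds
  have hGc0 : G c ≠ 0 := by
    intro h0
    rw [h0] at hcp
    simp at hcp
  have hcN' : nN (sec j (γ c)) = ∑ i, ‖G c i‖ ^ 2 := by
    rw [hcN, hh0, Fin.sum_univ_three]
    simp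
  have hga : AnalyticAt ℂ (fun ζ => (l : ℂ) ^ 2 + 2 * (l : ℂ) * h ζ + (h ζ) ^ 2 / 2) c :=
    (analyticAt_const.add (analyticAt_const.mul hha)).add ((hha.pow 2).div analyticAt_const
      (by norm_num))
  refine kah_disc hWo hcont hγ hc hGa hGc0 hga hha (b := 1 / 2) ?_ ?_
  · filter_upwards [hev] with ζ hζ
    obtain ⟨z1, z2, -, -, z5, z6, z7, z8⟩ := hζ
    constructor
    · have h1 : Real.log (∑ i, ‖G ζ i‖ ^ 2) ≤ Real.log (nN (sec j (γ ζ))) := by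
        apply Real.log_le_log z5
        rw [z2, Fin.sum_univ_three]
        have h2 : 1 ≤ Real.exp (‖h ζ‖ ^ 2 / (2 * Real.log 4)) :=
          Real.one_le_exp (div_nonneg (by positivity) (by linarith [one_le_log4]))
        have h3 : ‖G ζ 2‖ ^ 2 * 1 ≤ ‖G ζ 2‖ ^ 2 * Real.exp (‖h ζ‖ ^ 2 / (2 * Real.log 4)) :=
          mul_le_mul_of_nonneg_left h2 (by positivity)
        linarith
      have h4 : ((l : ℂ) ^ 2 + 2 * (l : ℂ) * h ζ + (h ζ) ^ 2 / 2).re + 1 / 2 * ‖h ζ‖ ^ 2 =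
          Real.log ‖γ ζ 0‖ ^ 2 := by
        rw [z1]
        have e2 : (h ζ ^ 2 / 2 : ℂ).re = ((h ζ).re ^ 2 - (h ζ).im ^ 2) / 2 := by
          have := Complex.div_ofReal_re (h ζ ^ 2) 2
          rw [show ((2 : ℝ) : ℂ) = 2 by norm_num] at this
          rw [this, sq, Complex.mul_re]
          ring
        have e3 : (2 * (l : ℂ) * h ζ).re = 2 * l * (h ζ).re := by
          have : (2 * (l : ℂ) * h ζ) = ((2 * l : ℝ) : ℂ) * h ζ := by push_cast; ring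
          rw [this, Complex.re_ofReal_mul]
        have e4 : ((l : ℂ) ^ 2).re = l ^ 2 := by
          rw [← Complex.ofReal_pow, Complex.ofReal_re]
        have e5 : ‖h ζ‖ ^ 2 = (h ζ).re ^ 2 + (h ζ).im ^ 2 := by
          rw [Complex.sq_norm, Complex.normSq_apply]; ring
        rw [Complex.add_re, Complex.add_re, e2, e3, e4, e5]
        ring
      show Real.log (∑ i, ‖G ζ i‖ ^ 2) +
        ((l : ℂ) ^ 2 + 2 * (l : ℂ) * h ζ + (h ζ) ^ 2 / 2).re + 1 / 2 * ‖h ζ‖ ^ 2 ≤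
        Real.log (nN (sec j (γ ζ))) + Real.log ‖γ ζ 0‖ ^ 2
      linarith
    · set Wd := ∑ i, ∑ j, ‖G ζ i * G c j - G ζ j * G c i‖ ^ 2 with hWd
      have hWd0 : 0 ≤ Wd := by positivity
      have h1 : Wd ≤ 4 * M ^ 2 * (Wd / ((∑ i, ‖G ζ i‖ ^ 2) * ∑ i, ‖G c i‖ ^ 2)) := by
        have h2 : (∑ i, ‖G ζ i‖ ^ 2) * ∑ i, ‖G c i‖ ^ 2 ≤ 4 * M ^ 2 := by
          calc _ ≤ (2 * M) * (2 * M) := mul_le_mul z6 hcM hcp.le (by linarith)
            _ = _ := by ring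
        have h3 : 0 < (∑ i, ‖G ζ i‖ ^ 2) * ∑ i, ‖G c i‖ ^ 2 := mul_pos z5 hcp
        rw [mul_div_assoc', le_div_iff₀ h3, mul_comm]
        exact mul_le_mul_of_nonneg_right h2 hWd0
      set w := Wd / ((∑ i, ‖G ζ i‖ ^ 2) * ∑ i, ‖G c i‖ ^ 2) with hw
      have hw0 : 0 ≤ w := div_nonneg hWd0 (mul_pos z5 hcp).le
      have h4 : ∑ k, ‖γ ζ k - γ c k‖ ^ 2 ≤
          (2 * K * (4 * M ^ 2 + 1)) * (1 / 2 * w + 1 / 2 * ‖h ζ‖ ^ 2) := by
        refine z8.trans ?_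
        have h5 : Wd + ‖h ζ‖ ^ 2 ≤ (4 * M ^ 2 + 1) * (w + ‖h ζ‖ ^ 2) := by
          have h6 : 0 ≤ 4 * M ^ 2 * ‖h ζ‖ ^ 2 := by positivity
          nlinarith
        calc K * (Wd + ‖h ζ‖ ^ 2) ≤ K * ((4 * M ^ 2 + 1) * (w + ‖h ζ‖ ^ 2)) :=
              mul_le_mul_of_nonneg_left h5 hK.le
          _ = _ := by ring
      rw [inv_mul_le_iff₀ (by positivity)]
      exact h4
  · show Real.log (nN (sec j (γ c))) + Real.log ‖γ c 0‖ ^ 2 = _
    rw [hcN', hh0]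
    have : ((l : ℂ) ^ 2 + 2 * (l : ℂ) * 0 + (0 : ℂ) ^ 2 / 2).re = l ^ 2 := by
      have e4 : ((l : ℂ) ^ 2).re = l ^ 2 := by
        rw [← Complex.ofReal_pow, Complex.ofReal_re]
      simpa using e4
    rw [this]

lemma wedge_cast {m : ℕ} (G G' : Fin m → ℂ) (a b : ℂ) :
    ∑ i, ∑ j, ‖G i * G' j - G j * G' i‖ ^ 2 ≤
      ∑ i, ∑ j, ‖(Fin.snoc G a : Fin (m + 1) → ℂ) i * (Fin.snoc G' b : Fin (m + 1) → ℂ) j -
        (Fin.snoc G a : Fin (m + 1) → ℂ) j * (Fin.snoc G' b : Fin (m + 1) → ℂ) i‖ ^ 2 := by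
  rw [Fin.sum_univ_castSucc]
  have h1 : 0 ≤ ∑ j, ‖(Fin.snoc G a : Fin (m + 1) → ℂ) (Fin.last m) *
      (Fin.snoc G' b : Fin (m + 1) → ℂ) j -
        (Fin.snoc G a : Fin (m + 1) → ℂ) j *
          (Fin.snoc G' b : Fin (m + 1) → ℂ) (Fin.last m)‖ ^ 2 := by
    positivity
  have h2 : ∀ i : Fin m, ∑ j, ‖G i * G' j - G j * G' i‖ ^ 2 ≤
      ∑ j, ‖(Fin.snoc G a : Fin (m + 1) → ℂ) i.castSucc * (Fin.snoc G' b : Fin (m + 1) → ℂ) j -
        (Fin.snoc G a : Fin (m + 1) → ℂ) j *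
          (Fin.snoc G' b : Fin (m + 1) → ℂ) i.castSucc‖ ^ 2 := by
    intro i
    rw [Fin.sum_univ_castSucc]
    simp only [Fin.snoc_castSucc]
    have h3 : 0 ≤ ‖G i * (Fin.snoc G' b : Fin (m + 1) → ℂ) (Fin.last m) -
      (Fin.snoc G a : Fin (m + 1) → ℂ) (Fin.last m) * G' i‖ ^ 2 := by positivity
    linarith
  have h4 := Finset.sum_le_sum fun (i : Fin m) (_ : i ∈ Finset.univ) => h2 i
  linarith

/-- `log N` is strict where `x2 ≠ 0` -/
theorem strict_N {y : E3} (hy : y 0 ≠ 0) (h2 : y 2 ≠ 0) :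
    StrictE (fun y => Real.log (nN (sec 0 y))) y := by
  obtain ⟨K, hK, M, hM, e, he, W0, hWo0, hyW0, hW0', hcore⟩ := kah_core 0 hy
  have hm : 0 < ‖y 2‖ := norm_pos_iff.2 h2
  set t : ℝ := ‖y 2‖ / 2 with ht
  have ht0 : 0 < t := by rw [ht]; positivity
  set W : Set E3 := W0 ∩ {u | t < ‖u 2‖} with hWdef
  have hWo : IsOpen W := hWo0.inter
    (isOpen_lt continuous_const (continuous_apply (2 : Fin 3)).norm)
  have hyW : y ∈ W := ⟨hyW0, by show t < ‖y 2‖; rw [ht]; linarith⟩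
  have hW0 : ∀ u ∈ W, u 0 ≠ 0 := fun u hu => hW0' u hu.1
  have hcont : ContinuousOn (fun y : E3 => Real.log (nN (sec 0 y))) W := by
    intro u hu
    have h1 : ContinuousAt (fun u : E3 => nN (sec 0 u)) u :=
      ContinuousAt.comp (g := nN) (f := fun u : E3 => sec 0 u)
        (nN_smooth (p := sec 0 u) (hW0 u hu)).continuousAt (sec_analytic 0 u).continuousAt
    exact (h1.log (nN_sec_pos 0 u).ne').continuousWithinAt
  have hlog : 0 < 2 * Real.log 4 := by linarith [one_le_log4]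
  set q : ℝ := Real.sqrt (2 * Real.log 4) with hq
  have hq2 : q ^ 2 = 2 * Real.log 4 := Real.sq_sqrt hlog.le
  have hq0 : 0 < q := Real.sqrt_pos.2 hlog
  set c1 : ℝ := e * t ^ 2 / (2 * Real.log 4) with hc1
  have hc10 : 0 < c1 := by rw [hc1]; positivity
  refine StrictE.of_disc hWo hyW hcont (a := (2 * (K * (1 + 1 / c1) * (8 * M ^ 2)))⁻¹)
    (by positivity) ?_
  intro γ c hγ hc
  obtain ⟨h, G, hha, hGa, hh0, hev⟩ := hcore γ c hγ hc.1
  obtain ⟨-, hcN, hcG, -, hcp, hcM, -, -⟩ := hev.self_of_nhds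
  have hx0 : ∀ u, (sec 0 u).2 0 = 1 := fun u => sec_self 0 u
  have hx2 : ∀ u, (sec 0 u).2 2 = u 2 := fun u => by simp [sec]
  have hγW : ∀ᶠ ζ in 𝓝 c, γ ζ ∈ W := hγ.continuousAt.eventually (hWo.mem_nhds hc)
  set F : ℂ → Fin 4 → ℂ := fun ζ => Fin.snoc (G ζ) (G ζ 2 * h ζ * ((q⁻¹ : ℝ) : ℂ)) with hF
  have hFs : ∀ ζ (i : Fin 3), F ζ i.castSucc = G ζ i := fun ζ i => by
    simp only [hF]; exact Fin.snoc_castSucc (α := fun _ => ℂ) _ _ i
  have hFl : ∀ ζ, F ζ (Fin.last 3) = G ζ 2 * h ζ * ((q⁻¹ : ℝ) : ℂ) := fun ζ => by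
    simp only [hF]; exact Fin.snoc_last (α := fun _ => ℂ) _ _
  have hGi : ∀ i, AnalyticAt ℂ (fun ζ => G ζ i) c := (analyticAt_pi_iff).1 hGa
  have hFa : AnalyticAt ℂ F c := by
    rw [analyticAt_pi_iff]
    intro i
    refine Fin.lastCases ?_ (fun i => ?_) i
    · have : (fun ζ => F ζ (Fin.last 3)) = fun ζ => G ζ 2 * h ζ * ((q⁻¹ : ℝ) : ℂ) := by
        funext ζ; exact hFl ζ
      rw [this]
      exact ((hGi 2).mul hha).mul analyticAt_const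
    · have : (fun ζ => F ζ i.castSucc) = fun ζ => G ζ i := by
        funext ζ; exact hFs ζ i
      rw [this]
      exact hGi i
  have hFsum : ∀ ζ, ∑ i, ‖F ζ i‖ ^ 2 = ∑ i, ‖G ζ i‖ ^ 2 +
      ‖G ζ 2‖ ^ 2 * (‖h ζ‖ ^ 2 / (2 * Real.log 4)) := by
    intro ζ
    rw [Fin.sum_univ_castSucc]
    simp only [hFs, hFl]
    rw [norm_mul, norm_mul, Complex.norm_real, Real.norm_eq_abs, mul_pow, mul_pow, sq_abs,
      inv_pow, hq2]
    ring
  have hFcl : F c (Fin.last 3) = 0 := by rw [hFl, hh0]; simp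
  have hFc : ∑ i, ‖F c i‖ ^ 2 = ∑ i, ‖G c i‖ ^ 2 := by
    rw [hFsum, hh0]; simp
  have hFc0 : F c ≠ 0 := by
    intro h0
    have h1 : ∑ i, ‖F c i‖ ^ 2 = 0 := by rw [h0]; simp
    rw [hFc] at h1
    exact hcp.ne' h1
  have hcN' : nN (sec 0 (γ c)) = ∑ i, ‖F c i‖ ^ 2 := by
    rw [hFc, hcN, hh0, Fin.sum_univ_three]
    simp
  refine kah_disc hWo hcont hγ hc hFa hFc0 (g := fun _ => 0) analyticAt_const hha (b := 0) ?_ ?_
  · filter_upwards [hev, hγW] with ζ hζ hζW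
    obtain ⟨z1, z2, z3, z4, z5, z6, z7, z8⟩ := hζ
    have hFp : 0 < ∑ i, ‖F ζ i‖ ^ 2 := by
      rw [hFsum]
      have : 0 ≤ ‖G ζ 2‖ ^ 2 * (‖h ζ‖ ^ 2 / (2 * Real.log 4)) := by positivity
      linarith
    constructor
    · have h1 : Real.log (∑ i, ‖F ζ i‖ ^ 2) ≤ Real.log (nN (sec 0 (γ ζ))) := by
        apply Real.log_le_log hFp
        rw [z2, hFsum, Fin.sum_univ_three]
        have h2 := Real.add_one_le_exp (‖h ζ‖ ^ 2 / (2 * Real.log 4))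
        have h3 : ‖G ζ 2‖ ^ 2 * (‖h ζ‖ ^ 2 / (2 * Real.log 4) + 1) ≤
            ‖G ζ 2‖ ^ 2 * Real.exp (‖h ζ‖ ^ 2 / (2 * Real.log 4)) :=
          mul_le_mul_of_nonneg_left h2 (by positivity)
        linarith
      simpa using h1
    · set Wd := ∑ i, ∑ j, ‖G ζ i * G c j - G ζ j * G c i‖ ^ 2 with hWd
      set Wf := ∑ i, ∑ j, ‖F ζ i * F c j - F ζ j * F c i‖ ^ 2 with hWf
      have hWd0 : 0 ≤ Wd := by positivity
      have hWf0 : 0 ≤ Wf := by positivity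
      have hle : Wd ≤ Wf := wedge_cast _ _ _ _
      have hlast : c1 * ‖h ζ‖ ^ 2 ≤ Wf := by
        have h1 : ‖F ζ 0 * F c (Fin.last 3) - F ζ (Fin.last 3) * F c 0‖ ^ 2 ≤ Wf := by
          have h2 : ‖F ζ 0 * F c (Fin.last 3) - F ζ (Fin.last 3) * F c 0‖ ^ 2 ≤
              ∑ j, ‖F ζ 0 * F c j - F ζ j * F c 0‖ ^ 2 :=
            Finset.single_le_sum (f := fun j => ‖F ζ 0 * F c j - F ζ j * F c 0‖ ^ 2)
              (fun j _ => by positivity) (Finset.mem_univ (Fin.last 3))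
          exact h2.trans (Finset.single_le_sum
            (f := fun i => ∑ j, ‖F ζ i * F c j - F ζ j * F c i‖ ^ 2)
            (fun i _ => by positivity) (Finset.mem_univ (0 : Fin 4)))
        have h3 : F c 0 = 1 := by
          have : F c 0 = G c 0 := hFs c 0
          rw [this, hcG, hx0]
        rw [hFcl, h3, mul_zero, mul_one, zero_sub, norm_neg, hFl] at h1
        refine le_trans ?_ h1
        rw [norm_mul, norm_mul, Complex.norm_real, Real.norm_eq_abs, mul_pow, mul_pow, sq_abs,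
          inv_pow, hq2, hc1]
        have h4 : e * t ^ 2 ≤ ‖G ζ 2‖ ^ 2 := by
          refine le_trans ?_ z4
          rw [hx2]
          exact mul_le_mul_of_nonneg_left (pow_le_pow_left₀ ht0.le (hζW.2).le 2) he.le
        have h5 : e * t ^ 2 * (‖h ζ‖ ^ 2 * (2 * Real.log 4)⁻¹) ≤
            ‖G ζ 2‖ ^ 2 * (‖h ζ‖ ^ 2 * (2 * Real.log 4)⁻¹) :=
          mul_le_mul_of_nonneg_right h4 (by positivity)
        calc _ = e * t ^ 2 * (‖h ζ‖ ^ 2 * (2 * Real.log 4)⁻¹) := by ring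
          _ ≤ _ := h5
          _ = _ := by ring
      have hFM : (∑ i, ‖F ζ i‖ ^ 2) * ∑ i, ‖F c i‖ ^ 2 ≤ 8 * M ^ 2 := by
        have h1 : ∑ i, ‖F ζ i‖ ^ 2 ≤ 4 * M := by
          rw [hFsum]
          have h3 : ‖h ζ‖ ^ 2 / (2 * Real.log 4) ≤ 1 := by
            rw [div_le_one hlog]
            have : ‖h ζ‖ ^ 2 ≤ 1 := pow_le_one₀ (norm_nonneg _) z7
            linarith [one_le_log4]
          have h4 : ‖G ζ 2‖ ^ 2 ≤ ∑ i, ‖G ζ i‖ ^ 2 :=
            Finset.single_le_sum (f := fun i => ‖G ζ i‖ ^ 2)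
              (fun i _ => by positivity) (Finset.mem_univ (2 : Fin 3))
          have h5 : ‖G ζ 2‖ ^ 2 * (‖h ζ‖ ^ 2 / (2 * Real.log 4)) ≤ ‖G ζ 2‖ ^ 2 * 1 :=
            mul_le_mul_of_nonneg_left h3 (by positivity)
          linarith
        have h2 : ∑ i, ‖F c i‖ ^ 2 ≤ 2 * M := by rw [hFc]; exact hcM
        calc _ ≤ (4 * M) * (2 * M) :=
              mul_le_mul h1 h2 (by rw [hFc]; exact hcp.le) (by linarith)
          _ = _ := by ring
      have hFF : 0 < (∑ i, ‖F ζ i‖ ^ 2) * ∑ i, ‖F c i‖ ^ 2 := by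
        rw [hFc]; exact mul_pos hFp hcp
      have h1 : Wf ≤ 8 * M ^ 2 * (Wf / ((∑ i, ‖F ζ i‖ ^ 2) * ∑ i, ‖F c i‖ ^ 2)) := by
        rw [mul_div_assoc', le_div_iff₀ hFF, mul_comm]
        exact mul_le_mul_of_nonneg_right hFM hWf0
      set w := Wf / ((∑ i, ‖F ζ i‖ ^ 2) * ∑ i, ‖F c i‖ ^ 2) with hw
      have h4 : ∑ k, ‖γ ζ k - γ c k‖ ^ 2 ≤
          (2 * (K * (1 + 1 / c1) * (8 * M ^ 2))) * (1 / 2 * w + 0 * ‖h ζ‖ ^ 2) := by
        refine z8.trans ?_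
        have h5 : ‖h ζ‖ ^ 2 ≤ 1 / c1 * Wf := by
          rw [one_div, ← div_eq_inv_mul, le_div_iff₀ hc10, mul_comm]
          exact hlast
        have h6 : Wd + ‖h ζ‖ ^ 2 ≤ (1 + 1 / c1) * Wf := by
          calc _ ≤ Wf + 1 / c1 * Wf := add_le_add hle h5
            _ = _ := by ring
        have h7 : 0 ≤ 1 + 1 / c1 := by positivity
        calc K * (Wd + ‖h ζ‖ ^ 2) ≤ K * ((1 + 1 / c1) * (8 * M ^ 2 * w)) :=
              mul_le_mul_of_nonneg_left (h6.trans (mul_le_mul_of_nonneg_left h1 h7)) hK.le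
          _ = _ := by ring
      rw [inv_mul_le_iff₀ (by positivity)]
      exact h4
  · show Real.log (nN (sec 0 (γ c))) = _
    rw [hcN']
    simp

end RG
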