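import Pool.Agent.H14.RG.PotA

/-!
# Module O2: the potentials of the two forms, and the function `φ`
-/

open scoped Topology ContDiff
open Set Metric

namespace RG

/-- the potential of the semi-positive big form -/
noncomputable def potW (C : Cst) : Pot C where
  F := Psi C.m C.d C.A
  Fs := fun t => Psis t (C.M t)
  α := 2
  β := 1 / 2
  b := 0
  c := 0
  sc' := fun p hp hZ t ht => psi_sc C.hm C.hd C.hA ht hp hZ
  gG' := fun p hp _ n => by simp [psi_gG C.hd n hp]
  scs := fun t ht y hy r hr s hs => psis_sc C.r_lt (C.sharp t ht) C.hd.pos hy hr hs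
  link := fun t ht y hy r hr s hs h =>
    psis_link C.hm C.hd C.hA C.r_lt (C.sharp t ht) hy hr hs h

theorem potW_smooth (C : Cst) : (potW C).Smooth where
  sm := fun _ hp hZ => psi_smooth C.hm C.hd C.hA hp hZ
  sms := fun t ht _ hq => psis_smooth C.r_lt (C.sharp t ht) C.hd.pos hq

theorem log_nN_sc {t : ℂ} (ht : t ≠ 0) {p : V4} (hp : p ∈ Mh) :
    Real.log (nN (sc t p)) = Real.log (nN p) + 2 * Real.log ‖t‖ := by
  have h1 : 0 < ‖t‖ := norm_pos_iff.2 ht
  rw [nN_sc, Real.log_mul (by positivity) (nN_pos hp).ne', Real.log_pow]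
  push_cast
  ring

theorem log_tau_mul (n : ℤ) {z : ℂ} (hz : z ≠ 0) :
    Real.log ‖tau ^ n * z‖ = n * Real.log (1 / 4) + Real.log ‖z‖ := by
  have h1 : 0 < ‖z‖ := norm_pos_iff.2 hz
  have h2 : (0 : ℝ) < (1 / 4 : ℝ) ^ n := by positivity
  rw [norm_mul, norm_zpow, norm_tau, Real.log_mul h2.ne' h1.ne', Real.log_zpow]

/-- the potential of the Kaehler form -/
noncomputable def potK (C : Cst) : Pot C where
  F := fun p => Real.log (nN p) + Real.log ‖p.1‖ ^ 2 + Psi C.m C.d C.A p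
  Fs := fun t y r => Real.log (nN (aff t y)) + Real.log ‖(aff t y).1‖ ^ 2 + Psis t (C.M t) y r
  α := 4
  β := 1 / 2
  b := fun n => 2 * n * Real.log (1 / 4)
  c := fun n => (n * Real.log (1 / 4)) ^ 2
  sc' := by
    intro p hp hZ t ht
    simp only [log_nN_sc ht hp, sc_fst, psi_sc C.hm C.hd C.hA ht hp hZ]
    ring
  gG' := by
    intro p hp _ n
    have h1 : (gG n p).1 = tau ^ n * p.1 := rfl
    simp only [nN_gG n hp.1, psi_gG C.hd n hp, h1, log_tau_mul n hp.1]
    ring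
  scs := by
    intro t ht y hy r hr s hs
    simp only [psis_sc C.r_lt (C.sharp t ht) C.hd.pos hy hr hs]
    ring
  link := by
    intro t ht y hy r hr s hs h
    simp only [psis_link C.hm C.hd C.hA C.r_lt (C.sharp t ht) hy hr hs h]
    ring

theorem log_nN_smooth {p : V4} (hp : p ∈ Mh) : ContDiffAt ℝ ∞ (fun p => Real.log (nN p)) p :=
  (nN_smooth hp.1).log (nN_pos hp).ne'

theorem log_fst_smooth {p : V4} (hp : p.1 ≠ 0) :
    ContDiffAt ℝ ∞ (fun p : V4 => Real.log ‖p.1‖ ^ 2) p := by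
  have h1 : ContDiffAt ℝ ∞ (fun z : ℂ => Real.log ‖z‖) p.1 :=
    (contDiffAt_norm ℝ hp).log (norm_ne_zero_iff.2 hp)
  exact (ContDiffAt.comp (g := fun z : ℂ => Real.log ‖z‖) (f := fun p : V4 => p.1) p h1
    contDiffAt_fst).pow 2

theorem potK_smooth (C : Cst) : (potK C).Smooth where
  sm := fun p hp hZ => ((log_nN_smooth hp).add (log_fst_smooth hp.1)).add
    (psi_smooth C.hm C.hd C.hA hp hZ)
  sms := by
    intro t ht q hq
    have hM : aff t q.1 ∈ Mh := aff_mem C.r_lt hq.1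
    have h0 : AnalyticAt ℂ (fun q : E3 × E3 => aff t q.1) q :=
      AnalyticAt.comp (g := aff t) (f := fun q : E3 × E3 => q.1) (x := q)
        (aff_analytic t q.1) analyticAt_fst
    have h1 : ContDiffAt ℝ ∞ (fun q : E3 × E3 => aff t q.1) q := contDiffAt_of_analyticAt h0
    have h2 : ContDiffAt ℝ ∞ (fun p : V4 => Real.log (nN p) + Real.log ‖p.1‖ ^ 2) (aff t q.1) :=
      (log_nN_smooth hM).add (log_fst_smooth hM.1)
    have h3 : ContDiffAt ℝ ∞ (fun q : E3 × E3 =>
        Real.log (nN (aff t q.1)) + Real.log ‖(aff t q.1).1‖ ^ 2) q :=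
      ContDiffAt.comp (g := fun p : V4 => Real.log (nN p) + Real.log ‖p.1‖ ^ 2)
        (f := fun q : E3 × E3 => aff t q.1) q h2 h1
    exact h3.add (psis_smooth C.r_lt (C.sharp t ht) C.hd.pos hq)

/-- the potential given by `Phi` -/
noncomputable def potF (C : Cst) : Pot C where
  F := Phi C.d C.d0 C.K
  Fs := fun t => Phis C.d0 C.K t (C.M t)
  α := 2
  β := 1 / 2
  b := 0
  c := 0
  sc' := fun p hp hZ t ht => phi_sc C.hd C.hK ht hp hZ
  gG' := fun p hp _ n => by simp [phi_gG C.hd n hp]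
  scs := fun t ht y hy r hr s hs => phis_sc C.hd C.hK C.r_lt (C.sharp t ht) hy hr hs
  link := fun t ht y hy r hr s hs h =>
    phis_link C.hd C.hK C.r_lt (C.sharp t ht) hy hr hs h

/-- the difference `Phi - Psi` -/
noncomputable def potD (C : Cst) : Pot C where
  F := fun p => Phi C.d C.d0 C.K p - Psi C.m C.d C.A p
  Fs := fun t y r => Phis C.d0 C.K t (C.M t) y r - Psis t (C.M t) y r
  α := 0
  β := 0
  b := 0
  c := 0
  sc' := by
    intro p hp hZ t ht
    rw [phi_sc C.hd C.hK ht hp hZ, psi_sc C.hm C.hd C.hA ht hp hZ]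
    ring
  gG' := by
    intro p hp _ n
    rw [phi_gG C.hd n hp, psi_gG C.hd n hp]
    simp
  scs := by
    intro t ht y hy r hr s hs
    rw [phis_sc C.hd C.hK C.r_lt (C.sharp t ht) hy hr hs,
      psis_sc C.r_lt (C.sharp t ht) C.hd.pos hy hr hs]
    ring
  link := by
    intro t ht y hy r hr s hs h
    rw [phis_link C.hd C.hK C.r_lt (C.sharp t ht) hy hr hs h,
      psis_link C.hm C.hd C.hA C.r_lt (C.sharp t ht) hy hr hs h]
    ring

theorem potD_R (C : Cst) (i : C.P.ι) (y : E3) :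
    (potD C).R i y + (potW C).R i y = (potF C).R i y := by
  rcases i with i | ⟨t, l⟩
  · change Phi C.d C.d0 C.K (sec i.2 y) - Psi C.m C.d C.A (sec i.2 y)
      + Psi C.m C.d C.A (sec i.2 y) = Phi C.d C.d0 C.K (sec i.2 y)
    ring
  · change Phis C.d0 C.K (Pot.rt C t) (C.M (Pot.rt C t)) (bl l y) (dir l y)
      - Psis (Pot.rt C t) (C.M (Pot.rt C t)) (bl l y) (dir l y)
      + Psis (Pot.rt C t) (C.M (Pot.rt C t)) (bl l y) (dir l y)
      = Phis C.d0 C.K (Pot.rt C t) (C.M (Pot.rt C t)) (bl l y) (dir l y)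
    ring

/-- the continuous function `φ` on `X` -/
theorem exists_phi (C : Cst) : ∃ φ : C.X → ℝ, Continuous φ ∧
    (∀ i, ∀ y ∈ C.P.U i, φ (C.P.ψ i y) = (potD C).R i y) ∧
    ∀ i, PshE (fun y => φ (C.P.ψ i y) + (potW C).R i y) (C.P.U i) := by
  obtain ⟨φ, hφ, hR⟩ := Pot.exists_fun (potD C) rfl rfl (fun _ => rfl) (fun _ => rfl)
    ((phi_psh C.hd C.hK).1.sub (psi_psh C.hm C.hd C.hA).1)
    (fun t ht => (phis_psh C.hd C.hK C.r_lt (C.sharp t ht)).1.sub
      (psis_psh C.r_lt (C.sharp t ht) C.hd.pos).1)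
  refine ⟨φ, hφ, hR, fun i => ?_⟩
  refine (Pot.psh (potF C) (phi_psh C.hd C.hK)
    (fun t ht => phis_psh C.hd C.hK C.r_lt (C.sharp t ht)) i).congr fun y hy => ?_
  rw [hR i y hy, potD_R]

end RG
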