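import Pool.Agent.H14.RG.KahA
import Pool.Agent.H14.RG.PotM

/-!
# Module P2: strictness near the exceptional divisors
-/

open scoped Topology ContDiff
open Set Metric

namespace RG

/-- the wedge ratio -/
noncomputable def kbW {m : ℕ} (a b : Fin m → ℂ) : ℝ :=
  (∑ i, ∑ j, ‖a i * b j - a j * b i‖ ^ 2) / ((∑ i, ‖a i‖ ^ 2) * ∑ i, ‖b i‖ ^ 2)

theorem kbW_nonneg {m : ℕ} (a b : Fin m → ℂ) : 0 ≤ kbW a b := by
  unfold kbW
  positivity

theorem kb_pos {m : ℕ} {a : Fin m → ℂ} (h : a ≠ 0) : 0 < ∑ i, ‖a i‖ ^ 2 := by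
  obtain ⟨i, hi⟩ := Function.ne_iff.1 h
  have h1 : 0 < ‖a i‖ ^ 2 := pow_pos (norm_pos_iff.2 hi) 2
  exact h1.trans_le (Finset.single_le_sum (f := fun i => ‖a i‖ ^ 2)
    (fun i _ => by positivity) (Finset.mem_univ i))

/-- a squared norm is psh -/
theorem kb_sq_psh {n : ℕ} {c : ℝ} (hc : 0 ≤ c) :
    PshE (fun y : Fin n → ℂ => c * ∑ k, ‖y k‖ ^ 2) univ := by
  have h1 : PshE (fun y : Fin n → ℂ => ∑ k, ‖y k‖ ^ 2) univ := by
    refine ⟨by fun_prop, fun γ c R hR hγ _ => ?_⟩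
    show ∑ k, ‖γ c k‖ ^ 2 ≤ Real.circleAverage (fun ζ => ∑ k, ‖γ ζ k‖ ^ 2) c R
    rw [avg_sq hR hγ]
    have : 0 ≤ Real.circleAverage (fun ζ => ∑ k, ‖γ ζ k - γ c k‖ ^ 2) c R := by
      apply Real.circleAverage_nonneg_of_nonneg
      intro z _
      positivity
    linarith
  exact h1.mul_const hc

/-- general criterion: the squared norm of `Y` and `log ‖F‖ ^ 2` together are strict -/
theorem kb_strict {n m : ℕ} {Y : (Fin n → ℂ) → (Fin n → ℂ)} {F : (Fin n → ℂ) → (Fin m → ℂ)}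
    {u0 : Fin n → ℂ} {W : Set (Fin n → ℂ)} (hW : IsOpen W) (hu : u0 ∈ W)
    (hY : AnalyticOnNhd ℂ Y W) (hF : AnalyticOnNhd ℂ F W) (hF0 : ∀ u ∈ W, F u ≠ 0) {K : ℝ}
    (hK : 0 < K)
    (hp : ∀ u ∈ W, ∀ v ∈ W, ∑ k, ‖u k - v k‖ ^ 2 ≤
      K * (∑ k, ‖Y u k - Y v k‖ ^ 2 + 1 / 2 * kbW (F u) (F v))) {c : ℝ} (hc : 0 < c) :
    StrictE (fun u => c * ∑ k, ‖Y u k‖ ^ 2 + Real.log (∑ i, ‖F u i‖ ^ 2)) u0 := by
  have hFi : ∀ u ∈ W, ∀ i, ContinuousAt (fun u => F u i) u := fun u hu i =>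
    ((analyticAt_pi_iff).1 (hF u hu) i).continuousAt
  have hYi : ∀ u ∈ W, ∀ i, ContinuousAt (fun u => Y u i) u := fun u hu i =>
    ((analyticAt_pi_iff).1 (hY u hu) i).continuousAt
  have hcF : ContinuousOn (fun u => ∑ i, ‖F u i‖ ^ 2) W :=
    continuousOn_finsetSum _ fun i _ u hu => ((hFi u hu i).norm.pow 2).continuousWithinAt
  have hcY : ContinuousOn (fun u => ∑ i, ‖Y u i‖ ^ 2) W :=
    continuousOn_finsetSum _ fun i _ u hu => ((hYi u hu i).norm.pow 2).continuousWithinAt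
  have hcL : ContinuousOn (fun u => Real.log (∑ i, ‖F u i‖ ^ 2)) W :=
    hcF.log fun u hu => (kb_pos (hF0 u hu)).ne'
  have hcont : ContinuousOn
      (fun u => c * ∑ k, ‖Y u k‖ ^ 2 + Real.log (∑ i, ‖F u i‖ ^ 2)) W :=
    (continuousOn_const.mul hcY).add hcL
  have hmin : 0 < min c 1 := lt_min hc one_pos
  refine StrictE.of_disc hW hu hcont (a := min c 1 / K) (by positivity) ?_
  intro γ ζ0 hγ hγc
  have hFγ : AnalyticAt ℂ (fun ζ => F (γ ζ)) ζ0 :=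
    AnalyticAt.comp (g := F) (f := γ) (x := ζ0) (hF _ hγc) hγ
  obtain ⟨ρ1, hρ1, h1⟩ := log_norm_wedge hFγ (hF0 _ hγc)
  obtain ⟨ρ2, hρ2, h2⟩ := exists_disc hW hγ.eventually_analyticAt hγc
  refine ⟨min ρ1 ρ2, lt_min hρ1 hρ2, fun R hR hRρ => ?_⟩
  have hw := h1 R hR (hRρ.trans_le (min_le_left _ _))
  obtain ⟨h3, h4⟩ := h2 R hR (hRρ.trans_le (min_le_right _ _))
  have hYγ : AnalyticOnNhd ℂ (fun ζ => Y (γ ζ)) (closedBall ζ0 R) := fun ζ hζ =>
    AnalyticAt.comp (g := Y) (f := γ) (x := ζ) (hY _ (h4 hζ)) (h3 ζ hζ)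
  have h5 := avg_sq hR hYγ
  -- continuity on the disc
  have cγ : ContinuousOn γ (closedBall ζ0 R) := h3.continuousOn
  have ci : ∀ {f : ℂ → ℝ}, ContinuousOn f (closedBall ζ0 R) → CircleIntegrable f ζ0 R :=
    fun hf => ContinuousOn.circleIntegrable hR.le (hf.mono sphere_subset_closedBall)
  have cF : ∀ i, ContinuousOn (fun ζ => F (γ ζ) i) (closedBall ζ0 R) := fun i ζ hζ =>
    ((hFi _ (h4 hζ) i).comp_continuousWithinAt (cγ ζ hζ) :)
  have cY : ∀ i, ContinuousOn (fun ζ => Y (γ ζ) i) (closedBall ζ0 R) := fun i ζ hζ =>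
    ((hYi _ (h4 hζ) i).comp_continuousWithinAt (cγ ζ hζ) :)
  have cγk : ∀ k, ContinuousOn (fun ζ => γ ζ k) (closedBall ζ0 R) := fun k =>
    (continuous_apply k).comp_continuousOn cγ
  have i1 : CircleIntegrable (fun ζ => ∑ k, ‖γ ζ k - γ ζ0 k‖ ^ 2) ζ0 R :=
    ci (continuousOn_finsetSum _ fun k _ => ((cγk k).sub continuousOn_const).norm.pow 2)
  have i2 : CircleIntegrable (fun ζ => ∑ k, ‖Y (γ ζ) k - Y (γ ζ0) k‖ ^ 2) ζ0 R :=
    ci (continuousOn_finsetSum _ fun k _ => ((cY k).sub continuousOn_const).norm.pow 2)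
  have i2' : CircleIntegrable (fun ζ => ∑ k, ‖Y (γ ζ) k‖ ^ 2) ζ0 R :=
    ci (continuousOn_finsetSum _ fun k _ => (cY k).norm.pow 2)
  have i3 : CircleIntegrable (fun ζ => kbW (F (γ ζ)) (F (γ ζ0))) ζ0 R := by
    apply ci
    unfold kbW
    refine ContinuousOn.div ?_ ((continuousOn_finsetSum _ fun i _ =>
      (cF i).norm.pow 2).mul continuousOn_const) fun ζ hζ =>
      (mul_pos (kb_pos (hF0 _ (h4 hζ))) (kb_pos (hF0 _ hγc))).ne'
    exact continuousOn_finsetSum _ fun i _ => continuousOn_finsetSum _ fun j _ =>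
      ((((cF i).mul continuousOn_const).sub ((cF j).mul continuousOn_const)).norm.pow 2)
  have i4 : CircleIntegrable (fun ζ => Real.log (∑ i, ‖F (γ ζ) i‖ ^ 2)) ζ0 R :=
    ci ((continuousOn_finsetSum _ fun i _ => (cF i).norm.pow 2).log fun ζ hζ =>
      (kb_pos (hF0 _ (h4 hζ))).ne')
  have sm : ∀ (t : ℝ) (f : ℂ → ℝ), Real.circleAverage (fun ζ => t * f ζ) ζ0 R =
      t * Real.circleAverage f ζ0 R := fun t f =>
    Real.circleAverage_fun_smul (a := t) (f := f)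
  have im : ∀ (t : ℝ) {f : ℂ → ℝ}, CircleIntegrable f ζ0 R →
      CircleIntegrable (fun ζ => t * f ζ) ζ0 R := fun t f hf => hf.const_mul t
  have key : min c 1 / K * Real.circleAverage (fun ζ => ∑ k, ‖γ ζ k - γ ζ0 k‖ ^ 2) ζ0 R ≤
      c * Real.circleAverage (fun ζ => ∑ k, ‖Y (γ ζ) k - Y (γ ζ0) k‖ ^ 2) ζ0 R +
        1 / 2 * Real.circleAverage (fun ζ => kbW (F (γ ζ)) (F (γ ζ0))) ζ0 R := by
    rw [← sm c, ← sm (1 / 2), ← sm (min c 1 / K), ← Real.circleAverage_fun_add (im _ i2) (im _ i3)]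
    refine avg_mono hR (im _ i1) ((im _ i2).add (im _ i3)) fun ζ hζ => ?_
    have hζ' := h4 (sphere_subset_closedBall hζ)
    have h6 := hp _ hζ' _ hγc
    set D := ∑ k, ‖Y (γ ζ) k - Y (γ ζ0) k‖ ^ 2 with hD
    set w := kbW (F (γ ζ)) (F (γ ζ0)) with hw
    have hD0 : 0 ≤ D := by positivity
    have hw0 : 0 ≤ w := kbW_nonneg _ _
    have h7 : min c 1 / K * ∑ k, ‖γ ζ k - γ ζ0 k‖ ^ 2 ≤ min c 1 * (D + 1 / 2 * w) := by
      rw [div_mul_eq_mul_div, div_le_iff₀ hK, mul_assoc]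
      apply mul_le_mul_of_nonneg_left _ hmin.le
      linarith
    have h8 : min c 1 * D ≤ c * D := mul_le_mul_of_nonneg_right (min_le_left _ _) hD0
    have h9 : min c 1 * (1 / 2 * w) ≤ 1 * (1 / 2 * w) :=
      mul_le_mul_of_nonneg_right (min_le_right _ _) (by positivity)
    show min c 1 / K * ∑ k, ‖γ ζ k - γ ζ0 k‖ ^ 2 ≤ c * D + 1 / 2 * w
    linarith
  have e1 : Real.circleAverage
      (fun ζ => c * ∑ k, ‖Y (γ ζ) k‖ ^ 2 + Real.log (∑ i, ‖F (γ ζ) i‖ ^ 2)) ζ0 R =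
      c * Real.circleAverage (fun ζ => ∑ k, ‖Y (γ ζ) k‖ ^ 2) ζ0 R +
        Real.circleAverage (fun ζ => Real.log (∑ i, ‖F (γ ζ) i‖ ^ 2)) ζ0 R := by
    rw [Real.circleAverage_fun_add (im _ i2') i4, sm c]
  show c * ∑ k, ‖Y (γ ζ0) k‖ ^ 2 + Real.log (∑ i, ‖F (γ ζ0) i‖ ^ 2) + _ ≤
    Real.circleAverage
      (fun ζ => c * ∑ k, ‖Y (γ ζ) k‖ ^ 2 + Real.log (∑ i, ‖F (γ ζ) i‖ ^ 2)) ζ0 R
  rw [e1, h5]
  have hw' : Real.log (∑ i, ‖F (γ ζ0) i‖ ^ 2) +
      1 / 2 * Real.circleAverage (fun ζ => kbW (F (γ ζ)) (F (γ ζ0))) ζ0 R ≤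
      Real.circleAverage (fun ζ => Real.log (∑ i, ‖F (γ ζ) i‖ ^ 2)) ζ0 R := hw
  rw [mul_add]
  linarith

/-- distance to a line through the wedge -/
theorem kb_wedge {m : ℕ} (a b : Fin m → ℂ) (ha : 0 < ∑ i, ‖a i‖ ^ 2) (hb : 0 < ∑ i, ‖b i‖ ^ 2) :
    ∃ lam : ℂ, ∑ i, ‖a i - lam * b i‖ ^ 2 = 1 / 2 * kbW a b * ∑ i, ‖a i‖ ^ 2 ∧
      ‖lam‖ ^ 2 * ∑ i, ‖b i‖ ^ 2 ≤ ∑ i, ‖a i‖ ^ 2 := by
  have hL := lagrange a b
  set Sa := ∑ i, ‖a i‖ ^ 2 with hSa
  set Sb := ∑ i, ‖b i‖ ^ 2 with hSb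
  set P := ∑ i, a i * starRingEnd ℂ (b i) with hP
  have hbc : ((Sb : ℝ) : ℂ) ≠ 0 := by exact_mod_cast hb.ne'
  have hcs : ‖P‖ ^ 2 ≤ Sa * Sb := by
    have h0 : 0 ≤ ∑ i, ∑ j, ‖a i * b j - a j * b i‖ ^ 2 := by positivity
    rw [hL] at h0
    linarith
  refine ⟨P / (Sb : ℂ), ?_, ?_⟩
  · have e : ∀ z : ℂ, ((‖z‖ : ℂ)) ^ 2 = z * starRingEnd ℂ z := fun z => by
      rw [Complex.mul_conj, Complex.normSq_eq_norm_sq]; push_cast; ring
    have h1 : ((∑ i, ‖a i - P / (Sb : ℂ) * b i‖ ^ 2 : ℝ) : ℂ) = ((Sa - ‖P‖ ^ 2 / Sb : ℝ) : ℂ) := by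
      have eP : ∑ i, starRingEnd ℂ (a i) * b i = starRingEnd ℂ P := by
        rw [hP, map_sum]
        refine Finset.sum_congr rfl fun i _ => ?_
        rw [map_mul, Complex.conj_conj]
      have eSa : ∑ i, a i * starRingEnd ℂ (a i) = (Sa : ℂ) := by
        rw [hSa]; push_cast
        exact Finset.sum_congr rfl fun i _ => (e _).symm
      have eSb : ∑ i, b i * starRingEnd ℂ (b i) = (Sb : ℂ) := by
        rw [hSb]; push_cast
        exact Finset.sum_congr rfl fun i _ => (e _).symm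
      have eterm : ∀ i, ((‖a i - P / (Sb : ℂ) * b i‖ : ℂ)) ^ 2 =
          a i * starRingEnd ℂ (a i) - P / (Sb : ℂ) * (starRingEnd ℂ (a i) * b i) -
          starRingEnd ℂ P / (Sb : ℂ) * (a i * starRingEnd ℂ (b i)) +
          P / (Sb : ℂ) * (starRingEnd ℂ P / (Sb : ℂ)) * (b i * starRingEnd ℂ (b i)) := by
        intro i
        rw [e]
        simp only [map_sub, map_mul, map_div₀, Complex.conj_ofReal]
        ring
      rw [Complex.ofReal_sum]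
      simp only [Complex.ofReal_pow]
      rw [Finset.sum_congr rfl fun i _ => eterm i, Finset.sum_add_distrib, Finset.sum_sub_distrib,
        Finset.sum_sub_distrib, ← Finset.mul_sum, ← Finset.mul_sum, ← Finset.mul_sum, eP, eSa, eSb,
        ← hP]
      push_cast
      rw [e]
      field_simp
      ring
    have h2 : ∑ i, ‖a i - P / (Sb : ℂ) * b i‖ ^ 2 = Sa - ‖P‖ ^ 2 / Sb := by exact_mod_cast h1
    rw [h2]
    unfold kbW
    rw [hL, ← hSa, ← hSb]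
    field_simp
  · rw [norm_div, Complex.norm_real, Real.norm_eq_abs, abs_of_pos hb, div_pow]
    have h1 : ‖P‖ ^ 2 / Sb ^ 2 * Sb = ‖P‖ ^ 2 / Sb := by
      field_simp
    rw [h1, div_le_iff₀ hb]
    exact hcs

/-- the vector `A (bl l u) · dir l u` -/
noncomputable def kbF (l : Fin 3) (A : E3 → Fin 3 → Fin 3 → ℂ) (u : E3) : Fin 3 → ℂ :=
  fun i => ∑ k, A (bl l u) i k * dir l u k

theorem kb_mul_le (B : Fin 3 → Fin 3 → ℂ) (r : E3) (i : Fin 3) :
    ‖∑ k, B i k * r k‖ ≤ 3 * (‖B‖ * ‖r‖) := by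
  calc ‖∑ k, B i k * r k‖ ≤ ∑ k : Fin 3, ‖B i k * r k‖ := norm_sum_le _ _
    _ ≤ ∑ _k : Fin 3, ‖B‖ * ‖r‖ := by
        refine Finset.sum_le_sum fun k _ => ?_
        rw [norm_mul]
        exact mul_le_mul ((norm_le_pi_norm (B i) k).trans (norm_le_pi_norm B i))
          (norm_le_pi_norm r k) (norm_nonneg _) (norm_nonneg _)
    _ = 3 * (‖B‖ * ‖r‖) := by
        rw [Finset.sum_const]
        simp

theorem kb_sup_le {a : Fin 3 → ℂ} : ‖a‖ ^ 2 ≤ ∑ i, ‖a i‖ ^ 2 := by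
  have h0 : 0 ≤ ∑ i, ‖a i‖ ^ 2 := by positivity
  have h1 : ‖a‖ ≤ Real.sqrt (∑ i, ‖a i‖ ^ 2) := by
    rw [pi_norm_le_iff_of_nonneg (Real.sqrt_nonneg _)]
    intro i
    apply Real.le_sqrt_of_sq_le
    exact Finset.single_le_sum (f := fun i => ‖a i‖ ^ 2)
      (fun i _ => by positivity) (Finset.mem_univ i)
  calc ‖a‖ ^ 2 ≤ Real.sqrt (∑ i, ‖a i‖ ^ 2) ^ 2 := pow_le_pow_left₀ (norm_nonneg _) h1 2
    _ = _ := Real.sq_sqrt h0

theorem kb_le_sup {a : Fin 3 → ℂ} : ∑ i, ‖a i‖ ^ 2 ≤ 3 * ‖a‖ ^ 2 := by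
  calc ∑ i, ‖a i‖ ^ 2 ≤ ∑ _i : Fin 3, ‖a‖ ^ 2 :=
        Finset.sum_le_sum fun i _ => pow_le_pow_left₀ (norm_nonneg _) (norm_le_pi_norm a i) 2
    _ = _ := by rw [Finset.sum_const]; simp

/-- lower bound for an invertible matrix -/
theorem kb_inv {B : Fin 3 → Fin 3 → ℂ} (hinv : ∀ r : E3, r ≠ 0 → ∃ i, ∑ k, B i k * r k ≠ 0) :
    ∃ m > 0, ∀ r : E3, m * ‖r‖ ≤ ‖(fun i => ∑ k, B i k * r k : Fin 3 → ℂ)‖ := by
  have h1 : LinearMap.ker (Matrix.mulVecLin (Matrix.of B)) = ⊥ := by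
    rw [LinearMap.ker_eq_bot']
    intro r hr
    by_contra h
    obtain ⟨i, hi⟩ := hinv r h
    apply hi
    have := congrFun hr i
    simpa [Matrix.mulVec, dotProduct] using this
  obtain ⟨K, hK, h2⟩ := LinearMap.exists_antilipschitzWith _ h1
  refine ⟨(K : ℝ)⁻¹, by positivity, fun r => ?_⟩
  have h3 := h2.le_mul_dist r 0
  rw [map_zero, dist_zero_right, dist_zero_right] at h3
  have hK' : (0 : ℝ) < K := by exact_mod_cast hK
  rw [inv_mul_le_iff₀ hK']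
  have e : (Matrix.mulVecLin (Matrix.of B)) r = (fun i => ∑ k, B i k * r k : Fin 3 → ℂ) := by
    funext i
    simp [Matrix.mulVec, dotProduct]
  rw [e] at h3
  exact h3

theorem kb_dir_self (l : Fin 3) (u : E3) : dir l u l = 1 := by simp [dir]

theorem kb_dir_ne (l : Fin 3) (u : E3) {k : Fin 3} (h : k ≠ l) : dir l u k = u k := by
  simp [dir, h]

theorem kb_bl_self (l : Fin 3) (u : E3) : bl l u l = u l := by
  simp [bl, kb_dir_self]

theorem kb_dir_ge (l : Fin 3) (u : E3) : 1 ≤ ‖dir l u‖ := by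
  have := norm_le_pi_norm (dir l u) l
  rwa [kb_dir_self, norm_one] at this

theorem kb_dir_le (l : Fin 3) (u : E3) : ‖dir l u‖ ≤ ‖u‖ + 1 := by
  rw [pi_norm_le_iff_of_nonneg (by positivity)]
  intro k
  by_cases h : k = l
  · subst h
    rw [kb_dir_self, norm_one]
    linarith [norm_nonneg u]
  · rw [kb_dir_ne l u h]
    linarith [norm_le_pi_norm u k]

/-- the pair inequality near `u0` -/
theorem kb_pair (l : Fin 3) {A : E3 → Fin 3 → Fin 3 → ℂ} {u0 : E3} (hA : AnalyticAt ℂ A (bl l u0))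
    (hinv : ∀ r : E3, r ≠ 0 → ∃ i, ∑ k, A (bl l u0) i k * r k ≠ 0) :
    ∃ K > 0, ∃ W : Set E3, IsOpen W ∧ u0 ∈ W ∧ ∀ u ∈ W, kbF l A u ≠ 0 ∧ ∀ v ∈ W,
      ∑ k, ‖u k - v k‖ ^ 2 ≤
        K * (∑ k, ‖bl l u k - bl l v k‖ ^ 2 + 1 / 2 * kbW (kbF l A u) (kbF l A v)) := by
  obtain ⟨m, hm, hmr⟩ := kb_inv hinv
  obtain ⟨L, T, hT, hL⟩ := (hA.contDiffAt (n := 1)).exists_lipschitzOnWith
  have hblc : ContinuousAt (bl l) u0 := (bl_analytic l u0).continuousAt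
  have hAc : ContinuousAt A (bl l u0) := hA.continuousAt
  -- the neighbourhood
  have e1 : ∀ᶠ u in 𝓝 u0, bl l u ∈ T := hblc.eventually hT
  have e2 : ∀ᶠ u in 𝓝 u0, ‖A (bl l u) - A (bl l u0)‖ < m / 6 := by
    have h1 : ContinuousAt (fun u => A (bl l u)) u0 :=
      ContinuousAt.comp (g := A) (f := bl l) hAc hblc
    have h2 : ContinuousAt (fun u => ‖A (bl l u) - A (bl l u0)‖) u0 :=
      (h1.sub continuousAt_const).norm
    apply h2.eventually_lt continuousAt_const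
    simp only [sub_self, norm_zero]
    positivity
  have e3 : ∀ᶠ u in 𝓝 u0, ‖u‖ < ‖u0‖ + 1 := by
    apply continuousAt_id.norm.eventually_lt continuousAt_const
    simp
  obtain ⟨W, hW, hWo, hu0⟩ := _root_.eventually_nhds_iff.1 ((e1.and e2).and e3)
  -- constants
  set R := ‖u0‖ + 2 with hR
  have hR0 : 0 < R := by positivity
  set B := 3 * ((‖A (bl l u0)‖ + m / 6) * R) with hB
  have hB0 : 0 < B := by positivity
  have hlow : ∀ u ∈ W, ∀ r : E3, m / 2 * ‖r‖ ≤ ‖(fun i => ∑ k, A (bl l u) i k * r k : Fin 3 → ℂ)‖ := by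
    intro u hu r
    have h1 := hmr r
    have h2 : ‖(fun i => ∑ k, (A (bl l u) - A (bl l u0)) i k * r k : Fin 3 → ℂ)‖ ≤
        m / 2 * ‖r‖ := by
      rw [pi_norm_le_iff_of_nonneg (by positivity)]
      intro i
      refine (kb_mul_le _ r i).trans ?_
      have h3 := (hW u hu).1.2.le
      have h4 : ‖A (bl l u) - A (bl l u0)‖ * ‖r‖ ≤ m / 6 * ‖r‖ :=
        mul_le_mul_of_nonneg_right h3 (norm_nonneg _)
      linarith
    have h5 : (fun i => ∑ k, A (bl l u0) i k * r k : Fin 3 → ℂ) =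
        (fun i => ∑ k, A (bl l u) i k * r k : Fin 3 → ℂ) -
          (fun i => ∑ k, (A (bl l u) - A (bl l u0)) i k * r k : Fin 3 → ℂ) := by
      funext i
      rw [Pi.sub_apply, ← Finset.sum_sub_distrib]
      refine Finset.sum_congr rfl fun k _ => ?_
      simp only [Pi.sub_apply]
      ring
    rw [h5] at h1
    have h6 := norm_sub_le (fun i => ∑ k, A (bl l u) i k * r k : Fin 3 → ℂ)
          (fun i => ∑ k, (A (bl l u) - A (bl l u0)) i k * r k : Fin 3 → ℂ)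
    linarith
  have hdir : ∀ u ∈ W, ‖dir l u‖ ≤ R := by
    intro u hu
    have h1 := kb_dir_le l u
    have h2 := (hW u hu).2
    rw [hR]
    linarith
  have hup : ∀ u ∈ W, ‖kbF l A u‖ ≤ B := by
    intro u hu
    rw [pi_norm_le_iff_of_nonneg hB0.le]
    intro i
    refine (kb_mul_le (A (bl l u)) (dir l u) i).trans ?_
    rw [hB]
    have h1 : ‖A (bl l u)‖ ≤ ‖A (bl l u0)‖ + m / 6 := by
      have h2 := (hW u hu).1.2
      have h3 := norm_sub_norm_le (A (bl l u)) (A (bl l u0))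
      linarith
    have h2 : ‖A (bl l u)‖ * ‖dir l u‖ ≤ (‖A (bl l u0)‖ + m / 6) * R :=
      mul_le_mul h1 (hdir u hu) (norm_nonneg _) (by positivity)
    linarith
  have hlo : ∀ u ∈ W, m / 2 ≤ ‖kbF l A u‖ := by
    intro u hu
    have h1 := hlow u hu (dir l u)
    have h2 : m / 2 * 1 ≤ m / 2 * ‖dir l u‖ :=
      mul_le_mul_of_nonneg_left (kb_dir_ge l u) (by positivity)
    have h3 : (fun i => ∑ k, A (bl l u) i k * dir l u k : Fin 3 → ℂ) = kbF l A u := rfl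
    rw [h3] at h1
    linarith
  have hne : ∀ u ∈ W, kbF l A u ≠ 0 := by
    intro u hu h
    have := hlo u hu
    rw [h, norm_zero] at this
    linarith
  set Λ := 4 * B / m with hΛ
  have hΛ0 : 0 < Λ := by positivity
  set C1 := (1 + R) * (2 / m) with hC1
  have hC10 : 0 < C1 := by positivity
  set C2 := C1 * (3 * Λ * L * R) + 1 with hC2
  have hC20 : 0 < C2 := by positivity
  refine ⟨18 * C1 ^ 2 * B ^ 2 + 6 * C2 ^ 2, by positivity, W, hWo, hu0, fun u hu =>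
    ⟨hne u hu, fun v hv => ?_⟩⟩
  obtain ⟨lam, hl1, hl2⟩ := kb_wedge (kbF l A u) (kbF l A v) (kb_pos (hne u hu)) (kb_pos (hne v hv))
  set w := kbW (kbF l A u) (kbF l A v) with hw
  have hw0 : 0 ≤ w := kbW_nonneg _ _
  set r := dir l u with hr
  set s := dir l v with hs
  set dl := ‖(fun i => kbF l A u i - lam * kbF l A v i : Fin 3 → ℂ)‖ with hdl
  set dy := ‖bl l u - bl l v‖ with hdy
  have hdl0 : 0 ≤ dl := norm_nonneg _
  have hdy0 : 0 ≤ dy := norm_nonneg _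
  have hsa : ∑ i, ‖kbF l A u i‖ ^ 2 ≤ 3 * B ^ 2 := by
    refine kb_le_sup.trans ?_
    have := pow_le_pow_left₀ (norm_nonneg _) (hup u hu) 2
    linarith
  have hdl2 : dl ^ 2 ≤ 3 * B ^ 2 * (1 / 2 * w) := by
    have h1 : dl ^ 2 ≤ ∑ i, ‖kbF l A u i - lam * kbF l A v i‖ ^ 2 := kb_sup_le
    rw [hl1] at h1
    refine h1.trans ?_
    have := mul_le_mul_of_nonneg_left hsa (show 0 ≤ 1 / 2 * w by positivity)
    linarith
  have hlam : ‖lam‖ ≤ Λ := by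
    have h1 : (m / 2) ^ 2 ≤ ∑ i, ‖kbF l A v i‖ ^ 2 :=
      (pow_le_pow_left₀ (by positivity) (hlo v hv) 2).trans kb_sup_le
    have h2 : ‖lam‖ ^ 2 * (m / 2) ^ 2 ≤ 3 * B ^ 2 :=
      (mul_le_mul_of_nonneg_left h1 (by positivity)).trans (hl2.trans hsa)
    have h3 : ‖lam‖ ^ 2 ≤ Λ ^ 2 := by
      have h4 : ‖lam‖ ^ 2 ≤ 3 * B ^ 2 / (m / 2) ^ 2 := by
        rw [le_div_iff₀ (by positivity)]
        exact h2
      refine h4.trans ?_
      rw [hΛ]
      have h5 : 3 * B ^ 2 / (m / 2) ^ 2 = 12 * B ^ 2 / m ^ 2 := by field_simp; ring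
      have h6 : (4 * B / m) ^ 2 = 16 * B ^ 2 / m ^ 2 := by field_simp; ring
      rw [h5, h6]
      apply div_le_div_of_nonneg_right _ (by positivity)
      have : 0 ≤ B ^ 2 := by positivity
      linarith
    exact (pow_le_pow_iff_left₀ (norm_nonneg _) hΛ0.le two_ne_zero).1 h3
  have hLip : ‖A (bl l u) - A (bl l v)‖ ≤ L * dy := by
    have := hL.dist_le_mul _ (hW u hu).1.1 _ (hW v hv).1.1
    rwa [dist_eq_norm, dist_eq_norm] at this
  have hmain : m / 2 * ‖r - lam • s‖ ≤ dl + 3 * Λ * L * R * dy := by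
    have h1 := hlow u hu (r - lam • s)
    have h2 : (fun i => ∑ k, A (bl l u) i k * (r - lam • s) k : Fin 3 → ℂ) =
        (fun i => kbF l A u i - lam * kbF l A v i : Fin 3 → ℂ) -
          lam • (fun i => ∑ k, (A (bl l u) - A (bl l v)) i k * s k : Fin 3 → ℂ) := by
      funext i
      simp only [Pi.sub_apply, Pi.smul_apply, smul_eq_mul, kbF, Finset.mul_sum]
      rw [← Finset.sum_sub_distrib, ← Finset.sum_sub_distrib]
      refine Finset.sum_congr rfl fun k _ => ?_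
      rw [hr, hs]
      ring
    rw [h2] at h1
    have h3 := norm_sub_le (fun i => kbF l A u i - lam * kbF l A v i : Fin 3 → ℂ)
          (lam • (fun i => ∑ k, (A (bl l u) - A (bl l v)) i k * s k : Fin 3 → ℂ))
    have h4 : ‖(fun i => ∑ k, (A (bl l u) - A (bl l v)) i k * s k : Fin 3 → ℂ)‖ ≤
        3 * (L * dy * R) := by
      rw [pi_norm_le_iff_of_nonneg (by positivity)]
      intro i
      refine (kb_mul_le _ s i).trans ?_
      have h5 : ‖A (bl l u) - A (bl l v)‖ * ‖s‖ ≤ L * dy * R :=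
        mul_le_mul hLip (hdir v hv) (norm_nonneg _) (by positivity)
      linarith
    rw [norm_smul] at h3
    have h5 : ‖lam‖ * ‖(fun i => ∑ k, (A (bl l u) - A (bl l v)) i k * s k : Fin 3 → ℂ)‖ ≤
        Λ * (3 * (L * dy * R)) := mul_le_mul hlam h4 (norm_nonneg _) hΛ0.le
    linarith
  have hrs : ‖r - s‖ ≤ C1 * (dl + 3 * Λ * L * R * dy) := by
    have h1 : ‖r - lam • s‖ ≤ 2 / m * (dl + 3 * Λ * L * R * dy) := by
      have : ‖r - lam • s‖ = 2 / m * (m / 2 * ‖r - lam • s‖) := by field_simp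
      rw [this]
      exact mul_le_mul_of_nonneg_left hmain (by positivity)
    have h2 : ‖1 - lam‖ ≤ ‖r - lam • s‖ := by
      have h3 := norm_le_pi_norm (r - lam • s) l
      have h4 : (r - lam • s) l = 1 - lam := by
        simp [hr, hs, kb_dir_self]
      rwa [h4] at h3
    have h3 : ‖r - s‖ ≤ ‖r - lam • s‖ + ‖(lam - 1) • s‖ := by
      have : r - s = (r - lam • s) + (lam - 1) • s := by
        rw [sub_smul, one_smul]; abel
      rw [this]
      exact norm_add_le _ _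
    have h4 : ‖(lam - 1) • s‖ ≤ ‖r - lam • s‖ * R := by
      rw [norm_smul, norm_sub_rev]
      exact mul_le_mul h2 (hdir v hv) (norm_nonneg _) (norm_nonneg _)
    have h5 : ‖r - s‖ ≤ (1 + R) * ‖r - lam • s‖ := by linarith
    refine h5.trans ?_
    rw [hC1, mul_assoc]
    exact mul_le_mul_of_nonneg_left h1 (by positivity)
  have huv : ‖u - v‖ ≤ C1 * dl + C2 * dy := by
    have h1 : ‖u - v‖ ≤ ‖r - s‖ + dy := by
      rw [pi_norm_le_iff_of_nonneg (by positivity)]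
      intro k
      by_cases h : k = l
      · subst h
        have h2 := norm_le_pi_norm (bl k u - bl k v) k
        rw [Pi.sub_apply, kb_bl_self, kb_bl_self] at h2
        rw [Pi.sub_apply]
        linarith [norm_nonneg (r - s)]
      · have h2 := norm_le_pi_norm (r - s) k
        rw [Pi.sub_apply, hr, hs, kb_dir_ne l u h, kb_dir_ne l v h] at h2
        rw [Pi.sub_apply]
        linarith
    have h2 : C2 * dy = C1 * (3 * Λ * L * R * dy) + dy := by rw [hC2]; ring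
    rw [h2]
    linarith
  have hfin : ∑ k, ‖u k - v k‖ ^ 2 ≤ 3 * (C1 * dl + C2 * dy) ^ 2 := by
    have h1 : ∑ k, ‖u k - v k‖ ^ 2 ≤ 3 * ‖u - v‖ ^ 2 := kb_le_sup (a := u - v)
    have h2 := pow_le_pow_left₀ (norm_nonneg _) huv 2
    linarith
  have hdy2 : dy ^ 2 ≤ ∑ k, ‖bl l u k - bl l v k‖ ^ 2 := kb_sup_le (a := bl l u - bl l v)
  have h1 : (C1 * dl + C2 * dy) ^ 2 ≤ 2 * (C1 ^ 2 * dl ^ 2 + C2 ^ 2 * dy ^ 2) := by
    have := sq_nonneg (C1 * dl - C2 * dy)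
    nlinarith
  have h2 : C1 ^ 2 * dl ^ 2 ≤ C1 ^ 2 * (3 * B ^ 2 * (1 / 2 * w)) :=
    mul_le_mul_of_nonneg_left hdl2 (by positivity)
  have h3 : C2 ^ 2 * dy ^ 2 ≤ C2 ^ 2 * ∑ k, ‖bl l u k - bl l v k‖ ^ 2 :=
    mul_le_mul_of_nonneg_left hdy2 (by positivity)
  set D := ∑ k, ‖bl l u k - bl l v k‖ ^ 2 with hD
  have hD0 : 0 ≤ D := by positivity
  have h4 : 0 ≤ 18 * C1 ^ 2 * B ^ 2 * D := by positivity
  have h5 : 0 ≤ 6 * C2 ^ 2 * (1 / 2 * w) := by positivity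
  have h6 : (18 * C1 ^ 2 * B ^ 2 + 6 * C2 ^ 2) * (D + 1 / 2 * w) =
      18 * C1 ^ 2 * B ^ 2 * D + 6 * C2 ^ 2 * (1 / 2 * w) +
        6 * (C1 ^ 2 * (3 * B ^ 2 * (1 / 2 * w))) + 6 * (C2 ^ 2 * D) := by ring
  rw [h6]
  linarith

/-- the matrix with rows `P#`, `x2 th#`, `x2 Q#` -/
noncomputable def kbA (t : ℂ) (M : Fin 3 → E3 → E3) (y : E3) : Fin 3 → Fin 3 → ℂ :=
  ![fun k => M 0 y k, fun k => (aff t y).2 2 * M 1 y k, fun k => (aff t y).2 2 * M 2 y k]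

theorem kb_F0 (t : ℂ) (M : Fin 3 → E3 → E3) (l : Fin 3) (u : E3) :
    kbF l (kbA t M) u 0 = shf M 0 (bl l u) (dir l u) := rfl

theorem kb_F1 (t : ℂ) (M : Fin 3 → E3 → E3) (l : Fin 3) (u : E3) :
    kbF l (kbA t M) u 1 = (aff t (bl l u)).2 2 * shf M 1 (bl l u) (dir l u) := by
  unfold shf
  rw [Finset.mul_sum]
  exact Finset.sum_congr rfl fun k _ => mul_assoc _ _ _

theorem kb_F2 (t : ℂ) (M : Fin 3 → E3 → E3) (l : Fin 3) (u : E3) :
    kbF l (kbA t M) u 2 = (aff t (bl l u)).2 2 * shf M 2 (bl l u) (dir l u) := by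
  unfold shf
  rw [Finset.mul_sum]
  exact Finset.sum_congr rfl fun k _ => mul_assoc _ _ _

/-- `N - 1` at affine points -/
noncomputable def kbE (p : V4) : ℝ := ‖p.2 1‖ ^ 2 + a2 p

/-- the rest -/
noncomputable def kbG (t : ℂ) (M : Fin 3 → E3 → E3) (q : E3 × E3) : ℝ :=
  ‖(aff t q.1).2 2‖ ^ 2 * ‖shf M 1 q.1 q.2‖ ^ 2 *
    (kbE (aff t q.1) * (nN (aff t q.1) ^ 2 + nN (aff t q.1) + 1)) +
  ‖(aff t q.1).2 2‖ ^ 2 * ‖shf M 2 q.1 q.2‖ ^ 2 * kbE (aff t q.1)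

theorem kb_split (t : ℂ) (M : Fin 3 → E3 → E3) (l : Fin 3) (u : E3) :
    ‖shf M 0 (bl l u) (dir l u)‖ ^ 2 + shNJ t M (bl l u) (dir l u) =
      ∑ i, ‖kbF l (kbA t M) u i‖ ^ 2 + kbG t M (bl l u, dir l u) := by
  have hN : nN (aff t (bl l u)) = 1 + kbE (aff t (bl l u)) := by
    unfold nN kbE
    rw [aff_x0, norm_one]
    ring
  rw [Fin.sum_univ_three, kb_F0, kb_F1, kb_F2]
  unfold shNJ shJ kbG
  simp only [norm_mul, mul_pow, hN]
  ring

theorem kbG_lpsh {d r0 : ℝ} {t : ℂ} {M : Fin 3 → E3 → E3} (hr : r0 < 1 / 8)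
    (hS : Sharp d r0 t M) : LPsh (kbG t M) (Sd r0) := by
  have hE : LPsh (fun q : E3 × E3 => kbE (aff t q.1)) (Sd r0) :=
    aff_lpsh hr ((coord_lpsh 1).add a2_lpsh)
  have hN : LPsh (fun q : E3 × E3 => nN (aff t q.1)) (Sd r0) := aff_lpsh hr nN_lpsh
  have h2 : LPsh (fun q : E3 × E3 => ‖(aff t q.1).2 2‖ ^ 2) (Sd r0) := aff_lpsh hr (coord_lpsh 2)
  exact ((h2.mul (shf_lpsh hS 1)).mul (hE.mul (((hN.pow 2).add hN).add
    (LPsh.const zero_le_one _)))).add ((h2.mul (shf_lpsh hS 2)).mul hE)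

theorem kbA_analytic {d r0 : ℝ} {t : ℂ} {M : Fin 3 → E3 → E3} (hS : Sharp d r0 t M) {y : E3}
    (hy : y ∈ ball (0 : E3) r0) : AnalyticAt ℂ (kbA t M) y := by
  have h2 : AnalyticAt ℂ (fun y : E3 => (aff t y).2 2) y :=
    AnalyticAt.comp (g := fun p : V4 => p.2 2) (f := aff t) (x := y) (coord_analytic 2 _)
      (aff_analytic t y)
  rw [analyticAt_pi_iff]
  intro i
  rw [analyticAt_pi_iff]
  intro k
  fin_cases i
  · exact hS.an 0 k y hy
  · exact h2.mul (hS.an 1 k y hy)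
  · exact h2.mul (hS.an 2 k y hy)

/-- the Kaehler potential near the blown-up points: with `y = bl l u`, `r = dir l u`, the first
two terms control `‖y - y'‖ ^ 2`, and the last one controls `r` up to `‖y - y'‖` -/
theorem strict_inr (C : Cst) {t : ℂ} (ht : t ∈ Rt) (l : Fin 3) {u : E3}
    (hu : bl l u ∈ ball (0 : E3) C.r0) :
    StrictE (fun u => (potK C).Fs t (bl l u) (dir l u)) u := by
  have hS := C.sharp t ht
  have hr := C.r_lt
  have hd := C.hd.pos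
  set A := kbA t (C.M t) with hAdef
  have hinv : ∀ r : E3, r ≠ 0 → ∃ i, ∑ k, A (bl l u) i k * r k ≠ 0 := by
    intro r hr0
    obtain ⟨i, hi⟩ := hS.inv _ hu r hr0
    have hx := x2_aff_ne hS hd hu
    refine ⟨i, ?_⟩
    fin_cases i
    · exact hi
    · have : ∑ k, A (bl l u) 1 k * r k = (aff t (bl l u)).2 2 * ∑ k, C.M t 1 (bl l u) k * r k := by
        rw [Finset.mul_sum]
        exact Finset.sum_congr rfl fun k _ => mul_assoc _ _ _
      show ∑ k, A (bl l u) 1 k * r k ≠ 0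
      rw [this]
      exact mul_ne_zero hx hi
    · have : ∑ k, A (bl l u) 2 k * r k = (aff t (bl l u)).2 2 * ∑ k, C.M t 2 (bl l u) k * r k := by
        rw [Finset.mul_sum]
        exact Finset.sum_congr rfl fun k _ => mul_assoc _ _ _
      show ∑ k, A (bl l u) 2 k * r k ≠ 0
      rw [this]
      exact mul_ne_zero hx hi
  obtain ⟨K, hK, W1, hW1, hu1, hp⟩ := kb_pair l (kbA_analytic hS hu) hinv
  -- the base part
  have hy0 : (cen t + bl l u) 0 ≠ 0 := (aff_mem (t := t) hr hu).1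
  obtain ⟨c, hc, W2, hW2, hu2, hb⟩ := strict_base 0 hy0
  have hblc : Continuous (bl l) := continuous_iff_continuousAt.2 fun u =>
    (bl_analytic l u).continuousAt
  have hYa : ∀ u : E3, AnalyticAt ℂ (fun u : E3 => cen t + bl l u) u := fun u =>
    analyticAt_const.add (bl_analytic l u)
  set W : Set E3 := W1 ∩ ((fun u => cen t + bl l u) ⁻¹' W2) ∩ (bl l ⁻¹' ball (0 : E3) C.r0) with hWd
  have hWo : IsOpen W := (hW1.inter (hW2.preimage (continuous_const.add hblc))).inter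
    (isOpen_ball.preimage hblc)
  have huW : u ∈ W := ⟨⟨hu1, hu2⟩, hu⟩
  have hball : ∀ v ∈ W, bl l v ∈ ball (0 : E3) C.r0 := fun v hv => hv.2
  have hFan : AnalyticOnNhd ℂ (kbF l A) W := by
    intro v hv
    rw [analyticAt_pi_iff]
    intro i
    refine Finset.analyticAt_fun_sum _ fun k _ => ?_
    have h1 : AnalyticAt ℂ (fun u => A (bl l u)) v :=
      AnalyticAt.comp (g := A) (f := bl l) (x := v) (kbA_analytic hS (hball v hv))
        (bl_analytic l v)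
    exact ((analyticAt_pi_iff).1 ((analyticAt_pi_iff).1 h1 i) k).mul
      ((analyticAt_pi_iff).1 (dir_analytic l v) k)
  have hs := kb_strict (Y := fun u => cen t + bl l u) hWo huW (fun v _ => hYa v) hFan
    (fun v hv => (hp v hv.1.1).1) hK (fun v hv w hw => by
      have := (hp v hv.1.1).2 w hw.1.1
      simpa using this) (c := 4 * c) (by positivity)
  -- adding the rest
  have hq : PshE (fun v : E3 => 4 * c * ∑ k, ‖(cen t + bl l v) k‖ ^ 2) W :=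
    (kb_sq_psh (n := 3) (c := 4 * c) (by positivity)).comp_analytic
      (g := fun v => cen t + bl l v) (fun v _ => hYa v) fun _ _ => mem_univ _
  have hG : LPsh (fun v : E3 => Real.exp (4 * c * ∑ k, ‖(cen t + bl l v) k‖ ^ 2) *
      kbG t (C.M t) (bl l v, dir l v)) W :=
    (LPsh.exp hq).mul ((kbG_lpsh hr hS).comp_analytic (g := fun v => (bl l v, dir l v))
      (fun v _ => Pot.bld_analytic l v) fun v hv => ⟨hball v hv, Pot.dir_ne l v⟩)
  have hF0 : ∀ v ∈ W, 0 < Real.exp (4 * c * ∑ k, ‖(cen t + bl l v) k‖ ^ 2) *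
      ∑ i, ‖kbF l A v i‖ ^ 2 := fun v hv =>
    mul_pos (Real.exp_pos _) (kb_pos (hp v hv.1.1).1)
  have hs' : StrictE (fun v => Real.log (Real.exp (4 * c * ∑ k, ‖(cen t + bl l v) k‖ ^ 2) *
      ∑ i, ‖kbF l A v i‖ ^ 2)) u := by
    refine hs.congr ?_
    filter_upwards [hWo.mem_nhds huW] with v hv
    rw [Real.log_mul (Real.exp_ne_zero _) (kb_pos (hp v hv.1.1).1).ne', Real.log_exp]
  have hadd := (StrictE.log_add hWo huW hF0 hs' hG).mul_const (a := 1 / 4) (by norm_num)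
  -- adding the base part
  have hbase : PshE (fun v : E3 => Real.log (nN (sec 0 (cen t + bl l v))) +
      Real.log ‖(cen t + bl l v) 0‖ ^ 2 - c * ∑ k, ‖(cen t + bl l v) k‖ ^ 2) W :=
    hb.comp_analytic (g := fun v => cen t + bl l v) (fun v _ => hYa v) fun v hv => hv.1.2
  refine (hadd.add hWo huW hbase).congr ?_
  filter_upwards [hWo.mem_nhds huW] with v hv
  have hsp := kb_split t (C.M t) l v
  have hpos : 0 < ‖shf (C.M t) 0 (bl l v) (dir l v)‖ ^ 2 + shNJ t (C.M t) (bl l v) (dir l v) :=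
    sh_pos hr hS hd (hball v hv) (Pot.dir_ne l v)
  show Real.log (nN (aff t (bl l v))) + Real.log ‖(aff t (bl l v)).1‖ ^ 2 +
    Psis t (C.M t) (bl l v) (dir l v) = _
  have e1 : Psis t (C.M t) (bl l v) (dir l v) =
      Real.log (‖shf (C.M t) 0 (bl l v) (dir l v)‖ ^ 2 +
        shNJ t (C.M t) (bl l v) (dir l v)) / 4 := rfl
  have e2 : Real.log (Real.exp (4 * c * ∑ k, ‖(cen t + bl l v) k‖ ^ 2) *
      ∑ i, ‖kbF l A v i‖ ^ 2 + Real.exp (4 * c * ∑ k, ‖(cen t + bl l v) k‖ ^ 2) *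
      kbG t (C.M t) (bl l v, dir l v)) = 4 * c * ∑ k, ‖(cen t + bl l v) k‖ ^ 2 +
      Real.log (‖shf (C.M t) 0 (bl l v) (dir l v)‖ ^ 2 +
        shNJ t (C.M t) (bl l v) (dir l v)) := by
    rw [← mul_add, ← hsp, Real.log_mul (Real.exp_ne_zero _) hpos.ne', Real.log_exp]
  have e3 : aff t (bl l v) = sec 0 (cen t + bl l v) := rfl
  have e4 : (sec 0 (cen t + bl l v)).1 = (cen t + bl l v) 0 := rfl
  rw [e1, e2, e3, e4]
  ring

end RG
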