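import Pool.Agent.H14.RG.KahB

/-!
# Module P3: the Kaehler form, bigness, semi-positivity
-/

open scoped Topology ContDiff
open Set Metric

namespace RG

/-- `9 / 8` is not a zero of the theta function -/
theorem Kah.th_ne : th (9 / 8 : ℂ) ≠ 0 := by
  intro h
  obtain ⟨n, hn⟩ := (th_eq_zero_iff (by norm_num)).1 h
  have h1 : ‖(9 / 8 : ℂ)‖ = 9 / 8 := by
    rw [norm_div]
    norm_num
  have h2 : ‖tau ^ n‖ = (1 / 4 : ℝ) ^ n := by rw [norm_zpow, norm_tau]
  rw [hn, h2] at h1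
  rcases le_or_gt 0 n with h0 | h0
  · lift n to ℕ using h0
    have h3 : (1 / 4 : ℝ) ^ (n : ℤ) ≤ 1 := by
      rw [zpow_natCast]
      exact pow_le_one₀ (by norm_num) (by norm_num)
    rw [h1] at h3
    norm_num at h3
  · have h3 : (4 : ℝ) ≤ (1 / 4 : ℝ) ^ n := by
      have h4 : (1 / 4 : ℝ) ^ n = 4 ^ (-n) := by
        rw [one_div, inv_zpow, zpow_neg]
      rw [h4]
      calc (4 : ℝ) = 4 ^ (1 : ℤ) := by norm_num
        _ ≤ 4 ^ (-n) := zpow_le_zpow_right₀ (by norm_num) (by omega)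
    rw [h1] at h3
    norm_num at h3

/-- `log (nP + nN nJ)` is strict where `x2 ≠ 0` and `th ≠ 0` -/
theorem Kah.strict_sum {y : E3} (hy : y 0 ≠ 0) (h2 : y 2 ≠ 0) (ht : th (y 0) ≠ 0) :
    StrictE (fun y => Real.log (nP (sec 0 y) + nN (sec 0 y) * nJ (sec 0 y))) y := by
  -- the neighbourhood
  have hc0 : ContinuousAt (fun y : E3 => y 0) y := (coord3_analytic 0 y).continuousAt
  have hc2 : ContinuousAt (fun y : E3 => y 2) y := (coord3_analytic 2 y).continuousAt
  have hct : ContinuousAt (fun y : E3 => th (y 0)) y :=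
    ContinuousAt.comp (g := th) (f := fun y : E3 => y 0) (th_analytic hy).continuousAt hc0
  obtain ⟨W, hW, hWo, hyW⟩ := _root_.eventually_nhds_iff.1
    (((hc0.eventually_ne hy).and (hc2.eventually_ne h2)).and (hct.eventually_ne ht))
  have hsec : AnalyticOnNhd ℂ (sec 0) W := fun y _ => sec_analytic 0 y
  have hm : MapsTo (sec 0) W O4 := fun y hy' => (hW y hy').1.1
  have hs2 : ∀ y : E3, (sec 0 y).2 2 = y 2 := fun y => rfl
  have hs1 : ∀ y : E3, (sec 0 y).1 = y 0 := fun y => rfl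
  have hN : ∀ y ∈ W, 0 < nN (sec 0 y) := fun y hy' => nN_pos (sec_mem (hW y hy').1.1)
  -- the main part
  set F : E3 → ℝ := fun y => ‖y 2 * th (y 0)‖ ^ 2 * nN (sec 0 y) ^ 3 with hF
  set G : E3 → ℝ := fun y => nP (sec 0 y) + nN (sec 0 y) * (‖y 2‖ ^ 2 * ‖fQ (sec 0 y)‖ ^ 2) with hG
  have hFG : ∀ y : E3, nP (sec 0 y) + nN (sec 0 y) * nJ (sec 0 y) = F y + G y := by
    intro y
    simp only [hF, hG, nJ, nJp, hs2, hs1, norm_mul]
    ring
  have hF0 : ∀ y ∈ W, 0 < F y := by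
    intro y hy'
    have h3 := hN y hy'
    have h4 : 0 < ‖y 2 * th (y 0)‖ := norm_pos_iff.2 (mul_ne_zero (hW y hy').1.2 (hW y hy').2)
    positivity
  have hFs : StrictE (fun y => Real.log (F y)) y := by
    have h3 : StrictE (fun y => 3 * Real.log (nN (sec 0 y))) y :=
      (strict_N hy h2).mul_const (a := 3) (by norm_num)
    have h4 : PshE (fun y : E3 => 2 * Real.log ‖y 2 * th (y 0)‖) W := by
      refine PshE.log_norm (h := fun y : E3 => y 2 * th (y 0)) (fun y hy' => ?_)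
        (fun y hy' => mul_ne_zero (hW y hy').1.2 (hW y hy').2) 2
      exact (coord3_analytic 2 y).mul (AnalyticAt.comp (g := th) (f := fun y : E3 => y 0) (x := y)
        (th_analytic (hW y hy').1.1) (coord3_analytic 0 y))
    refine (h3.add hWo hyW h4).congr ?_
    filter_upwards [hWo.mem_nhds hyW] with y hy'
    have h5 : ‖y 2 * th (y 0)‖ ≠ 0 :=
      norm_ne_zero_iff.2 (mul_ne_zero (hW y hy').1.2 (hW y hy').2)
    simp only [hF]
    rw [Real.log_mul (pow_ne_zero 2 h5) (pow_ne_zero 3 (hN y hy').ne'), Real.log_pow, Real.log_pow]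
    push_cast
    ring
  have hGl : LPsh G W := by
    have h3 : LPsh (fun y : E3 => ‖y 2‖ ^ 2) W :=
      LPsh.norm_sq hWo fun y _ => coord3_analytic 2 y
    have h4 : LPsh (fun y : E3 => ‖fQ (sec 0 y)‖ ^ 2) W :=
      LPsh.norm_sq hWo fun y hy' => AnalyticAt.comp (g := fQ) (f := sec 0) (x := y)
        (fQ_analytic (hm hy')) (sec_analytic 0 y)
    exact (nP_lpsh.comp_analytic hsec hm).add ((nN_lpsh.comp_analytic hsec hm).mul (h3.mul h4))
  refine (StrictE.log_add hWo hyW hF0 hFs hGl).congr ?_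
  filter_upwards with y
  rw [hFG y]

/-- bigness -/
theorem strict_Psi (C : Cst) : ∃ y : E3, y ∈ C.P.U (Sum.inl (⟨1, one_ne_zero⟩, 0)) ∧
    StrictE (fun y => Psi C.m C.d C.A (sec 0 y)) y := by
  set y : E3 := ![9 / 8, 1, 10] with hydef
  have hy0 : y 0 = 9 / 8 := rfl
  have hy1 : y 1 = 1 := rfl
  have hy2 : y 2 = 10 := rfl
  have hne0 : y 0 ≠ 0 := by rw [hy0]; norm_num
  have hne2 : y 2 ≠ 0 := by rw [hy2]; norm_num
  have ht : th (y 0) ≠ 0 := by rw [hy0]; exact Kah.th_ne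
  have hp : sec 0 y ∈ Mh := sec_mem hne0
  -- outside the tube
  have hE : nE (sec 0 y) = 2 := by
    change ‖(1 : ℂ)‖ ^ 2 + ‖(1 : ℂ)‖ ^ 2 = 2
    norm_num
  have hq : 0 ≤ qq (sec 0 y).1 := by
    have h1 : ‖(9 / 8 : ℂ)‖ = 9 / 8 := by
      rw [norm_div]
      norm_num
    change 0 ≤ qq (9 / 8 : ℂ)
    unfold qq
    rw [h1]
    have h3 : 0 ≤ Real.log (9 / 8) := Real.log_nonneg (by norm_num)
    have h4 : 0 ≤ Real.log 4 := Real.log_nonneg (by norm_num)
    positivity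
  have ha : 100 ≤ a2 (sec 0 y) := by
    have h1 : ‖(10 : ℂ)‖ ^ 2 = 100 := by norm_num
    have h3 : a2 (sec 0 y) = 100 * Real.exp (2 * qq (sec 0 y).1) := by
      change ‖(10 : ℂ)‖ ^ 2 * Real.exp (2 * qq (sec 0 y).1) = _
      rw [h1]
    rw [h3]
    have h4 : 1 ≤ Real.exp (2 * qq (sec 0 y).1) := Real.one_le_exp (by positivity)
    linarith
  have hd : C.d < 1 := C.hd.lt
  have hlt : C.d / 2 * nE (sec 0 y) < a2 (sec 0 y) := by
    rw [hE]
    linarith
  refine ⟨y, C.mem_inl.2 ⟨?_, fun h => ?_⟩, ?_⟩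
  · change ‖(9 / 8 : ℂ) - 1‖ < ‖(1 : ℂ)‖ / 4
    rw [show (9 / 8 : ℂ) - 1 = 1 / 8 by norm_num, norm_div]
    norm_num
  · exact ht (Iv.nJp_zero hp h.2.2.1).1
  · refine ((Kah.strict_sum hne0 hne2 ht).mul_const (a := 1 / 4) (by norm_num)).congr ?_
    have hc : ContinuousAt (sec 0) y := (sec_analytic 0 y).continuousAt
    have h1 : ∀ᶠ x in 𝓝 y, C.d / 2 * nE (sec 0 x) < a2 (sec 0 x) := by
      have c1 : ContinuousAt (fun x => C.d / 2 * nE (sec 0 x)) y :=
        continuousAt_const.mul (ContinuousAt.comp (g := nE) (f := sec 0)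
          (nE_smooth _).continuousAt hc)
      have c2 : ContinuousAt (fun x => a2 (sec 0 x)) y :=
        ContinuousAt.comp (g := a2) (f := sec 0) (a2_smooth hp.1).continuousAt hc
      exact c1.eventually_lt c2 hlt
    have h2 : ∀ᶠ x in 𝓝 y, sec 0 x ∈ Mh := hc.eventually (isOpen_Mh.mem_nhds hp)
    filter_upwards [h1, h2] with x h1 h2
    rw [psi_out C.hm C.hd C.hA h2 h1.le]
    ring

/-- a strict potential is positive -/
theorem Kah.posAt {C : Cst} {Q : Pot C} (hQ : Q.Smooth) {i : C.P.ι} {y : E3} (hy : y ∈ C.P.U i)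
    (h : StrictE (Q.R i) y) :
    letI := C.P.chartedSpace
    (Q.form hQ).toForm.PosAt (C.P.ψ i y) := by
  obtain ⟨c, hc, W, hW, hyW, hp⟩ := h
  exact (Q.form hQ).posAt hy ⟨c, hc, W ∩ C.P.U i, hW.inter (C.P.isOpen_U i), ⟨hyW, hy⟩,
    inter_subset_right, hp.mono inter_subset_left⟩

/-- the Kaehler form -/
theorem kaehler (C : Cst) :
    letI := C.P.chartedSpace
    ((potK C).form (potK_smooth C)).toForm.Kaehler := by
  intro x
  obtain ⟨i, y, hy, rfl⟩ := C.P.cover x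
  refine Kah.posAt (potK_smooth C) hy ?_
  rcases i with ⟨z0, j⟩ | ⟨t, l⟩
  · have h := C.mem_inl.1 hy
    have hy0 : y 0 ≠ 0 := U0_ne z0.2 h.1
    have hO : IsOpen (sec j ⁻¹' (Mh \ Zh)) :=
      psi_isOpen_diff.preimage (continuous_iff_continuousAt.2 fun y => (sec_analytic j y).continuousAt)
    exact (strict_base j hy0).add hO ⟨sec_mem hy0, h.2⟩
      ((psi_psh C.hm C.hd C.hA).comp_analytic (fun y _ => sec_analytic j y) fun _ h => h)
  · exact strict_inr C t.2 l (C.mem_inr.1 hy)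

theorem big (C : Cst) :
    letI := C.P.chartedSpace
    ((potW C).form (potW_smooth C)).toForm.Big := by
  obtain ⟨y, hy, h⟩ := strict_Psi C
  exact ⟨_, Kah.posAt (potW_smooth C) hy h⟩

theorem semipositive (C : Cst) :
    letI := C.P.chartedSpace
    ((potW C).form (potW_smooth C)).toForm.Semipositive :=
  ((potW C).form (potW_smooth C)).semipositive fun i =>
    (potW C).psh (psi_psh C.hm C.hd C.hA)
      (fun t ht => psis_psh C.r_lt (C.sharp t ht) C.hd.pos) i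

end RG
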