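import Pool.Agent.H14.RG.DefsL
import Pool.Agent.H14.RG.StrM

/-!
# Module S1: the Levi form of psh functions
-/

open scoped Manifold ContDiff Topology
open Set

namespace RG

variable {n : ℕ}

theorem levi_eq (f : (Fin n → ℂ) → ℝ) (x v : Fin n → ℂ) :
    levi f x v = fderiv ℝ (fderiv ℝ f) x v v
      + fderiv ℝ (fderiv ℝ f) x (Complex.I • v) (Complex.I • v) := by
  unfold levi
  rw [iteratedFDeriv_two_apply, iteratedFDeriv_two_apply]
  rfl

/-- second order expansion, uniform in the direction -/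
theorem lv_taylor {f : (Fin n → ℂ) → ℝ} {x : Fin n → ℂ} (hf : ContDiffAt ℝ 2 f x) {ε : ℝ}
    (hε : 0 < ε) : ∃ δ > 0, ∀ w : Fin n → ℂ, ‖w‖ < δ →
      |f (x + w) - f x - fderiv ℝ f x w - fderiv ℝ (fderiv ℝ f) x w w / 2| ≤ ε * ‖w‖ ^ 2 := by
  have hsym : IsSymmSndFDerivAt ℝ f x := hf.isSymmSndFDerivAt (by simp)
  have hd2 : DifferentiableAt ℝ (fderiv ℝ f) x :=
    (hf.fderiv_right (m := 1) (by norm_num)).differentiableAt one_ne_zero
  have hev : ∀ᶠ y in 𝓝 x, DifferentiableAt ℝ f y := by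
    filter_upwards [hf.eventually (by simp)] with y hy
    exact hy.differentiableAt two_ne_zero
  have hev2 : ∀ᶠ y in 𝓝 x, ‖fderiv ℝ f y - fderiv ℝ f x - fderiv ℝ (fderiv ℝ f) x (y - x)‖
      ≤ ε * ‖y - x‖ := hd2.hasFDerivAt.isLittleO.bound hε
  obtain ⟨δ, hδ, hδ2⟩ := Metric.eventually_nhds_iff.1 (hev.and hev2)
  refine ⟨δ, hδ, fun w hw => ?_⟩
  set g : (Fin n → ℂ) → ℝ := fun u => f (x + u) - f x - fderiv ℝ f x u
    - 2⁻¹ * fderiv ℝ (fderiv ℝ f) x u u with hg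
  have hgd : ∀ u, ‖u‖ < δ → HasFDerivAt g
      (fderiv ℝ f (x + u) - fderiv ℝ f x - fderiv ℝ (fderiv ℝ f) x u) u := by
    intro u hu
    have hfu := (hδ2 (y := x + u) (by simpa [dist_eq_norm] using hu)).1
    have e1 : HasFDerivAt (fun u => f (x + u)) (fderiv ℝ f (x + u)) u := by
      have := hfu.hasFDerivAt.comp u ((hasFDerivAt_id u).const_add x)
      rw [ContinuousLinearMap.comp_id] at this
      exact this
    have e2 : HasFDerivAt (fun u => fderiv ℝ f x u) (fderiv ℝ f x) u := (fderiv ℝ f x).hasFDerivAt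
    have e3 := (fderiv ℝ (fderiv ℝ f) x).hasFDerivAt (x := u)
    have e4 := (e3.clm_apply (hasFDerivAt_id u)).const_mul (2⁻¹ : ℝ)
    refine (((e1.sub_const (f x)).sub e2).sub e4).congr_fderiv ?_
    ext v
    have h5 := hsym u v
    simp only [sub_apply, smul_apply, add_apply, ContinuousLinearMap.comp_apply,
      ContinuousLinearMap.flip_apply, ContinuousLinearMap.id_apply, smul_eq_mul, id]
    simp
    rw [h5]
    ring
  have hb : ∀ u ∈ Metric.closedBall (0 : Fin n → ℂ) ‖w‖,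
      ‖fderiv ℝ f (x + u) - fderiv ℝ f x - fderiv ℝ (fderiv ℝ f) x u‖ ≤ ε * ‖w‖ := by
    intro u hu
    rw [mem_closedBall_zero_iff] at hu
    have h1 := (hδ2 (y := x + u) (by simpa [dist_eq_norm] using hu.trans_lt hw)).2
    rw [add_sub_cancel_left] at h1
    exact h1.trans (mul_le_mul_of_nonneg_left hu hε.le)
  have hmv := (convex_closedBall (0 : Fin n → ℂ) ‖w‖).norm_image_sub_le_of_norm_hasFDerivWithin_le
    (f := g) (fun u hu => (hgd u ((mem_closedBall_zero_iff.1 hu).trans_lt hw)).hasFDerivWithinAt)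
    hb (x := 0) (y := w) (by simp) (by simp)
  have hg0 : g 0 = 0 := by simp [hg]
  rw [hg0, sub_zero, sub_zero, Real.norm_eq_abs] at hmv
  have e0 : f (x + w) - f x - fderiv ℝ f x w - fderiv ℝ (fderiv ℝ f) x w w / 2 = g w := by
    rw [hg]
    ring
  rw [e0]
  refine hmv.trans (le_of_eq (by ring))

theorem lv_trig (c0 c1 c2 c3 c4 c5 : ℝ) :
    ∫ θ in (0 : ℝ)..2 * Real.pi, (c0 + c1 * Real.cos θ + c2 * Real.sin θ + c3 * Real.cos θ ^ 2
      + c4 * (Real.sin θ * Real.cos θ) + c5 * Real.sin θ ^ 2)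
      = 2 * Real.pi * c0 + Real.pi * c3 + Real.pi * c5 := by
  have hd : ∀ θ : ℝ, HasDerivAt (fun θ : ℝ => c0 * θ + c1 * Real.sin θ - c2 * Real.cos θ
      + c3 * (θ / 2 + Real.sin θ * Real.cos θ / 2) + c4 * (Real.sin θ ^ 2 / 2)
      + c5 * (θ / 2 - Real.sin θ * Real.cos θ / 2))
      (c0 + c1 * Real.cos θ + c2 * Real.sin θ + c3 * Real.cos θ ^ 2
      + c4 * (Real.sin θ * Real.cos θ) + c5 * Real.sin θ ^ 2) θ := by
    intro θ
    have s1 := Real.hasDerivAt_sin θ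
    have s2 := Real.hasDerivAt_cos θ
    have h1 := (((((hasDerivAt_id θ).const_mul c0).add (s1.const_mul c1)).sub
      (s2.const_mul c2)).add ((((hasDerivAt_id θ).div_const 2).add
      ((s1.mul s2).div_const 2)).const_mul c3)).add (((s1.pow 2).div_const 2).const_mul c4)
    have h2 := h1.add ((((hasDerivAt_id θ).div_const 2).sub ((s1.mul s2).div_const 2)).const_mul c5)
    refine h2.congr_deriv ?_
    have h3 := Real.sin_sq_add_cos_sq θ
    push_cast
    linear_combination (-(c3 / 2) - c5 / 2) * h3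
  rw [intervalIntegral.integral_eq_sub_of_hasDerivAt (fun θ _ => hd θ)
    (Continuous.intervalIntegrable (by fun_prop) _ _)]
  simp
  ring

/-- the Levi form of a smooth psh function is nonnegative. Proof: for small `r` the average of
`f (x + r e^{iθ} v)` minus `f x` is nonnegative, and equals `r ^ 2 / 4 * levi f x v + o(r ^ 2)` -/
theorem levi_nonneg {f : (Fin n → ℂ) → ℝ} {x : Fin n → ℂ} {W : Set (Fin n → ℂ)}
    (hW : IsOpen W) (hx : x ∈ W) (hf : ContDiffAt ℝ 2 f x) (h : PshE f W) (v : Fin n → ℂ) :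
    0 ≤ levi f x v := by
  by_contra hneg
  rw [not_le] at hneg
  set L : ℝ := levi f x v with hL
  set ε : ℝ := -L / (8 * (‖v‖ ^ 2 + 1)) with hε
  have hεp : 0 < ε := div_pos (by linarith) (by positivity)
  obtain ⟨δ, hδ, ht⟩ := lv_taylor hf hεp
  obtain ⟨δ', hδ', hWb⟩ := Metric.isOpen_iff.1 hW x hx
  set r : ℝ := min δ δ' / (2 * (‖v‖ + 1)) with hr
  have hmin : 0 < min δ δ' := lt_min hδ hδ'
  have hrp : 0 < r := div_pos hmin (by positivity)
  have hrv : r * ‖v‖ < min δ δ' := by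
    have h1 : r * (2 * (‖v‖ + 1)) = min δ δ' := by
      rw [hr]
      field_simp
    nlinarith [norm_nonneg v]
  have hmem : ∀ ζ : ℂ, ‖ζ‖ ≤ r → ‖ζ • v‖ < δ ∧ x + ζ • v ∈ W := by
    intro ζ hζ
    have h1 : ‖ζ • v‖ < min δ δ' := by
      rw [norm_smul]
      exact (mul_le_mul_of_nonneg_right hζ (norm_nonneg v)).trans_lt hrv
    refine ⟨h1.trans_le (min_le_left _ _), hWb ?_⟩
    rw [Metric.mem_ball, dist_eq_norm, add_sub_cancel_left]
    exact h1.trans_le (min_le_right _ _)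
  have hsub := h.2 (fun ζ => x + ζ • v) 0 r hrp
    (fun ζ _ => analyticAt_const.add (analyticAt_id.smul analyticAt_const))
    (fun ζ hζ => (hmem ζ (by simpa using hζ)).2)
  rw [zero_smul, add_zero] at hsub
  set a := fderiv ℝ f x v with ha
  set b := fderiv ℝ f x (Complex.I • v) with hb
  set A := fderiv ℝ (fderiv ℝ f) x v v with hA
  set B := fderiv ℝ (fderiv ℝ f) x v (Complex.I • v) with hB
  set C := fderiv ℝ (fderiv ℝ f) x (Complex.I • v) (Complex.I • v) with hC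
  have hsym : IsSymmSndFDerivAt ℝ f x := hf.isSymmSndFDerivAt (by simp)
  have hLAC : L = A + C := levi_eq f x v
  have hcm : ∀ θ : ℝ, ‖circleMap 0 r θ‖ = r := by
    intro θ
    rw [norm_circleMap_zero, abs_of_pos hrp]
  have hpt : ∀ θ : ℝ, f (x + circleMap 0 r θ • v) ≤
      (f x + ε * r ^ 2 * ‖v‖ ^ 2) + (r * a) * Real.cos θ + (r * b) * Real.sin θ
      + (r ^ 2 * A / 2) * Real.cos θ ^ 2 + (r ^ 2 * B) * (Real.sin θ * Real.cos θ)
      + (r ^ 2 * C / 2) * Real.sin θ ^ 2 := by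
    intro θ
    have h1 := ht (circleMap 0 r θ • v) (hmem _ (hcm θ).le).1
    have h2 : circleMap 0 r θ • v = (r * Real.cos θ) • v + (r * Real.sin θ) • (Complex.I • v) := by
      have h3 : circleMap 0 r θ = ((r * Real.cos θ : ℝ) : ℂ) + ((r * Real.sin θ : ℝ) : ℂ) * Complex.I := by
        rw [circleMap, zero_add, Complex.exp_mul_I]
        push_cast
        ring
      rw [h3, add_smul, mul_smul]
      rfl
    have h4 : fderiv ℝ f x (circleMap 0 r θ • v) = r * Real.cos θ * a + r * Real.sin θ * b := by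
      rw [h2, map_add, map_smul, map_smul]
      rfl
    have h5 : fderiv ℝ (fderiv ℝ f) x (circleMap 0 r θ • v) (circleMap 0 r θ • v)
        = (r * Real.cos θ) ^ 2 * A + 2 * (r * Real.cos θ) * (r * Real.sin θ) * B
          + (r * Real.sin θ) ^ 2 * C := by
      have h6 : fderiv ℝ (fderiv ℝ f) x (Complex.I • v) v = B := hsym _ _
      rw [h2]
      simp only [map_add, map_smul, add_apply, smul_apply, smul_eq_mul]
      rw [h6, ← hA, ← hB, ← hC]
      ring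
    rw [h4, h5, norm_smul, hcm] at h1
    have h7 := (abs_le.1 h1).2
    nlinarith
  have hint : CircleIntegrable (fun ζ => f (x + ζ • v)) 0 r := by
    refine ContinuousOn.circleIntegrable hrp.le ?_
    refine h.1.comp (by fun_prop) fun ζ hζ => ?_
    exact (hmem ζ (by simpa using (mem_sphere_zero_iff_norm.1 hζ).le)).2
  have havg : Real.circleAverage (fun ζ => f (x + ζ • v)) 0 r
      ≤ (f x + ε * r ^ 2 * ‖v‖ ^ 2) + r ^ 2 / 4 * L := by
    unfold Real.circleAverage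
    have h1 : ∫ θ in (0 : ℝ)..2 * Real.pi, f (x + circleMap 0 r θ • v) ≤
        2 * Real.pi * (f x + ε * r ^ 2 * ‖v‖ ^ 2) + Real.pi * (r ^ 2 * A / 2)
          + Real.pi * (r ^ 2 * C / 2) := by
      rw [← lv_trig (f x + ε * r ^ 2 * ‖v‖ ^ 2) (r * a) (r * b) (r ^ 2 * A / 2) (r ^ 2 * B)
        (r ^ 2 * C / 2)]
      refine intervalIntegral.integral_mono_on (by positivity) hint
        (Continuous.intervalIntegrable (by fun_prop) _ _) fun θ _ => hpt θ
    have hpi := Real.pi_pos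
    rw [smul_eq_mul]
    calc (2 * Real.pi)⁻¹ * ∫ θ in (0 : ℝ)..2 * Real.pi, f (x + circleMap 0 r θ • v)
        ≤ (2 * Real.pi)⁻¹ * (2 * Real.pi * (f x + ε * r ^ 2 * ‖v‖ ^ 2) + Real.pi * (r ^ 2 * A / 2)
          + Real.pi * (r ^ 2 * C / 2)) := mul_le_mul_of_nonneg_left h1 (by positivity)
      _ = _ := by
          rw [hLAC]
          field_simp
          ring
  have hfin : 0 ≤ ε * r ^ 2 * ‖v‖ ^ 2 + r ^ 2 / 4 * L := by linarith
  have hr2 : 0 < r ^ 2 := by positivity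
  have h8 : 0 ≤ ε * ‖v‖ ^ 2 + L / 4 := by
    have h9 : 0 ≤ r ^ 2 * (ε * ‖v‖ ^ 2 + L / 4) := by linarith
    exact nonneg_of_mul_nonneg_right h9 hr2
  have h10 : ε * (‖v‖ ^ 2 + 1) = -L / 8 := by
    rw [hε]
    field_simp
  nlinarith

theorem lv_fderiv_norm_sq (x : Fin n → ℂ) :
    HasFDerivAt (fun y : Fin n → ℂ => ∑ k, ‖y k‖ ^ 2)
      (∑ k, 2 • (innerSL ℝ (x k)).comp (ContinuousLinearMap.proj k : (Fin n → ℂ) →L[ℝ] ℂ)) x := by
  refine HasFDerivAt.fun_sum fun k _ => ?_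
  have h1 := (hasStrictFDerivAt_norm_sq (x k)).hasFDerivAt.comp x
    ((ContinuousLinearMap.proj k : (Fin n → ℂ) →L[ℝ] ℂ).hasFDerivAt)
  exact h1

theorem lv_fderiv2_norm_sq (x v w : Fin n → ℂ) :
    fderiv ℝ (fderiv ℝ (fun y : Fin n → ℂ => ∑ k, ‖y k‖ ^ 2)) x v w
      = ∑ k, 2 * (inner ℝ (v k) (w k) : ℝ) := by
  have h1 : fderiv ℝ (fun y : Fin n → ℂ => ∑ k, ‖y k‖ ^ 2) = fun y =>
      ∑ k, 2 • (innerSL ℝ (y k)).comp (ContinuousLinearMap.proj k : (Fin n → ℂ) →L[ℝ] ℂ) := by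
    funext y
    exact (lv_fderiv_norm_sq y).fderiv
  rw [h1]
  set Λ : Fin n → ((Fin n → ℂ) →L[ℝ] ((Fin n → ℂ) →L[ℝ] ℝ)) := fun k =>
    ((ContinuousLinearMap.compL ℝ (Fin n → ℂ) ℂ ℝ).flip
      (ContinuousLinearMap.proj k : (Fin n → ℂ) →L[ℝ] ℂ)).comp
      ((innerSL ℝ : ℂ →L[ℝ] ℂ →L[ℝ] ℝ).comp
        (ContinuousLinearMap.proj k : (Fin n → ℂ) →L[ℝ] ℂ)) with hΛ
  have h2 : HasFDerivAt (fun y : Fin n → ℂ =>
      ∑ k, 2 • (innerSL ℝ (y k)).comp (ContinuousLinearMap.proj k : (Fin n → ℂ) →L[ℝ] ℂ))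
      (∑ k, 2 • Λ k) x := by
    refine HasFDerivAt.fun_sum fun k _ => ?_
    exact (2 • Λ k).hasFDerivAt
  rw [h2.fderiv, sum_apply, sum_apply]
  refine Finset.sum_congr rfl fun k _ => ?_
  change (2 • Λ k) v w = _
  rw [smul_apply, smul_apply, nsmul_eq_mul]
  rfl

theorem levi_norm_sq (x v : Fin n → ℂ) :
    levi (fun y => ∑ k, ‖y k‖ ^ 2) x v = 4 * ∑ k, ‖v k‖ ^ 2 := by
  rw [levi_eq, lv_fderiv2_norm_sq, lv_fderiv2_norm_sq, ← Finset.sum_add_distrib, Finset.mul_sum]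
  refine Finset.sum_congr rfl fun k _ => ?_
  rw [real_inner_self_eq_norm_sq, real_inner_self_eq_norm_sq, Pi.smul_apply, norm_smul,
    Complex.norm_I, one_mul]
  ring

/-- the Levi form of a strictly psh function is positive definite -/
theorem levi_pos {f : (Fin n → ℂ) → ℝ} {x : Fin n → ℂ} (hf : ContDiffAt ℝ 2 f x)
    (h : StrictE f x) {v : Fin n → ℂ} (hv : v ≠ 0) : 0 < levi f x v := by
  obtain ⟨c, hc, W, hW, hx, hp⟩ := h
  have hq : ContDiffAt ℝ 2 (fun y : Fin n → ℂ => ∑ k, ‖y k‖ ^ 2) x := by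
    refine ContDiffAt.sum fun k _ => ?_
    exact (contDiffAt_apply ℝ ℂ k x).norm_sq ℝ
  have h1 := levi_nonneg hW hx (hf.sub (contDiffAt_const.mul hq)) hp v
  have h2 : levi (fun y => f y - c * ∑ k, ‖y k‖ ^ 2) x v
      = levi f x v - c * levi (fun y => ∑ k, ‖y k‖ ^ 2) x v := by
    have e1 : ∀ᶠ y in 𝓝 x, fderiv ℝ (fun y => f y - c * ∑ k, ‖y k‖ ^ 2) y
        = fderiv ℝ f y - c • fderiv ℝ (fun y : Fin n → ℂ => ∑ k, ‖y k‖ ^ 2) y := by
      filter_upwards [hf.eventually (by simp)] with y hy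
      have a1 := (hy.differentiableAt two_ne_zero).hasFDerivAt
      have a2 := (lv_fderiv_norm_sq y)
      rw [a2.fderiv]
      exact (a1.sub (a2.const_mul c)).fderiv
    have e2 : DifferentiableAt ℝ (fderiv ℝ f) x :=
      (hf.fderiv_right (m := 1) (by norm_num)).differentiableAt one_ne_zero
    have e3 : DifferentiableAt ℝ (fderiv ℝ (fun y : Fin n → ℂ => ∑ k, ‖y k‖ ^ 2)) x :=
      (hq.fderiv_right (m := 1) (by norm_num)).differentiableAt one_ne_zero
    have e4 : fderiv ℝ (fderiv ℝ (fun y => f y - c * ∑ k, ‖y k‖ ^ 2)) x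
        = fderiv ℝ (fderiv ℝ f) x
          - c • fderiv ℝ (fderiv ℝ (fun y : Fin n → ℂ => ∑ k, ‖y k‖ ^ 2)) x := by
      rw [Filter.EventuallyEq.fderiv_eq e1]
      exact (e2.hasFDerivAt.sub (e3.hasFDerivAt.const_smul c)).fderiv
    rw [levi_eq, levi_eq, levi_eq, e4]
    simp only [sub_apply, smul_apply, smul_eq_mul]
    ring
  rw [h2, levi_norm_sq] at h1
  have h3 : 0 < ∑ k, ‖v k‖ ^ 2 := by
    obtain ⟨k, hk⟩ := Function.ne_iff.1 hv
    refine Finset.sum_pos' (fun i _ => by positivity) ⟨k, Finset.mem_univ k, ?_⟩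
    exact pow_pos (norm_pos_iff.2 hk) 2
  nlinarith [mul_pos hc h3]

end RG
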