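import Pool.Agent.H14.RG.EstC

/-!
# Module L1: local data at the blown-up points
-/

open scoped Topology ContDiff
open Set Metric

namespace RG

/-- the roots are finite in number -/
theorem Rt_finite : Rt.Finite := by
  have hp : (Polynomial.X ^ 8 + Polynomial.X + 1 : Polynomial ℂ) ≠ 0 := by
    intro h
    have := congrArg (Polynomial.eval 0) h
    simp at this
  refine (Polynomial.finite_setOfPred_isRoot hp).subset ?_
  intro t ht
  have ht' : 1 + t + t ^ 8 = 0 := ht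
  simp only [mem_ofPred_eq, Polynomial.IsRoot, Polynomial.eval_add, Polynomial.eval_pow,
    Polynomial.eval_X, Polynomial.eval_one]
  linear_combination ht'

namespace Lc

theorem dslope_an {f : ℂ → ℂ} {a : ℂ} (hf : AnalyticAt ℂ f a) : AnalyticAt ℂ (dslope f a) a := by
  obtain ⟨p, hp⟩ := hf
  exact ⟨_, hp.has_fpower_series_dslope_fslope⟩

/-- the shifted slope -/
noncomputable def ds (f : ℂ → ℂ) (y : E3) : ℂ := dslope f 1 (1 + y 0)

theorem co_an (k : Fin 3) (y : E3) : AnalyticAt ℂ (fun y : E3 => y k) y :=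
  (ContinuousLinearMap.proj (R := ℂ) (φ := fun _ : Fin 3 => ℂ) k).analyticAt y

theorem ds_an {f : ℂ → ℂ} (hf : AnalyticAt ℂ f 1) : AnalyticAt ℂ (ds f) (0 : E3) := by
  have h1 : AnalyticAt ℂ (fun y : E3 => 1 + y 0) 0 := analyticAt_const.add (co_an 0 0)
  have h2 : AnalyticAt ℂ (dslope f 1) ((fun y : E3 => 1 + y 0) 0) := by
    simpa using dslope_an hf
  exact AnalyticAt.comp (g := dslope f 1) (f := fun y : E3 => 1 + y 0) (x := 0) h2 h1

theorem ds_mul (f : ℂ → ℂ) (y : E3) : ds f y * y 0 = f (1 + y 0) - f 1 := by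
  unfold ds
  have := sub_smul_dslope f 1 (1 + y 0)
  rw [← this, smul_eq_mul]
  ring

theorem ds_zero (f : ℂ → ℂ) : ds f 0 = deriv f 1 := by
  unfold ds
  simp

/-- the matrix -/
noncomputable def MM (t : ℂ) : Fin 3 → E3 → E3 :=
  ![fun y => ![ds Th y * (t ^ 2 + y 2) ^ 4, 1,
      (2 * t ^ 2 + y 2) * ((t ^ 2 + y 2) ^ 2 + t ^ 4)],
    fun y => ![ds th y, 0, 0],
    fun y => ![ds (fun z => thb aa z ^ 2) y * (t ^ 2 + y 2)
      - ds (thb (aa ^ (-6 : ℤ))) y * (1 + t + y 1) ^ 2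
      + 2 * ds (thb (aa ^ (-2 : ℤ))) y * (1 + t + y 1) - ds (thb (aa ^ 2)) y,
      -(2 * t + y 1), 1]]

theorem aff_eq (t : ℂ) (y : E3) : aff t y = (1 + y 0, ![1, 1 + t + y 1, t ^ 2 + y 2]) := by
  unfold aff sec cen
  simp

theorem aff_zero (t : ℂ) : aff t 0 = pC t := by
  rw [aff_eq]
  unfold pC
  simp

theorem aff_cont (t : ℂ) : Continuous (aff t) := by
  have : aff t = fun y => (1 + y 0, ![1, 1 + t + y 1, t ^ 2 + y 2]) := by
    funext y
    exact aff_eq t y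
  rw [this]
  refine Continuous.prodMk (by fun_prop) ?_
  refine continuous_pi fun i => ?_
  fin_cases i
  · simpa using continuous_const
  · simp only [Fin.mk_one, Matrix.cons_val_one, Matrix.cons_val_zero]
    fun_prop
  · simp only [Fin.reduceFinMk, Matrix.cons_val]
    fun_prop

theorem thb_an (b : ℂ) (hb : ‖b‖ = 1) : AnalyticAt ℂ (thb b) 1 := thb_analytic hb one_ne_zero

theorem Th_an : AnalyticAt ℂ Th 1 := (thb_an aa norm_aa).pow 4

theorem MM_an (t : ℂ) (i k : Fin 3) : AnalyticAt ℂ (fun y => MM t i y k) 0 := by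
  have y1 := co_an 1 0
  have y2 := co_an 2 0
  have c1 : AnalyticAt ℂ (fun y : E3 => t ^ 2 + y 2) 0 := analyticAt_const.add y2
  have c2 : AnalyticAt ℂ (fun y : E3 => 1 + t + y 1) 0 := analyticAt_const.add y1
  have d1 := ds_an Th_an
  have d2 := ds_an (th_analytic (z := 1) one_ne_zero)
  have d3 := ds_an ((thb_an aa norm_aa).pow 2)
  have d4 := ds_an (thb_an (aa ^ (-6 : ℤ)) (norm_aa_zpow _))
  have d5 := ds_an (thb_an (aa ^ (-2 : ℤ)) (norm_aa_zpow _))
  have d6 := ds_an (thb_an (aa ^ 2) (norm_aa_pow _))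
  fin_cases i <;> fin_cases k
  · exact d1.mul (c1.pow 4)
  · exact analyticAt_const
  · exact (analyticAt_const.add y2).mul ((c1.pow 2).add analyticAt_const)
  · exact d2
  · exact analyticAt_const
  · exact analyticAt_const
  · exact (((d3.mul c1).sub (d4.mul (c2.pow 2))).add
      ((analyticAt_const.mul d5).mul c2)).sub d6
  · exact (analyticAt_const.add y1).neg
  · exact analyticAt_const

theorem MM_P {t : ℂ} (ht : t ∈ Rt) (y : E3) : ∑ k, MM t 0 y k * y k = fP (aff t y) := by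
  have ht' : 1 + t + t ^ 8 = 0 := ht
  have h1 := ds_mul Th y
  rw [Iv.Th_one] at h1
  have h2 : ∑ k, MM t 0 y k * y k = ds Th y * (t ^ 2 + y 2) ^ 4 * y 0 + 1 * y 1 +
      (2 * t ^ 2 + y 2) * ((t ^ 2 + y 2) ^ 2 + t ^ 4) * y 2 := by
    rw [Fin.sum_univ_three]
    rfl
  rw [h2, aff_eq]
  unfold fP
  simp only [Matrix.cons_val_zero, Matrix.cons_val_one, Matrix.cons_val]
  linear_combination (t ^ 2 + y 2) ^ 4 * h1 - ht'

theorem MM_T (t : ℂ) (y : E3) : ∑ k, MM t 1 y k * y k = th (aff t y).1 := by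
  have h1 := ds_mul th y
  rw [Iv.th_one] at h1
  have h2 : ∑ k, MM t 1 y k * y k = ds th y * y 0 + 0 * y 1 + 0 * y 2 := by
    rw [Fin.sum_univ_three]
    rfl
  rw [h2, aff_eq]
  simp only
  linear_combination h1

theorem MM_Q (t : ℂ) (y : E3) : ∑ k, MM t 2 y k * y k = fQ (aff t y) := by
  have h3 := ds_mul (fun z => thb aa z ^ 2) y
  have h4 := ds_mul (thb (aa ^ (-6 : ℤ))) y
  have h5 := ds_mul (thb (aa ^ (-2 : ℤ))) y
  have h6 := ds_mul (thb (aa ^ 2)) y
  have a2 : aa ^ 2 ≠ 1 := by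
    have := aa_zpow_ne (n := 2) (by norm_num)
    exact_mod_cast this
  simp only [Iv.thb_aa_one] at h3
  rw [thb_one (norm_aa_zpow _) (aa_zpow_ne (by norm_num))] at h4 h5
  rw [thb_one (norm_aa_pow _) a2] at h6
  have h2 : ∑ k, MM t 2 y k * y k = (ds (fun z => thb aa z ^ 2) y * (t ^ 2 + y 2)
      - ds (thb (aa ^ (-6 : ℤ))) y * (1 + t + y 1) ^ 2
      + 2 * ds (thb (aa ^ (-2 : ℤ))) y * (1 + t + y 1) - ds (thb (aa ^ 2)) y) * y 0
      + -(2 * t + y 1) * y 1 + 1 * y 2 := by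
    rw [Fin.sum_univ_three]
    rfl
  rw [h2, aff_eq]
  unfold fQ
  simp only [Matrix.cons_val_zero, Matrix.cons_val_one, Matrix.cons_val]
  linear_combination (t ^ 2 + y 2) * h3 - (1 + t + y 1) ^ 2 * h4 + 2 * (1 + t + y 1) * h5 - h6

theorem root_ne {t : ℂ} (ht : t ∈ Rt) : t ≠ 0 := by
  rintro rfl
  have ht' : (1 : ℂ) + 0 + 0 ^ 8 = 0 := ht
  norm_num at ht'

theorem root_simple {t : ℂ} (ht : t ∈ Rt) : 1 + 8 * t ^ 7 ≠ 0 := by
  intro h
  have ht' : 1 + t + t ^ 8 = 0 := ht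
  have h1 : t = -8 / 7 := by
    have : 7 * t + 8 = 0 := by linear_combination 8 * ht' - t * h
    linear_combination this / 7
  rw [h1] at h
  norm_num at h

/-- the matrix as a matrix -/
noncomputable def Mx (t : ℂ) (y : E3) : Matrix (Fin 3) (Fin 3) ℂ := fun i k => MM t i y k

theorem det_zero {t : ℂ} (ht : t ∈ Rt) : (Mx t 0).det ≠ 0 := by
  have h : (Mx t 0).det = - deriv th 1 * (1 + 8 * t ^ 7) := by
    rw [Matrix.det_fin_three]
    have e00 : Mx t 0 0 0 = ds Th 0 * (t ^ 2 + 0) ^ 4 := rfl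
    have e01 : Mx t 0 0 1 = 1 := rfl
    have e02 : Mx t 0 0 2 = (2 * t ^ 2 + 0) * ((t ^ 2 + 0) ^ 2 + t ^ 4) := rfl
    have e10 : Mx t 0 1 0 = ds th 0 := rfl
    have e11 : Mx t 0 1 1 = 0 := rfl
    have e12 : Mx t 0 1 2 = 0 := rfl
    have e21 : Mx t 0 2 1 = -(2 * t + 0) := rfl
    have e22 : Mx t 0 2 2 = 1 := rfl
    rw [e00, e01, e02, e10, e11, e12, e21, e22, ds_zero th]
    ring
  rw [h]
  exact mul_ne_zero (neg_ne_zero.2 th_deriv) (root_simple ht)

theorem det_cont (t : ℂ) : ContinuousAt (fun y => (Mx t y).det) 0 := by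
  have h1 : ContinuousAt (Mx t) 0 :=
    continuousAt_pi.2 fun i => continuousAt_pi.2 fun k => (MM_an t i k).continuousAt
  have h2 : Continuous (fun A : Matrix (Fin 3) (Fin 3) ℂ => A.det) :=
    Continuous.matrix_det continuous_id
  exact h2.continuousAt.comp h1

theorem inv_ev {t : ℂ} (ht : t ∈ Rt) : ∀ᶠ y in 𝓝 (0 : E3), ∀ r : E3, r ≠ 0 →
    ∃ i, ∑ k, MM t i y k * r k ≠ 0 := by
  have h := (det_cont t).eventually_ne (det_zero ht)
  filter_upwards [h] with y hy r hr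
  by_contra hcon
  push Not at hcon
  apply hr
  apply Matrix.eq_zero_of_mulVec_eq_zero hy
  funext i
  exact hcon i

/-- from eventually near `0` to all small balls -/
theorem ball_ev {Q : E3 → Prop} (h : ∀ᶠ y in 𝓝 (0 : E3), Q y) :
    ∀ᶠ r in 𝓝[>] (0 : ℝ), ∀ y ∈ ball (0 : E3) r, Q y := by
  obtain ⟨ε, hε, he⟩ := Metric.eventually_nhds_iff_ball.1 h
  filter_upwards [Ioo_mem_nhdsGT hε] with r hr y hy
  exact he y (ball_subset_ball hr.2.le hy)

theorem aff_ne (t : ℂ) : (aff t 0).1 ≠ 0 := by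
  rw [aff_zero]
  exact (Iv.pC_mem t).1

theorem pC_Zh {t : ℂ} (ht : t ∈ Rt) : pC t ∈ Zh := by
  refine ⟨Iv.pC_mem t, ?_, nJp_pC t, ?_⟩
  · rw [fP_pC]
    exact ht
  · unfold pC
    simpa using root_ne ht

theorem tube_ev {d : ℝ} (hd : TubeGood d) {t : ℂ} (ht : t ∈ Rt) :
    ∀ᶠ y in 𝓝 (0 : E3), d * nE (aff t y) < a2 (aff t y) := by
  have c1 : ContinuousAt (fun y => d * nE (aff t y)) 0 :=
    continuousAt_const.mul
      ((nE_smooth (aff t 0)).continuousAt.comp (aff_cont t).continuousAt)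
  have c2 : ContinuousAt (fun y => a2 (aff t y)) 0 :=
    (a2_smooth (aff_ne t)).continuousAt.comp (aff_cont t).continuousAt
  refine c1.eventually_lt c2 ?_
  rw [aff_zero]
  exact Zh_tube hd (pC_Zh ht)

theorem lt_ev {t : ℂ} (ht : t ∈ Rt) :
    ∀ᶠ y in 𝓝 (0 : E3), nJp (aff t y) < nB (aff t y) := by
  have c1 : ContinuousAt (fun y => nJp (aff t y)) 0 :=
    (nJp_smooth (aff_ne t)).continuousAt.comp (aff_cont t).continuousAt
  have c2 : ContinuousAt (fun y => nB (aff t y)) 0 :=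
    (nB_smooth (aff_ne t)).continuousAt.comp (aff_cont t).continuousAt
  refine c1.eventually_lt c2 ?_
  rw [aff_zero, nJp_pC]
  have h2 : (pC t).2 2 ≠ 0 := (pC_Zh ht).2.2.2
  have h3 := nN_pos (Iv.pC_mem t)
  unfold nB
  have h4 : 0 < ‖(pC t).2 2‖ := norm_pos_iff.2 h2
  positivity

theorem sharp_ev {d : ℝ} (hd : TubeGood d) {t : ℂ} (ht : t ∈ Rt) :
    ∀ᶠ r in 𝓝[>] (0 : ℝ), Sharp d r t (MM t) := by
  have h1 : ∀ᶠ y in 𝓝 (0 : E3), ∀ i k, AnalyticAt ℂ (fun y => MM t i y k) y := by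
    rw [Filter.eventually_all]
    intro i
    rw [Filter.eventually_all]
    intro k
    exact (MM_an t i k).eventually_analyticAt
  filter_upwards [ball_ev h1, ball_ev (inv_ev ht), ball_ev (tube_ev hd ht), ball_ev (lt_ev ht)]
    with r a1 a2 a3 a4
  exact ⟨fun i k y hy => a1 y hy i k, fun y _ => MM_P ht y, fun y _ => MM_T t y,
    fun y _ => MM_Q t y, a2, a3, a4⟩

theorem disj_ev {t t' : ℂ} (h : t ≠ t') :
    ∀ᶠ r in 𝓝[>] (0 : ℝ), Disjoint (closedBall (cen t) r) (closedBall (cen t') r) := by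
  have hne : cen t ≠ cen t' := by
    intro hc
    have := congrFun hc 1
    simp only [cen, Matrix.cons_val_one, Matrix.cons_val_zero] at this
    exact h (add_left_cancel this)
  have hd : 0 < dist (cen t) (cen t') / 2 := by
    have := dist_pos.2 hne
    linarith
  filter_upwards [Ioo_mem_nhdsGT hd] with r hr
  apply closedBall_disjoint_closedBall
  have := hr.2
  linarith

end Lc

/-- local data at the blown-up points -/
theorem exists_sharp {d : ℝ} (hd : TubeGood d) : ∃ r0 : ℝ, 0 < r0 ∧ r0 < 1 / 8 ∧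
    (∀ t ∈ Rt, ∃ M, Sharp d r0 t M) ∧
    ∀ t ∈ Rt, ∀ t' ∈ Rt, t ≠ t' → Disjoint (closedBall (cen t) r0) (closedBall (cen t') r0) := by
  have h1 : ∀ᶠ r in 𝓝[>] (0 : ℝ), ∀ t ∈ Rt, Sharp d r t (Lc.MM t) :=
    (Filter.eventually_all_finite Rt_finite).2 fun t ht => Lc.sharp_ev hd ht
  have h2 : ∀ᶠ r in 𝓝[>] (0 : ℝ), ∀ t ∈ Rt, ∀ t' ∈ Rt, t ≠ t' →
      Disjoint (closedBall (cen t) r) (closedBall (cen t') r) := by
    refine (Filter.eventually_all_finite Rt_finite).2 fun t _ => ?_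
    refine (Filter.eventually_all_finite Rt_finite).2 fun t' _ => ?_
    by_cases h : t = t'
    · exact Filter.Eventually.of_forall fun _ hc => absurd h hc
    · exact (Lc.disj_ev h).mono fun _ hr _ => hr
  have h3 : ∀ᶠ r in 𝓝[>] (0 : ℝ), r ∈ Ioo (0 : ℝ) (1 / 8) := Ioo_mem_nhdsGT (by norm_num)
  obtain ⟨r, ⟨hr1, hr2⟩, hr3⟩ := ((h1.and h2).and h3).exists
  exact ⟨r, hr3.1, hr3.2, fun t ht => ⟨Lc.MM t, hr1 t ht⟩, hr2⟩

end RG
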