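import Pool.Agent.H14.RG.PhiA

/-!
# Module I2: the function `Phi` on the cone
-/

open scoped Topology ContDiff
open Set Metric

namespace RG

variable {d d0 K : ℝ}

namespace PM

/-- the base point of the tangency orbit -/
theorem pt_eq : ((1, ![1, 1, 0]) : V4) = pC 0 := by
  unfold pC
  simp

theorem pt_mem : ((1, ![1, 1, 0]) : V4) ∈ Mh := by
  refine ⟨one_ne_zero, fun h => ?_⟩
  have := congrFun h 0
  simp at this

theorem nJp_pt : nJp ((1, ![1, 1, 0]) : V4) = 0 := by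
  rw [pt_eq]
  exact nJp_pC 0

theorem fP_pt : fP ((1, ![1, 1, 0]) : V4) = 1 := by
  rw [pt_eq, fP_pC]
  norm_num

/-- explicit form of the points of the orbit -/
theorem orb_eq (t : ℂ) (n : ℤ) :
    sc t (gG n ((1, ![1, 1, 0]) : V4)) = (tau ^ n, ![t, t * eta ^ n, 0]) := by
  unfold sc gG
  ext i
  · simp
  · fin_cases i <;> simp

theorem Ph_orb {p : V4} (hp : p ∈ Ph) :
    ∃ n : ℤ, ∃ t : ℂ, t ≠ 0 ∧ p = (tau ^ n, ![t, t * eta ^ n, 0]) := by
  obtain ⟨n, t, ht, h⟩ := nJp_S hp.1 hp.2.2 hp.2.1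
  exact ⟨n, t, ht, by rw [h, orb_eq]⟩

theorem fP_Ph {p : V4} (hp : p ∈ Ph) : fP p ≠ 0 := by
  obtain ⟨n, t, ht, h⟩ := nJp_S hp.1 hp.2.2 hp.2.1
  rw [h, fP_sc, fP_gG n (show ((1, ![1, 1, 0]) : V4).1 ≠ 0 from one_ne_zero), fP_pt]
  have h1 : eta ≠ 0 := by
    intro h
    have := norm_eta
    rw [h, norm_zero] at this
    exact zero_ne_one this
  exact mul_ne_zero (pow_ne_zero _ ht) (mul_ne_zero (zpow_ne_zero _ h1) one_ne_zero)

theorem norm_Ph {p : V4} (hp : p ∈ Ph) : p.2 0 ≠ 0 ∧ ‖p.2 1‖ = ‖p.2 0‖ := by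
  obtain ⟨n, t, ht, h⟩ := Ph_orb hp
  rw [h]
  refine ⟨by simpa using ht, ?_⟩
  simp [norm_eta]

theorem cont_O4 {f : V4 → ℝ} {p : V4} (h : ContDiffAt ℝ ∞ f p) : ContinuousAt f p :=
  h.continuousAt

end PM

open PM

theorem isOpen_MZ : IsOpen (Mh \ Zh) := by
  have h : Mh \ Zh = {p | p ∈ Mh ∧ (fP p ≠ 0 ∨ nJp p ≠ 0)} := by
    ext p
    constructor
    · rintro ⟨hp, hz⟩
      refine ⟨hp, ?_⟩
      by_contra hc
      rw [not_or, not_not, not_not] at hc
      by_cases h2 : p.2 2 = 0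
      · exact fP_Ph ⟨hp, hc.2, h2⟩ hc.1
      · exact hz ⟨hp, hc.1, hc.2, h2⟩
    · rintro ⟨hp, h⟩
      refine ⟨hp, fun hz => ?_⟩
      rcases h with h | h
      · exact h hz.2.1
      · exact h hz.2.2.1
  rw [h, isOpen_iff_mem_nhds]
  rintro p ⟨hp, h⟩
  have h0 := isOpen_Mh.mem_nhds hp
  rcases h with h | h
  · filter_upwards [h0, (fP_analytic hp.1).continuousAt.eventually_ne h] with y hy h1
    exact ⟨hy, Or.inl h1⟩
  · filter_upwards [h0, (nJp_smooth hp.1).continuousAt.eventually_ne h] with y hy h1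
    exact ⟨hy, Or.inr h1⟩

namespace PM

theorem norm_cc_pos (n : ℤ) {p : V4} (hp : p ∈ Mh) : 0 < ‖cc n p.1‖ ^ 2 := by
  have := cc_ne (n := n) hp.1
  positivity

theorem nJp_gG_zero (n : ℤ) {p : V4} (hp : p ∈ Mh) : nJp (gG n p) = 0 ↔ nJp p = 0 := by
  have h := nJp_gG n hp.1
  have h1 := norm_cc_pos n hp
  constructor
  · intro h2
    rw [h2, zero_mul] at h
    exact h.symm
  · intro h2
    rw [h2] at h
    rcases mul_eq_zero.1 h with h | h
    · exact h
    · exact absurd h h1.ne'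

theorem norm_gG1 (n : ℤ) (p : V4) : ‖(gG n p).2 1‖ = ‖p.2 1‖ := by
  unfold gG
  simp [norm_eta]

theorem gG0 (n : ℤ) (p : V4) : (gG n p).2 0 = p.2 0 := by
  unfold gG
  simp

theorem gG2_zero (n : ℤ) {p : V4} (hp : p ∈ Mh) : (gG n p).2 2 = 0 ↔ p.2 2 = 0 := by
  unfold gG
  simp [cc_ne (n := n) hp.1]

theorem fP_gG_ne (n : ℤ) {p : V4} (hp : p ∈ Mh) : fP (gG n p) ≠ 0 ↔ fP p ≠ 0 := by
  rw [← norm_ne_zero_iff, norm_fP_gG n hp.1, norm_ne_zero_iff]

theorem lt_gG (n : ℤ) {p : V4} (hp : p ∈ Mh) : nJp (gG n p) < nB (gG n p) ↔ nJp p < nB p := by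
  rw [← nJp_gG n hp.1, ← nB_gG n hp.1]
  exact (mul_lt_mul_iff_left₀ (norm_cc_pos n hp)).symm

theorem lt_gG' (n : ℤ) {p : V4} (hp : p ∈ Mh) :
    nB (gG n p) / 32 < nJp (gG n p) ↔ nB p / 32 < nJp p := by
  rw [← nJp_gG n hp.1, ← nB_gG n hp.1, mul_div_right_comm]
  exact (mul_lt_mul_iff_left₀ (norm_cc_pos n hp)).symm

theorem Reg_gG (n : ℤ) {p : V4} (hp : p ∈ Mh) (i : Fin 4) :
    gG n p ∈ Reg d d0 i ↔ p ∈ Reg d d0 i := by
  have hm := gG_mem (n := n) hp
  fin_cases i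
  · simp only [Reg, Fin.zero_eta, Matrix.cons_val_zero, mem_ofPred_eq, nJ_gG n hp.1, hm, hp]
  · simp only [Reg, Fin.mk_one, Matrix.cons_val_one, Matrix.cons_val_zero, mem_ofPred_eq,
      a2_gG n hp.1, nE_gG, norm_gG1, gG0, lt_gG' n hp, hm, hp]
  · simp only [Reg, Fin.reduceFinMk, Matrix.cons_val, mem_ofPred_eq, fP_gG_ne n hp, nN_gG n hp.1,
      nJ_gG n hp.1, nP_gG n hp.1, lt_gG n hp, hm, hp]
  · simp only [Reg, Fin.reduceFinMk, Matrix.cons_val, mem_ofPred_eq, a2_gG n hp.1, nE_gG, hm, hp]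

theorem pie_gG (n : ℤ) {p : V4} (hp : p ∈ Mh) (i : Fin 4) :
    pie K i (gG n p) = pie K i p := by
  fin_cases i
  · simp only [pie, Fin.zero_eta, Matrix.cons_val_zero, nJ_gG n hp.1, nN_gG n hp.1]
  · simp only [pie, Fin.mk_one, Matrix.cons_val_one, Matrix.cons_val_zero, nP_gG n hp.1, sg_gG,
      k1_gG n hp.1]
  · simp only [pie, Fin.reduceFinMk, Matrix.cons_val, nP_gG n hp.1, k2_gG n hp.1]
  · simp only [pie, Fin.reduceFinMk, Matrix.cons_val, nE_gG]

end PM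

theorem phi_gG (hd : TubeGood d) (n : ℤ) {p : V4} (hp : p ∈ Mh) :
    Phi d d0 K (gG n p) = Phi d d0 K p := by
  unfold Phi
  simp only [nJp_gG_zero n hp, gG2_zero n hp, nP_gG n hp.1, Reg_gG n hp, pie_gG n hp]

namespace PM

theorem Reg_sc {t : ℂ} (ht : t ≠ 0) {p : V4} (hp : p ∈ Mh) (i : Fin 4) :
    sc t p ∈ Reg d d0 i ↔ p ∈ Reg d d0 i := by
  have hm := sc_mem ht hp
  have htp : 0 < ‖t‖ := norm_pos_iff.2 ht
  have h0 : ‖(sc t p).2 0‖ = ‖t‖ * ‖p.2 0‖ := by unfold sc; simp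
  have h1 : ‖(sc t p).2 1‖ = ‖t‖ * ‖p.2 1‖ := by unfold sc; simp
  fin_cases i
  · simp only [Reg, Fin.zero_eta, Matrix.cons_val_zero, mem_ofPred_eq, nJ_sc, hm, hp, true_and]
    rw [mul_ne_zero_iff]
    exact ⟨fun h => h.2, fun h => ⟨by positivity, h⟩⟩
  · simp only [Reg, Fin.mk_one, Matrix.cons_val_one, Matrix.cons_val_zero, mem_ofPred_eq,
      a2_sc, nE_sc, h0, h1, nB_sc, nJp_sc, hm, hp, true_and]
    have e1 : ‖t‖ ^ 2 * a2 p < d * (‖t‖ ^ 2 * nE p) ↔ a2 p < d * nE p := by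
      rw [show d * (‖t‖ ^ 2 * nE p) = ‖t‖ ^ 2 * (d * nE p) by ring]
      exact mul_lt_mul_iff_right₀ (by positivity)
    have e2 : ∀ a b : ℝ, (‖t‖ * a) ^ 2 < Real.exp 6 * (‖t‖ * b) ^ 2 ↔
        a ^ 2 < Real.exp 6 * b ^ 2 := by
      intro a b
      rw [show (‖t‖ * a) ^ 2 = ‖t‖ ^ 2 * a ^ 2 by ring,
        show Real.exp 6 * (‖t‖ * b) ^ 2 = ‖t‖ ^ 2 * (Real.exp 6 * b ^ 2) by ring]
      exact mul_lt_mul_iff_right₀ (by positivity)
    have e3 : ‖t‖ ^ 4 * nB p / 32 < ‖t‖ ^ 4 * nJp p ↔ nB p / 32 < nJp p := by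
      rw [mul_div_assoc]
      exact mul_lt_mul_iff_right₀ (by positivity)
    rw [e1, e2, e2, e3]
  · simp only [Reg, Fin.reduceFinMk, Matrix.cons_val, mem_ofPred_eq, fP_sc, nN_sc,
      nJ_sc, nP_sc, nJp_sc, nB_sc, hm, hp, true_and]
    have e1 : t ^ 4 * fP p ≠ 0 ↔ fP p ≠ 0 := by
      rw [mul_ne_zero_iff]
      exact ⟨fun h => h.2, fun h => ⟨pow_ne_zero _ ht, h⟩⟩
    have e2 : ‖t‖ ^ 2 * nN p * (‖t‖ ^ 6 * nJ p) < d0 * (‖t‖ ^ 8 * nP p) ↔
        nN p * nJ p < d0 * nP p := by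
      rw [show ‖t‖ ^ 2 * nN p * (‖t‖ ^ 6 * nJ p) = ‖t‖ ^ 8 * (nN p * nJ p) by ring,
        show d0 * (‖t‖ ^ 8 * nP p) = ‖t‖ ^ 8 * (d0 * nP p) by ring]
      exact mul_lt_mul_iff_right₀ (by positivity)
    have e3 : ‖t‖ ^ 4 * nJp p < ‖t‖ ^ 4 * nB p ↔ nJp p < nB p :=
      mul_lt_mul_iff_right₀ (by positivity)
    rw [e1, e2, e3]
  · simp only [Reg, Fin.reduceFinMk, Matrix.cons_val, mem_ofPred_eq, a2_sc, nE_sc, hm, hp,
      true_and]
    rw [show d * (‖t‖ ^ 2 * nE p) = ‖t‖ ^ 2 * (d * nE p) by ring]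
    exact mul_lt_mul_iff_right₀ (by positivity)

theorem log_sc {t : ℂ} (ht : t ≠ 0) (n : ℕ) {x : ℝ} (hx : x ≠ 0) :
    Real.log (‖t‖ ^ n * x) = n * Real.log ‖t‖ + Real.log x := by
  have htp : ‖t‖ ≠ 0 := norm_ne_zero_iff.2 ht
  rw [Real.log_mul (pow_ne_zero _ htp) hx, Real.log_pow]

theorem band_of_lt {p : V4} (h1 : ‖p.2 1‖ ^ 2 < Real.exp 6 * ‖p.2 0‖ ^ 2)
    (h2 : ‖p.2 0‖ ^ 2 < Real.exp 6 * ‖p.2 1‖ ^ 2) : band p := ⟨h1.le, h2.le⟩

theorem pie_sc (hd : TubeGood d) {t : ℂ} (ht : t ≠ 0) {p : V4} {i : Fin 4}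
    (h : p ∈ Reg d d0 i) : pie K i (sc t p) = pie K i p + 2 * Real.log ‖t‖ := by
  fin_cases i
  · simp only [Reg, Fin.zero_eta, Matrix.cons_val_zero, mem_ofPred_eq] at h
    simp only [pie, Fin.zero_eta, Matrix.cons_val_zero, nJ_sc, nN_sc]
    rw [show ‖t‖ ^ 2 * nN p * (‖t‖ ^ 6 * nJ p) = ‖t‖ ^ 8 * (nN p * nJ p) by ring,
      log_sc ht 8 (mul_ne_zero (nN_pos h.1).ne' h.2)]
    push_cast
    ring
  · simp only [Reg, Fin.mk_one, Matrix.cons_val_one, Matrix.cons_val_zero, mem_ofPred_eq] at h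
    obtain ⟨x0, x1, hf, -, -⟩ := hd.t1 p h.1 h.2.1.le (band_of_lt h.2.2.1 h.2.2.2.1)
    have hn : nP p ≠ 0 := by
      unfold nP
      positivity
    simp only [pie, Fin.mk_one, Matrix.cons_val_one, Matrix.cons_val_zero, nP_sc, sg_sc ht x0 x1,
      k1_sc ht]
    rw [log_sc ht 8 hn]
    push_cast
    ring
  · simp only [Reg, Fin.reduceFinMk, Matrix.cons_val, mem_ofPred_eq] at h
    have hn : nP p ≠ 0 := by
      have := h.2.1
      unfold nP
      positivity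
    simp only [pie, Fin.reduceFinMk, Matrix.cons_val, nP_sc, k2_sc ht]
    rw [log_sc ht 8 hn]
    push_cast
    ring
  · simp only [Reg, Fin.reduceFinMk, Matrix.cons_val, mem_ofPred_eq] at h
    have hn : nE p ≠ 0 := (nE_pos h.1 h.2.le).ne'
    simp only [pie, Fin.reduceFinMk, Matrix.cons_val, nE_sc]
    rw [log_sc ht 2 hn]
    push_cast
    ring

theorem Ph_sc {t : ℂ} (ht : t ≠ 0) {p : V4} (hp : p ∈ Mh) : sc t p ∈ Ph ↔ p ∈ Ph := by
  have hm := sc_mem ht hp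
  have htp : ‖t‖ ≠ 0 := norm_ne_zero_iff.2 ht
  have h2 : (sc t p).2 2 = t * p.2 2 := by unfold sc; simp
  unfold Ph
  have h4 : ‖t‖ ^ 4 ≠ 0 := pow_ne_zero 4 htp
  simp only [mem_ofPred_eq, hm, hp, nJp_sc, h2, mul_eq_zero, ht, h4, true_and, false_or]

theorem phi_Ph {p : V4} (hp : p ∈ Ph) : Phi d d0 K p = Real.log (nP p) / 4 := by
  unfold Phi
  exact if_pos ⟨hp.2.1, hp.2.2⟩

end PM

theorem phi_sc (hd : TubeGood d) (hK : KGood d d0 K) {t : ℂ} (ht : t ≠ 0) {p : V4} (hp : p ∈ Mh)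
    (hZ : p ∉ Zh) : Phi d d0 K (sc t p) = Phi d d0 K p + 2 * Real.log ‖t‖ := by
  by_cases hP : p ∈ Ph
  · rw [phi_Ph hP, phi_Ph ((Ph_sc ht hp).2 hP), nP_sc, log_sc ht 8]
    · push_cast
      ring
    · have := fP_Ph hP
      unfold nP
      positivity
  · have hP' : sc t p ∉ Ph := fun h => hP ((Ph_sc ht hp).1 h)
    have hZ' : sc t p ∉ Zh := fun h => hZ ((Zh_sc ht hp).1 h)
    obtain ⟨⟨i, hi, ei⟩, hle⟩ := phi_eq hd hK hp hZ hP
    obtain ⟨⟨j, hj, ej⟩, hle'⟩ := phi_eq hd hK (sc_mem ht hp) hZ' hP'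
    have hj' := (Reg_sc ht hp j).1 hj
    apply le_antisymm
    · rw [ej, pie_sc hd ht hj']
      linarith [hle j hj']
    · rw [ei, ← pie_sc hd ht hi]
      exact hle' i ((Reg_sc ht hp i).2 hi)

namespace PM

theorem mem_Reg0 {p : V4} : p ∈ Reg d d0 0 ↔ p ∈ Mh ∧ nJ p ≠ 0 := Iff.rfl

theorem mem_Reg1 {p : V4} : p ∈ Reg d d0 1 ↔ p ∈ Mh ∧ a2 p < d * nE p ∧
    ‖p.2 1‖ ^ 2 < Real.exp 6 * ‖p.2 0‖ ^ 2 ∧ ‖p.2 0‖ ^ 2 < Real.exp 6 * ‖p.2 1‖ ^ 2 ∧
    nB p / 32 < nJp p := Iff.rfl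

theorem mem_Reg2 {p : V4} : p ∈ Reg d d0 2 ↔ p ∈ Mh ∧ fP p ≠ 0 ∧
    nN p * nJ p < d0 * nP p ∧ nJp p < nB p := Iff.rfl

theorem mem_Reg3 {p : V4} : p ∈ Reg d d0 3 ↔ p ∈ Mh ∧ a2 p < d * nE p := Iff.rfl

theorem pie0 (p : V4) : pie K 0 p = Real.log (nN p * nJ p) / 4 + K := rfl

theorem pie1 (p : V4) : pie K 1 p = Real.log (nP p) / 4 - sg p / 12 + k1 p := rfl

theorem pie2 (p : V4) : pie K 2 p = Real.log (nP p) / 4 + k2 p := rfl

theorem pie3 (p : V4) : pie K 3 p = Real.log (nE p) - 9 / 10 := rfl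

end PM

/-- on the surface `S`, near `‖w‖ = 1` -/
theorem phi_S (hd : TubeGood d) (hK : KGood d d0 K) {z w : ℂ} (hz : z ≠ 0)
    (hw : w ≠ 0) (h : |Real.log (‖w‖ ^ 2)| ≤ 1 / 10) :
    Phi d d0 K (z, ![1, w, 0]) = Real.log (‖w‖ ^ 2) / 6 := by
  set p : V4 := (z, ![1, w, 0]) with hpdef
  have hp : p ∈ Mh := by
    refine ⟨hz, fun h => ?_⟩
    have := congrFun h 0
    simp [hpdef] at this
  have e0 : p.2 0 = 1 := by simp [hpdef]
  have e1 : p.2 1 = w := by simp [hpdef]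
  have e2 : p.2 2 = 0 := by simp [hpdef]
  have ha : a2 p = 0 := by unfold a2; rw [e2]; simp
  have hE : nE p = 1 + ‖w‖ ^ 2 := by unfold nE; rw [e0, e1]; simp
  have hJ : nJ p = 0 := by unfold nJ; rw [e2]; simp
  have hB : nB p = 0 := by unfold nB; rw [e2]; simp
  have hf : fP p = w := by unfold fP; rw [e0, e1, e2]; simp
  have hP : nP p = ‖w‖ ^ 2 := by unfold nP; rw [hf]
  have hs : sg p = Real.log (‖w‖ ^ 2) := by unfold sg; rw [e0, e1]; simp
  have hk : k1 p = 0 := by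
    unfold k1
    rw [hJ]
    simp only [mul_zero, zero_mul]
    exact Real.zero_rpow (by norm_num)
  have hwp : 0 < ‖w‖ := norm_pos_iff.2 hw
  have hZ : p ∉ Zh := fun h => h.2.2.2 e2
  obtain ⟨hl, hu⟩ := abs_le.1 h
  set s := Real.log (‖w‖ ^ 2) with hsd
  have hws : ‖w‖ ^ 2 = Real.exp s := by rw [hsd, Real.exp_log (by positivity)]
  by_cases hph : p ∈ Ph
  · have h1 := (norm_Ph hph).2
    rw [e0, e1, norm_one] at h1
    have h2 : s = 0 := by rw [hsd, h1]; simp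
    rw [phi_Ph hph, hP, ← hsd, h2]
    simp
  · have hjp : 0 < nJp p := by
      rcases (nJp_nonneg p).lt_or_eq with h | h
      · exact h
      · exact absurd ⟨hp, h.symm, e2⟩ hph
    obtain ⟨⟨i, hi, ei⟩, hle⟩ := phi_eq hd hK hp hZ hph
    have hd0 := hd.pos
    have hR1 : p ∈ Reg d d0 1 := by
      rw [mem_Reg1]
      refine ⟨hp, ?_, ?_, ?_, ?_⟩
      · rw [ha, hE]
        positivity
      · rw [e0, e1, hws, norm_one]
        have : Real.exp s < Real.exp 6 := Real.exp_lt_exp.2 (by linarith)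
        linarith
      · rw [e0, e1, hws, norm_one, ← Real.exp_add]
        have : Real.exp 0 < Real.exp (6 + s) := Real.exp_lt_exp.2 (by linarith)
        rw [Real.exp_zero] at this
        linarith
      · rw [hB]
        simpa using hjp
    have h1 := hle 1 hR1
    have hp1 : pie K 1 p = s / 6 := by
      rw [pie1, hP, hs, hk, ← hsd]
      ring
    rw [hp1] at h1
    have key : pie K 3 p < s / 6 := by
      rw [pie3, hE, hws]
      have h2 : 1 + Real.exp s ≤ 2 * Real.exp (1 / 10) := by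
        have a1 : Real.exp s ≤ Real.exp (1 / 10) := Real.exp_le_exp.2 hu
        have a2 : 1 ≤ Real.exp (1 / 10 : ℝ) := Real.one_le_exp (by norm_num)
        linarith
      have h3 : Real.log (1 + Real.exp s) ≤ Real.log 2 + 1 / 10 := by
        calc Real.log (1 + Real.exp s) ≤ Real.log (2 * Real.exp (1 / 10)) :=
              Real.log_le_log (by positivity) h2
          _ = Real.log 2 + 1 / 10 := by
              rw [Real.log_mul (by norm_num) (by positivity), Real.log_exp]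
      have h4 := Real.log_two_lt_d9
      linarith
    rw [ei] at h1
    rw [ei]
    fin_cases i
    · exact absurd hJ (mem_Reg0.1 hi).2
    · exact hp1
    · have := (mem_Reg2.1 hi).2.2.2
      rw [hB] at this
      exact absurd hjp this.not_gt
    · exact absurd h1 (not_le.2 key)

/-- outside the tube and with `J' < nB`: only the pieces `0` and `2` -/
theorem phi_out (hd : TubeGood d) (hK : KGood d d0 K) {p : V4} (hp : p ∈ Mh) (hZ : p ∉ Zh)
    (h : d * nE p < a2 p) (hB : nJp p < nB p) :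
    Phi d d0 K p = if fP p ≠ 0 ∧ nN p * nJ p < d0 * nP p then
      (if nN p * nJ p = 0 then Real.log (nP p) / 4 + k2 p
        else max (Real.log (nN p * nJ p) / 4 + K) (Real.log (nP p) / 4 + k2 p))
      else Real.log (nN p * nJ p) / 4 + K := by
  have h2 : p.2 2 ≠ 0 := by
    intro h2
    have h3 : a2 p = 0 := by unfold a2; rw [h2]; simp
    have h4 := nE_nonneg p
    have h5 := hd.pos
    have : 0 ≤ d * nE p := by positivity
    linarith
  have hph : p ∉ Ph := fun h => h2 h.2.2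
  obtain ⟨⟨i, hi, ei⟩, hle⟩ := phi_eq hd hK hp hZ hph
  have hR1 : p ∉ Reg d d0 1 := fun h1 => absurd h (mem_Reg1.1 h1).2.1.not_gt
  have hR3 : p ∉ Reg d d0 3 := fun h1 => absurd h (mem_Reg3.1 h1).2.not_gt
  have hN := nN_pos hp
  by_cases hc : fP p ≠ 0 ∧ nN p * nJ p < d0 * nP p
  · rw [if_pos hc]
    have hR2 : p ∈ Reg d d0 2 := mem_Reg2.2 ⟨hp, hc.1, hc.2, hB⟩
    have l2 := hle 2 hR2
    by_cases h0 : nN p * nJ p = 0
    · rw [if_pos h0]
      have hJ : nJ p = 0 := by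
        rcases mul_eq_zero.1 h0 with h | h
        · exact absurd h hN.ne'
        · exact h
      rw [ei]
      fin_cases i
      · exact absurd hJ (mem_Reg0.1 hi).2
      · exact absurd hi hR1
      · exact pie2 p
      · exact absurd hi hR3
    · rw [if_neg h0]
      have hJ : nJ p ≠ 0 := fun h => h0 (by rw [h, mul_zero])
      have l0 := hle 0 (mem_Reg0.2 ⟨hp, hJ⟩)
      rw [pie0] at l0
      rw [pie2] at l2
      apply le_antisymm
      · rw [ei]
        fin_cases i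
        · exact le_max_left _ _
        · exact absurd hi hR1
        · exact le_max_right _ _
        · exact absurd hi hR3
      · exact max_le l0 l2
  · rw [if_neg hc, ei]
    fin_cases i
    · exact pie0 p
    · exact absurd hi hR1
    · have h := mem_Reg2.1 hi
      exact absurd ⟨h.2.1, h.2.2.1⟩ hc
    · exact absurd hi hR3

/-- continuity at the points of `Ph` -/
theorem phi_cont_Ph (hd : TubeGood d) (hK : KGood d d0 K) {p : V4} (hp : p ∈ Ph) :
    ContinuousAt (Phi d d0 K) p := by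
  have hM := hp.1
  have hz := hM.1
  have hf := fP_Ph hp
  obtain ⟨h0, hn⟩ := norm_Ph hp
  have h1 : p.2 1 ≠ 0 := by
    rw [← norm_ne_zero_iff, hn]
    exact norm_ne_zero_iff.2 h0
  have h2 : p.2 2 = 0 := hp.2.2
  have hPpos : 0 < nP p := by unfold nP; positivity
  have ha : a2 p = 0 := by unfold a2; rw [h2]; simp
  have hJ : nJ p = 0 := by unfold nJ; rw [h2]; simp
  have hB : nB p = 0 := by unfold nB; rw [h2]; simp
  have hs : sg p = 0 := by unfold sg; rw [hn]; simp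
  have hk : k1 p = 0 := by
    unfold k1
    rw [hJ]
    simp only [mul_zero, zero_mul]
    exact Real.zero_rpow (by norm_num)
  have hk2 : k2 p = 0 := by
    unfold k2
    rw [hJ]
    simp only [mul_zero, zero_mul]
    exact Real.zero_rpow (by norm_num)
  have hd0 := hd.pos
  have hEpos : 0 < nE p := by unfold nE; positivity
  have hnp : 0 < ‖p.2 0‖ := norm_pos_iff.2 h0
  have t2 := (hd.t2 p hM (by rw [ha]; positivity) (by rw [hp.2.1, hB])).2.2.2.2.2.2
  have hval : Phi d d0 K p = Real.log (nP p) / 4 := phi_Ph hp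
  -- continuity of the ingredients
  have cP : ContinuousAt nP p := (nP_smooth hz).continuousAt
  have cJ : ContinuousAt nJ p := (nJ_smooth hz).continuousAt
  have cN : ContinuousAt nN p := (nN_smooth hz).continuousAt
  have cE : ContinuousAt nE p := (nE_smooth p).continuousAt
  have ca : ContinuousAt a2 p := (a2_smooth hz).continuousAt
  have cl : ContinuousAt (fun y => Real.log (nP y) / 4) p := (cP.log hPpos.ne').div_const 4
  have c0 : ContinuousAt (fun y : V4 => ‖y.2 0‖ ^ 2) p := by fun_prop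
  have c1 : ContinuousAt (fun y : V4 => ‖y.2 1‖ ^ 2) p := by fun_prop
  have cp1 : ContinuousAt (fun y => Real.log (nP y) / 4 - sg y / 12 + k1 y) p :=
    (cl.sub ((sg_cont h0 h1).div_const 12)).add (k1_cont hz hf)
  have cp2 : ContinuousAt (fun y => Real.log (nP y) / 4 + k2 y) p := cl.add (k2_cont hz hf)
  have cp3 : ContinuousAt (fun y => Real.log (nE y) - 9 / 10) p :=
    (cE.log hEpos.ne').sub continuousAt_const
  rw [ContinuousAt, hval, Metric.tendsto_nhds]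
  intro ε hε
  set L := Real.log (nP p) / 4 with hL
  have ev1 : ∀ᶠ y in 𝓝 p, |Real.log (nP y) / 4 - sg y / 12 + k1 y - L| < ε := by
    have := Metric.tendsto_nhds.1 cp1.tendsto ε hε
    filter_upwards [this] with y hy
    rw [Real.dist_eq, hs, hk] at hy
    simpa using hy
  have ev2 : ∀ᶠ y in 𝓝 p, |Real.log (nP y) / 4 + k2 y - L| < ε := by
    have := Metric.tendsto_nhds.1 cp2.tendsto ε hε
    filter_upwards [this] with y hy
    rw [Real.dist_eq, hk2] at hy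
    simpa using hy
  have ev3 : ∀ᶠ y in 𝓝 p, Real.log (nE y) - 9 / 10 < L :=
    cp3.tendsto.eventually_lt_const (show Real.log (nE p) - 9 / 10 < L by linarith)
  have ev4 : ∀ᶠ y in 𝓝 p, |Real.log (nP y) / 4 - L| < ε := by
    have := Metric.tendsto_nhds.1 cl.tendsto ε hε
    filter_upwards [this] with y hy
    rwa [Real.dist_eq] at hy
  have ev0 : ∀ᶠ y in 𝓝 p, nN y * nJ y < Real.exp (4 * (L - K)) := by
    refine (cN.mul cJ).tendsto.eventually_lt_const ?_
    rw [Pi.mul_apply, hJ, mul_zero]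
    positivity
  have ev0' : ∀ᶠ y in 𝓝 p, nN y * nJ y < d0 * nP y := by
    refine (cN.mul cJ).eventually_lt (continuousAt_const.mul cP) ?_
    rw [Pi.mul_apply, hJ, mul_zero]
    have := hK.pos
    positivity
  have eM : ∀ᶠ y in 𝓝 p, y ∈ Mh := isOpen_Mh.mem_nhds hM
  have ef : ∀ᶠ y in 𝓝 p, fP y ≠ 0 := (fP_analytic hz).continuousAt.eventually_ne hf
  have et : ∀ᶠ y in 𝓝 p, a2 y < d * nE y := by
    refine ca.eventually_lt (continuousAt_const.mul cE) ?_
    rw [ha]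
    positivity
  have he6 : (1 : ℝ) < Real.exp 6 := Real.one_lt_exp_iff.2 (by norm_num)
  have hnsq : 0 < ‖p.2 0‖ ^ 2 := by positivity
  have eb1 : ∀ᶠ y in 𝓝 p, ‖y.2 1‖ ^ 2 < Real.exp 6 * ‖y.2 0‖ ^ 2 := by
    refine c1.eventually_lt (continuousAt_const.mul c0) ?_
    rw [hn]
    nlinarith
  have eb2 : ∀ᶠ y in 𝓝 p, ‖y.2 0‖ ^ 2 < Real.exp 6 * ‖y.2 1‖ ^ 2 := by
    refine c0.eventually_lt (continuousAt_const.mul c1) ?_
    rw [hn]
    nlinarith
  filter_upwards [ev1, ev2, ev3, ev4, ev0, ev0', eM, ef, et, eb1, eb2] with y y1 y2 y3 y4 y0 y0' yM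
    yf yt yb1 yb2
  rw [Real.dist_eq]
  by_cases hy : y ∈ Ph
  · rw [phi_Ph hy]
    exact y4
  · have hZ : y ∉ Zh := fun h => yf h.2.1
    obtain ⟨⟨i, hi, ei⟩, hle⟩ := phi_eq hd hK yM hZ hy
    rw [abs_lt] at y1 y2 ⊢
    constructor
    · -- lower bound
      by_cases hc : nB y / 32 < nJp y
      · have := hle 1 (mem_Reg1.2 ⟨yM, yt, yb1, yb2, hc⟩)
        rw [pie1] at this
        linarith [y1.1]
      · have hlt : nJp y < nB y := by
          have hb := nB_nonneg y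
          rcases hb.lt_or_eq with hb | hb
          · linarith
          · exfalso
            rw [← hb] at hc
            have hj : nJp y = 0 := le_antisymm (by simpa using hc) (nJp_nonneg y)
            refine hy ⟨yM, hj, ?_⟩
            unfold nB at hb
            have h3 := (nN_pos yM).ne'
            have h4 : Real.exp (4 * qq y.1) ≠ 0 := (Real.exp_pos _).ne'
            have h5 : ‖y.2 2‖ ^ 2 = 0 := by
              rcases mul_eq_zero.1 hb.symm with h | h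
              · rcases mul_eq_zero.1 h with h | h
                · exact h
                · exact absurd h h4
              · exact absurd h h3
            exact norm_eq_zero.1 (pow_eq_zero_iff (two_ne_zero) |>.1 h5)
        have := hle 2 (mem_Reg2.2 ⟨yM, yf, y0', hlt⟩)
        rw [pie2] at this
        linarith [y2.1]
    · rw [ei]
      fin_cases i
      · have h3 := mem_Reg0.1 hi
        have hpos : 0 < nN y * nJ y := by
          have h4 : 0 ≤ nJ y := by unfold nJ; have := nJp_nonneg y; positivity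
          exact mul_pos (nN_pos yM) (lt_of_le_of_ne h4 h3.2.symm)
        have h5 : Real.log (nN y * nJ y) < 4 * (L - K) := (Real.log_lt_iff_lt_exp hpos).2 y0
        have := pie0 (K := K) y
        change pie K 0 y - L < ε
        rw [this]
        linarith
      · change pie K 1 y - L < ε
        rw [pie1]
        linarith [y1.2]
      · change pie K 2 y - L < ε
        rw [pie2]
        linarith [y2.2]
      · change pie K 3 y - L < ε
        rw [pie3]
        linarith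

namespace PM

/-- the orbit parametrized by the scaling factor, minus the disc -/
theorem orb_diff (n : ℤ) {γ : ℂ → V4} {c : ℂ} {R : ℝ} (hγ : AnalyticOnNhd ℂ γ (closedBall c R)) :
    ContDiffOn ℝ 1 (fun q : ℂ × ℂ => (((tau ^ n, ![q.1, q.1 * eta ^ n, 0]) : V4) - γ q.2))
      (univ ×ˢ closedBall c R) := by
  intro q hq
  have h1 : ContDiffAt ℝ ∞ (fun q : ℂ × ℂ => ((tau ^ n, ![q.1, q.1 * eta ^ n, 0]) : V4)) q := by
    refine contDiffAt_const.prodMk ?_
    rw [contDiffAt_pi]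
    intro i
    fin_cases i
    · exact contDiffAt_fst
    · exact contDiffAt_fst.mul contDiffAt_const
    · exact contDiffAt_const
  have h2 : ContDiffAt ℝ ∞ (fun q : ℂ × ℂ => γ q.2) q := by
    have h3 : AnalyticAt ℂ (fun q : ℂ × ℂ => γ q.2) q :=
      (hγ q.2 hq.2).comp analyticAt_snd
    exact contDiffAt_of_analyticAt h3
  exact ((h1.sub h2).of_le (by exact_mod_cast le_top)).contDiffWithinAt

end PM

/-- analytic discs can be moved off `Ph` -/
theorem move_Ph (γ : ℂ → V4) (c : ℂ) (R : ℝ) (hR : 0 < R) (hγ : AnalyticOnNhd ℂ γ (closedBall c R))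
    (hm : MapsTo γ (closedBall c R) (Mh \ Zh)) {ε : ℝ} (hε : 0 < ε) :
    ∃ v : V4, ‖v‖ < ε ∧ ∀ ζ ∈ closedBall c R, γ ζ + v ∉ Ph := by
  set B : Set V4 := ⋃ n : ℤ,
    (fun q : ℂ × ℂ => (((tau ^ n, ![q.1, q.1 * eta ^ n, 0]) : V4) - γ q.2)) ''
      (univ ×ˢ closedBall c R) with hB
  have hdim : dimH B < Module.finrank ℝ V4 := by
    have h8 : Module.finrank ℝ V4 = 8 := by
      rw [Module.finrank_prod, Module.finrank_pi_fintype]
      simp [Complex.finrank_real_complex]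
    have h4 : Module.finrank ℝ (ℂ × ℂ) = 4 := by
      rw [Module.finrank_prod]
      simp [Complex.finrank_real_complex]
    have hle : dimH B ≤ 4 := by
      rw [hB, dimH_iUnion]
      refine iSup_le fun n => ?_
      refine (ContDiffOn.dimH_image_le (orb_diff n hγ)
        (convex_univ.prod (convex_closedBall c R)) subset_rfl).trans ?_
      refine (dimH_mono (subset_univ _)).trans ?_
      rw [Real.dimH_univ_eq_finrank, h4]
      norm_num
    refine hle.trans_lt ?_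
    rw [h8]
    norm_num
  have hdense : Dense Bᶜ := dense_compl_of_dimH_lt_finrank hdim
  obtain ⟨v, hv, hvB⟩ := hdense.exists_mem_open isOpen_ball (nonempty_ball.2 hε : (ball (0 : V4) ε).Nonempty)
  refine ⟨v, by simpa using hvB, fun ζ hζ hP => hv ?_⟩
  obtain ⟨n, t, ht, h⟩ := Ph_orb hP
  refine mem_iUnion.2 ⟨n, ⟨(t, ζ), ⟨mem_univ _, hζ⟩, ?_⟩⟩
  simp only
  rw [← h]
  abel

theorem phi_psh (hd : TubeGood d) (hK : KGood d d0 K) : PshE (Phi d d0 K) (Mh \ Zh) := by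
  have hcl : IsClosed (Mhᶜ ∪ Ph) := by
    have : (Mhᶜ ∪ Ph)ᶜ = {p | p ∈ Mh ∧ (nJp p ≠ 0 ∨ p.2 2 ≠ 0)} := by
      ext p
      simp only [mem_compl_iff, mem_union, not_or, not_not, Ph, mem_ofPred_eq, ne_eq]
      tauto
    rw [← isOpen_compl_iff, this, isOpen_iff_mem_nhds]
    rintro p ⟨hp, h⟩
    have h0 := isOpen_Mh.mem_nhds hp
    rcases h with h | h
    · filter_upwards [h0, (nJp_smooth hp.1).continuousAt.eventually_ne h] with y hy h1
      exact ⟨hy, Or.inl h1⟩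
    · have hc : ContinuousAt (fun y : V4 => y.2 2) p := by fun_prop
      filter_upwards [h0, hc.eventually_ne h] with y hy h1
      exact ⟨hy, Or.inr h1⟩
  have hset : (Mh \ Zh) \ (Mhᶜ ∪ Ph) = Mh \ (Zh ∪ Ph) := by
    ext p
    simp only [mem_sdiff, mem_union, mem_compl_iff]
    tauto
  have hop : IsOpen (Mh \ (Zh ∪ Ph)) := by
    rw [← hset]
    exact isOpen_MZ.sdiff hcl
  have hps := phi_psh' (d := d) (d0 := d0) (K := K) hd hK
  have hc : ContinuousOn (Phi d d0 K) (Mh \ Zh) := by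
    intro p hp
    by_cases hP : p ∈ Ph
    · exact (phi_cont_Ph hd hK hP).continuousWithinAt
    · have : p ∈ Mh \ (Zh ∪ Ph) := ⟨hp.1, fun h => h.elim hp.2 hP⟩
      exact (hps.1.continuousAt (hop.mem_nhds this)).continuousWithinAt
  refine PshE.removable isOpen_MZ hc hcl (by rw [hset]; exact hps) ?_
  intro γ c R hR hγ hm ε hε
  obtain ⟨δ, hδ, hδ'⟩ := near_compact isOpen_MZ hc
    ((isCompact_closedBall c R).image_of_continuousOn hγ.continuousOn) hm.image_subset one_pos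
  obtain ⟨v, hv, hv'⟩ := move_Ph γ c R hR hγ hm (lt_min hε hδ)
  refine ⟨v, hv.trans_le (min_le_left _ _), fun ζ hζ h => ?_⟩
  rcases h with h | h
  · exact h (hδ' (γ ζ) (mem_image_of_mem _ hζ) v (hv.trans_le (min_le_right _ _))).1.1
  · exact hv' ζ hζ h

end RG
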