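import Pool.Agent.H14.RG.PsiM
import Pool.Agent.H14.RG.PhiM
import Pool.Agent.H14.RG.LocA

/-!
# Module L2: the functions near the blown-up points
-/

open scoped Topology ContDiff
open Set Metric

namespace RG

variable {m : ℝ → ℝ} {d A d0 K r0 : ℝ} {t : ℂ} {M : Fin 3 → E3 → E3}

/-- the domain of the sharp functions -/
def Sd (r0 : ℝ) : Set (E3 × E3) := {q | q.1 ∈ ball (0 : E3) r0 ∧ q.2 ≠ 0}

theorem isOpen_Sd : IsOpen (Sd r0) :=
  (isOpen_ball.preimage continuous_fst).inter (isOpen_ne.preimage continuous_snd)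

theorem aff_mem (hr : r0 < 1 / 8) {y : E3} (hy : y ∈ ball (0 : E3) r0) : aff t y ∈ Mh := by
  have h0 : ‖y 0‖ < 1 / 8 := by
    rw [mem_ball_zero_iff] at hy
    exact (norm_le_pi_norm y 0).trans_lt (hy.trans hr)
  constructor
  · intro h
    have h1 : y 0 = -1 := by
      have : (1 : ℂ) + y 0 = 0 := h
      linear_combination this
    rw [h1, norm_neg, norm_one] at h0
    norm_num at h0
  · intro h
    have := congrFun h 0
    simp [aff, sec] at this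

theorem shf_analytic (hS : Sharp d r0 t M) (i : Fin 3) :
    AnalyticOnNhd ℂ (fun q : E3 × E3 => shf M i q.1 q.2) (Sd r0) := by
  intro q hq
  unfold shf
  refine Finset.analyticAt_fun_sum _ fun k _ => ?_
  have h1 : AnalyticAt ℂ (fun q : E3 × E3 => M i q.1 k) q :=
    AnalyticAt.comp (g := fun y => M i y k) (f := fun q : E3 × E3 => q.1) (x := q)
      (hS.an i k _ hq.1) analyticAt_fst
  have h2 : AnalyticAt ℂ (fun q : E3 × E3 => q.2 k) q :=
    AnalyticAt.comp (g := fun y : E3 => y k) (f := fun q : E3 × E3 => q.2) (x := q)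
      (coord3_analytic k _) analyticAt_snd
  exact h1.mul h2

theorem shf_smul (i : Fin 3) (y r : E3) (s : ℂ) : shf M i y (s • r) = s * shf M i y r := by
  unfold shf
  rw [Finset.mul_sum]
  refine Finset.sum_congr rfl fun k _ => ?_
  rw [Pi.smul_apply, smul_eq_mul]
  ring

/-! ### Auxiliary facts -/

theorem aff_x0 (t : ℂ) (y : E3) : (aff t y).2 0 = 1 := by
  simp [aff, sec]

theorem nE_aff_ge (t : ℂ) (y : E3) : 1 ≤ nE (aff t y) := by
  unfold nE
  rw [aff_x0, norm_one]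
  nlinarith [sq_nonneg ‖(aff t y).2 1‖]

theorem a2_aff_pos (hS : Sharp d r0 t M) (hd : 0 < d) {y : E3} (hy : y ∈ ball (0 : E3) r0) :
    0 < a2 (aff t y) := by
  have h1 := hS.tube y hy
  have h2 := nE_aff_ge t y
  have h3 : 0 < d * nE (aff t y) := by positivity
  linarith

theorem x2_aff_ne (hS : Sharp d r0 t M) (hd : 0 < d) {y : E3} (hy : y ∈ ball (0 : E3) r0) :
    (aff t y).2 2 ≠ 0 := by
  intro h
  have h1 := a2_aff_pos hS hd hy
  unfold a2 at h1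
  rw [h, norm_zero] at h1
  norm_num at h1

theorem shJ_nonneg (y r : E3) : 0 ≤ shJ t M y r := by
  unfold shJ
  positivity

theorem nN_aff_pos (hr : r0 < 1 / 8) {y : E3} (hy : y ∈ ball (0 : E3) r0) :
    0 < nN (aff t y) := nN_pos (aff_mem hr hy)

theorem shNJ_nonneg (hr : r0 < 1 / 8) {y : E3} (hy : y ∈ ball (0 : E3) r0) (r : E3) :
    0 ≤ shNJ t M y r := by
  unfold shNJ
  have h1 := nN_aff_pos (t := t) hr hy
  have h2 := shJ_nonneg (t := t) (M := M) y r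
  positivity

/-- `shNJ = 0` only if two of the linear functions vanish -/
theorem shNJ_zero (hr : r0 < 1 / 8) (hS : Sharp d r0 t M) (hd : 0 < d) {y : E3}
    (hy : y ∈ ball (0 : E3) r0) {r : E3} (h : shNJ t M y r = 0) :
    shf M 1 y r = 0 ∧ shf M 2 y r = 0 := by
  unfold shNJ shJ at h
  have h1 := nN_aff_pos (t := t) hr hy
  have h2 := x2_aff_ne hS hd hy
  have h3 : 0 < ‖(aff t y).2 2‖ ^ 2 := by positivity
  have h4 : ‖shf M 1 y r‖ ^ 2 * nN (aff t y) ^ 2 + ‖shf M 2 y r‖ ^ 2 = 0 := by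
    rcases mul_eq_zero.1 h with h | h
    · exact absurd h h1.ne'
    · rcases mul_eq_zero.1 h with h | h
      · exact absurd h h3.ne'
      · exact h
  have h5 : 0 ≤ ‖shf M 1 y r‖ ^ 2 * nN (aff t y) ^ 2 := by positivity
  have h6 : 0 ≤ ‖shf M 2 y r‖ ^ 2 := by positivity
  have h7 : ‖shf M 1 y r‖ ^ 2 * nN (aff t y) ^ 2 = 0 := by linarith
  have h8 : ‖shf M 2 y r‖ ^ 2 = 0 := by linarith
  have h9 : ‖shf M 1 y r‖ ^ 2 = 0 := by
    rcases mul_eq_zero.1 h7 with h | h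
    · exact h
    · exact absurd h (by positivity)
  exact ⟨norm_eq_zero.1 (pow_eq_zero_iff (two_ne_zero) |>.1 h9),
    norm_eq_zero.1 (pow_eq_zero_iff (two_ne_zero) |>.1 h8)⟩

theorem shNJ_pos_of (hr : r0 < 1 / 8) (hS : Sharp d r0 t M) (hd : 0 < d) {y : E3}
    (hy : y ∈ ball (0 : E3) r0) {r : E3} (hr0 : r ≠ 0) (h : shf M 0 y r = 0) :
    0 < shNJ t M y r := by
  refine lt_of_le_of_ne (shNJ_nonneg hr hy r) fun h1 => ?_
  obtain ⟨h2, h3⟩ := shNJ_zero hr hS hd hy h1.symm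
  obtain ⟨i, hi⟩ := hS.inv y hy r hr0
  fin_cases i
  · exact hi h
  · exact hi h2
  · exact hi h3

theorem sh_pos (hr : r0 < 1 / 8) (hS : Sharp d r0 t M) (hd : 0 < d) {y : E3}
    (hy : y ∈ ball (0 : E3) r0) {r : E3} (hr0 : r ≠ 0) :
    0 < ‖shf M 0 y r‖ ^ 2 + shNJ t M y r := by
  have h1 := shNJ_nonneg (t := t) (M := M) hr hy r
  by_cases h : shf M 0 y r = 0
  · have := shNJ_pos_of hr hS hd hy hr0 h
    positivity
  · have : 0 < ‖shf M 0 y r‖ ^ 2 := by positivity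
    linarith

theorem affq_analytic (t : ℂ) (q : E3 × E3) : AnalyticAt ℂ (fun q : E3 × E3 => aff t q.1) q :=
  AnalyticAt.comp (g := aff t) (f := fun q : E3 × E3 => q.1) (x := q) (aff_analytic t _)
    analyticAt_fst

theorem shf_sq_smooth (hS : Sharp d r0 t M) (i : Fin 3) {q : E3 × E3} (hq : q ∈ Sd r0) :
    ContDiffAt ℝ ∞ (fun q : E3 × E3 => ‖shf M i q.1 q.2‖ ^ 2) q :=
  norm_sq_smooth (shf_analytic hS i q hq)

theorem nN_aff_smooth (hr : r0 < 1 / 8) {q : E3 × E3} (hq : q ∈ Sd r0) :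
    ContDiffAt ℝ ∞ (fun q : E3 × E3 => nN (aff t q.1)) q :=
  ContDiffAt.comp (g := nN) (f := fun q : E3 × E3 => aff t q.1) q
    (nN_smooth (aff_mem hr hq.1).1) (contDiffAt_of_analyticAt (affq_analytic t q))

theorem x2_aff_smooth (q : E3 × E3) :
    ContDiffAt ℝ ∞ (fun q : E3 × E3 => ‖(aff t q.1).2 2‖ ^ 2) q := by
  refine norm_sq_smooth (f := fun q : E3 × E3 => (aff t q.1).2 2) ?_
  exact AnalyticAt.comp (g := fun p : V4 => p.2 2) (f := fun q : E3 × E3 => aff t q.1) (x := q)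
    (coord_analytic 2 _) (affq_analytic t q)

theorem shJ_smooth (hr : r0 < 1 / 8) (hS : Sharp d r0 t M) {q : E3 × E3} (hq : q ∈ Sd r0) :
    ContDiffAt ℝ ∞ (fun q : E3 × E3 => shJ t M q.1 q.2) q :=
  ((shf_sq_smooth hS 1 hq).mul ((nN_aff_smooth hr hq).pow 2)).add (shf_sq_smooth hS 2 hq)

theorem shNJ_smooth (hr : r0 < 1 / 8) (hS : Sharp d r0 t M) {q : E3 × E3} (hq : q ∈ Sd r0) :
    ContDiffAt ℝ ∞ (fun q : E3 × E3 => shNJ t M q.1 q.2) q :=
  (nN_aff_smooth hr hq).mul ((x2_aff_smooth q).mul (shJ_smooth hr hS hq))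

theorem shf_lpsh (hS : Sharp d r0 t M) (i : Fin 3) :
    LPsh (fun q : E3 × E3 => ‖shf M i q.1 q.2‖ ^ 2) (Sd r0) :=
  LPsh.norm_sq isOpen_Sd (shf_analytic hS i)

theorem aff_lpsh (hr : r0 < 1 / 8) {F : V4 → ℝ} (hF : LPsh F O4) :
    LPsh (fun q : E3 × E3 => F (aff t q.1)) (Sd r0) :=
  hF.comp_analytic (g := fun q : E3 × E3 => aff t q.1) (fun q _ => affq_analytic t q)
    fun _ hq => (aff_mem hr hq.1).1

theorem shJ_lpsh (hr : r0 < 1 / 8) (hS : Sharp d r0 t M) :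
    LPsh (fun q : E3 × E3 => shJ t M q.1 q.2) (Sd r0) :=
  ((shf_lpsh hS 1).mul ((aff_lpsh hr nN_lpsh).pow 2)).add (shf_lpsh hS 2)

theorem shXJ_lpsh (hr : r0 < 1 / 8) (hS : Sharp d r0 t M) :
    LPsh (fun q : E3 × E3 => ‖(aff t q.1).2 2‖ ^ 2 * shJ t M q.1 q.2) (Sd r0) :=
  (aff_lpsh hr (coord_lpsh 2)).mul (shJ_lpsh hr hS)

theorem shNJ_lpsh (hr : r0 < 1 / 8) (hS : Sharp d r0 t M) :
    LPsh (fun q : E3 × E3 => shNJ t M q.1 q.2) (Sd r0) :=
  (aff_lpsh hr nN_lpsh).mul (shXJ_lpsh hr hS)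

theorem psis_smooth (hr : r0 < 1 / 8) (hS : Sharp d r0 t M) (hd : 0 < d) {q : E3 × E3}
    (hq : q ∈ Sd r0) : ContDiffAt ℝ ∞ (fun q : E3 × E3 => Psis t M q.1 q.2) q :=
  (((shf_sq_smooth hS 0 hq).add (shNJ_smooth hr hS hq)).log
    (sh_pos hr hS hd hq.1 hq.2).ne').div_const 4

theorem psis_psh (hr : r0 < 1 / 8) (hS : Sharp d r0 t M) (hd : 0 < d) :
    PshE (fun q : E3 × E3 => Psis t M q.1 q.2) (Sd r0) := by
  refine ((((shf_lpsh hS 0).add (shNJ_lpsh hr hS)).log fun q hq =>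
    sh_pos hr hS hd hq.1 hq.2).mul_const (a := 1 / 4) (by norm_num)).congr fun q _ => ?_
  change Real.log (‖shf M 0 q.1 q.2‖ ^ 2 + shNJ t M q.1 q.2) / 4
    = 1 / 4 * Real.log (‖shf M 0 q.1 q.2‖ ^ 2 + shNJ t M q.1 q.2)
  ring

theorem shf_sq_sc (i : Fin 3) (y r : E3) (s : ℂ) :
    ‖shf M i y (s • r)‖ ^ 2 = ‖s‖ ^ 2 * ‖shf M i y r‖ ^ 2 := by
  rw [shf_smul, norm_mul, mul_pow]

theorem shJ_sc (y r : E3) (s : ℂ) : shJ t M y (s • r) = ‖s‖ ^ 2 * shJ t M y r := by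
  unfold shJ
  rw [shf_sq_sc, shf_sq_sc]
  ring

theorem shNJ_sc (y r : E3) (s : ℂ) : shNJ t M y (s • r) = ‖s‖ ^ 2 * shNJ t M y r := by
  unfold shNJ
  rw [shJ_sc]
  ring

theorem log_sc {s : ℂ} (hs : s ≠ 0) {a : ℝ} (ha : a ≠ 0) :
    Real.log (‖s‖ ^ 2 * a) / 4 = Real.log a / 4 + 1 / 2 * Real.log ‖s‖ := by
  rw [Real.log_mul (by positivity) ha, Real.log_pow]
  push_cast
  ring

theorem psis_sc (hr : r0 < 1 / 8) (hS : Sharp d r0 t M) (hd : 0 < d) {y r : E3} {s : ℂ}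
    (hy : y ∈ ball (0 : E3) r0) (hr0 : r ≠ 0) (hs : s ≠ 0) :
    Psis t M y (s • r) = Psis t M y r + 1 / 2 * Real.log ‖s‖ := by
  unfold Psis
  rw [shf_sq_sc, shNJ_sc, ← mul_add, log_sc hs (sh_pos hr hS hd hy hr0).ne']

theorem nP_aff (hS : Sharp d r0 t M) {y : E3} (hy : y ∈ ball (0 : E3) r0) :
    nP (aff t y) = ‖shf M 0 y y‖ ^ 2 := by
  unfold nP shf
  rw [hS.eqP y hy]

theorem nJp_aff (hS : Sharp d r0 t M) {y : E3} (hy : y ∈ ball (0 : E3) r0) :
    nJp (aff t y) = shJ t M y y := by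
  unfold nJp shJ shf
  rw [hS.eqT y hy, hS.eqQ y hy]

theorem nJ_aff (hS : Sharp d r0 t M) {y : E3} (hy : y ∈ ball (0 : E3) r0) :
    nJ (aff t y) = ‖(aff t y).2 2‖ ^ 2 * shJ t M y y := by
  unfold nJ
  rw [nJp_aff hS hy]

theorem nNJ_aff (hS : Sharp d r0 t M) {y : E3} (hy : y ∈ ball (0 : E3) r0) :
    nN (aff t y) * nJ (aff t y) = shNJ t M y y := by
  unfold shNJ
  rw [nJ_aff hS hy]

theorem psis_link (hm : MReg m) (hd : TubeGood d) (hA : AGood d A) (hr : r0 < 1 / 8)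
    (hS : Sharp d r0 t M) {y r : E3} {s : ℂ} (hy : y ∈ ball (0 : E3) r0) (hr0 : r ≠ 0)
    (hs : s ≠ 0) (h : y = s • r) :
    Psi m d A (aff t y) = Psis t M y r + 1 / 2 * Real.log ‖s‖ := by
  have h1 : d / 2 * nE (aff t y) ≤ a2 (aff t y) := by
    have h2 := hS.tube y hy
    have h3 := nE_aff_ge t y
    have h4 := hd.pos
    nlinarith
  rw [psi_out hm hd hA (aff_mem hr hy) h1, nP_aff hS hy, nNJ_aff hS hy,
    ← psis_sc hr hS hd.pos hy hr0 hs, ← h]
  rfl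

theorem k2s_sc (y r : E3) {s : ℂ} (hs : s ≠ 0) : k2s t M y (s • r) = k2s t M y r := by
  unfold k2s
  rw [shJ_sc, shf_sq_sc]
  congr 1
  have h1 : ‖s‖ ^ 2 * (‖s‖ ^ 2)⁻¹ = 1 := mul_inv_cancel₀ (by positivity)
  rw [mul_inv]
  linear_combination (a2 (aff t y) * ‖(aff t y).2 2‖ ^ 2 * shJ t M y r
    * (‖shf M 0 y r‖ ^ 2)⁻¹) * h1

theorem shNJ_ne (hr : r0 < 1 / 8) (hS : Sharp d r0 t M) (hd : 0 < d) (hd0 : 0 < d0) {y : E3}
    (hy : y ∈ ball (0 : E3) r0) {r : E3} (hr0 : r ≠ 0)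
    (h : ¬ (shf M 0 y r ≠ 0 ∧ shNJ t M y r < d0 * ‖shf M 0 y r‖ ^ 2)) :
    shNJ t M y r ≠ 0 := by
  intro h2
  by_cases h3 : shf M 0 y r = 0
  · exact (shNJ_pos_of hr hS hd hy hr0 h3).ne' h2
  · exact h ⟨h3, by rw [h2]; positivity⟩

theorem phis_sc (hd : TubeGood d) (hK : KGood d d0 K) (hr : r0 < 1 / 8) (hS : Sharp d r0 t M)
    {y r : E3} {s : ℂ} (hy : y ∈ ball (0 : E3) r0) (hr0 : r ≠ 0) (hs : s ≠ 0) :
    Phis d0 K t M y (s • r) = Phis d0 K t M y r + 1 / 2 * Real.log ‖s‖ := by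
  have hS2 : 0 < ‖s‖ ^ 2 := by positivity
  have c1 : (shf M 0 y (s • r) ≠ 0 ∧ shNJ t M y (s • r) < d0 * ‖shf M 0 y (s • r)‖ ^ 2) ↔
      (shf M 0 y r ≠ 0 ∧ shNJ t M y r < d0 * ‖shf M 0 y r‖ ^ 2) := by
    rw [shf_sq_sc, shNJ_sc, shf_smul]
    refine and_congr ⟨fun h h' => h (by rw [h', mul_zero]), fun h => mul_ne_zero hs h⟩ ?_
    rw [show d0 * (‖s‖ ^ 2 * ‖shf M 0 y r‖ ^ 2) = ‖s‖ ^ 2 * (d0 * ‖shf M 0 y r‖ ^ 2) by ring]
    exact mul_lt_mul_iff_right₀ hS2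
  have c2 : shNJ t M y (s • r) = 0 ↔ shNJ t M y r = 0 := by
    rw [shNJ_sc]
    simp [hs]
  unfold Phis
  by_cases h : shf M 0 y r ≠ 0 ∧ shNJ t M y r < d0 * ‖shf M 0 y r‖ ^ 2
  · rw [if_pos (c1.2 h), if_pos h]
    have hP : ‖shf M 0 y r‖ ^ 2 ≠ 0 := pow_ne_zero 2 (norm_ne_zero_iff.2 h.1)
    by_cases h2 : shNJ t M y r = 0
    · rw [if_pos (c2.2 h2), if_pos h2, k2s_sc y r hs, shf_sq_sc, log_sc hs hP]
      ring
    · rw [if_neg (fun h3 => h2 (c2.1 h3)), if_neg h2, k2s_sc y r hs, shf_sq_sc, shNJ_sc,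
        log_sc hs hP, log_sc hs h2, ← max_add_add_right]
      congr 1 <;> ring
  · rw [if_neg (fun h3 => h (c1.1 h3)), if_neg h]
    rw [shNJ_sc, log_sc hs (shNJ_ne hr hS hd.pos hK.pos hy hr0 h)]
    ring

theorem fP_aff (hS : Sharp d r0 t M) {y : E3} (hy : y ∈ ball (0 : E3) r0) :
    fP (aff t y) = shf M 0 y y := (hS.eqP y hy).symm

theorem aff_notMem_Zh (hr : r0 < 1 / 8) (hS : Sharp d r0 t M) (hd : 0 < d) {y : E3}
    (hy : y ∈ ball (0 : E3) r0) (hy0 : y ≠ 0) : aff t y ∉ Zh := by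
  rintro ⟨_, h1, h2, _⟩
  rw [fP_aff hS hy] at h1
  have h3 := shNJ_pos_of hr hS hd hy hy0 h1
  rw [← nNJ_aff hS hy] at h3
  unfold nJ at h3
  rw [h2, mul_zero, mul_zero] at h3
  exact lt_irrefl _ h3

theorem phis_link (hd : TubeGood d) (hK : KGood d d0 K) (hr : r0 < 1 / 8)
    (hS : Sharp d r0 t M) {y r : E3} {s : ℂ} (hy : y ∈ ball (0 : E3) r0) (hr0 : r ≠ 0)
    (hs : s ≠ 0) (h : y = s • r) :
    Phi d d0 K (aff t y) = Phis d0 K t M y r + 1 / 2 * Real.log ‖s‖ := by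
  have hy0 : y ≠ 0 := by
    rw [h]
    exact smul_ne_zero hs hr0
  have hk : k2 (aff t y) = k2s t M y y := by
    unfold k2 k2s
    rw [nJ_aff hS hy, nP_aff hS hy]
  rw [phi_out hd hK (aff_mem hr hy) (aff_notMem_Zh hr hS hd.pos hy hy0) (hS.tube y hy)
    (hS.lt y hy), ← phis_sc hd hK hr hS hy hr0 hs, ← h, nNJ_aff hS hy, nP_aff hS hy,
    fP_aff hS hy, hk]
  rfl

theorem exists_dir (hS : Sharp d r0 t M) (h0 : 0 < r0) (v : Fin 3 → ℂ) :
    ∃ r : E3, ∀ i, shf M i 0 r = v i := by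
  have h00 : (0 : E3) ∈ ball (0 : E3) r0 := mem_ball_self h0
  let L : E3 →ₗ[ℂ] E3 :=
    { toFun := fun r i => shf M i 0 r
      map_add' := by
        intro r r'
        funext i
        change shf M i 0 (r + r') = shf M i 0 r + shf M i 0 r'
        unfold shf
        rw [← Finset.sum_add_distrib]
        refine Finset.sum_congr rfl fun k _ => ?_
        rw [Pi.add_apply]
        ring
      map_smul' := by
        intro c r
        funext i
        exact shf_smul i 0 r c }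
  have hinj : Function.Injective L := by
    rw [← LinearMap.ker_eq_bot, LinearMap.ker_eq_bot']
    intro r hr
    by_contra hne
    obtain ⟨i, hi⟩ := hS.inv 0 h00 r hne
    exact hi (congrFun hr i)
  obtain ⟨r, hr⟩ := (LinearMap.injective_iff_surjective.1 hinj) v
  exact ⟨r, fun i => congrFun hr i⟩

theorem cont_line {F : E3 × E3 → ℝ} {r : E3} (hF : ContinuousAt F (0, r)) :
    ContinuousAt (fun s : ℂ => F (s • r, r)) 0 := by
  have hcont : ContinuousAt (fun s : ℂ => ((s • r, r) : E3 × E3)) 0 := by fun_prop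
  have hF' : ContinuousAt F ((0 : ℂ) • r, r) := by
    rw [zero_smul]
    exact hF
  exact ContinuousAt.comp (g := F) (f := fun s : ℂ => ((s • r, r) : E3 × E3)) (x := 0) hF' hcont

theorem K_ge_aux (hd : 0 < d) (hK : KGood d d0 K) (hr : r0 < 1 / 8) (hS : Sharp d r0 t M)
    (h0 : 0 < r0) {ε : ℝ} (hε : 0 < ε) : 1 ≤ Real.log (d0 * (1 + ε)) / 4 + K := by
  have h00 : (0 : E3) ∈ ball (0 : E3) r0 := mem_ball_self h0
  have hd0 := hK.pos
  set c : ℝ := nN (aff t 0) * ‖(aff t 0).2 2‖ ^ 2 with hc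
  have hcpos : 0 < c := by
    have h1 := nN_aff_pos (t := t) hr h00
    have h2 := x2_aff_ne hS hd h00
    positivity
  obtain ⟨r, hr1⟩ := exists_dir hS h0 ![1, 0, ((Real.sqrt (d0 * (1 + ε) / c) : ℝ) : ℂ)]
  have e0 : shf M 0 0 r = 1 := hr1 0
  have e1 : shf M 1 0 r = 0 := hr1 1
  have e2 : shf M 2 0 r = ((Real.sqrt (d0 * (1 + ε) / c) : ℝ) : ℂ) := hr1 2
  have hrne : r ≠ 0 := by
    rintro rfl
    have : shf M 0 0 (0 : E3) = 0 := by
      unfold shf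
      simp
    rw [this] at e0
    exact zero_ne_one e0
  have eNJ : shNJ t M 0 r = d0 * (1 + ε) := by
    unfold shNJ shJ
    rw [e1, e2, Complex.norm_real, Real.norm_eq_abs, sq_abs, Real.sq_sqrt (by positivity)]
    rw [norm_zero]
    have : nN (aff t 0) * ‖(aff t 0).2 2‖ ^ 2 * (d0 * (1 + ε) / c) = d0 * (1 + ε) := by
      rw [← hc]
      field_simp
    linear_combination this
  have hq : ((0 : E3), r) ∈ Sd r0 := ⟨h00, hrne⟩
  have t1 : ContinuousAt (fun s : ℂ => shNJ t M (s • r) r) 0 :=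
    cont_line (F := fun y => shNJ t M y.1 y.2) (shNJ_smooth hr hS hq).continuousAt
  have t2 : ContinuousAt (fun s : ℂ => ‖shf M 0 (s • r) r‖ ^ 2) 0 :=
    cont_line (F := fun y => ‖shf M 0 y.1 y.2‖ ^ 2) (shf_sq_smooth hS 0 hq).continuousAt
  have v1 : shNJ t M ((0 : ℂ) • r) r = d0 * (1 + ε) := by rw [zero_smul, eNJ]
  have v2 : ‖shf M 0 ((0 : ℂ) • r) r‖ ^ 2 = 1 := by rw [zero_smul, e0, norm_one, one_pow]
  have l1 : ContinuousAt (fun s : ℂ => Real.log (shNJ t M (s • r) r) / 4 + K) 0 := by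
    refine (t1.log ?_).div_const 4 |>.add continuousAt_const
    rw [v1]
    positivity
  have l2 : ContinuousAt (fun s : ℂ => Real.log (‖shf M 0 (s • r) r‖ ^ 2) / 4 + 1) 0 := by
    refine (t2.log ?_).div_const 4 |>.add continuousAt_const
    rw [v2]
    exact one_ne_zero
  have g1 : ∀ᶠ s : ℂ in 𝓝 0, d0 * ‖shf M 0 (s • r) r‖ ^ 2 < shNJ t M (s • r) r := by
    refine (continuousAt_const.mul t2).eventually_lt t1 ?_
    change d0 * ‖shf M 0 ((0 : ℂ) • r) r‖ ^ 2 < shNJ t M ((0 : ℂ) • r) r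
    rw [v1, v2]
    nlinarith
  have g2 : ∀ᶠ s : ℂ in 𝓝 0, 0 < ‖shf M 0 (s • r) r‖ ^ 2 := by
    refine t2.eventually (lt_mem_nhds ?_)
    change 0 < ‖shf M 0 ((0 : ℂ) • r) r‖ ^ 2
    rw [v2]
    exact one_pos
  have g3 : ∀ᶠ s : ℂ in 𝓝 0, s • r ∈ ball (0 : E3) r0 := by
    have : ContinuousAt (fun s : ℂ => s • r) 0 := by fun_prop
    refine this.eventually (isOpen_ball.mem_nhds ?_)
    change (0 : ℂ) • r ∈ ball (0 : E3) r0
    rw [zero_smul]
    exact h00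
  have key : ∀ᶠ s : ℂ in 𝓝[≠] 0, Real.log (‖shf M 0 (s • r) r‖ ^ 2) / 4 + 1 ≤
      Real.log (shNJ t M (s • r) r) / 4 + K := by
    filter_upwards [nhdsWithin_le_nhds g1, nhdsWithin_le_nhds g2, nhdsWithin_le_nhds g3,
      self_mem_nhdsWithin] with s a1 a2 a3 a4
    have hs : s ≠ 0 := a4
    have hs2 : 0 < ‖s‖ ^ 2 := by positivity
    have b1 : nP (aff t (s • r)) = ‖s‖ ^ 2 * ‖shf M 0 (s • r) r‖ ^ 2 := by
      rw [nP_aff hS a3, shf_sq_sc]
    have b2 : nN (aff t (s • r)) * nJ (aff t (s • r)) = ‖s‖ ^ 2 * shNJ t M (s • r) r := by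
      rw [nNJ_aff hS a3, shNJ_sc]
    have b3 : fP (aff t (s • r)) ≠ 0 := by
      intro hz
      have : nP (aff t (s • r)) = 0 := by
        unfold nP
        rw [hz, norm_zero]
        norm_num
      rw [b1] at this
      exact (mul_pos hs2 a2).ne' this
    have b4 := hK.g4 _ (aff_mem hr a3) b3 (by rw [b1, b2]; nlinarith)
    have b5 : 0 < shNJ t M (s • r) r := by nlinarith
    rw [b1, b2, log_sc hs a2.ne', log_sc hs b5.ne'] at b4
    linarith
  have f1 := le_of_tendsto_of_tendsto (l2.tendsto.mono_left nhdsWithin_le_nhds)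
    (l1.tendsto.mono_left nhdsWithin_le_nhds) key
  rw [v1, v2, Real.log_one] at f1
  linarith

theorem K_ge (hd : 0 < d) (hK : KGood d d0 K) (hr : r0 < 1 / 8) (hS : Sharp d r0 t M)
    (h0 : 0 < r0) : 1 ≤ Real.log d0 / 4 + K := by
  by_contra hcon
  push Not at hcon
  have hε : 0 < 2 * (1 - (Real.log d0 / 4 + K)) := by linarith
  have h1 := K_ge_aux hd hK hr hS h0 hε
  have h2 : Real.log (d0 * (1 + 2 * (1 - (Real.log d0 / 4 + K)))) ≤
      Real.log d0 + 2 * (1 - (Real.log d0 / 4 + K)) := by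
    rw [Real.log_mul hK.pos.ne' (by positivity)]
    have := Real.log_le_sub_one_of_pos (show 0 < 1 + 2 * (1 - (Real.log d0 / 4 + K)) by positivity)
    linarith
  linarith

/-- `κ₂♯` -/
theorem k2s_nonneg (y r : E3) : 0 ≤ k2s t M y r := by
  unfold k2s
  have := shJ_nonneg (t := t) (M := M) y r
  have h2 := a2_nonneg (aff t y)
  positivity

theorem k2s_lt (hK : KGood d d0 K) (hr : r0 < 1 / 8)
    {y : E3} (hy : y ∈ ball (0 : E3) r0) {r : E3} (h1 : shf M 0 y r ≠ 0)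
    (h : shNJ t M y r ≤ d0 * ‖shf M 0 y r‖ ^ 2) : k2s t M y r < 1 := by
  have hN := nN_aff_pos (t := t) hr hy
  have hE := nE_aff_ge t y
  have hNE := nN_eq (aff t y)
  have hJ := shJ_nonneg (t := t) (M := M) y r
  have ha := a2_nonneg (aff t y)
  have hP : 0 < ‖shf M 0 y r‖ ^ 2 := by positivity
  have hX : 0 ≤ ‖(aff t y).2 2‖ ^ 2 * shJ t M y r := by positivity
  unfold k2s
  refine Real.rpow_lt_one (by positivity) ?_ (by norm_num)
  rw [mul_inv_lt_iff₀ hP, one_mul]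
  by_cases hz : ‖(aff t y).2 2‖ ^ 2 * shJ t M y r = 0
  · rw [hz, mul_zero]
    exact hP
  · have hX' : 0 < ‖(aff t y).2 2‖ ^ 2 * shJ t M y r := lt_of_le_of_ne hX (Ne.symm hz)
    have h2 : a2 (aff t y) * (‖(aff t y).2 2‖ ^ 2 * shJ t M y r) < shNJ t M y r := by
      unfold shNJ
      exact mul_lt_mul_of_pos_right (by linarith) hX'
    have h3 := hK.lt
    nlinarith

theorem k2s_psh (hr : r0 < 1 / 8) (hS : Sharp d r0 t M) :
    PshE (fun q : E3 × E3 => k2s t M q.1 q.2) (Sd r0 ∩ {q | shf M 0 q.1 q.2 ≠ 0}) :=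
  LPsh.rpow ((((aff_lpsh hr a2_lpsh).mul (shXJ_lpsh hr hS)).mono inter_subset_left).mul
    (LPsh.inv_norm_sq (h := fun q : E3 × E3 => shf M 0 q.1 q.2)
      (fun q hq => shf_analytic hS 0 q hq.1) fun q hq => hq.2)) (by norm_num)

theorem logPs_psh (hS : Sharp d r0 t M) :
    PshE (fun q : E3 × E3 => Real.log (‖shf M 0 q.1 q.2‖ ^ 2) / 4)
      (Sd r0 ∩ {q | shf M 0 q.1 q.2 ≠ 0}) := by
  refine (PshE.log_norm (h := fun q : E3 × E3 => shf M 0 q.1 q.2)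
    (fun q hq => shf_analytic hS 0 q hq.1) (fun _ hp => hp.2) (1 / 2)).congr fun q _ => ?_
  change Real.log (‖shf M 0 q.1 q.2‖ ^ 2) / 4 = 1 / 2 * Real.log ‖shf M 0 q.1 q.2‖
  rw [Real.log_pow]
  push_cast
  ring

theorem phis_psh (hd : TubeGood d) (hK : KGood d d0 K) (hr : r0 < 1 / 8) (hS : Sharp d r0 t M) :
    PshE (fun q : E3 × E3 => Phis d0 K t M q.1 q.2) (Sd r0) := by
  have hd0 := hK.pos
  have cJ : ContinuousOn (fun q : E3 × E3 => shNJ t M q.1 q.2) (Sd r0) := fun q hq =>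
    (shNJ_smooth hr hS hq).continuousAt.continuousWithinAt
  have cP : ContinuousOn (fun q : E3 × E3 => ‖shf M 0 q.1 q.2‖ ^ 2) (Sd r0) := fun q hq =>
    (shf_sq_smooth hS 0 hq).continuousAt.continuousWithinAt
  have cJ' : ∀ q ∈ Sd r0, ContinuousAt (fun q : E3 × E3 => shNJ t M q.1 q.2) q := fun q hq =>
    (shNJ_smooth hr hS hq).continuousAt
  have cP' : ∀ q ∈ Sd r0, ContinuousAt (fun q : E3 × E3 => ‖shf M 0 q.1 q.2‖ ^ 2) q :=
    fun q hq => (shf_sq_smooth hS 0 hq).continuousAt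
  let R : Bool → Set (E3 × E3) := fun b => if b = true then
      {q | q ∈ Sd r0 ∧ (shf M 0 q.1 q.2 ≠ 0 ∧ shNJ t M q.1 q.2 < d0 * ‖shf M 0 q.1 q.2‖ ^ 2)}
    else {q | q ∈ Sd r0 ∧ shNJ t M q.1 q.2 ≠ 0}
  let f : Bool → E3 × E3 → ℝ := fun b => if b = true then
      fun q => Real.log (‖shf M 0 q.1 q.2‖ ^ 2) / 4 + k2s t M q.1 q.2
    else fun q => Real.log (shNJ t M q.1 q.2) / 4 + K
  have hRt : R true = {q | q ∈ Sd r0 ∧ (shf M 0 q.1 q.2 ≠ 0 ∧
      shNJ t M q.1 q.2 < d0 * ‖shf M 0 q.1 q.2‖ ^ 2)} := if_pos rfl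
  have hRf : R false = {q | q ∈ Sd r0 ∧ shNJ t M q.1 q.2 ≠ 0} := if_neg (by simp)
  have hft : f true = fun q => Real.log (‖shf M 0 q.1 q.2‖ ^ 2) / 4 + k2s t M q.1 q.2 :=
    if_pos rfl
  have hff : f false = fun q => Real.log (shNJ t M q.1 q.2) / 4 + K := if_neg (by simp)
  have pf : PshE (f false) (Sd r0 ∩ {q | shNJ t M q.1 q.2 ≠ 0}) := by
    rw [hff]
    refine ((((shNJ_lpsh hr hS).mono inter_subset_left).log fun q hq =>
      lt_of_le_of_ne (shNJ_nonneg hr hq.1.1 _) (Ne.symm hq.2)).mul_const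
        (a := 1 / 4) (by norm_num)).add_const K |>.congr fun q _ => ?_
    change Real.log (shNJ t M q.1 q.2) / 4 + K = 1 / 4 * Real.log (shNJ t M q.1 q.2) + K
    ring
  have pt : PshE (f true) (Sd r0 ∩ {q | shf M 0 q.1 q.2 ≠ 0}) := by
    rw [hft]
    exact (logPs_psh hS).add (k2s_psh hr hS)
  have of : IsOpen (Sd r0 ∩ {q : E3 × E3 | shNJ t M q.1 q.2 ≠ 0}) :=
    cJ.isOpen_inter_preimage isOpen_Sd isOpen_ne
  have ot : IsOpen (Sd r0 ∩ {q : E3 × E3 | shf M 0 q.1 q.2 ≠ 0}) :=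
    (shf_analytic hS 0).continuousOn.isOpen_inter_preimage isOpen_Sd isOpen_ne
  have ot2 : IsOpen (Sd r0 ∩ {q : E3 × E3 | shNJ t M q.1 q.2 - d0 * ‖shf M 0 q.1 q.2‖ ^ 2 < 0}) :=
    (cJ.sub (continuousOn_const.mul cP)).isOpen_inter_preimage isOpen_Sd isOpen_Iio
  refine PshE.glue (R := R) (f := f) isOpen_Sd ?_ ?_ ?_ ?_ ?_
  · intro b
    cases b
    · rw [hRf]
      exact of
    · rw [hRt]
      have : {q : E3 × E3 | q ∈ Sd r0 ∧ (shf M 0 q.1 q.2 ≠ 0 ∧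
          shNJ t M q.1 q.2 < d0 * ‖shf M 0 q.1 q.2‖ ^ 2)} =
          (Sd r0 ∩ {q : E3 × E3 | shf M 0 q.1 q.2 ≠ 0}) ∩
          (Sd r0 ∩ {q : E3 × E3 | shNJ t M q.1 q.2 - d0 * ‖shf M 0 q.1 q.2‖ ^ 2 < 0}) := by
        ext q
        simp only [Set.mem_ofPred_eq, mem_inter_iff, sub_neg]
        tauto
      rw [this]
      exact ot.inter ot2
  · intro b
    cases b
    · refine pf.mono fun q hq => ?_
      rw [hRf] at hq
      exact hq.1
    · refine pt.mono fun q hq => ?_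
      rw [hRt] at hq
      exact ⟨hq.2, hq.1.2.1⟩
  · intro q hq
    by_cases h : shf M 0 q.1 q.2 ≠ 0 ∧ shNJ t M q.1 q.2 < d0 * ‖shf M 0 q.1 q.2‖ ^ 2
    · by_cases h2 : shNJ t M q.1 q.2 = 0
      · refine ⟨true, by rw [hRt]; exact ⟨hq, h⟩, ?_⟩
        rw [hft]
        simp only
        unfold Phis
        rw [if_pos h, if_pos h2]
      · rcases le_total (Real.log (shNJ t M q.1 q.2) / 4 + K)
          (Real.log (‖shf M 0 q.1 q.2‖ ^ 2) / 4 + k2s t M q.1 q.2) with h3 | h3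
        · refine ⟨true, by rw [hRt]; exact ⟨hq, h⟩, ?_⟩
          rw [hft]
          simp only
          unfold Phis
          rw [if_pos h, if_neg h2, max_eq_right h3]
        · refine ⟨false, by rw [hRf]; exact ⟨hq, h2⟩, ?_⟩
          rw [hff]
          simp only
          unfold Phis
          rw [if_pos h, if_neg h2, max_eq_left h3]
    · refine ⟨false, by rw [hRf]; exact ⟨hq, shNJ_ne hr hS hd.pos hd0 hq.1 hq.2 h⟩, ?_⟩
      rw [hff]
      simp only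
      unfold Phis
      rw [if_neg h]
  · intro q hq b hb
    cases b
    · rw [hRf] at hb
      rw [hff]
      simp only
      unfold Phis
      by_cases h : shf M 0 q.1 q.2 ≠ 0 ∧ shNJ t M q.1 q.2 < d0 * ‖shf M 0 q.1 q.2‖ ^ 2
      · rw [if_pos h, if_neg hb.2]
        exact le_max_left _ _
      · rw [if_neg h]
    · rw [hRt] at hb
      rw [hft]
      simp only
      unfold Phis
      rw [if_pos hb.2]
      by_cases h2 : shNJ t M q.1 q.2 = 0
      · rw [if_pos h2]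
      · rw [if_neg h2]
        exact le_max_right _ _
  · intro q hq b hb
    have h0 : 0 < r0 := by
      have := hq.1
      rw [mem_ball_zero_iff] at this
      exact (norm_nonneg _).trans_lt this
    cases b
    · -- `shNJ = 0`
      rw [hRf] at hb
      have hJ : shNJ t M q.1 q.2 = 0 := by
        by_contra h
        exact hb ⟨hq, h⟩
      have hP : shf M 0 q.1 q.2 ≠ 0 := by
        intro h
        exact (shNJ_pos_of hr hS hd.pos hq.1 hq.2 h).ne' hJ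
      have hP2 : 0 < ‖shf M 0 q.1 q.2‖ ^ 2 := by positivity
      refine ⟨true, by rw [hRt]; exact ⟨hq, hP, by rw [hJ]; positivity⟩, ?_⟩
      have e1 : ∀ᶠ y in 𝓝 q, Real.exp (4 * K) * shNJ t M y.1 y.2 < ‖shf M 0 y.1 y.2‖ ^ 2 := by
        refine (continuousAt_const.mul (cJ' q hq)).eventually_lt (cP' q hq) ?_
        change Real.exp (4 * K) * shNJ t M q.1 q.2 < ‖shf M 0 q.1 q.2‖ ^ 2
        rw [hJ, mul_zero]
        exact hP2
      filter_upwards [e1] with y h1 h2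
      rw [hRf] at h2
      rw [hff, hft]
      simp only
      have h3 : 0 < shNJ t M y.1 y.2 :=
        lt_of_le_of_ne (shNJ_nonneg hr h2.1.1 _) (Ne.symm h2.2)
      have h4 := Real.log_le_log (by positivity) h1.le
      rw [Real.log_mul (Real.exp_pos _).ne' h3.ne', Real.log_exp] at h4
      have h5 := k2s_nonneg (t := t) (M := M) y.1 y.2
      linarith
    · rw [hRt] at hb
      have hn : ¬ (shf M 0 q.1 q.2 ≠ 0 ∧
          shNJ t M q.1 q.2 < d0 * ‖shf M 0 q.1 q.2‖ ^ 2) := fun h => hb ⟨hq, h⟩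
      have hJ := shNJ_ne hr hS hd.pos hd0 hq.1 hq.2 hn
      have hJ' : 0 < shNJ t M q.1 q.2 :=
        lt_of_le_of_ne (shNJ_nonneg hr hq.1 _) (Ne.symm hJ)
      have hRq : q ∈ R false := by
        rw [hRf]
        exact ⟨hq, hJ⟩
      refine ⟨false, hRq, ?_⟩
      by_cases heq : shNJ t M q.1 q.2 = d0 * ‖shf M 0 q.1 q.2‖ ^ 2
      · have hP : shf M 0 q.1 q.2 ≠ 0 := by
          intro h
          rw [h, norm_zero] at heq
          rw [heq] at hJ'
          norm_num at hJ'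
        have hP2 : 0 < ‖shf M 0 q.1 q.2‖ ^ 2 := by positivity
        have hlt : f true q < f false q := by
          rw [hff, hft]
          simp only
          rw [heq, Real.log_mul hd0.ne' hP2.ne']
          have h1 := k2s_lt hK hr hq.1 hP heq.le
          have h2 := K_ge hd.pos hK hr hS h0
          linarith
        have c1 : ContinuousAt (f true) q := pt.1.continuousAt (ot.mem_nhds ⟨hq, hP⟩)
        have c2 : ContinuousAt (f false) q := pf.1.continuousAt (of.mem_nhds ⟨hq, hJ⟩)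
        filter_upwards [c1.eventually_lt c2 hlt] with y h1 _
        exact h1.le
      · have hgt : d0 * ‖shf M 0 q.1 q.2‖ ^ 2 < shNJ t M q.1 q.2 := by
          by_cases hP : shf M 0 q.1 q.2 = 0
          · rw [hP, norm_zero]
            norm_num
            exact hJ'
          · by_contra h1
            push Not at h1
            exact hn ⟨hP, lt_of_le_of_ne h1 heq⟩
        have e1 : ∀ᶠ y in 𝓝 q, d0 * ‖shf M 0 y.1 y.2‖ ^ 2 < shNJ t M y.1 y.2 :=
          (continuousAt_const.mul (cP' q hq)).eventually_lt (cJ' q hq) hgt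
        filter_upwards [e1] with y h1 h2
        rw [hRt] at h2
        exact absurd h2.2.2 (not_lt.2 h1.le)

end RG
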