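import Pool.Agent.H14.RG.FnDefs2

/-!
# Module F0: the regularising function
-/

open scoped Topology ContDiff
open Set Metric

namespace RG

/-- smooth step from `-2` to `2` -/
noncomputable def stepS (s : ℝ) : ℝ := Real.smoothTransition ((s + 2) / 4)

lemma stepS_contDiff : ContDiff ℝ ∞ stepS := by
  unfold stepS
  exact Real.smoothTransition.contDiff.comp ((contDiff_id.add contDiff_const).div_const _)

lemma stepS_cont : Continuous stepS := stepS_contDiff.continuous

lemma stepS_nonneg (s : ℝ) : 0 ≤ stepS s := Real.smoothTransition.nonneg _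

lemma stepS_le_one (s : ℝ) : stepS s ≤ 1 := Real.smoothTransition.le_one _

lemma stepS_mono : Monotone stepS := by
  intro a b hab
  unfold stepS
  apply Real.smoothTransition.monotone
  linarith

lemma stepS_low {s : ℝ} (h : s ≤ -2) : stepS s = 0 :=
  Real.smoothTransition.zero_of_nonpos (by linarith)

lemma stepS_high {s : ℝ} (h : 2 ≤ s) : stepS s = 1 :=
  Real.smoothTransition.one_of_one_le (by linarith)

lemma stepS_symm (s : ℝ) : stepS s + stepS (-s) = 1 := by
  unfold stepS Real.smoothTransition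
  have e1 : (1 : ℝ) - (s + 2) / 4 = (-s + 2) / 4 := by ring
  have e2 : (1 : ℝ) - (-s + 2) / 4 = (s + 2) / 4 := by ring
  rw [e1, e2]
  have h := Real.smoothTransition.pos_denom ((s + 2) / 4)
  rw [e1] at h
  rw [add_comm (expNegInvGlue ((-s + 2) / 4)) (expNegInvGlue ((s + 2) / 4)), ← add_div]
  exact div_self h.ne'

lemma stepS_int : ∫ t in (-2 : ℝ)..2, stepS t = 2 := by
  have h1 : ∫ t in (-2 : ℝ)..2, stepS (-t) = ∫ t in (-2 : ℝ)..2, stepS t := by
    simp
  have h2 : ∫ t in (-2 : ℝ)..2, (stepS t + stepS (-t)) = 4 := by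
    have : ∀ t, stepS t + stepS (-t) = 1 := stepS_symm
    simp only [this]
    simp
    norm_num
  have hc : Continuous (fun t : ℝ => stepS (-t)) := stepS_cont.comp continuous_neg
  rw [intervalIntegral.integral_add (stepS_cont.intervalIntegrable _ _)
    (hc.intervalIntegrable _ _), h1] at h2
  linarith

theorem exists_mreg : ∃ m : ℝ → ℝ, MReg m := by
  have hd : ∀ s, HasDerivAt (fun s => ∫ t in (-2 : ℝ)..s, stepS t) (stepS s) s := fun s =>
    intervalIntegral.integral_hasDerivAt_right (stepS_cont.intervalIntegrable _ _)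
      (stepS_cont.stronglyMeasurableAtFilter _ _) stepS_cont.continuousAt
  have hder : deriv (fun s => ∫ t in (-2 : ℝ)..s, stepS t) = stepS := by
    ext s; exact (hd s).deriv
  have hdiff : Differentiable ℝ (fun s => ∫ t in (-2 : ℝ)..s, stepS t) :=
    fun s => (hd s).differentiableAt
  refine ⟨fun s => ∫ t in (-2 : ℝ)..s, stepS t, ?_, ?_, ?_, ?_, ?_, ?_⟩
  · rw [contDiff_infty_iff_deriv, hder]
    exact ⟨hdiff, stepS_contDiff⟩
  · apply Monotone.convexOn_univ_of_deriv hdiff
    rw [hder]
    exact stepS_mono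
  · apply monotone_of_deriv_nonneg hdiff
    intro s
    rw [hder]
    exact stepS_nonneg s
  · have hd' : ∀ s, HasDerivAt (fun s => s - ∫ t in (-2 : ℝ)..s, stepS t) (1 - stepS s) s :=
      fun s => (hasDerivAt_id s).sub (hd s)
    apply monotone_of_deriv_nonneg (fun s => (hd' s).differentiableAt)
    intro s
    rw [(hd' s).deriv]
    linarith [stepS_le_one s]
  · intro s hs
    show ∫ t in (-2 : ℝ)..s, stepS t = 0
    have : ∫ t in (-2 : ℝ)..s, stepS t = ∫ t in (-2 : ℝ)..s, (0 : ℝ) := by
      apply intervalIntegral.integral_congr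
      intro t ht
      rw [uIcc_of_ge hs] at ht
      exact stepS_low ht.2
    rw [this]; simp
  · intro s hs
    show ∫ t in (-2 : ℝ)..s, stepS t = s
    have h1 : ∫ t in (2 : ℝ)..s, stepS t = ∫ t in (2 : ℝ)..s, (1 : ℝ) := by
      apply intervalIntegral.integral_congr
      intro t ht
      rw [uIcc_of_le hs] at ht
      exact stepS_high ht.1
    have h2 := intervalIntegral.integral_add_adjacent_intervals
      (stepS_cont.intervalIntegrable (-2) 2) (stepS_cont.intervalIntegrable 2 s)
      (μ := MeasureTheory.volume)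
    rw [← h2, stepS_int, h1]
    simp

theorem MReg.nonneg {m : ℝ → ℝ} (hm : MReg m) (s : ℝ) : 0 ≤ m s := by
  have h1 : m (min s (-2)) ≤ m s := hm.mono (min_le_left _ _)
  rw [hm.low _ (min_le_right _ _)] at h1
  exact h1

theorem MReg.le {m : ℝ → ℝ} (hm : MReg m) (s : ℝ) : s ≤ m s := by
  have h1 : s - m s ≤ max s 2 - m (max s 2) := hm.mono' (le_max_left s 2)
  rw [hm.high _ (le_max_right _ _)] at h1
  linarith

/-- the regularised maximum is convex and nondecreasing in both variables -/
theorem MReg.convexOn {m : ℝ → ℝ} (hm : MReg m) :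
    ConvexOn ℝ univ (fun p : ℝ × ℝ => p.2 + m (p.1 - p.2)) := by
  refine ⟨convex_univ, ?_⟩
  intro p _ q _ a b ha hb hab
  have h := hm.convex.2 (mem_univ (p.1 - p.2)) (mem_univ (q.1 - q.2)) ha hb hab
  simp only [smul_eq_mul] at h
  have e : (a • p + b • q).1 - (a • p + b • q).2 = a * (p.1 - p.2) + b * (q.1 - q.2) := by
    simp only [Prod.fst_add, Prod.smul_fst, Prod.snd_add, Prod.smul_snd, smul_eq_mul]
    ring
  show (a • p + b • q).2 + m ((a • p + b • q).1 - (a • p + b • q).2) ≤
    a • (p.2 + m (p.1 - p.2)) + b • (q.2 + m (q.1 - q.2))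
  rw [e]
  simp only [Prod.snd_add, Prod.smul_snd, smul_eq_mul]
  linarith

theorem MReg.monotone {m : ℝ → ℝ} (hm : MReg m) :
    Monotone (fun p : ℝ × ℝ => p.2 + m (p.1 - p.2)) := by
  intro p q hpq
  have h1 : p.1 ≤ q.1 := hpq.1
  have h2 : p.2 ≤ q.2 := hpq.2
  show p.2 + m (p.1 - p.2) ≤ q.2 + m (q.1 - q.2)
  have h3 : m (p.1 - p.2) ≤ m (q.1 - p.2) := hm.mono (by linarith)
  have h4 : (q.1 - q.2) - m (q.1 - q.2) ≤ (q.1 - p.2) - m (q.1 - p.2) :=
    hm.mono' (by linarith)
  linarith

end RG
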