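import Pool.Agent.H14.RG.Rgl

/-!
# Module G1a: points of a thin tube with `J' ≤ nB` are near the tangency point
-/

open scoped Topology ContDiff
open Set Metric

namespace RG

/-! ### the compact set of normalised points -/

/-- normalised points -/
def npK : Set V4 := {p | 1 / 4 ≤ ‖p.1‖ ∧ ‖p.1‖ ≤ 1 ∧ ∑ i, ‖p.2 i‖ ^ 2 = 1}

theorem npK_closed : IsClosed npK := by
  have h1 : IsClosed {p : V4 | 1 / 4 ≤ ‖p.1‖} := isClosed_le continuous_const (by fun_prop)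
  have h2 : IsClosed {p : V4 | ‖p.1‖ ≤ 1} := isClosed_le (by fun_prop) continuous_const
  have h3 : IsClosed {p : V4 | ∑ i, ‖p.2 i‖ ^ 2 = 1} :=
    isClosed_eq (by fun_prop) continuous_const
  exact h1.inter (h2.inter h3)

theorem npK_compact : IsCompact npK := by
  refine IsCompact.of_isClosed_subset (isCompact_closedBall (0 : V4) 1) npK_closed ?_
  rintro p ⟨-, h2, h3⟩
  rw [mem_closedBall, dist_zero_right, Prod.norm_def]
  refine max_le h2 ?_
  rw [pi_norm_le_iff_of_nonneg zero_le_one]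
  intro i
  have h4 : ‖p.2 i‖ ^ 2 ≤ 1 := by
    rw [← h3]
    exact Finset.single_le_sum (f := fun i => ‖p.2 i‖ ^ 2) (fun j _ => by positivity)
      (Finset.mem_univ i)
  exact (sq_le_one_iff₀ (norm_nonneg _)).1 h4

theorem npK_sub : npK ⊆ Mh := by
  rintro p ⟨h1, -, h3⟩
  refine ⟨?_, ?_⟩
  · intro h
    rw [h, norm_zero] at h1
    linarith
  · intro h
    rw [h] at h3
    simp at h3

/-! ### the set of points equivalent to a point near `(1, (1, 1, 0))` -/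

/-- points equivalent to a point near `(1, (1, 1, 0))` -/
def npU (ε : ℝ) : Set V4 := {p | ∃ n : ℤ, ∃ t : ℂ, t ≠ 0 ∧ ∃ z w v : ℂ, ‖z - 1‖ < ε ∧
  ‖w - 1‖ < ε ∧ ‖v‖ < ε ∧ p = sc t (gG n (z, ![1, w, v]))}

theorem np_sc_one (p : V4) : sc 1 p = p := by
  unfold sc
  rw [one_smul]

/-- undoing the action -/
theorem np_undo (n : ℤ) {t : ℂ} (ht : t ≠ 0) {p : V4} (hp : p.1 ≠ 0) :
    sc t (gG n (gG (-n) (sc t⁻¹ p))) = p := by
  have h1 : gG n (gG (-n) (sc t⁻¹ p)) = sc t⁻¹ p := by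
    rw [← gG_add n (-n) (p := sc t⁻¹ p) hp, add_neg_cancel, gG_zero]
  rw [h1, sc_sc, mul_inv_cancel₀ ht, np_sc_one]

theorem np_undo' (n : ℤ) {t : ℂ} (ht : t ≠ 0) {p : V4} (hp : p.1 ≠ 0) :
    gG (-n) (sc t⁻¹ (sc t (gG n p))) = p := by
  rw [sc_sc, inv_mul_cancel₀ ht, np_sc_one, ← gG_add (-n) n hp, neg_add_cancel, gG_zero]

/-- a point with `x0 ≠ 0` is a multiple of an affine point -/
theorem np_affine {q : V4} (h0 : q.2 0 ≠ 0) :
    q = sc (q.2 0) (q.1, ![1, q.2 1 / q.2 0, q.2 2 / q.2 0]) := by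
  unfold sc
  refine Prod.ext rfl ?_
  funext i
  fin_cases i
  · simp
  · simp [mul_div_cancel₀ _ h0]
  · simp [mul_div_cancel₀ _ h0]

/-- the neighbourhood of the base point -/
theorem np_base {ε : ℝ} (hε : 0 < ε) :
    ∀ᶠ q : V4 in 𝓝 ((1 : ℂ), (![1, 1, 0] : Fin 3 → ℂ)),
      q.2 0 ≠ 0 ∧ ‖q.1 - 1‖ < ε ∧ ‖q.2 1 / q.2 0 - 1‖ < ε ∧ ‖q.2 2 / q.2 0‖ < ε := by
  set q0 : V4 := ((1 : ℂ), (![1, 1, 0] : Fin 3 → ℂ)) with hq0
  have v0 : q0.2 0 = 1 := by simp [hq0]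
  have v1 : q0.2 1 = 1 := by simp [hq0]
  have v2 : q0.2 2 = 0 := by simp [hq0]
  have c0 : ContinuousAt (fun q : V4 => q.2 0) q0 := by fun_prop
  have c1 : ContinuousAt (fun q : V4 => q.2 1) q0 := by fun_prop
  have c2 : ContinuousAt (fun q : V4 => q.2 2) q0 := by fun_prop
  have n0 : q0.2 0 ≠ 0 := by rw [v0]; exact one_ne_zero
  have e0 : ∀ᶠ q : V4 in 𝓝 q0, q.2 0 ≠ 0 := c0.eventually_ne n0
  have e1 : ∀ᶠ q : V4 in 𝓝 q0, ‖q.1 - 1‖ < ε := by
    have hc : ContinuousAt (fun q : V4 => ‖q.1 - 1‖) q0 := by fun_prop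
    refine hc.eventually_lt continuousAt_const ?_
    simp [hq0, hε]
  have e2 : ∀ᶠ q : V4 in 𝓝 q0, ‖q.2 1 / q.2 0 - 1‖ < ε := by
    have hc : ContinuousAt (fun q : V4 => ‖q.2 1 / q.2 0 - 1‖) q0 :=
      ((c1.div c0 n0).sub continuousAt_const).norm
    refine hc.eventually_lt continuousAt_const ?_
    simp [v0, v1, hε]
  have e3 : ∀ᶠ q : V4 in 𝓝 q0, ‖q.2 2 / q.2 0‖ < ε := by
    have hc : ContinuousAt (fun q : V4 => ‖q.2 2 / q.2 0‖) q0 := (c2.div c0 n0).norm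
    refine hc.eventually_lt continuousAt_const ?_
    simp [v0, v2, hε]
  filter_upwards [e0, e1, e2, e3] with q h0 h1 h2 h3
  exact ⟨h0, h1, h2, h3⟩

theorem np_nhds {ε : ℝ} (hε : 0 < ε) (n : ℤ) {t : ℂ} (ht : t ≠ 0) :
    npU ε ∈ 𝓝 (sc t (gG n ((1 : ℂ), (![1, 1, 0] : Fin 3 → ℂ)))) := by
  set q0 : V4 := ((1 : ℂ), (![1, 1, 0] : Fin 3 → ℂ)) with hq0
  set p0 : V4 := sc t (gG n q0) with hp0
  have hq1 : q0.1 ≠ 0 := one_ne_zero
  have hp1 : p0.1 ≠ 0 := by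
    change tau ^ n * q0.1 ≠ 0
    exact mul_ne_zero (zpow_ne_zero n tau_ne) hq1
  -- the inverse map
  have hcsc : ContinuousAt (fun p : V4 => sc t⁻¹ p) p0 := by
    unfold sc
    fun_prop
  have hcg : ContinuousAt (fun p : V4 => gG (-n) (sc t⁻¹ p)) p0 :=
    ContinuousAt.comp (g := gG (-n)) (f := fun p : V4 => sc t⁻¹ p)
      (gG_analytic (-n) (p := sc t⁻¹ p0) hp1).continuousAt hcsc
  have hval : gG (-n) (sc t⁻¹ p0) = q0 := np_undo' n ht hq1
  have h1 := hcg.eventually (p := fun q : V4 => q.2 0 ≠ 0 ∧ ‖q.1 - 1‖ < ε ∧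
    ‖q.2 1 / q.2 0 - 1‖ < ε ∧ ‖q.2 2 / q.2 0‖ < ε) (by
      change ∀ᶠ q : V4 in 𝓝 (gG (-n) (sc t⁻¹ p0)), _
      rw [hval]
      exact np_base hε)
  have h2 : ∀ᶠ p : V4 in 𝓝 p0, p.1 ≠ 0 :=
    (continuousAt_fst (p := p0)).eventually_ne hp1
  filter_upwards [h1, h2] with p hp hpn
  obtain ⟨a0, a1, a2', a3⟩ := hp
  set q : V4 := gG (-n) (sc t⁻¹ p) with hq
  refine ⟨n, t * q.2 0, mul_ne_zero ht a0, q.1, q.2 1 / q.2 0, q.2 2 / q.2 0, a1, a2', a3, ?_⟩
  rw [← sc_sc, ← gG_sc, ← np_affine a0, hq, np_undo n ht hpn]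

/-- points of a thin tube with `J' ≤ nB` are equivalent to points near `(1, (1, 1, 0))` -/
theorem near_p {ε : ℝ} (hε : 0 < ε) : ∃ d0 > 0, ∀ d, 0 < d → d ≤ d0 → ∀ p ∈ Mh,
    a2 p ≤ d * nE p → nJp p ≤ nB p →
    ∃ n : ℤ, ∃ t : ℂ, t ≠ 0 ∧ ∃ z w v : ℂ, ‖z - 1‖ < ε ∧ ‖w - 1‖ < ε ∧ ‖v‖ < ε ∧
      p = sc t (gG n (z, ![1, w, v])) := by
  have hcJ : ContinuousOn nJp npK := fun p hp =>
    (nJp_smooth (npK_sub hp).1).continuousAt.continuousWithinAt
  have hcB : ContinuousOn nB npK := fun p hp =>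
    (nB_smooth (npK_sub hp).1).continuousAt.continuousWithinAt
  have hca : ContinuousOn a2 npK := fun p hp =>
    (a2_smooth (npK_sub hp).1).continuousAt.continuousWithinAt
  set S1 : Set V4 := {p ∈ npK | nJp p ≤ nB p} with hS1
  have hS1c : IsClosed S1 := npK_closed.isClosed_le hcJ hcB
  have hS2c : IsCompact (S1 \ interior (npU ε)) :=
    (npK_compact.of_isClosed_subset hS1c fun p hp => hp.1).diff isOpen_interior
  -- the minimum of `a2` is positive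
  have hmin : ∃ c > 0, ∀ p ∈ S1 \ interior (npU ε), c ≤ a2 p := by
    rcases (S1 \ interior (npU ε)).eq_empty_or_nonempty with h | h
    · exact ⟨1, one_pos, fun p hp => by simp [h] at hp⟩
    · obtain ⟨x, hx, hm⟩ := hS2c.exists_isMinOn h (hca.mono fun p hp => hp.1.1)
      refine ⟨a2 x, ?_, fun p hp => hm hp⟩
      rcases (a2_nonneg x).eq_or_lt with h0 | h0
      · exfalso
        have hM := npK_sub hx.1.1
        have hx2 : x.2 2 = 0 := by
          by_contra hne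
          have h1 : 0 < a2 x := by
            unfold a2
            have := norm_pos_iff.2 hne
            positivity
          linarith
        have hB : nB x = 0 := by
          unfold nB
          rw [hx2, norm_zero]
          ring
        have hJ : nJp x = 0 := by
          have h1 := hx.1.2
          have h2 := nJp_nonneg x
          linarith
        obtain ⟨n, t, ht, hxe⟩ := nJp_S hM hx2 hJ
        have h3 : x ∈ interior (npU ε) := by
          rw [mem_interior_iff_mem_nhds, hxe]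
          exact np_nhds hε n ht
        exact hx.2 h3
      · exact h0
  obtain ⟨c, hc, hmin⟩ := hmin
  refine ⟨c / 2, by positivity, ?_⟩
  intro d hd hdc p hp ha hJ
  obtain ⟨n, t, ht, q1, q2, q3⟩ := exists_normal hp
  have hp1 : p.1 ≠ 0 := hp.1
  have ht0 : 0 < ‖t‖ := norm_pos_iff.2 ht
  have hc0 : 0 < ‖cc n p.1‖ := norm_pos_iff.2 (cc_ne hp1)
  set q : V4 := sc t (gG n p) with hq
  have hqK : q ∈ npK := ⟨q1, q2, q3⟩
  have ea : a2 q = ‖t‖ ^ 2 * a2 p := by rw [hq, a2_sc, a2_gG n hp1]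
  have eE : nE q = ‖t‖ ^ 2 * nE p := by rw [hq, nE_sc, nE_gG]
  have hE1 : nE q ≤ 1 := by
    unfold nE
    have h3 := q3
    rw [Fin.sum_univ_three] at h3
    have h2 : 0 ≤ ‖q.2 2‖ ^ 2 := by positivity
    linarith
  have haq : a2 q ≤ d * nE q := by
    rw [ea, eE]
    have := mul_le_mul_of_nonneg_left ha (by positivity : 0 ≤ ‖t‖ ^ 2)
    linarith
  have haq' : a2 q < c := by
    have h1 : d * nE q ≤ d * 1 := mul_le_mul_of_nonneg_left hE1 hd.le
    linarith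
  have hJq : nJp q ≤ nB q := by
    have h1 := nJp_gG n hp1
    have h2 := nB_gG n hp1
    rw [hq, nJp_sc, nB_sc]
    refine mul_le_mul_of_nonneg_left ?_ (by positivity)
    rw [← h1, ← h2] at hJ
    exact le_of_mul_le_mul_right hJ (by positivity)
  have hqU : q ∈ npU ε := by
    by_contra h
    have h1 : q ∈ S1 \ interior (npU ε) := ⟨⟨hqK, hJq⟩, fun h2 => h (interior_subset h2)⟩
    have := hmin q h1
    linarith
  obtain ⟨m, s, hs, z, w, v, hz, hw, hv, he⟩ := hqU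
  have hz0 : z ≠ 0 := by
    rintro rfl
    have h1 : q.1 = 0 := by
      rw [he]
      change tau ^ m * 0 = 0
      ring
    have h2 : q.1 ≠ 0 := (npK_sub hqK).1
    exact h2 h1
  refine ⟨-n + m, t⁻¹ * s, mul_ne_zero (inv_ne_zero ht) hs, z, w, v, hz, hw, hv, ?_⟩
  have h1 : p = gG (-n) (sc t⁻¹ q) := (np_undo' n ht hp1).symm
  rw [h1, he, sc_sc, gG_sc, ← gG_add (-n) m (p := (z, ![1, w, v])) hz0]

end RG
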