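import Pool.Agent.H14.RG.SubDefs

/-!
# Module A: one variable theory of continuous functions with the local submean property
-/

open scoped Topology
open Set Metric

namespace RG

/-- circle averages of continuous functions: strict inequality -/
theorem circleAverage_lt_of {f : ℂ → ℝ} {z : ℂ} {r m : ℝ} (hr : 0 < r)
    (hf : ContinuousOn f (sphere z r)) (hm : ∀ w ∈ sphere z r, f w ≤ m)
    {w : ℂ} (hw : w ∈ sphere z r) (hlt : f w < m) : Real.circleAverage f z r < m := by
  have hmem : ∀ θ : ℝ, circleMap z r θ ∈ sphere z r := fun θ => circleMap_mem_sphere z hr.le θ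
  have hc : Continuous (fun θ : ℝ => f (circleMap z r θ)) := by
    rw [← continuousOn_univ]
    exact hf.comp (continuous_circleMap z r).continuousOn (fun θ _ => hmem θ)
  -- a parameter for `w`
  obtain ⟨θ, hθ, hθw⟩ : ∃ θ ∈ Icc (0:ℝ) (2 * Real.pi), circleMap z r θ = w := by
    have h1 : w ∈ circleMap z r '' Ioc 0 (2 * Real.pi) := by
      rw [image_circleMap_Ioc, abs_of_pos hr]; exact hw
    obtain ⟨θ, hθ, h2⟩ := h1
    exact ⟨θ, ⟨hθ.1.le, hθ.2⟩, h2⟩
  rw [Real.circleAverage_def, smul_eq_mul]
  have hpi : (0:ℝ) < 2 * Real.pi := Real.two_pi_pos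
  have h3 : ∫ θ in (0:ℝ)..(2 * Real.pi), f (circleMap z r θ) < ∫ _θ in (0:ℝ)..(2 * Real.pi), m := by
    apply intervalIntegral.integral_lt_integral_of_continuousOn_of_le_of_exists_lt hpi
      hc.continuousOn continuousOn_const
    · intro x _
      exact hm _ (hmem x)
    · exact ⟨θ, hθ, by rw [hθw]; exact hlt⟩
  rw [intervalIntegral.integral_const, smul_eq_mul, sub_zero] at h3
  calc (2 * Real.pi)⁻¹ * ∫ θ in (0:ℝ)..(2 * Real.pi), f (circleMap z r θ)
      < (2 * Real.pi)⁻¹ * (2 * Real.pi * m) := by
        apply mul_lt_mul_of_pos_left h3 (by positivity)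
    _ = m := by field_simp

theorem circleIntegrable_of {f : ℂ → ℝ} {z : ℂ} {r : ℝ} (hr : 0 ≤ r)
    (hf : ContinuousOn f (sphere z r)) : CircleIntegrable f z r :=
  hf.circleIntegrable hr

/-- A1. maximum principle -/
theorem lsub_max {Ω : Set ℂ} (hb : Bornology.IsBounded Ω) (ho : IsOpen Ω) {f : ℂ → ℝ}
    (hf : ContinuousOn f (closure Ω)) (hs : ∀ z ∈ Ω, LSub f z) {M : ℝ}
    (hM : ∀ z ∈ frontier Ω, f z ≤ M) : ∀ z ∈ Ω, f z ≤ M := by
  intro z₀ hz₀
  by_contra hcon
  rw [not_le] at hcon
  have hK : IsCompact (closure Ω) := hb.isCompact_closure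
  obtain ⟨z₁, hz₁, hmax⟩ := hK.exists_isMaxOn ⟨z₀, subset_closure hz₀⟩ hf
  set m : ℝ := f z₁ with hm
  have hmax' : ∀ w ∈ closure Ω, f w ≤ m := fun w hw => hmax hw
  have hMm : M < m := hcon.trans_le (hmax' z₀ (subset_closure hz₀))
  -- the maximum set
  have hScl : IsClosed (closure Ω ∩ f ⁻¹' {m}) := hf.preimage_isClosed_of_isClosed isClosed_closure
    isClosed_singleton
  have hSK : IsCompact (closure Ω ∩ f ⁻¹' {m}) := hK.of_isClosed_subset hScl inter_subset_left
  obtain ⟨z, hz, hre⟩ := hSK.exists_isMaxOn ⟨z₁, hz₁, rfl⟩ Complex.continuous_re.continuousOn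
  have hzΩ : z ∈ Ω := by
    by_contra hn
    have : z ∈ frontier Ω := ⟨hz.1, by rw [ho.interior_eq]; exact hn⟩
    have h1 := hM z this
    have h2 : f z = m := hz.2
    linarith
  obtain ⟨ρ, hρ, hsub⟩ := hs z hzΩ
  obtain ⟨ε, hε, hball⟩ := Metric.isOpen_iff.1 ho z hzΩ
  set r : ℝ := min ρ ε / 2 with hr
  have hr0 : 0 < r := by have := lt_min hρ hε; positivity
  have hrρ : r < ρ := by
    have := min_le_left ρ ε
    have := lt_min hρ hε
    rw [hr]; linarith
  have hrε : r < ε := by
    have := min_le_right ρ ε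
    have := lt_min hρ hε
    rw [hr]; linarith
  have hsph : sphere z r ⊆ Ω := fun w hw => hball (by
    rw [mem_sphere] at hw; rw [mem_ball, hw]; exact hrε)
  have hw0 : z + r ∈ sphere z r := by
    rw [mem_sphere, dist_eq_norm, add_sub_cancel_left, Complex.norm_real,
      Real.norm_of_nonneg hr0.le]
  have hlt : f (z + r) < m := by
    refine lt_of_le_of_ne (hmax' _ (subset_closure (hsph hw0))) ?_
    intro he
    have h1 := hre ⟨subset_closure (hsph hw0), he⟩
    simp only [mem_ofPred_eq, Complex.add_re, Complex.ofReal_re] at h1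
    linarith
  have h4 := circleAverage_lt_of hr0 (hf.mono (hsph.trans subset_closure))
    (fun w hw => hmax' w (subset_closure (hsph hw))) hw0 hlt
  have h5 := hsub r hr0 hrρ
  have h6 : f z = m := hz.2
  linarith

/-- approximation on a circle by real parts of polynomials -/
theorem exists_poly {f : ℂ → ℝ} {c : ℂ} {R : ℝ} (hR : 0 < R) (hf : ContinuousOn f (sphere c R))
    {ε : ℝ} (hε : 0 < ε) : ∃ P : Polynomial ℂ, ∀ z ∈ sphere c R,
    |f z - (P.eval ((z - c) / R)).re| < ε := by
  have : Fact (0 < 2 * Real.pi) := ⟨Real.two_pi_pos⟩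
  have hnorm : ∀ θ : AddCircle (2 * Real.pi), ‖(AddCircle.toCircle θ : ℂ)‖ = 1 := fun θ =>
    Circle.norm_coe _
  have hcont : Continuous (fun θ : AddCircle (2 * Real.pi) =>
      (f (c + R * (AddCircle.toCircle θ : ℂ)) : ℂ)) := by
    apply Complex.continuous_ofReal.comp
    rw [← continuousOn_univ]
    apply hf.comp
    · apply Continuous.continuousOn
      have : Continuous (fun θ : AddCircle (2 * Real.pi) => (AddCircle.toCircle θ : ℂ)) :=
        continuous_subtype_val.comp AddCircle.continuous_toCircle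
      fun_prop
    · intro θ _
      rw [mem_sphere, dist_eq_norm, add_sub_cancel_left, norm_mul, hnorm, Complex.norm_real,
        Real.norm_of_nonneg hR.le, mul_one]
  set u : C(AddCircle (2 * Real.pi), ℂ) := ⟨_, hcont⟩ with hu
  have hmem : u ∈ (Submodule.span ℂ (range (@fourier (2 * Real.pi)))).topologicalClosure := by
    rw [span_fourier_closure_eq_top]; trivial
  have hmem' : u ∈ closure ((Submodule.span ℂ (range (@fourier (2 * Real.pi))) :
      Submodule ℂ C(AddCircle (2 * Real.pi), ℂ)) : Set C(AddCircle (2 * Real.pi), ℂ)) := hmem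
  obtain ⟨q, hq, hdist⟩ := Metric.mem_closure_iff.1 hmem' ε hε
  -- the span
  have hspan : ∃ P₁ P₂ : Polynomial ℂ, ∀ θ : AddCircle (2 * Real.pi),
      q θ = P₁.eval (AddCircle.toCircle θ : ℂ) +
        (starRingEnd ℂ) (P₂.eval (AddCircle.toCircle θ : ℂ)) := by
    refine Submodule.span_induction (p := fun q _ => ∃ P₁ P₂ : Polynomial ℂ,
      ∀ θ : AddCircle (2 * Real.pi), q θ = P₁.eval (AddCircle.toCircle θ : ℂ) +
        (starRingEnd ℂ) (P₂.eval (AddCircle.toCircle θ : ℂ))) ?_ ?_ ?_ ?_ hq
    · rintro _ ⟨n, rfl⟩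
      rcases Int.eq_nat_or_neg n with ⟨k, rfl | rfl⟩
      · refine ⟨Polynomial.X ^ k, 0, fun θ => ?_⟩
        rw [fourier_apply]
        simp [AddCircle.toCircle_nsmul]
      · refine ⟨0, Polynomial.X ^ k, fun θ => ?_⟩
        rw [fourier_neg, fourier_apply]
        simp [AddCircle.toCircle_nsmul]
    · exact ⟨0, 0, fun θ => by simp⟩
    · rintro x y _ _ ⟨P₁, P₂, hP⟩ ⟨Q₁, Q₂, hQ⟩
      refine ⟨P₁ + Q₁, P₂ + Q₂, fun θ => ?_⟩
      rw [ContinuousMap.add_apply, hP, hQ, Polynomial.eval_add, Polynomial.eval_add, map_add]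
      ring
    · rintro a x _ ⟨P₁, P₂, hP⟩
      refine ⟨Polynomial.C a * P₁, Polynomial.C ((starRingEnd ℂ) a) * P₂, fun θ => ?_⟩
      rw [ContinuousMap.smul_apply, hP, Polynomial.eval_mul, Polynomial.eval_mul,
        Polynomial.eval_C, Polynomial.eval_C, map_mul, smul_eq_mul, Complex.conj_conj]
      ring
  obtain ⟨P₁, P₂, hP⟩ := hspan
  refine ⟨P₁ + P₂, fun z hz => ?_⟩
  -- the angle of `z`
  have hzR : ‖(z - c) / R‖ = 1 := by
    rw [mem_sphere, dist_eq_norm] at hz
    rw [norm_div, hz, Complex.norm_real, Real.norm_of_nonneg hR.le, div_self hR.ne']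
  set w : Circle := ⟨(z - c) / R, mem_sphere_zero_iff_norm.2 hzR⟩ with hw
  obtain ⟨θ, hθ⟩ : ∃ θ : AddCircle (2 * Real.pi), AddCircle.toCircle θ = w := by
    refine ⟨((Complex.arg w : ℝ) : AddCircle (2 * Real.pi)), ?_⟩
    rw [AddCircle.toCircle_apply_mk]
    rw [div_self Real.two_pi_pos.ne', one_mul]
    exact Circle.exp_arg w
  have hθ' : (AddCircle.toCircle θ : ℂ) = (z - c) / R := by rw [hθ]
  have h1 : dist (u θ) (q θ) < ε := lt_of_le_of_lt (ContinuousMap.dist_apply_le_dist θ) hdist
  have huθ : u θ = (f z : ℂ) := by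
    change ((f (c + R * (AddCircle.toCircle θ : ℂ)) : ℝ) : ℂ) = _
    rw [hθ']
    have : c + R * ((z - c) / R) = z := by
      have : (R : ℂ) ≠ 0 := by exact_mod_cast hR.ne'
      field_simp
      ring
    rw [this]
  rw [huθ, hP, hθ', dist_eq_norm] at h1
  have h2 := (Complex.abs_re_le_norm _).trans_lt h1
  have h3 : ((f z : ℂ) - (P₁.eval ((z - c) / R) + (starRingEnd ℂ) (P₂.eval ((z - c) / R)))).re =
      f z - ((P₁ + P₂).eval ((z - c) / R)).re := by
    simp [Polynomial.eval_add]
  rw [h3] at h2
  exact h2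

/-- mean value property of the real part of a polynomial -/
theorem poly_mean (P : Polynomial ℂ) (c : ℂ) (R : ℝ) (z : ℂ) (r : ℝ) :
    Real.circleAverage (fun w => (P.eval ((w - c) / R)).re) z r = (P.eval ((z - c) / R)).re := by
  have hd : Differentiable ℂ (fun w : ℂ => P.eval ((w - c) / R)) :=
    P.differentiable.comp ((differentiable_id.sub_const c).div_const _)
  have h1 : Real.circleAverage (fun w : ℂ => P.eval ((w - c) / R)) z r = P.eval ((z - c) / R) :=
    hd.diffContOnCl.circleAverage
  have h2 := Complex.reCLM.circleAverage_comp_comm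
    (f := fun w : ℂ => P.eval ((w - c) / R)) (c := z) (R := r)
    (hd.continuous.continuousOn.circleIntegrable')
  rw [h1] at h2
  simpa [Function.comp_def] using h2

/-- A2. the local submean property implies the submean inequality on the whole disc -/
theorem lsub_disc {f : ℂ → ℝ} {c : ℂ} {R : ℝ} (hR : 0 < R)
    (hf : ContinuousOn f (closedBall c R)) (hs : ∀ z ∈ ball c R, LSub f z) :
    f c ≤ Real.circleAverage f c R := by
  apply le_of_forall_pos_le_add
  intro ε hε
  have hfs : ContinuousOn f (sphere c R) := hf.mono sphere_subset_closedBall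
  obtain ⟨P, hP⟩ := exists_poly hR hfs (half_pos hε)
  have hPc : Continuous (fun w : ℂ => (P.eval ((w - c) / R)).re) := by
    have hd : Differentiable ℂ (fun w : ℂ => P.eval ((w - c) / R)) :=
      P.differentiable.comp ((differentiable_id.sub_const c).div_const _)
    exact Complex.continuous_re.comp hd.continuous
  have hmax := lsub_max (Ω := ball c R) isBounded_ball isOpen_ball
    (f := fun w => f w - (P.eval ((w - c) / R)).re) (M := ε / 2) ?_ ?_ ?_ c (mem_ball_self hR)
  · have h1 : (P.eval ((c - c) / R)).re ≤ Real.circleAverage f c R + ε / 2 := by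
      rw [← poly_mean P c R c R]
      have h2 : Real.circleAverage (fun w => (P.eval ((w - c) / R)).re) c R ≤
          Real.circleAverage (fun w => f w + ε / 2) c R := by
        apply Real.circleAverage_mono
        · exact hPc.continuousOn.circleIntegrable'
        · exact (hfs.add continuousOn_const).circleIntegrable hR.le
        · intro w hw
          rw [abs_of_pos hR] at hw
          have := (abs_lt.1 (hP w hw)).1
          linarith
      refine h2.trans (le_of_eq ?_)
      rw [Real.circleAverage_fun_add (hfs.circleIntegrable hR.le)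
        (continuousOn_const.circleIntegrable hR.le), Real.circleAverage_const]
    linarith
  · rw [closure_ball c hR.ne']
    exact hf.sub hPc.continuousOn
  · intro z hz
    obtain ⟨ρ, hρ, hsub⟩ := hs z hz
    obtain ⟨δ, hδ, hball⟩ := Metric.isOpen_iff.1 isOpen_ball z hz
    refine ⟨min ρ δ, lt_min hρ hδ, fun r hr0 hr => ?_⟩
    have hsph : sphere z r ⊆ closedBall c R := fun w hw => ball_subset_closedBall (hball (by
      rw [mem_sphere] at hw; rw [mem_ball, hw]; exact hr.trans_le (min_le_right _ _)))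
    rw [Real.circleAverage_fun_sub ((hf.mono hsph).circleIntegrable hr0.le)
      (hPc.continuousOn.circleIntegrable'), poly_mean]
    have := hsub r hr0 (hr.trans_le (min_le_left _ _))
    linarith
  · intro z hz
    rw [frontier_ball c hR.ne'] at hz
    exact ((le_abs_self _).trans_lt (hP z hz)).le

/-- the strong maximum principle on a ball: points of small circles -/
theorem lsub_eq_of_max {f : ℂ → ℝ} {z : ℂ} {m : ℝ} (hf : Continuous f) (hs : LSub f z)
    (hm : ∀ w, f w ≤ m) (hz : f z = m) : ∀ᶠ w in 𝓝 z, f w = m := by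
  obtain ⟨ρ, hρ, hsub⟩ := hs
  filter_upwards [Metric.ball_mem_nhds z hρ] with w hw
  rcases eq_or_ne w z with rfl | hne
  · exact hz
  · by_contra hn
    have hlt : f w < m := lt_of_le_of_ne (hm w) hn
    have hr : 0 < dist w z := dist_pos.2 hne
    have h1 := circleAverage_lt_of hr hf.continuousOn (fun v _ => hm v)
      (show w ∈ sphere z (dist w z) from rfl) hlt
    have h2 := hsub _ hr hw
    linarith

theorem log_norm_mean {z : ℂ} {r : ℝ} (hr : 0 < r) (h : r < ‖z‖) :
    Real.circleAverage (fun w => Real.log (‖w‖ ^ 2)) z r = Real.log (‖z‖ ^ 2) := by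
  have h1 := AnalyticOnNhd.circleAverage_log_norm_of_ne_zero (R := r) (c := z)
    (g := fun w : ℂ => w ^ 2) (fun x _ => by fun_prop) (fun u hu => by
      rw [abs_of_pos hr, mem_closedBall, dist_eq_norm] at hu
      apply pow_ne_zero
      rintro rfl
      rw [zero_sub, norm_neg] at hu
      linarith)
  simpa [norm_pow] using h1

theorem continuousOn_log_norm : ContinuousOn (fun w : ℂ => Real.log (‖w‖ ^ 2)) {w | w ≠ 0} := by
  apply ContinuousOn.log
  · exact (continuous_norm.pow 2).continuousOn
  · intro w hw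
    exact pow_ne_zero 2 (norm_ne_zero_iff.2 hw)

/-- subtracting `a + b log ‖z‖ ^ 2` keeps the local submean property off the origin -/
theorem LSub.sub_log {f : ℂ → ℝ} {z : ℂ} (hz : z ≠ 0) (hf : ContinuousOn f {w | w ≠ 0})
    (hs : LSub f z) (a b : ℝ) : LSub (fun w => f w - (a + b * Real.log (‖w‖ ^ 2))) z := by
  obtain ⟨ρ, hρ, hsub⟩ := hs
  have hn : 0 < ‖z‖ := norm_pos_iff.2 hz
  refine ⟨min ρ ‖z‖, lt_min hρ hn, fun r hr0 hr => ?_⟩
  have hrz : r < ‖z‖ := hr.trans_le (min_le_right _ _)
  have hsph : sphere z r ⊆ {w : ℂ | w ≠ 0} := by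
    rintro w hw rfl
    rw [mem_sphere, dist_eq_norm, zero_sub, norm_neg] at hw
    linarith
  have hcl1 : ContinuousOn (fun w : ℂ => b * Real.log (‖w‖ ^ 2)) (sphere z r) :=
    continuousOn_const.mul (continuousOn_log_norm.mono hsph)
  have hcl : ContinuousOn (fun w : ℂ => a + b * Real.log (‖w‖ ^ 2)) (sphere z r) :=
    continuousOn_const.add hcl1
  rw [Real.circleAverage_fun_sub ((hf.mono hsph).circleIntegrable hr0.le)
    (hcl.circleIntegrable hr0.le),
    Real.circleAverage_fun_add (continuousOn_const.circleIntegrable hr0.le)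
      (hcl1.circleIntegrable hr0.le),
    Real.circleAverage_const]
  have h1 : Real.circleAverage (fun w : ℂ => b * Real.log (‖w‖ ^ 2)) z r =
      b * Real.log (‖z‖ ^ 2) := by
    have := Real.circleAverage_fun_smul (a := b) (f := fun w : ℂ => Real.log (‖w‖ ^ 2)) (c := z)
      (R := r)
    simp only [smul_eq_mul] at this
    rw [this, log_norm_mean hr0 hrz]
  rw [h1]
  have := hsub r hr0 (hr.trans_le (min_le_left _ _))
  linarith

/-- A3. Liouville theorem -/
theorem lsub_liouville {f : ℂ → ℝ} (hf : Continuous f) (hs : ∀ z, LSub f z) {M : ℝ}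
    (hM : ∀ z, f z ≤ M) : ∀ z w, f z = f w := by
  -- the maximum on the unit circle
  obtain ⟨z₁, hz₁, hmax⟩ := (isCompact_sphere (0:ℂ) 1).exists_isMaxOn ⟨1, by simp⟩ hf.continuousOn
  set m : ℝ := f z₁ with hm
  have hcirc : ∀ w : ℂ, ‖w‖ = 1 → f w ≤ m := fun w hw => hmax (by simpa using hw)
  have hall : ∀ w : ℂ, f w ≤ m := by
    intro w
    rcases lt_trichotomy ‖w‖ 1 with h1 | h1 | h1
    · refine lsub_max (Ω := ball 0 1) isBounded_ball isOpen_ball hf.continuousOn
        (fun z _ => hs z) ?_ w (by simpa using h1)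
      intro z hz
      rw [frontier_ball 0 one_ne_zero, mem_sphere_zero_iff_norm] at hz
      exact hcirc z hz
    · exact hcirc w h1
    · apply le_of_forall_pos_le_add
      intro ε hε
      have hlw : 0 < Real.log (‖w‖ ^ 2) := Real.log_pos (by nlinarith)
      set b : ℝ := ε / Real.log (‖w‖ ^ 2) with hb
      have hb0 : 0 < b := div_pos hε hlw
      -- large radius
      obtain ⟨R, hRw, hRM⟩ : ∃ R : ℝ, ‖w‖ < R ∧ M ≤ m + b * Real.log (R ^ 2) := by
        have ht : Filter.Tendsto (fun R : ℝ => m + b * Real.log (R ^ 2)) Filter.atTop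
            Filter.atTop := by
          apply Filter.tendsto_atTop_add_const_left
          apply Filter.Tendsto.const_mul_atTop hb0
          exact Real.tendsto_log_atTop.comp (Filter.tendsto_pow_atTop two_ne_zero)
        obtain ⟨R, h2, h3⟩ := ((Filter.eventually_gt_atTop ‖w‖).and
          (ht.eventually_ge_atTop M)).exists
        exact ⟨R, h2, h3⟩
      have hR0 : 0 < R := by linarith
      set Ω : Set ℂ := {z | 1 < ‖z‖ ∧ ‖z‖ < R} with hΩ
      have hΩo : IsOpen Ω := (isOpen_lt continuous_const continuous_norm).inter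
        (isOpen_lt continuous_norm continuous_const)
      have hΩc : closure Ω ⊆ {z | 1 ≤ ‖z‖ ∧ ‖z‖ ≤ R} := by
        apply closure_minimal
        · intro z hz; exact ⟨hz.1.le, hz.2.le⟩
        · exact (isClosed_le continuous_const continuous_norm).inter
            (isClosed_le continuous_norm continuous_const)
      have hΩb : Bornology.IsBounded Ω := by
        apply (isBounded_ball (x := (0:ℂ)) (r := R)).subset
        intro z hz
        rw [mem_ball_zero_iff]; exact hz.2
      have hne : ∀ z : ℂ, 1 ≤ ‖z‖ → z ≠ 0 := by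
        rintro z hz rfl
        rw [norm_zero] at hz
        linarith
      have key := lsub_max hΩb hΩo (f := fun z => f z - (m + b * Real.log (‖z‖ ^ 2))) (M := 0)
        ?_ ?_ ?_ w ⟨h1, hRw⟩
      · have : b * Real.log (‖w‖ ^ 2) = ε := by rw [hb]; field_simp
        linarith
      · apply hf.continuousOn.sub
        apply continuousOn_const.add (continuousOn_const.mul _)
        exact continuousOn_log_norm.mono (fun z hz => hne z (hΩc hz).1)
      · intro z hz
        exact LSub.sub_log (hne z hz.1.le) hf.continuousOn (hs z) m b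
      · intro z hz
        have hzc := hΩc hz.1
        have hz2 : z ∉ Ω := by
          have := hz.2
          rw [hΩo.interior_eq] at this
          exact this
        rcases hzc.1.eq_or_lt with h5 | h5
        · have := hcirc z h5.symm
          have h6 : Real.log (‖z‖ ^ 2) = 0 := by rw [← h5]; simp
          rw [h6]
          linarith
        · have h6 : ‖z‖ = R := by
            by_contra h7
            exact hz2 ⟨h5, lt_of_le_of_ne hzc.2 h7⟩
          rw [h6]
          linarith [hM z]
  -- connectedness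
  have hcl : IsClosed {z | f z = m} := isClosed_eq hf continuous_const
  have hop : IsOpen {z | f z = m} := by
    rw [isOpen_iff_mem_nhds]
    intro z hz
    exact lsub_eq_of_max hf (hs z) hall hz
  have huniv : {z | f z = m} = univ := by
    rcases isClopen_iff.1 ⟨hcl, hop⟩ with h1 | h1
    · exfalso
      have : z₁ ∈ {z | f z = m} := rfl
      rw [h1] at this
      exact this
    · exact h1
  intro z w
  have h1 : z ∈ {z | f z = m} := by rw [huniv]; trivial
  have h2 : w ∈ {z | f z = m} := by rw [huniv]; trivial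
  rw [mem_ofPred_eq] at h1 h2
  rw [h1, h2]

/-- A4. a radial function on the punctured plane with the local submean property is a convex
function of `log (‖z‖ ^ 2)` -/
theorem lsub_radial_convex {f : ℂ → ℝ} {G : ℝ → ℝ} (hG : Continuous G)
    (hfG : ∀ z : ℂ, z ≠ 0 → f z = G (Real.log (‖z‖ ^ 2))) (hs : ∀ z : ℂ, z ≠ 0 → LSub f z) :
    ConvexOn ℝ univ G := by
  have hfc : ContinuousOn f {w | w ≠ 0} := by
    apply (hG.comp_continuousOn continuousOn_log_norm).congr
    intro w hw
    exact hfG w hw
  apply LinearOrder.convexOn_of_lt convex_univ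
  intro x _ y _ hxy p q hp hq hpq
  -- the affine function
  set b : ℝ := (G y - G x) / (y - x) with hb
  set a : ℝ := G x - b * x with ha
  have hyx : 0 < y - x := by linarith
  have hax : a + b * x = G x := by rw [ha]; ring
  have hay : a + b * y = G y := by
    have : b * (y - x) = G y - G x := by rw [hb]; field_simp
    rw [ha]; linarith
  set Ω : Set ℂ := {z | Real.exp x < ‖z‖ ^ 2 ∧ ‖z‖ ^ 2 < Real.exp y} with hΩ
  have hc2 : Continuous (fun z : ℂ => ‖z‖ ^ 2) := continuous_norm.pow 2
  have hΩo : IsOpen Ω := (isOpen_lt continuous_const hc2).inter (isOpen_lt hc2 continuous_const)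
  have hΩc : closure Ω ⊆ {z | Real.exp x ≤ ‖z‖ ^ 2 ∧ ‖z‖ ^ 2 ≤ Real.exp y} := by
    apply closure_minimal
    · intro z hz; exact ⟨hz.1.le, hz.2.le⟩
    · exact (isClosed_le continuous_const hc2).inter (isClosed_le hc2 continuous_const)
  have hΩb : Bornology.IsBounded Ω := by
    apply (isBounded_ball (x := (0:ℂ)) (r := Real.exp y + 1)).subset
    intro z hz
    rw [mem_ball_zero_iff]
    have h1 := hz.2
    have h2 := Real.exp_pos y
    nlinarith [sq_nonneg (‖z‖ - 1), norm_nonneg z]
  have hne : ∀ z : ℂ, Real.exp x ≤ ‖z‖ ^ 2 → z ≠ 0 := by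
    rintro z hz rfl
    rw [norm_zero] at hz
    have := Real.exp_pos x
    simp at hz
    linarith
  set t : ℝ := p * x + q * y with ht
  have htx : x < t := by
    have h1 : t - x = q * (y - x) := by
      rw [ht, eq_sub_iff_add_eq.2 hpq]; ring
    have h2 := mul_pos hq hyx
    linarith
  have hty : t < y := by
    have h1 : y - t = p * (y - x) := by
      rw [ht, eq_sub_iff_add_eq'.2 hpq]; ring
    have h2 := mul_pos hp hyx
    linarith
  have hnt : ‖((Real.exp (t / 2) : ℝ) : ℂ)‖ ^ 2 = Real.exp t := by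
    rw [Complex.norm_real, Real.norm_of_nonneg (Real.exp_pos _).le, ← Real.exp_nat_mul]
    congr 1
    push_cast
    ring
  have key := lsub_max hΩb hΩo (f := fun z => f z - (a + b * Real.log (‖z‖ ^ 2))) (M := 0)
    ?_ ?_ ?_ ((Real.exp (t / 2) : ℝ) : ℂ) (by
      rw [hΩ, mem_ofPred_eq, hnt]
      exact ⟨Real.exp_lt_exp.2 htx, Real.exp_lt_exp.2 hty⟩)
  · rw [hfG _ (by
      intro h
      rw [h] at hnt
      simp at hnt
      exact absurd hnt.symm (Real.exp_pos t).ne'), hnt, Real.log_exp] at key
    simp only [smul_eq_mul]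
    have h1 : a + b * t = p * G x + q * G y := by
      rw [← hax, ← hay, ht]
      have : a = (p + q) * a := by rw [hpq, one_mul]
      nlinarith
    linarith
  · apply (hfc.mono (fun z hz => hne z (hΩc hz).1)).sub
    apply continuousOn_const.add (continuousOn_const.mul _)
    exact continuousOn_log_norm.mono (fun z hz => hne z (hΩc hz).1)
  · intro z hz
    exact LSub.sub_log (hne z hz.1.le) hfc (hs z (hne z hz.1.le)) a b
  · intro z hz
    have hzc := hΩc hz.1
    have hz0 := hne z hzc.1
    have hz2 : z ∉ Ω := by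
      have := hz.2
      rw [hΩo.interior_eq] at this
      exact this
    rw [hfG z hz0]
    rcases hzc.1.eq_or_lt with h5 | h5
    · rw [← h5, Real.log_exp]
      linarith
    · have h6 : ‖z‖ ^ 2 = Real.exp y := by
        by_contra h7
        exact hz2 ⟨h5, lt_of_le_of_ne hzc.2 h7⟩
      rw [h6, Real.log_exp]
      linarith

end RG
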