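import Pool.Agent.H14.RG.PshDefs
import Pool.Agent.H14.RG.Sub

/-!
# Module B1: basic toolkit for `PshE`
-/

open scoped Topology
open Set Metric

namespace RG

variable {V W : Type} [NormedAddCommGroup V] [NormedSpace ℂ V]
  [NormedAddCommGroup W] [NormedSpace ℂ W]

/-! ## Auxiliary lemmas on circle averages -/

theorem disc_cont {f : V → ℝ} {U : Set V} (hf : ContinuousOn f U) {γ : ℂ → V} {c : ℂ} {R : ℝ}
    (hγ : AnalyticOnNhd ℂ γ (closedBall c R)) (hm : MapsTo γ (closedBall c R) U) :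
    ContinuousOn (fun ζ => f (γ ζ)) (closedBall c R) :=
  hf.comp hγ.continuousOn hm

theorem disc_ci {f : V → ℝ} {U : Set V} (hf : ContinuousOn f U) {γ : ℂ → V} {c : ℂ} {R : ℝ}
    (hR : 0 < R) (hγ : AnalyticOnNhd ℂ γ (closedBall c R)) (hm : MapsTo γ (closedBall c R) U) :
    CircleIntegrable (fun ζ => f (γ ζ)) c R :=
  ContinuousOn.circleIntegrable hR.le ((disc_cont hf hγ hm).mono sphere_subset_closedBall)

theorem avg_congr {f g : ℂ → ℝ} {c : ℂ} {R : ℝ} (hR : 0 < R) (h : ∀ z ∈ sphere c R, f z = g z) :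
    Real.circleAverage f c R = Real.circleAverage g c R := by
  apply Real.circleAverage_congr_sphere
  rw [abs_of_pos hR]
  exact h

theorem avg_mono {f g : ℂ → ℝ} {c : ℂ} {R : ℝ} (hR : 0 < R) (hf : CircleIntegrable f c R)
    (hg : CircleIntegrable g c R) (h : ∀ z ∈ sphere c R, f z ≤ g z) :
    Real.circleAverage f c R ≤ Real.circleAverage g c R := by
  apply Real.circleAverage_mono hf hg
  rw [abs_of_pos hR]
  exact h

/-- Jensen inequality on circles -/
theorem avg_jensen {E : Type} [NormedAddCommGroup E] [NormedSpace ℝ E] [FiniteDimensional ℝ E]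
    {φ : E → ℝ} (hφ : ConvexOn ℝ univ φ) {F : ℂ → E} {c : ℂ} {R : ℝ} (hR : 0 < R)
    (hF : ContinuousOn F (sphere c R)) :
    φ (Real.circleAverage F c R) ≤ Real.circleAverage (fun z => φ (F z)) c R := by
  have hc : Continuous φ := by
    have := hφ.continuousOn isOpen_univ
    rwa [continuousOn_univ] at this
  have hi : CircleIntegrable F c R := ContinuousOn.circleIntegrable hR.le hF
  have hi' : CircleIntegrable (fun z => φ (F z)) c R :=
    ContinuousOn.circleIntegrable hR.le (hc.comp_continuousOn hF)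
  haveI : CompleteSpace E := FiniteDimensional.complete ℝ E
  rw [Real.circleAverage_eq_intervalAverage, Real.circleAverage_eq_intervalAverage]
  have hpi : (0 : ℝ) ≤ 2 * Real.pi := by positivity
  apply hφ.map_set_average_le hc.continuousOn isClosed_univ
  · rw [uIoc_of_le hpi, Real.volume_Ioc]
    simp [Real.pi_pos]
  · rw [uIoc_of_le hpi, Real.volume_Ioc]
    exact ENNReal.ofReal_ne_top
  · exact Filter.Eventually.of_forall fun _ => mem_univ _
  · exact (intervalIntegrable_iff.1 hi)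
  · exact (intervalIntegrable_iff.1 hi')

theorem avg_pair {f g : ℂ → ℝ} {c : ℂ} {R : ℝ} (hf : CircleIntegrable f c R)
    (hg : CircleIntegrable g c R) :
    Real.circleAverage (fun z => (f z, g z)) c R =
      (Real.circleAverage f c R, Real.circleAverage g c R) := by
  have hi : CircleIntegrable (fun z => (f z, g z)) c R := by
    unfold CircleIntegrable at hf hg ⊢
    rw [intervalIntegrable_iff] at hf hg ⊢
    exact MeasureTheory.Integrable.prodMk hf hg
  refine Prod.ext ?_ ?_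
  · exact ((ContinuousLinearMap.fst ℝ ℝ ℝ).circleAverage_comp_comm hi).symm
  · exact ((ContinuousLinearMap.snd ℝ ℝ ℝ).circleAverage_comp_comm hi).symm

/-- a disc around an analytic germ -/
theorem exists_disc {U : Set V} (hU : IsOpen U) {γ : ℂ → V} {c : ℂ}
    (hγ : ∀ᶠ ζ in 𝓝 c, AnalyticAt ℂ γ ζ)
    (hc : γ c ∈ U) : ∃ ρ > 0, ∀ r, 0 < r → r < ρ →
      AnalyticOnNhd ℂ γ (closedBall c r) ∧ MapsTo γ (closedBall c r) U := by
  have h1 : ∀ᶠ ζ in 𝓝 c, AnalyticAt ℂ γ ζ ∧ γ ζ ∈ U :=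
    hγ.and (hγ.self_of_nhds.continuousAt.eventually (hU.mem_nhds hc))
  obtain ⟨ρ, hρ, h⟩ := Metric.eventually_nhds_iff_ball.1 h1
  refine ⟨ρ, hρ, fun r _ hr => ⟨fun ζ hζ => (h ζ ?_).1, fun ζ hζ => (h ζ ?_).2⟩⟩
  · exact closedBall_subset_ball hr hζ
  · exact closedBall_subset_ball hr hζ

/-! ## Toolkit -/

theorem PshE.mono {f : V → ℝ} {U U' : Set V} (hf : PshE f U) (h : U' ⊆ U) : PshE f U' :=
  ⟨hf.1.mono h, fun γ c R hR hγ hm => hf.2 γ c R hR hγ (hm.mono_right h)⟩

theorem PshE.congr {f g : V → ℝ} {U : Set V} (hf : PshE f U) (h : EqOn g f U) : PshE g U := by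
  refine ⟨hf.1.congr h, fun γ c R hR hγ hm => ?_⟩
  rw [h (hm (mem_closedBall_self hR.le)),
    avg_congr hR (fun z hz => h (hm (sphere_subset_closedBall hz)))]
  exact hf.2 γ c R hR hγ hm

/-- from the local submean property along analytic germs -/
theorem PshE.of_lsub' {f : V → ℝ} {U : Set V} (hc : ContinuousOn f U)
    (h : ∀ (γ : ℂ → V) (c : ℂ), (∀ᶠ ζ in 𝓝 c, AnalyticAt ℂ γ ζ) → γ c ∈ U →
      LSub (fun ζ => f (γ ζ)) c) :
    PshE f U := by
  refine ⟨hc, fun γ c R hR hγ hm => ?_⟩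
  exact lsub_disc hR (disc_cont hc hγ hm) fun z hz =>
    h γ z (Filter.mem_of_superset (isOpen_ball.mem_nhds hz)
      fun w hw => hγ w (ball_subset_closedBall hw)) (hm (ball_subset_closedBall hz))

/-- from the local submean property along analytic germs -/
theorem PshE.of_lsub {f : V → ℝ} {U : Set V} (hU : IsOpen U) (hc : ContinuousOn f U)
    (h : ∀ (γ : ℂ → V) (c : ℂ), AnalyticAt ℂ γ c → γ c ∈ U → LSub (fun ζ => f (γ ζ)) c) :
    PshE f U := by
  refine ⟨hc, fun γ c R hR hγ hm => ?_⟩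
  exact lsub_disc hR (disc_cont hc hγ hm) fun z hz =>
    h γ z (hγ z (ball_subset_closedBall hz)) (hm (ball_subset_closedBall hz))

theorem PshE.lsub' {f : V → ℝ} {U : Set V} (hU : IsOpen U) (hf : PshE f U)
    {γ : ℂ → V} {c : ℂ} (hγ : ∀ᶠ ζ in 𝓝 c, AnalyticAt ℂ γ ζ) (hc : γ c ∈ U) :
    LSub (fun ζ => f (γ ζ)) c := by
  obtain ⟨ρ, hρ, h⟩ := exists_disc hU hγ hc
  exact ⟨ρ, hρ, fun r h0 hr => hf.2 γ c r h0 (h r h0 hr).1 (h r h0 hr).2⟩

theorem PshE.lsub [CompleteSpace V] {f : V → ℝ} {U : Set V} (hU : IsOpen U) (hf : PshE f U)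
    {γ : ℂ → V} {c : ℂ} (hγ : AnalyticAt ℂ γ c) (hc : γ c ∈ U) :
    LSub (fun ζ => f (γ ζ)) c :=
  hf.lsub' hU hγ.eventually_analyticAt hc

/-- locality -/
theorem PshE.of_local {f : V → ℝ} {U : Set V} (hU : IsOpen U)
    (h : ∀ x ∈ U, ∃ W : Set V, IsOpen W ∧ x ∈ W ∧ PshE f W) : PshE f U := by
  apply PshE.of_lsub'
  · intro x hx
    obtain ⟨W, hW, hxW, hf⟩ := h x hx
    exact (hf.1.continuousAt (hW.mem_nhds hxW)).continuousWithinAt
  · intro γ c hγ hc
    obtain ⟨W, hW, hxW, hf⟩ := h _ hc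
    exact hf.lsub' hW hγ hxW

theorem PshE.comp_analytic {f : V → ℝ} {U : Set V} (hf : PshE f U) {g : W → V} {U' : Set W}
    (hg : AnalyticOnNhd ℂ g U') (hm : MapsTo g U' U) : PshE (fun x => f (g x)) U' := by
  refine ⟨hf.1.comp hg.continuousOn hm, fun γ c R hR hγ hm' => ?_⟩
  exact hf.2 (fun ζ => g (γ ζ)) c R hR (hg.comp hγ hm') (hm.comp hm')

theorem PshE.const (a : ℝ) (U : Set V) : PshE (fun _ => a) U := by
  refine ⟨continuousOn_const, fun γ c R hR hγ hm => ?_⟩
  rw [Real.circleAverage_const]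

theorem PshE.add {f g : V → ℝ} {U : Set V} (hf : PshE f U) (hg : PshE g U) :
    PshE (fun x => f x + g x) U := by
  refine ⟨hf.1.add hg.1, fun γ c R hR hγ hm => ?_⟩
  have h1 := hf.2 γ c R hR hγ hm
  have h2 := hg.2 γ c R hR hγ hm
  have := Real.circleAverage_fun_add (disc_ci hf.1 hR hγ hm) (disc_ci hg.1 hR hγ hm)
  rw [this]
  linarith

theorem PshE.add_const {f : V → ℝ} {U : Set V} (hf : PshE f U) (a : ℝ) :
    PshE (fun x => f x + a) U := hf.add (PshE.const a U)

theorem PshE.mul_const {f : V → ℝ} {U : Set V} (hf : PshE f U) {a : ℝ} (ha : 0 ≤ a) :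
    PshE (fun x => a * f x) U := by
  refine ⟨continuousOn_const.mul hf.1, fun γ c R hR hγ hm => ?_⟩
  have h1 := hf.2 γ c R hR hγ hm
  have : Real.circleAverage (fun ζ => a * f (γ ζ)) c R =
      a * Real.circleAverage (fun ζ => f (γ ζ)) c R :=
    Real.circleAverage_fun_smul (a := a) (f := fun ζ => f (γ ζ))
  rw [this]
  exact mul_le_mul_of_nonneg_left h1 ha

theorem PshE.max {f g : V → ℝ} {U : Set V} (hf : PshE f U) (hg : PshE g U) :
    PshE (fun x => Max.max (f x) (g x)) U := by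
  have hc : ContinuousOn (fun x => Max.max (f x) (g x)) U := ContinuousOn.sup hf.1 hg.1
  refine ⟨hc, fun γ c R hR hγ hm => ?_⟩
  apply max_le
  · exact (hf.2 γ c R hR hγ hm).trans (avg_mono hR (disc_ci hf.1 hR hγ hm)
      (disc_ci hc hR hγ hm) fun z _ => le_max_left _ _)
  · exact (hg.2 γ c R hR hγ hm).trans (avg_mono hR (disc_ci hg.1 hR hγ hm)
      (disc_ci hc hR hγ hm) fun z _ => le_max_right _ _)

/-- convex nondecreasing function of a psh function -/
theorem PshE.convex_comp {f : V → ℝ} {U : Set V} (hf : PshE f U) {φ : ℝ → ℝ}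
    (hφ : ConvexOn ℝ univ φ) (hm : Monotone φ) : PshE (fun x => φ (f x)) U := by
  have hc : Continuous φ := by
    have := hφ.continuousOn isOpen_univ
    rwa [continuousOn_univ] at this
  refine ⟨hc.comp_continuousOn hf.1, fun γ c R hR hγ hm' => ?_⟩
  exact (hm (hf.2 γ c R hR hγ hm')).trans
    (avg_jensen hφ hR ((disc_cont hf.1 hγ hm').mono sphere_subset_closedBall))

/-- convex function of two psh functions, nondecreasing in both -/
theorem PshE.convex_comp₂ {f g : V → ℝ} {U : Set V} (hf : PshE f U) (hg : PshE g U)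
    {φ : ℝ × ℝ → ℝ} (hφ : ConvexOn ℝ univ φ) (hm : Monotone φ) :
    PshE (fun x => φ (f x, g x)) U := by
  have hc : Continuous φ := by
    have := hφ.continuousOn isOpen_univ
    rwa [continuousOn_univ] at this
  refine ⟨hc.comp_continuousOn (hf.1.prodMk hg.1), fun γ c R hR hγ hm' => ?_⟩
  have h1 := avg_jensen hφ hR (F := fun ζ => (f (γ ζ), g (γ ζ)))
    (((disc_cont hf.1 hγ hm').prodMk (disc_cont hg.1 hγ hm')).mono sphere_subset_closedBall)
  rw [avg_pair (disc_ci hf.1 hR hγ hm') (disc_ci hg.1 hR hγ hm')] at h1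
  exact (hm (Prod.mk_le_mk.2 ⟨hf.2 γ c R hR hγ hm', hg.2 γ c R hR hγ hm'⟩)).trans h1

theorem lse_convex :
    ConvexOn ℝ univ (fun p : ℝ × ℝ => Real.log (Real.exp p.1 + Real.exp p.2)) := by
  refine ⟨convex_univ, ?_⟩
  rintro ⟨a1, b1⟩ - ⟨a2, b2⟩ - s t hs ht hst
  simp only [Prod.fst_add, Prod.snd_add, Prod.smul_fst, Prod.smul_snd, smul_eq_mul]
  set A := Real.log (Real.exp a1 + Real.exp b1) with hA
  set B := Real.log (Real.exp a2 + Real.exp b2) with hB
  have eA : Real.exp A = Real.exp a1 + Real.exp b1 := Real.exp_log (by positivity)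
  have eB : Real.exp B = Real.exp a2 + Real.exp b2 := Real.exp_log (by positivity)
  rw [Real.log_le_iff_le_exp (by positivity)]
  have key : ∀ x y : ℝ, Real.exp (s * x + t * y) ≤
      Real.exp (s * A + t * B) * (s * (Real.exp x / Real.exp A) + t * (Real.exp y / Real.exp B)) := by
    intro x y
    have h := convexOn_exp.2 (mem_univ (x - A)) (mem_univ (y - B)) hs ht hst
    simp only [smul_eq_mul] at h
    rw [Real.exp_sub, Real.exp_sub] at h
    calc Real.exp (s * x + t * y) = Real.exp (s * A + t * B) *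
          Real.exp (s * (x - A) + t * (y - B)) := by rw [← Real.exp_add]; congr 1; ring
      _ ≤ _ := mul_le_mul_of_nonneg_left h (Real.exp_pos _).le
  have h1 := key a1 a2
  have h2 := key b1 b2
  have e3 : s * (Real.exp a1 / Real.exp A) + t * (Real.exp a2 / Real.exp B) +
      (s * (Real.exp b1 / Real.exp A) + t * (Real.exp b2 / Real.exp B)) = 1 := by
    have eA' : Real.exp a1 / Real.exp A + Real.exp b1 / Real.exp A = 1 := by
      rw [← add_div, ← eA, div_self (Real.exp_ne_zero _)]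
    have eB' : Real.exp a2 / Real.exp B + Real.exp b2 / Real.exp B = 1 := by
      rw [← add_div, ← eB, div_self (Real.exp_ne_zero _)]
    linear_combination s * eA' + t * eB' + hst
  calc _ ≤ Real.exp (s * A + t * B) * (s * (Real.exp a1 / Real.exp A) +
        t * (Real.exp a2 / Real.exp B)) + Real.exp (s * A + t * B) *
        (s * (Real.exp b1 / Real.exp A) + t * (Real.exp b2 / Real.exp B)) := add_le_add h1 h2
    _ = Real.exp (s * A + t * B) := by rw [← mul_add, e3, mul_one]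

/-- log-sum-exp -/
theorem PshE.lse {f g : V → ℝ} {U : Set V} (hf : PshE f U) (hg : PshE g U) :
    PshE (fun x => Real.log (Real.exp (f x) + Real.exp (g x))) U := by
  refine hf.convex_comp₂ hg lse_convex ?_
  rintro ⟨a1, b1⟩ ⟨a2, b2⟩ h
  rw [Prod.mk_le_mk] at h
  exact Real.log_le_log (by positivity)
    (add_le_add (Real.exp_le_exp.2 h.1) (Real.exp_le_exp.2 h.2))

/-- limits, uniform on compact sets -/
theorem PshE.limit {f : ℕ → V → ℝ} {g : V → ℝ} {U : Set V} (hf : ∀ n, PshE (f n) U)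
    (h : ∀ K ⊆ U, IsCompact K → TendstoUniformlyOn f g Filter.atTop K) (hg : ContinuousOn g U) :
    PshE g U := by
  refine ⟨hg, fun γ c R hR hγ hm => ?_⟩
  have hK : IsCompact (γ '' closedBall c R) :=
    (isCompact_closedBall c R).image_of_continuousOn hγ.continuousOn
  have hu := h _ (image_subset_iff.2 hm) hK
  refine le_of_forall_pos_le_add fun ε hε => ?_
  rw [Metric.tendstoUniformlyOn_iff] at hu
  obtain ⟨n, hn⟩ := (hu (ε / 2) (by positivity)).exists
  have hd : ∀ ζ ∈ closedBall c R, |g (γ ζ) - f n (γ ζ)| < ε / 2 := fun ζ hζ =>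
    hn _ (mem_image_of_mem γ hζ)
  have h1 := (hf n).2 γ c R hR hγ hm
  have h2 : Real.circleAverage (fun ζ => f n (γ ζ)) c R ≤
      Real.circleAverage (fun ζ => g (γ ζ) + ε / 2) c R := by
    apply avg_mono hR (disc_ci (hf n).1 hR hγ hm)
    · exact (disc_ci hg hR hγ hm).add (circleIntegrable_const _ _ _)
    · intro z hz
      have := abs_lt.1 (hd z (sphere_subset_closedBall hz))
      linarith [this.1]
  rw [Real.circleAverage_fun_add (disc_ci hg hR hγ hm) (circleIntegrable_const _ _ _),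
    Real.circleAverage_const] at h2
  have h3 := abs_lt.1 (hd c (mem_closedBall_self hR.le))
  linarith [h3.2]

/-- pluriharmonic: `a * log ‖h‖`, any real `a` -/
theorem PshE.log_norm {h : V → ℂ} {U : Set V} (hh : AnalyticOnNhd ℂ h U) (h0 : ∀ x ∈ U, h x ≠ 0)
    (a : ℝ) : PshE (fun x => a * Real.log ‖h x‖) U := by
  refine ⟨continuousOn_const.mul (hh.continuousOn.norm.log fun x hx => norm_ne_zero_iff.2 (h0 x hx)),
    fun γ c R hR hγ hm => ?_⟩
  have hc := hh.comp hγ hm
  have h1 : InnerProductSpace.HarmonicOnNhd (fun ζ => Real.log ‖(h ∘ γ) ζ‖)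
      (closedBall c |R|) := by
    rw [abs_of_pos hR]
    exact fun z hz => (hc z hz).harmonicAt_log_norm (h0 _ (hm hz))
  have h2 := InnerProductSpace.HarmonicOnNhd.circleAverage_eq h1
  have h3 : Real.circleAverage (fun ζ => a * Real.log ‖h (γ ζ)‖) c R =
      a * Real.circleAverage (fun ζ => Real.log ‖(h ∘ γ) ζ‖) c R :=
    Real.circleAverage_fun_smul (a := a) (f := fun ζ => Real.log ‖h (γ ζ)‖)
  rw [h3, h2]
  rfl

/-- pluriharmonic: `Re h` -/
theorem PshE.re {h : V → ℂ} {U : Set V} (hh : AnalyticOnNhd ℂ h U) :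
    PshE (fun x => (h x).re) U := by
  refine ⟨Complex.continuous_re.comp_continuousOn hh.continuousOn, fun γ c R hR hγ hm => ?_⟩
  have hc := hh.comp hγ hm
  have h1 : InnerProductSpace.HarmonicOnNhd (fun ζ => ((h ∘ γ) ζ).re)
      (closedBall c |R|) := by
    rw [abs_of_pos hR]
    exact fun z hz => (hc z hz).harmonicAt_re
  have h2 := InnerProductSpace.HarmonicOnNhd.circleAverage_eq h1
  exact h2.symm.le

/-- convex function of a pluriharmonic function -/
theorem PshE.convex_ph {f : V → ℝ} {U : Set V} (hf : PshE f U) (hf' : PshE (fun x => - f x) U)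
    {φ : ℝ → ℝ} (hφ : ConvexOn ℝ univ φ) : PshE (fun x => φ (f x)) U := by
  have hc : Continuous φ := by
    have := hφ.continuousOn isOpen_univ
    rwa [continuousOn_univ] at this
  refine ⟨hc.comp_continuousOn hf.1, fun γ c R hR hγ hm' => ?_⟩
  have h1 := hf.2 γ c R hR hγ hm'
  have h2 := hf'.2 γ c R hR hγ hm'
  have h3 : Real.circleAverage (fun ζ => - f (γ ζ)) c R =
      - Real.circleAverage (fun ζ => f (γ ζ)) c R := by
    have := Real.circleAverage_fun_smul (a := (-1 : ℝ)) (f := fun ζ => f (γ ζ)) (c := c) (R := R)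
    simpa using this
  rw [h3] at h2
  have h4 : f (γ c) = Real.circleAverage (fun ζ => f (γ ζ)) c R := by
    simp only at h2
    linarith
  show φ (f (γ c)) ≤ _
  rw [h4]
  exact avg_jensen hφ hR ((disc_cont hf.1 hγ hm').mono sphere_subset_closedBall)

/-- `(log ‖h‖) ^ 2` -/
theorem PshE.log_norm_sq {h : V → ℂ} {U : Set V} (hh : AnalyticOnNhd ℂ h U)
    (h0 : ∀ x ∈ U, h x ≠ 0) : PshE (fun x => Real.log ‖h x‖ ^ 2) U := by
  have h1 := PshE.log_norm hh h0 1
  have h2 := PshE.log_norm hh h0 (-1)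
  have h3 : ConvexOn ℝ univ (fun t : ℝ => t ^ 2) := Even.convexOn_pow (by decide)
  refine PshE.convex_ph (φ := fun t : ℝ => t ^ 2) (h1.congr fun x _ => by simp)
    (h2.congr fun x _ => by simp) h3

/-- uniform closeness along a compact set -/
theorem near_compact {f : V → ℝ} {U K : Set V} (hU : IsOpen U) (hc : ContinuousOn f U)
    (hK : IsCompact K) (hKU : K ⊆ U) {ε : ℝ} (hε : 0 < ε) :
    ∃ δ > 0, ∀ x ∈ K, ∀ v : V, ‖v‖ < δ → x + v ∈ U ∧ |f (x + v) - f x| < ε := by
  have h1 := hK.uniformContinuousAt_of_continuousAt f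
    (fun a ha => hc.continuousAt (hU.mem_nhds (hKU ha))) (Metric.dist_mem_uniformity hε)
  obtain ⟨δ1, hδ1, h1⟩ := Metric.mem_uniformity_dist.1 h1
  obtain ⟨δ2, hδ2, h2⟩ := hK.exists_thickening_subset_open hU hKU
  refine ⟨min δ1 δ2, lt_min hδ1 hδ2, fun x hx v hv => ⟨?_, ?_⟩⟩
  · apply h2
    rw [Metric.mem_thickening_iff]
    exact ⟨x, hx, by
      rw [dist_eq_norm, add_sub_cancel_left]
      exact lt_of_lt_of_le hv (min_le_right _ _)⟩
  · have h3 : dist x (x + v) < δ1 := by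
      rw [dist_comm, dist_eq_norm, add_sub_cancel_left]
      exact lt_of_lt_of_le hv (min_le_left _ _)
    have h4 := h1 h3 hx
    rw [abs_sub_comm]
    exact h4

/-- removable point: a continuous function which is psh off a point is psh, if every analytic
germ can be moved off the point, i.e. in a space with two independent directions -/
theorem PshE.removable {f : V → ℝ} {U : Set V} (hU : IsOpen U) (hc : ContinuousOn f U)
    {A : Set V} (hA : IsClosed A) (hf : PshE f (U \ A))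
    (hmove : ∀ (γ : ℂ → V) (c : ℂ) (R : ℝ), 0 < R → AnalyticOnNhd ℂ γ (closedBall c R) →
      MapsTo γ (closedBall c R) U → ∀ ε > 0, ∃ v : V, ‖v‖ < ε ∧
        ∀ ζ ∈ closedBall c R, γ ζ + v ∉ A) :
    PshE f U := by
  refine ⟨hc, fun γ c R hR hγ hm => ?_⟩
  have hK : IsCompact (γ '' closedBall c R) :=
    (isCompact_closedBall c R).image_of_continuousOn hγ.continuousOn
  refine le_of_forall_pos_le_add fun ε hε => ?_
  obtain ⟨δ, hδ, h1⟩ := near_compact hU hc hK (image_subset_iff.2 hm) (half_pos hε)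
  obtain ⟨v, hv, h2⟩ := hmove γ c R hR hγ hm δ hδ
  have hγ' : AnalyticOnNhd ℂ (fun ζ => γ ζ + v) (closedBall c R) :=
    fun z hz => (hγ z hz).add analyticAt_const
  have hm' : MapsTo (fun ζ => γ ζ + v) (closedBall c R) (U \ A) :=
    fun z hz => ⟨(h1 _ (mem_image_of_mem γ hz) v hv).1, h2 z hz⟩
  have h3 := hf.2 _ c R hR hγ' hm'
  have hd : ∀ ζ ∈ closedBall c R, |f (γ ζ + v) - f (γ ζ)| < ε / 2 := fun ζ hζ =>
    (h1 _ (mem_image_of_mem γ hζ) v hv).2
  have h4 : Real.circleAverage (fun ζ => f (γ ζ + v)) c R ≤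
      Real.circleAverage (fun ζ => f (γ ζ) + ε / 2) c R := by
    apply avg_mono hR (disc_ci hf.1 hR hγ' hm')
    · exact (disc_ci hc hR hγ hm).add (circleIntegrable_const _ _ _)
    · intro z hz
      have := abs_lt.1 (hd z (sphere_subset_closedBall hz))
      linarith [this.2]
  rw [Real.circleAverage_fun_add (disc_ci hc hR hγ hm) (circleIntegrable_const _ _ _),
    Real.circleAverage_const] at h4
  have h5 := abs_lt.1 (hd c (mem_closedBall_self hR.le))
  linarith [h5.1]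

/-- gluing by maxima -/
theorem PshE.glue {κ : Type} [Finite κ] {R : κ → Set V} {f : κ → V → ℝ} {F : V → ℝ} {U : Set V}
    (hU : IsOpen U) (hR : ∀ i, IsOpen (R i)) (hf : ∀ i, PshE (f i) (R i ∩ U))
    (hF : ∀ x ∈ U, ∃ i, x ∈ R i ∧ F x = f i x)
    (hF' : ∀ x ∈ U, ∀ i, x ∈ R i → f i x ≤ F x)
    (hb : ∀ x ∈ U, ∀ i, x ∉ R i → ∃ j, x ∈ R j ∧ ∀ᶠ y in 𝓝 x, y ∈ R i → f i y ≤ f j y) :
    PshE F U := by
  have hfc : ∀ x ∈ U, ∀ i, x ∈ R i → ContinuousAt (f i) x := fun x hx i hi =>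
    (hf i).1.continuousAt (((hR i).inter hU).mem_nhds ⟨hi, hx⟩)
  have hc : ∀ x ∈ U, ContinuousAt F x := by
    intro x hx
    rw [Metric.continuousAt_iff']
    intro ε hε
    obtain ⟨i0, hi0, hFx⟩ := hF x hx
    have hup : ∀ i, x ∈ R i → ∀ᶠ y in 𝓝 x, f i y < F x + ε := by
      intro i hi
      have h1 : f i x < F x + ε := by linarith [hF' x hx i hi]
      exact (hfc x hx i hi).eventually (gt_mem_nhds h1)
    have hall : ∀ i, ∀ᶠ y in 𝓝 x, y ∈ R i → f i y < F x + ε := by
      intro i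
      by_cases hi : x ∈ R i
      · exact (hup i hi).mono fun y hy _ => hy
      · obtain ⟨j, hj, h1⟩ := hb x hx i hi
        filter_upwards [h1, hup j hj] with y h2 h3 h4
        exact (h2 h4).trans_lt h3
    have hlow : ∀ᶠ y in 𝓝 x, F x - ε < f i0 y := by
      have h1 : F x - ε < f i0 x := by rw [← hFx]; linarith
      exact (hfc x hx i0 hi0).eventually (lt_mem_nhds h1)
    filter_upwards [Filter.eventually_all.2 hall, hlow, (hR i0).mem_nhds hi0, hU.mem_nhds hx]
      with y h1 h2 h3 h4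
    obtain ⟨i, hi, h5⟩ := hF y h4
    rw [Real.dist_eq, abs_lt]
    constructor
    · linarith [hF' y h4 i0 h3]
    · rw [h5]; linarith [h1 i hi]
  have hcon : ContinuousOn F U := fun x hx => (hc x hx).continuousWithinAt
  apply PshE.of_lsub' hcon
  intro γ c hγ hγc
  obtain ⟨i0, hi0, hFx⟩ := hF _ hγc
  obtain ⟨ρ, hρ, h⟩ := exists_disc ((hR i0).inter hU) hγ ⟨hi0, hγc⟩
  refine ⟨ρ, hρ, fun r h0 hr => ?_⟩
  obtain ⟨h1, h2⟩ := h r h0 hr
  simp only
  rw [hFx]
  refine ((hf i0).2 γ c r h0 h1 h2).trans (avg_mono h0 (disc_ci (hf i0).1 h0 h1 h2)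
    (disc_ci hcon h0 h1 (h2.mono_right inter_subset_right)) fun z hz => ?_)
  have h3 := h2 (sphere_subset_closedBall hz)
  exact hF' _ h3.2 i0 h3.1

theorem PhAt.of_log_norm {h : V → ℂ} {x : V} (hh : AnalyticAt ℂ h x) (h0 : h x ≠ 0) (a : ℝ) :
    PhAt (fun y => a * Real.log ‖h y‖) x := by
  have h1 : ∀ᶠ y in 𝓝 x, AnalyticAt ℂ h y ∧ h y ≠ 0 :=
    hh.eventually_analyticAt.and (hh.continuousAt.eventually (isOpen_ne.mem_nhds h0))
  obtain ⟨W, hW, hWo, hx⟩ := _root_.eventually_nhds_iff.1 h1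
  refine ⟨W, hWo, hx, PshE.log_norm (fun y hy => (hW y hy).1) (fun y hy => (hW y hy).2) a, ?_⟩
  refine (PshE.log_norm (fun y hy => (hW y hy).1) (fun y hy => (hW y hy).2) (-a)).congr ?_
  intro y _
  simp

theorem PhAt.add {f g : V → ℝ} {x : V} (hf : PhAt f x) (hg : PhAt g x) :
    PhAt (fun y => f y + g y) x := by
  obtain ⟨W, hW, hx, h1, h2⟩ := hf
  obtain ⟨W', hW', hx', h1', h2'⟩ := hg
  refine ⟨W ∩ W', hW.inter hW', ⟨hx, hx'⟩,
    (h1.mono inter_subset_left).add (h1'.mono inter_subset_right), ?_⟩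
  refine ((h2.mono inter_subset_left).add (h2'.mono inter_subset_right)).congr ?_
  intro y _
  simp only
  ring

theorem PhAt.const (a : ℝ) (x : V) : PhAt (fun _ : V => a) x :=
  ⟨univ, isOpen_univ, mem_univ _, PshE.const _ _, PshE.const _ _⟩

theorem PhAt.neg {f : V → ℝ} {x : V} (hf : PhAt f x) : PhAt (fun y => - f y) x := by
  obtain ⟨W, hW, hx, h1, h2⟩ := hf
  exact ⟨W, hW, hx, h2, h1.congr fun y _ => by simp⟩

theorem PhAt.congr {f g : V → ℝ} {x : V} (hf : PhAt f x) (h : g =ᶠ[𝓝 x] f) : PhAt g x := by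
  obtain ⟨W, hW, hx, h1, h2⟩ := hf
  obtain ⟨W', hW', hWo', hx'⟩ := _root_.eventually_nhds_iff.1 h
  refine ⟨W ∩ W', hW.inter hWo', ⟨hx, hx'⟩, (h1.mono inter_subset_left).congr ?_,
    (h2.mono inter_subset_left).congr ?_⟩
  · exact fun y hy => hW' y hy.2
  · exact fun y hy => by
      show - g y = - f y
      rw [hW' y hy.2]

theorem PhAt.comp [CompleteSpace V] {f : V → ℝ} {g : W → V} {x : W} (hf : PhAt f (g x)) (hg : AnalyticAt ℂ g x) :
    PhAt (fun y => f (g y)) x := by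
  obtain ⟨O, hO, hx, h1, h2⟩ := hf
  have h3 : ∀ᶠ y in 𝓝 x, AnalyticAt ℂ g y ∧ g y ∈ O :=
    hg.eventually_analyticAt.and (hg.continuousAt.eventually (hO.mem_nhds hx))
  obtain ⟨O', hO', hOo, hx'⟩ := _root_.eventually_nhds_iff.1 h3
  exact ⟨O', hOo, hx', h1.comp_analytic (fun y hy => (hO' y hy).1) (fun y hy => (hO' y hy).2),
    h2.comp_analytic (fun y hy => (hO' y hy).1) (fun y hy => (hO' y hy).2)⟩

end RG
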