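import Pool.Agent.H14.RG.ParDefs
import Pool.Agent.H14.RG.Psh

/-!
# Module C1: manifolds given by parametrizations
-/

open scoped Topology Manifold ContDiff
open Set Metric

namespace RG

variable {E X : Type} [NormedAddCommGroup E] [NormedSpace ℂ E] [CompleteSpace E]
  [TopologicalSpace X]

namespace Par

omit [CompleteSpace E] in
theorem psi_inv (P : Par E X) {i : P.ι} {x : X} (hx : x ∈ P.ψ i '' P.U i) :
    P.ψ i (P.inv i x) = x := by
  obtain ⟨y, hy, rfl⟩ := hx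
  exact Function.invFunOn_eq ⟨y, hy, rfl⟩

omit [CompleteSpace E] in
theorem inv_mem (P : Par E X) {i : P.ι} {x : X} (hx : x ∈ P.ψ i '' P.U i) :
    P.inv i x ∈ P.U i := by
  obtain ⟨y, hy, rfl⟩ := hx
  exact Function.invFunOn_mem ⟨y, hy, rfl⟩

omit [CompleteSpace E] in
theorem inv_psi (P : Par E X) {i : P.ι} {y : E} (hy : y ∈ P.U i) :
    P.inv i (P.ψ i y) = y :=
  P.inj i (P.inv_mem ⟨y, hy, rfl⟩) hy (P.psi_inv ⟨y, hy, rfl⟩)

omit [CompleteSpace E] in
theorem isOpen_src (P : Par E X) (i : P.ι) : IsOpen (P.ψ i '' P.U i) :=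
  P.open_map i _ subset_rfl (P.isOpen_U i)

omit [CompleteSpace E] in
theorem continuousOn_inv (P : Par E X) (i : P.ι) : ContinuousOn (P.inv i) (P.ψ i '' P.U i) := by
  rw [continuousOn_open_iff (P.isOpen_src i)]
  intro t ht
  have h : P.ψ i '' P.U i ∩ P.inv i ⁻¹' t = P.ψ i '' (P.U i ∩ t) := by
    ext x
    constructor
    · rintro ⟨⟨y, hy, rfl⟩, hx⟩
      rw [mem_preimage, P.inv_psi hy] at hx
      exact ⟨y, ⟨hy, hx⟩, rfl⟩
    · rintro ⟨y, ⟨hy, hyt⟩, rfl⟩
      refine ⟨⟨y, hy, rfl⟩, ?_⟩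
      rw [mem_preimage, P.inv_psi hy]
      exact hyt
  rw [h]
  exact P.open_map i _ inter_subset_left ((P.isOpen_U i).inter ht)

/-- the charts -/
noncomputable def chart (P : Par E X) (i : P.ι) : OpenPartialHomeomorph X E where
  toFun := P.inv i
  invFun := P.ψ i
  source := P.ψ i '' P.U i
  target := P.U i
  map_source' := by
    rintro x ⟨y, hy, rfl⟩
    exact Function.invFunOn_mem ⟨y, hy, rfl⟩
  map_target' := fun y hy => ⟨y, hy, rfl⟩
  left_inv' := by
    rintro x ⟨y, hy, rfl⟩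
    exact Function.invFunOn_eq ⟨y, hy, rfl⟩
  right_inv' := by
    intro y hy
    exact P.inj i (Function.invFunOn_mem ⟨y, hy, rfl⟩) hy (Function.invFunOn_eq ⟨y, hy, rfl⟩)
  open_source := P.open_map i _ subset_rfl (P.isOpen_U i)
  open_target := P.isOpen_U i
  continuousOn_toFun := P.continuousOn_inv i
  continuousOn_invFun := P.cont i

/-- the charted space structure -/
@[reducible] noncomputable def chartedSpace (P : Par E X) : ChartedSpace E X where
  atlas := range P.chart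
  chartAt := fun x => P.chart (P.cover x).choose
  mem_chart_source := fun x => (P.cover x).choose_spec
  chart_mem_atlas := fun x => ⟨_, rfl⟩

omit [CompleteSpace E] in
/-- the transition maps are analytic -/
theorem analyticAt_trans (P : Par E X) {i j : P.ι} {y : E} (hy : y ∈ P.U i)
    (hj : P.ψ i y ∈ P.ψ j '' P.U j) : AnalyticAt ℂ (fun x => P.inv j (P.ψ i x)) y := by
  obtain ⟨y', hy', he⟩ := hj
  obtain ⟨h, ha, hh, hev⟩ := P.trans i j y y' hy hy' he.symm
  have hU : ∀ᶠ x in 𝓝 y, h x ∈ P.U j :=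
    ha.continuousAt.eventually (by rw [hh]; exact (P.isOpen_U j).mem_nhds hy')
  apply ha.congr
  filter_upwards [hU, hev] with x h1 h2
  rw [← h2, P.inv_psi h1]

theorem isManifold (P : Par E X) :
    letI := P.chartedSpace
    IsManifold 𝓘(ℂ, E) ω X := by
  let := P.chartedSpace
  apply isManifold_of_contDiffOn
  rintro e e' ⟨i, rfl⟩ ⟨j, rfl⟩
  intro y hy
  apply ContDiffAt.contDiffWithinAt
  have hy1 : y ∈ P.U i ∧ P.ψ i y ∈ P.ψ j '' P.U j := by
    have h1 := hy.1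
    simp only [modelWithCornersSelf_coe_symm, preimage_id, OpenPartialHomeomorph.trans_source,
      OpenPartialHomeomorph.symm_source, mem_inter_iff, mem_preimage] at h1
    exact h1
  exact (P.analyticAt_trans hy1.1 hy1.2).contDiffAt

theorem pshOn (P : Par E X) {f : X → ℝ} {V : Set X} (hV : IsOpen V)
    (h : ∀ i, PshE (fun y => f (P.ψ i y)) (P.U i ∩ P.ψ i ⁻¹' V)) :
    letI := P.chartedSpace
    PshOn E f V := by
  let := P.chartedSpace
  have hM : IsManifold 𝓘(ℂ, E) ω X := P.isManifold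
  have hM1 : IsManifold 𝓘(ℂ, E) 1 X := IsManifold.of_le (n := ω) le_top
  have hopen : ∀ i, IsOpen (P.U i ∩ P.ψ i ⁻¹' V) := fun i =>
    (P.cont i).isOpen_inter_preimage (P.isOpen_U i) hV
  have hfc : ContinuousOn f V := by
    intro x hx
    apply ContinuousAt.continuousWithinAt
    obtain ⟨i, y, hy, rfl⟩ := P.cover x
    have hyV : y ∈ P.U i ∩ P.ψ i ⁻¹' V := ⟨hy, hx⟩
    have h1 : ContinuousAt (fun y => f (P.ψ i y)) y :=
      (h i).1.continuousAt ((hopen i).mem_nhds hyV)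
    have hmem : P.ψ i '' P.U i ∈ 𝓝 (P.ψ i y) := (P.isOpen_src i).mem_nhds ⟨y, hy, rfl⟩
    have h2 : ContinuousAt (P.inv i) (P.ψ i y) := (P.continuousOn_inv i).continuousAt hmem
    have h3 : ContinuousAt (fun x => f (P.ψ i (P.inv i x))) (P.ψ i y) := by
      have : ContinuousAt (fun y => f (P.ψ i y)) (P.inv i (P.ψ i y)) := by
        rw [P.inv_psi hy]
        exact h1
      exact this.comp (f := P.inv i) h2
    apply h3.congr
    filter_upwards [hmem] with x hx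
    rw [P.psi_inv hx]
  refine ⟨hfc, fun γ r hr hγ hm => ?_⟩
  have hsub : closedBall (0 : ℂ) 1 ⊆ ball 0 r := closedBall_subset_ball hr
  apply lsub_disc one_pos (hfc.comp (hγ.continuousOn.mono hsub) (hm.mono_left hsub))
  intro z hz
  have hzr : z ∈ ball (0 : ℂ) r := hsub (ball_subset_closedBall hz)
  obtain ⟨i, y, hy, hyz⟩ := P.cover (γ z)
  have hcont : ContinuousAt γ z := hγ.continuousOn.continuousAt (isOpen_ball.mem_nhds hzr)
  have hsrc : ∀ᶠ ζ in 𝓝 z, γ ζ ∈ P.ψ i '' P.U i :=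
    hcont.eventually ((P.isOpen_src i).mem_nhds ⟨y, hy, hyz⟩)
  obtain ⟨W, hW, hWo, hzW⟩ := _root_.eventually_nhds_iff.1
    (hsrc.and (isOpen_ball.mem_nhds hzr : ∀ᶠ ζ in 𝓝 z, ζ ∈ ball (0 : ℂ) r))
  have hd : MDifferentiableOn 𝓘(ℂ, ℂ) 𝓘(ℂ, E) (fun ζ => P.inv i (γ ζ)) W := by
    have h1 : MDifferentiableOn 𝓘(ℂ, E) 𝓘(ℂ, E) (P.chart i) (P.chart i).source :=
      mdifferentiableOn_atlas ⟨i, rfl⟩
    exact h1.comp (hγ.mono fun ζ hζ => (hW ζ hζ).2) (fun ζ hζ => (hW ζ hζ).1)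
  have han : ∀ᶠ ζ in 𝓝 z, AnalyticAt ℂ (fun ζ => P.inv i (γ ζ)) ζ := by
    filter_upwards [hWo.mem_nhds hzW] with ζ hζ
    exact (mdifferentiableOn_iff_differentiableOn.1 hd).analyticAt (hWo.mem_nhds hζ)
  have hc : P.inv i (γ z) ∈ P.U i ∩ P.ψ i ⁻¹' V := by
    refine ⟨P.inv_mem ⟨y, hy, hyz⟩, ?_⟩
    rw [mem_preimage, P.psi_inv ⟨y, hy, hyz⟩]
    exact hm hzr
  obtain ⟨ρ, hρ, hL⟩ := (h i).lsub' (hopen i) han hc
  obtain ⟨ρ', hρ', hball⟩ := Metric.eventually_nhds_iff_ball.1 hsrc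
  refine ⟨min ρ ρ', lt_min hρ hρ', fun s hs0 hs => ?_⟩
  have h1 := hL s hs0 (hs.trans_le (min_le_left _ _))
  simp only [P.psi_inv (⟨y, hy, hyz⟩ : γ z ∈ P.ψ i '' P.U i)] at h1
  rw [avg_congr hs0 (g := fun ζ => f (γ ζ))] at h1
  · exact h1
  · intro w hw
    have hw' : w ∈ ball z ρ' := by
      rw [mem_sphere] at hw
      rw [mem_ball, hw]
      exact hs.trans_le (min_le_right _ _)
    simp only [P.psi_inv (hball w hw')]

theorem of_pshOn (P : Par E X) {f : X → ℝ} {V : Set X} (hV : IsOpen V)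
    (h : letI := P.chartedSpace
      PshOn E f V) (i : P.ι) : PshE (fun y => f (P.ψ i y)) (P.U i ∩ P.ψ i ⁻¹' V) := by
  let := P.chartedSpace
  have hM : IsManifold 𝓘(ℂ, E) ω X := P.isManifold
  have hM1 : IsManifold 𝓘(ℂ, E) 1 X := IsManifold.of_le (n := ω) le_top
  have hopen : IsOpen (P.U i ∩ P.ψ i ⁻¹' V) :=
    (P.cont i).isOpen_inter_preimage (P.isOpen_U i) hV
  replace h : PshOn E f V := h
  apply PshE.of_lsub hopen
  · exact h.1.comp ((P.cont i).mono inter_subset_left) (fun y hy => hy.2)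
  · intro γ c hγ hc
    obtain ⟨ρ, hρ, hd⟩ := exists_disc hopen hγ.eventually_analyticAt hc
    refine ⟨ρ, hρ, fun r hr0 hr => ?_⟩
    obtain ⟨ρ₁, h1, h2⟩ := exists_between hr
    obtain ⟨ha, hm⟩ := hd ρ₁ (hr0.trans h1) h2
    have hmap : MapsTo (fun ζ : ℂ => c + r * ζ) (ball 0 (ρ₁ / r)) (closedBall c ρ₁) := by
      intro ζ hζ
      rw [mem_ball_zero_iff, lt_div_iff₀ hr0] at hζ
      rw [mem_closedBall, dist_eq_norm, add_sub_cancel_left, norm_mul, Complex.norm_real,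
        Real.norm_of_nonneg hr0.le, mul_comm]
      exact hζ.le
    have hg : DifferentiableOn ℂ (fun ζ : ℂ => γ (c + r * ζ)) (ball 0 (ρ₁ / r)) :=
      ha.differentiableOn.comp (by fun_prop) hmap
    have hψ : MDifferentiableOn 𝓘(ℂ, E) 𝓘(ℂ, E) (P.chart i).symm (P.chart i).target :=
      mdifferentiableOn_atlas_symm ⟨i, rfl⟩
    have hc1 : MDifferentiableOn 𝓘(ℂ, ℂ) 𝓘(ℂ, E) (fun ζ : ℂ => P.ψ i (γ (c + r * ζ)))
        (ball 0 (ρ₁ / r)) :=
      hψ.comp (mdifferentiableOn_iff_differentiableOn.2 hg) (fun ζ hζ => (hm (hmap hζ)).1)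
    have key := h.2 (fun ζ : ℂ => P.ψ i (γ (c + r * ζ))) (ρ₁ / r) ((one_lt_div hr0).2 h1) hc1
      (fun ζ hζ => (hm (hmap hζ)).2)
    simp only [mul_zero, add_zero] at key
    refine key.trans_eq ?_
    rw [Real.circleAverage, Real.circleAverage]
    congr 1
    apply intervalIntegral.integral_congr
    intro θ _
    simp only [circleMap, zero_add, Complex.ofReal_one, one_mul]

end Par

end RG
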