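import Pool.Agent.H14.RG.ParA

/-!
# Module C2: manifolds given by parametrizations, closed forms
-/

open scoped Topology Manifold ContDiff
open Set Metric

namespace RG

variable {E X : Type} [NormedAddCommGroup E] [NormedSpace ℂ E] [CompleteSpace E]
  [TopologicalSpace X]

namespace Par

omit [CompleteSpace E] in
theorem isOpen_pre (P : Par E X) (i : P.ι) {V : Set X} (hV : IsOpen V) :
    IsOpen (P.U i ∩ P.ψ i ⁻¹' V) :=
  (P.cont i).isOpen_inter_preimage (P.isOpen_U i) hV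

omit [CompleteSpace E] in
/-- the transition, also with values in `U j` near `y` -/
theorem trans' (P : Par E X) {i j : P.ι} {y y' : E} (hy : y ∈ P.U i) (hy' : y' ∈ P.U j)
    (e : P.ψ i y = P.ψ j y') :
    ∃ h : E → E, AnalyticAt ℂ h y ∧ h y = y' ∧
      ∀ᶠ x in 𝓝 y, P.ψ j (h x) = P.ψ i x ∧ h x ∈ P.U j ∧ P.inv j (P.ψ i x) = h x := by
  obtain ⟨h, h1, h2, h3⟩ := P.trans i j y y' hy hy' e
  refine ⟨h, h1, h2, ?_⟩
  have h4 : ∀ᶠ x in 𝓝 y, h x ∈ P.U j :=
    h1.continuousAt.eventually ((P.isOpen_U j).mem_nhds (by rw [h2]; exact hy'))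
  filter_upwards [h3, h4] with x hx hx'
  refine ⟨hx, hx', ?_⟩
  rw [← hx, P.inv_psi hx']

omit [CompleteSpace E] in
theorem contMDiffOn (P : Par E X) {f : X → ℝ} {V : Set X} (hV : IsOpen V)
    (h : ∀ i, ContDiffOn ℝ ∞ (fun y => f (P.ψ i y)) (P.U i ∩ P.ψ i ⁻¹' V)) :
    letI := P.chartedSpace
    ContMDiffOn 𝓘(ℝ, E) 𝓘(ℝ, ℝ) ∞ f V := by
  let _ := P.chartedSpace
  intro x hx
  set i := (P.cover x).choose with hi
  have hxi : x ∈ P.ψ i '' P.U i := (P.cover x).choose_spec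
  have hch : chartAt E x = P.chart i := rfl
  have hy : P.inv i x ∈ P.U i := P.inv_mem hxi
  have hψ : P.ψ i (P.inv i x) = x := P.psi_inv hxi
  have hmem : P.inv i x ∈ P.U i ∩ P.ψ i ⁻¹' V := ⟨hy, by
    change P.ψ i (P.inv i x) ∈ V
    rw [hψ]
    exact hx⟩
  have hd : ContDiffAt ℝ ∞ (fun y => f (P.ψ i y)) (P.inv i x) :=
    (h i).contDiffAt ((P.isOpen_pre i hV).mem_nhds hmem)
  have hcont : ContinuousAt f x := by
    have h1 : ContinuousAt (fun z => (fun y => f (P.ψ i y)) (P.chart i z)) x := by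
      apply ContinuousAt.comp (g := fun y => f (P.ψ i y)) (f := P.chart i)
      · exact hd.continuousAt
      · exact (P.chart i).continuousAt hxi
    refine h1.congr ?_
    filter_upwards [(P.isOpen_src i).mem_nhds hxi] with z hz
    change f (P.ψ i (P.inv i z)) = f z
    rw [P.psi_inv hz]
  apply ContMDiffAt.contMDiffWithinAt
  rw [contMDiffAt_iff]
  refine ⟨hcont, ?_⟩
  have e : (extChartAt 𝓘(ℝ, ℝ) (f x)) ∘ f ∘ (extChartAt 𝓘(ℝ, E) x).symm =
      fun y => f (P.ψ i y) := by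
    ext y
    simp [hch]
    rfl
  rw [e]
  have e2 : (extChartAt 𝓘(ℝ, E) x) x = P.inv i x := by
    simp [hch]
    rfl
  rw [e2]
  exact hd.contDiffWithinAt

theorem contDiffAt_of (P : Par E X) {f : X → ℝ} {n : ℕ∞}
    (h : letI := P.chartedSpace
      ContMDiff 𝓘(ℝ, E) 𝓘(ℝ, ℝ) n f) (i : P.ι) {y : E} (hy : y ∈ P.U i) :
    ContDiffAt ℝ n (fun y => f (P.ψ i y)) y := by
  let _ := P.chartedSpace
  set x := P.ψ i y with hx
  set j := (P.cover x).choose with hj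
  have hxj : x ∈ P.ψ j '' P.U j := (P.cover x).choose_spec
  have hch : chartAt E x = P.chart j := rfl
  have hy' : P.inv j x ∈ P.U j := P.inv_mem hxj
  have hψ : P.ψ j (P.inv j x) = x := P.psi_inv hxj
  have h1 := (contMDiffAt_iff.1 (h x)).2
  have e : (extChartAt 𝓘(ℝ, ℝ) (f x)) ∘ f ∘ (extChartAt 𝓘(ℝ, E) x).symm =
      fun y => f (P.ψ j y) := by
    ext y
    simp [hch]
    rfl
  have e2 : (extChartAt 𝓘(ℝ, E) x) x = P.inv j x := by
    simp [hch]
    rfl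
  have e3 : range 𝓘(ℝ, E) = univ := by simp
  rw [e, e2, e3, contDiffWithinAt_univ] at h1
  obtain ⟨g, g1, g2, g3⟩ := P.trans' hy hy' (hψ.symm ▸ hx.symm : P.ψ i y = P.ψ j (P.inv j x))
  have h2 : ContDiffAt ℝ n ((fun y => f (P.ψ j y)) ∘ g) y := by
    apply ContDiffAt.comp
    · rw [g2]
      exact h1
    · exact (g1.restrictScalars (𝕜 := ℝ)).contDiffAt
  refine h2.congr_of_eventuallyEq ?_
  filter_upwards [g3] with z hz
  simp only [Function.comp, hz.1]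

theorem of_contMDiff (P : Par E X) {f : X → ℝ}
    (h : letI := P.chartedSpace
      ContMDiff 𝓘(ℝ, E) 𝓘(ℝ, ℝ) ∞ f) (i : P.ι) :
    ContDiffOn ℝ ∞ (fun y => f (P.ψ i y)) (P.U i) :=
  fun _ hy => (P.contDiffAt_of (n := ⊤) h i hy).contDiffWithinAt

theorem of_contMDiff_one (P : Par E X) {f : X → ℝ}
    (h : letI := P.chartedSpace
      ContMDiff 𝓘(ℝ, E) 𝓘(ℝ, ℝ) 1 f) (i : P.ι) :
    ContDiffOn ℝ 1 (fun y => f (P.ψ i y)) (P.U i) :=
  fun _ hy => (P.contDiffAt_of (n := 1) h i hy).contDiffWithinAt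

/-- a function which is given near the points of `V` by psh functions on the charts -/
theorem pshOn_of (P : Par E X) {f : X → ℝ} {V : Set X} (hV : IsOpen V)
    (h : ∀ x ∈ V, ∃ i, ∃ y ∈ P.U i, P.ψ i y = x ∧ ∃ g : E → ℝ, ∃ W : Set E, IsOpen W ∧ y ∈ W ∧
      PshE g W ∧ ∀ z ∈ W, z ∈ P.U i → f (P.ψ i z) = g z) :
    letI := P.chartedSpace
    PshOn E f V := by
  apply P.pshOn hV
  intro k
  apply PshE.of_local (P.isOpen_pre k hV)
  rintro y ⟨hy, hyV⟩
  obtain ⟨i, y', hy', e, g, W, hW, hyW, hg, hfg⟩ := h _ hyV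
  obtain ⟨t, t1, t2, t3⟩ := P.trans' hy hy' e.symm
  have h1 : ∀ᶠ x in 𝓝 y, t x ∈ W :=
    t1.continuousAt.eventually (hW.mem_nhds (by rw [t2]; exact hyW))
  have h2 : ∀ᶠ x in 𝓝 y, AnalyticAt ℂ t x := t1.eventually_analyticAt
  obtain ⟨W', hW', hoW', hyW'⟩ := _root_.eventually_nhds_iff.1 (t3.and (h1.and h2))
  refine ⟨W', hoW', hyW', ?_⟩
  have h3 : PshE (fun x => g (t x)) W' :=
    hg.comp_analytic (g := t) (fun x hx => (hW' x hx).2.2) (fun x hx => (hW' x hx).2.1)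
  refine h3.congr fun x hx => ?_
  obtain ⟨⟨a1, a2, a3⟩, a4, a5⟩ := hW' x hx
  change f (P.ψ k x) = g (t x)
  rw [← a1]
  exact hfg _ a4 a2

/-- a psh function on a chart -/
theorem pshOn_img (P : Par E X) {i : P.ι} {g : E → ℝ} {W : Set E} (hW : IsOpen W)
    (hWU : W ⊆ P.U i) (hg : PshE g W) :
    letI := P.chartedSpace
    PshOn E (fun x => g (P.inv i x)) (P.ψ i '' W) := by
  apply P.pshOn_of (P.open_map i W hWU hW)
  rintro x ⟨y, hy, rfl⟩
  refine ⟨i, y, hWU hy, rfl, g, W, hW, hy, hg, fun z _ hz => ?_⟩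
  rw [P.inv_psi hz]

/-- the closed form with given potentials -/
noncomputable def Form.toForm {P : Par E X} (F : P.Form) :
    letI := P.chartedSpace
    ClosedForm E X :=
  letI := P.chartedSpace
  { ι := P.ι
    U := fun i => P.ψ i '' P.U i
    ρ := fun i x => F.R i (P.inv i x)
    isOpen := fun i => P.open_map i _ subset_rfl (P.isOpen_U i)
    cover := fun x => P.cover x
    smooth := by
      intro i
      apply P.contMDiffOn (P.isOpen_src i)
      rintro j y ⟨hy, y', hy', e⟩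
      obtain ⟨t, t1, t2, t3⟩ := P.trans' hy hy' e.symm
      apply ContDiffAt.contDiffWithinAt
      have h2 : ContDiffAt ℝ ∞ (F.R i ∘ t) y := by
        apply ContDiffAt.comp
        · rw [t2]
          exact (F.smooth i).contDiffAt ((P.isOpen_U i).mem_nhds hy')
        · exact (t1.restrictScalars (𝕜 := ℝ)).contDiffAt
      refine h2.congr_of_eventuallyEq ?_
      filter_upwards [t3] with z hz
      simp only [Function.comp, hz.2.2]
    compat := by
      intro i j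
      apply P.pshOn_of ((P.isOpen_src i).inter (P.isOpen_src j))
      rintro x ⟨⟨y, hy, rfl⟩, y', hy', e⟩
      obtain ⟨t, t1, t2, t3⟩ := P.trans' hy hy' e.symm
      obtain ⟨W, hW, hyW, hp, -⟩ := F.compat i j y y' hy hy' e.symm t t1 t2
        (t3.mono fun z hz => hz.1)
      obtain ⟨W', hW', hoW', hyW'⟩ := _root_.eventually_nhds_iff.1 t3
      refine ⟨i, y, hy, rfl, fun x => F.R i x - F.R j (t x), W ∩ W', hW.inter hoW', ⟨hyW, hyW'⟩,
        hp.mono inter_subset_left, ?_⟩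
      rintro z ⟨-, hz⟩ hzU
      simp only
      rw [P.inv_psi hzU, (hW' z hz).2.2] }

theorem Form.semipositive {P : Par E X} (F : P.Form) (h : ∀ i, PshE (F.R i) (P.U i)) :
    letI := P.chartedSpace
    F.toForm.Semipositive :=
  fun i => P.pshOn_img (P.isOpen_U i) subset_rfl (h i)

theorem Form.posAt {n : ℕ} {P : Par (Fin n → ℂ) X} (F : P.Form) {i : P.ι} {y : Fin n → ℂ}
    (hy : y ∈ P.U i)
    (h : ∃ c > 0, ∃ W : Set (Fin n → ℂ), IsOpen W ∧ y ∈ W ∧ W ⊆ P.U i ∧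
      PshE (fun x => F.R i x - c * ∑ k, ‖x k‖ ^ 2) W) :
    letI := P.chartedSpace
    F.toForm.PosAt (P.ψ i y) := by
  have _ := hy
  obtain ⟨c, hc, W, hW, hyW, hWU, hp⟩ := h
  exact ⟨i, P.chart i, ⟨i, rfl⟩, c, hc, P.ψ i '' W, P.open_map i W hWU hW, ⟨y, hyW, rfl⟩,
    image_mono hWU, image_mono hWU, P.pshOn_img hW hWU hp⟩

theorem Form.psh {P : Par E X} (F : P.Form) {φ : X → ℝ}
    (h : ∀ i, PshE (fun y => φ (P.ψ i y) + F.R i y) (P.U i)) :
    letI := P.chartedSpace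
    F.toForm.Psh φ := by
  intro i
  apply P.pshOn_of (P.isOpen_src i)
  rintro x ⟨y, hy, rfl⟩
  refine ⟨i, y, hy, rfl, fun y => φ (P.ψ i y) + F.R i y, P.U i, P.isOpen_U i, hy, h i,
    fun z _ hz => ?_⟩
  change φ (P.ψ i z) + F.R i (P.inv i (P.ψ i z)) = _
  rw [P.inv_psi hz]

theorem Form.of_psh {P : Par E X} (F : P.Form) {φ : X → ℝ}
    (h : letI := P.chartedSpace
      F.toForm.Psh φ) (i : P.ι) : PshE (fun y => φ (P.ψ i y) + F.R i y) (P.U i) := by
  have h1 := P.of_pshOn (P.isOpen_src i) (h i) i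
  have h2 : P.U i ⊆ P.U i ∩ P.ψ i ⁻¹' (P.ψ i '' P.U i) := fun y hy => ⟨hy, y, hy, rfl⟩
  refine (h1.mono h2).congr fun y hy => ?_
  change φ (P.ψ i y) + F.R i y = φ (P.ψ i y) + F.R i (P.inv i (P.ψ i y))
  rw [P.inv_psi hy]

omit [CompleteSpace E] in
/-- gluing functions given on the charts -/
theorem exists_glue (P : Par E X) (D : P.ι → E → ℝ) (hD : ∀ i, ContinuousOn (D i) (P.U i))
    (h : ∀ i j y y', y ∈ P.U i → y' ∈ P.U j → P.ψ i y = P.ψ j y' → D i y = D j y') :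
    ∃ φ : X → ℝ, Continuous φ ∧ ∀ i, ∀ y ∈ P.U i, φ (P.ψ i y) = D i y := by
  choose i y hy e using P.cover
  have h1 : ∀ j, ∀ z ∈ P.U j, D (i (P.ψ j z)) (y (P.ψ j z)) = D j z := fun j z hz =>
    h _ _ _ _ (hy _) hz (e _)
  refine ⟨fun x => D (i x) (y x), ?_, h1⟩
  rw [continuous_iff_continuousAt]
  intro x
  rw [← e x]
  set j := i x
  set z := y x
  have hz : z ∈ P.U j := hy x
  rw [ContinuousAt, h1 j z hz, _root_.tendsto_nhds]
  intro N hN hzN
  have h2 : IsOpen (P.U j ∩ D j ⁻¹' N) := (hD j).isOpen_inter_preimage (P.isOpen_U j) hN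
  have h3 : IsOpen (P.ψ j '' (P.U j ∩ D j ⁻¹' N)) := P.open_map j _ inter_subset_left h2
  refine Filter.mem_of_superset (h3.mem_nhds ⟨z, ⟨hz, hzN⟩, rfl⟩) ?_
  rintro _ ⟨w, ⟨hw, hwN⟩, rfl⟩
  change D _ _ ∈ N
  rw [h1 j w hw]
  exact hwN

end Par

end RG
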