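import Pool.Agent.H14.RG.EstC

/-!
# Module I1: the function `Phi` on the cone, off `Ph`
-/

open scoped Topology ContDiff
open Set Metric

namespace RG

variable {d d0 K : ℝ}

/-- the closed set where `J' = 0` and `x2 = 0` -/
def Ph : Set V4 := {p | p ∈ Mh ∧ nJp p = 0 ∧ p.2 2 = 0}

/-! ### continuity and the regions -/

theorem phiA_ca2 {p : V4} (hp : p ∈ Mh) : ContinuousAt a2 p := (a2_smooth hp.1).continuousAt

theorem phiA_cnE (p : V4) : ContinuousAt nE p := (nE_smooth p).continuousAt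

theorem phiA_cnN {p : V4} (hp : p ∈ Mh) : ContinuousAt nN p := (nN_smooth hp.1).continuousAt

theorem phiA_cnJp {p : V4} (hp : p ∈ Mh) : ContinuousAt nJp p := (nJp_smooth hp.1).continuousAt

theorem phiA_cnJ {p : V4} (hp : p ∈ Mh) : ContinuousAt nJ p := (nJ_smooth hp.1).continuousAt

theorem phiA_cnP {p : V4} (hp : p ∈ Mh) : ContinuousAt nP p := (nP_smooth hp.1).continuousAt

theorem phiA_cnB {p : V4} (hp : p ∈ Mh) : ContinuousAt nB p := (nB_smooth hp.1).continuousAt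

theorem phiA_cx (i : Fin 3) (p : V4) : ContinuousAt (fun p : V4 => ‖p.2 i‖ ^ 2) p := by
  fun_prop

theorem phiA_cfP {p : V4} (hp : p ∈ Mh) : ContinuousAt fP p := (fP_analytic hp.1).continuousAt

theorem phiA_Mh {p : V4} (hp : p ∈ Mh) : ∀ᶠ y in 𝓝 p, y ∈ Mh := isOpen_Mh.mem_nhds hp

theorem phiA_r0 {p : V4} : p ∈ Reg d d0 0 ↔ p ∈ Mh ∧ nJ p ≠ 0 := Iff.rfl

theorem phiA_r1 {p : V4} : p ∈ Reg d d0 1 ↔
    p ∈ Mh ∧ a2 p < d * nE p ∧ ‖p.2 1‖ ^ 2 < Real.exp 6 * ‖p.2 0‖ ^ 2 ∧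
      ‖p.2 0‖ ^ 2 < Real.exp 6 * ‖p.2 1‖ ^ 2 ∧ nB p / 32 < nJp p := Iff.rfl

theorem phiA_r2 {p : V4} : p ∈ Reg d d0 2 ↔
    p ∈ Mh ∧ fP p ≠ 0 ∧ nN p * nJ p < d0 * nP p ∧ nJp p < nB p := Iff.rfl

theorem phiA_r3 {p : V4} : p ∈ Reg d d0 3 ↔ p ∈ Mh ∧ a2 p < d * nE p := Iff.rfl

theorem phiA_open0 : IsOpen (Reg d d0 0) := by
  rw [isOpen_iff_mem_nhds]
  intro p hp
  rw [phiA_r0] at hp
  filter_upwards [phiA_Mh hp.1, (phiA_cnJ hp.1).eventually_ne hp.2] with y h1 h2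
  exact ⟨h1, h2⟩

theorem phiA_open1 : IsOpen (Reg d d0 1) := by
  rw [isOpen_iff_mem_nhds]
  intro p hp
  rw [phiA_r1] at hp
  obtain ⟨h, h1, h2, h3, h4⟩ := hp
  filter_upwards [phiA_Mh h,
    (phiA_ca2 h).eventually_lt (continuousAt_const.mul (phiA_cnE p)) h1,
    (phiA_cx 1 p).eventually_lt (continuousAt_const.mul (phiA_cx 0 p)) h2,
    (phiA_cx 0 p).eventually_lt (continuousAt_const.mul (phiA_cx 1 p)) h3,
    ((phiA_cnB h).div_const 32).eventually_lt (phiA_cnJp h) h4] with y a b c e f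
  exact ⟨a, b, c, e, f⟩

theorem phiA_open2 : IsOpen (Reg d d0 2) := by
  rw [isOpen_iff_mem_nhds]
  intro p hp
  rw [phiA_r2] at hp
  obtain ⟨h, h1, h2, h3⟩ := hp
  filter_upwards [phiA_Mh h, (phiA_cfP h).eventually_ne h1,
    ((phiA_cnN h).mul (phiA_cnJ h)).eventually_lt (continuousAt_const.mul (phiA_cnP h)) h2,
    (phiA_cnJp h).eventually_lt (phiA_cnB h) h3] with y a b c e
  exact ⟨a, b, c, e⟩

theorem phiA_open3 : IsOpen (Reg d d0 3) := by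
  rw [isOpen_iff_mem_nhds]
  intro p hp
  rw [phiA_r3] at hp
  obtain ⟨h, h1⟩ := hp
  filter_upwards [phiA_Mh h,
    (phiA_ca2 h).eventually_lt (continuousAt_const.mul (phiA_cnE p)) h1] with y a b
  exact ⟨a, b⟩

theorem isOpen_Reg (i : Fin 4) : IsOpen (Reg d d0 i) := by
  fin_cases i
  exacts [phiA_open0, phiA_open1, phiA_open2, phiA_open3]

/-! ### elementary facts -/

theorem phiA_nP_pos {p : V4} (h : fP p ≠ 0) : 0 < nP p := by
  unfold nP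
  have := norm_pos_iff.2 h
  positivity

theorem phiA_nJ_nonneg (p : V4) : 0 ≤ nJ p := mul_nonneg (by positivity) (nJp_nonneg p)

theorem phiA_nJ_pos {p : V4} (h2 : p.2 2 ≠ 0) (h : 0 < nJp p) : 0 < nJ p := by
  unfold nJ
  have := norm_pos_iff.2 h2
  positivity

theorem phiA_nB_pos {p : V4} (hp : p ∈ Mh) (h2 : p.2 2 ≠ 0) : 0 < nB p := by
  unfold nB
  have := norm_pos_iff.2 h2
  have := nN_pos hp
  positivity

theorem phiA_nB_zero {p : V4} (h2 : p.2 2 = 0) : nB p = 0 := by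
  unfold nB
  rw [h2]; simp

theorem phiA_a2_zero {p : V4} (h2 : p.2 2 = 0) : a2 p = 0 := by
  unfold a2
  rw [h2]; simp

theorem phiA_x2_ne {p : V4} (h : 0 < a2 p) : p.2 2 ≠ 0 := by
  intro h2
  rw [phiA_a2_zero h2] at h
  exact lt_irrefl _ h

theorem phiA_a2_le (p : V4) : a2 p ≤ nN p := by
  rw [nN_eq]; linarith [nE_nonneg p]

theorem phiA_k2_nonneg (p : V4) : 0 ≤ k2 p := by
  unfold k2
  refine Real.rpow_nonneg ?_ _
  have h1 := a2_nonneg p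
  have h2 := phiA_nJ_nonneg p
  have h3 : 0 ≤ nP p := by unfold nP; positivity
  positivity

/-- `sg` in the band -/
theorem phiA_sg_le {p : V4} (h0 : p.2 0 ≠ 0) (h1 : p.2 1 ≠ 0) {c : ℝ}
    (h : ‖p.2 1‖ ^ 2 ≤ Real.exp c * ‖p.2 0‖ ^ 2) : sg p ≤ c := by
  have a0 : 0 < ‖p.2 0‖ ^ 2 := by have := norm_pos_iff.2 h0; positivity
  have a1 : 0 < ‖p.2 1‖ ^ 2 := by have := norm_pos_iff.2 h1; positivity
  have := Real.log_le_log a1 h
  rw [Real.log_mul (Real.exp_pos c).ne' a0.ne', Real.log_exp] at this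
  unfold sg
  linarith

theorem phiA_le_sg {p : V4} (h0 : p.2 0 ≠ 0) (h1 : p.2 1 ≠ 0) {c : ℝ}
    (h : ‖p.2 0‖ ^ 2 ≤ Real.exp c * ‖p.2 1‖ ^ 2) : -c ≤ sg p := by
  have a0 : 0 < ‖p.2 0‖ ^ 2 := by have := norm_pos_iff.2 h0; positivity
  have a1 : 0 < ‖p.2 1‖ ^ 2 := by have := norm_pos_iff.2 h1; positivity
  have := Real.log_le_log a0 h
  rw [Real.log_mul (Real.exp_pos c).ne' a1.ne', Real.log_exp] at this
  unfold sg
  linarith

theorem phiA_band_of_sg {p : V4} (h0 : p.2 0 ≠ 0) (h1 : p.2 1 ≠ 0) (h : |sg p| ≤ 1 / 100) :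
    ‖p.2 1‖ ^ 2 < Real.exp 6 * ‖p.2 0‖ ^ 2 ∧ ‖p.2 0‖ ^ 2 < Real.exp 6 * ‖p.2 1‖ ^ 2 := by
  have a0 : 0 < ‖p.2 0‖ ^ 2 := by have := norm_pos_iff.2 h0; positivity
  have a1 : 0 < ‖p.2 1‖ ^ 2 := by have := norm_pos_iff.2 h1; positivity
  have e6 := Real.exp_pos 6
  obtain ⟨l, u⟩ := abs_le.1 h
  unfold sg at l u
  constructor
  · rw [← Real.log_lt_log_iff a1 (by positivity), Real.log_mul e6.ne' a0.ne', Real.log_exp]
    linarith
  · rw [← Real.log_lt_log_iff a0 (by positivity), Real.log_mul e6.ne' a1.ne', Real.log_exp]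
    linarith

/-! ### the pieces -/

theorem phiA_p0 (p : V4) : pie K 0 p = Real.log (nN p * nJ p) / 4 + K := rfl

theorem phiA_p1 (p : V4) : pie K 1 p = Real.log (nP p) / 4 - sg p / 12 + k1 p := rfl

theorem phiA_p2 (p : V4) : pie K 2 p = Real.log (nP p) / 4 + k2 p := rfl

theorem phiA_p3 (p : V4) : pie K 3 p = Real.log (nE p) - 9 / 10 := rfl

theorem phiA_c0 {p : V4} (hp : p ∈ Mh) (h : nJ p ≠ 0) : ContinuousAt (pie K 0) p := by
  have h1 : ContinuousAt (fun p => Real.log (nN p * nJ p) / 4 + K) p :=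
    ((((phiA_cnN hp).mul (phiA_cnJ hp)).log (mul_ne_zero (nN_pos hp).ne' h)).div_const 4).add
      continuousAt_const
  exact h1

theorem phiA_clP {p : V4} (hp : p ∈ Mh) (h : fP p ≠ 0) :
    ContinuousAt (fun p => Real.log (nP p) / 4) p :=
  ((phiA_cnP hp).log (phiA_nP_pos h).ne').div_const 4

theorem phiA_c1 {p : V4} (hp : p ∈ Mh) (h : fP p ≠ 0) (h0 : p.2 0 ≠ 0) (h1 : p.2 1 ≠ 0) :
    ContinuousAt (pie K 1) p := by
  have := ((phiA_clP hp h).sub ((sg_cont h0 h1).div_const 12)).add (k1_cont hp.1 h)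
  exact this

theorem phiA_c2 {p : V4} (hp : p ∈ Mh) (h : fP p ≠ 0) : ContinuousAt (pie K 2) p := by
  have := (phiA_clP hp h).add (k2_cont hp.1 h)
  exact this

theorem phiA_c3 {p : V4} (h : 0 < nE p) : ContinuousAt (pie K 3) p := by
  have : ContinuousAt (fun p => Real.log (nE p) - 9 / 10) p :=
    ((phiA_cnE p).log h.ne').sub continuousAt_const
  exact this

theorem phiA_psh0 : PshE (pie K 0) (Reg d d0 0) := by
  have h1 : LPsh (fun p => nN p * nJ p) (Reg d d0 0) :=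
    (nN_lpsh.mul nJ_lpsh).mono fun p hp => Mh_sub_O4 hp.1
  have h2 : PshE (fun p => Real.log (nN p * nJ p)) (Reg d d0 0) :=
    h1.log fun p hp => mul_pos (nN_pos hp.1) (lt_of_le_of_ne (phiA_nJ_nonneg p) (Ne.symm hp.2))
  have h3 := (h2.mul_const (a := 1 / 4) (by norm_num)).add_const K
  refine h3.congr fun p _ => ?_
  rw [phiA_p0]; ring

theorem phiA_psh1 (hd : TubeGood d) : PshE (pie K 1) (Reg d d0 1) := by
  have h1 : Reg d d0 1 ⊆ O4 ∩ {p | fP p ≠ 0 ∧ p.2 0 ≠ 0 ∧ p.2 1 ≠ 0} := by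
    intro p hp
    rw [phiA_r1] at hp
    obtain ⟨a, b, c, -⟩ := hd.t1 p hp.1 hp.2.1.le ⟨hp.2.2.1.le, hp.2.2.2.1.le⟩
    exact ⟨Mh_sub_O4 hp.1, c, a, b⟩
  have h2 : Reg d d0 1 ⊆ O4 ∩ {p | fP p ≠ 0} := fun p hp => ⟨(h1 hp).1, (h1 hp).2.1⟩
  refine ((logP_sg_psh.mono h1).add (k1_psh.mono h2)).congr fun p _ => ?_
  rw [phiA_p1]

theorem phiA_psh2 : PshE (pie K 2) (Reg d d0 2) := by
  have h2 : Reg d d0 2 ⊆ O4 ∩ {p | fP p ≠ 0} := fun p hp => ⟨Mh_sub_O4 hp.1, hp.2.1⟩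
  refine ((logP_psh.mono h2).add (k2_psh.mono h2)).congr fun p _ => ?_
  rw [phiA_p2]

theorem phiA_psh3 (hd : TubeGood d) : PshE (pie K 3) (Reg d d0 3) := by
  have h1 : LPsh nE (Reg d d0 3) := nE_lpsh.mono fun p hp => Mh_sub_O4 hp.1
  have h2 : PshE (fun p => Real.log (nE p)) (Reg d d0 3) :=
    h1.log fun p hp => nE_pos hp.1 hp.2.le
  refine (h2.add_const (-(9 / 10))).congr fun p _ => ?_
  rw [phiA_p3]; ring

/-- the pieces are psh on their regions -/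
theorem pie_psh (hd : TubeGood d) (i : Fin 4) : PshE (pie K i) (Reg d d0 i) := by
  fin_cases i
  exacts [phiA_psh0, phiA_psh1 hd, phiA_psh2, phiA_psh3 hd]

/-! ### every point is in a region -/

/-- `J' = 0` off `Ph` and `Zh` -/
theorem phiA_fP {p : V4} (hp : p ∈ Mh) (hZ : p ∉ Zh) (hP : p ∉ Ph) (h : nJp p = 0) :
    p.2 2 ≠ 0 ∧ fP p ≠ 0 := by
  have h2 : p.2 2 ≠ 0 := fun h2 => hP ⟨hp, h, h2⟩
  exact ⟨h2, fun h3 => hZ ⟨hp, h3, h, h2⟩⟩

theorem phiA_nJ_zero {p : V4} (h : nJ p = 0) : p.2 2 = 0 ∨ nJp p = 0 := by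
  unfold nJ at h
  rcases mul_eq_zero.1 h with h | h
  · left
    exact norm_eq_zero.1 (pow_eq_zero_iff two_ne_zero |>.1 h)
  · exact Or.inr h

theorem phiA_reg3_of_x2 (hd : TubeGood d) {p : V4} (hp : p ∈ Mh) (h2 : p.2 2 = 0) :
    p ∈ Reg d d0 3 := by
  have h3 := nN_pos hp
  rw [nN_eq, phiA_a2_zero h2, add_zero] at h3
  refine ⟨hp, ?_⟩
  rw [phiA_a2_zero h2]
  exact mul_pos hd.pos h3

theorem phiA_reg2_of_J (hK : KGood d d0 K) {p : V4} (hp : p ∈ Mh) (hZ : p ∉ Zh)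
    (hP : p ∉ Ph) (h : nJp p = 0) : p ∈ Reg d d0 2 := by
  obtain ⟨h2, h3⟩ := phiA_fP hp hZ hP h
  refine ⟨hp, h3, ?_, ?_⟩
  · have : nJ p = 0 := by unfold nJ; rw [h, mul_zero]
    rw [this, mul_zero]
    exact mul_pos hK.pos (phiA_nP_pos h3)
  · rw [h]; exact phiA_nB_pos hp h2

theorem phiA_exists (hd : TubeGood d) (hK : KGood d d0 K) {p : V4} (hp : p ∈ Mh) (hZ : p ∉ Zh)
    (hP : p ∉ Ph) : ∃ i, p ∈ Reg d d0 i := by
  by_cases hJ : nJ p = 0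
  · rcases phiA_nJ_zero hJ with h | h
    · exact ⟨3, phiA_reg3_of_x2 hd hp h⟩
    · exact ⟨2, phiA_reg2_of_J hK hp hZ hP h⟩
  · exact ⟨0, hp, hJ⟩

/-- off `Ph` and `Zh` the function `Phi` is the largest available piece -/
theorem phi_eq (hd : TubeGood d) (hK : KGood d d0 K) {p : V4} (hp : p ∈ Mh) (hZ : p ∉ Zh)
    (hP : p ∉ Ph) : (∃ i, p ∈ Reg d d0 i ∧ Phi d d0 K p = pie K i p) ∧
      ∀ i, p ∈ Reg d d0 i → pie K i p ≤ Phi d d0 K p := by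
  have h0 : ¬ (nJp p = 0 ∧ p.2 2 = 0) := fun h => hP ⟨hp, h.1, h.2⟩
  have h1 : Phi d d0 K p = sSup {v | ∃ i, p ∈ Reg d d0 i ∧ v = pie K i p} := by
    unfold Phi
    rw [if_neg h0]
  set S : Set ℝ := {v | ∃ i, p ∈ Reg d d0 i ∧ v = pie K i p} with hS
  have hfin : S.Finite := by
    refine (Set.finite_range fun i : Fin 4 => pie K i p).subset ?_
    rintro v ⟨i, -, rfl⟩
    exact ⟨i, rfl⟩
  have hne : S.Nonempty := by
    obtain ⟨i, hi⟩ := phiA_exists hd hK hp hZ hP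
    exact ⟨_, i, hi, rfl⟩
  rw [h1]
  exact ⟨hne.csSup_mem hfin, fun i hi => le_csSup hfin.bddAbove ⟨i, hi, rfl⟩⟩

/-! ### dominance -/

/-- strict inequality at the point between continuous pieces -/
theorem phiA_lt {f g : V4 → ℝ} {p : V4} {R : Set V4} (hf : ContinuousAt f p)
    (hg : ContinuousAt g p) (h : f p < g p) : ∀ᶠ y in 𝓝 p, y ∈ R → f y ≤ g y := by
  filter_upwards [hf.eventually_lt hg h] with y hy _
  exact hy.le

theorem phiA_dom0 (hd : TubeGood d) (hK : KGood d d0 K) {p : V4} (hp : p ∈ Mh) (hZ : p ∉ Zh)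
    (hP : p ∉ Ph) (hi : p ∉ Reg d d0 0) :
    ∃ j, p ∈ Reg d d0 j ∧ ∀ᶠ y in 𝓝 p, y ∈ Reg d d0 0 → pie K 0 y ≤ pie K j y := by
  have hJ : nJ p = 0 := by
    by_contra h
    exact hi ⟨hp, h⟩
  -- the piece 0 tends to `-∞`
  have key : ∀ g : V4 → ℝ, ContinuousAt g p →
      ∀ᶠ y in 𝓝 p, y ∈ Reg d d0 0 → pie K 0 y ≤ g y := by
    intro g hg
    have h1 : ∀ᶠ y in 𝓝 p, g p - 1 < g y :=
      continuousAt_const.eventually_lt hg (by linarith)
    have h2 : ∀ᶠ y in 𝓝 p, nN y * nJ y < Real.exp (4 * (g p - 1 - K)) := by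
      refine ((phiA_cnN hp).mul (phiA_cnJ hp)).eventually_lt continuousAt_const ?_
      change nN p * nJ p < _
      rw [hJ, mul_zero]
      exact Real.exp_pos _
    filter_upwards [h1, h2] with y hy1 hy2 hy
    have h3 : 0 < nN y * nJ y :=
      mul_pos (nN_pos hy.1) (lt_of_le_of_ne (phiA_nJ_nonneg y) (Ne.symm hy.2))
    have h4 := Real.log_lt_log h3 hy2
    rw [Real.log_exp] at h4
    rw [phiA_p0]
    linarith
  by_cases h2 : p.2 2 = 0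
  · refine ⟨3, phiA_reg3_of_x2 hd hp h2, key _ (phiA_c3 ?_)⟩
    have h3 := nN_pos hp
    rwa [nN_eq, phiA_a2_zero h2, add_zero] at h3
  · have hJp : nJp p = 0 := (phiA_nJ_zero hJ).resolve_left h2
    exact ⟨2, phiA_reg2_of_J hK hp hZ hP hJp, key _ (phiA_c2 hp (phiA_fP hp hZ hP hJp).2)⟩

theorem phiA_dom1 (hd : TubeGood d) (hK : KGood d d0 K) {p : V4} (hp : p ∈ Mh) (hZ : p ∉ Zh)
    (hP : p ∉ Ph) (hi : p ∉ Reg d d0 1) :
    ∃ j, p ∈ Reg d d0 j ∧ ∀ᶠ y in 𝓝 p, y ∈ Reg d d0 1 → pie K 1 y ≤ pie K j y := by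
  obtain ⟨j0, hj0⟩ := phiA_exists hd hK hp hZ hP
  by_cases c1 : d * nE p < a2 p
  · refine ⟨j0, hj0, ?_⟩
    filter_upwards [(continuousAt_const.mul (phiA_cnE p)).eventually_lt (phiA_ca2 hp) c1]
      with y hy hy'
    exact absurd hy'.2.1 (not_lt.2 hy.le)
  by_cases c2 : Real.exp 6 * ‖p.2 0‖ ^ 2 < ‖p.2 1‖ ^ 2
  · refine ⟨j0, hj0, ?_⟩
    filter_upwards [(continuousAt_const.mul (phiA_cx 0 p)).eventually_lt (phiA_cx 1 p) c2]
      with y hy hy'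
    exact absurd hy'.2.2.1 (not_lt.2 hy.le)
  by_cases c3 : Real.exp 6 * ‖p.2 1‖ ^ 2 < ‖p.2 0‖ ^ 2
  · refine ⟨j0, hj0, ?_⟩
    filter_upwards [(continuousAt_const.mul (phiA_cx 1 p)).eventually_lt (phiA_cx 0 p) c3]
      with y hy hy'
    exact absurd hy'.2.2.2.1 (not_lt.2 hy.le)
  by_cases c4 : nJp p < nB p / 32
  · refine ⟨j0, hj0, ?_⟩
    filter_upwards [(phiA_cnJp hp).eventually_lt ((phiA_cnB hp).div_const 32) c4]
      with y hy hy'
    exact absurd hy'.2.2.2.2 (not_lt.2 hy.le)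
  push Not at c1 c2 c3 c4
  obtain ⟨x0, x1, hf, tP, tk⟩ := hd.t1 p hp c1 ⟨c2, c3⟩
  have hc := phiA_c1 (K := K) hp hf x0 x1
  have s1 := phiA_sg_le x0 x1 c2
  have s2 := phiA_le_sg x0 x1 c3
  obtain ⟨tP1, tP2⟩ := abs_le.1 tP
  have hE := nE_pos hp c1
  have a0 : 0 < ‖p.2 0‖ ^ 2 := by have := norm_pos_iff.2 x0; positivity
  have a1 : 0 < ‖p.2 1‖ ^ 2 := by have := norm_pos_iff.2 x1; positivity
  -- (a)
  rcases c1.eq_or_lt with e1 | e1
  · have h2 : p.2 2 ≠ 0 := phiA_x2_ne (by rw [e1]; exact mul_pos hd.pos hE)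
    have hB := phiA_nB_pos hp h2
    have hJ : 0 < nJ p := phiA_nJ_pos h2 (by linarith)
    refine ⟨0, ⟨hp, hJ.ne'⟩, phiA_lt hc (phiA_c0 hp hJ.ne') ?_⟩
    have := hK.g3 p hp e1 c4 ⟨c2, c3⟩
    rw [phiA_p0, phiA_p1]
    linarith
  have r3 : p ∈ Reg d d0 3 := ⟨hp, e1⟩
  -- (b)
  rcases c2.eq_or_lt with e2 | e2
  · refine ⟨3, r3, phiA_lt hc (phiA_c3 hE) ?_⟩
    rw [phiA_p3, phiA_p1]
    have l1 : Real.log (‖p.2 1‖ ^ 2) = 6 + Real.log (‖p.2 0‖ ^ 2) := by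
      rw [e2, Real.log_mul (Real.exp_pos 6).ne' a0.ne', Real.log_exp]
    have l2 : Real.log (‖p.2 1‖ ^ 2) ≤ Real.log (nE p) :=
      Real.log_le_log a1 (by unfold nE; linarith)
    have l3 : sg p = 6 := by unfold sg; rw [l1]; ring
    rw [l3]
    linarith
  -- (c)
  rcases c3.eq_or_lt with e3 | e3
  · refine ⟨3, r3, phiA_lt hc (phiA_c3 hE) ?_⟩
    rw [phiA_p3, phiA_p1]
    have l1 : Real.log (‖p.2 0‖ ^ 2) = 6 + Real.log (‖p.2 1‖ ^ 2) := by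
      rw [e3, Real.log_mul (Real.exp_pos 6).ne' a1.ne', Real.log_exp]
    have l2 : Real.log (‖p.2 0‖ ^ 2) ≤ Real.log (nE p) :=
      Real.log_le_log a0 (by unfold nE; linarith)
    have l3 : sg p = -6 := by unfold sg; rw [l1]; ring
    rw [l3]
    linarith
  -- (d)
  have e4 : nJp p = nB p / 32 := by
    rcases c4.eq_or_lt with e | e
    · exact e.symm
    · exact absurd ⟨hp, e1, e2, e3, e⟩ hi
  have h2 : p.2 2 ≠ 0 := by
    intro h2
    rw [phiA_nB_zero h2, zero_div] at e4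
    exact hP ⟨hp, e4, h2⟩
  have hB := phiA_nB_pos hp h2
  have hJ : 0 < nJ p := phiA_nJ_pos h2 (by linarith)
  by_cases c5 : nN p * nJ p < d0 * nP p
  · refine ⟨2, ⟨hp, hf, c5, by linarith⟩, phiA_lt hc (phiA_c2 hp hf) ?_⟩
    have := hd.t3 p hp c1 h2 e4
    rw [phiA_p2, phiA_p1]
    have := neg_abs_le (sg p)
    linarith
  · push Not at c5
    refine ⟨0, ⟨hp, hJ.ne'⟩, phiA_lt hc (phiA_c0 hp hJ.ne') ?_⟩
    have := hK.g4 p hp hf c5
    rw [phiA_p0, phiA_p1]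
    linarith

theorem phiA_k2_le {p : V4} (hK : KGood d d0 K) (hp : p ∈ Mh) (hf : fP p ≠ 0)
    (h : nN p * nJ p ≤ d0 * nP p) : k2 p ≤ 1 := by
  unfold k2
  refine Real.rpow_le_one ?_ ?_ (by norm_num)
  · have h1 := a2_nonneg p
    have h2 := phiA_nJ_nonneg p
    have h3 : 0 ≤ nP p := by unfold nP; positivity
    positivity
  · rw [← div_eq_mul_inv, div_le_one (phiA_nP_pos hf)]
    calc a2 p * nJ p ≤ nN p * nJ p :=
          mul_le_mul_of_nonneg_right (phiA_a2_le p) (phiA_nJ_nonneg p)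
      _ ≤ d0 * nP p := h
      _ ≤ 1 * nP p := mul_le_mul_of_nonneg_right hK.lt (phiA_nP_pos hf).le
      _ = nP p := one_mul _

theorem phiA_dom2 (hd : TubeGood d) (hK : KGood d d0 K) {p : V4} (hp : p ∈ Mh) (hZ : p ∉ Zh)
    (hP : p ∉ Ph) (hi : p ∉ Reg d d0 2) :
    ∃ j, p ∈ Reg d d0 j ∧ ∀ᶠ y in 𝓝 p, y ∈ Reg d d0 2 → pie K 2 y ≤ pie K j y := by
  obtain ⟨j0, hj0⟩ := phiA_exists hd hK hp hZ hP
  by_cases c1 : d0 * nP p < nN p * nJ p
  · refine ⟨j0, hj0, ?_⟩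
    filter_upwards [(continuousAt_const.mul (phiA_cnP hp)).eventually_lt
      ((phiA_cnN hp).mul (phiA_cnJ hp)) c1] with y hy hy'
    exact absurd hy'.2.2.1 (not_lt.2 hy.le)
  by_cases c2 : nB p < nJp p
  · refine ⟨j0, hj0, ?_⟩
    filter_upwards [(phiA_cnB hp).eventually_lt (phiA_cnJp hp) c2] with y hy hy'
    exact absurd hy'.2.2.2 (not_lt.2 hy.le)
  push Not at c1 c2
  have hN := nN_pos hp
  have hf : fP p ≠ 0 := by
    intro hf
    have h1 : nP p = 0 := by unfold nP; rw [hf]; simp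
    rw [h1, mul_zero] at c1
    have h3 : nJ p = 0 := by
      have := phiA_nJ_nonneg p
      by_contra h4
      have h5 : 0 < nJ p := lt_of_le_of_ne this (Ne.symm h4)
      exact absurd (mul_pos hN h5) (not_lt.2 c1)
    rcases phiA_nJ_zero h3 with h4 | h4
    · rw [phiA_nB_zero h4] at c2
      exact hP ⟨hp, le_antisymm c2 (nJp_nonneg p), h4⟩
    · exact (phiA_fP hp hZ hP h4).2 hf
  have hc := phiA_c2 (K := K) hp hf
  rcases c1.eq_or_lt with e1 | e1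
  · have hJ : nJ p ≠ 0 := by
      intro h
      rw [h, mul_zero] at e1
      exact absurd e1 (mul_pos hK.pos (phiA_nP_pos hf)).ne
    refine ⟨0, ⟨hp, hJ⟩, phiA_lt hc (phiA_c0 hp hJ) ?_⟩
    have h4 := hK.g4 p hp hf e1.ge
    have h5 := phiA_k2_le hK hp hf e1.le
    rw [phiA_p0, phiA_p2]
    linarith
  · have e2 : nJp p = nB p := by
      rcases c2.eq_or_lt with e | e
      · exact e
      · exact absurd ⟨hp, hf, e1, e⟩ hi
    have h2 : p.2 2 ≠ 0 := by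
      intro h2
      rw [phiA_nB_zero h2] at e2
      exact hP ⟨hp, e2, h2⟩
    have hB := phiA_nB_pos hp h2
    have ha : a2 p < d * nE p := by
      by_contra h
      push Not at h
      have := hK.g1 p hp h e2.ge
      linarith
    obtain ⟨x0, x1, -, ts, -⟩ := hd.t2 p hp ha.le c2
    obtain ⟨b1, b2⟩ := phiA_band_of_sg x0 x1 ts
    refine ⟨1, ⟨hp, ha, b1, b2, by linarith⟩, phiA_lt hc (phiA_c1 hp hf x0 x1) ?_⟩
    have h4 := hd.t4 p hp ha.le h2 e2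
    have h5 := le_abs_self (sg p)
    rw [phiA_p1, phiA_p2]
    linarith

theorem phiA_dom3 (hd : TubeGood d) (hK : KGood d d0 K) {p : V4} (hp : p ∈ Mh) (hZ : p ∉ Zh)
    (hP : p ∉ Ph) (hi : p ∉ Reg d d0 3) :
    ∃ j, p ∈ Reg d d0 j ∧ ∀ᶠ y in 𝓝 p, y ∈ Reg d d0 3 → pie K 3 y ≤ pie K j y := by
  obtain ⟨j0, hj0⟩ := phiA_exists hd hK hp hZ hP
  by_cases c1 : d * nE p < a2 p
  · refine ⟨j0, hj0, ?_⟩
    filter_upwards [(continuousAt_const.mul (phiA_cnE p)).eventually_lt (phiA_ca2 hp) c1]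
      with y hy hy'
    exact absurd hy'.2 (not_lt.2 hy.le)
  push Not at c1
  have e1 : a2 p = d * nE p := by
    rcases c1.eq_or_lt with e | e
    · exact e
    · exact absurd ⟨hp, e⟩ hi
  have hE := nE_pos hp c1
  have hc := phiA_c3 (K := K) hE
  have h2 : p.2 2 ≠ 0 := phiA_x2_ne (by rw [e1]; exact mul_pos hd.pos hE)
  have hB := phiA_nB_pos hp h2
  rcases le_or_gt (nB p / 32) (nJp p) with c2 | c2
  · have hJ : 0 < nJ p := phiA_nJ_pos h2 (by linarith)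
    refine ⟨0, ⟨hp, hJ.ne'⟩, phiA_lt hc (phiA_c0 hp hJ.ne') ?_⟩
    exact hK.g2 p hp e1 c2
  · obtain ⟨-, -, hf, -, -, -, t⟩ := hd.t2 p hp c1 (by linarith)
    by_cases c3 : nN p * nJ p < d0 * nP p
    · refine ⟨2, ⟨hp, hf, c3, by linarith⟩, phiA_lt hc (phiA_c2 hp hf) ?_⟩
      rw [phiA_p3, phiA_p2]
      linarith [phiA_k2_nonneg p]
    · push Not at c3
      have hJ : nJ p ≠ 0 := by
        intro h
        rw [h, mul_zero] at c3
        exact absurd (mul_pos hK.pos (phiA_nP_pos hf)) (not_lt.2 c3)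
      refine ⟨0, ⟨hp, hJ⟩, phiA_lt hc (phiA_c0 hp hJ) ?_⟩
      have := hK.g4 p hp hf c3
      rw [phiA_p0, phiA_p3]
      linarith

/-- at a point outside a region, that piece is dominated by an available one -/
theorem pie_dom (hd : TubeGood d) (hK : KGood d d0 K) {p : V4} (hp : p ∈ Mh) (hZ : p ∉ Zh)
    (hP : p ∉ Ph) {i : Fin 4} (hi : p ∉ Reg d d0 i) :
    ∃ j, p ∈ Reg d d0 j ∧ ∀ᶠ y in 𝓝 p, y ∈ Reg d d0 i → pie K i y ≤ pie K j y := by
  fin_cases i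
  exacts [phiA_dom0 hd hK hp hZ hP hi, phiA_dom1 hd hK hp hZ hP hi, phiA_dom2 hd hK hp hZ hP hi,
    phiA_dom3 hd hK hp hZ hP hi]

theorem phiA_isOpen : IsOpen (Mh \ (Zh ∪ Ph)) := by
  rw [isOpen_iff_mem_nhds]
  rintro p ⟨hp, hn⟩
  have hZ : p ∉ Zh := fun h => hn (Or.inl h)
  have hP : p ∉ Ph := fun h => hn (Or.inr h)
  by_cases h : nJp p = 0
  · obtain ⟨h2, h3⟩ := phiA_fP hp hZ hP h
    have c2 : ContinuousAt (fun p : V4 => p.2 2) p := by fun_prop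
    filter_upwards [phiA_Mh hp, c2.eventually_ne h2, (phiA_cfP hp).eventually_ne h3]
      with y a b c
    refine ⟨a, ?_⟩
    rintro (h4 | h4)
    · exact c h4.2.1
    · exact b h4.2.2
  · filter_upwards [phiA_Mh hp, (phiA_cnJp hp).eventually_ne h] with y a b
    refine ⟨a, ?_⟩
    rintro (h4 | h4)
    · exact b h4.2.2.1
    · exact b h4.2.1

theorem phi_psh' (hd : TubeGood d) (hK : KGood d d0 K) :
    PshE (Phi d d0 K) (Mh \ (Zh ∪ Ph)) := by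
  refine PshE.glue (R := Reg d d0) (f := pie K) phiA_isOpen isOpen_Reg ?_ ?_ ?_ ?_
  · intro i
    exact (pie_psh hd i).mono inter_subset_left
  · rintro p ⟨hp, hn⟩
    exact (phi_eq hd hK hp (fun h => hn (Or.inl h)) fun h => hn (Or.inr h)).1
  · rintro p ⟨hp, hn⟩
    exact (phi_eq hd hK hp (fun h => hn (Or.inl h)) fun h => hn (Or.inr h)).2
  · rintro p ⟨hp, hn⟩ i hi
    exact pie_dom hd hK hp (fun h => hn (Or.inl h)) (fun h => hn (Or.inr h)) hi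

end RG
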