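import Pool.Agent.H14.RG.XM
import Pool.Agent.H14.RG.ParM

/-!
# Module O1: closed forms and functions on `X` from functions on the cone
-/

open scoped Topology ContDiff
open Set Metric

namespace RG

/-- quasi-invariant functions: `F` on the cone off `Zh`, `Fs t` near the blown-up points -/
structure Pot (C : Cst) where
  /-- the function on the cone -/
  F : V4 → ℝ
  /-- the functions near the blown-up points -/
  Fs : ℂ → E3 → E3 → ℝ
  /-- weight -/
  α : ℝ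
  /-- weight at the blown-up points -/
  β : ℝ
  /-- cocycle -/
  b : ℤ → ℝ
  /-- cocycle -/
  c : ℤ → ℝ
  sc' : ∀ p ∈ Mh, p ∉ Zh → ∀ t : ℂ, t ≠ 0 → F (sc t p) = F p + α * Real.log ‖t‖
  gG' : ∀ p ∈ Mh, p ∉ Zh → ∀ n : ℤ, F (gG n p) = F p + b n * Real.log ‖p.1‖ + c n
  scs : ∀ t ∈ Rt, ∀ y ∈ ball (0 : E3) C.r0, ∀ r : E3, r ≠ 0 → ∀ s : ℂ, s ≠ 0 →
    Fs t y (s • r) = Fs t y r + β * Real.log ‖s‖
  link : ∀ t ∈ Rt, ∀ y ∈ ball (0 : E3) C.r0, ∀ r : E3, r ≠ 0 → ∀ s : ℂ, s ≠ 0 → y = s • r →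
    F (aff t y) = Fs t y r + β * Real.log ‖s‖

namespace Pot

variable {C : Cst}

/-- the root as a complex number -/
def rt (C : Cst) (t : C.B.I) : ℂ := (show Rt from t).1

/-- the function in the charts of `X` -/
noncomputable def R (Q : Pot C) (i : C.P.ι) (y : E3) : ℝ :=
  match i with
  | Sum.inl i => Q.F (sec i.2 y)
  | Sum.inr (t, l) => Q.Fs (rt C t) (bl l y) (dir l y)

/-! ### Auxiliary facts -/

theorem sec_fst (j : Fin 3) (y : E3) : (sec j y).1 = y 0 := rfl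

theorem sec_self (j : Fin 3) (y : E3) : (sec j y).2 j = 1 := by
  fin_cases j <;> simp [sec]

theorem dir_ne (l : Fin 3) (u : E3) : dir l u ≠ 0 := by
  intro h
  have := congrFun h l
  simp [dir] at this

theorem quarter_zpow {k : ℤ} (h1 : 1 / 2 < (1 / 4 : ℝ) ^ k) (h2 : (1 / 4 : ℝ) ^ k < 2) : k = 0 := by
  rcases lt_trichotomy k 0 with hk | hk | hk
  · exfalso
    have h3 : (1 / 4 : ℝ) ^ (-1 : ℤ) ≤ (1 / 4 : ℝ) ^ k :=
      zpow_le_zpow_right_of_le_one₀ (by norm_num) (by norm_num) (by omega)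
    norm_num at h3
    linarith
  · exact hk
  · exfalso
    have h3 : (1 / 4 : ℝ) ^ k ≤ (1 / 4 : ℝ) ^ (1 : ℤ) :=
      zpow_le_zpow_right_of_le_one₀ (by norm_num) (by norm_num) (by omega)
    norm_num at h3
    linarith

/-- values along the relation -/
theorem F_rel (Q : Pot C) {p : V4} (hp : p ∈ Mh) (hz : p ∉ Zh) (n : ℤ) {s : ℂ} (hs : s ≠ 0) :
    Q.F (sc s (gG n p)) = Q.F p + Q.b n * Real.log ‖p.1‖ + Q.c n + Q.α * Real.log ‖s‖ := by
  rw [Q.sc' _ (gG_mem hp) (fun h => hz ((Zh_gG hp).1 h)) s hs, Q.gG' p hp hz n]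

/-- the difference along related points is pluriharmonic -/
theorem key (Q : Pot C) {p q : E3 → V4} {y : E3} {j : Fin 3} (hp : AnalyticAt ℂ p y)
    (hq : ContinuousAt (fun x => (q x).1) y) (hpM : ∀ᶠ x in 𝓝 y, p x ∈ Mh ∧ p x ∉ Zh)
    (hqj : ∀ᶠ x in 𝓝 y, (q x).2 j = 1) (hrel : ∀ᶠ x in 𝓝 y, Rel (p x) (q x)) :
    PhAt (fun x => Q.F (p x) - Q.F (q x)) y := by
  obtain ⟨n, s₀, hs₀, hq₀⟩ := hrel.self_of_nhds
  have hpy := hpM.self_of_nhds
  have hp1 : AnalyticAt ℂ (fun x => (p x).1) y := analyticAt_fst.comp hp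
  have hp1y : (p y).1 ≠ 0 := hpy.1.1
  have htn : 0 < ‖tau ^ n‖ := norm_pos_iff.2 (zpow_ne_zero _ tau_ne)
  -- the integer is locally constant
  have hcont : ContinuousAt (fun x => ‖(q x).1 / (p x).1‖) y :=
    (hq.div hp1.continuousAt hp1y).norm
  have hval : ‖(q y).1 / (p y).1‖ = ‖tau ^ n‖ := by
    have h1 : (q y).1 = tau ^ n * (p y).1 := by
      have := congrArg Prod.fst hq₀
      rw [this]
      rfl
    rw [h1, mul_div_cancel_right₀ _ hp1y]
  have hlow : ∀ᶠ x in 𝓝 y, ‖tau ^ n‖ / 2 < ‖(q x).1 / (p x).1‖ :=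
    hcont.eventually (lt_mem_nhds (by simp only [hval]; linarith))
  have hup : ∀ᶠ x in 𝓝 y, ‖(q x).1 / (p x).1‖ < 2 * ‖tau ^ n‖ :=
    hcont.eventually (gt_mem_nhds (by simp only [hval]; linarith))
  -- the second analytic function
  have hg : AnalyticAt ℂ (fun x => (gG n (p x)).2 j) y := by
    have h1 : AnalyticAt ℂ (fun x => gG n (p x)) y := (gG_analytic n hp1y).comp hp
    exact (coord_analytic j _).comp h1
  have hgy : (gG n (p y)).2 j ≠ 0 := by
    intro h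
    have h1 := hqj.self_of_nhds
    rw [hq₀] at h1
    change s₀ * (gG n (p y)).2 j = 1 at h1
    rw [h, mul_zero] at h1
    exact zero_ne_one h1
  have hgn : ∀ᶠ x in 𝓝 y, (gG n (p x)).2 j ≠ 0 :=
    hg.continuousAt.eventually (isOpen_ne.mem_nhds hgy)
  have hph : PhAt (fun x => (-Q.b n) * Real.log ‖(p x).1‖ + (-Q.c n) +
      Q.α * Real.log ‖(gG n (p x)).2 j‖) y :=
    ((PhAt.of_log_norm hp1 hp1y (-Q.b n)).add (PhAt.const _ _)).add
      (PhAt.of_log_norm hg hgy Q.α)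
  refine hph.congr ?_
  filter_upwards [hpM, hqj, hrel, hlow, hup, hgn] with x h1 h2 h3 h4 h5 h6
  obtain ⟨n', s, hs, hqx⟩ := h3
  have hx1 : (p x).1 ≠ 0 := h1.1.1
  have hratio : (q x).1 / (p x).1 = tau ^ n' := by
    have h7 : (q x).1 = tau ^ n' * (p x).1 := by
      rw [hqx]
      rfl
    rw [h7, mul_div_cancel_right₀ _ hx1]
  rw [hratio] at h4 h5
  have hnn : n' = n := by
    have h7 : ‖tau ^ n'‖ = (1 / 4 : ℝ) ^ (n' - n) * ‖tau ^ n‖ := by
      rw [norm_zpow, norm_zpow, norm_tau, zpow_sub₀ (by norm_num)]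
      field_simp
    rw [h7] at h4 h5
    have h8 : n' - n = 0 := by
      apply quarter_zpow
      · have : (1 / 2) * ‖tau ^ n‖ < (1 / 4 : ℝ) ^ (n' - n) * ‖tau ^ n‖ := by linarith
        exact lt_of_mul_lt_mul_right this htn.le
      · exact lt_of_mul_lt_mul_right h5 htn.le
    omega
  subst hnn
  have hs1 : s * (gG n' (p x)).2 j = 1 := by
    rw [hqx] at h2
    exact h2
  have hsn : Real.log ‖s‖ = - Real.log ‖(gG n' (p x)).2 j‖ := by
    have h7 : ‖s‖ * ‖(gG n' (p x)).2 j‖ = 1 := by rw [← norm_mul, hs1, norm_one]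
    rw [eq_inv_of_mul_eq_one_left h7, Real.log_inv]
  change Q.F (p x) - Q.F (q x) = _
  rw [hqx, Q.F_rel h1.1 h1.2 n' hs, hsn]
  ring

/-- smoothness hypotheses -/
structure Smooth (Q : Pot C) : Prop where
  sm : ∀ p ∈ Mh, p ∉ Zh → ContDiffAt ℝ ∞ Q.F p
  sms : ∀ t ∈ Rt, ∀ q ∈ Sd C.r0, ContDiffAt ℝ ∞ (fun q : E3 × E3 => Q.Fs t q.1 q.2) q

theorem inl_mem {i : I0} {y : E3} (hy : y ∈ C.P.U (Sum.inl i)) : sec i.2 y ∈ Mh ∧ sec i.2 y ∉ Zh :=
  ⟨sec_mem (U0_ne i.1.2 (C.mem_inl.1 hy).1), (C.mem_inl.1 hy).2⟩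

theorem inr_mem {t : Rt} {l : Fin 3} {u : E3} (hu : u ∈ C.P.U (Sum.inr (t, l))) :
    (bl l u, dir l u) ∈ Sd C.r0 :=
  ⟨C.mem_inr.1 hu, dir_ne l u⟩

theorem bld_analytic (l : Fin 3) (u : E3) : AnalyticAt ℂ (fun u => (bl l u, dir l u)) u :=
  (bl_analytic l u).prod (dir_analytic l u)

/-- the function in the chart `inr` off the exceptional divisor -/
theorem R_inr (Q : Pot C) {t : Rt} {l : Fin 3} {u : E3} (hu : u ∈ C.P.U (Sum.inr (t, l)))
    (h : u l ≠ 0) : Q.Fs (t : ℂ) (bl l u) (dir l u) =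
      Q.F (aff t (bl l u)) - Q.β * Real.log ‖u l‖ := by
  have := Q.link t t.2 (bl l u) (C.mem_inr.1 hu) (dir l u) (dir_ne l u) (u l) h rfl
  linarith

theorem aff_mem' {t : ℂ} {y : E3} (hy : y ∈ ball (0 : E3) C.r0) : aff t y ∈ Mh :=
  aff_mem C.r_lt hy

theorem smooth_R (Q : Pot C) (hQ : Q.Smooth) (i : C.P.ι) : ContDiffOn ℝ ∞ (Q.R i) (C.P.U i) := by
  rcases i with i | ⟨t, l⟩
  · intro y hy
    have h1 := inl_mem (C := C) hy
    exact (ContDiffAt.comp (g := Q.F) (f := sec i.2) y (hQ.sm _ h1.1 h1.2)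
      (contDiffAt_of_analyticAt (sec_analytic i.2 y))).contDiffWithinAt
  · intro u hu
    have h1 := hQ.sms (rt C t) (show Rt from t).2 _ (inr_mem (C := C) hu)
    exact (ContDiffAt.comp (g := fun q : E3 × E3 => Q.Fs (rt C t) q.1 q.2)
      (f := fun u => (bl l u, dir l u)) u h1
      (contDiffAt_of_analyticAt (bld_analytic l u))).contDiffWithinAt

theorem compat_R (Q : Pot C) (i j : C.P.ι) (y y' : E3) (hy : y ∈ C.P.U i) (hy' : y' ∈ C.P.U j)
    (h : E3 → E3) (hh : AnalyticAt ℂ h y) (hhy : h y = y')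
    (he : ∀ᶠ x in 𝓝 y, C.P.ψ j (h x) = C.P.ψ i x) :
    PhAt (fun x => Q.R i x - Q.R j (h x)) y := by
  have hU : ∀ᶠ x in 𝓝 y, x ∈ C.P.U i := (C.P.isOpen_U i).mem_nhds hy
  have hU' : ∀ᶠ x in 𝓝 y, h x ∈ C.P.U j :=
    hh.continuousAt.eventually ((C.P.isOpen_U j).mem_nhds (by rw [hhy]; exact hy'))
  have hsecc : ∀ k : Fin 3, ContinuousAt (fun x => (sec k (h x)).1) y := fun k =>
    ((coord3_analytic 0 _).comp hh).continuousAt
  rcases i with i | ⟨t, l⟩ <;> rcases j with j | ⟨t', l'⟩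
  · -- two base charts
    refine key Q (p := sec i.2) (q := fun x => sec j.2 (h x)) (j := j.2) (sec_analytic i.2 y)
      (hsecc j.2) ?_ ?_ ?_
    · filter_upwards [hU] with x hx
      exact inl_mem (C := C) hx
    · exact Filter.Eventually.of_forall fun x => sec_self _ _
    · filter_upwards [hU, hU', he] with x h1 h2 h3
      exact (C.inl_inl h1 h2).1 h3.symm
  · -- base chart, blown-up chart
    have hk : PhAt (fun x => Q.F (aff (rt C t') (bl l' (h x))) - Q.F (sec i.2 x)) y := by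
      refine key Q (p := fun x => aff (rt C t') (bl l' (h x))) (q := fun x => sec i.2 x)
        (j := i.2) ?_ ?_ ?_ ?_ ?_
      · exact (aff_analytic _ _).comp ((bl_analytic l' _).comp hh)
      · exact (coord3_analytic 0 _).continuousAt
      · filter_upwards [hU, hU', he] with x h1 h2 h3
        exact ⟨aff_mem' (C := C) (C.mem_inr.1 h2), (C.inr_inl h2 h1 h3).2.1⟩
      · exact Filter.Eventually.of_forall fun x => sec_self _ _
      · filter_upwards [hU, hU', he] with x h1 h2 h3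
        exact (C.inr_inl h2 h1 h3).2.2
    have hl : AnalyticAt ℂ (fun x => (h x) l') y := (coord3_analytic l' _).comp hh
    have hl0 : (h y) l' ≠ 0 :=
      (C.inr_inl hU'.self_of_nhds hU.self_of_nhds he.self_of_nhds).1
    refine (hk.neg.add (PhAt.of_log_norm hl hl0 Q.β)).congr ?_
    filter_upwards [hU, hU', he] with x h1 h2 h3
    have h4 := Q.R_inr h2 (C.inr_inl h2 h1 h3).1
    change Q.F (sec i.2 x) - Q.Fs (rt C t') (bl l' (h x)) (dir l' (h x)) = _
    have h5 : Q.Fs (rt C t') (bl l' (h x)) (dir l' (h x)) =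
      Q.F (aff (rt C t') (bl l' (h x))) - Q.β * Real.log ‖(h x) l'‖ := h4
    rw [h5]
    ring
  · -- blown-up chart, base chart
    have hk : PhAt (fun x => Q.F (aff (rt C t) (bl l x)) - Q.F (sec j.2 (h x))) y := by
      refine key Q (p := fun x => aff (rt C t) (bl l x)) (q := fun x => sec j.2 (h x))
        (j := j.2) ?_ (hsecc j.2) ?_ ?_ ?_
      · exact (aff_analytic _ _).comp (bl_analytic l _)
      · filter_upwards [hU, hU', he] with x h1 h2 h3
        exact ⟨aff_mem' (C := C) (C.mem_inr.1 h1), (C.inr_inl h1 h2 h3.symm).2.1⟩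
      · exact Filter.Eventually.of_forall fun x => sec_self _ _
      · filter_upwards [hU, hU', he] with x h1 h2 h3
        exact (C.inr_inl h1 h2 h3.symm).2.2
    have hl0 : y l ≠ 0 :=
      (C.inr_inl hU.self_of_nhds hU'.self_of_nhds he.self_of_nhds.symm).1
    refine (hk.add (PhAt.of_log_norm (coord3_analytic l y) hl0 (-Q.β))).congr ?_
    filter_upwards [hU, hU', he] with x h1 h2 h3
    have h4 := Q.R_inr h1 (C.inr_inl h1 h2 h3.symm).1
    change Q.Fs (rt C t) (bl l x) (dir l x) - Q.F (sec j.2 (h x)) = _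
    have h5 : Q.Fs (rt C t) (bl l x) (dir l x) =
      Q.F (aff (rt C t) (bl l x)) - Q.β * Real.log ‖x l‖ := h4
    rw [h5]
    ring
  · -- two blown-up charts
    obtain ⟨htt, -, hd0, -⟩ := C.inr_inr hU.self_of_nhds hU'.self_of_nhds he.self_of_nhds.symm
    have hd : AnalyticAt ℂ (fun x => dir l x l') y := (coord3_analytic l' _).comp (dir_analytic l y)
    refine (PhAt.of_log_norm hd hd0 Q.β).congr ?_
    filter_upwards [hU, hU', he] with x h1 h2 h3
    obtain ⟨-, h4, h5, h6⟩ := C.inr_inr h1 h2 h3.symm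
    change Q.Fs (rt C t) (bl l x) (dir l x) - Q.Fs (rt C t') (bl l' (h x)) (dir l' (h x)) = _
    rw [← htt, h6, ← h4, Q.scs (rt C t) (show Rt from t).2 (bl l x) (C.mem_inr.1 h1) (dir l x)
      (dir_ne l x) _ (inv_ne_zero h5), norm_inv, Real.log_inv]
    ring

/-- the closed form -/
noncomputable def form (Q : Pot C) (hQ : Q.Smooth) : C.P.Form where
  R := Q.R
  smooth := Q.smooth_R hQ
  compat := by
    intro i j y y' hy hy' _ h hh hhy he
    exact Q.compat_R i j y y' hy hy' h hh hhy he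

/-- if all weights vanish, a continuous function on `X` -/
theorem exists_fun (Q : Pot C) (hα : Q.α = 0) (hβ : Q.β = 0) (hb : ∀ n, Q.b n = 0)
    (hc : ∀ n, Q.c n = 0) (h1 : ContinuousOn Q.F (Mh \ Zh))
    (h2 : ∀ t ∈ Rt, ContinuousOn (fun q : E3 × E3 => Q.Fs t q.1 q.2) (Sd C.r0)) :
    ∃ φ : C.X → ℝ, Continuous φ ∧ ∀ i, ∀ y ∈ C.P.U i, φ (C.P.ψ i y) = Q.R i y := by
  have hrel : ∀ {p q : V4}, p ∈ Mh → p ∉ Zh → Rel p q → Q.F q = Q.F p := by
    rintro p q hp hz ⟨n, s, hs, rfl⟩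
    rw [Q.F_rel hp hz n hs, hα, hb, hc]
    ring
  apply C.P.exists_glue Q.R
  · rintro (i | ⟨t, l⟩)
    · have hc1 : ContinuousOn (sec i.2) (C.P.U (Sum.inl i)) :=
        fun y _ => (sec_analytic i.2 y).continuousAt.continuousWithinAt
      exact h1.comp hc1 fun y hy => ⟨(inl_mem (C := C) hy).1, (inl_mem (C := C) hy).2⟩
    · have hc1 : ContinuousOn (fun u => (bl l u, dir l u)) (C.P.U (Sum.inr (t, l))) :=
        fun y _ => (bld_analytic l y).continuousAt.continuousWithinAt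
      exact (h2 (rt C t) (show Rt from t).2).comp hc1 fun u hu => inr_mem (C := C) hu
  · rintro (i | ⟨t, l⟩) (j | ⟨t', l'⟩) y y' hy hy' he
    · exact (hrel (inl_mem (C := C) hy).1 (inl_mem (C := C) hy).2 ((C.inl_inl hy hy').1 he)).symm
    · obtain ⟨g1, g2, g3⟩ := C.inr_inl hy' hy he.symm
      have g4 := Q.R_inr hy' g1
      rw [hβ, zero_mul, sub_zero] at g4
      change Q.F (sec i.2 y) = Q.Fs (rt C t') (bl l' y') (dir l' y')
      exact (hrel (aff_mem' (C := C) (C.mem_inr.1 hy')) g2 g3).trans g4.symm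
    · obtain ⟨g1, g2, g3⟩ := C.inr_inl hy hy' he
      have g4 := Q.R_inr hy g1
      rw [hβ, zero_mul, sub_zero] at g4
      change Q.Fs (rt C t) (bl l y) (dir l y) = Q.F (sec j.2 y')
      exact g4.trans (hrel (aff_mem' (C := C) (C.mem_inr.1 hy)) g2 g3).symm
    · obtain ⟨g0, g1, g2, g3⟩ := C.inr_inr hy hy' he
      change Q.Fs (rt C t) (bl l y) (dir l y) = Q.Fs (rt C t') (bl l' y') (dir l' y')
      rw [← g0, g3, ← g1, Q.scs (rt C t) (show Rt from t).2 (bl l y) (C.mem_inr.1 hy) (dir l y)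
        (dir_ne l y) _ (inv_ne_zero g2), hβ, zero_mul, add_zero]

/-- psh in the charts -/
theorem psh (Q : Pot C) (h1 : PshE Q.F (Mh \ Zh))
    (h2 : ∀ t ∈ Rt, PshE (fun q : E3 × E3 => Q.Fs t q.1 q.2) (Sd C.r0)) (i : C.P.ι) :
    PshE (Q.R i) (C.P.U i) := by
  rcases i with i | ⟨t, l⟩
  · exact h1.comp_analytic (g := sec i.2) (fun y _ => sec_analytic i.2 y)
      fun y hy => ⟨(inl_mem (C := C) hy).1, (inl_mem (C := C) hy).2⟩
  · exact (h2 (rt C t) (show Rt from t).2).comp_analytic (g := fun u => (bl l u, dir l u))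
      (fun u _ => bld_analytic l u) fun u hu => inr_mem (C := C) hu

end Pot

end RG
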