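import Pool.Agent.H14.RG.SubDefs

/-!
# Plurisubharmonic functions on open subsets of complex normed spaces
-/

open scoped Topology
open Set Metric

namespace RG

variable {V : Type} [NormedAddCommGroup V] [NormedSpace ℂ V]

/-- continuous plurisubharmonic function on an open subset `U` of a complex normed space -/
def PshE (f : V → ℝ) (U : Set V) : Prop :=
  ContinuousOn f U ∧ ∀ (γ : ℂ → V) (c : ℂ) (R : ℝ), 0 < R →
    AnalyticOnNhd ℂ γ (closedBall c R) → MapsTo γ (closedBall c R) U →
    f (γ c) ≤ Real.circleAverage (fun ζ => f (γ ζ)) c R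

/-- a nonnegative function `F` whose logarithm is plurisubharmonic (value `-∞` allowed) -/
def LPsh (F : V → ℝ) (U : Set V) : Prop :=
  ContinuousOn F U ∧ (∀ x ∈ U, 0 ≤ F x) ∧ ∀ ε > 0, PshE (fun x => Real.log (F x + ε)) U

/-- pluriharmonic near `x` -/
def PhAt (f : V → ℝ) (x : V) : Prop :=
  ∃ W : Set V, IsOpen W ∧ x ∈ W ∧ PshE f W ∧ PshE (fun y => - f y) W

end RG
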