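import Pool.Agent.H14.RG.EstC
import Pool.Agent.H14.RG.MRegM

/-!
# Module H: the function `Psi` on the cone
-/

open scoped Topology ContDiff
open Set Metric

namespace RG

variable {m : ℝ → ℝ} {d A : ℝ}

/-! ### auxiliary facts -/

theorem psi_nP_nonneg (p : V4) : 0 ≤ nP p := by
  unfold nP
  positivity

theorem psi_nJ_nonneg (p : V4) : 0 ≤ nJ p := by
  unfold nJ
  exact mul_nonneg (sq_nonneg _) (nJp_nonneg p)

theorem psi_nN_nonneg (p : V4) : 0 ≤ nN p := by
  rw [nN_eq]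
  exact add_nonneg (nE_nonneg p) (a2_nonneg p)

theorem psi_sum_nonneg (p : V4) : 0 ≤ nP p + nN p * nJ p :=
  add_nonneg (psi_nP_nonneg p) (mul_nonneg (psi_nN_nonneg p) (psi_nJ_nonneg p))

theorem Psi_of_lt {p : V4} (h : a2 p < d * nE p) (h0 : 0 < nP p + nN p * nJ p) :
    Psi m d A p = Real.log (nE p) - A +
      m (Real.log (nP p + nN p * nJ p) / 4 - (Real.log (nE p) - A)) := by
  unfold Psi
  rw [if_pos h, if_neg (not_le.2 h0)]

theorem Psi_of_lt_zero {p : V4} (h : a2 p < d * nE p) (h0 : nP p + nN p * nJ p ≤ 0) :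
    Psi m d A p = Real.log (nE p) - A := by
  unfold Psi
  rw [if_pos h, if_pos h0, add_zero]

theorem Psi_of_ge {p : V4} (h : d * nE p ≤ a2 p) :
    Psi m d A p = Real.log (nP p + nN p * nJ p) / 4 := by
  unfold Psi
  rw [if_neg (not_lt.2 h)]

/-- `a2 > 0` forces `x2 ≠ 0` -/
theorem psi_x2_ne_of_a2 {p : V4} (h : 0 < a2 p) : p.2 2 ≠ 0 := by
  intro h2
  unfold a2 at h
  rw [h2] at h
  simp at h

theorem psi_in_aux (hm : MReg m) (hA : AGood d A) {p : V4} (hp : p ∈ Mh)
    (h : a2 p < d * nE p) (h' : d / 2 * nE p ≤ a2 p ∨ band1 p) :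
    Psi m d A p = Real.log (nP p + nN p * nJ p) / 4 := by
  have hE : 0 < nE p := nE_pos hp h.le
  have h1 := hA.2 p hp h.le h'
  have h2 : 0 < nE p ^ 4 * Real.exp (8 - 4 * A) := by positivity
  have h3 : 0 < nP p + nN p * nJ p := lt_of_lt_of_le h2 h1
  rw [Psi_of_lt h h3]
  have h4 : Real.log (nE p ^ 4 * Real.exp (8 - 4 * A)) ≤ Real.log (nP p + nN p * nJ p) :=
    Real.log_le_log h2 h1
  rw [Real.log_mul (by positivity) (Real.exp_pos _).ne', Real.log_exp, Real.log_pow] at h4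
  push_cast at h4
  rw [hm.high _ (by linarith)]
  ring

/-- outside the half tube `Psi` is `log (‖P‖ ^ 2 + N J) / 4` -/
theorem psi_out (hm : MReg m) (hd : TubeGood d) (hA : AGood d A) {p : V4} (hp : p ∈ Mh)
    (h : d / 2 * nE p ≤ a2 p) : Psi m d A p = Real.log (nP p + nN p * nJ p) / 4 := by
  rcases lt_or_ge (a2 p) (d * nE p) with h1 | h1
  · exact psi_in_aux hm hA hp h1 (Or.inl h)
  · exact Psi_of_ge h1

/-- also in the tube over the small band -/
theorem psi_band (hm : MReg m) (hd : TubeGood d) (hA : AGood d A) {p : V4} (hp : p ∈ Mh)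
    (h : a2 p ≤ d * nE p) (hb : band1 p) :
    Psi m d A p = Real.log (nP p + nN p * nJ p) / 4 := by
  rcases lt_or_ge (a2 p) (d * nE p) with h1 | h1
  · exact psi_in_aux hm hA hp h1 (Or.inr hb)
  · exact Psi_of_ge h1

/-! ### openness of `Mh \ Zh` -/

/-- on the cone, `P` and `J'` do not vanish simultaneously where `x2 = 0` -/
theorem psi_x2_ne_of_zero {p : V4} (hp : p ∈ Mh) (h1 : fP p = 0) (h2 : nJp p = 0) : p.2 2 ≠ 0 := by
  intro h3
  obtain ⟨n, t, ht, rfl⟩ := nJp_S hp h3 h2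
  rw [fP_sc, fP_gG n (one_ne_zero : ((1 : ℂ), (![1, 1, 0] : Fin 3 → ℂ)).1 ≠ 0)] at h1
  have h4 : fP ((1 : ℂ), (![1, 1, 0] : Fin 3 → ℂ)) = 1 := by
    unfold fP
    simp
  rw [h4, mul_one] at h1
  have h5 : eta ≠ 0 := by
    intro h
    have := norm_eta
    rw [h, norm_zero] at this
    exact zero_ne_one this
  rcases mul_eq_zero.1 h1 with h | h
  · exact ht (pow_eq_zero_iff (by norm_num) |>.1 h)
  · exact (zpow_ne_zero n h5) h

theorem psi_diff_eq : Mh \ Zh = Mh ∩ {p | fP p ≠ 0 ∨ nJp p ≠ 0} := by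
  ext p
  constructor
  · rintro ⟨hp, hZ⟩
    refine ⟨hp, ?_⟩
    by_contra h
    have h' : fP p = 0 ∧ nJp p = 0 := by
      constructor
      · by_contra h1
        exact h (Or.inl h1)
      · by_contra h1
        exact h (Or.inr h1)
    exact hZ ⟨hp, h'.1, h'.2, psi_x2_ne_of_zero hp h'.1 h'.2⟩
  · rintro ⟨hp, h⟩
    refine ⟨hp, fun hZ => ?_⟩
    rcases h with h | h
    · exact h hZ.2.1
    · exact h hZ.2.2.1

theorem psi_isOpen_diff : IsOpen (Mh \ Zh) := by
  rw [isOpen_iff_mem_nhds]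
  intro p hp
  rw [psi_diff_eq] at hp ⊢
  obtain ⟨hp, h⟩ := hp
  have hp1 : p.1 ≠ 0 := hp.1
  refine Filter.inter_mem (isOpen_Mh.mem_nhds hp) ?_
  rcases h with h | h
  · exact ((fP_analytic hp1).continuousAt.eventually_ne h).mono fun q hq => Or.inl hq
  · exact ((nJp_smooth hp1).continuousAt.eventually_ne h).mono fun q hq => Or.inr hq

/-! ### the sum -/

theorem psi_sum_smooth {p : V4} (hp : p.1 ≠ 0) :
    ContDiffAt ℝ ∞ (fun p => nP p + nN p * nJ p) p :=
  (nP_smooth hp).add ((nN_smooth hp).mul (nJ_smooth hp))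

theorem psi_sum_lpsh : LPsh (fun p => nP p + nN p * nJ p) O4 :=
  nP_lpsh.add (nN_lpsh.mul nJ_lpsh)

theorem psi_logsum_psh {W : Set V4} (hW : W ⊆ O4) (h : ∀ p ∈ W, 0 < nP p + nN p * nJ p) :
    PshE (fun p => Real.log (nP p + nN p * nJ p) / 4) W := by
  have h1 := ((psi_sum_lpsh.mono hW).log h).mul_const (a := 1 / 4) (by norm_num)
  refine h1.congr fun x _ => ?_
  change Real.log (nP x + nN x * nJ x) / 4 = 1 / 4 * Real.log (nP x + nN x * nJ x)
  ring

theorem psi_lognE_psh {W : Set V4} (hW : W ⊆ O4) (h : ∀ p ∈ W, 0 < nE p) (A : ℝ) :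
    PshE (fun p => Real.log (nE p) - A) W := by
  have h1 := ((nE_lpsh.mono hW).log h).add_const (-A)
  exact h1.congr fun x _ => sub_eq_add_neg _ _

/-! ### near a point of the tube where the sum vanishes `Psi` is `log nE - A` -/

theorem psi_near_zero (hm : MReg m) {p : V4} (hp : p ∈ Mh)
    (h : a2 p < d * nE p) (h0 : nP p + nN p * nJ p = 0) :
    ∀ᶠ q in 𝓝 p, Psi m d A q = Real.log (nE q) - A := by
  have hp1 : p.1 ≠ 0 := hp.1
  have hE : 0 < nE p := nE_pos hp h.le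
  have h1 : ∀ᶠ q in 𝓝 p, a2 q < d * nE q :=
    (a2_smooth hp1).continuousAt.eventually_lt
      (continuousAt_const.mul (nE_smooth p).continuousAt) h
  have h2 : ∀ᶠ q in 𝓝 p, 0 < nE q :=
    (nE_smooth p).continuousAt.eventually (isOpen_Ioi.mem_nhds hE)
  have h3 : ∀ᶠ q in 𝓝 p, nP q + nN q * nJ q < nE q ^ 4 * Real.exp (-8 - 4 * A) := by
    refine (psi_sum_smooth hp1).continuousAt.eventually_lt
      (((nE_smooth p).continuousAt.pow 4).mul continuousAt_const) ?_
    rw [h0]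
    positivity
  filter_upwards [h1, h2, h3] with q hq1 hq2 hq3
  rcases le_or_gt (nP q + nN q * nJ q) 0 with h4 | h4
  · exact Psi_of_lt_zero hq1 h4
  · rw [Psi_of_lt hq1 h4]
    have h5 := Real.log_le_log h4 hq3.le
    rw [Real.log_mul (by positivity) (Real.exp_pos _).ne', Real.log_exp, Real.log_pow] at h5
    push_cast at h5
    rw [hm.low _ (by linarith), add_zero]

/-- either `p` is outside the closed half tube, or in the open tube -/
theorem psi_tube_cases (hd : TubeGood d) {p : V4} (hp : p ∈ Mh) :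
    d / 2 * nE p < a2 p ∨ a2 p < d * nE p := by
  rcases lt_or_ge (d / 2 * nE p) (a2 p) with h | h
  · exact Or.inl h
  · right
    have hd0 := hd.pos
    have hE0 := nE_nonneg p
    have hE : 0 < nE p := by
      refine nE_pos hp (d := d / 2) h
    nlinarith

theorem psi_smooth (hm : MReg m) (hd : TubeGood d) (hA : AGood d A) {p : V4} (hp : p ∈ Mh)
    (hZ : p ∉ Zh) : ContDiffAt ℝ ∞ (Psi m d A) p := by
  have hp1 : p.1 ≠ 0 := hp.1
  have hd0 := hd.pos
  rcases psi_tube_cases hd hp with h | h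
  · have ha : 0 < a2 p := lt_of_le_of_lt (mul_nonneg (by linarith) (nE_nonneg p)) h
    have hs := sum_pos hp hZ (psi_x2_ne_of_a2 ha)
    have h1 : ∀ᶠ q in 𝓝 p, d / 2 * nE q < a2 q :=
      (continuousAt_const.mul (nE_smooth p).continuousAt).eventually_lt
        (a2_smooth hp1).continuousAt h
    have h2 : ∀ᶠ q in 𝓝 p, q ∈ Mh := isOpen_Mh.mem_nhds hp
    have h3 : Psi m d A =ᶠ[𝓝 p] fun q => Real.log (nP q + nN q * nJ q) / 4 := by
      filter_upwards [h1, h2] with q hq1 hq2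
      exact psi_out hm hd hA hq2 hq1.le
    refine ContDiffAt.congr_of_eventuallyEq ?_ h3
    exact ((psi_sum_smooth hp1).log hs.ne').div_const 4
  · have hE : 0 < nE p := nE_pos hp h.le
    rcases (psi_sum_nonneg p).eq_or_lt with h0 | h0
    · refine ContDiffAt.congr_of_eventuallyEq ?_ (psi_near_zero hm hp h h0.symm)
      exact ((nE_smooth p).log hE.ne').sub contDiffAt_const
    · have h1 : ∀ᶠ q in 𝓝 p, a2 q < d * nE q :=
        (a2_smooth hp1).continuousAt.eventually_lt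
          (continuousAt_const.mul (nE_smooth p).continuousAt) h
      have h2 : ∀ᶠ q in 𝓝 p, 0 < nP q + nN q * nJ q :=
        (psi_sum_smooth hp1).continuousAt.eventually (isOpen_Ioi.mem_nhds h0)
      have h3 : Psi m d A =ᶠ[𝓝 p] fun q => Real.log (nE q) - A +
          m (Real.log (nP q + nN q * nJ q) / 4 - (Real.log (nE q) - A)) := by
        filter_upwards [h1, h2] with q hq1 hq2
        exact Psi_of_lt hq1 hq2
      refine ContDiffAt.congr_of_eventuallyEq ?_ h3
      have h4 : ContDiffAt ℝ ∞ (fun q : V4 => Real.log (nE q) - A) p :=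
        ((nE_smooth p).log hE.ne').sub contDiffAt_const
      have h5 : ContDiffAt ℝ ∞ (fun q : V4 => Real.log (nP q + nN q * nJ q) / 4) p :=
        ((psi_sum_smooth hp1).log h0.ne').div_const 4
      exact h4.add (hm.smooth.contDiffAt.comp p (h5.sub h4))

theorem psi_psh (hm : MReg m) (hd : TubeGood d) (hA : AGood d A) :
    PshE (Psi m d A) (Mh \ Zh) := by
  refine PshE.of_local psi_isOpen_diff ?_
  intro p hpZ
  obtain ⟨hp, hZ⟩ := hpZ
  have hp1 : p.1 ≠ 0 := hp.1
  have hd0 := hd.pos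
  have hW0 : ∀ᶠ q in 𝓝 p, q ∈ Mh \ Zh := psi_isOpen_diff.mem_nhds ⟨hp, hZ⟩
  -- it suffices to find an eventual neighbourhood condition
  have key : ∀ {Q : V4 → Prop}, (∀ᶠ q in 𝓝 p, Q q) →
      (∀ W : Set V4, W ⊆ Mh \ Zh → (∀ q ∈ W, Q q) → PshE (Psi m d A) W) →
      ∃ W : Set V4, IsOpen W ∧ p ∈ W ∧ PshE (Psi m d A) W := by
    intro Q hQ hcl
    obtain ⟨W, hW, hWo, hpW⟩ := _root_.eventually_nhds_iff.1 (hQ.and hW0)
    exact ⟨W, hWo, hpW, hcl W (fun q hq => (hW q hq).2) fun q hq => (hW q hq).1⟩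
  rcases psi_tube_cases hd hp with h | h
  · have h1 : ∀ᶠ q in 𝓝 p, d / 2 * nE q < a2 q :=
      (continuousAt_const.mul (nE_smooth p).continuousAt).eventually_lt
        (a2_smooth hp1).continuousAt h
    refine key h1 fun W hW hQ => ?_
    have hWO : W ⊆ O4 := fun q hq => Mh_sub_O4 (hW hq).1
    refine (psi_logsum_psh hWO fun q hq => ?_).congr fun q hq => ?_
    · have ha : 0 < a2 q :=
        lt_of_le_of_lt (mul_nonneg (by linarith) (nE_nonneg q)) (hQ q hq)
      exact sum_pos (hW hq).1 (hW hq).2 (psi_x2_ne_of_a2 ha)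
    · exact psi_out hm hd hA (hW hq).1 (hQ q hq).le
  · have hE : 0 < nE p := nE_pos hp h.le
    have h2 : ∀ᶠ q in 𝓝 p, 0 < nE q :=
      (nE_smooth p).continuousAt.eventually (isOpen_Ioi.mem_nhds hE)
    rcases (psi_sum_nonneg p).eq_or_lt with h0 | h0
    · refine key ((psi_near_zero (A := A) hm hp h h0.symm).and h2) fun W hW hQ => ?_
      have hWO : W ⊆ O4 := fun q hq => Mh_sub_O4 (hW hq).1
      exact (psi_lognE_psh hWO (fun q hq => (hQ q hq).2) A).congr fun q hq => (hQ q hq).1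
    · have h1 : ∀ᶠ q in 𝓝 p, a2 q < d * nE q :=
        (a2_smooth hp1).continuousAt.eventually_lt
          (continuousAt_const.mul (nE_smooth p).continuousAt) h
      have h3 : ∀ᶠ q in 𝓝 p, 0 < nP q + nN q * nJ q :=
        (psi_sum_smooth hp1).continuousAt.eventually (isOpen_Ioi.mem_nhds h0)
      refine key (h1.and (h2.and h3)) fun W hW hQ => ?_
      have hWO : W ⊆ O4 := fun q hq => Mh_sub_O4 (hW hq).1
      have h4 := psi_logsum_psh hWO fun q hq => (hQ q hq).2.2
      have h5 := psi_lognE_psh hWO (fun q hq => (hQ q hq).2.1) A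
      refine (h4.convex_comp₂ h5 hm.convexOn hm.monotone).congr fun q hq => ?_
      exact Psi_of_lt (hQ q hq).1 (hQ q hq).2.2

theorem psi_gG (hd : TubeGood d) (n : ℤ) {p : V4} (hp : p ∈ Mh) :
    Psi m d A (gG n p) = Psi m d A p := by
  have hp1 : p.1 ≠ 0 := hp.1
  unfold Psi
  rw [a2_gG n hp1, nE_gG n p, nP_gG n hp1, nN_gG n hp1, nJ_gG n hp1]

theorem psi_sc (hm : MReg m) (hd : TubeGood d) (hA : AGood d A) {t : ℂ} (ht : t ≠ 0) {p : V4}
    (hp : p ∈ Mh) (hZ : p ∉ Zh) :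
    Psi m d A (sc t p) = Psi m d A p + 2 * Real.log ‖t‖ := by
  have hd0 := hd.pos
  have ht0 : 0 < ‖t‖ := norm_pos_iff.2 ht
  have hsum : nP (sc t p) + nN (sc t p) * nJ (sc t p) = ‖t‖ ^ 8 * (nP p + nN p * nJ p) := by
    rw [nP_sc, nN_sc, nJ_sc]
    ring
  have hlog : 0 < nP p + nN p * nJ p →
      Real.log (nP (sc t p) + nN (sc t p) * nJ (sc t p)) / 4 =
        Real.log (nP p + nN p * nJ p) / 4 + 2 * Real.log ‖t‖ := by
    intro h
    rw [hsum, Real.log_mul (by positivity) h.ne', Real.log_pow]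
    push_cast
    ring
  rcases lt_or_ge (a2 p) (d * nE p) with h | h
  · have hE : 0 < nE p := nE_pos hp h.le
    have h' : a2 (sc t p) < d * nE (sc t p) := by
      rw [a2_sc, nE_sc]
      have h1 : ‖t‖ ^ 2 * a2 p < ‖t‖ ^ 2 * (d * nE p) :=
        mul_lt_mul_of_pos_left h (by positivity)
      linarith
    have hlE : Real.log (nE (sc t p)) = Real.log (nE p) + 2 * Real.log ‖t‖ := by
      rw [nE_sc, Real.log_mul (by positivity) hE.ne', Real.log_pow]
      push_cast
      ring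
    rcases (psi_sum_nonneg p).eq_or_lt with h0 | h0
    · rw [Psi_of_lt_zero h h0.symm.le, Psi_of_lt_zero h' (by rw [hsum, ← h0, mul_zero]), hlE]
      ring
    · have h0' : 0 < nP (sc t p) + nN (sc t p) * nJ (sc t p) := by
        rw [hsum]
        positivity
      rw [Psi_of_lt h h0, Psi_of_lt h' h0', hlog h0, hlE]
      have h2 : Real.log (nP p + nN p * nJ p) / 4 + 2 * Real.log ‖t‖ -
          (Real.log (nE p) + 2 * Real.log ‖t‖ - A) =
          Real.log (nP p + nN p * nJ p) / 4 - (Real.log (nE p) - A) := by ring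
      rw [h2]
      ring
  · have h' : d * nE (sc t p) ≤ a2 (sc t p) := by
      rw [a2_sc, nE_sc]
      have h1 : ‖t‖ ^ 2 * (d * nE p) ≤ ‖t‖ ^ 2 * a2 p :=
        mul_le_mul_of_nonneg_left h (by positivity)
      linarith
    have ha : 0 < a2 p := by
      rcases psi_tube_cases hd hp with h1 | h1
      · exact lt_of_le_of_lt (mul_nonneg (by linarith) (nE_nonneg p)) h1
      · exact absurd h1 (not_lt.2 h)
    rw [Psi_of_ge h, Psi_of_ge h', hlog (sum_pos hp hZ (psi_x2_ne_of_a2 ha))]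

/-- on the surface `S` it is independent of `z` and depends on `‖w‖` only -/
theorem psi_S (hm : MReg m) (hd : TubeGood d) (hA : AGood d A) : ∃ G : ℝ → ℝ, Continuous G ∧
    (∀ s, |s| ≤ 1 → G s = s / 4) ∧
    ∀ z w : ℂ, z ≠ 0 → w ≠ 0 → Psi m d A (z, ![1, w, 0]) = G (Real.log (‖w‖ ^ 2)) := by
  have hd0 := hd.pos
  set G : ℝ → ℝ := fun s => Real.log (1 + Real.exp s) - A +
    m (s / 4 - (Real.log (1 + Real.exp s) - A)) with hG
  have hval : ∀ z w : ℂ, z ≠ 0 → w ≠ 0 →
      ((z, ![1, w, 0]) : V4) ∈ Mh ∧ a2 (z, ![1, w, 0]) = 0 ∧ nE (z, ![1, w, 0]) = 1 + ‖w‖ ^ 2 ∧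
      nP (z, ![1, w, 0]) = ‖w‖ ^ 2 ∧ nJ (z, ![1, w, 0]) = 0 := by
    intro z w hz hw
    refine ⟨⟨hz, ?_⟩, ?_, ?_, ?_, ?_⟩
    · intro h
      have := congrFun h 0
      simp at this
    · simp [a2]
    · simp [nE]
    · simp [nP, fP]
    · simp [nJ]
  have hmain : ∀ z w : ℂ, z ≠ 0 → w ≠ 0 →
      Psi m d A (z, ![1, w, 0]) = G (Real.log (‖w‖ ^ 2)) := by
    intro z w hz hw
    have hw0 : 0 < ‖w‖ := norm_pos_iff.2 hw
    obtain ⟨h1, h2, h3, h4, h5⟩ := hval z w hz hw
    have h6 : a2 (z, ![1, w, 0]) < d * nE (z, ![1, w, 0]) := by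
      rw [h2, h3]
      positivity
    have h7 : 0 < nP (z, ![1, w, 0]) + nN (z, ![1, w, 0]) * nJ (z, ![1, w, 0]) := by
      rw [h4, h5, mul_zero, add_zero]
      positivity
    rw [Psi_of_lt h6 h7, h3, h4, h5, mul_zero, add_zero, hG]
    simp only
    rw [Real.exp_log (by positivity)]
  refine ⟨G, ?_, ?_, hmain⟩
  · have h1 : Continuous fun s : ℝ => Real.log (1 + Real.exp s) :=
      (continuous_const.add Real.continuous_exp).log fun s => (add_pos one_pos (Real.exp_pos s)).ne'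
    exact (h1.sub continuous_const).add (hm.smooth.continuous.comp
      ((continuous_id.div_const 4).sub (h1.sub continuous_const)))
  · intro s hs
    rw [abs_le] at hs
    set w : ℂ := ((Real.exp (s / 2) : ℝ) : ℂ) with hw
    have hn : ‖w‖ = Real.exp (s / 2) := by
      rw [hw, Complex.norm_real, Real.norm_of_nonneg (Real.exp_pos _).le]
    have hn2 : ‖w‖ ^ 2 = Real.exp s := by
      rw [hn, ← Real.exp_nat_mul]
      congr 1
      push_cast
      ring
    have hw0 : w ≠ 0 := by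
      rw [← norm_ne_zero_iff, hn]
      exact (Real.exp_pos _).ne'
    have h1 := hmain 1 w one_ne_zero hw0
    obtain ⟨g1, g2, g3, g4, g5⟩ := hval 1 w one_ne_zero hw0
    rw [hn2, Real.log_exp] at h1
    have hb : band1 ((1 : ℂ), (![1, w, 0] : Fin 3 → ℂ)) := by
      constructor
      · change ‖w‖ ^ 2 ≤ Real.exp 1 * ‖(1 : ℂ)‖ ^ 2
        rw [hn2, norm_one, one_pow, mul_one]
        exact Real.exp_le_exp.2 hs.2
      · change ‖(1 : ℂ)‖ ^ 2 ≤ Real.exp 1 * ‖w‖ ^ 2
        rw [hn2, norm_one, one_pow, ← Real.exp_add]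
        exact Real.one_le_exp (by linarith)
    have ht : a2 ((1 : ℂ), (![1, w, 0] : Fin 3 → ℂ)) ≤
        d * nE ((1 : ℂ), (![1, w, 0] : Fin 3 → ℂ)) := by
      rw [g2, g3]
      exact mul_nonneg hd0.le (by positivity)
    rw [← h1, psi_band hm hd hA g1 ht hb, g4, g5, mul_zero, add_zero, hn2, Real.log_exp]

/-- on the conic it is `log ‖P‖ ^ 2 / 4` -/
theorem psi_C (hm : MReg m) (hd : TubeGood d) (hA : AGood d A) {s : ℂ} (hs : s ∉ Rt) :
    Psi m d A (pC s) = Real.log ‖1 + s + s ^ 8‖ / 2 := by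
  have hp : pC s ∈ Mh := by
    refine ⟨one_ne_zero, ?_⟩
    intro h
    have := congrFun h 0
    simp [pC] at this
  have hJ : nJ (pC s) = 0 := by
    unfold nJ
    rw [nJp_pC, mul_zero]
  have hP : nP (pC s) = ‖1 + s + s ^ 8‖ ^ 2 := by
    unfold nP
    rw [fP_pC]
  have hv : Real.log (nP (pC s) + nN (pC s) * nJ (pC s)) / 4 =
      Real.log ‖1 + s + s ^ 8‖ / 2 := by
    rw [hJ, mul_zero, add_zero, hP, Real.log_pow]
    push_cast
    ring
  rcases lt_or_ge (a2 (pC s)) (d * nE (pC s)) with h | h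
  · obtain ⟨h0, h1, -, h3, -, -, -⟩ := hd.t2 (pC s) hp h.le (by
      rw [nJp_pC]
      exact nB_nonneg _)
    have hb : band1 (pC s) := by
      have n0 : 0 < ‖(pC s).2 0‖ ^ 2 := by positivity
      have n1 : 0 < ‖(pC s).2 1‖ ^ 2 := by positivity
      rw [abs_le] at h3
      unfold sg at h3
      constructor
      · rw [← Real.log_le_log_iff n1 (by positivity), Real.log_mul (Real.exp_pos _).ne' n0.ne',
          Real.log_exp]
        linarith [h3.2]
      · rw [← Real.log_le_log_iff n0 (by positivity), Real.log_mul (Real.exp_pos _).ne' n1.ne',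
          Real.log_exp]
        linarith [h3.1]
    rw [psi_band hm hd hA hp h.le hb, hv]
  · rw [Psi_of_ge h, hv]

end RG
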