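import Pool.Agent.H14.RG.PotM

/-!
# Module Q1: rigidity on the surface `S`
-/

open scoped Topology ContDiff
open Set Metric

namespace RG

/-- a point of the surface `S` -/
noncomputable def ptS (C : Cst) (z w : ℂ) : C.X := C.B.sm (Q0 (z, ![1, w, 0]))

/-- hypotheses on a function on `X`, in the charts -/
structure Tst (C : Cst) (u : C.X → ℝ) : Prop where
  cont : Continuous u
  smooth : ∀ i, ContDiffOn ℝ 1 (fun y => u (C.P.ψ i y)) (C.P.U i)
  psh : ∀ i, PshE (fun y => u (C.P.ψ i y) + (potW C).R i y) (C.P.U i)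

variable {C : Cst} {u : C.X → ℝ}

theorem sec0_eq (z w : ℂ) : sec 0 ![z, w, 0] = (z, ![1, w, 0]) := by
  simp [sec]

theorem ptS_eq (C : Cst) {z w : ℂ} (_hz : z ≠ 0) {z0 : ℂ} (h0 : z0 ≠ 0)
    (h : ‖z - z0‖ < ‖z0‖ / 4) :
    ![z, w, 0] ∈ C.P.U (Sum.inl (⟨z0, h0⟩, 0)) ∧
      ptS C z w = C.P.ψ (Sum.inl (⟨z0, h0⟩, 0)) ![z, w, 0] := by
  refine ⟨?_, ?_⟩
  · rw [C.mem_inl]
    refine ⟨?_, ?_⟩
    · change ‖(![z, w, 0] : E3) 0 - z0‖ < ‖z0‖ / 4
      simpa using h
    · intro hZ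
      apply hZ.2.2.2
      rw [sec0_eq]
      rfl
  · rw [C.psi_inl, sec0_eq]
    rfl

/-- congruence near the point -/
theorem LSub.congr_near {f g : ℂ → ℝ} {z : ℂ} (hf : LSub f z) (h : g =ᶠ[𝓝 z] f) : LSub g z := by
  obtain ⟨ρ, hρ, hf⟩ := hf
  obtain ⟨ε, hε, hε'⟩ := Metric.eventually_nhds_iff_ball.1 h
  refine ⟨min ρ ε, lt_min hρ hε, fun r h0 hr => ?_⟩
  rw [h.self_of_nhds]
  refine (hf r h0 (hr.trans_le (min_le_left _ _))).trans_eq ?_
  refine avg_congr h0 fun w hw => ?_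
  refine (hε' w ?_).symm
  rw [mem_ball]
  rw [mem_sphere] at hw
  rw [hw]
  exact hr.trans_le (min_le_right _ _)

/-- removing a constant -/
theorem LSub.of_add_const {f : ℂ → ℝ} {z : ℂ} {k : ℝ} (hc : Continuous f)
    (hf : LSub (fun w => f w + k) z) : LSub f z := by
  obtain ⟨ρ, hρ, hf⟩ := hf
  refine ⟨ρ, hρ, fun r h0 hr => ?_⟩
  have h1 := hf r h0 hr
  have h2 : Real.circleAverage (fun w => f w + k) z r = Real.circleAverage f z r + k := by
    have h3 := Real.circleAverage_add (f₁ := f) (f₂ := fun _ => k) (c := z) (R := r)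
      (hc.continuousOn.circleIntegrable h0.le) (continuous_const.continuousOn.circleIntegrable h0.le)
    rw [Real.circleAverage_const] at h3
    exact h3
  linarith

theorem ptS_contAt {α : Type} [TopologicalSpace α] {a b : α → ℂ} {x : α} (ha : ContinuousAt a x)
    (hb : ContinuousAt b x) (h : a x ≠ 0) : ContinuousAt (fun x => ptS C (a x) (b x)) x := by
  have hpos : 0 < ‖a x‖ / 4 := by
    have := norm_pos_iff.2 h
    positivity
  have hg : ContinuousAt (fun x' => (![a x', b x', 0] : E3)) x := by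
    rw [continuousAt_pi]
    intro i
    fin_cases i
    · exact ha
    · exact hb
    · exact continuousAt_const
  have hU := (ptS_eq C (w := b x) h h (by simpa using hpos)).1
  have hψ : ContinuousAt (C.P.ψ (Sum.inl (⟨a x, h⟩, 0))) ![a x, b x, 0] :=
    (C.P.cont _).continuousAt ((C.P.isOpen_U _).mem_nhds hU)
  have h1 : ContinuousAt (fun x' => C.P.ψ (Sum.inl (⟨a x, h⟩, 0)) ![a x', b x', 0]) x :=
    ContinuousAt.comp (f := fun x' => (![a x', b x', 0] : E3)) (g := C.P.ψ _) hψ hg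
  refine h1.congr ?_
  have h2 : ∀ᶠ x' in 𝓝 x, ‖a x' - a x‖ < ‖a x‖ / 4 := by
    have := ha.eventually (Metric.ball_mem_nhds (a x) hpos)
    filter_upwards [this] with x' hx'
    rwa [dist_eq_norm] at hx'
  filter_upwards [h2, ha.eventually_ne h] with x' h3 h4
  exact (ptS_eq C h4 h h3).2.symm

theorem S_lsub (hu : Tst C u) {a b : ℂ → ℂ} {x : ℂ} (ha : AnalyticAt ℂ a x)
    (hb : AnalyticAt ℂ b x) (h : a x ≠ 0) :
    LSub (fun ζ => u (ptS C (a ζ) (b ζ)) + Psi C.m C.d C.A (a ζ, ![1, b ζ, 0])) x := by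
  have hpos : 0 < ‖a x‖ / 4 := by
    have := norm_pos_iff.2 h
    positivity
  have hg : AnalyticAt ℂ (fun x' => (![a x', b x', 0] : E3)) x := by
    rw [analyticAt_pi_iff]
    intro i
    fin_cases i
    · exact ha
    · exact hb
    · exact analyticAt_const
  have hU := (ptS_eq C (w := b x) h h (by simpa using hpos)).1
  have h1 := (hu.psh (Sum.inl (⟨a x, h⟩, 0))).lsub (C.P.isOpen_U _) hg hU
  refine h1.congr_near ?_
  have h2 : ∀ᶠ x' in 𝓝 x, ‖a x' - a x‖ < ‖a x‖ / 4 := by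
    have := ha.continuousAt.eventually (Metric.ball_mem_nhds (a x) hpos)
    filter_upwards [this] with x' hx'
    rwa [dist_eq_norm] at hx'
  filter_upwards [h2, ha.continuousAt.eventually_ne h] with x' h3 h4
  rw [(ptS_eq C h4 h h3).2]
  change _ = _ + Psi C.m C.d C.A (sec 0 ![a x', b x', 0])
  rw [sec0_eq]

/-- constancy on the leaves -/
theorem leaf (hu : Tst C u) {z z' w : ℂ} (hz : z ≠ 0) (hz' : z' ≠ 0) (hw : w ≠ 0) :
    u (ptS C z w) = u (ptS C z' w) := by
  obtain ⟨G, -, -, hG⟩ := psi_S C.hm C.hd C.hA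
  set f : ℂ → ℝ := fun ζ => u (ptS C (Complex.exp ζ) w) with hf
  have hfc : Continuous f := by
    rw [continuous_iff_continuousAt]
    intro ζ
    exact ContinuousAt.comp (g := u) hu.cont.continuousAt
      (ptS_contAt Complex.continuous_exp.continuousAt continuousAt_const (Complex.exp_ne_zero ζ))
  have hs : ∀ ζ, LSub f ζ := by
    intro ζ
    apply LSub.of_add_const (k := G (Real.log (‖w‖ ^ 2))) hfc
    have h1 := S_lsub hu (a := Complex.exp) (b := fun _ => w) (x := ζ)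
      (Complex.differentiable_exp.analyticAt ζ) analyticAt_const (Complex.exp_ne_zero ζ)
    refine h1.congr_near (Filter.Eventually.of_forall fun ζ' => ?_)
    change _ = _ + Psi C.m C.d C.A (Complex.exp ζ', ![1, w, 0])
    rw [hG _ _ (Complex.exp_ne_zero ζ') hw]
  have := C.compact
  obtain ⟨M, hM⟩ : ∃ M, ∀ x, u x ≤ M := by
    obtain ⟨M, hM⟩ := (isCompact_range hu.cont).bddAbove
    exact ⟨M, fun x => hM ⟨x, rfl⟩⟩
  have hL := lsub_liouville hfc hs (M := M) (fun ζ => hM _) (Complex.log z) (Complex.log z')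
  simp only [hf] at hL
  rwa [Complex.exp_log hz, Complex.exp_log hz'] at hL

theorem ptS_mem (z w : ℂ) (hz : z ≠ 0) : ((z, ![1, w, 0]) : V4) ∈ Mh := by
  refine ⟨hz, fun h => ?_⟩
  have := congrFun h 0
  simp at this

theorem eta_inv (hu : Tst C u) {w : ℂ} (hw : w ≠ 0) (n : ℤ) :
    u (ptS C 1 (eta ^ n * w)) = u (ptS C 1 w) := by
  have h1 : ptS C 1 w = ptS C (tau ^ n) (eta ^ n * w) := by
    unfold ptS
    congr 1
    rw [Q0_eq (ptS_mem 1 w one_ne_zero) (ptS_mem _ _ (zpow_ne_zero n tau_ne))]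
    refine ⟨n, 1, one_ne_zero, ?_⟩
    simp [sc, gG]
  rw [h1]
  exact leaf hu one_ne_zero (zpow_ne_zero n tau_ne) (mul_ne_zero (zpow_ne_zero n eta_ne) hw)

/-- invariance under rotations -/
theorem rotate (hu : Tst C u) {w v : ℂ} (hw : w ≠ 0) (hv : ‖v‖ = 1) :
    u (ptS C 1 (v * w)) = u (ptS C 1 w) := by
  have hcont : ContinuousAt (fun v' : ℂ => u (ptS C 1 (v' * w))) v :=
    ContinuousAt.comp (g := u) hu.cont.continuousAt
      (ptS_contAt continuousAt_const (continuousAt_id.mul continuousAt_const) one_ne_zero)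
  by_contra hne
  have h1 := hcont.eventually_ne hne
  obtain ⟨ε, hε, hε'⟩ := Metric.eventually_nhds_iff_ball.1 h1
  obtain ⟨n, hn⟩ := eta_dense_int v hv hε
  apply hε' (eta ^ n) (by rwa [mem_ball, dist_eq_norm])
  exact eta_inv hu hw n

/-- `u + Psi` on `S` is a convex function of `log ‖w‖ ^ 2` -/
theorem convex_S (hu : Tst C u) : ∃ H : ℝ → ℝ, ConvexOn ℝ univ H ∧
    ∀ w : ℂ, w ≠ 0 →
      u (ptS C 1 w) + Psi C.m C.d C.A (1, ![1, w, 0]) = H (Real.log (‖w‖ ^ 2)) := by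
  obtain ⟨G, hGc, -, hG⟩ := psi_S C.hm C.hd C.hA
  set H : ℝ → ℝ := fun s => u (ptS C 1 ((Real.exp (s / 2) : ℝ) : ℂ)) + G s with hH
  have hHc : Continuous H := by
    refine Continuous.add ?_ hGc
    rw [continuous_iff_continuousAt]
    intro s
    refine ContinuousAt.comp (g := u) hu.cont.continuousAt
      (ptS_contAt continuousAt_const ?_ one_ne_zero)
    fun_prop
  have hval : ∀ w : ℂ, w ≠ 0 →
      u (ptS C 1 w) + Psi C.m C.d C.A (1, ![1, w, 0]) = H (Real.log (‖w‖ ^ 2)) := by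
    intro w hw
    have hpos : 0 < ‖w‖ := norm_pos_iff.2 hw
    have h1 : Real.exp (Real.log (‖w‖ ^ 2) / 2) = ‖w‖ := by
      rw [Real.log_pow]
      push_cast
      rw [mul_div_cancel_left₀ _ (two_ne_zero), Real.exp_log hpos]
    have hne : ((‖w‖ : ℝ) : ℂ) ≠ 0 := by
      rw [Complex.ofReal_ne_zero]
      exact hpos.ne'
    have h2 : u (ptS C 1 w) = u (ptS C 1 ((‖w‖ : ℝ) : ℂ)) := by
      have h3 := rotate hu (w := ((‖w‖ : ℝ) : ℂ)) (v := w / ((‖w‖ : ℝ) : ℂ)) hne
        (by rw [norm_div, Complex.norm_real, norm_norm, div_self hpos.ne'])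
      rwa [div_mul_cancel₀ _ hne] at h3
    simp only [hH]
    rw [h1, ← h2, hG 1 w one_ne_zero hw]
  refine ⟨H, lsub_radial_convex hHc hval ?_, hval⟩
  intro w _
  exact S_lsub hu (a := fun _ => 1) (b := fun ζ => ζ) analyticAt_const analyticAt_id one_ne_zero

end RG
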