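import Mathlib

/-!
# One variable: local submean property
-/

open scoped Topology
open Set Metric

namespace RG

/-- local submean inequality of `f : ℂ → ℝ` at `z` (small circles) -/
def LSub (f : ℂ → ℝ) (z : ℂ) : Prop :=
  ∃ ρ > 0, ∀ r, 0 < r → r < ρ → f z ≤ Real.circleAverage f z r

end RG
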