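import Pool.Agent.H14.RG.Inv
import Pool.Agent.H14.RG.ParDefs

/-!
# The compact manifold `X0` (quotient of the cone)
-/

open scoped Topology ContDiff
open Set Metric

namespace RG

/-- the equivalence relation on the cone -/
def Rel (p p' : V4) : Prop := ∃ n : ℤ, ∃ t : ℂ, t ≠ 0 ∧ p' = sc t (gG n p)

theorem Rel.refl {p : V4} : Rel p p := by
  refine ⟨0, 1, one_ne_zero, ?_⟩
  rw [gG_zero]
  simp [sc]

theorem Rel.symm {p p' : V4} (hp : p ∈ Mh) (h : Rel p p') : Rel p' p := by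
  obtain ⟨n, t, ht, rfl⟩ := h
  refine ⟨-n, t⁻¹, inv_ne_zero ht, ?_⟩
  rw [gG_sc, sc_sc, inv_mul_cancel₀ ht, ← gG_add _ _ hp.1]
  simp [gG_zero, sc]

theorem Rel.trans {p p' p'' : V4} (hp : p ∈ Mh) (h : Rel p p') (h' : Rel p' p'') :
    Rel p p'' := by
  obtain ⟨n, t, ht, rfl⟩ := h
  obtain ⟨n', t', ht', rfl⟩ := h'
  refine ⟨n' + n, t' * t, mul_ne_zero ht' ht, ?_⟩
  rw [gG_sc, sc_sc, gG_add _ _ hp.1]

/-- the setoid -/
def relSetoid : Setoid Mh where
  r := fun p p' => Rel p p'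
  iseqv := ⟨fun _ => Rel.refl, fun {p _} h => Rel.symm p.2 h, fun {p _ _} h h' => Rel.trans p.2 h h'⟩

/-- the compact 3-fold `X0` -/
def X0 : Type := Quotient relSetoid

noncomputable instance : TopologicalSpace X0 := inferInstanceAs (TopologicalSpace (Quotient relSetoid))

theorem base_mem : ((1 : ℂ), (![1, 0, 0] : Fin 3 → ℂ)) ∈ Mh := by
  refine ⟨one_ne_zero, fun h => ?_⟩
  have := congrFun h 0
  simp at this

/-- the projection, extended by a constant outside the cone -/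
noncomputable def Q0 (p : V4) : X0 := by
  classical
  exact if h : p ∈ Mh then Quotient.mk relSetoid ⟨p, h⟩ else Quotient.mk relSetoid ⟨_, base_mem⟩

/-- domain of the chart `(z0, j)` -/
def U0 (z0 : ℂ) : Set E3 := {y | ‖y 0 - z0‖ < ‖z0‖ / 4}

end RG
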