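import Pool.Agent.H14.RG.X0MAux

/-!
# Module J: the compact manifold `X0`, the atlas and connectedness
-/

open scoped Topology ContDiff
open Set Metric

namespace RG

namespace X0x

/-- affine coordinates -/
noncomputable def aj (j : Fin 3) (p : V4) : E3 :=
  if j = 0 then ![p.1, p.2 1 / p.2 0, p.2 2 / p.2 0]
  else if j = 1 then ![p.1, p.2 0 / p.2 1, p.2 2 / p.2 1]
  else ![p.1, p.2 0 / p.2 2, p.2 1 / p.2 2]

theorem aj_sec (j : Fin 3) (y : E3) : aj j (sec j y) = y := by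
  funext i
  fin_cases j <;> fin_cases i <;> simp [aj, sec]

theorem sec_aj {j : Fin 3} {p : V4} (h : p.2 j ≠ 0) : sec j (aj j p) = sc (p.2 j)⁻¹ p := by
  refine Prod.ext ?_ ?_
  · fin_cases j <;> simp [aj, sec, sc]
  · funext i
    fin_cases j <;> fin_cases i <;> simp_all [aj, sec, sc, div_eq_inv_mul]

theorem aj_zero (j : Fin 3) (p : V4) : aj j p 0 = p.1 := by
  fin_cases j <;> simp [aj]

theorem aj_sc {j : Fin 3} {t : ℂ} (ht : t ≠ 0) (p : V4) : aj j (sc t p) = aj j p := by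
  funext i
  fin_cases j <;> fin_cases i <;> simp [aj, sc, mul_div_mul_left _ _ ht]

theorem sec_snd (j : Fin 3) (y : E3) : (sec j y).2 j = 1 := by
  fin_cases j <;> simp [sec]

theorem aj_analytic {j : Fin 3} {p : V4} (h : p.2 j ≠ 0) : AnalyticAt ℂ (aj j) p := by
  rw [analyticAt_pi_iff]
  intro i
  have hc : ∀ i : Fin 3, AnalyticAt ℂ (fun p : V4 => p.2 i) p := fun i => coord_analytic i p
  fin_cases j <;> fin_cases i
  · exact analyticAt_fst
  · exact (hc 1).div (hc 0) h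
  · exact (hc 2).div (hc 0) h
  · exact analyticAt_fst
  · exact (hc 0).div (hc 1) h
  · exact (hc 2).div (hc 1) h
  · exact analyticAt_fst
  · exact (hc 0).div (hc 2) h
  · exact (hc 1).div (hc 2) h

/-- the domain of `aj` -/
def Mj (j : Fin 3) : Set V4 := {p | p.1 ≠ 0 ∧ p.2 j ≠ 0}

theorem Mj_open (j : Fin 3) : IsOpen (Mj j) :=
  (isOpen_ne_fun continuous_fst continuous_const).inter
    (isOpen_ne_fun ((continuous_apply j).comp continuous_snd) continuous_const)

theorem Mj_sub (j : Fin 3) : Mj j ⊆ Mh := fun _ hp =>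
  ⟨hp.1, fun h => hp.2 (by rw [h]; rfl)⟩

theorem aj_cont (j : Fin 3) : ContinuousOn (aj j) (Mj j) := fun _ hp =>
  (aj_analytic hp.2).continuousAt.continuousWithinAt

theorem Q0_sec_aj {j : Fin 3} {p : V4} (hp : p ∈ Mj j) : Q0 (sec j (aj j p)) = Q0 p := by
  have hp' := Mj_sub j hp
  have h : sec j (aj j p) = sc (p.2 j)⁻¹ (gG 0 p) := by
    rw [sec_aj hp.2, gG_zero]
  rw [h]
  exact ((Q0_eq hp' (sc_mem (inv_ne_zero hp.2) (gG_mem hp'))).2
    ⟨0, _, inv_ne_zero hp.2, rfl⟩).symm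

theorem norm_bd {z0 w : ℂ} (h : ‖w - z0‖ < ‖z0‖ / 4) :
    3 / 4 * ‖z0‖ < ‖w‖ ∧ ‖w‖ < 5 / 4 * ‖z0‖ := by
  have h1 : ‖z0‖ ≤ ‖w‖ + ‖w - z0‖ := by
    have := norm_sub_le w (w - z0)
    rwa [sub_sub_cancel] at this
  have h2 : ‖w‖ ≤ ‖w - z0‖ + ‖z0‖ := by
    have := norm_add_le (w - z0) z0
    rwa [sub_add_cancel] at this
  constructor <;> linarith

theorem n_zero {z0 w w' : ℂ} {n : ℤ} (hz : z0 ≠ 0) (h : ‖w - z0‖ < ‖z0‖ / 4)
    (h' : ‖w' - z0‖ < ‖z0‖ / 4) (hn : w' = tau ^ n * w) : n = 0 := by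
  obtain ⟨h1, h2⟩ := norm_bd h
  obtain ⟨h3, h4⟩ := norm_bd h'
  have hz' : 0 < ‖z0‖ := norm_pos_iff.2 hz
  rw [hn, norm_mul, norm_zpow, norm_tau] at h3 h4
  have hw : 0 < ‖w‖ := by linarith
  rcases lt_trichotomy n 0 with hneg | h0 | hpos
  · exfalso
    have h5 : (4 : ℝ) ≤ (1 / 4) ^ n := by
      have : (1 / 4 : ℝ) ^ (-1 : ℤ) ≤ (1 / 4) ^ n :=
        zpow_le_zpow_right_of_le_one₀ (by norm_num) (by norm_num) (by omega)
      norm_num at this
      simpa using this
    nlinarith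
  · exact h0
  · exfalso
    have h5 : (1 / 4 : ℝ) ^ n ≤ 1 / 4 := by
      have : (1 / 4 : ℝ) ^ n ≤ (1 / 4) ^ (1 : ℤ) :=
        zpow_le_zpow_right_of_le_one₀ (by norm_num) (by norm_num) (by omega)
      rwa [zpow_one] at this
    nlinarith

theorem sec_cont (j : Fin 3) : Continuous (sec j) :=
  continuous_iff_continuousAt.2 fun y => (sec_analytic j y).continuousAt

end X0x

open X0x

/-- index type of the atlas -/
abbrev I0 := {z0 : ℂ // z0 ≠ 0} × Fin 3

/-- the atlas of `X0` -/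
noncomputable def P0 : Par E3 X0 where
  ι := I0
  U := fun i => U0 i.1.1
  ψ := fun i y => Q0 (sec i.2 y)
  isOpen_U := fun i =>
    isOpen_lt (((continuous_apply (0 : Fin 3)).sub continuous_const).norm) continuous_const
  cont := fun i => Q0_cont.comp (sec_cont i.2).continuousOn
    fun _ hy => sec_mem (U0_ne i.1.2 hy)
  inj := by
    intro i y hy y' hy' h
    obtain ⟨n, t, ht, hh⟩ := (Q0_eq (sec_mem (U0_ne i.1.2 hy)) (sec_mem (U0_ne i.1.2 hy'))).1 h
    have hn : n = 0 := n_zero i.1.2 hy hy' (congrArg Prod.fst hh)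
    subst hn
    rw [gG_zero] at hh
    have h1 := congrArg (aj i.2) hh
    rw [aj_sc ht, aj_sec, aj_sec] at h1
    exact h1.symm
  open_map := by
    intro i V hV hVo
    have h1 : IsOpen (Mj i.2 ∩ aj i.2 ⁻¹' V) :=
      (aj_cont i.2).isOpen_inter_preimage (Mj_open i.2) hVo
    have h2 : (fun y => Q0 (sec i.2 y)) '' V = Q0 '' (Mj i.2 ∩ aj i.2 ⁻¹' V) := by
      ext x
      constructor
      · rintro ⟨y, hy, rfl⟩
        refine ⟨sec i.2 y, ⟨⟨U0_ne i.1.2 (hV hy), ?_⟩, ?_⟩, rfl⟩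
        · rw [sec_snd]
          exact one_ne_zero
        · rw [mem_preimage, aj_sec]
          exact hy
      · rintro ⟨p, ⟨hp, hpV⟩, rfl⟩
        exact ⟨aj i.2 p, hpV, Q0_sec_aj hp⟩
    rw [h2]
    exact Q0_open h1 (inter_subset_left.trans (Mj_sub i.2))
  cover := by
    intro x
    obtain ⟨p, hp, rfl⟩ := Q0_surj x
    obtain ⟨j, hj⟩ := Function.ne_iff.1 hp.2
    refine ⟨(⟨p.1, hp.1⟩, j), aj j p, ?_, Q0_sec_aj ⟨hp.1, hj⟩⟩
    have : 0 < ‖p.1‖ := norm_pos_iff.2 hp.1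
    change ‖aj j p 0 - p.1‖ < ‖p.1‖ / 4
    rw [aj_zero, sub_self, norm_zero]
    positivity
  trans := by
    intro i k y y' hy hy' h
    have hy0 := U0_ne i.1.2 hy
    obtain ⟨n, t, ht, hh⟩ := (Q0_eq (sec_mem hy0) (sec_mem (U0_ne k.1.2 hy'))).1 h
    have hk : (gG n (sec i.2 y)).2 k.2 ≠ 0 := by
      intro h0
      have h1 := sec_snd k.2 y'
      rw [hh, sc_apply, h0, mul_zero] at h1
      exact zero_ne_one h1
    have hsec : AnalyticAt ℂ (fun x => gG n (sec i.2 x)) y :=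
      AnalyticAt.comp (g := gG n) (f := sec i.2) (x := y) (gG_analytic n hy0) (sec_analytic i.2 y)
    refine ⟨fun x => aj k.2 (gG n (sec i.2 x)), ?_, ?_, ?_⟩
    · exact AnalyticAt.comp (g := aj k.2) (f := fun x => gG n (sec i.2 x)) (x := y)
        (aj_analytic hk) hsec
    · change aj k.2 (gG n (sec i.2 y)) = y'
      rw [← aj_sc ht, ← hh, aj_sec]
    · have h1 : ∀ᶠ x in 𝓝 y, (gG n (sec i.2 x)).2 k.2 ≠ 0 := by
        have hc : ContinuousAt (fun x => (gG n (sec i.2 x)).2 k.2) y :=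
          ContinuousAt.comp (g := fun p : V4 => p.2 k.2)
            ((continuous_apply k.2).comp continuous_snd).continuousAt hsec.continuousAt
        exact hc.eventually_ne hk
      have h2 : ∀ᶠ x : E3 in 𝓝 y, x 0 ≠ 0 :=
        (continuous_apply (0 : Fin 3)).continuousAt.eventually_ne hy0
      filter_upwards [h1, h2] with x hx1 hx2
      have hm : sec i.2 x ∈ Mh := sec_mem hx2
      have hm' : gG n (sec i.2 x) ∈ Mh := gG_mem hm
      change Q0 (sec k.2 (aj k.2 (gG n (sec i.2 x)))) = Q0 (sec i.2 x)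
      rw [Q0_sec_aj ⟨hm'.1, hx1⟩]
      refine ((Q0_eq hm hm').2 ⟨n, 1, one_ne_zero, ?_⟩).symm
      exact Prod.ext rfl (one_smul _ _).symm

namespace X0x

/-- the exponential parametrization -/
noncomputable def ex (y : E3) : E3 := ![Complex.exp (y 0), y 1, y 2]

theorem ex_cont : Continuous ex := by
  refine continuous_pi fun i => ?_
  fin_cases i
  · exact Complex.continuous_exp.comp (continuous_apply 0)
  · exact continuous_apply 1
  · exact continuous_apply 2

theorem ex_ne (y : E3) : ex y 0 ≠ 0 := Complex.exp_ne_zero _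

/-- the parametrization of a dense open set of `X0` by `E3` -/
noncomputable def FF (y : E3) : X0 := Q0 (sec 0 (ex y))

theorem FF_cont : Continuous FF := by
  have h : Continuous fun y => sec 0 (ex y) := (sec_cont 0).comp ex_cont
  exact continuousOn_univ.1 (Q0_cont.comp h.continuousOn fun y _ => sec_mem (ex_ne y))

theorem FF_countable (x : X0) : (FF ⁻¹' {x}).Countable := by
  rcases (FF ⁻¹' {x}).eq_empty_or_nonempty with h | ⟨y0, h0⟩
  · rw [h]
    exact countable_empty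
  · refine (countable_range (fun nk : ℤ × ℤ => (![y0 0 + nk.1 * Complex.log tau +
      nk.2 * (2 * Real.pi * Complex.I), eta ^ nk.1 * y0 1, cc nk.1 (ex y0 0) * y0 2] : E3))).mono ?_
    intro y hy
    have h1 : FF y0 = FF y := (show FF y0 = x from h0).trans (show FF y = x from hy).symm
    obtain ⟨n, t, ht, hh⟩ := (Q0_eq (sec_mem (ex_ne y0)) (sec_mem (ex_ne y))).1 h1
    have e0 : ex y 0 = tau ^ n * ex y0 0 := congrArg Prod.fst hh
    have ht1 : t = 1 := by
      have h2 := sec_snd 0 (ex y)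
      rw [hh, sc_apply] at h2
      have h3 : (gG n (sec 0 (ex y0))).2 0 = 1 := by
        change (sec 0 (ex y0)).2 0 = 1
        exact sec_snd 0 (ex y0)
      rwa [h3, mul_one] at h2
    subst ht1
    have e1 : (sec 0 (ex y)).2 1 = 1 * (eta ^ n * (sec 0 (ex y0)).2 1) := by
      rw [hh, sc_apply]
      rfl
    have e2 : (sec 0 (ex y)).2 2 = 1 * (cc n (ex y0 0) * (sec 0 (ex y0)).2 2) := by
      rw [hh, sc_apply]
      rfl
    have e1' : y 1 = eta ^ n * y0 1 := by simpa [sec, ex] using e1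
    have e2' : y 2 = cc n (ex y0 0) * y0 2 := by simpa [sec, ex] using e2
    have e0' : Complex.exp (y 0) = Complex.exp (y0 0 + n * Complex.log tau) := by
      rw [Complex.exp_add, Complex.exp_int_mul, Complex.exp_log tau_ne, mul_comm]
      exact e0
    obtain ⟨k, hk⟩ := Complex.exp_eq_exp_iff_exists_int.1 e0'
    refine ⟨(n, k), ?_⟩
    funext i
    fin_cases i
    · exact hk.symm
    · exact e1'.symm
    · exact e2'.symm

theorem one_lt_rank : 1 < Module.rank ℝ E3 := by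
  apply Module.one_lt_rank_of_one_lt_finrank
  rw [Module.finrank_pi_fintype]
  simp [Complex.finrank_real_complex]

theorem mem_range_FF {p : V4} (hp : p ∈ Mh) (h : p.2 0 ≠ 0) : Q0 p ∈ range FF := by
  refine ⟨![Complex.log p.1, aj 0 p 1, aj 0 p 2], ?_⟩
  have h1 : ex ![Complex.log p.1, aj 0 p 1, aj 0 p 2] = aj 0 p := by
    funext i
    fin_cases i
    · change Complex.exp (Complex.log p.1) = aj 0 p 0
      rw [Complex.exp_log hp.1, aj_zero]
    · rfl
    · rfl
  unfold FF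
  rw [h1]
  exact Q0_sec_aj ⟨hp.1, h⟩

end X0x

/-- off a countable set the image of the affine part is connected and dense -/
theorem X0_conn (Z : Set X0) (hZ : Z.Finite) : IsConnected (Zᶜ : Set X0) := by
  have h1 : (FF ⁻¹' Z).Countable := by
    have : FF ⁻¹' Z = ⋃ x ∈ Z, FF ⁻¹' {x} := by
      ext y
      simp
    rw [this]
    exact hZ.countable.biUnion fun x _ => FF_countable x
  have h2 : IsConnected (FF '' (FF ⁻¹' Z)ᶜ) :=
    (h1.isPathConnected_compl_of_one_lt_rank one_lt_rank).isConnected.image _ FF_cont.continuousOn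
  refine h2.subset_closure ?_ ?_
  · rintro x ⟨y, hy, rfl⟩
    exact hy
  · intro x hx
    rw [_root_.mem_closure_iff]
    intro N hN hxN
    obtain ⟨p, hp, rfl⟩ := Q0_surj x
    have h3 : IsOpen (Mh ∩ Q0 ⁻¹' (N ∩ Zᶜ)) :=
      Q0_cont.isOpen_inter_preimage isOpen_Mh (hN.inter hZ.isClosed.isOpen_compl)
    have h4 : Dense {p : V4 | p.2 0 ≠ 0} :=
      (dense_compl_singleton (0 : ℂ)).preimage ((isOpenMap_eval (0 : Fin 3)).comp isOpenMap_snd)
    obtain ⟨p', ⟨hp', hN', hZ'⟩, h0⟩ := h4.inter_open_nonempty _ h3 ⟨p, hp, hxN, hx⟩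
    obtain ⟨y, hy⟩ := mem_range_FF hp' h0
    refine ⟨Q0 p', hN', y, ?_, hy⟩
    intro hc
    exact hZ' (hy ▸ hc)

end RG
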