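import Pool.Agent.H14.RG.X0Defs
import Pool.Agent.H14.RG.Rgl

/-!
# Module J: the compact manifold `X0`, topology
-/

open scoped Topology ContDiff
open Set Metric

namespace RG

theorem Q0_eq {p p' : V4} (hp : p ∈ Mh) (hp' : p' ∈ Mh) : Q0 p = Q0 p' ↔ Rel p p' := by
  unfold Q0
  rw [dif_pos hp, dif_pos hp']
  exact Quotient.eq (r := relSetoid)

theorem Q0_surj (x : X0) : ∃ p ∈ Mh, Q0 p = x := by
  induction x using Quotient.ind with
  | _ a =>
    refine ⟨a.1, a.2, ?_⟩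
    unfold Q0
    rw [dif_pos a.2]

/-- the quotient map -/
noncomputable def X0x.mk0 (a : Mh) : X0 := Quotient.mk relSetoid a

theorem X0x.mk0_cont : Continuous X0x.mk0 := continuous_quot_mk

theorem X0x.mk0_eq (a : Mh) : X0x.mk0 a = Q0 a.1 := by
  unfold Q0
  rw [dif_pos a.2]
  rfl

theorem X0x.Q0_cont' : Continuous (fun a : Mh => Q0 a.1) := by
  have : (fun a : Mh => Q0 a.1) = X0x.mk0 := funext fun a => (X0x.mk0_eq a).symm
  rw [this]
  exact X0x.mk0_cont

theorem Q0_cont : ContinuousOn Q0 Mh :=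
  continuousOn_iff_continuous_domRestrict.2 X0x.Q0_cont'

theorem X0x.gG_cont (n : ℤ) : ContinuousOn (gG n) Mh := fun _ hp =>
  (gG_analytic n hp.1).continuousAt.continuousWithinAt

theorem X0x.sc_cont (t : ℂ) : Continuous (sc t) :=
  continuous_fst.prodMk (continuous_snd.const_smul t)

theorem Q0_open {V : Set V4} (hV : IsOpen V) (h : V ⊆ Mh) : IsOpen (Q0 '' V) := by
  have h1 : IsOpen (⋃ n : ℤ, ⋃ t : {t : ℂ // t ≠ 0},
      (Mh ∩ (fun p => sc t.1 (gG n p)) ⁻¹' V)) := by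
    refine isOpen_iUnion fun n => isOpen_iUnion fun t => ?_
    exact ((X0x.sc_cont t.1).comp_continuousOn (X0x.gG_cont n)).isOpen_inter_preimage isOpen_Mh hV
  have h2 : X0x.mk0 ⁻¹' (Q0 '' V) = Subtype.val ⁻¹'
      (⋃ n : ℤ, ⋃ t : {t : ℂ // t ≠ 0}, (Mh ∩ (fun p => sc t.1 (gG n p)) ⁻¹' V)) := by
    ext a
    have ha : X0x.mk0 a = Q0 a.1 := X0x.mk0_eq a
    simp only [mem_preimage, mem_image, mem_iUnion, mem_inter_iff]
    rw [ha]
    constructor
    · rintro ⟨v, hv, hva⟩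
      obtain ⟨n, t, ht, hh⟩ := (Q0_eq a.2 (h hv)).1 hva.symm
      exact ⟨n, ⟨t, ht⟩, a.2, hh ▸ hv⟩
    · rintro ⟨n, t, -, hh⟩
      exact ⟨_, hh, ((Q0_eq a.2 (h hh)).2 ⟨n, t.1, t.2, rfl⟩).symm⟩
  have h3 : IsOpen (X0x.mk0 ⁻¹' (Q0 '' V)) := by
    rw [h2]
    exact h1.preimage continuous_subtype_val
  exact isOpen_coinduced.2 h3

theorem sec_mem {j : Fin 3} {y : E3} (hy : y 0 ≠ 0) : sec j y ∈ Mh := by
  refine ⟨hy, fun h => ?_⟩
  have h1 := congrFun h j
  fin_cases j <;> exact one_ne_zero h1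

theorem U0_ne {z0 : ℂ} (hz : z0 ≠ 0) {y : E3} (hy : y ∈ U0 z0) : y 0 ≠ 0 := by
  intro h
  have h1 : ‖y 0 - z0‖ < ‖z0‖ / 4 := hy
  rw [h, zero_sub, norm_neg] at h1
  have : 0 < ‖z0‖ := norm_pos_iff.2 hz
  linarith

namespace X0x

/-- the open quotient map -/
theorem oqm : IsOpenQuotientMap (fun a : Mh => Q0 a.1) where
  surjective := fun x => by
    obtain ⟨p, hp, h⟩ := Q0_surj x
    exact ⟨⟨p, hp⟩, h⟩
  continuous := X0x.Q0_cont'
  isOpenMap := fun V hV => by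
    obtain ⟨W, hW, rfl⟩ := isOpen_induced_iff.1 hV
    have : (fun a : Mh => Q0 a.1) '' (Subtype.val ⁻¹' W) = Q0 '' (Mh ∩ W) := by
      ext x
      constructor
      · rintro ⟨a, ha, rfl⟩
        exact ⟨a.1, ⟨a.2, ha⟩, rfl⟩
      · rintro ⟨p, ⟨hp, hW'⟩, rfl⟩
        exact ⟨⟨p, hp⟩, hW', rfl⟩
    rw [this]
    exact Q0_open (isOpen_Mh.inter hW) inter_subset_left

/-- for fixed `n` the relation is closed -/
theorem rel_n {n : ℤ} {p p' : V4} (hp : p ∈ Mh) (hp' : p' ∈ Mh) :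
    (∃ t : ℂ, t ≠ 0 ∧ p' = sc t (gG n p)) ↔
      (p'.1 = (gG n p).1 ∧ ∀ i j : Fin 3, p'.2 i * (gG n p).2 j = p'.2 j * (gG n p).2 i) := by
  constructor
  · rintro ⟨t, ht, rfl⟩
    refine ⟨rfl, fun i j => ?_⟩
    rw [sc_apply, sc_apply]
    ring
  · rintro ⟨h1, h2⟩
    have hq : gG n p ∈ Mh := gG_mem hp
    obtain ⟨j, hj⟩ := Function.ne_iff.1 hq.2
    have hj' : (gG n p).2 j ≠ 0 := hj
    have h3 : ∀ i, p'.2 i = p'.2 j / (gG n p).2 j * (gG n p).2 i := by
      intro i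
      rw [div_mul_eq_mul_div, eq_div_iff hj']
      exact h2 i j
    refine ⟨p'.2 j / (gG n p).2 j, ?_, Prod.ext h1 (funext fun i => h3 i)⟩
    intro h0
    apply hp'.2
    funext i
    rw [h3 i, h0, zero_mul]
    rfl

/-- the level function -/
noncomputable def lev (q : Mh × Mh) : ℝ :=
  (Real.log ‖q.1.1.1‖ - Real.log ‖q.2.1.1‖) / Real.log 4

theorem lev_cont : Continuous lev := by
  unfold lev
  refine Continuous.div_const (Continuous.sub ?_ ?_) _
  · refine Continuous.log ?_ (fun q => norm_ne_zero_iff.2 q.1.2.1)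
    exact (continuous_fst.comp (continuous_subtype_val.comp continuous_fst)).norm
  · refine Continuous.log ?_ (fun q => norm_ne_zero_iff.2 q.2.2.1)
    exact (continuous_fst.comp (continuous_subtype_val.comp continuous_snd)).norm

theorem lev_eq {n : ℤ} {t : ℂ} (q : Mh × Mh) (h : q.2.1 = sc t (gG n q.1.1)) : lev q = n := by
  unfold lev
  have h1 : q.2.1.1 = tau ^ n * q.1.1.1 := by rw [h]; rfl
  have hl : Real.log 4 ≠ 0 := (Real.log_pos (by norm_num)).ne'
  rw [h1, log_tau_zpow n q.1.2.1]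
  field_simp
  ring

/-- the set for fixed `n` -/
def Fn (n : ℤ) : Set (Mh × Mh) := {q | ∃ t : ℂ, t ≠ 0 ∧ q.2.1 = sc t (gG n q.1.1)}

theorem Fn_closed (n : ℤ) : IsClosed (Fn n) := by
  have h1 : Continuous fun q : Mh × Mh => gG n q.1.1 :=
    (continuousOn_iff_continuous_domRestrict.1 (gG_cont n)).comp continuous_fst
  have h2 : Continuous fun q : Mh × Mh => (q.2.1 : V4) :=
    continuous_subtype_val.comp continuous_snd
  have h3 : Fn n = {q | q.2.1.1 = (gG n q.1.1).1} ∩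
      ⋂ i : Fin 3, ⋂ j : Fin 3, {q | q.2.1.2 i * (gG n q.1.1).2 j = q.2.1.2 j * (gG n q.1.1).2 i} := by
    ext q
    simp only [mem_inter_iff, mem_iInter, mem_ofPred_eq]
    exact rel_n q.1.2 q.2.2
  rw [h3]
  have hc : ∀ i : Fin 3, Continuous fun q : Mh × Mh => q.2.1.2 i := fun i =>
    (continuous_apply i).comp (continuous_snd.comp h2)
  have hg : ∀ i : Fin 3, Continuous fun q : Mh × Mh => (gG n q.1.1).2 i := fun i =>
    (continuous_apply i).comp (continuous_snd.comp h1)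
  refine (isClosed_eq (continuous_fst.comp h2) (continuous_fst.comp h1)).inter ?_
  exact isClosed_iInter fun i => isClosed_iInter fun j =>
    isClosed_eq ((hc i).mul (hg j)) ((hc j).mul (hg i))

theorem rel_closed : IsClosed {q : Mh × Mh | Q0 q.1.1 = Q0 q.2.1} := by
  rw [← isOpen_compl_iff, isOpen_iff_mem_nhds]
  intro q hq
  have hq' : q ∉ Fn (round (lev q)) := by
    rintro ⟨t, ht, h⟩
    exact hq ((Q0_eq q.1.2 q.2.2).2 ⟨_, t, ht, h⟩)
  have hW : {q' | |lev q' - lev q| < 1 / 4} ∈ 𝓝 q := by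
    have : Continuous fun q' => |lev q' - lev q| := (lev_cont.sub continuous_const).abs
    exact (isOpen_lt this continuous_const).mem_nhds (by simp)
  filter_upwards [hW, (Fn_closed (round (lev q))).isOpen_compl.mem_nhds hq'] with q' h1 h2
  intro h3
  obtain ⟨n, t, ht, h⟩ := (Q0_eq q'.1.2 q'.2.2).1 h3
  have h4 : lev q' = n := lev_eq q' h
  apply h2
  have h5 : round (lev q) = n := by
    rw [round_eq, Int.floor_eq_iff]
    have h6 : |lev q' - lev q| < 1 / 4 := h1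
    rw [h4, abs_lt] at h6
    constructor <;> linarith [h6.1, h6.2]
  rw [h5]
  exact ⟨t, ht, h⟩

end X0x

instance : T2Space X0 := (t2Space_iff_of_isOpenQuotientMap X0x.oqm).2 X0x.rel_closed

namespace X0x

/-- a compact set that maps onto `X0` -/
def KK : Set V4 := {p | 1 / 4 ≤ ‖p.1‖ ∧ ‖p.1‖ ≤ 1 ∧ ∑ i, ‖p.2 i‖ ^ 2 = 1}

theorem KK_sub : KK ⊆ Mh := by
  rintro p ⟨h1, h2, h3⟩
  refine ⟨fun h => ?_, fun h => ?_⟩
  · rw [h, norm_zero] at h1
    norm_num at h1
  · rw [h] at h3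
    simp at h3

theorem KK_closed : IsClosed KK := by
  have hc : Continuous fun p : V4 => ∑ i, ‖p.2 i‖ ^ 2 :=
    continuous_finsetSum _ fun i _ => (((continuous_apply i).comp continuous_snd).norm).pow 2
  exact (isClosed_le continuous_const continuous_fst.norm).inter
    ((isClosed_le continuous_fst.norm continuous_const).inter (isClosed_eq hc continuous_const))

theorem KK_compact : IsCompact KK := by
  refine Metric.isCompact_of_isClosed_isBounded KK_closed ?_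
  refine (Metric.isBounded_closedBall (x := (0 : V4)) (r := 1)).subset ?_
  rintro p ⟨h1, h2, h3⟩
  rw [mem_closedBall_zero_iff, Prod.norm_def, max_le_iff]
  refine ⟨h2, (pi_norm_le_iff_of_nonneg zero_le_one).2 fun i => ?_⟩
  have h4 : ‖p.2 i‖ ^ 2 ≤ ∑ i, ‖p.2 i‖ ^ 2 :=
    Finset.single_le_sum (f := fun i => ‖p.2 i‖ ^ 2) (fun _ _ => by positivity) (Finset.mem_univ i)
  rw [h3] at h4
  exact (sq_le_one_iff₀ (norm_nonneg _)).1 h4

end X0x

instance : CompactSpace X0 := by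
  refine ⟨?_⟩
  have h : (univ : Set X0) = Q0 '' X0x.KK := by
    symm
    rw [eq_univ_iff_forall]
    intro x
    obtain ⟨p, hp, rfl⟩ := Q0_surj x
    obtain ⟨n, t, ht, h1, h2, h3⟩ := exists_normal hp
    exact ⟨_, ⟨h1, h2, h3⟩, ((Q0_eq hp (sc_mem ht (gG_mem hp))).2 ⟨n, t, ht, rfl⟩).symm⟩
  rw [h]
  exact X0x.KK_compact.image_of_continuousOn (Q0_cont.mono X0x.KK_sub)

end RG
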