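import Pool.Agent.H14.RG.X0M
import Pool.Agent.H14.RG.BlowP
import Pool.Agent.H14.RG.LocM

/-!
# Module N: the manifold `X`, the blow-up of `X0` at the eight points
-/

open scoped Topology ContDiff
open Set Metric

namespace RG

/-- all the constants and local data -/
structure Cst where
  /-- the regularising function -/
  m : ℝ → ℝ
  /-- constants -/
  d : ℝ
  /-- constants -/
  A : ℝ
  /-- constants -/
  d0 : ℝ
  /-- constants -/
  K : ℝ
  /-- constants -/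
  r0 : ℝ
  /-- local matrices -/
  M : ℂ → Fin 3 → E3 → E3
  hm : MReg m
  hd : TubeGood d
  hA : AGood d A
  hK : KGood d d0 K
  r_pos : 0 < r0
  r_lt : r0 < 1 / 8
  sharp : ∀ t ∈ Rt, Sharp d r0 t (M t)
  disj : ∀ t ∈ Rt, ∀ t' ∈ Rt, t ≠ t' → Disjoint (closedBall (cen t) r0) (closedBall (cen t') r0)

theorem exists_Cst : Nonempty Cst := by
  obtain ⟨m, hm⟩ := exists_mreg
  obtain ⟨d, hd⟩ := exists_tubeGood
  obtain ⟨A, hA⟩ := exists_AGood hd
  obtain ⟨d0, K, hK⟩ := exists_KGood hd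
  obtain ⟨r0, h0, h1, h2, h3⟩ := exists_sharp hd
  choose M hM using h2
  classical
  refine ⟨⟨m, d, A, d0, K, r0, fun t => if h : t ∈ Rt then M t h else fun _ _ => 0,
    hm, hd, hA, hK, h0, h1, fun t ht => ?_, h3⟩⟩
  simp only [dif_pos ht]
  exact hM t ht

theorem xm_sec_cen (t : ℂ) : sec 0 (cen t) = pC t := by
  have := Lc.aff_zero t
  unfold aff at this
  rwa [add_zero] at this

theorem xm_cen_ball {t : ℂ} {r : ℝ} (hr : r < 1 / 8) : closedBall (cen t) r ⊆ U0 1 := by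
  intro y hy
  change ‖y 0 - 1‖ < ‖(1 : ℂ)‖ / 4
  rw [norm_one]
  have h1 : ‖(y - cen t) 0‖ ≤ ‖y - cen t‖ := norm_le_pi_norm _ 0
  have h2 : ‖y - cen t‖ ≤ r := by
    rw [mem_closedBall, dist_eq_norm] at hy
    exact hy
  have h3 : (y - cen t) 0 = y 0 - 1 := rfl
  rw [h3] at h1
  linarith

namespace Cst

/-- the blow-up data -/
noncomputable def B (C : Cst) : BData X0 where
  P := P0
  k := (⟨1, one_ne_zero⟩, 0)
  I := Rt
  fin := Rt_finite
  c := fun t => cen t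
  r := C.r0
  r_pos := C.r_pos
  ball_sub := fun _ => xm_cen_ball C.r_lt
  disj := by
    intro i j hij
    exact C.disj i i.2 j j.2 (fun h => hij (Subtype.ext h))

/-- the compact 3-fold -/
abbrev X (C : Cst) : Type := C.B.Bl

/-- its atlas -/
noncomputable abbrev P (C : Cst) : Par E3 C.X := C.B.par

theorem compact (C : Cst) : CompactSpace C.X := C.B.compact

theorem Z_finite (C : Cst) : C.B.Z.Finite := by
  have := C.B.fin
  exact Set.finite_range _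

theorem connected (C : Cst) : ConnectedSpace C.X := C.B.connected (X0_conn _ C.Z_finite)

/-- the base charts avoid exactly `Zh` -/
theorem notMem_Z (C : Cst) {p : V4} (hp : p ∈ Mh) : Q0 p ∉ C.B.Z ↔ p ∉ Zh := by
  rw [not_iff_not, Zh_iff hp]
  constructor
  · rintro ⟨t, ht⟩
    have h1 : Q0 (pC t.1) = Q0 p := by
      rw [← xm_sec_cen]
      exact ht
    obtain ⟨n, s, hs, h2⟩ := (Q0_eq (Iv.pC_mem t.1) hp).1 h1
    exact ⟨n, s, hs, t.1, t.2, h2⟩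
  · rintro ⟨n, s, hs, t, ht, h2⟩
    refine ⟨(⟨t, ht⟩ : Rt), ?_⟩
    change Q0 (sec 0 (cen t)) = Q0 p
    rw [xm_sec_cen]
    exact (Q0_eq (Iv.pC_mem t) hp).2 ⟨n, s, hs, h2⟩

/-- membership in the domain of a base chart -/
theorem mem_inl (C : Cst) {i : I0} {y : E3} :
    y ∈ C.P.U (Sum.inl i) ↔ y ∈ U0 i.1.1 ∧ sec i.2 y ∉ Zh := by
  change (y ∈ U0 i.1.1 ∧ Q0 (sec i.2 y) ∉ C.B.Z) ↔ _
  refine and_congr_right fun hy => ?_
  exact C.notMem_Z (sec_mem (U0_ne i.1.2 hy))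

theorem psi_inl (C : Cst) (i : I0) (y : E3) :
    C.P.ψ (Sum.inl i) y = C.B.sm (Q0 (sec i.2 y)) := rfl

/-- meeting of two base charts -/
theorem inl_inl (C : Cst) {i i' : I0} {y y' : E3} (hy : y ∈ C.P.U (Sum.inl i))
    (hy' : y' ∈ C.P.U (Sum.inl i')) :
    C.P.ψ (Sum.inl i) y = C.P.ψ (Sum.inl i') y' ↔ Rel (sec i.2 y) (sec i'.2 y') := by
  have h1 := sec_mem (j := i.2) (U0_ne i.1.2 (C.mem_inl.1 hy).1)
  have h2 := sec_mem (j := i'.2) (U0_ne i'.1.2 (C.mem_inl.1 hy').1)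
  rw [psi_inl, psi_inl, ← Q0_eq h1 h2]
  constructor
  · intro h
    have := congrArg C.B.pr h
    rwa [C.B.pr_sm, C.B.pr_sm] at this
  · intro h
    rw [h]

theorem mem_inr (C : Cst) {t : Rt} {l : Fin 3} {u : E3} :
    u ∈ C.P.U (Sum.inr (t, l)) ↔ bl l u ∈ ball (0 : E3) C.r0 := by
  rw [mem_ball_zero_iff]
  exact Iff.rfl

/-- meeting of a chart over a blown-up point with a base chart -/
theorem inr_inl (C : Cst) {t : Rt} {l : Fin 3} {i : I0} {u y : E3}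
    (hu : u ∈ C.P.U (Sum.inr (t, l))) (hy : y ∈ C.P.U (Sum.inl i))
    (h : C.P.ψ (Sum.inr (t, l)) u = C.P.ψ (Sum.inl i) y) :
    u l ≠ 0 ∧ aff t (bl l u) ∉ Zh ∧ Rel (aff t (bl l u)) (sec i.2 y) := by
  have h1 := sec_mem (j := i.2) (U0_ne i.1.2 (C.mem_inl.1 hy).1)
  have h2 : Q0 (sec i.2 y) ∉ C.B.Z := (C.notMem_Z h1).2 (C.mem_inl.1 hy).2
  have h3 : aff t.1 (bl l u) ∈ Mh := aff_mem C.r_lt (C.mem_inr.1 hu)
  obtain ⟨h4, h5⟩ := C.B.psE_eq_sm (i := (t : Rt)) hu h2 h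
  have h6 : Q0 (sec i.2 y) = Q0 (aff t.1 (bl l u)) := h5
  refine ⟨h4, ?_, (Q0_eq h3 h1).1 h6.symm⟩
  rw [h6] at h2
  exact (C.notMem_Z h3).1 h2

theorem inr_inr (C : Cst) {t t' : Rt} {l l' : Fin 3} {u u' : E3}
    (hu : u ∈ C.P.U (Sum.inr (t, l))) (hu' : u' ∈ C.P.U (Sum.inr (t', l')))
    (h : C.P.ψ (Sum.inr (t, l)) u = C.P.ψ (Sum.inr (t', l')) u') :
    t = t' ∧ bl l u = bl l' u' ∧ dir l u l' ≠ 0 ∧ dir l' u' = (dir l u l')⁻¹ • dir l u :=
  C.B.psE_eq_psE hu hu' h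

/-- a chart over a blown-up point, off the exceptional divisor, is a base point -/
theorem inr_eq (C : Cst) {t : Rt} {l : Fin 3} {u : E3} (hu : u ∈ C.P.U (Sum.inr (t, l)))
    (h : u l ≠ 0) : C.P.ψ (Sum.inr (t, l)) u = C.B.sm (Q0 (aff t (bl l u))) :=
  C.B.psE_sm hu h

/-- off the origin of the ball the affine point is not in `Zh` -/
theorem aff_notMem (C : Cst) {t : ℂ} (ht : t ∈ Rt) {y : E3} (hy : y ∈ ball (0 : E3) C.r0)
    (h : y ≠ 0) : aff t y ∉ Zh := by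
  rw [← C.notMem_Z (aff_mem C.r_lt hy)]
  exact C.B.bp_not_Z (⟨t, ht⟩ : Rt) (mem_ball_zero_iff.1 hy) h

end Cst

end RG
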